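import Pool.Agent.Lib.H67G.B1
import Pool.Agent.Lib.H33W.U2

/-!
# B3 (M, general): sums over the cosets of a subgroup
-/

namespace Pool.Agent.Lib.H67G

open MeasureTheory Pool.Agent.Lib.H33W
open scoped ENNReal

noncomputable section

set_option linter.unusedSectionVars false


variable {H X : Type} [Group H] [MulAction H X]

open Classical in
/-- The sum over the cosets `U₀ γ` in `S` of `b(γ)` (`b`, `S` left invariant under `U₀`): complex, finitely many nonzero terms. -/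
def cs (U₀ : Subgroup H) (S : Set H) (b : H → ℂ) : ℂ :=
  ∑ᶠ c : H ⧸ U₀, if (Quotient.out c)⁻¹ ∈ S then b (Quotient.out c)⁻¹ else 0

open Classical in
/-- The same sum for functions with values in `[0, ∞]`. -/
def ce (U₀ : Subgroup H) (S : Set H) (b : H → ℝ≥0∞) : ℝ≥0∞ :=
  ∑' c : H ⧸ U₀, if (Quotient.out c)⁻¹ ∈ S then b (Quotient.out c)⁻¹ else 0

/-- `S` is invariant under left multiplication by `U₀`. -/
def LInv (U₀ : Subgroup H) (S : Set H) : Prop := ∀ u ∈ U₀, ∀ g, u * g ∈ S ↔ g ∈ S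

/-!
PROOFS. The representative `r = (Quotient.out c)⁻¹`, `c = mk g⁻¹`, satisfies `r = u g` with `u ∈ U₀` (`QuotientGroup.mk_out_eq_mul`, `Quotient.out_eq`, `QuotientGroup.eq`): `out_coset`.
`ce_eq`: group the elements of `H` into the cosets `U₀ γ` (a bijection `(H ⧸ U₀) × U₀ ≃ H`, `(c, u) ↦ u (out c)⁻¹`; compare `H33W.u2e`); for fixed `c` exactly one `u` has `u r • x ∈ F` (`SF.fd`) and `b (u r) = b r`.
`cs_shift`: `b'(γ) = b(γ g)`: the map `c ↦ mk (g c')` permutes the cosets (`c = mk γ⁻¹ ↦ mk (g γ⁻¹)`), `finsum_comp` / `Equiv` (`MulAction.toPerm` for the left action of `H` on `H ⧸ U₀`).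
`cs_self`: only the coset of `1`.
-/

theorem out_coset (U₀ : Subgroup H) (g : H) : ∃ u ∈ U₀, (Quotient.out (QuotientGroup.mk g⁻¹ : H ⧸ U₀))⁻¹ = u * g := by
  refine ⟨(Quotient.out (QuotientGroup.mk g⁻¹ : H ⧸ U₀))⁻¹ * g⁻¹, ?_, ?_⟩
  · exact QuotientGroup.eq.1 (QuotientGroup.out_eq' _)
  · rw [inv_mul_cancel_right]

theorem b3_inv (U₀ : Subgroup H) {M : Type*} {b : H → M} (hb : ∀ u ∈ U₀, ∀ g, b (u * g) = b g) (g : H) :
    b (Quotient.out (QuotientGroup.mk g⁻¹ : H ⧸ U₀))⁻¹ = b g := by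
  obtain ⟨u, hu, e⟩ := out_coset U₀ g
  rw [e, hb u hu]

theorem b3_mem (U₀ : Subgroup H) {S : Set H} (hS : LInv U₀ S) (g : H) :
    (Quotient.out (QuotientGroup.mk g⁻¹ : H ⧸ U₀))⁻¹ ∈ S ↔ g ∈ S := by
  obtain ⟨u, hu, e⟩ := out_coset U₀ g
  rw [e, hS u hu]

theorem ce_eq {U₀ : Subgroup H} [MeasurableSpace X] {F : Set X} (hF : SF U₀ F) {S : Set H} (hS : LInv U₀ S) {b : H → ℝ≥0∞}
    (hb : ∀ u ∈ U₀, ∀ g, b (u * g) = b g) (x : X) :
    ∑' γ : H, (S.indicator (1 : H → ℝ≥0∞) γ) * F.indicator (1 : X → ℝ≥0∞) (γ • x) * b γ = ce U₀ S b := by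
  classical
  rw [← (Equiv.inv H).tsum_eq, ← (u2e U₀).tsum_eq]
  refine (ENNReal.tsum_prod (f := fun (c : H ⧸ U₀) (u : U₀) =>
    (S.indicator (1 : H → ℝ≥0∞) (Equiv.inv H (u2e U₀ (c, u)))) *
      F.indicator (1 : X → ℝ≥0∞) ((Equiv.inv H (u2e U₀ (c, u))) • x) * b (Equiv.inv H (u2e U₀ (c, u))))).trans ?_
  unfold ce
  refine tsum_congr fun c => ?_
  have e : ∀ u : U₀, (S.indicator (1 : H → ℝ≥0∞) (Equiv.inv H (u2e U₀ (c, u)))) *
      F.indicator (1 : X → ℝ≥0∞) ((Equiv.inv H (u2e U₀ (c, u))) • x) * b (Equiv.inv H (u2e U₀ (c, u))) =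
      (if (Quotient.out c)⁻¹ ∈ S then b (Quotient.out c)⁻¹ else 0) *
        F.indicator (1 : X → ℝ≥0∞) (u⁻¹ • ((Quotient.out c)⁻¹ • x)) := by
    intro u
    have e1 : Equiv.inv H (u2e U₀ (c, u)) = (u : H)⁻¹ * (Quotient.out c)⁻¹ := by
      show ((Quotient.out c) * (u : H))⁻¹ = _
      rw [mul_inv_rev]
    have e2 : ((u : H)⁻¹ * (Quotient.out c)⁻¹) • x = u⁻¹ • ((Quotient.out c)⁻¹ • x) := by
      rw [mul_smul]; rfl
    have e3 : (u : H)⁻¹ * (Quotient.out c)⁻¹ ∈ S ↔ (Quotient.out c)⁻¹ ∈ S := hS _ (U₀.inv_mem u.2) _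
    rw [e1, e2, hb _ (U₀.inv_mem u.2)]
    by_cases h : (Quotient.out c)⁻¹ ∈ S
    · rw [if_pos h, Set.indicator_of_mem (e3.2 h), Pi.one_apply, one_mul, mul_comm]
    · rw [if_neg h, Set.indicator_of_notMem fun h' => h (e3.1 h'), zero_mul, zero_mul]
  simp_rw [e]
  rw [ENNReal.tsum_mul_left, u2_sum_inv hF, mul_one]

/-- The permutation of the cosets. -/
def b3_perm (U₀ : Subgroup H) (g : H) : Equiv.Perm (H ⧸ U₀) := MulAction.toPerm (g⁻¹ : H)

theorem b3_out (U₀ : Subgroup H) (g : H) (c : H ⧸ U₀) : ∃ u ∈ U₀, (Quotient.out (b3_perm U₀ g c))⁻¹ = u * ((Quotient.out c)⁻¹ * g) := by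
  have e : b3_perm U₀ g c = QuotientGroup.mk ((Quotient.out c)⁻¹ * g)⁻¹ := by
    rw [mul_inv_rev, inv_inv]
    show g⁻¹ • c = _
    conv_lhs => rw [← QuotientGroup.out_eq' c]
    rfl
  rw [e]
  exact out_coset U₀ _

open Classical in
theorem b3_fun {M : Type*} [Zero M] {U₀ : Subgroup H} {S : Set H} (hS : LInv U₀ S) {b : H → M} (hb : ∀ u ∈ U₀, ∀ g, b (u * g) = b g) (g : H)
    (hg : ∀ γ, γ * g ∈ S ↔ γ ∈ S) (c : H ⧸ U₀) :
    (if (Quotient.out c)⁻¹ ∈ S then b ((Quotient.out c)⁻¹ * g) else 0) =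
      (fun c : H ⧸ U₀ => if (Quotient.out c)⁻¹ ∈ S then b (Quotient.out c)⁻¹ else 0) (b3_perm U₀ g c) := by
  obtain ⟨u, hu, e⟩ := b3_out U₀ g c
  show _ = (if (Quotient.out (b3_perm U₀ g c))⁻¹ ∈ S then b (Quotient.out (b3_perm U₀ g c))⁻¹ else 0)
  rw [e, hb u hu]
  by_cases h : (Quotient.out c)⁻¹ ∈ S
  · rw [if_pos h, if_pos ((hS u hu _).2 ((hg _).2 h))]
  · rw [if_neg h, if_neg fun h' => h ((hg _).1 ((hS u hu _).1 h'))]

theorem cs_shift {U₀ : Subgroup H} {S : Set H} (hS : LInv U₀ S) {b : H → ℂ} (hb : ∀ u ∈ U₀, ∀ g, b (u * g) = b g) (g : H)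
    (hg : ∀ γ, γ * g ∈ S ↔ γ ∈ S) : cs U₀ S (fun γ => b (γ * g)) = cs U₀ S b := by
  classical
  refine Eq.trans (finsum_congr fun c => b3_fun hS hb g hg c) ?_
  exact finsum_comp_equiv (b3_perm U₀ g) (f := fun c : H ⧸ U₀ => if (Quotient.out c)⁻¹ ∈ S then b (Quotient.out c)⁻¹ else 0)

theorem ce_shift {U₀ : Subgroup H} {S : Set H} (hS : LInv U₀ S) {b : H → ℝ≥0∞} (hb : ∀ u ∈ U₀, ∀ g, b (u * g) = b g) (g : H)
    (hg : ∀ γ, γ * g ∈ S ↔ γ ∈ S) : ce U₀ S (fun γ => b (γ * g)) = ce U₀ S b := by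
  classical
  refine Eq.trans (tsum_congr fun c => b3_fun hS hb g hg c) ?_
  exact (b3_perm U₀ g).tsum_eq (fun c : H ⧸ U₀ => if (Quotient.out c)⁻¹ ∈ S then b (Quotient.out c)⁻¹ else 0)

theorem cs_self {U₀ : Subgroup H} {b : H → ℂ} (hb : ∀ u ∈ U₀, ∀ g, b (u * g) = b g) : cs U₀ (U₀ : Set H) b = b 1 := by
  classical
  have hS : LInv U₀ (U₀ : Set H) := fun u hu g => U₀.mul_mem_cancel_left hu
  unfold cs
  rw [finsum_eq_single _ (QuotientGroup.mk (1 : H)⁻¹ : H ⧸ U₀)]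
  · rw [if_pos ((b3_mem U₀ hS 1).2 U₀.one_mem), b3_inv U₀ hb]
  · intro c hc
    rw [if_neg]
    intro h
    apply hc
    rw [← QuotientGroup.out_eq' c]
    refine QuotientGroup.eq.2 ?_
    rw [inv_one, mul_one]
    exact h

theorem cs_norm {U₀ : Subgroup H} {S : Set H} {b : H → ℂ}
    (hf : {c : H ⧸ U₀ | (Quotient.out c)⁻¹ ∈ S ∧ b (Quotient.out c)⁻¹ ≠ 0}.Finite) : ‖cs U₀ S b‖ₑ ≤ ce U₀ S (fun γ => ‖b γ‖ₑ) := by
  classical
  unfold cs ce
  rw [finsum_eq_sum_of_support_subset (s := hf.toFinset)]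
  · refine (enorm_sum_le _ _).trans ?_
    refine le_trans (Finset.sum_le_sum fun c _ => ?_) (ENNReal.sum_le_tsum hf.toFinset)
    by_cases h : (Quotient.out c)⁻¹ ∈ S
    · rw [if_pos h, if_pos h]
    · rw [if_neg h, if_neg h, enorm_zero]
  · intro c hc
    rw [Function.mem_support] at hc
    rw [Set.Finite.coe_toFinset]
    by_cases h : (Quotient.out c)⁻¹ ∈ S
    · rw [if_pos h] at hc
      exact ⟨h, hc⟩
    · rw [if_neg h] at hc
      exact absurd rfl hc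

theorem cs_mono {U₀ : Subgroup H} {S S' : Set H} (hSS : S ⊆ S') (hS : LInv U₀ S) (hS' : LInv U₀ S') {b : H → ℂ}
    (hf : {c : H ⧸ U₀ | (Quotient.out c)⁻¹ ∈ S' ∧ b (Quotient.out c)⁻¹ ≠ 0}.Finite) :
    cs U₀ S' b = cs U₀ S b + cs U₀ (S' \ S) b := by
  classical
  unfold cs
  rw [← finsum_add_distrib]
  · refine finsum_congr fun c => ?_
    by_cases h : (Quotient.out c)⁻¹ ∈ S
    · rw [if_pos h, if_pos (hSS h), if_neg fun h' => h'.2 h, add_zero]
    · by_cases h' : (Quotient.out c)⁻¹ ∈ S'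
      · rw [if_pos h', if_neg h, if_pos ⟨h', h⟩, zero_add]
      · rw [if_neg h', if_neg h, if_neg fun h'' => h' h''.1, zero_add]
  · refine hf.subset fun c hc => ?_
    rw [Function.mem_support] at hc
    by_cases h : (Quotient.out c)⁻¹ ∈ S
    · rw [if_pos h] at hc
      exact ⟨hSS h, hc⟩
    · rw [if_neg h] at hc
      exact absurd rfl hc
  · refine hf.subset fun c hc => ?_
    rw [Function.mem_support] at hc
    by_cases h : (Quotient.out c)⁻¹ ∈ S' \ S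
    · rw [if_pos h] at hc
      exact ⟨h.1, hc⟩
    · rw [if_neg h] at hc
      exact absurd rfl hc

/-- Measurability: pointwise finite sums of measurable functions over a countable index set (a limit over the finite sets, `measurable_of_tendsto_metrizable'`, or the real and imaginary parts as differences of `tsum`s). -/
theorem cs_meas [MeasurableSpace X] [Countable H] (U₀ : Subgroup H) (S : Set H) {b : H → X → ℂ} (mb : ∀ γ, Measurable (b γ))
    (hf : ∀ x, {c : H ⧸ U₀ | (Quotient.out c)⁻¹ ∈ S ∧ b (Quotient.out c)⁻¹ x ≠ 0}.Finite) : Measurable fun x => cs U₀ S (fun γ => b γ x) := by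
  classical
  have hc : Countable (H ⧸ U₀) := Quotient.countable
  refine measurable_of_tendsto_metrizable' (Filter.atTop : Filter (Finset (H ⧸ U₀)))
    (f := fun s x => ∑ c ∈ s, if (Quotient.out c)⁻¹ ∈ S then b (Quotient.out c)⁻¹ x else 0) (fun s => ?_) ?_
  · refine Finset.measurable_fun_sum s fun c _ => ?_
    by_cases h : (Quotient.out c)⁻¹ ∈ S
    · simp only [if_pos h]
      exact mb _
    · simp only [if_neg h]
      exact measurable_const
  · rw [tendsto_pi_nhds]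
    intro x
    have hs : (Function.support fun c : H ⧸ U₀ => if (Quotient.out c)⁻¹ ∈ S then b (Quotient.out c)⁻¹ x else 0).Finite := by
      refine (hf x).subset fun c hc => ?_
      rw [Function.mem_support] at hc
      by_cases h : (Quotient.out c)⁻¹ ∈ S
      · rw [if_pos h] at hc
        exact ⟨h, hc⟩
      · rw [if_neg h] at hc
        exact absurd rfl hc
    have h1 : HasSum (fun c : H ⧸ U₀ => if (Quotient.out c)⁻¹ ∈ S then b (Quotient.out c)⁻¹ x else 0)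
        (∑' c : H ⧸ U₀, if (Quotient.out c)⁻¹ ∈ S then b (Quotient.out c)⁻¹ x else 0) :=
      (summable_of_hasFiniteSupport hs).hasSum
    rw [tsum_eq_finsum hs] at h1
    exact h1

end

end Pool.Agent.Lib.H67G
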