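import Pool.Agent.Lib.H33W.A2

/-!
# B1 (M, general measure theory): averages over a group
-/

namespace Pool.Agent.Lib.H67G

open MeasureTheory Pool.Agent.Lib.H33W
open scoped ENNReal

noncomputable section

set_option linter.unusedSectionVars false


/-- The data of an averaging: `tr t x` is the product `t x` of an element `t` of a (unimodular) group with the space `X`, `ι t` the inverse of `t`; the group `H` acts on both. -/
structure Avg (H : Type) {X T : Type} [Group H] [MulAction H X] [MulAction H T] [MeasurableSpace X] [MeasurableSpace T] (μ : Measure X) (ν : Measure T)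
    (tr : T → X → X) (ι : T → T) : Prop where
  trm : Measurable fun p : T × X => tr p.1 p.2
  trp : ∀ t, MeasurePreserving (tr t) μ μ
  im : MeasurePreserving ι ν ν
  inv1 : ∀ t x, tr (ι t) (tr t x) = x
  inv2 : ∀ t x, tr t (tr (ι t) x) = x
  act : ∀ (h : H) t x, tr (h • t) x = h • tr t x
  ht : ∀ h : H, MeasurePreserving (fun t : T => h • t) ν ν

variable {H X T : Type} [Group H] [MulAction H X] [MulAction H T] [MeasurableSpace X] [MeasurableSpace T] {μ : Measure X} {ν : Measure T}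
  {tr : T → X → X} {ι : T → T} {Γ : Subgroup H}

theorem Avg.iact (hA : Avg H μ ν tr ι) (h : H) (t : T) (x : X) : tr (ι (h • t)) (h • x) = tr (ι t) x := by
  have e : h • x = tr (h • t) (tr (ι t) x) := by rw [hA.act, hA.inv2]
  rw [e, hA.inv1]

/-- Unfolding on `T`: the same as `H33W.sf_unfold` for the action of `Γ` on `T` (the hypothesis is that every `h` preserves `ν`). -/
theorem unfold_T (hA : Avg H μ ν tr ι) [Countable Γ] {D : Set T} (hD : SF Γ D) {G : T → ℝ≥0∞} (hG : Measurable G) :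
    ∫⁻ t, G t ∂ν = ∫⁻ t in D, ∑' γ : Γ, G (γ.1 • t) ∂ν := by
  have hm : MeasurableSet D := hD.meas
  have hone : ∀ x : T, ∑' γ : Γ, D.indicator (fun _ => (1 : ℝ≥0∞)) (γ.1 • x) = 1 := fun x =>
    a1_single (hD.fd x) (fun z hz => Set.indicator_of_mem hz _) (fun z hz => Set.indicator_of_notMem hz _)
  calc ∫⁻ x, G x ∂ν = ∫⁻ x, ∑' γ : Γ, G x * D.indicator (fun _ => (1 : ℝ≥0∞)) (γ.1 • x) ∂ν := by
        refine lintegral_congr fun x => ?_
        rw [ENNReal.tsum_mul_left, hone, mul_one]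
    _ = ∑' γ : Γ, ∫⁻ x, G x * D.indicator (fun _ => (1 : ℝ≥0∞)) (γ.1 • x) ∂ν :=
        lintegral_tsum fun γ => (hG.mul ((measurable_const.indicator hm).comp (hA.ht γ.1).measurable)).aemeasurable
    _ = ∑' γ : Γ, ∫⁻ x in D, G (γ.1⁻¹ • x) ∂ν := by
        refine tsum_congr fun γ => ?_
        have m0 : Measurable fun x => G (γ.1⁻¹ • x) * D.indicator (fun _ => (1 : ℝ≥0∞)) x :=
          (hG.comp (hA.ht γ.1⁻¹).measurable).mul (measurable_const.indicator hm)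
        have h1 := (hA.ht γ.1).lintegral_comp m0
        simp only [inv_smul_smul] at h1
        rw [h1, ← lintegral_indicator hm]
        refine lintegral_congr fun v => ?_
        by_cases hv : v ∈ D
        · rw [Set.indicator_of_mem hv, Set.indicator_of_mem hv, mul_one]
        · rw [Set.indicator_of_notMem hv, Set.indicator_of_notMem hv, mul_zero]
    _ = ∑' γ : Γ, ∫⁻ x in D, G (γ.1 • x) ∂ν := by
        rw [← (Equiv.inv Γ).tsum_eq]
        refine tsum_congr fun γ => ?_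
        have e : (Equiv.inv Γ γ).1⁻¹ = γ.1 := by
          change ((γ⁻¹ : Γ).1)⁻¹ = γ.1
          rw [InvMemClass.coe_inv, inv_inv]
        rw [e]
    _ = ∫⁻ x in D, ∑' γ : Γ, G (γ.1 • x) ∂ν :=
        (lintegral_tsum (μ := ν.restrict D) fun γ : Γ => (hG.comp (hA.ht γ.1).measurable).aemeasurable).symm

theorem b1_ind {α : Type} (S : Set α) (f : α → ℝ≥0∞) (a : α) :
    S.indicator f a = S.indicator (fun _ => (1 : ℝ≥0∞)) a * f a := by
  by_cases ha : a ∈ S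
  · rw [Set.indicator_of_mem ha, Set.indicator_of_mem ha, one_mul]
  · rw [Set.indicator_of_notMem ha, Set.indicator_of_notMem ha, zero_mul]

theorem b1_trm (hA : Avg H μ ν tr ι) : Measurable fun p : T × X => tr (ι p.1) p.2 :=
  hA.trm.comp ((hA.im.measurable.comp measurable_fst).prodMk measurable_snd)

theorem b1_trt (hA : Avg H μ ν tr ι) (y : X) : Measurable fun s : T => tr (ι s) y :=
  (b1_trm hA).comp (measurable_id.prodMk measurable_const)

/-- PROOF. `∫_{t ∈ D} ∫_x k(x) φ(tr t x) = ∫_{t ∈ D} ∫_y k(tr (ι t) y) φ(y)` (`x = tr (ι t) y`, `trp (ι t)`, `inv2`) `= ∫_y φ(y) g(y)`, `g(y) = ∫_{t ∈ D} k(tr (ι t) y)` (Tonelli) `= ∫_{y ∈ F} φ(y) ∑_γ g(γ y)` (`H33W.sf_unfold`, `φ(γ y) = φ(y)`).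
`g(γ y) = ∫_t 1_D(t) k(tr (ι t) (γ y))`; substitute `t = γ s` (`ht`): `= ∫_s 1_D(γ s) k(tr (ι (γ s)) (γ y)) = ∫_s 1_D(γ s) k(tr (ι s) y)` (`Avg.iact`); `∑_γ 1_D(γ s) = 1` (`SF.fd`; compare `H33W.a1_single`). So `∑_γ g(γ y) = ∫_s k(tr (ι s) y)`.
Measurability of `(t, y) ↦ tr (ι t) y`: `trm`, `im.measurable`. -/
theorem avu_gen (hA : Avg H μ ν tr ι) [Countable Γ] [MeasurableConstSMul H X] [SMulInvariantMeasure H X μ] [SFinite μ] [SFinite ν]
    {D : Set T} (hD : SF Γ D) {F : Set X} (hF : SF Γ F) {φ k : X → ℝ≥0∞} (mφ : Measurable φ) (mk : Measurable k)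
    (iφ : ∀ γ ∈ Γ, ∀ x, φ (γ • x) = φ x) :
    ∫⁻ t in D, ∫⁻ x, k x * φ (tr t x) ∂μ ∂ν = ∫⁻ y in F, φ y * ∫⁻ s, k (tr (ι s) y) ∂ν ∂μ := by
  have mD := hD.meas
  have m1D : Measurable (D.indicator fun _ => (1 : ℝ≥0∞)) := measurable_const.indicator mD
  have s1 : ∀ t, ∫⁻ x, k x * φ (tr t x) ∂μ = ∫⁻ y, k (tr (ι t) y) * φ y ∂μ := by
    intro t
    have m3 : Measurable fun y : X => k (tr (ι t) y) * φ y := (mk.comp (hA.trp (ι t)).measurable).mul mφ
    rw [← (hA.trp t).lintegral_comp m3]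
    refine lintegral_congr fun x => ?_
    rw [hA.inv1]
  have m4 : Measurable fun p : T × X => D.indicator (fun _ => (1 : ℝ≥0∞)) p.1 * k (tr (ι p.1) p.2) :=
    (m1D.comp measurable_fst).mul (mk.comp (b1_trm hA))
  have s2 : ∫⁻ t in D, ∫⁻ x, k x * φ (tr t x) ∂μ ∂ν =
      ∫⁻ t, ∫⁻ y, D.indicator (fun _ => (1 : ℝ≥0∞)) t * k (tr (ι t) y) * φ y ∂μ ∂ν := by
    rw [← lintegral_indicator mD]
    refine lintegral_congr fun t => ?_
    rw [b1_ind D, s1 t]
    have m3 : Measurable fun y : X => k (tr (ι t) y) * φ y := (mk.comp (hA.trp (ι t)).measurable).mul mφ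
    rw [← lintegral_const_mul _ m3]
    refine lintegral_congr fun y => ?_
    rw [mul_assoc]
  have s3 : ∫⁻ t, ∫⁻ y, D.indicator (fun _ => (1 : ℝ≥0∞)) t * k (tr (ι t) y) * φ y ∂μ ∂ν =
      ∫⁻ y, ∫⁻ t, D.indicator (fun _ => (1 : ℝ≥0∞)) t * k (tr (ι t) y) * φ y ∂ν ∂μ :=
    lintegral_lintegral_swap (m4.mul (mφ.comp measurable_snd)).aemeasurable
  have mB : Measurable fun y : X => ∫⁻ t, D.indicator (fun _ => (1 : ℝ≥0∞)) t * k (tr (ι t) y) ∂ν :=
    Measurable.lintegral_prod_left' (f := fun p : T × X => D.indicator (fun _ => (1 : ℝ≥0∞)) p.1 *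
      k (tr (ι p.1) p.2)) m4
  have s4 : ∀ y, ∫⁻ t, D.indicator (fun _ => (1 : ℝ≥0∞)) t * k (tr (ι t) y) * φ y ∂ν =
      (∫⁻ t, D.indicator (fun _ => (1 : ℝ≥0∞)) t * k (tr (ι t) y) ∂ν) * φ y := fun y =>
    lintegral_mul_const _ (m1D.mul (mk.comp (b1_trt hA y)))
  have s5 : ∀ y, ∑' γ : Γ, ∫⁻ t, D.indicator (fun _ => (1 : ℝ≥0∞)) t * k (tr (ι t) (γ.1 • y)) ∂ν =
      ∫⁻ s, k (tr (ι s) y) ∂ν := by
    intro y
    have e1 : ∀ γ : Γ, ∫⁻ t, D.indicator (fun _ => (1 : ℝ≥0∞)) t * k (tr (ι t) (γ.1 • y)) ∂ν =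
        ∫⁻ s, D.indicator (fun _ => (1 : ℝ≥0∞)) (γ.1 • s) * k (tr (ι s) y) ∂ν := by
      intro γ
      have m5 : Measurable fun t : T => D.indicator (fun _ => (1 : ℝ≥0∞)) t * k (tr (ι t) (γ.1 • y)) :=
        m1D.mul (mk.comp (b1_trt hA _))
      rw [← (hA.ht γ.1).lintegral_comp m5]
      refine lintegral_congr fun s => ?_
      rw [hA.iact]
    have e3 : ∑' γ : Γ, ∫⁻ s, D.indicator (fun _ => (1 : ℝ≥0∞)) (γ.1 • s) * k (tr (ι s) y) ∂ν =
        ∫⁻ s, ∑' γ : Γ, D.indicator (fun _ => (1 : ℝ≥0∞)) (γ.1 • s) * k (tr (ι s) y) ∂ν :=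
      (lintegral_tsum fun γ : Γ =>
        ((m1D.comp (hA.ht γ.1).measurable).mul (mk.comp (b1_trt hA y))).aemeasurable).symm
    rw [tsum_congr e1, e3]
    refine lintegral_congr fun s => ?_
    have e2 : ∑' γ : Γ, D.indicator (fun _ => (1 : ℝ≥0∞)) (γ.1 • s) = 1 :=
      a1_single (hD.fd s) (fun z hz => Set.indicator_of_mem hz _) (fun z hz => Set.indicator_of_notMem hz _)
    rw [ENNReal.tsum_mul_right, e2, one_mul]
  rw [s2, s3]
  rw [lintegral_congr s4]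
  have mG : Measurable fun y : X => (∫⁻ t, D.indicator (fun _ => (1 : ℝ≥0∞)) t * k (tr (ι t) y) ∂ν) * φ y := mB.mul mφ
  rw [sf_unfold hF mG]
  refine lintegral_congr fun y => ?_
  rw [← s5 y, mul_comm (φ y), ← ENNReal.tsum_mul_right]
  refine tsum_congr fun γ => ?_
  rw [iφ γ.1 γ.2]

/-- PROOF. `avu_gen` with `k = 1_F`: `∫_s 1_F(tr (ι s) y) = ∫_s 1_F(tr s y)` (`im`) `= ∫_{s ∈ D} ∑_γ 1_F(γ (tr s y)) = ν(D)` (`unfold_T`, `act`, `SF.fd`). And Tonelli on the left side. -/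
theorem avu_lint (hA : Avg H μ ν tr ι) [Countable Γ] [MeasurableConstSMul H X] [SMulInvariantMeasure H X μ] [SFinite μ] [SFinite ν]
    {D : Set T} (hD : SF Γ D) {F : Set X} (hF : SF Γ F) {φ : X → ℝ≥0∞} (mφ : Measurable φ)
    (iφ : ∀ γ ∈ Γ, ∀ x, φ (γ • x) = φ x) : ∫⁻ x in F, ∫⁻ t in D, φ (tr t x) ∂ν ∂μ = ν D * ∫⁻ x in F, φ x ∂μ := by
  have mD := hD.meas
  have mF := hF.meas
  have m1D : Measurable (D.indicator fun _ => (1 : ℝ≥0∞)) := measurable_const.indicator mD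
  have m1F : Measurable (F.indicator fun _ => (1 : ℝ≥0∞)) := measurable_const.indicator mF
  have s1 : ∫⁻ x in F, ∫⁻ t in D, φ (tr t x) ∂ν ∂μ =
      ∫⁻ t in D, ∫⁻ x in F, φ (tr t x) ∂μ ∂ν := by
    refine lintegral_lintegral_swap ?_
    exact (mφ.comp (hA.trm.comp (measurable_snd.prodMk measurable_fst))).aemeasurable
  have s2 : ∀ t, ∫⁻ x in F, φ (tr t x) ∂μ = ∫⁻ x, F.indicator (fun _ => (1 : ℝ≥0∞)) x * φ (tr t x) ∂μ := by
    intro t
    rw [← lintegral_indicator mF]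
    exact lintegral_congr fun x => b1_ind F (fun x => φ (tr t x)) x
  have s3 : ∀ y, ∫⁻ s, F.indicator (fun _ => (1 : ℝ≥0∞)) (tr (ι s) y) ∂ν = ν D := by
    intro y
    have m2 : Measurable fun s : T => F.indicator (fun _ => (1 : ℝ≥0∞)) (tr s y) :=
      m1F.comp (hA.trm.comp (measurable_id.prodMk measurable_const))
    have e1 := hA.im.lintegral_comp m2
    have e2 := unfold_T hA hD m2
    have e3 : ∀ s, ∑' γ : Γ, F.indicator (fun _ => (1 : ℝ≥0∞)) (tr (γ.1 • s) y) = 1 := by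
      intro s
      refine a1_single (hF.fd (tr s y)) (fun z hz => ?_) (fun z hz => ?_)
      · rw [hA.act]
        exact Set.indicator_of_mem hz _
      · rw [hA.act]
        exact Set.indicator_of_notMem hz _
    rw [lintegral_congr e3, lintegral_const, one_mul, Measure.restrict_apply_univ] at e2
    rw [← e2]
    exact e1
  have s4 : ∫⁻ z in F, φ z * ∫⁻ s, F.indicator (fun _ => (1 : ℝ≥0∞)) (tr (ι s) z) ∂ν ∂μ =
      ∫⁻ z in F, φ z * ν D ∂μ := lintegral_congr fun z => by rw [s3 z]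
  rw [s1, lintegral_congr s2, avu_gen hA hD hF mφ m1F iφ, s4, lintegral_mul_const _ mφ, mul_comm]

/-- PROOF. `avu_gen` with `k = 1_Q` and `φ(tr t x) = φ(x)`. -/
theorem avu_q (hA : Avg H μ ν tr ι) [Countable Γ] [MeasurableConstSMul H X] [SMulInvariantMeasure H X μ] [SFinite μ] [SFinite ν]
    {D : Set T} (hD : SF Γ D) {F : Set X} (hF : SF Γ F) {φ : X → ℝ≥0∞} (mφ : Measurable φ)
    (iφ : ∀ γ ∈ Γ, ∀ x, φ (γ • x) = φ x) (uφ : ∀ t x, φ (tr t x) = φ x) {Q : Set X} (mQ : MeasurableSet Q) :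
    ν D * ∫⁻ y in Q, φ y ∂μ = ∫⁻ z in F, φ z * ν {s | tr (ι s) z ∈ Q} ∂μ := by
  have m1Q : Measurable (Q.indicator fun _ => (1 : ℝ≥0∞)) := measurable_const.indicator mQ
  have s1 : ∀ z, ∫⁻ s, Q.indicator (fun _ => (1 : ℝ≥0∞)) (tr (ι s) z) ∂ν = ν {s | tr (ι s) z ∈ Q} := by
    intro z
    have e1 : ∀ s, Q.indicator (fun _ => (1 : ℝ≥0∞)) (tr (ι s) z) =
        {s | tr (ι s) z ∈ Q}.indicator (fun _ => (1 : ℝ≥0∞)) s := fun s => rfl
    have mS : MeasurableSet {s | tr (ι s) z ∈ Q} := (b1_trt hA z) mQ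
    rw [lintegral_congr e1, lintegral_indicator mS, lintegral_const, one_mul, Measure.restrict_apply_univ]
  have s2 := avu_gen hA hD hF mφ m1Q iφ
  have s4 : ∫⁻ z in F, φ z * ν {s | tr (ι s) z ∈ Q} ∂μ =
      ∫⁻ z in F, φ z * ∫⁻ s, Q.indicator (fun _ => (1 : ℝ≥0∞)) (tr (ι s) z) ∂ν ∂μ :=
    lintegral_congr fun z => by rw [s1 z]
  rw [s4, ← s2]
  have s3 : ∀ t, ∫⁻ x, Q.indicator (fun _ => (1 : ℝ≥0∞)) x * φ (tr t x) ∂μ = ∫⁻ y in Q, φ y ∂μ := by
    intro t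
    rw [← lintegral_indicator mQ]
    refine lintegral_congr fun x => ?_
    rw [uφ, b1_ind Q φ]
  rw [lintegral_congr s3, lintegral_const, Measure.restrict_apply_univ, mul_comm]

end

end Pool.Agent.Lib.H67G
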