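import Pool.Agent.Lib.H67G.B1

/-!
# B2 (M, general measure theory): complex averages
-/

namespace Pool.Agent.Lib.H67G

open MeasureTheory Pool.Agent.Lib.H33W
open scoped ENNReal

noncomputable section

set_option linter.unusedSectionVars false


variable {H X T : Type} [Group H] [MulAction H X] [MulAction H T] [MeasurableSpace X] [MeasurableSpace T] {μ : Measure X} {ν : Measure T}
  {tr : T → X → X} {ι : T → T} {Γ : Subgroup H}

/-- PROOF. `H33W.a2_cx` with `ρ₁ = (μ.restrict (F ∩ S)).prod (ν.restrict D)`, `ρ₂ = μ.restrict (F ∩ S)`, `f₁ (x, t) = φ (tr t x)`, `f₂ = φ`, `c₁ = 1`, `c₂ = ν D`; the hypothesis `h` of `a2_cx` is `avu_lint` for the function `x ↦ 1_S(x) g(φ x)` (`S` is invariant).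
`φ` is bounded on `S` only: replace `φ` by `1_S φ` (the values outside `S` do not matter). Then `∫_{(x,t)} φ(tr t x) = ν(D) ∫ φ`, Fubini (`integral_prod`, bounded measurable functions on finite measure spaces), and divide by `ν(D)` (`average = (ν D)⁻¹ ∫`). -/
theorem avu_cx (hA : Avg H μ ν tr ι) [Countable Γ] [MeasurableConstSMul H X] [SMulInvariantMeasure H X μ] [SFinite μ] [SFinite ν]
    {D : Set T} (hD : SF Γ D) {F : Set X} (hF : SF Γ F) (hD0 : ν D ≠ 0) (hD1 : ν D ≠ ⊤) {S : Set X} (mS : MeasurableSet S)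
    (hS : ∀ t x, tr t x ∈ S ↔ x ∈ S) (hS' : ∀ γ ∈ Γ, ∀ x, γ • x ∈ S ↔ x ∈ S) (hF1 : μ (F ∩ S) ≠ ⊤)
    {φ : X → ℂ} (mφ : Measurable φ) (iφ : ∀ γ ∈ Γ, ∀ x, φ (γ • x) = φ x) {B : ℝ} (hB : ∀ x ∈ S, ‖φ x‖ ≤ B) :
    ∫ x in F ∩ S, (⨍ t in D, φ (tr t x) ∂ν) ∂μ = ∫ x in F ∩ S, φ x ∂μ := by
  have mFS : MeasurableSet (F ∩ S) := hF.meas.inter mS
  have f1 : IsFiniteMeasure (μ.restrict (F ∩ S)) :=
    ⟨by rw [Measure.restrict_apply_univ]; exact lt_top_iff_ne_top.2 hF1⟩
  have f2 : IsFiniteMeasure (ν.restrict D) :=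
    ⟨by rw [Measure.restrict_apply_univ]; exact lt_top_iff_ne_top.2 hD1⟩
  obtain ⟨ψ, hψ⟩ : ∃ ψ : X → ℂ, ψ = S.indicator φ := ⟨_, rfl⟩
  have mψ : Measurable ψ := by rw [hψ]; exact mφ.indicator mS
  have ψin : ∀ x ∈ S, ψ x = φ x := fun x hx => by rw [hψ, Set.indicator_of_mem hx]
  have ψout : ∀ x, x ∉ S → ψ x = 0 := fun x hx => by rw [hψ, Set.indicator_of_notMem hx]
  have iψ : ∀ γ ∈ Γ, ∀ x, ψ (γ • x) = ψ x := by
    intro γ hγ x
    by_cases hx : x ∈ S
    · rw [ψin _ ((hS' γ hγ x).2 hx), ψin x hx, iφ γ hγ x]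
    · rw [ψout _ (fun h => hx ((hS' γ hγ x).1 h)), ψout x hx]
  have bψ : ∀ x, ‖ψ x‖ ≤ max B 0 := by
    intro x
    by_cases hx : x ∈ S
    · rw [ψin x hx]
      exact (hB x hx).trans (le_max_left _ _)
    · rw [ψout x hx, norm_zero]
      exact le_max_right _ _
  have mT : Measurable fun p : X × T => tr p.2 p.1 := hA.trm.comp (measurable_snd.prodMk measurable_fst)
  have mf : Measurable fun p : X × T => ψ (tr p.2 p.1) := mψ.comp mT
  have hkey := a2_cx (ρ₁ := (μ.restrict (F ∩ S)).prod (ν.restrict D)) (ρ₂ := μ.restrict (F ∩ S)) (c₁ := 1) (c₂ := ν D)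
    (f₁ := fun p : X × T => ψ (tr p.2 p.1)) (f₂ := ψ) mf mψ (fun p => bψ _) bψ (fun g mg => by
      have m6 : Measurable fun p : X × T => g (ψ (tr p.2 p.1)) := mg.comp mf
      rw [one_mul, lintegral_prod _ m6.aemeasurable]
      have h1 := avu_lint hA hD hF (φ := S.indicator fun x => g (ψ x)) ((mg.comp mψ).indicator mS)
        (fun γ hγ x => by
          by_cases hx : x ∈ S
          · rw [Set.indicator_of_mem ((hS' γ hγ x).2 hx), Set.indicator_of_mem hx, iψ γ hγ x]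
          · rw [Set.indicator_of_notMem (fun h => hx ((hS' γ hγ x).1 h)), Set.indicator_of_notMem hx])
      rw [Set.inter_comm F S, ← setLIntegral_indicator mS, ← setLIntegral_indicator mS, ← h1]
      refine lintegral_congr fun x => ?_
      by_cases hx : x ∈ S
      · rw [Set.indicator_of_mem hx]
        refine lintegral_congr fun t => ?_
        rw [Set.indicator_of_mem ((hS t x).2 hx)]
      · rw [Set.indicator_of_notMem hx]
        have e : ∀ t, S.indicator (fun x => g (ψ x)) (tr t x) = 0 := fun t => by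
          rw [Set.indicator_of_notMem (fun h => hx ((hS t x).1 h))]
        simp only [e, lintegral_zero])
  have hi : Integrable (fun p : X × T => ψ (tr p.2 p.1)) ((μ.restrict (F ∩ S)).prod (ν.restrict D)) :=
    Integrable.of_bound mf.aestronglyMeasurable (max B 0) (ae_of_all _ fun p => bψ _)
  rw [integral_prod _ hi] at hkey
  have hν : ((ν D).toReal : ℂ) ≠ 0 := by
    have h0 := ENNReal.toReal_pos hD0 hD1
    exact_mod_cast h0.ne'
  have e1 : ∀ x, ⨍ t in D, ψ (tr t x) ∂ν = ((ν D).toReal : ℂ)⁻¹ * ∫ t in D, ψ (tr t x) ∂ν := by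
    intro x
    rw [setAverage_eq, Complex.real_smul]
    push_cast
    rfl
  have e2 : ∫ x in F ∩ S, (⨍ t in D, φ (tr t x) ∂ν) ∂μ = ∫ x in F ∩ S, (⨍ t in D, ψ (tr t x) ∂ν) ∂μ := by
    refine setIntegral_congr_fun mFS fun x hx => ?_
    have : ∀ t, φ (tr t x) = ψ (tr t x) := fun t => (ψin _ ((hS t x).2 hx.2)).symm
    simp only [this]
  have e3 : ∫ x in F ∩ S, φ x ∂μ = ∫ x in F ∩ S, ψ x ∂μ :=
    setIntegral_congr_fun mFS fun x hx => (ψin x hx.2).symm
  rw [e2, e3]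
  simp only [e1]
  rw [integral_const_mul]
  rw [ENNReal.toReal_one, Complex.ofReal_one, one_mul] at hkey
  rw [hkey, ← mul_assoc, inv_mul_cancel₀ hν, one_mul]

end

end Pool.Agent.Lib.H67G
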