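import Pool.Agent.Lib.H67G.B3

/-!
# B4 (M/L, general measure theory): unfolding of Poincare series
-/

namespace Pool.Agent.Lib.H67G

open MeasureTheory Pool.Agent.Lib.H33W
open scoped ENNReal

noncomputable section

set_option linter.unusedSectionVars false


variable {H X : Type} [Group H] [MulAction H X] [MeasurableSpace X] {μ : Measure X}

theorem b4_linv {U₀ Γ : Subgroup H} (hle : U₀ ≤ Γ) : LInv U₀ (Γ : Set H) := fun _ hu _ =>
  Γ.mul_mem_cancel_left (hle hu)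

/-- The elements of `Γ` which send `x` to the fundamental domain of `U₀`, and the cosets. -/
theorem b4_bij {U₀ Γ : Subgroup H} (hle : U₀ ≤ Γ) {F_U : Set X} (hU : SF U₀ F_U) (x : X) :
    Set.BijOn (fun γ : Γ => (QuotientGroup.mk (γ.1)⁻¹ : H ⧸ U₀)) {γ : Γ | γ.1 • x ∈ F_U}
      {c : H ⧸ U₀ | (Quotient.out c)⁻¹ ∈ Γ} := by
  refine ⟨?_, ?_, ?_⟩
  · intro γ _
    exact (b3_mem U₀ (b4_linv hle) γ.1).2 γ.2
  · intro γ hγ γ' hγ' e
    have h : (γ.1⁻¹)⁻¹ * (γ'.1)⁻¹ ∈ U₀ := QuotientGroup.eq.1 e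
    rw [inv_inv] at h
    obtain ⟨u0, _, hun⟩ := hU.fd (γ'.1 • x)
    have h1 := hun 1 (by show (1 : U₀) • (γ'.1 • x) ∈ F_U; rw [one_smul]; exact hγ')
    have h2 := hun ⟨_, h⟩ (by
      show (γ.1 * (γ'.1)⁻¹) • (γ'.1 • x) ∈ F_U
      rw [mul_smul, inv_smul_smul]
      exact hγ)
    have h3 : γ.1 * (γ'.1)⁻¹ = 1 := congrArg Subtype.val (h2.trans h1.symm)
    exact Subtype.ext (mul_inv_eq_one.1 h3)
  · intro c hc
    obtain ⟨u, hu, _⟩ := hU.fd ((Quotient.out c)⁻¹ • x)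
    refine ⟨⟨u.1 * (Quotient.out c)⁻¹, Γ.mul_mem (hle u.2) hc⟩, ?_, ?_⟩
    · show (u.1 * (Quotient.out c)⁻¹) • x ∈ F_U
      rw [mul_smul]
      exact hu
    · show (QuotientGroup.mk (u.1 * (Quotient.out c)⁻¹)⁻¹ : H ⧸ U₀) = c
      rw [mul_inv_rev, inv_inv, QuotientGroup.mk_mul_of_mem _ (U₀.inv_mem u.2), QuotientGroup.out_eq']

theorem b4_fin {U₀ Γ : Subgroup H} (hle : U₀ ≤ Γ) {F_U : Set X} (hU : SF U₀ F_U) {θ : X → ℂ} (iθ : ∀ u ∈ U₀, ∀ x, θ (u • x) = θ x)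
    (hf : ∀ x, {c : H ⧸ U₀ | (Quotient.out c)⁻¹ ∈ Γ ∧ θ ((Quotient.out c)⁻¹ • x) ≠ 0}.Finite) (x : X) :
    (Function.support fun γ : Γ => F_U.indicator θ (γ.1 • x)).Finite := by
  have hb := b4_bij hle hU x
  have hsub : (Function.support fun γ : Γ => F_U.indicator θ (γ.1 • x)) ⊆ {γ : Γ | γ.1 • x ∈ F_U} := by
    intro γ hγ
    rw [Function.mem_support] at hγ
    by_contra h
    exact hγ (Set.indicator_of_notMem (show γ.1 • x ∉ F_U from h) _)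
  refine Set.Finite.of_injOn (f := fun γ : Γ => (QuotientGroup.mk (γ.1)⁻¹ : H ⧸ U₀)) ?_ (hb.injOn.mono hsub) (hf x)
  intro γ hγ
  have h1 := hsub hγ
  refine ⟨hb.mapsTo h1, ?_⟩
  rw [b3_inv U₀ (b := fun g => θ (g • x)) (fun u hu g => by rw [mul_smul, iθ u hu]) γ.1]
  rw [Function.mem_support, Set.indicator_of_mem (show γ.1 • x ∈ F_U from h1)] at hγ
  exact hγ

theorem b4_pt {U₀ Γ : Subgroup H} (hle : U₀ ≤ Γ) {F_U : Set X} (hU : SF U₀ F_U) {θ : X → ℂ} (iθ : ∀ u ∈ U₀, ∀ x, θ (u • x) = θ x)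
    (hf : ∀ x, {c : H ⧸ U₀ | (Quotient.out c)⁻¹ ∈ Γ ∧ θ ((Quotient.out c)⁻¹ • x) ≠ 0}.Finite) (x : X) :
    cs U₀ (Γ : Set H) (fun γ => θ (γ • x)) = ∑' γ : Γ, F_U.indicator θ (γ.1 • x) := by
  classical
  rw [tsum_eq_finsum (b4_fin hle hU iθ hf x)]
  have e1 : ∑ᶠ γ : Γ, F_U.indicator θ (γ.1 • x) = ∑ᶠ γ ∈ {γ : Γ | γ.1 • x ∈ F_U}, θ (γ.1 • x) := by
    rw [finsum_mem_def]
    refine finsum_congr fun γ => ?_
    by_cases h : γ.1 • x ∈ F_U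
    · rw [Set.indicator_of_mem h, Set.indicator_of_mem (show γ ∈ {γ : Γ | γ.1 • x ∈ F_U} from h)]
    · rw [Set.indicator_of_notMem h, Set.indicator_of_notMem (show γ ∉ {γ : Γ | γ.1 • x ∈ F_U} from h)]
  have e2 : cs U₀ (Γ : Set H) (fun γ => θ (γ • x)) =
      ∑ᶠ c ∈ {c : H ⧸ U₀ | (Quotient.out c)⁻¹ ∈ Γ}, θ ((Quotient.out c)⁻¹ • x) := by
    rw [finsum_mem_def]
    refine finsum_congr fun c => ?_
    by_cases h : (Quotient.out c)⁻¹ ∈ (Γ : Set H)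
    · rw [if_pos h, Set.indicator_of_mem (show c ∈ {c : H ⧸ U₀ | (Quotient.out c)⁻¹ ∈ Γ} from h)]
    · rw [if_neg h, Set.indicator_of_notMem (show c ∉ {c : H ⧸ U₀ | (Quotient.out c)⁻¹ ∈ Γ} from h)]
  rw [e1, e2]
  refine (finsum_mem_eq_of_bijOn _ (b4_bij hle hU x) fun γ _ => ?_).symm
  exact (b3_inv U₀ (b := fun g => θ (g • x)) (fun u hu g => by rw [mul_smul, iθ u hu]) γ.1).symm

/-- PROOF. `F' = {x | ∃ γ ∈ Γ, ..}`: choose the fundamental domain `F₂ = ⋃_c (out c)⁻¹ • F₁` of `U₀` (the union over the cosets `c : H ⧸ U₀` with `out c ∈ Γ`): every `x` is in exactly one translate `γ F₁`, `γ ∈ Γ`; so `SF U₀ F₂` and `∫_{F₂} φ = ∑_c ∫_{F₁} φ((out c)⁻¹ x)`.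
Both `F₂` and `F_U` are fundamental domains of `U₀`: `H33W.u2_lint` with `G = G'` or directly: `∫_{F₂} φ = ∫ 1_{F₂} φ = ∫_{F_U} ∑_u 1_{F₂}(u x) φ(x) = ∫_{F_U} φ` (`H33W.sf_unfold`). ALTERNATIVE without `F₂`: by `ce_eq`
`∫_{F₁} ce(φ(γ x)) = ∫_{F₁} ∑_{γ ∈ Γ} 1_{F_U}(γ x) φ(γ x) = ∫ 1_{F_U} φ` (`sf_unfold` for `Γ` and `G = 1_{F_U} φ`). This is the shortest. -/
theorem unfold_ce [Countable H] [MeasurableConstSMul H X] [SMulInvariantMeasure H X μ] {U₀ Γ : Subgroup H} (hle : U₀ ≤ Γ) {F₁ F_U : Set X}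
    (h1 : SF Γ F₁) (hU : SF U₀ F_U) {φ : X → ℝ≥0∞} (mφ : Measurable φ) (iφ : ∀ u ∈ U₀, ∀ x, φ (u • x) = φ x) :
    ∫⁻ x in F₁, ce U₀ (Γ : Set H) (fun γ => φ (γ • x)) ∂μ = ∫⁻ x in F_U, φ x ∂μ := by
  have mG : Measurable (F_U.indicator φ) := mφ.indicator hU.meas
  rw [← lintegral_indicator hU.meas, sf_unfold h1 mG]
  refine lintegral_congr fun x => ?_
  rw [← ce_eq hU (b4_linv hle) (b := fun γ => φ (γ • x)) (fun u hu g => by rw [mul_smul, iφ u hu]) x]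
  refine Eq.trans ?_ (tsum_subtype (Γ : Set H) (fun γ : H => F_U.indicator φ (γ • x))).symm
  refine tsum_congr fun γ => ?_
  by_cases h : γ ∈ (Γ : Set H)
  · rw [Set.indicator_of_mem h, Set.indicator_of_mem h, Pi.one_apply, one_mul]
    by_cases h' : γ • x ∈ F_U
    · rw [Set.indicator_of_mem h', Set.indicator_of_mem h', Pi.one_apply, one_mul]
    · rw [Set.indicator_of_notMem h', Set.indicator_of_notMem h', zero_mul]
  · rw [Set.indicator_of_notMem h, Set.indicator_of_notMem h, zero_mul, zero_mul]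

/-- The complex version. PROOF. For `θ ≥ 0` real this is `unfold_ce` with `φ = ofReal θ` (`integral_eq_lintegral_of_nonneg_ae`); the general case: `θ = θ₁ - θ₂ + i (θ₃ - θ₄)` with `0 ≤ θ_i ≤ |θ|` measurable, `U₀`-invariant, and `cs` is additive (finite support of `|θ|`: `hf`);
all the functions are integrable since `∫_{F_U} |θ| < ∞` and `∫_{F₁} ce(|θ(γ x)|) = ∫_{F_U} |θ|`. -/
theorem unfold_cs [Countable H] [MeasurableConstSMul H X] [SMulInvariantMeasure H X μ] {U₀ Γ : Subgroup H} (hle : U₀ ≤ Γ) {F₁ F_U : Set X}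
    (h1 : SF Γ F₁) (hU : SF U₀ F_U) {θ : X → ℂ} (mθ : Measurable θ) (iθ : ∀ u ∈ U₀, ∀ x, θ (u • x) = θ x)
    (hθ : ∫⁻ x in F_U, ‖θ x‖ₑ ∂μ ≠ ⊤)
    (hf : ∀ x, {c : H ⧸ U₀ | (Quotient.out c)⁻¹ ∈ Γ ∧ θ ((Quotient.out c)⁻¹ • x) ≠ 0}.Finite) :
    ∫ x in F₁, cs U₀ (Γ : Set H) (fun γ => θ (γ • x)) ∂μ = ∫ x in F_U, θ x ∂μ := by
  have mG : Measurable (F_U.indicator θ) := mθ.indicator hU.meas
  have nG : ∫⁻ x, ‖F_U.indicator θ x‖ₑ ∂μ ≠ ⊤ := by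
    have e : ∀ x, ‖F_U.indicator θ x‖ₑ = F_U.indicator (fun x => ‖θ x‖ₑ) x := by
      intro x
      by_cases h : x ∈ F_U
      · rw [Set.indicator_of_mem h, Set.indicator_of_mem h]
      · rw [Set.indicator_of_notMem h, Set.indicator_of_notMem h, enorm_zero]
    simp_rw [e]
    rw [lintegral_indicator hU.meas]
    exact hθ
  have iG : Integrable (F_U.indicator θ) μ :=
    ⟨mG.aestronglyMeasurable, lt_top_iff_ne_top.2 nG⟩
  have : MeasurableConstSMul Γ X := ⟨fun c => measurable_const_smul (c : H)⟩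
  have : SMulInvariantMeasure Γ X μ := ⟨fun c _ hs => SMulInvariantMeasure.measure_preimage_smul (c : H) hs⟩
  have hfd : IsFundamentalDomain Γ F₁ μ := IsFundamentalDomain.mk' h1.meas.nullMeasurableSet h1.fd
  rw [← integral_indicator hU.meas, hfd.integral_eq_tsum' _ iG, ← (Equiv.inv Γ).tsum_eq]
  have hm : ∀ γ : Γ, Measurable fun x => F_U.indicator θ (γ.1 • x) := fun γ => mG.comp (measurable_const_smul γ.1)
  have e0 : ∀ γ : Γ, ∫ x in F₁, F_U.indicator θ ((Equiv.inv Γ γ)⁻¹ • x) ∂μ = ∫ x in F₁, F_U.indicator θ (γ.1 • x) ∂μ := by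
    intro γ
    have : (Equiv.inv Γ γ)⁻¹ = γ := inv_inv γ
    rw [this]
    rfl
  simp_rw [e0]
  rw [← integral_tsum (fun γ => (hm γ).aestronglyMeasurable)]
  · refine integral_congr_ae (Filter.Eventually.of_forall fun x => ?_)
    exact b4_pt hle hU iθ hf x
  · rw [← lintegral_tsum fun γ => (hm γ).enorm.aemeasurable]
    have h := sf_unfold (μ := μ) h1 mG.enorm
    rw [← h]
    exact nG

end

end Pool.Agent.Lib.H67G
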