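import Pool.Agent.Lib.H67G.B4

/-!
# B5 (M/L, general measure theory): the abstract large sieve inequality
-/

namespace Pool.Agent.Lib.H67G

open MeasureTheory Pool.Agent.Lib.H33W
open scoped ENNReal

noncomputable section

set_option linter.unusedSectionVars false


variable {H X : Type} [Group H] [MulAction H X] [MeasurableSpace X] {μ : Measure X}

/-- The data: `Ψ` is the function supported on `S`, `h` the `Γ`-invariant function. -/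
structure LSD (μ : Measure X) (U₀ Γ : Subgroup H) (F' F_U S : Set X) (Ψ h : X → ℂ) : Prop where
  le : U₀ ≤ Γ
  sf' : SF Γ F'
  sfU : SF U₀ F_U
  mS : MeasurableSet S
  fin : μ (F_U ∩ S) ≠ ⊤
  mΨ : Measurable Ψ
  iΨ : ∀ u ∈ U₀, ∀ x, Ψ (u • x) = Ψ x
  sΨ : ∀ x, x ∉ S → Ψ x = 0
  bΨ : ∃ B : ℝ, ∀ x, ‖Ψ x‖ ≤ B
  mh : Measurable h
  ih : ∀ γ ∈ Γ, ∀ x, h (γ • x) = h x
  bh : ∃ B : ℝ, ∀ x ∈ S, ‖h x‖ ≤ B
  fs : ∃ N : ℕ, ∀ x, {c : H ⧸ U₀ | (Quotient.out c)⁻¹ ∈ Γ ∧ Ψ ((Quotient.out c)⁻¹ • x) ≠ 0}.encard ≤ N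

theorem b5_csq (μ : Measure X) {f g : X → ℝ≥0∞} (mf : Measurable f) (mg : Measurable g) :
    (∫⁻ x, f x * g x ∂μ) ^ 2 ≤ (∫⁻ x, f x ^ 2 ∂μ) * ∫⁻ x, g x ^ 2 ∂μ := by
  have h := ENNReal.lintegral_mul_le_Lp_mul_Lq μ Real.HolderConjugate.two_two mf.aemeasurable mg.aemeasurable
  have e1 : ∀ f : X → ℝ≥0∞, ∫⁻ x, f x ^ (2 : ℝ) ∂μ = ∫⁻ x, f x ^ 2 ∂μ := fun f =>
    lintegral_congr fun x => ENNReal.rpow_two _
  rw [e1, e1] at h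
  have e2 : ∀ a : ℝ≥0∞, (a ^ (1 / 2 : ℝ)) ^ 2 = a := by
    intro a
    rw [← ENNReal.rpow_natCast, ← ENNReal.rpow_mul]
    norm_num
  calc (∫⁻ x, f x * g x ∂μ) ^ 2 ≤ ((∫⁻ x, f x ^ 2 ∂μ) ^ (1 / 2 : ℝ) * (∫⁻ x, g x ^ 2 ∂μ) ^ (1 / 2 : ℝ)) ^ 2 :=
        pow_le_pow_left' h 2
    _ = (∫⁻ x, f x ^ 2 ∂μ) * ∫⁻ x, g x ^ 2 ∂μ := by rw [mul_pow, e2, e2]

section

variable {U₀ Γ : Subgroup H} {F' F_U S : Set X} {Ψ h : X → ℂ}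

theorem b5_fin (D : LSD μ U₀ Γ F' F_U S Ψ h) (x : X) :
    {c : H ⧸ U₀ | (Quotient.out c)⁻¹ ∈ Γ ∧ Ψ ((Quotient.out c)⁻¹ • x) ≠ 0}.Finite := by
  obtain ⟨N, hN⟩ := D.fs
  exact Set.finite_of_encard_le_coe (hN x)

theorem b5_fin' (D : LSD μ U₀ Γ F' F_U S Ψ h) {S' : Set H} (hS' : S' ⊆ Γ) (x : X) :
    {c : H ⧸ U₀ | (Quotient.out c)⁻¹ ∈ S' ∧ Ψ ((Quotient.out c)⁻¹ • x) ≠ 0}.Finite :=
  (b5_fin D x).subset fun _ hc => ⟨hS' hc.1, hc.2⟩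

theorem b5_bdΨ (D : LSD μ U₀ Γ F' F_U S Ψ h) : ∃ B : ℝ≥0∞, B ≠ ⊤ ∧ ∀ x, ‖Ψ x‖ₑ ≤ B := by
  obtain ⟨B, hB⟩ := D.bΨ
  refine ⟨ENNReal.ofReal B, ENNReal.ofReal_ne_top, fun x => ?_⟩
  rw [← ofReal_norm_eq_enorm]
  exact ENNReal.ofReal_le_ofReal (hB x)

theorem b5_bd (D : LSD μ U₀ Γ F' F_U S Ψ h) : ∃ K : ℝ≥0∞, K ≠ ⊤ ∧ ∀ S' : Set H, S' ⊆ Γ → ∀ x,
    ‖cs U₀ S' (fun γ => Ψ (γ • x))‖ₑ ≤ K := by
  obtain ⟨N, hN⟩ := D.fs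
  obtain ⟨B, hB, hΨ⟩ := b5_bdΨ D
  refine ⟨N * B, ENNReal.mul_ne_top (ENNReal.natCast_ne_top N) hB, fun S' hS' x => ?_⟩
  refine (cs_norm (b5_fin' D hS' x)).trans ?_
  obtain ⟨Z, hZ⟩ : ∃ Z : Set (H ⧸ U₀), Z = {c : H ⧸ U₀ | (Quotient.out c)⁻¹ ∈ Γ ∧ Ψ ((Quotient.out c)⁻¹ • x) ≠ 0} := ⟨_, rfl⟩
  have h1 : ce U₀ S' (fun γ => ‖Ψ (γ • x)‖ₑ) ≤ ∑' c : H ⧸ U₀, Z.indicator (fun _ => B) c := by
    unfold ce
    refine ENNReal.tsum_le_tsum fun c => ?_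
    by_cases hc : (Quotient.out c)⁻¹ ∈ S'
    · rw [if_pos hc]
      change ‖Ψ ((Quotient.out c)⁻¹ • x)‖ₑ ≤ _
      by_cases hc2 : Ψ ((Quotient.out c)⁻¹ • x) = 0
      · rw [hc2, enorm_zero]
        exact zero_le
      · rw [hZ, Set.indicator_of_mem (show c ∈ {c : H ⧸ U₀ | (Quotient.out c)⁻¹ ∈ Γ ∧ Ψ ((Quotient.out c)⁻¹ • x) ≠ 0} from
          ⟨hS' hc, hc2⟩)]
        exact hΨ _
    · rw [if_neg hc]
      exact zero_le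
  refine h1.trans ?_
  rw [← tsum_subtype Z fun _ => B, ENNReal.tsum_set_const]
  have h2 : (Z.encard : ℝ≥0∞) ≤ N := by
    have h3 := hN x
    rw [← hZ] at h3
    have h4 := ENat.toENNReal_le.2 h3
    rwa [ENat.toENNReal_coe] at h4
  exact mul_le_mul_left h2 B

theorem b5_meas [Countable H] [MeasurableConstSMul H X] (D : LSD μ U₀ Γ F' F_U S Ψ h) {S' : Set H} (hS' : S' ⊆ Γ) :
    Measurable fun x => cs U₀ S' (fun γ => Ψ (γ • x)) :=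
  cs_meas U₀ S' (b := fun γ x => Ψ (γ • x)) (fun γ => D.mΨ.comp (measurable_const_smul γ)) (b5_fin' D hS')

theorem b5_nt (D : LSD μ U₀ Γ F' F_U S Ψ h) {G : X → ℂ} {K : ℝ≥0∞} (hK : K ≠ ⊤) (hG : ∀ x ∈ S, ‖G x‖ₑ ≤ K) :
    ∫⁻ x in F_U, ‖star (Ψ x) * G x‖ₑ ∂μ ≠ ⊤ := by
  obtain ⟨B, hB, hΨ⟩ := b5_bdΨ D
  have h1 : ∫⁻ x in F_U, ‖star (Ψ x) * G x‖ₑ ∂μ ≤ ∫⁻ x in F_U, S.indicator (fun _ => B * K) x ∂μ := by
    refine lintegral_mono fun x => ?_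
    by_cases hx : x ∈ S
    · rw [Set.indicator_of_mem hx, enorm_mul]
      refine mul_le_mul' ?_ (hG x hx)
      rw [← ofReal_norm_eq_enorm, norm_star, ofReal_norm_eq_enorm]
      exact hΨ x
    · rw [D.sΨ x hx, star_zero, zero_mul, enorm_zero]
      exact zero_le
  rw [lintegral_indicator_const D.mS, Measure.restrict_apply D.mS, Set.inter_comm] at h1
  exact ne_top_of_le_ne_top (ENNReal.mul_ne_top (ENNReal.mul_ne_top hB hK) D.fin) h1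

theorem b5_int (D : LSD μ U₀ Γ F' F_U S Ψ h) {G : X → ℂ} (mG : Measurable G) {K : ℝ≥0∞} (hK : K ≠ ⊤)
    (hG : ∀ x ∈ S, ‖G x‖ₑ ≤ K) : Integrable (fun x => star (Ψ x) * G x) (μ.restrict F_U) := by
  refine ⟨((continuous_star.measurable.comp D.mΨ).mul mG).aestronglyMeasurable, ?_⟩
  exact (b5_nt D hK hG).lt_top

theorem b5_cs (D : LSD μ U₀ Γ F' F_U S Ψ h) {G : X → ℂ} (iG : ∀ γ ∈ Γ, ∀ x, G (γ • x) = G x) (x : X) :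
    cs U₀ (Γ : Set H) (fun γ => star (Ψ (γ • x)) * G (γ • x)) =
      star (cs U₀ (Γ : Set H) (fun γ => Ψ (γ • x))) * G x := by
  classical
  unfold cs
  have hfin : Function.HasFiniteSupport fun c : H ⧸ U₀ =>
      if (Quotient.out c)⁻¹ ∈ (Γ : Set H) then Ψ ((Quotient.out c)⁻¹ • x) else 0 := by
    refine (b5_fin D x).subset fun c hc => ?_
    have hc' : (if (Quotient.out c)⁻¹ ∈ (Γ : Set H) then Ψ ((Quotient.out c)⁻¹ • x) else 0) ≠ 0 := hc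
    by_cases h1 : (Quotient.out c)⁻¹ ∈ (Γ : Set H)
    · rw [if_pos h1] at hc'
      exact ⟨h1, hc'⟩
    · rw [if_neg h1] at hc'
      exact absurd rfl hc'
  have e1 : star (∑ᶠ c : H ⧸ U₀, if (Quotient.out c)⁻¹ ∈ (Γ : Set H) then Ψ ((Quotient.out c)⁻¹ • x) else 0) =
      ∑ᶠ c : H ⧸ U₀, star (if (Quotient.out c)⁻¹ ∈ (Γ : Set H) then Ψ ((Quotient.out c)⁻¹ • x) else 0) :=
    (starAddEquiv : ℂ ≃+ ℂ).toAddMonoidHom.map_finsum hfin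
  have hfin' : Function.HasFiniteSupport fun c : H ⧸ U₀ =>
      star (if (Quotient.out c)⁻¹ ∈ (Γ : Set H) then Ψ ((Quotient.out c)⁻¹ • x) else 0) := by
    refine hfin.subset fun c hc => ?_
    have hc' : star (if (Quotient.out c)⁻¹ ∈ (Γ : Set H) then Ψ ((Quotient.out c)⁻¹ • x) else 0) ≠ 0 := hc
    intro h1
    have h1' : (if (Quotient.out c)⁻¹ ∈ (Γ : Set H) then Ψ ((Quotient.out c)⁻¹ • x) else 0) = 0 := h1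
    rw [h1', star_zero] at hc'
    exact hc' rfl
  rw [e1, finsum_mul' _ _ hfin']
  refine finsum_congr fun c => ?_
  by_cases h1 : (Quotient.out c)⁻¹ ∈ (Γ : Set H)
  · simp only [if_pos h1]
    rw [iG _ h1]
  · simp only [if_neg h1]
    rw [star_zero, zero_mul]

theorem b5_unf [Countable H] [MeasurableConstSMul H X] [SMulInvariantMeasure H X μ] (D : LSD μ U₀ Γ F' F_U S Ψ h)
    {G : X → ℂ} (mG : Measurable G) (iG : ∀ γ ∈ Γ, ∀ x, G (γ • x) = G x) {K : ℝ≥0∞} (hK : K ≠ ⊤)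
    (hG : ∀ x ∈ S, ‖G x‖ₑ ≤ K) :
    ∫ x in F', star (cs U₀ (Γ : Set H) (fun γ => Ψ (γ • x))) * G x ∂μ = ∫ x in F_U, star (Ψ x) * G x ∂μ := by
  have h1 := unfold_cs D.le D.sf' D.sfU (θ := fun x => star (Ψ x) * G x) ((continuous_star.measurable.comp D.mΨ).mul mG)
    (fun u hu x => by rw [D.iΨ u hu, iG u (D.le hu)]) (b5_nt D hK hG)
    (fun x => (b5_fin D x).subset fun c hc => ⟨hc.1, fun h2 => hc.2 (by rw [h2, star_zero, zero_mul])⟩)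
  rw [← h1]
  congr 1
  funext x
  exact (b5_cs D iG x).symm

theorem b5_sqfin (D : LSD μ U₀ Γ F' F_U S Ψ h) : ∫⁻ x in F_U, ‖Ψ x‖ₑ ^ 2 ∂μ ≠ ⊤ := by
  obtain ⟨B, hB, hΨ⟩ := b5_bdΨ D
  have h1 := b5_nt D (G := Ψ) hB fun x _ => hΨ x
  refine ne_top_of_le_ne_top h1 (lintegral_mono fun x => ?_)
  rw [enorm_mul, ← ofReal_norm_eq_enorm (star (Ψ x)), norm_star, ofReal_norm_eq_enorm, sq]

/-- the integral of the square of the norm -/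
theorem b5_sq (ρ : Measure X) {P : X → ℂ} (mP : Measurable P) (hP : ∫⁻ x, ‖P x‖ₑ ^ 2 ∂ρ ≠ ⊤) :
    ‖∫ x, ((‖P x‖ ^ 2 : ℝ) : ℂ) ∂ρ‖ₑ = ∫⁻ x, ‖P x‖ₑ ^ 2 ∂ρ := by
  have e1 : ∀ x, ENNReal.ofReal (‖P x‖ ^ 2) = ‖P x‖ₑ ^ 2 := by
    intro x
    rw [ENNReal.ofReal_pow (norm_nonneg _), ofReal_norm_eq_enorm]
  rw [integral_complex_ofReal, ← ofReal_norm_eq_enorm, Complex.norm_real, Real.norm_eq_abs,
    abs_of_nonneg (integral_nonneg fun x => by positivity),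
    integral_eq_lintegral_of_nonneg_ae (Filter.Eventually.of_forall fun x => by positivity)
      (mP.norm.pow_const 2).aestronglyMeasurable, lintegral_congr e1, ENNReal.ofReal_toReal hP]

end

/-- PROOF. Put `P(x) = cs U₀ Γ (Ψ(γ x))` (`Γ`-invariant: `cs_shift`, with `b(γ) = Ψ(γ x)`; measurable: `cs_meas`; bounded by `N B`), `E(x) = cs U₀ Pp (Ψ(γ x))`, `R(x) = cs U₀ (Γ \ Pp) (Ψ(γ x))`, `P = E + R` (`cs_mono`), `D = ∫_{F_U} |Ψ|²` (finite: bounded, supported on `F_U ∩ S`).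
(1) `D = ∫_{F_U} conj(Ψ) h = ∫_{F'} conj(P) h`: `unfold_cs` with `θ = conj(Ψ) h`, `cs(θ(γ x)) = conj(P(x)) h(x)` (`h(γ x) = h(x)`).
(2) `∫_{F'} |P|² = ∫_{F'} conj(P) P = ∫_{F_U} conj(Ψ) P = ∫_{F_U} conj(Ψ) E + ∫_{F_U} conj(Ψ) R = D + ∫_{F_U} conj(Ψ) R`, and `|∫_{F_U} conj(Ψ) R| ≤ ∫_{F_U} |Ψ| |R| ≤ ∫_{F_U} |Ψ(x)| ∑_{γ ∈ Γ \ Pp} 1_{F_U}(γ x) |Ψ(γ x)| ≤ C D` (`cs_norm`, `ce_eq`, `h3`).
(3) Cauchy-Schwarz: `D² ≤ ∫_{F'} |P|² ∫_{F'} |h|² ≤ (1 + C) D ∫_{F'} |h|²`. If `∫_{F'} |h|² = ∞` or `D = 0` the claim is trivial; otherwise divide by `D`. -/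
theorem ls_abs [Countable H] [MeasurableConstSMul H X] [SMulInvariantMeasure H X μ] [SFinite μ] {U₀ Γ : Subgroup H} {F' F_U S : Set X} {Ψ h : X → ℂ}
    (D : LSD μ U₀ Γ F' F_U S Ψ h) {Pp : Set H} (hPp : Pp ⊆ Γ) (iPp : LInv U₀ Pp)
    (h1 : ∫ x in F_U, star (Ψ x) * h x ∂μ = ∫ x in F_U, ((‖Ψ x‖ ^ 2 : ℝ) : ℂ) ∂μ)
    (h2 : ∫ x in F_U, star (Ψ x) * cs U₀ Pp (fun γ => Ψ (γ • x)) ∂μ = ∫ x in F_U, ((‖Ψ x‖ ^ 2 : ℝ) : ℂ) ∂μ) {C : ℝ≥0∞}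
    (h3 : ∫⁻ x in F_U, ‖Ψ x‖ₑ * ∑' γ : H, ((Γ : Set H) \ Pp).indicator (1 : H → ℝ≥0∞) γ * F_U.indicator (1 : X → ℝ≥0∞) (γ • x) * ‖Ψ (γ • x)‖ₑ ∂μ ≤
      C * ∫⁻ x in F_U, ‖Ψ x‖ₑ ^ 2 ∂μ) :
    ∫⁻ x in F_U, ‖Ψ x‖ₑ ^ 2 ∂μ ≤ (1 + C) * ∫⁻ x in F', ‖h x‖ₑ ^ 2 ∂μ := by
  obtain ⟨K, hK, hKb⟩ := b5_bd D
  obtain ⟨P, hPd⟩ : ∃ P : X → ℂ, P = fun x => cs U₀ (Γ : Set H) (fun γ => Ψ (γ • x)) := ⟨_, rfl⟩
  obtain ⟨E, hEd⟩ : ∃ E : X → ℂ, E = fun x => cs U₀ Pp (fun γ => Ψ (γ • x)) := ⟨_, rfl⟩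
  obtain ⟨R, hRd⟩ : ∃ R : X → ℂ, R = fun x => cs U₀ ((Γ : Set H) \ Pp) (fun γ => Ψ (γ • x)) := ⟨_, rfl⟩
  have mP : Measurable P := by rw [hPd]; exact b5_meas D subset_rfl
  have mE : Measurable E := by rw [hEd]; exact b5_meas D hPp
  have mR : Measurable R := by rw [hRd]; exact b5_meas D Set.diff_subset
  have bP : ∀ x, ‖P x‖ₑ ≤ K := by rw [hPd]; exact fun x => hKb _ subset_rfl x
  have bE : ∀ x, ‖E x‖ₑ ≤ K := by rw [hEd]; exact fun x => hKb _ hPp x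
  have bR : ∀ x, ‖R x‖ₑ ≤ K := by rw [hRd]; exact fun x => hKb _ Set.diff_subset x
  have iΓ : LInv U₀ (Γ : Set H) := fun u hu g => Γ.mul_mem_cancel_left (D.le hu)
  have hb : ∀ x : X, ∀ u ∈ U₀, ∀ g : H, Ψ ((u * g) • x) = Ψ (g • x) := by
    intro x u hu g
    rw [mul_smul, D.iΨ u hu]
  have iP : ∀ γ ∈ Γ, ∀ x, P (γ • x) = P x := by
    intro g hg x
    rw [hPd]
    have h4 := cs_shift iΓ (b := fun γ => Ψ (γ • x)) (hb x) g fun γ => Γ.mul_mem_cancel_right hg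
    change cs U₀ (Γ : Set H) (fun γ => Ψ (γ • g • x)) = cs U₀ (Γ : Set H) (fun γ => Ψ (γ • x))
    rw [← h4]
    simp only [mul_smul]
  have hPER : ∀ x, P x = E x + R x := by
    intro x
    rw [hPd, hEd, hRd]
    exact cs_mono hPp iPp iΓ (b5_fin D x)
  have hD0 := b5_sqfin D
  -- the square of the norm of `P`
  have e0 : ∀ x, star (P x) * P x = ((‖P x‖ ^ 2 : ℝ) : ℂ) := by
    intro x
    rw [Complex.star_def, Complex.conj_mul']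
    push_cast
    rfl
  have hPfin : ∫⁻ x in F', ‖P x‖ₑ ^ 2 ∂μ ≠ ⊤ := by
    have f1 : ∫⁻ x in F', ‖P x‖ₑ ^ 2 ∂μ ≤ ∫⁻ x in F', K * ce U₀ (Γ : Set H) (fun γ => ‖Ψ (γ • x)‖ₑ) ∂μ := by
      refine lintegral_mono fun x => ?_
      rw [sq]
      refine mul_le_mul' (bP x) ?_
      rw [hPd]
      exact cs_norm (b5_fin D x)
    have f2 := unfold_ce D.le D.sf' D.sfU (φ := fun x => ‖Ψ x‖ₑ) (μ := μ) D.mΨ.enorm
      (fun u hu x => by rw [D.iΨ u hu])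
    have f3 : ∫⁻ x in F_U, ‖Ψ x‖ₑ ∂μ ≠ ⊤ := by
      have f4 := b5_nt D (G := fun _ => 1) (K := 1) ENNReal.one_ne_top (fun x _ => by simp)
      refine ne_top_of_le_ne_top f4 (lintegral_mono fun x => ?_)
      rw [mul_one, ← ofReal_norm_eq_enorm (star (Ψ x)), norm_star, ofReal_norm_eq_enorm]
    rw [lintegral_const_mul' K _ hK, f2] at f1
    exact ne_top_of_le_ne_top (ENNReal.mul_ne_top hK f3) f1
  -- the first step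
  obtain ⟨Bh, hBh⟩ := D.bh
  have bh' : ∀ x ∈ S, ‖h x‖ₑ ≤ ENNReal.ofReal Bh := by
    intro x hx
    rw [← ofReal_norm_eq_enorm]
    exact ENNReal.ofReal_le_ofReal (hBh x hx)
  have g1 := b5_unf D D.mh D.ih ENNReal.ofReal_ne_top bh'
  have g2 : ∫⁻ x in F_U, ‖Ψ x‖ₑ ^ 2 ∂μ ≤ ∫⁻ x in F', ‖P x‖ₑ * ‖h x‖ₑ ∂μ := by
    rw [← b5_sq (μ.restrict F_U) D.mΨ hD0, ← h1, ← g1]
    refine (enorm_integral_le_lintegral_enorm _).trans (lintegral_mono fun x => ?_)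
    rw [enorm_mul, ← ofReal_norm_eq_enorm (star _), norm_star, ofReal_norm_eq_enorm, hPd]
  have g3 := b5_csq (μ.restrict F') mP.enorm D.mh.enorm
  -- the second step
  have g4 : ∫⁻ x in F', ‖P x‖ₑ ^ 2 ∂μ ≤ (1 + C) * ∫⁻ x in F_U, ‖Ψ x‖ₑ ^ 2 ∂μ := by
    rw [← b5_sq (μ.restrict F') mP hPfin, ← integral_congr_ae (Filter.Eventually.of_forall e0)]
    have f1 := b5_unf D mP iP hK fun x _ => bP x
    have f2 : ∫ x in F', star (P x) * P x ∂μ = ∫ x in F_U, star (Ψ x) * P x ∂μ := by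
      rw [← f1, hPd]
    have f3 : ∫ x in F_U, star (Ψ x) * P x ∂μ =
        ∫ x in F_U, star (Ψ x) * E x ∂μ + ∫ x in F_U, star (Ψ x) * R x ∂μ := by
      rw [← integral_add (b5_int D mE hK fun x _ => bE x) (b5_int D mR hK fun x _ => bR x)]
      refine integral_congr_ae (Filter.Eventually.of_forall fun x => ?_)
      change star (Ψ x) * P x = star (Ψ x) * E x + star (Ψ x) * R x
      rw [hPER, mul_add]
    have f4 : ∫ x in F_U, star (Ψ x) * E x ∂μ = ∫ x in F_U, ((‖Ψ x‖ ^ 2 : ℝ) : ℂ) ∂μ := by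
      rw [hEd]
      exact h2
    have f5 : ‖∫ x in F_U, star (Ψ x) * R x ∂μ‖ₑ ≤ C * ∫⁻ x in F_U, ‖Ψ x‖ₑ ^ 2 ∂μ := by
      refine (enorm_integral_le_lintegral_enorm _).trans (le_trans (lintegral_mono fun x => ?_) h3)
      rw [enorm_mul, ← ofReal_norm_eq_enorm (star _), norm_star, ofReal_norm_eq_enorm]
      refine mul_le_mul_right ?_ _
      have iR : LInv U₀ ((Γ : Set H) \ Pp) := fun u hu g => by
        rw [Set.mem_diff, Set.mem_diff, iΓ u hu g, iPp u hu g]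
      rw [hRd, ce_eq D.sfU iR (b := fun γ => ‖Ψ (γ • x)‖ₑ) (fun u hu g => by rw [hb x u hu g])]
      exact cs_norm (b5_fin' D Set.diff_subset x)
    rw [f2, f3, f4]
    refine (enorm_add_le _ _).trans ?_
    rw [b5_sq (μ.restrict F_U) D.mΨ hD0, add_mul, one_mul]
    exact add_le_add_right f5 _
  -- conclusion
  obtain ⟨d, hd⟩ : ∃ d, d = ∫⁻ x in F_U, ‖Ψ x‖ₑ ^ 2 ∂μ := ⟨_, rfl⟩
  rw [← hd] at g2 g4 hD0 ⊢
  rcases eq_or_ne d 0 with hd0 | hd0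
  · rw [hd0]
    exact zero_le
  have g5 : d * d ≤ d * ((1 + C) * ∫⁻ x in F', ‖h x‖ₑ ^ 2 ∂μ) := by
    calc d * d = d ^ 2 := (sq d).symm
      _ ≤ (∫⁻ x in F', ‖P x‖ₑ * ‖h x‖ₑ ∂μ) ^ 2 := pow_le_pow_left' g2 2
      _ ≤ (∫⁻ x in F', ‖P x‖ₑ ^ 2 ∂μ) * ∫⁻ x in F', ‖h x‖ₑ ^ 2 ∂μ := g3
      _ ≤ ((1 + C) * d) * ∫⁻ x in F', ‖h x‖ₑ ^ 2 ∂μ := mul_le_mul_left g4 _
      _ = d * ((1 + C) * ∫⁻ x in F', ‖h x‖ₑ ^ 2 ∂μ) := by ring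
  exact (ENNReal.mul_le_mul_iff_right hd0 hD0).1 g5

end

end Pool.Agent.Lib.H67G
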