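import Pool.Agent.Lib.H67G.B1

/-!
# B6 (M, general measure theory): symmetric sums
-/

namespace Pool.Agent.Lib.H67G

open MeasureTheory Pool.Agent.Lib.H33W
open scoped ENNReal

noncomputable section

set_option linter.unusedSectionVars false


variable {H X : Type} [Group H] [MulAction H X] [MeasurableSpace X] {μ : Measure X}

theorem b6_two (a b : ℝ≥0∞) (ha : a ≠ ⊤) (hb : b ≠ ⊤) : 2 * (a * b) ≤ a ^ 2 + b ^ 2 := by
  lift a to NNReal using ha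
  lift b to NNReal using hb
  have h : (2 : NNReal) * (a * b) ≤ a ^ 2 + b ^ 2 := by
    have := two_mul_le_add_sq (a : ℝ) (b : ℝ)
    rw [← NNReal.coe_le_coe]
    push_cast
    linarith
  exact_mod_cast h

theorem b6_ind {α : Type} (S : Set α) (f : α → ℝ≥0∞) (a : α) :
    S.indicator f a = S.indicator (1 : α → ℝ≥0∞) a * f a := by
  by_cases ha : a ∈ S
  · rw [Set.indicator_of_mem ha, Set.indicator_of_mem ha, Pi.one_apply, one_mul]
  · rw [Set.indicator_of_notMem ha, Set.indicator_of_notMem ha, zero_mul]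

/-- PROOF. `2 p(x) p(γ x) ≤ p(x)² 1[p(γ x) ≠ 0] + p(γ x)² 1[p(x) ≠ 0]`. Sum over `γ ∈ 𝒩` and integrate over `F`; in the second part substitute `y = γ x` (the action preserves `μ`): `∑_γ ∫ 1_F(x) 1_F(γ x) 1[p(x) ≠ 0] p(γ x)² = ∑_γ ∫ 1_F(γ⁻¹ y) 1_F(y) 1[p(γ⁻¹ y) ≠ 0] p(y)²`, and
replace `γ` by `γ⁻¹` (`𝒩⁻¹ = 𝒩`): it is equal to the first part. (In `[0, ∞]`: `2 a b ≤ a² + b²`; use `ENNReal` with `a b ≤ (a² + b²) / 2` or prove `a b ≤ max(a², b²)`.. and divide by `2` at the end; `p x ≠ ⊤`.) -/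
theorem sym_sum [Countable H] [MeasurableConstSMul H X] [SMulInvariantMeasure H X μ] {F : Set X} (mF : MeasurableSet F) {𝒩 : Set H}
    (h𝒩 : ∀ γ, γ⁻¹ ∈ 𝒩 ↔ γ ∈ 𝒩) {p : X → ℝ≥0∞} (mp : Measurable p) (hp : ∀ x, p x ≠ ⊤) :
    ∫⁻ x in F, p x * ∑' γ : H, 𝒩.indicator (1 : H → ℝ≥0∞) γ * F.indicator (1 : X → ℝ≥0∞) (γ • x) * p (γ • x) ∂μ ≤
      ∫⁻ x in F, p x ^ 2 * ∑' γ : H, 𝒩.indicator (1 : H → ℝ≥0∞) γ * (F ∩ {x | p x ≠ 0}).indicator (1 : X → ℝ≥0∞) (γ • x) ∂μ := by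
  obtain ⟨P, hP⟩ : ∃ P : Set X, P = F ∩ {x | p x ≠ 0} := ⟨_, rfl⟩
  have mP : MeasurableSet P := by
    rw [hP]
    exact mF.inter ((mp (measurableSet_singleton 0)).compl)
  obtain ⟨G, hG⟩ : ∃ G : H → X → ℝ≥0∞, G = fun γ x => F.indicator (1 : X → ℝ≥0∞) x *
      (p x ^ 2 * (𝒩.indicator (1 : H → ℝ≥0∞) γ * P.indicator (1 : X → ℝ≥0∞) (γ • x))) := ⟨_, rfl⟩
  have m1F : Measurable (F.indicator (1 : X → ℝ≥0∞)) := measurable_one.indicator mF
  have m1P : Measurable (P.indicator (1 : X → ℝ≥0∞)) := measurable_one.indicator mP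
  have mG : ∀ γ, Measurable (G γ) := by
    intro γ
    rw [hG]
    exact m1F.mul ((mp.pow_const 2).mul (measurable_const.mul (m1P.comp (measurable_const_smul γ))))
  -- the right side
  have hR : ∫⁻ x in F, p x ^ 2 * ∑' γ : H, 𝒩.indicator (1 : H → ℝ≥0∞) γ * P.indicator (1 : X → ℝ≥0∞) (γ • x) ∂μ
      = ∑' γ : H, ∫⁻ x, G γ x ∂μ := by
    rw [← lintegral_tsum fun γ => (mG γ).aemeasurable, ← lintegral_indicator mF]
    refine lintegral_congr fun x => ?_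
    rw [b6_ind, hG]
    simp only [ENNReal.tsum_mul_left]
  rw [← hP, hR]
  have hR' : ∑' γ : H, ∫⁻ x, G γ x ∂μ = ∑' γ : H, ∫⁻ x, G γ⁻¹ (γ • x) ∂μ := by
    rw [← (Equiv.inv H).tsum_eq]
    refine tsum_congr fun γ => ?_
    have := (measurePreserving_smul γ μ).lintegral_comp (mG γ⁻¹)
    exact this.symm
  have hL : 2 * ∫⁻ x in F, p x * ∑' γ : H, 𝒩.indicator (1 : H → ℝ≥0∞) γ * F.indicator (1 : X → ℝ≥0∞) (γ • x) * p (γ • x) ∂μ
      ≤ ∑' γ : H, ∫⁻ x, G γ x ∂μ + ∑' γ : H, ∫⁻ x, G γ⁻¹ (γ • x) ∂μ := by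
    have mG' : ∀ γ, Measurable fun x => G γ⁻¹ (γ • x) := fun γ =>
      (mG γ⁻¹).comp (measurable_const_smul γ)
    have e1 : ∑' γ : H, ∫⁻ x, G γ⁻¹ (γ • x) ∂μ = ∫⁻ x, ∑' γ : H, G γ⁻¹ (γ • x) ∂μ :=
      (lintegral_tsum fun γ => (mG' γ).aemeasurable).symm
    rw [← lintegral_tsum fun γ => (mG γ).aemeasurable, e1, ← lintegral_add_left (Measurable.tsum mG), ← lintegral_indicator mF,
      ← lintegral_const_mul' _ _ (by norm_num)]
    refine lintegral_mono fun x => ?_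
    rw [b6_ind, ← ENNReal.tsum_add, ← mul_assoc, ← mul_assoc, ← ENNReal.tsum_mul_left]
    refine ENNReal.tsum_le_tsum fun γ => ?_
    rw [hG]
    simp only [inv_smul_smul]
    have e𝒩 : 𝒩.indicator (1 : H → ℝ≥0∞) γ⁻¹ = 𝒩.indicator (1 : H → ℝ≥0∞) γ := by
      by_cases h : γ ∈ 𝒩
      · rw [Set.indicator_of_mem h, Set.indicator_of_mem ((h𝒩 γ).2 h)]
        rfl
      · rw [Set.indicator_of_notMem h, Set.indicator_of_notMem fun h' => h ((h𝒩 γ).1 h')]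
    rw [e𝒩]
    by_cases h1 : p x = 0
    · simp [h1]
    by_cases h2 : p (γ • x) = 0
    · simp [h2]
    have eP : ∀ y, p y ≠ 0 → P.indicator (1 : X → ℝ≥0∞) y = F.indicator (1 : X → ℝ≥0∞) y := by
      intro y hy
      by_cases hF : y ∈ F
      · rw [Set.indicator_of_mem hF, Set.indicator_of_mem (by rw [hP]; exact ⟨hF, hy⟩)]
      · rw [Set.indicator_of_notMem hF, Set.indicator_of_notMem (by rw [hP]; exact fun h => hF h.1)]
    rw [eP x h1, eP _ h2]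
    have h3 := b6_two (p x) (p (γ • x)) (hp _) (hp _)
    calc 2 * F.indicator (1 : X → ℝ≥0∞) x * p x * (𝒩.indicator (1 : H → ℝ≥0∞) γ * F.indicator (1 : X → ℝ≥0∞) (γ • x) * p (γ • x))
        = (F.indicator (1 : X → ℝ≥0∞) x * 𝒩.indicator (1 : H → ℝ≥0∞) γ * F.indicator (1 : X → ℝ≥0∞) (γ • x))
          * (2 * (p x * p (γ • x))) := by ring
      _ ≤ (F.indicator (1 : X → ℝ≥0∞) x * 𝒩.indicator (1 : H → ℝ≥0∞) γ * F.indicator (1 : X → ℝ≥0∞) (γ • x))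
          * (p x ^ 2 + p (γ • x) ^ 2) := mul_le_mul_right h3 _
      _ = _ := by ring
  rw [← hR', ← two_mul] at hL
  exact (ENNReal.mul_le_mul_iff_right (by norm_num) (by norm_num)).1 hL

end

end Pool.Agent.Lib.H67G
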