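import Pool.Agent.Lib.H67G.V4B
import Pool.Agent.Lib.H67G.B3

/-!
# E0 (S/M): the groups Gamma_(J)
-/

namespace Pool.Agent.Lib.H67G

open MeasureTheory Matrix NumberField IsDedekindDomain Pool.Agent.Lib.H89N Pool.Agent.Lib.H33W
open scoped ENNReal

noncomputable section

set_option linter.unusedSectionVars false

variable {n : ℕ} {K : Type} [Field K] [NumberField K]

/-- The first `J` columns of `D` are those of a unipotent upper triangular matrix. -/
def ColJ {n : ℕ} {K : Type} [Field K] (J : ℕ) (D : Matrix (Fin n) (Fin n) K) : Prop :=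
  ∀ a l : Fin n, (l : ℕ) < J → l ≤ a → D a l = (1 : Matrix (Fin n) (Fin n) K) a l

/-- PORT of `H33W.cj_mul` (file D2): `(D E) a l = ∑_m D a m E m l`; for `m > l` the factor `E m l` is `0`, for `m < l` the factor `D a m` is `0`. -/
theorem colJ_mul {J : ℕ} {D E : Matrix (Fin n) (Fin n) K} (hD : ColJ J D) (hE : ColJ J E) : ColJ J (D * E) := by
  intro a l hl hla
  rw [Matrix.mul_apply, Finset.sum_eq_single l]
  · have h1 : E l l = 1 := by
      rw [hE l l hl le_rfl, Matrix.one_apply_eq]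
    rw [h1, mul_one, hD a l hl hla]
  · intro m _ hm
    rcases lt_or_gt_of_ne hm with hlt | hgt
    · have h1 : D a m = 0 := by
        rw [hD a m (lt_trans hlt hl) (hlt.le.trans hla), Matrix.one_apply_ne (hlt.trans_le hla).ne']
      rw [h1, zero_mul]
    · have h1 : E m l = 0 := by
        rw [hE m l hl hgt.le, Matrix.one_apply_ne hgt.ne']
      rw [h1, mul_zero]
  · intro hm
    exact absurd (Finset.mem_univ _) hm

/-- PORT of `H33W.cj_inv` (file D2). -/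
theorem colJ_inv {J : ℕ} {D E : Matrix (Fin n) (Fin n) K} (hD : ColJ J D) (hE : E * D = 1) : ColJ J E := by
  have key : ∀ N : ℕ, ∀ l : Fin n, (l : ℕ) = N → (l : ℕ) < J → ∀ a : Fin n, l ≤ a →
      E a l = (1 : Matrix (Fin n) (Fin n) K) a l := by
    intro N
    induction N using Nat.strong_induction_on with
    | _ N ih =>
      intro l hN hl a hla
      have h1 : (E * D) a l = (1 : Matrix (Fin n) (Fin n) K) a l := by
        rw [hE]
      rw [Matrix.mul_apply, Finset.sum_eq_single l] at h1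
      · have h2 : D l l = 1 := by
          rw [hD l l hl le_rfl, Matrix.one_apply_eq]
        rw [h2, mul_one] at h1
        exact h1
      · intro m _ hm
        rcases lt_or_gt_of_ne hm with hlt | hgt
        · have hlt' : (m : ℕ) < N := by rw [← hN]; exact hlt
          have h2 : E a m = 0 := by
            rw [ih m hlt' m rfl (by omega) a (hlt.le.trans hla), Matrix.one_apply_ne (hlt.trans_le hla).ne']
          rw [h2, zero_mul]
        · have h2 : D m l = 0 := by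
            rw [hD m l hl hgt.le, Matrix.one_apply_ne hgt.ne']
          rw [h2, mul_zero]
      · intro hm
        exact absurd (Finset.mem_univ _) hm
  intro a l hl hla
  exact key l l rfl hl a hla

theorem colJ_zero {D : Matrix (Fin n) (Fin n) K} : ColJ 0 D := fun a l h => absurd h (Nat.not_lt_zero _)

/-- `ColJ n D` says that `D` is unipotent upper triangular. -/
theorem colJ_n {D : Matrix (Fin n) (Fin n) K} : ColJ n D ↔ IsUU D := by
  constructor
  · intro h a l hla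
    exact h a l l.2 hla
  · intro h a l _ hla
    exact h a l hla

/-- `D` is invertible with the inverse `(bA g)ᵗ` if `bC g = 0` (`bl_rel`). -/
theorem inv_of_C {g : SP n K} (h : bC g = 0) : (bA g)ᵀ * bD g = 1 ∧ bD g * (bA g)ᵀ = 1 := by
  obtain ⟨-, r2, r3, -⟩ := bl_rel g
  rw [h, Matrix.transpose_zero, Matrix.zero_mul, sub_zero] at r2
  rw [h, Matrix.zero_mul, sub_zero] at r3
  exact ⟨r2, r3⟩

/-- `Γ_(J)`: the elements of `Γ` with `C = 0` and the first `J` columns of `D` unipotent upper triangular. -/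
def GJs (J : ℕ) (Γ : Subgroup (SP n K)) : Subgroup (SP n K) where
  carrier := {γ | γ ∈ Γ ∧ bC γ = 0 ∧ ColJ J (bD γ)}
  mul_mem' := by
    rintro g h ⟨hg, hg1, hg2⟩ ⟨hh, hh1, hh2⟩
    obtain ⟨-, -, e3, e4⟩ := bl_mul g h
    refine ⟨mul_mem hg hh, ?_, ?_⟩
    · rw [e3, hg1, hh1, Matrix.zero_mul, Matrix.mul_zero, add_zero]
    · rw [e4, hg1, Matrix.zero_mul, zero_add]
      exact colJ_mul hg2 hh2
  one_mem' := by
    obtain ⟨-, -, e3, e4⟩ := bl_one (n := n) (R := K)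
    refine ⟨one_mem _, e3, ?_⟩
    rw [e4]
    exact fun a l _ _ => rfl
  inv_mem' := by
    rintro g ⟨hg, hg1, hg2⟩
    obtain ⟨-, -, e3, e4⟩ := bl_inv g
    refine ⟨inv_mem hg, ?_, ?_⟩
    · rw [e3, hg1, Matrix.transpose_zero, neg_zero]
    · rw [e4]
      exact colJ_inv hg2 (inv_of_C hg1).1

theorem gjs_n (Γ : Subgroup (SP n K)) : GJs n Γ = Γ ⊓ UGS n K := by
  ext g
  constructor
  · rintro ⟨h1, h2, h3⟩
    exact ⟨h1, h2, colJ_n.mp h3⟩
  · rintro ⟨h1, h2, h3⟩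
    exact ⟨h1, h2, colJ_n.mpr h3⟩

theorem gjs_mono {J J' : ℕ} (h : J ≤ J') (Γ : Subgroup (SP n K)) : GJs J' Γ ≤ GJs J Γ := by
  rintro g ⟨h1, h2, h3⟩
  exact ⟨h1, h2, fun a l hl hla => h3 a l (lt_of_lt_of_le hl h) hla⟩

theorem gjs_u {J : ℕ} (Γ : Subgroup (SP n K)) : Γ ⊓ UGS n K ≤ GJs J Γ := by
  rintro g ⟨h1, h2, h3⟩
  exact ⟨h1, h2, fun a l _ hla => h3 a l hla⟩

instance sp_countable : Countable (SP n K) := by
  have hK : Countable K := (Module.finBasis ℚ K).equivFun.injective.countable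
  have hM : Countable (Matrix (Fin n ⊕ Fin n) (Fin n ⊕ Fin n) K) := by
    unfold Matrix
    infer_instance
  have hinj : Function.Injective (SP.val : SP n K → _) := fun a b h => SP.ext h
  exact hinj.countable

/-! ## The data -/

/-- The function `Ψ`: equivariant under `U`, bounded, and for every `x` at most `N` cosets `(Γ ∩ U) γ` in `Γ` have `Ψ(γ x) ≠ 0`. -/
structure PsD [NeZero n] (Γ : Subgroup (SP n K)) (𝔡 : TI n → Ideal (𝓞 K)) (θ₀ : EE K →ₗ[ℝ] ℝ) (θ : Fin n → (EE K →ₗ[ℝ] ℝ)) (Ψ : SP n (EE K) → ℂ) :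
    Prop where
  hasI : HasI Γ 𝔡
  int : ∀ g ∈ Γ, IsUS g → ∃ m : ℤ, chS θ₀ θ (cuS (embS g)) = m
  meas : Measurable Ψ
  bdd : ∃ B : ℝ, ∀ x, ‖Ψ x‖ ≤ B
  eq : ∀ u : SP n (EE K), IsUS u → ∀ x, Ψ (u * x) = ee (chS θ₀ θ (cuS u)) * Ψ x
  fs : ∃ N : ℕ, ∀ x, {c : SP n K ⧸ (Γ ⊓ UGS n K) | (Quotient.out c)⁻¹ ∈ Γ ∧ Ψ (embS (Quotient.out c)⁻¹ * x) ≠ 0}.encard ≤ N

/-- The sum over the cosets `(Γ ∩ U) γ` in `G₁` of `Ψ(γ x)`. -/
def EJ (Γ G₁ : Subgroup (SP n K)) (Ψ : SP n (EE K) → ℂ) (x : SP n (EE K)) : ℂ :=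
  cs (Γ ⊓ UGS n K) (G₁ : Set (SP n K)) fun γ => Ψ (embS γ * x)

/-- The hypotheses of one step of the computation of the mean of `EJ`: `V` a real vector space with the lattice `Λ`, `w ↦ M_w ∈ U` such that translations by `M_w` do not change integrals over the box, and conjugation by `γ ∈ G₁` changes the character of `M_w` by the linear form `ℓ_γ`,
which vanishes exactly for `γ ∈ G₂`. -/
structure Stp [NeZero n] (Γ : Subgroup (SP n K)) (𝔡 : TI n → Ideal (𝓞 K)) (θ₀ : EE K →ₗ[ℝ] ℝ) (θ : Fin n → (EE K →ₗ[ℝ] ℝ)) {V : Type} [NormedAddCommGroup V]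
    [NormedSpace ℝ V] [MeasureSpace V] (Λ : AddSubgroup V) (D : Set V) (G₁ G₂ : Subgroup (SP n K)) (Mw : V → SP n (EE K)) (ℓ : SP n K → V →ₗ[ℝ] ℝ) : Prop where
  ld : LD Λ D
  ctb : Countable Λ
  le1 : Γ ⊓ UGS n K ≤ G₂
  le2 : G₂ ≤ G₁
  le3 : G₁ ≤ Γ
  us : ∀ w, IsUS (Mw w)
  cont : Continuous Mw
  blk : ∀ (w : V) (H : (TI n → EE K) → ℂ), Measurable H → (∀ g ∈ Γ.subgroupOf (UGS n K), ∀ t, H (g • t) = H t) → (∃ B : ℝ, ∀ t, ‖H t‖ ≤ B) →
    ∫ t in LB 𝔡, H (lT (Mw w) t) = ∫ t in LB 𝔡, H t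
  conj : ∀ γ ∈ G₁, ∀ w, ∃ u : SP n (EE K), IsUS u ∧ embS γ * Mw w = u * embS γ ∧
    chS θ₀ θ (cuS u) = ℓ γ w + chS θ₀ θ (cuS (Mw w))
  int : ∀ γ ∈ G₁, ∀ z ∈ Λ, ∃ m : ℤ, ℓ γ z = m
  iff : ∀ γ ∈ G₁, ℓ γ = 0 ↔ γ ∈ G₂

end

end Pool.Agent.Lib.H67G
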