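import Pool.Agent.Lib.H67G.E0

/-!
# E1 (M): properties of the sums over cosets
-/

namespace Pool.Agent.Lib.H67G

open MeasureTheory Matrix NumberField IsDedekindDomain Pool.Agent.Lib.H89N Pool.Agent.Lib.H33W
open scoped ENNReal

noncomputable section

set_option linter.unusedSectionVars false

variable {n : ℕ} {K : Type} [Field K] [NumberField K]

variable [NeZero n] {Γ : Subgroup (SP n K)} {𝔡 : TI n → Ideal (𝓞 K)} {θ₀ : EE K →ₗ[ℝ] ℝ} {θ : Fin n → (EE K →ₗ[ℝ] ℝ)} {Ψ : SP n (EE K) → ℂ}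

/-!
PROOFS. `Ψ(u x) = Ψ(x)` for `u ∈ Γ ∩ U` (`PsD.eq`, `PsD.int`, `H33W.ee_int`), so `b(γ) = Ψ(γ x)` is left invariant under `Γ ∩ U`. The support is finite, with at most `N` elements, for every subgroup `G₁ ≤ Γ`.
`ej_inv`: `cs_shift` (`b(γ g) = Ψ(γ g x)`). `ej_bdd`: at most `N` terms. `ej_meas`: `cs_meas`. `ej_last`: `cs_self`.
-/

theorem psd_inv (hP : PsD Γ 𝔡 θ₀ θ Ψ) {u : SP n K} (hu : u ∈ Γ ⊓ UGS n K) (x : SP n (EE K)) : Ψ (embS u * x) = Ψ x := by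
  obtain ⟨h1, h2⟩ := Subgroup.mem_inf.1 hu
  have h3 : IsUS u := h2
  obtain ⟨m, hm⟩ := hP.int u h1 h3
  rw [hP.eq _ (isUS_emb.2 h3), hm, ee_int, one_mul]

theorem e1_b (hP : PsD Γ 𝔡 θ₀ θ Ψ) (x : SP n (EE K)) : ∀ u ∈ Γ ⊓ UGS n K, ∀ g : SP n K,
    (fun γ : SP n K => Ψ (embS γ * x)) (u * g) = (fun γ : SP n K => Ψ (embS γ * x)) g := by
  intro u hu g
  show Ψ (embS (u * g) * x) = Ψ (embS g * x)
  rw [map_mul, mul_assoc]
  exact psd_inv hP hu _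

theorem e1_fin (hP : PsD Γ 𝔡 θ₀ θ Ψ) : ∃ N : ℕ, ∀ G₁ : Subgroup (SP n K), G₁ ≤ Γ → ∀ x,
    {c : SP n K ⧸ (Γ ⊓ UGS n K) | (Quotient.out c)⁻¹ ∈ (G₁ : Set (SP n K)) ∧
      Ψ (embS (Quotient.out c)⁻¹ * x) ≠ 0}.encard ≤ N := by
  obtain ⟨N, hN⟩ := hP.fs
  refine ⟨N, fun G₁ h x => le_trans (Set.encard_le_encard ?_) (hN x)⟩
  exact fun c hc => ⟨h hc.1, hc.2⟩

theorem ej_inv (hP : PsD Γ 𝔡 θ₀ θ Ψ) {G₁ : Subgroup (SP n K)} (h1 : Γ ⊓ UGS n K ≤ G₁) (h2 : G₁ ≤ Γ) {g : SP n K} (hg : g ∈ G₁) (x : SP n (EE K)) :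
    EJ Γ G₁ Ψ (embS g * x) = EJ Γ G₁ Ψ x := by
  have _ := h2
  have h3 : LInv (Γ ⊓ UGS n K) (G₁ : Set (SP n K)) := fun u hu γ =>
    G₁.mul_mem_cancel_left (h1 hu)
  have h4 := cs_shift (b := fun γ : SP n K => Ψ (embS γ * x)) h3 (e1_b hP x) g fun γ => G₁.mul_mem_cancel_right hg
  unfold EJ
  rw [← h4]
  congr 1
  funext γ
  show Ψ (embS γ * (embS g * x)) = Ψ (embS (γ * g) * x)
  rw [map_mul, mul_assoc]

theorem ej_meas (hP : PsD Γ 𝔡 θ₀ θ Ψ) {G₁ : Subgroup (SP n K)} (h2 : G₁ ≤ Γ) : Measurable (EJ Γ G₁ Ψ) := by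
  obtain ⟨N, hN⟩ := e1_fin hP
  unfold EJ
  refine cs_meas (Γ ⊓ UGS n K) (G₁ : Set (SP n K)) (b := fun γ x => Ψ (embS γ * x)) (fun γ => ?_)
    fun x => Set.finite_of_encard_le_coe (hN G₁ h2 x)
  exact hP.meas.comp (continuous_const.mul continuous_id).measurable

theorem ej_bdd (hP : PsD Γ 𝔡 θ₀ θ Ψ) : ∃ B : ℝ, ∀ G₁ : Subgroup (SP n K), G₁ ≤ Γ → ∀ x, ‖EJ Γ G₁ Ψ x‖ ≤ B := by
  classical
  obtain ⟨N, hN⟩ := e1_fin hP
  obtain ⟨B, hB⟩ := hP.bdd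
  have hB0 : 0 ≤ B := (norm_nonneg _).trans (hB 1)
  refine ⟨N * B, fun G₁ h x => ?_⟩
  have hfin := Set.finite_of_encard_le_coe (hN G₁ h x)
  unfold EJ cs
  rw [finsum_eq_sum_of_support_subset (s := hfin.toFinset) _ ?_]
  · refine (norm_sum_le _ _).trans ?_
    refine (Finset.sum_le_card_nsmul _ _ B fun c _ => ?_).trans ?_
    · split_ifs
      · exact hB _
      · rw [norm_zero]
        exact hB0
    · rw [nsmul_eq_mul]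
      refine mul_le_mul_of_nonneg_right ?_ hB0
      have h1 := hN G₁ h x
      rw [hfin.encard_eq_coe_toFinset_card] at h1
      exact_mod_cast h1
  · intro c hc
    rw [Function.mem_support] at hc
    rw [Finset.mem_coe, Set.Finite.mem_toFinset]
    by_cases h1 : (Quotient.out c)⁻¹ ∈ (G₁ : Set (SP n K))
    · rw [if_pos h1] at hc
      exact ⟨h1, hc⟩
    · rw [if_neg h1] at hc
      exact absurd rfl hc

theorem ej_last (hP : PsD Γ 𝔡 θ₀ θ Ψ) (x : SP n (EE K)) : EJ Γ (Γ ⊓ UGS n K) Ψ x = Ψ x := by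
  unfold EJ
  rw [cs_self (b := fun γ : SP n K => Ψ (embS γ * x)) (e1_b hP x), map_one, one_mul]

end

end Pool.Agent.Lib.H67G
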