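import Pool.Agent.Lib.H67G.E1

/-!
# E2 (M/L): one step
-/

namespace Pool.Agent.Lib.H67G

open MeasureTheory Matrix NumberField IsDedekindDomain Pool.Agent.Lib.H89N Pool.Agent.Lib.H33W
open scoped ENNReal

noncomputable section

set_option linter.unusedSectionVars false

variable {n : ℕ} {K : Type} [Field K] [NumberField K]

variable [NeZero n] {Γ : Subgroup (SP n K)} {𝔡 : TI n → Ideal (𝓞 K)} {θ₀ : EE K →ₗ[ℝ] ℝ} {θ : Fin n → (EE K →ₗ[ℝ] ℝ)} {Ψ : SP n (EE K) → ℂ}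

/-- the sum over a finite set of cosets -/
theorem e2_sum {H : Type} [Group H] (U₀ : Subgroup H) (S : Set H) (b : H → ℂ) (F : Finset (H ⧸ U₀))
    (hF : ∀ c : H ⧸ U₀, (Quotient.out c)⁻¹ ∈ S → b (Quotient.out c)⁻¹ ≠ 0 → c ∈ F)
    (hF' : ∀ c ∈ F, (Quotient.out c)⁻¹ ∈ S) :
    cs U₀ S b = ∑ c ∈ F, b (Quotient.out c)⁻¹ := by
  classical
  unfold cs
  rw [finsum_eq_sum_of_support_subset (s := F) _ ?_]
  · exact Finset.sum_congr rfl fun c hc => if_pos (hF' c hc)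
  · intro c hc
    rw [Function.mem_support] at hc
    rw [Finset.mem_coe]
    by_cases h1 : (Quotient.out c)⁻¹ ∈ S
    · rw [if_pos h1] at hc
      exact hF c h1 hc
    · rw [if_neg h1] at hc
      exact absurd rfl hc

section
variable {V : Type} [NormedAddCommGroup V] [NormedSpace ℝ V] [FiniteDimensional ℝ V] [MeasureSpace V] [BorelSpace V]
    [(volume : Measure V).IsAddHaarMeasure] {Λ : AddSubgroup V} {D : Set V} {G₁ G₂ : Subgroup (SP n K)} {Mw : V → SP n (EE K)}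
    {ℓ : SP n K → V →ₗ[ℝ] ℝ}

theorem e2_mean (hS : Stp Γ 𝔡 θ₀ θ Λ D G₁ G₂ Mw ℓ) {γ : SP n K} (hγ : γ ∈ G₁) [Decidable (γ ∈ G₂)] :
    ⨍ w in D, ee (ℓ γ w) = if γ ∈ G₂ then 1 else 0 := by
  have := hS.ctb
  by_cases h : γ ∈ G₂
  · rw [if_pos h]
    have h1 := (hS.iff γ hγ).2 h
    rw [h1]
    simp only [LinearMap.zero_apply, ee_zero]
    exact setAverage_const hS.ld.pos.ne' hS.ld.bdd.measure_lt_top.ne 1
  · rw [if_neg h]
    exact mean_char hS.ld (hS.int γ hγ) fun h1 => h ((hS.iff γ hγ).1 h1)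

theorem e2_cont (ℓ : V →ₗ[ℝ] ℝ) : Continuous fun w => ee (ℓ w) :=
  ee_continuous.comp (LinearMap.continuous_of_finiteDimensional ℓ)

theorem e2_integrable (hS : Stp Γ 𝔡 θ₀ θ Λ D G₁ G₂ Mw ℓ) (l : V →ₗ[ℝ] ℝ) (a : ℂ) :
    IntegrableOn (fun w => ee (l w) * a) D := by
  have : IsFiniteMeasure (volume.restrict D) := ⟨by
    rw [Measure.restrict_apply_univ]
    exact hS.ld.bdd.measure_lt_top⟩
  refine Integrable.of_bound (((e2_cont l).mul continuous_const).aestronglyMeasurable) ‖a‖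
    (Filter.Eventually.of_forall fun w => ?_)
  rw [norm_mul, ee_norm, one_mul]

theorem e2_fib (hP : PsD Γ 𝔡 θ₀ θ Ψ) (hS : Stp Γ 𝔡 θ₀ θ Λ D G₁ G₂ Mw ℓ) (y : SP n (EE K)) :
    ⨍ w in D, cs (Γ ⊓ UGS n K) (G₁ : Set (SP n K)) (fun γ => ee (ℓ γ w) * Ψ (embS γ * y)) =
      EJ Γ G₂ Ψ y := by
  classical
  obtain ⟨N, hN⟩ := e1_fin hP
  have hfin := Set.finite_of_encard_le_coe (hN G₁ hS.le3 y)
  obtain ⟨F, hF⟩ : ∃ F, F = hfin.toFinset := ⟨_, rfl⟩
  have hF1 : ∀ c, c ∈ F ↔ (Quotient.out c)⁻¹ ∈ (G₁ : Set (SP n K)) ∧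
      Ψ (embS (Quotient.out c)⁻¹ * y) ≠ 0 := by
    intro c
    rw [hF, Set.Finite.mem_toFinset]
    rfl
  have e1 : ∀ w, cs (Γ ⊓ UGS n K) (G₁ : Set (SP n K)) (fun γ => ee (ℓ γ w) * Ψ (embS γ * y)) =
      ∑ c ∈ F, ee (ℓ (Quotient.out c)⁻¹ w) * Ψ (embS (Quotient.out c)⁻¹ * y) := by
    intro w
    refine e2_sum _ _ _ F (fun c h1 h2 => (hF1 c).2 ⟨h1, fun h3 => h2 ?_⟩) fun c hc =>
      ((hF1 c).1 hc).1
    rw [h3, mul_zero]
  have e2 : EJ Γ G₂ Ψ y = ∑ c ∈ F, (if (Quotient.out c)⁻¹ ∈ G₂ then (1 : ℂ) else 0) *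
      Ψ (embS (Quotient.out c)⁻¹ * y) := by
    unfold EJ cs
    rw [finsum_eq_sum_of_support_subset (s := F) _ ?_]
    · refine Finset.sum_congr rfl fun c _ => ?_
      by_cases h1 : (Quotient.out c)⁻¹ ∈ G₂
      · rw [if_pos h1, one_mul]
        exact if_pos h1
      · rw [if_neg h1, zero_mul]
        exact if_neg h1
    · intro c hc
      rw [Function.mem_support] at hc
      rw [Finset.mem_coe, hF1]
      by_cases h1 : (Quotient.out c)⁻¹ ∈ (G₂ : Set (SP n K))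
      · rw [if_pos h1] at hc
        exact ⟨hS.le2 h1, hc⟩
      · rw [if_neg h1] at hc
        exact absurd rfl hc
  simp only [e1]
  rw [e2, setAverage_eq, integral_finsetSum _ fun c _ => e2_integrable hS _ _, Finset.smul_sum]
  refine Finset.sum_congr rfl fun c hc => ?_
  rw [integral_mul_const, ← smul_mul_assoc, ← setAverage_eq, e2_mean hS ((hF1 c).1 hc).1]

theorem e2_shift (hP : PsD Γ 𝔡 θ₀ θ Ψ) (hS : Stp Γ 𝔡 θ₀ θ Λ D G₁ G₂ Mw ℓ) (w : V)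
    (t : TI n → EE K) (x : SP n (EE K)) :
    ee (-chS θ₀ θ (lT (Mw w) t)) * EJ Γ G₁ Ψ (uT (lT (Mw w) t) * x) =
      ee (-chS θ₀ θ t) * cs (Γ ⊓ UGS n K) (G₁ : Set (SP n K))
        (fun γ => ee (ℓ γ w) * Ψ (embS γ * (uT t * x))) := by
  classical
  have h1 : EJ Γ G₁ Ψ (uT (lT (Mw w) t) * x) = ee (chS θ₀ θ (cuS (Mw w))) *
      cs (Γ ⊓ UGS n K) (G₁ : Set (SP n K)) (fun γ => ee (ℓ γ w) * Ψ (embS γ * (uT t * x))) := by
    unfold EJ cs
    refine Eq.trans ?_ (smul_finsum (ee (chS θ₀ θ (cuS (Mw w)))) _).symm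
    refine finsum_congr fun c => ?_
    by_cases hc : (Quotient.out c)⁻¹ ∈ (G₁ : Set (SP n K))
    · rw [if_pos hc, if_pos hc, uT_lT (hS.us w)]
      obtain ⟨u, hu, hu1, hu2⟩ := hS.conj _ hc w
      have e1 : embS (Quotient.out c)⁻¹ * (Mw w * uT t * x) =
          u * (embS (Quotient.out c)⁻¹ * (uT t * x)) := by
        rw [← mul_assoc u, ← hu1]
        simp only [mul_assoc]
      beta_reduce
      rw [e1, hP.eq u hu, hu2, ee_add, smul_eq_mul]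
      ring
    · rw [if_neg hc, if_neg hc, smul_zero]
  rw [h1, chS_lT θ₀ θ (hS.us w), ← mul_assoc, ← ee_add]
  congr 2
  ring

end

/-- PROOF. `H(t) = ee(-chS t) EJ_{G₁}(uT t x)` is measurable (`ej_meas`, `uT_cont`), bounded (`ej_bdd`) and invariant under `Γ ∩ U` (`uT_smul`, `ej_inv`; `chS (g t) = chS g + chS t` with `chS g` an integer: `chS_lT`, `PsD.int`, `ee_int`). So by `blk`, for every `w`:
`∫_{LB} H = ∫_{LB} H(lT M_w t)`, and `H(lT M_w t) = ee(-chS(M_w) - chS t) ∑_c Ψ(γ_c M_w uT t x)`, `Ψ(γ_c M_w y) = Ψ(u γ_c y) = ee(ℓ_{γ_c}(w) + chS(M_w)) Ψ(γ_c y)` (`conj`, `PsD.eq`), so `H(lT M_w t) = ee(-chS t) ∑_c ee(ℓ_{γ_c}(w)) Ψ(γ_c uT t x)`.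
Take the mean over `w ∈ D` (`⨍`; Fubini for the bounded measurable function `(w, t) ↦ H(lT M_w t)` on `D × LB`; `(w, t) ↦ lT (M_w) t` is continuous): for fixed `t` the sum over `c` has finitely many nonzero terms (independent of `w`), and `⨍_w ee(ℓ_γ w) = 0` if `ℓ_γ ≠ 0` (`H33W.mean_char`, `int`, `ld`)
and `1` if `ℓ_γ = 0`, that is `γ ∈ G₂` (`iff`). So the mean is `ee(-chS t) ∑_{c : γ_c ∈ G₂} Ψ(γ_c uT t x) = ee(-chS t) EJ_{G₂}(uT t x)`. -/
theorem e_step (hP : PsD Γ 𝔡 θ₀ θ Ψ) {V : Type} [NormedAddCommGroup V] [NormedSpace ℝ V] [FiniteDimensional ℝ V] [MeasureSpace V] [BorelSpace V]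
    [(volume : Measure V).IsAddHaarMeasure] {Λ : AddSubgroup V} {D : Set V} {G₁ G₂ : Subgroup (SP n K)} {Mw : V → SP n (EE K)}
    {ℓ : SP n K → V →ₗ[ℝ] ℝ} (hS : Stp Γ 𝔡 θ₀ θ Λ D G₁ G₂ Mw ℓ) (x : SP n (EE K)) :
    ∫ t in LB 𝔡, ee (-chS θ₀ θ t) * EJ Γ G₁ Ψ (uT t * x) = ∫ t in LB 𝔡, ee (-chS θ₀ θ t) * EJ Γ G₂ Ψ (uT t * x) := by
  classical
  obtain ⟨H, hH⟩ : ∃ H : (TI n → EE K) → ℂ,
    H = fun t => ee (-chS θ₀ θ t) * EJ Γ G₁ Ψ (uT t * x) := ⟨_, rfl⟩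
  have mH : Measurable H := by
    rw [hH]
    refine Measurable.mul ?_ ?_
    · exact (ee_continuous.comp (chS_cont θ₀ θ).neg).measurable
    · exact (ej_meas hP hS.le3).comp (uT_cont.mul continuous_const).measurable
  have iH : ∀ g ∈ Γ.subgroupOf (UGS n K), ∀ t, H (g • t) = H t := by
    intro g hg t
    have hgΓ : (g : SP n K) ∈ Γ := hg
    have hgU : IsUS (g : SP n K) := g.2
    obtain ⟨m, hm⟩ := hP.int _ hgΓ hgU
    rw [hH]
    show ee (-chS θ₀ θ (g • t)) * EJ Γ G₁ Ψ (uT (g • t) * x) = _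
    rw [uT_smul, mul_assoc, ej_inv hP (hS.le1.trans hS.le2) hS.le3 (hS.le2 (hS.le1 ⟨hgΓ, hgU⟩)),
      ut_smul, chS_lT θ₀ θ (isUS_emb.2 hgU), hm]
    congr 1
    have e : -((m : ℝ) + chS θ₀ θ t) = ((-m : ℤ) : ℝ) + -chS θ₀ θ t := by
      push_cast
      ring
    rw [e, ee_add, ee_int, one_mul]
  obtain ⟨B, hB⟩ := ej_bdd hP
  have bH : ∀ t, ‖H t‖ ≤ B := by
    intro t
    rw [hH]
    show ‖ee (-chS θ₀ θ t) * EJ Γ G₁ Ψ (uT t * x)‖ ≤ B
    rw [norm_mul, ee_norm, one_mul]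
    exact hB G₁ hS.le3 _
  have hblk : ∀ w, ∫ t in LB 𝔡, H (lT (Mw w) t) = ∫ t in LB 𝔡, H t := fun w =>
    hS.blk w H mH iH ⟨B, bH⟩
  have hne := hP.hasI.ne
  have fD : IsFiniteMeasure (volume.restrict D) := ⟨by
    rw [Measure.restrict_apply_univ]
    exact hS.ld.bdd.measure_lt_top⟩
  have fL : IsFiniteMeasure (volume.restrict (LB 𝔡)) := ⟨by
    rw [Measure.restrict_apply_univ]
    exact (LB_top hne).lt_top⟩
  have hcont : Continuous fun p : V × (TI n → EE K) => lT (Mw p.1) p.2 :=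
    cuS_cont.comp ((hS.cont.comp continuous_fst).mul (uT_cont.comp continuous_snd))
  have hint : Integrable (Function.uncurry fun (w : V) (t : TI n → EE K) => H (lT (Mw w) t))
      ((volume.restrict D).prod (volume.restrict (LB 𝔡))) := by
    refine Integrable.of_bound ?_ B (Filter.Eventually.of_forall fun p => bH _)
    exact (mH.comp hcont.measurable).aestronglyMeasurable
  have hswap := integral_integral_swap hint
  have hD0 : (volume : Measure V).real D ≠ 0 := by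
    rw [Measure.real, ENNReal.toReal_ne_zero]
    exact ⟨hS.ld.pos.ne', hS.ld.bdd.measure_lt_top.ne⟩
  have e1 : ∫ w in D, ∫ t in LB 𝔡, H (lT (Mw w) t) =
      (volume : Measure V).real D • ∫ t in LB 𝔡, H t := by
    simp only [hblk]
    rw [setIntegral_const]
  have e2 : ∀ t, ∫ w in D, H (lT (Mw w) t) =
      (volume : Measure V).real D • (ee (-chS θ₀ θ t) * EJ Γ G₂ Ψ (uT t * x)) := by
    intro t
    rw [← e2_fib hP hS, setAverage_eq, mul_smul_comm, smul_smul, mul_inv_cancel₀ hD0, one_smul,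
      ← integral_const_mul]
    refine integral_congr_ae (Filter.Eventually.of_forall fun w => ?_)
    show H (lT (Mw w) t) = _
    rw [hH]
    exact e2_shift hP hS w t x
  rw [e1] at hswap
  have e3 : ∫ t in LB 𝔡, ∫ w in D, H (lT (Mw w) t) =
      (volume : Measure V).real D • ∫ t in LB 𝔡, ee (-chS θ₀ θ t) * EJ Γ G₂ Ψ (uT t * x) := by
    simp only [e2]
    exact integral_smul _ _
  rw [e3] at hswap
  have e4 := smul_right_injective ℂ hD0 hswap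
  rw [← e4, hH]

end

end Pool.Agent.Lib.H67G
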