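import Pool.Agent.Lib.H67G.V2B
import Pool.Agent.Lib.H33W.U5
import Pool.Agent.Lib.H33W.T4

/-!
# V3 (M/L): the box is a fundamental domain
-/

namespace Pool.Agent.Lib.H67G

open MeasureTheory Matrix NumberField IsDedekindDomain Pool.Agent.Lib.H89N Pool.Agent.Lib.H33W
open scoped ENNReal

noncomputable section

set_option linter.unusedSectionVars false

variable {n : ℕ} {K : Type} [Field K] [NumberField K]

/-- The unipotent elements of `Γ` are those with coordinates in the ideals `𝔡 p`. -/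
structure HasI (Γ : Subgroup (SP n K)) (𝔡 : TI n → Ideal (𝓞 K)) : Prop where
  ne : ∀ p, 𝔡 p ≠ ⊥
  iff : ∀ g : SP n K, IsUS g → (g ∈ Γ ↔ ∀ p, InI (𝔡 p) (cuS g p))

/-- The fundamental domain of the unipotent elements of `Γ`. -/
def LB (𝔡 : TI n → Ideal (𝓞 K)) : Set (TI n → EE K) := {t | ∀ p, t p ∈ FI (𝔡 p)}

/-! Auxiliary facts. -/

/-- The rank of a coordinate. -/
def v3_r : TI n → ℕ
  | Sum.inl p => (p.1.1 : ℕ) + (p.1.2 : ℕ)
  | Sum.inr p => (p.1.2 : ℕ)

/-- The part of the coordinate of `g • t` which depends on the coordinates of `g` of smaller rank. -/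
def v3_G (t : TI n → EE K) (z : TI n → K) : TI n → EE K
  | Sum.inl p => t (Sum.inl p) + ∑ q ∈ Finset.univ.erase p.1, upM (fun p => t (Sum.inr p)) q.1 p.1.1 *
      syM (fun p => mixedEmbedding K (z (Sum.inl p))) q.1 q.2 * upM (fun p => t (Sum.inr p)) q.2 p.1.2
  | Sum.inr p => t (Sum.inr p) + ∑ c ∈ (Finset.univ.erase p.1.1).erase p.1.2,
      mixedEmbedding K (upM (fun p => z (Sum.inr p)) p.1.1 c) * upM (fun p => t (Sum.inr p)) c p.1.2

theorem v3_syM {R : Type} (Y : SI n → R) {a b : Fin n} (h : a ≤ b) : syM Y a b = Y ⟨(a, b), h⟩ := by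
  unfold syM
  rw [Matrix.of_apply, dif_pos h]

theorem v3_syM' {R : Type} (Y : SI n → R) {a b : Fin n} (h : b < a) : syM Y a b = Y ⟨(b, a), h.le⟩ := by
  unfold syM
  rw [Matrix.of_apply, dif_neg (not_le.2 h)]

theorem v3_G_congr (t : TI n → EE K) (z z' : TI n → K) (p : TI n) (h : ∀ q, v3_r q < v3_r p → z q = z' q) :
    v3_G t z p = v3_G t z' p := by
  rcases p with p | p
  · change t (Sum.inl p) + _ = t (Sum.inl p) + _
    congr 1
    refine Finset.sum_congr rfl fun q hq => ?_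
    have hne : q ≠ p.1 := Finset.ne_of_mem_erase hq
    rcases lt_or_ge p.1.1 q.1 with h1 | h1
    · rw [upM_gt _ h1]
      simp
    rcases lt_or_ge p.1.2 q.2 with h2 | h2
    · rw [upM_gt (fun p => t (Sum.inr p)) h2]
      simp
    have h3 : (q.1 : ℕ) + (q.2 : ℕ) < (p.1.1 : ℕ) + (p.1.2 : ℕ) := by
      by_contra hc
      apply hne
      have h1' : (q.1 : ℕ) ≤ p.1.1 := h1
      have h2' : (q.2 : ℕ) ≤ p.1.2 := h2
      refine Prod.ext (Fin.ext ?_) (Fin.ext ?_) <;> omega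
    have h4 : syM (fun p => mixedEmbedding K (z (Sum.inl p))) q.1 q.2 =
        syM (fun p => mixedEmbedding K (z' (Sum.inl p))) q.1 q.2 := by
      rcases le_or_gt q.1 q.2 with h5 | h5
      · rw [v3_syM _ h5, v3_syM _ h5]
        congr 1
        exact h _ h3
      · rw [v3_syM' _ h5, v3_syM' _ h5]
        congr 1
        refine h _ ?_
        change (q.2 : ℕ) + (q.1 : ℕ) < (p.1.1 : ℕ) + (p.1.2 : ℕ)
        omega
    rw [h4]
  · change t (Sum.inr p) + _ = t (Sum.inr p) + _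
    congr 1
    refine Finset.sum_congr rfl fun c hc => ?_
    rw [Finset.mem_erase, Finset.mem_erase] at hc
    rcases lt_or_gt_of_ne hc.1 with h1 | h1
    · congr 2
      rcases lt_trichotomy p.1.1 c with h2 | h2 | h2
      · rw [upM_lt _ h2, upM_lt _ h2]
        exact h _ h1
      · rw [← h2, upM_eq, upM_eq]
      · rw [upM_gt _ h2, upM_gt _ h2]
    · rw [upM_gt (fun p => t (Sum.inr p)) h1, mul_zero, mul_zero]

theorem v3_upM_D {g : SP n K} (hg : IsUS g) : upM (fun p => cuS g (Sum.inr p)) = bD g := upM_cu hg.2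

theorem v3_D {g : SP n K} (hg : IsUS g) (a c : Fin n) :
    bD (embS g) a c = mixedEmbedding K (upM (fun p => cuS g (Sum.inr p)) a c) := by
  rw [v3_upM_D hg, (bl_emb g).2.2.2]
  rfl

theorem v3_ent {g : SP n K} (hg : IsUS g) (t : TI n → EE K) (p : TI n) :
    cuS (embS g * uT t) p = mixedEmbedding K (cuS g p) + v3_G t (cuS g) p := by
  have hg' : IsUS (embS g) := isUS_emb.2 hg
  obtain ⟨h1, h2⟩ := cuS_mul hg' (isUS_uT t)
  have hD : bD (uT t) = upM fun p => t (Sum.inr p) := (uT_bl t).2.2.2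
  rcases p with p | p
  · rw [h2 p, hD, cuS_uT]
    have e0 : ((upM fun p => t (Sum.inr p))ᵀ * syM (fun p => cuS (embS g) (Sum.inl p)) *
        (upM fun p => t (Sum.inr p))) p.1.1 p.1.2 = ∑ q : Fin n × Fin n,
        upM (fun p => t (Sum.inr p)) q.1 p.1.1 *
        syM (fun p => mixedEmbedding K (cuS g (Sum.inl p))) q.1 q.2 *
        upM (fun p => t (Sum.inr p)) q.2 p.1.2 := by
      have e1 : (fun p => cuS (embS g) (Sum.inl p)) =
          fun p : SI n => mixedEmbedding K (cuS g (Sum.inl p)) := by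
        funext p
        exact cuS_emb g _
      rw [e1, Fintype.sum_prod_type, Matrix.mul_apply, Finset.sum_comm]
      refine Finset.sum_congr rfl fun j _ => ?_
      rw [Matrix.mul_apply, Finset.sum_mul]
      rfl
    rw [e0, ← Finset.add_sum_erase Finset.univ _ (Finset.mem_univ p.1), upM_eq, upM_eq, one_mul, mul_one,
      v3_syM _ p.2]
    change _ = mixedEmbedding K (cuS g (Sum.inl p)) + (t (Sum.inl p) + _)
    have e3 : (⟨(p.1.1, p.1.2), p.2⟩ : SI n) = p := rfl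
    rw [e3]
    ring
  · rw [h1 p, hD, uu_mul_entry2 hg'.2 (isUU_upM _) p.2.ne]
    have e1 : bD (embS g) p.1.1 p.1.2 = mixedEmbedding K (cuS g (Sum.inr p)) := by
      rw [(bl_emb g).2.2.2]
      rfl
    rw [e1, upM_lt _ p.2]
    change _ = mixedEmbedding K (cuS g (Sum.inr p)) + (t (Sum.inr p) + _)
    congr 2
    refine Finset.sum_congr rfl fun c _ => ?_
    rw [v3_D hg]

/-- PROOF. Let `t` be given, `τ = t ∘ inr`, `A = upM τ`, `Y = t ∘ inl`. The elements `g ∈ Γ ∩ U` correspond to the `z : TI n → K` with `z p ∈ 𝔡 p` (`g = uT z`, `uT_cuS`, `cuS_uT`). `g • t` has the coordinates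
`(g • t) (inr (a, l)) = z_(a,l) + τ_(a,l) + ∑_{a < c < l} z_(a,c) τ_(c,l)` and `(g • t) (inl (a, b)) = Y_(a,b) + (Aᵀ syM(z) A)_(a,b) = Y_(a,b) + z_(a,b) + (a combination of the z_(i,j), i ≤ a, j ≤ b, (i,j) ≠ (a,b), with coefficients depending on A)` (`cuS_mul`, `cuS_emb`).
So the conditions `(g • t) p ∈ D p` have a unique solution by `H33W.u1_uniq` (rank functions: `r (inr (a, l)) = l - a`, `r (inl (a, b)) = a + b`; each condition determines `z p ∈ 𝔡 p` uniquely given the `z` of smaller rank, by `H33W.u5_ex`). Compare `H33W.u5_uniq`, `H33W.u5_fd`.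
Measurability of the set: `measurableSet` of a finite intersection (`LD.meas`). -/
theorem sf_box {Γ : Subgroup (SP n K)} {𝔡 : TI n → Ideal (𝓞 K)} (h : HasI Γ 𝔡) (D : TI n → Set (EE K))
    (hD : ∀ p, LD (LI (𝔡 p)) (D p)) : SF (Γ.subgroupOf (UGS n K)) {t : TI n → EE K | ∀ p, t p ∈ D p} := by
  refine ⟨?_, ?_⟩
  · have e : {t : TI n → EE K | ∀ p, t p ∈ D p} = Set.pi Set.univ D := by
      ext t
      simp
    rw [e]
    exact MeasurableSet.univ_pi fun p => (hD p).meas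
  · intro t
    obtain ⟨z, hz, hu⟩ := u1_uniq (Z := K) (v3_r : TI n → ℕ)
      (fun p z x => InI (𝔡 p) x ∧ mixedEmbedding K x + v3_G t z p ∈ D p)
      (fun p z z' x hzz => by rw [v3_G_congr t z z' p hzz]) (fun p z => u5_ex (hD p) _)
    have hU : IsUS (uT z : SP n K) := isUS_uT z
    have hcu : cuS (uT z : SP n K) = z := cuS_uT z
    have hΓ : (uT z : SP n K) ∈ Γ := (h.iff _ hU).2 fun p => by
      rw [hcu]
      exact (hz p).1
    refine ⟨⟨⟨uT z, hU⟩, hΓ⟩, ?_, ?_⟩
    · show ∀ p, cuS (embS (uT z : SP n K) * uT t) p ∈ D p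
      intro p
      rw [v3_ent hU, hcu]
      exact (hz p).2
    · rintro ⟨⟨g, hg⟩, hg'⟩ h3
      have h4 : ∀ p, cuS (embS g * uT t) p ∈ D p := h3
      have hgU : IsUS g := hg
      have hgΓ : g ∈ Γ := hg'
      have e : cuS g = z := by
        refine hu _ fun p => ⟨(h.iff g hgU).1 hgΓ p, ?_⟩
        have h5 := h4 p
        rwa [v3_ent hgU] at h5
      apply Subtype.ext
      apply Subtype.ext
      show g = uT z
      rw [← e, uT_cuS hgU]

theorem sf_LB {Γ : Subgroup (SP n K)} {𝔡 : TI n → Ideal (𝓞 K)} (h : HasI Γ 𝔡) : SF (Γ.subgroupOf (UGS n K)) (LB 𝔡) :=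
  sf_box h _ fun p => fi_spec (h.ne p)

/-- `volume_pi_pi` (as in `H33W.u5_vol`). -/
theorem vol_box (D : TI n → Set (EE K)) : volume {t : TI n → EE K | ∀ p, t p ∈ D p} = ∏ p, volume (D p) := by
  have e : {t : TI n → EE K | ∀ p, t p ∈ D p} = Set.pi Set.univ D := by
    ext t
    simp
  rw [e, volume_pi_pi]

theorem LB_pos {𝔡 : TI n → Ideal (𝓞 K)} (h : ∀ p, 𝔡 p ≠ ⊥) : volume (LB 𝔡) ≠ 0 := by
  unfold LB
  rw [vol_box]
  exact Finset.prod_ne_zero_iff.2 fun p _ => (fi_spec (h p)).pos.ne'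

theorem LB_bdd {𝔡 : TI n → Ideal (𝓞 K)} (h : ∀ p, 𝔡 p ≠ ⊥) : Bornology.IsBounded (LB 𝔡) := by
  have e : LB 𝔡 = Set.pi Set.univ fun p : TI n => FI (𝔡 p) := by
    ext t
    simp [LB]
  rw [e]
  exact Bornology.IsBounded.pi fun p => (fi_spec (h p)).bdd

theorem LB_top {𝔡 : TI n → Ideal (𝓞 K)} (h : ∀ p, 𝔡 p ≠ ⊥) : volume (LB 𝔡) ≠ ⊤ := by
  unfold LB
  rw [vol_box]
  exact ENNReal.prod_ne_top fun p _ => (fi_spec (h p)).bdd.measure_lt_top.ne

theorem v3_ct (n : ℕ) (K : Type) [Field K] [NumberField K] : Countable (SP n K) := by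
  have hK : Countable K := (Module.finBasis ℚ K).equivFun.injective.countable
  have hM : Countable (Matrix (Fin n ⊕ Fin n) (Fin n ⊕ Fin n) K) :=
    inferInstanceAs (Countable (Fin n ⊕ Fin n → Fin n ⊕ Fin n → K))
  exact Function.Injective.countable (f := (SP.val : SP n K → _)) fun a b e => SP.ext e

/-- The mean does not depend on the fundamental domain (`H33W.u2_mean` or `u2_int_eq` with `ut_mp`, `sf_LB`). -/
theorem mean_box {Γ : Subgroup (SP n K)} {𝔡 : TI n → Ideal (𝓞 K)} (h : HasI Γ 𝔡) {D : Set (TI n → EE K)}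
    (hD : SF (Γ.subgroupOf (UGS n K)) D) {H : (TI n → EE K) → ℂ} (mH : Measurable H)
    (iH : ∀ g ∈ Γ.subgroupOf (UGS n K), ∀ t, H (g • t) = H t) : ∫ t in D, H t = ∫ t in LB 𝔡, H t := by
  have : Countable (SP n K) := v3_ct n K
  have : Countable (UGS n K) := Subtype.countable
  exact u2_int_eq ut_mp (sf_LB h) hD mH iH

end

end Pool.Agent.Lib.H67G
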