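import Pool.Agent.Lib.H67G.E0
import Pool.Agent.Lib.H67G.V3

/-!
# E3 (M): the block translations
-/

namespace Pool.Agent.Lib.H67G

open MeasureTheory Matrix NumberField IsDedekindDomain Pool.Agent.Lib.H89N Pool.Agent.Lib.H33W
open scoped ENNReal

noncomputable section

set_option linter.unusedSectionVars false

variable {n : ℕ} {K : Type} [Field K] [NumberField K]

/-!
Let `H : (TI n → EE K) → ℂ` be measurable, bounded, invariant under `Γ ∩ U`.

* `blk_zero`: `M = nS w`. `(lT M t) (inr p) = t (inr p)`, `(lT M t) (inl p) = t (inl p) + (Aᵗ syM(w) A)_p`, `A = upM (t ∘ inr)` (`cuS_mul`). Let `Γ₀ = {nS z ∈ Γ}` (`z p ∈ 𝔡 (inl p)`), a subgroup of `Γ ∩ U` which commutes with `lT M`.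
  `S₁ = {t | t (inl p) ∈ FI (𝔡 (inl p)) for all p}` is a fundamental domain of `Γ₀` on `TI n → EE K` (as in `sf_box`: only the coordinates `inl` move, by a triangular system), `S₂ = {t | t (inr p) ∈ FI (𝔡 (inr p))}`, `LB = S₁ ∩ S₂`, and `lT M`, `Γ₀` preserve `S₂`. Now as in
  `H33W.u8_key` (file U8): `∫_{LB} H(lT M t) = ∫_{S₁} (1_{S₂} H)(lT M t) = ∫_{lT M⁻¹ ⁻¹' S₁} 1_{S₂} H = ∫_{S₁} 1_{S₂} H` by `H33W.u2_int_eq` for the group `Γ₀` (`lT_mp`, `ut_mp`).
* `blk_pos`: `M = mS (Uni J w)`, `J ≥ 1`. `M uT t = m((1 + w) A) n(Y)`: the coordinates `inl` do not change, and `(lT M t) (inr (a, l))` changes only for `a < J ≤ l`. The group `Γ_J = {mS (Uni J z) ∈ Γ}`; `S₁ = {t | t (inr p) ∈ FI (𝔡 (inr p)) for the p = (a, l), a < J ≤ l}`, `S₂` = the conditions for the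
  other coordinates. The same proof (compare `H33W.u7_sf`, `H33W.u8_key`); block matrices commute (`H33W.bl_comm`).
-/

/-- the elements `n(Y)` -/
structure e3_N {R : Type} [CommRing R] (M : SP n R) : Prop where
  us : IsUS M
  d : bD M = 1

theorem e3_A {R : Type} [CommRing R] {M : SP n R} (h : e3_N M) : bA M = 1 := by
  have h1 := (bl_rel M).1
  rw [h.us.1, h.d, Matrix.transpose_zero, Matrix.mul_zero, sub_zero, Matrix.transpose_one,
    Matrix.mul_one] at h1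
  exact h1

theorem e3_nS {R : Type} [CommRing R] (w : SI n → R) : e3_N (nS w) := by
  have h1 : bD (nS w) = 1 := by
    unfold bD nS
    rw [toBlocks_fromBlocks₂₂]
  refine ⟨⟨?_, ?_⟩, h1⟩
  · unfold bC nS
    rw [toBlocks_fromBlocks₂₁]
  · rw [h1]
    exact isUU_one

theorem e3_mul {R : Type} [CommRing R] {M N : SP n R} (hM : e3_N M) (hN : e3_N N) :
    e3_N (M * N) := by
  refine ⟨isUS_mul hM.us hN.us, ?_⟩
  rw [(bl_mul M N).2.2.2, hM.us.1, hM.d, hN.d, Matrix.zero_mul, zero_add, Matrix.mul_one]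

theorem e3_one {R : Type} [CommRing R] : e3_N (1 : SP n R) := ⟨isUS_one, bl_one.2.2.2⟩

theorem e3_inv {R : Type} [CommRing R] {M : SP n R} (hM : e3_N M) : e3_N M⁻¹ := by
  refine ⟨isUS_inv hM.us, ?_⟩
  rw [(bl_inv M).2.2.2, e3_A hM, Matrix.transpose_one]

theorem e3_comm {R : Type} [CommRing R] {M N : SP n R} (hM : e3_N M) (hN : e3_N N) :
    M * N = N * M := by
  obtain ⟨a1, a2, a3, a4⟩ := bl_mul M N
  obtain ⟨b1, b2, b3, b4⟩ := bl_mul N M
  refine bl_ext ?_ ?_ ?_ ?_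
  · rw [a1, b1, hM.us.1, hN.us.1, e3_A hM, e3_A hN, Matrix.mul_zero, Matrix.mul_zero]
  · rw [a2, b2, e3_A hM, e3_A hN, hM.d, hN.d, Matrix.one_mul, Matrix.one_mul, Matrix.mul_one,
      Matrix.mul_one, add_comm]
  · rw [a3, b3, hM.us.1, hN.us.1, hM.d, hN.d]
    simp
  · rw [a4, b4, hM.us.1, hN.us.1, hM.d, hN.d]
    simp

theorem e3_emb {g : SP n K} (h : e3_N g) : e3_N (embS g) := by
  refine ⟨isUS_emb.2 h.us, ?_⟩
  rw [(bl_emb g).2.2.2, h.d, Matrix.map_one _ (map_zero _) (map_one _)]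

theorem e3_inr {M : SP n (EE K)} (h : e3_N M) (t : TI n → EE K) (p : UI n) :
    lT M t (Sum.inr p) = t (Sum.inr p) := by
  unfold lT
  rw [(cuS_mul h.us (isUS_uT t)).1 p, h.d, Matrix.one_mul, v2b_D, upM_lt _ p.2]

theorem e3_comp {M N : SP n (EE K)} (hN : IsUS N) (t : TI n → EE K) :
    lT M (lT N t) = lT (M * N) t := by
  show cuS (M * uT (lT N t)) = cuS (M * N * uT t)
  rw [uT_lT hN, mul_assoc]

theorem e3_id (t : TI n → EE K) : lT (1 : SP n (EE K)) t = t := by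
  show cuS (1 * uT t) = t
  rw [one_mul, cuS_uT]

theorem e3_commute {M : SP n (EE K)} (hM : e3_N M) {g : UGS n K} (hg : e3_N (g : SP n K))
    (t : TI n → EE K) : lT M (g • t) = g • lT M t := by
  rw [ut_smul, ut_smul, e3_comp (e3_emb hg).us, e3_comp hM.us, e3_comm hM (e3_emb hg)]

/-- the map as an equivalence -/
def e3_E (M : SP n (EE K)) (hM : IsUS M) : (TI n → EE K) ≃ᵐ (TI n → EE K) where
  toFun := lT M
  invFun := lT M⁻¹
  left_inv t := by rw [e3_comp hM, inv_mul_cancel, e3_id]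
  right_inv t := by rw [e3_comp (isUS_inv hM), mul_inv_cancel, e3_id]
  measurable_toFun := (lT_mp hM).measurable
  measurable_invFun := (lT_mp (isUS_inv hM)).measurable

/-- The group `Γ₀`. -/
def e3_G (Γ : Subgroup (SP n K)) : Subgroup (UGS n K) where
  carrier := {g | (g : SP n K) ∈ Γ ∧ e3_N (g : SP n K)}
  mul_mem' := fun {g h} hg hh => ⟨by
    rw [Subgroup.coe_mul]
    exact mul_mem hg.1 hh.1, by
    rw [Subgroup.coe_mul]
    exact e3_mul hg.2 hh.2⟩
  one_mem' := ⟨by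
    rw [Subgroup.coe_one]
    exact one_mem _, by
    rw [Subgroup.coe_one]
    exact e3_one⟩
  inv_mem' := fun {g} hg => ⟨by
    rw [Subgroup.coe_inv]
    exact inv_mem hg.1, by
    rw [Subgroup.coe_inv]
    exact e3_inv hg.2⟩

theorem e3_cuS {g : SP n K} (h : e3_N g) : cuS g = Sum.elim (fun p => cuS g (Sum.inl p)) 0 := by
  funext p
  rcases p with p | p
  · rfl
  · show bD g p.1.1 p.1.2 = 0
    rw [h.d, Matrix.one_apply_ne p.2.ne]

theorem e3_uT (z : SI n → K) : e3_N (uT (Sum.elim z 0 : TI n → K)) := by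
  refine ⟨isUS_uT _, ?_⟩
  rw [(uT_bl _).2.2.2]
  ext a l
  rcases lt_trichotomy a l with h | h | h
  · rw [upM_lt _ h, Matrix.one_apply_ne h.ne]
    rfl
  · subst h
    rw [upM_eq, Matrix.one_apply_eq]
  · rw [upM_gt _ h, Matrix.one_apply_ne h.ne']

theorem e3_sf {Γ : Subgroup (SP n K)} {𝔡 : TI n → Ideal (𝓞 K)} (h : HasI Γ 𝔡) :
    SF (e3_G Γ) {t : TI n → EE K | ∀ p : SI n, t (Sum.inl p) ∈ FI (𝔡 (Sum.inl p))} := by
  refine ⟨?_, ?_⟩
  · have e : {t : TI n → EE K | ∀ p : SI n, t (Sum.inl p) ∈ FI (𝔡 (Sum.inl p))} =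
        ⋂ p : SI n, (fun t : TI n → EE K => t (Sum.inl p)) ⁻¹' FI (𝔡 (Sum.inl p)) := by
      ext t
      simp
    rw [e]
    exact MeasurableSet.iInter fun p => measurable_pi_apply _ (fi_spec (h.ne _)).meas
  · intro t
    obtain ⟨z, hz, hu⟩ := u1_uniq (Z := K) (fun p : SI n => v3_r (Sum.inl p : TI n))
      (fun p z x => InI (𝔡 (Sum.inl p)) x ∧
        mixedEmbedding K x + v3_G t (Sum.elim z 0) (Sum.inl p) ∈ FI (𝔡 (Sum.inl p)))
      (fun p z z' x hzz => by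
        rw [v3_G_congr t (Sum.elim z 0) (Sum.elim z' 0) (Sum.inl p) fun q hq => by
          rcases q with q | q
          · exact hzz q hq
          · rfl])
      (fun p z => u5_ex (fi_spec (h.ne (Sum.inl p))) _)
    have hN : e3_N (uT (Sum.elim z 0 : TI n → K)) := e3_uT z
    have hcu : cuS (uT (Sum.elim z 0) : SP n K) = Sum.elim z 0 := cuS_uT _
    have hΓ : (uT (Sum.elim z 0) : SP n K) ∈ Γ := (h.iff _ hN.us).2 fun p => by
      rw [hcu]
      rcases p with p | p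
      · exact (hz p).1
      · exact ini_zero
    refine ⟨⟨⟨uT (Sum.elim z 0), hN.us⟩, hΓ, hN⟩, ?_, ?_⟩
    · show ∀ p : SI n, cuS (embS (uT (Sum.elim z 0) : SP n K) * uT t) (Sum.inl p) ∈ FI (𝔡 (Sum.inl p))
      intro p
      rw [v3_ent hN.us, hcu]
      exact (hz p).2
    · rintro ⟨⟨g, hg⟩, hg'⟩ h3
      have h4 : ∀ p : SI n, cuS (embS g * uT t) (Sum.inl p) ∈ FI (𝔡 (Sum.inl p)) := h3
      have hgN : e3_N g := hg'.2
      have hgΓ : g ∈ Γ := hg'.1
      have e : (fun p => cuS g (Sum.inl p)) = z := by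
        refine hu _ fun p => ⟨(h.iff g hgN.us).1 hgΓ (Sum.inl p), ?_⟩
        have h5 := h4 p
        rw [v3_ent hgN.us] at h5
        rw [← e3_cuS hgN]
        exact h5
      apply Subtype.ext
      apply Subtype.ext
      show g = uT (Sum.elim z 0)
      rw [← e, ← e3_cuS hgN, uT_cuS hgN.us]

theorem e3_gen {H X : Type} [Group H] [MulAction H X] [MeasurableSpace X] {G : Subgroup H}
    {S : Set X} (hS : SF G S) (T : X → X) (mT : Measurable T)
    (hT : ∀ g ∈ G, ∀ x, T (g • x) = g • T x) : SF G (T ⁻¹' S) := by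
  refine ⟨mT hS.meas, fun s => ?_⟩
  obtain ⟨g, hg, hu⟩ := hS.fd (T s)
  refine ⟨g, ?_, ?_⟩
  · show T ((g : H) • s) ∈ S
    rw [hT _ g.2]
    exact hg
  · intro g' hg'
    refine hu g' ?_
    have h1 : T ((g' : H) • s) ∈ S := hg'
    rw [hT _ g'.2] at h1
    exact h1

theorem e3_sf' {Γ : Subgroup (SP n K)} {S : Set (TI n → EE K)} (hS : SF (e3_G Γ) S)
    {M : SP n (EE K)} (hM : e3_N M) : SF (e3_G Γ) (lT M ⁻¹' S) :=
  e3_gen hS (lT M) (lT_mp hM.us).measurable fun _ hg x => e3_commute hM hg.2 x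

theorem blk_zero {Γ : Subgroup (SP n K)} {𝔡 : TI n → Ideal (𝓞 K)} (hI : HasI Γ 𝔡) (w : SI n → EE K) {H : (TI n → EE K) → ℂ} (mH : Measurable H)
    (iH : ∀ g ∈ Γ.subgroupOf (UGS n K), ∀ t, H (g • t) = H t) :
    ∫ t in LB 𝔡, H (lT (nS w) t) = ∫ t in LB 𝔡, H t := by
  have : Countable (SP n K) := v3_ct n K
  have : Countable (UGS n K) := Subtype.countable
  obtain ⟨M, hMdef⟩ : ∃ M : SP n (EE K), M = nS w := ⟨_, rfl⟩
  have hM : e3_N M := hMdef ▸ e3_nS w
  rw [← hMdef]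
  set S1 : Set (TI n → EE K) := {t | ∀ p : SI n, t (Sum.inl p) ∈ FI (𝔡 (Sum.inl p))} with hS1
  set S2 : Set (TI n → EE K) := {t | ∀ p : UI n, t (Sum.inr p) ∈ FI (𝔡 (Sum.inr p))} with hS2
  have hsf : SF (e3_G Γ) S1 := e3_sf hI
  have hBU : LB 𝔡 = S1 ∩ S2 := by
    ext t
    constructor
    · intro h
      exact ⟨fun p => h (Sum.inl p), fun p => h (Sum.inr p)⟩
    · rintro ⟨h1, h2⟩ p
      rcases p with p | p
      · exact h1 p
      · exact h2 p
  have mS2 : MeasurableSet S2 := by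
    have e : S2 = ⋂ p : UI n, (fun t : TI n → EE K => t (Sum.inr p)) ⁻¹' FI (𝔡 (Sum.inr p)) := by
      ext t
      simp [hS2]
    rw [e]
    exact MeasurableSet.iInter fun p => measurable_pi_apply _ (fi_spec (hI.ne _)).meas
  have hT2 : ∀ {N : SP n (EE K)}, e3_N N → ∀ t, lT N t ∈ S2 ↔ t ∈ S2 := by
    intro N hN t
    show (∀ p : UI n, lT N t (Sum.inr p) ∈ FI (𝔡 (Sum.inr p))) ↔
      ∀ p : UI n, t (Sum.inr p) ∈ FI (𝔡 (Sum.inr p))
    refine forall_congr' fun p => ?_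
    rw [e3_inr hN]
  have mF : Measurable (S2.indicator H) := mH.indicator mS2
  have iF : ∀ g ∈ e3_G Γ, ∀ s, S2.indicator H (g • s) = S2.indicator H s := by
    intro g hg s
    have h1 : H (g • s) = H s := iH g hg.1 s
    have h2 : g • s ∈ S2 ↔ s ∈ S2 := hT2 (e3_emb hg.2) s
    by_cases h3 : s ∈ S2
    · rw [Set.indicator_of_mem h3, Set.indicator_of_mem (h2.2 h3), h1]
    · rw [Set.indicator_of_notMem h3, Set.indicator_of_notMem fun h4 => h3 (h2.1 h4)]
  have hpre : lT M ⁻¹' (lT M⁻¹ ⁻¹' S1) = S1 := by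
    ext σ
    show lT M⁻¹ (lT M σ) ∈ S1 ↔ σ ∈ S1
    rw [e3_comp hM.us, inv_mul_cancel, e3_id]
  calc ∫ σ in LB 𝔡, H (lT M σ) = ∫ σ in S1, S2.indicator (fun σ => H (lT M σ)) σ := by
        rw [hBU, setIntegral_indicator mS2]
    _ = ∫ σ in S1, S2.indicator H (lT M σ) := by
        congr 1
        funext σ
        by_cases h3 : σ ∈ S2
        · rw [Set.indicator_of_mem h3, Set.indicator_of_mem ((hT2 hM σ).2 h3)]
        · rw [Set.indicator_of_notMem h3, Set.indicator_of_notMem fun h4 => h3 ((hT2 hM σ).1 h4)]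
    _ = ∫ σ in lT M ⁻¹' (lT M⁻¹ ⁻¹' S1), S2.indicator H (lT M σ) := by rw [hpre]
    _ = ∫ σ in lT M⁻¹ ⁻¹' S1, S2.indicator H σ :=
        (lT_mp hM.us).setIntegral_preimage_emb (e3_E M hM.us).measurableEmbedding _ _
    _ = ∫ σ in S1, S2.indicator H σ :=
        u2_int_eq (H := UGS n K) ut_mp hsf (e3_sf' hsf (e3_inv hM)) mF iF
    _ = ∫ σ in LB 𝔡, H σ := by rw [hBU, setIntegral_indicator mS2]

end

end Pool.Agent.Lib.H67G
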