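import Pool.Agent.Lib.H67G.E0
import Pool.Agent.Lib.H67G.V3
import Pool.Agent.Lib.H33W.U8

/-!
# E4 (M): the block translations in GL_n
-/

namespace Pool.Agent.Lib.H67G

open MeasureTheory Matrix NumberField IsDedekindDomain Pool.Agent.Lib.H89N Pool.Agent.Lib.H33W
open scoped ENNReal

noncomputable section

set_option linter.unusedSectionVars false

section alg

variable {n : ℕ} {R : Type} [CommRing R]

/-- The elements `m(A)` with `A` in the block subgroup. -/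
def E4B (J : ℕ) (g : SP n R) : Prop := bC g = 0 ∧ bB g = 0 ∧ IsBl J (bD g)

theorem E4B.us {J : ℕ} {g : SP n R} (h : E4B J g) : IsUS g := ⟨h.1, h.2.2.uu⟩

theorem e4_cuinl {J : ℕ} {g : SP n R} (h : E4B J g) (p : SI n) : cuS g (Sum.inl p) = 0 := by
  show ((bD g)ᵀ * bB g) p.1.1 p.1.2 = 0
  rw [h.2.1, Matrix.mul_zero]
  rfl

theorem e4_one (J : ℕ) : E4B J (1 : SP n R) := by
  obtain ⟨o1, o2, o3, o4⟩ := bl_one (n := n) (R := R)
  refine ⟨o3, o2, ?_⟩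
  rw [o4]
  exact isBl_one J

theorem e4_mul {J : ℕ} {g h : SP n R} (hg : E4B J g) (hh : E4B J h) : E4B J (g * h) := by
  obtain ⟨m1, m2, m3, m4⟩ := bl_mul g h
  refine ⟨(isUS_mul hg.us hh.us).1, ?_, ?_⟩
  · rw [m2, hg.2.1, hh.2.1, Matrix.mul_zero, Matrix.zero_mul, add_zero]
  · rw [m4, hg.1, Matrix.zero_mul, zero_add]
    exact isBl_mul hg.2.2 hh.2.2

theorem e4_inv {J : ℕ} {g : SP n R} (hg : E4B J g) : E4B J g⁻¹ := by
  obtain ⟨i1, i2, i3, i4⟩ := bl_inv g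
  have hi := isUS_inv hg.us
  refine ⟨hi.1, ?_, ?_⟩
  · rw [i2, hg.2.1, Matrix.transpose_zero, neg_zero]
  · intro a l hl
    have h1 : bD g * bD g⁻¹ = 1 := by
      rw [i4]
      exact (v1_DA hg.us).1
    rw [← bl_mul_non hg.2.2 hi.2 hl, h1]

theorem e4_comm {J : ℕ} {g h : SP n R} (hg : E4B J g) (hh : E4B J h) : g * h = h * g := by
  have e : cuS (g * h) = cuS (h * g) := by
    funext p
    rcases p with p | p
    · rw [e4_cuinl (e4_mul hg hh), e4_cuinl (e4_mul hh hg)]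
    · rw [(cuS_mul hg.us hh.us).1 p, (cuS_mul hh.us hg.us).1 p, bl_comm hg.2.2 hh.2.2]
  rw [← uT_cuS (isUS_mul hg.us hh.us), ← uT_cuS (isUS_mul hh.us hg.us), e]

theorem e4_mS {J : ℕ} {A : SpecialLinearGroup (Fin n) R} (hA : IsBl J A.1) : E4B J (mS A) := by
  obtain ⟨m1, m2, m3, m4⟩ := v1_blocks (g := mS A) rfl
  refine ⟨m3, m2, ?_⟩
  rw [m4]
  exact hA

end alg

variable {n : ℕ} {K : Type} [Field K] [NumberField K]

theorem e4_emb {J : ℕ} {g : SP n K} (h : E4B J g) : E4B J (embS g) := by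
  obtain ⟨a1, a2, a3, a4⟩ := bl_emb g
  refine ⟨(isUS_emb.2 h.us).1, ?_, ?_⟩
  · rw [a2, h.2.1]
    exact Matrix.map_zero _ (map_zero _)
  · intro a l hl
    rw [a4]
    show mixedEmbedding K (bD g a l) = _
    rw [h.2.2 a l hl]
    rcases eq_or_ne a l with h1 | h1
    · subst h1
      rw [Matrix.one_apply_eq, Matrix.one_apply_eq, map_one]
    · rw [Matrix.one_apply_ne h1, Matrix.one_apply_ne h1, map_zero]

theorem e4_comp {M N : SP n (EE K)} (hN : IsUS N) (t : TI n → EE K) : lT M (lT N t) = lT (M * N) t := by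
  unfold lT
  rw [uT_cuS (isUS_mul hN (isUS_uT t)), mul_assoc]

theorem e4_lone (t : TI n → EE K) : lT (1 : SP n (EE K)) t = t := by
  unfold lT
  rw [one_mul, cuS_uT]

theorem e4_inl {J : ℕ} {M : SP n (EE K)} (hM : E4B J M) (t : TI n → EE K) (p : SI n) :
    lT M t (Sum.inl p) = t (Sum.inl p) := by
  unfold lT
  rw [(cuS_mul hM.us (isUS_uT t)).2 p]
  have h0 : syM (fun p : SI n => cuS M (Sum.inl p)) = 0 := by
    refine Matrix.ext fun a b => ?_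
    unfold syM
    rw [Matrix.of_apply]
    by_cases h : a ≤ b
    · rw [dif_pos h]
      exact e4_cuinl hM _
    · rw [dif_neg h]
      exact e4_cuinl hM _
  rw [h0, Matrix.mul_zero, Matrix.zero_mul, cuS_uT]
  exact zero_add _

theorem e4_inr {J : ℕ} {M : SP n (EE K)} (hM : E4B J M) (t : TI n → EE K) (p : UI n) :
    lT M t (Sum.inr p) = (bD M * upM fun p => t (Sum.inr p)) p.1.1 p.1.2 := by
  unfold lT
  rw [(cuS_mul hM.us (isUS_uT t)).1 p, (uT_bl t).2.2.2]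

/-- The coordinates outside of the block do not change. -/
theorem e4_non {J : ℕ} {M : SP n (EE K)} (hM : E4B J M) (t : TI n → EE K) {p : UI n}
    (h : ¬((p.1.1 : ℕ) < J ∧ J ≤ (p.1.2 : ℕ))) : lT M t (Sum.inr p) = t (Sum.inr p) := by
  rw [e4_inr hM, bl_mul_non hM.2.2 (isUU_upM _) h, upM_lt _ p.2]

/-- The block subgroup of `Γ ∩ U`. -/
def E4G (J : ℕ) (Γ : Subgroup (SP n K)) : Subgroup (UGS n K) where
  carrier := {g | (g : SP n K) ∈ Γ ∧ E4B J (g : SP n K)}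
  mul_mem' := fun {g h} hg hh => ⟨mul_mem hg.1 hh.1, by
    show E4B J ((g * h : UGS n K) : SP n K)
    rw [Subgroup.coe_mul]
    exact e4_mul hg.2 hh.2⟩
  one_mem' := ⟨one_mem _, by
    show E4B J ((1 : UGS n K) : SP n K)
    rw [Subgroup.coe_one]
    exact e4_one J⟩
  inv_mem' := fun {g} hg => ⟨inv_mem hg.1, by
    show E4B J ((g⁻¹ : UGS n K) : SP n K)
    rw [Subgroup.coe_inv]
    exact e4_inv hg.2⟩

theorem e4_commute {J : ℕ} {M : SP n (EE K)} (hM : E4B J M) {g : UGS n K} (hg : E4B J (g : SP n K)) (t : TI n → EE K) :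
    lT M (g • t) = g • lT M t := by
  rw [ut_smul, ut_smul, e4_comp (e4_emb hg).us, e4_comp hM.us, e4_comm hM (e4_emb hg)]

/-- The map as an equivalence. -/
def e4E (M : SP n (EE K)) (hM : IsUS M) : (TI n → EE K) ≃ᵐ (TI n → EE K) where
  toFun := lT M
  invFun := lT M⁻¹
  left_inv t := by rw [e4_comp hM, inv_mul_cancel, e4_lone]
  right_inv t := by rw [e4_comp (isUS_inv hM), mul_inv_cancel, e4_lone]
  measurable_toFun := (lT_mp hM).measurable
  measurable_invFun := (lT_mp (isUS_inv hM)).measurable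

/-- The relation for the entries of the element of the block group. -/
def e4Q (J : ℕ) (𝔟 : UI n → Ideal (𝓞 K)) (D : UI n → Set (EE K)) (s : UI n → EE K) (p : UI n) (z : UI n → K) (x : K) : Prop :=
  if (p.1.1 : ℕ) < J ∧ J ≤ (p.1.2 : ℕ) then
    InI (𝔟 p) x ∧ mixedEmbedding K x + (s p + ∑ c ∈ (Finset.univ.erase p.1.1).erase p.1.2,
      mixedEmbedding K (upM z p.1.1 c) * upM s c p.1.2) ∈ D p
  else x = 0

theorem e4_uniq (J : ℕ) (𝔟 : UI n → Ideal (𝓞 K)) (D : UI n → Set (EE K)) (hD : ∀ p : UI n, LD (LI (𝔟 p)) (D p))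
    (s : UI n → EE K) : ∃! z : UI n → K, ∀ p, e4Q J 𝔟 D s p z (z p) := by
  refine u1_uniq (fun p : UI n => (p.1.2 : ℕ)) (e4Q J 𝔟 D s) ?_ ?_
  · intro p z z' x h
    unfold e4Q
    by_cases hb : (p.1.1 : ℕ) < J ∧ J ≤ (p.1.2 : ℕ)
    · rw [if_pos hb, if_pos hb]
      have e : ∑ c ∈ (Finset.univ.erase p.1.1).erase p.1.2, mixedEmbedding K (upM z p.1.1 c) * upM s c p.1.2 =
          ∑ c ∈ (Finset.univ.erase p.1.1).erase p.1.2, mixedEmbedding K (upM z' p.1.1 c) * upM s c p.1.2 := by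
        refine Finset.sum_congr rfl fun c hc => ?_
        rw [Finset.mem_erase, Finset.mem_erase] at hc
        rcases lt_or_gt_of_ne hc.1 with h1 | h1
        · congr 2
          rcases lt_trichotomy p.1.1 c with h2 | h2 | h2
          · rw [upM_lt z h2, upM_lt z' h2]
            exact h ⟨(p.1.1, c), h2⟩ h1
          · rw [← h2, upM_eq, upM_eq]
          · rw [upM_gt z h2, upM_gt z' h2]
        · rw [upM_gt s h1, mul_zero, mul_zero]
      rw [e]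
    · rw [if_neg hb, if_neg hb]
  · intro p z
    unfold e4Q
    by_cases hb : (p.1.1 : ℕ) < J ∧ J ≤ (p.1.2 : ℕ)
    · simp only [if_pos hb]
      exact u5_ex (hD p) _
    · simp only [if_neg hb]
      exact ⟨0, rfl, fun y hy => hy⟩

theorem e4_ms (J : ℕ) (D : UI n → Set (EE K)) (hD : ∀ p, MeasurableSet (D p)) :
    MeasurableSet {t : TI n → EE K | ∀ p : UI n, (p.1.1 : ℕ) < J ∧ J ≤ (p.1.2 : ℕ) → t (Sum.inr p) ∈ D p} := by
  have e : {t : TI n → EE K | ∀ p : UI n, (p.1.1 : ℕ) < J ∧ J ≤ (p.1.2 : ℕ) → t (Sum.inr p) ∈ D p} =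
      ⋂ p : UI n, {t | (p.1.1 : ℕ) < J ∧ J ≤ (p.1.2 : ℕ) → t (Sum.inr p) ∈ D p} := by
    ext t
    simp
  rw [e]
  refine MeasurableSet.iInter fun p => ?_
  by_cases hb : (p.1.1 : ℕ) < J ∧ J ≤ (p.1.2 : ℕ)
  · have e2 : {t : TI n → EE K | (p.1.1 : ℕ) < J ∧ J ≤ (p.1.2 : ℕ) → t (Sum.inr p) ∈ D p} =
        (fun t : TI n → EE K => t (Sum.inr p)) ⁻¹' D p := by
      ext t
      exact ⟨fun h => h hb, fun h _ => h⟩
    rw [e2]
    exact (measurable_pi_apply (Sum.inr p)) (hD p)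
  · have e2 : {t : TI n → EE K | (p.1.1 : ℕ) < J ∧ J ≤ (p.1.2 : ℕ) → t (Sum.inr p) ∈ D p} = Set.univ := by
      ext t
      exact ⟨fun _ => trivial, fun _ h => absurd h hb⟩
    rw [e2]
    exact MeasurableSet.univ

theorem e4_sf {Γ : Subgroup (SP n K)} {𝔡 : TI n → Ideal (𝓞 K)} (hI : HasI Γ 𝔡) (J : ℕ) :
    SF (E4G J Γ) {t : TI n → EE K | ∀ p : UI n, (p.1.1 : ℕ) < J ∧ J ≤ (p.1.2 : ℕ) → t (Sum.inr p) ∈ FI (𝔡 (Sum.inr p))} := by
  have hD : ∀ p : UI n, LD (LI (𝔡 (Sum.inr p))) (FI (𝔡 (Sum.inr p))) := fun p => fi_spec (hI.ne _)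
  refine ⟨e4_ms J (fun p => FI (𝔡 (Sum.inr p))) fun p => (hD p).meas, ?_⟩
  intro t
  set s : UI n → EE K := fun p => t (Sum.inr p) with hs
  obtain ⟨z, hz, hu⟩ := e4_uniq J (fun p => 𝔡 (Sum.inr p)) (fun p => FI (𝔡 (Sum.inr p))) hD s
  -- the entries
  have hent : ∀ (g : SP n K), E4B J g → ∀ p : UI n, lT (embS g) t (Sum.inr p) =
      mixedEmbedding K (cu (bD g) p) + (s p + ∑ c ∈ (Finset.univ.erase p.1.1).erase p.1.2,
        mixedEmbedding K (upM (cu (bD g)) p.1.1 c) * upM s c p.1.2) := by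
    intro g hg p
    rw [e4_inr (e4_emb hg), uu_mul_entry2 (e4_emb hg).2.2.uu (isUU_upM _) p.2.ne, upM_lt _ p.2,
      upM_cu hg.2.2.uu]
    rfl
  have hup : IsUU (upM z : Matrix (Fin n) (Fin n) K) := isUU_upM z
  have hcu : cu (upM z : Matrix (Fin n) (Fin n) K) = z := cu_upM z
  have hbl : IsBl J (upM z : Matrix (Fin n) (Fin n) K) := by
    intro a l hal
    rcases le_or_gt l a with h | h
    · exact hup a l h
    · rw [upM_lt z h, Matrix.one_apply_ne h.ne]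
      have h1 := hz ⟨(a, l), h⟩
      unfold e4Q at h1
      rwa [if_neg hal] at h1
  set g₀ : SP n K := mS (up z) with hg₀
  have hE : E4B J g₀ := e4_mS hbl
  have hD0 : bD g₀ = upM z := (v1_blocks (g := mS (up z)) rfl).2.2.2
  have hmem : g₀ ∈ Γ := by
    rw [hI.iff g₀ hE.us]
    intro p
    rcases p with p | p
    · rw [e4_cuinl hE]
      exact ini_zero
    · show InI (𝔡 (Sum.inr p)) (bD g₀ p.1.1 p.1.2)
      rw [hD0, upM_lt z p.2]
      have h1 := hz p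
      unfold e4Q at h1
      by_cases hb : (p.1.1 : ℕ) < J ∧ J ≤ (p.1.2 : ℕ)
      · rw [if_pos hb] at h1
        exact h1.1
      · rw [if_neg hb] at h1
        have h2 : z ⟨(p.1.1, p.1.2), p.2⟩ = 0 := h1
        rw [h2]
        exact ini_zero
  refine ⟨⟨⟨g₀, hE.us⟩, hmem, hE⟩, ?_, ?_⟩
  · show ∀ p : UI n, (p.1.1 : ℕ) < J ∧ J ≤ (p.1.2 : ℕ) → lT (embS g₀) t (Sum.inr p) ∈ FI (𝔡 (Sum.inr p))
    intro p hb
    rw [hent g₀ hE p, hD0, hcu]
    have h1 := hz p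
    unfold e4Q at h1
    rw [if_pos hb] at h1
    exact h1.2
  · rintro ⟨⟨g, hg⟩, hg1, hg2⟩ h
    have hg2' : E4B J g := hg2
    have h' : ∀ p : UI n, (p.1.1 : ℕ) < J ∧ J ≤ (p.1.2 : ℕ) → lT (embS g) t (Sum.inr p) ∈ FI (𝔡 (Sum.inr p)) := h
    have e : cu (bD g) = z := by
      refine hu _ fun p => ?_
      unfold e4Q
      by_cases hb : (p.1.1 : ℕ) < J ∧ J ≤ (p.1.2 : ℕ)
      · rw [if_pos hb]
        refine ⟨(hI.iff g hg).1 hg1 (Sum.inr p), ?_⟩
        have h1 := h' p hb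
        rwa [hent g hg2' p] at h1
      · rw [if_neg hb]
        show bD g p.1.1 p.1.2 = 0
        rw [hg2'.2.2 p.1.1 p.1.2 hb, Matrix.one_apply_ne p.2.ne]
    apply Subtype.ext
    apply Subtype.ext
    show g = g₀
    rw [← uT_cuS hg, ← uT_cuS hE.us]
    congr 1
    funext p
    rcases p with p | p
    · rw [e4_cuinl hg2', e4_cuinl hE]
    · show bD g p.1.1 p.1.2 = bD g₀ p.1.1 p.1.2
      rw [hD0, ← e, upM_cu hg2'.2.2.uu]

theorem e4_gen {G X : Type} [Group G] [MulAction G X] [MeasurableSpace X] {Γ : Subgroup G} {S : Set X} (hS : SF Γ S)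
    {T : X → X} (hT : Measurable T) (hc : ∀ g ∈ Γ, ∀ s, T (g • s) = g • T s) : SF Γ (T ⁻¹' S) := by
  refine ⟨hT hS.meas, fun s => ?_⟩
  obtain ⟨g, hg, hu⟩ := hS.fd (T s)
  refine ⟨g, ?_, ?_⟩
  · show T ((g : G) • s) ∈ S
    rw [hc g g.2]
    exact hg
  · intro g' hg'
    refine hu g' ?_
    have h1 : T ((g' : G) • s) ∈ S := hg'
    rw [hc g' g'.2] at h1
    exact h1

theorem e4_sf' {J : ℕ} {Γ : Subgroup (SP n K)} {S : Set (TI n → EE K)} (hS : SF (E4G J Γ) S) {M : SP n (EE K)}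
    (hM : E4B J M) : SF (E4G J Γ) (lT M ⁻¹' S) :=
  e4_gen hS (lT_mp hM.us).measurable fun g hg s => e4_commute hM hg.2 s

/-- `M = mS (Uni J w)`. `M uT t = m((1 + w) A) n(Y)`: the coordinates `inl` do not change, and `(lT M t) (inr (a, l))` changes only for `a < J ≤ l` (`cuS_mul`, `H33W.bl_mul_non`). The group `Γ_J = {g ∈ Γ ∩ U : g = mS (Uni J z)}`; `S₁ = {t | t (inr p) ∈ FI (𝔡 (inr p)) for the p = (a, l), a < J ≤ l}` is a
fundamental domain of `Γ_J` on `TI n → EE K` (`H33W.u1_uniq`, as `H33W.u7_uniq`, `H33W.u7_sf`), `S₂` = the conditions for all the other coordinates, `LB = S₁ ∩ S₂`; `lT M` and `Γ_J` preserve `S₂` and commute (`H33W.bl_comm`). Then as in `H33W.u8_key`: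
`∫_{LB} H(lT M t) = ∫_{S₁} (1_{S₂} H)(lT M t) = ∫_{(lT M⁻¹)⁻¹' S₁} 1_{S₂} H = ∫_{S₁} 1_{S₂} H` (`H33W.u2_int_eq` for the group `Γ_J`; `lT_mp`, `ut_mp`). -/
theorem blk_pos {Γ : Subgroup (SP n K)} {𝔡 : TI n → Ideal (𝓞 K)} (hI : HasI Γ 𝔡) (J : ℕ) (w : VM n K) {H : (TI n → EE K) → ℂ} (mH : Measurable H)
    (iH : ∀ g ∈ Γ.subgroupOf (UGS n K), ∀ t, H (g • t) = H t) :
    ∫ t in LB 𝔡, H (lT (mS (Uni J w)) t) = ∫ t in LB 𝔡, H t := by
  set M : SP n (EE K) := mS (Uni J w) with hMdef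
  have hM : E4B J M := e4_mS (isBl_uni J w)
  set S1 : Set (TI n → EE K) := {t | ∀ p : UI n, (p.1.1 : ℕ) < J ∧ J ≤ (p.1.2 : ℕ) → t (Sum.inr p) ∈ FI (𝔡 (Sum.inr p))} with hS1
  set S2 : Set (TI n → EE K) := {t | (∀ p : SI n, t (Sum.inl p) ∈ FI (𝔡 (Sum.inl p))) ∧
    ∀ p : UI n, ¬((p.1.1 : ℕ) < J ∧ J ≤ (p.1.2 : ℕ)) → t (Sum.inr p) ∈ FI (𝔡 (Sum.inr p))} with hS2
  have hsf : SF (E4G J Γ) S1 := e4_sf hI J
  have hLB : LB 𝔡 = S1 ∩ S2 := by
    ext t
    constructor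
    · intro h
      exact ⟨fun p _ => h (Sum.inr p), fun p => h (Sum.inl p), fun p _ => h (Sum.inr p)⟩
    · rintro ⟨h1, h2, h3⟩ p
      rcases p with p | p
      · exact h2 p
      · by_cases hb : (p.1.1 : ℕ) < J ∧ J ≤ (p.1.2 : ℕ)
        · exact h1 p hb
        · exact h3 p hb
  have mS2 : MeasurableSet S2 := by
    have e : S2 = (⋂ p : SI n, {t | t (Sum.inl p) ∈ FI (𝔡 (Sum.inl p))}) ∩
        ⋂ p : UI n, {t | ¬((p.1.1 : ℕ) < J ∧ J ≤ (p.1.2 : ℕ)) → t (Sum.inr p) ∈ FI (𝔡 (Sum.inr p))} := by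
      ext t
      simp only [hS2, Set.mem_setOf_eq, Set.mem_inter_iff, Set.mem_iInter]
    rw [e]
    refine MeasurableSet.inter (MeasurableSet.iInter fun p => ?_) (MeasurableSet.iInter fun p => ?_)
    · exact (measurable_pi_apply (Sum.inl p)) (fi_spec (hI.ne _)).meas
    · by_cases hb : (p.1.1 : ℕ) < J ∧ J ≤ (p.1.2 : ℕ)
      · have e2 : {t : TI n → EE K | ¬((p.1.1 : ℕ) < J ∧ J ≤ (p.1.2 : ℕ)) → t (Sum.inr p) ∈ FI (𝔡 (Sum.inr p))} = Set.univ := by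
          ext t
          exact ⟨fun _ => trivial, fun _ h => absurd hb h⟩
        rw [e2]
        exact MeasurableSet.univ
      · have e2 : {t : TI n → EE K | ¬((p.1.1 : ℕ) < J ∧ J ≤ (p.1.2 : ℕ)) → t (Sum.inr p) ∈ FI (𝔡 (Sum.inr p))} =
            (fun t : TI n → EE K => t (Sum.inr p)) ⁻¹' FI (𝔡 (Sum.inr p)) := by
          ext t
          exact ⟨fun h => h hb, fun h _ => h⟩
        rw [e2]
        exact (measurable_pi_apply (Sum.inr p)) (fi_spec (hI.ne _)).meas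
  have hT2 : ∀ {N : SP n (EE K)}, E4B J N → ∀ t, lT N t ∈ S2 ↔ t ∈ S2 := by
    intro N hN t
    show ((∀ p : SI n, lT N t (Sum.inl p) ∈ FI (𝔡 (Sum.inl p))) ∧
      ∀ p : UI n, ¬((p.1.1 : ℕ) < J ∧ J ≤ (p.1.2 : ℕ)) → lT N t (Sum.inr p) ∈ FI (𝔡 (Sum.inr p))) ↔
      ((∀ p : SI n, t (Sum.inl p) ∈ FI (𝔡 (Sum.inl p))) ∧
      ∀ p : UI n, ¬((p.1.1 : ℕ) < J ∧ J ≤ (p.1.2 : ℕ)) → t (Sum.inr p) ∈ FI (𝔡 (Sum.inr p)))
    refine and_congr (forall_congr' fun p => ?_) (forall_congr' fun p => forall_congr' fun hb => ?_)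
    · rw [e4_inl hN t p]
    · rw [e4_non hN t hb]
  have mF : Measurable (S2.indicator H) := mH.indicator mS2
  have iF : ∀ g ∈ E4G J Γ, ∀ s, S2.indicator H (g • s) = S2.indicator H s := by
    intro g hg s
    have h1 : H (g • s) = H s := iH g (Subgroup.mem_subgroupOf.2 hg.1) s
    have h2 : g • s ∈ S2 ↔ s ∈ S2 := hT2 (e4_emb hg.2) s
    by_cases h3 : s ∈ S2
    · rw [Set.indicator_of_mem h3, Set.indicator_of_mem (h2.2 h3), h1]
    · rw [Set.indicator_of_notMem h3, Set.indicator_of_notMem fun h4 => h3 (h2.1 h4)]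
  have hpre : lT M ⁻¹' (lT M⁻¹ ⁻¹' S1) = S1 := by
    ext t
    show lT M⁻¹ (lT M t) ∈ S1 ↔ t ∈ S1
    rw [e4_comp hM.us, inv_mul_cancel, e4_lone]
  calc ∫ t in LB 𝔡, H (lT M t) = ∫ t in S1, S2.indicator (fun t => H (lT M t)) t := by
        rw [hLB, setIntegral_indicator mS2]
    _ = ∫ t in S1, S2.indicator H (lT M t) := by
        congr 1
        funext t
        by_cases h3 : t ∈ S2
        · rw [Set.indicator_of_mem h3, Set.indicator_of_mem ((hT2 hM t).2 h3)]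
        · rw [Set.indicator_of_notMem h3, Set.indicator_of_notMem fun h4 => h3 ((hT2 hM t).1 h4)]
    _ = ∫ t in lT M ⁻¹' (lT M⁻¹ ⁻¹' S1), S2.indicator H (lT M t) := by rw [hpre]
    _ = ∫ t in lT M⁻¹ ⁻¹' S1, S2.indicator H t :=
        (lT_mp hM.us).setIntegral_preimage_emb (e4E M hM.us).measurableEmbedding _ _
    _ = ∫ t in S1, S2.indicator H t :=
        u2_int_eq (H := UGS n K) ut_mp hsf (e4_sf' hsf (e4_inv hM)) mF iF
    _ = ∫ t in LB 𝔡, H t := by rw [hLB, setIntegral_indicator mS2]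

end

end Pool.Agent.Lib.H67G
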