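import Pool.Agent.Lib.H67G.E3
import Pool.Agent.Lib.H67G.E1

/-!
# E5 (M): the step J = 0 (the Siegel radical)
-/

namespace Pool.Agent.Lib.H67G

open MeasureTheory Matrix NumberField IsDedekindDomain Pool.Agent.Lib.H89N Pool.Agent.Lib.H33W
open scoped ENNReal

noncomputable section

set_option linter.unusedSectionVars false

variable {n : ℕ} {K : Type} [Field K] [NumberField K]

variable [NeZero n] {Γ : Subgroup (SP n K)} {𝔡 : TI n → Ideal (𝓞 K)} {θ₀ : EE K →ₗ[ℝ] ℝ} {θ : Fin n → (EE K →ₗ[ℝ] ℝ)} {Ψ : SP n (EE K) → ℂ}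

/-- The linear form `w ↦ θ₀(∑_{a,b} η_a η_b w_ab - w_11)`, `η` the first row of `bA γ` (the first column of `D⁻¹`). -/
def l0 (θ₀ : EE K →ₗ[ℝ] ℝ) (γ : SP n K) : (SI n → EE K) →ₗ[ℝ] ℝ where
  toFun w := θ₀ (∑ a, ∑ b, mixedEmbedding K (bA γ 0 a) * mixedEmbedding K (bA γ 0 b) * syM w a b - syM w 0 0)
  map_add' w w' := by
    rw [← map_add]
    congr 1
    have e : ∀ a b, syM (w + w') a b = syM w a b + syM w' a b := by
      intro a b
      unfold syM
      rw [Matrix.of_apply, Matrix.of_apply, Matrix.of_apply]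
      by_cases h : a ≤ b
      · rw [dif_pos h, dif_pos h, dif_pos h]
        rfl
      · rw [dif_neg h, dif_neg h, dif_neg h]
        rfl
    simp only [e, mul_add, Finset.sum_add_distrib]
    ring
  map_smul' r w := by
    rw [RingHom.id_apply, ← map_smul]
    congr 1
    have e : ∀ a b, syM (r • w) a b = r • syM w a b := by
      intro a b
      unfold syM
      rw [Matrix.of_apply, Matrix.of_apply]
      by_cases h : a ≤ b
      · rw [dif_pos h, dif_pos h]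
        rfl
      · rw [dif_neg h, dif_neg h]
        rfl
    simp only [e, mul_smul_comm, smul_sub, Finset.smul_sum]

/-- The lattice of the `w` with `w p ∈ 𝔡 (inl p)`. -/
def LY (𝔡 : TI n → Ideal (𝓞 K)) : AddSubgroup (SI n → EE K) where
  carrier := {w | ∀ p, w p ∈ LI (𝔡 (Sum.inl p))}
  add_mem' := fun h h' p => add_mem (h p) (h' p)
  zero_mem' := fun _ => zero_mem _
  neg_mem' := fun h p => neg_mem (h p)

/-- The identity `γ n(Y) = n(A Y Aᵗ) γ` for `C = 0`. -/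
theorem e5_conj {R : Type} [CommRing R] {g : SP n R} (h : bC g = 0) (w : SI n → R) :
    g * nS w = nS (fun p => (bA g * syM w * (bA g)ᵀ) p.1.1 p.1.2) * g := by
  have hs : syM (fun p : SI n => (bA g * syM w * (bA g)ᵀ) p.1.1 p.1.2) = bA g * syM w * (bA g)ᵀ := by
    refine v1_sy' ?_
    rw [Matrix.transpose_mul, Matrix.transpose_mul, Matrix.transpose_transpose, syM_tr, Matrix.mul_assoc]
  obtain ⟨n1, n2, n3, n4⟩ := v1_blocks (g := nS w) (A := 1) (B := syM w) (C := 0) (D := 1) rfl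
  obtain ⟨k1, k2, k3, k4⟩ := v1_blocks (g := nS fun p : SI n => (bA g * syM w * (bA g)ᵀ) p.1.1 p.1.2)
    (A := 1) (B := syM fun p : SI n => (bA g * syM w * (bA g)ᵀ) p.1.1 p.1.2) (C := 0) (D := 1) rfl
  rw [hs] at k2
  obtain ⟨m1, m2, m3, m4⟩ := bl_mul g (nS w)
  obtain ⟨l1, l2, l3, l4⟩ := bl_mul (nS fun p : SI n => (bA g * syM w * (bA g)ᵀ) p.1.1 p.1.2) g
  have r2 := (bl_rel g).2.1
  rw [h, Matrix.transpose_zero, Matrix.zero_mul, sub_zero] at r2
  refine bl_ext ?_ ?_ ?_ ?_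
  · rw [m1, l1, n1, n3, k1, k2, h]
    simp
  · rw [m2, l2, n2, n4, k1, k2, Matrix.mul_one, Matrix.one_mul, Matrix.mul_assoc _ _ (bD g), r2, Matrix.mul_one,
      add_comm]
  · rw [m3, l3, n1, n3, k3, k4, h]
    simp
  · rw [m4, l4, n2, n4, k3, k4, h]
    simp

theorem e5_sd (θ : Fin n → (EE K →ₗ[ℝ] ℝ)) : sd θ (1 : Matrix (Fin n) (Fin n) (EE K)) = 0 := by
  have h := u6_sd_mul θ (isUU_one (n := n) (R := EE K)) isUU_one
  rw [Matrix.one_mul] at h
  linarith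

theorem e5_cu {R : Type} [CommRing R] (w : SI n → R) (p : SI n) : cuS (nS w) (Sum.inl p) = w p := by
  obtain ⟨n1, n2, n3, n4⟩ := v1_blocks (g := nS w) (A := 1) (B := syM w) (C := 0) (D := 1) rfl
  show ((bD (nS w))ᵀ * bB (nS w)) p.1.1 p.1.2 = _
  rw [n4, n2, Matrix.transpose_one, Matrix.one_mul, v1_sy]

theorem e5_cu' {R : Type} [CommRing R] (w : SI n → R) (p : UI n) : cuS (nS w) (Sum.inr p) = 0 := by
  obtain ⟨n1, n2, n3, n4⟩ := v1_blocks (g := nS w) (A := 1) (B := syM w) (C := 0) (D := 1) rfl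
  show bD (nS w) p.1.1 p.1.2 = 0
  rw [n4, Matrix.one_apply_ne p.2.ne]

theorem e5_ch (θ₀ : EE K →ₗ[ℝ] ℝ) (θ : Fin n → (EE K →ₗ[ℝ] ℝ)) (w : SI n → EE K) :
    chS θ₀ θ (cuS (nS w)) = θ₀ (w ⟨(0, 0), le_refl _⟩) := by
  rw [v4_eq θ₀ θ (e3_nS w).us, (e3_nS w).d, e5_sd, add_zero, e5_cu]

theorem e5_sum {R : Type} [CommRing R] (A : Matrix (Fin n) (Fin n) R) (Y : Matrix (Fin n) (Fin n) R) (i j : Fin n) :
    (A * Y * Aᵀ) i j = ∑ a, ∑ b, A i a * A j b * Y a b := by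
  rw [Matrix.mul_apply, Finset.sum_comm]
  refine Finset.sum_congr rfl fun b _ => ?_
  rw [Matrix.mul_apply, Finset.sum_mul]
  refine Finset.sum_congr rfl fun a _ => ?_
  rw [Matrix.transpose_apply]
  ring

theorem e5_l0 (θ₀ : EE K →ₗ[ℝ] ℝ) (γ : SP n K) (w : SI n → EE K) :
    l0 θ₀ γ w = θ₀ (∑ a, ∑ b, mixedEmbedding K (bA γ 0 a) * mixedEmbedding K (bA γ 0 b) * syM w a b) -
      θ₀ (syM w 0 0) := by
  rw [← map_sub]
  rfl

theorem e5_key (θ₀ : EE K →ₗ[ℝ] ℝ) (θ : Fin n → (EE K →ₗ[ℝ] ℝ)) {γ : SP n K} (hγ : bC γ = 0) (w : SI n → EE K) :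
    ∃ u : SP n (EE K), IsUS u ∧ embS γ * nS w = u * embS γ ∧
      chS θ₀ θ (cuS u) = l0 θ₀ γ w + chS θ₀ θ (cuS (nS w)) := by
  obtain ⟨b1, b2, b3, b4⟩ := bl_emb γ
  have hC : bC (embS γ) = 0 := by
    rw [b3, hγ]
    exact Matrix.map_zero _ (map_zero _)
  refine ⟨nS (fun p => (bA (embS γ) * syM w * (bA (embS γ))ᵀ) p.1.1 p.1.2), (e3_nS _).us,
    e5_conj hC w, ?_⟩
  rw [e5_ch, e5_ch, e5_l0, e5_sum, b1]
  have h1 : syM w 0 0 = w ⟨(0, 0), le_refl _⟩ := v1_sy w ⟨(0, 0), le_refl _⟩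
  rw [h1, sub_add_cancel]
  rfl

theorem e5_cont : Continuous (nS : (SI n → EE K) → SP n (EE K)) := by
  refine continuous_induced_rng.2 ?_
  show Continuous fun w : SI n → EE K => fromBlocks 1 (syM w) 0 1
  refine Continuous.matrix_fromBlocks continuous_const ?_ continuous_const continuous_const
  refine continuous_matrix fun a b => ?_
  unfold syM
  by_cases h : a ≤ b
  · simp only [Matrix.of_apply, dif_pos h]
    exact continuous_apply _
  · simp only [Matrix.of_apply, dif_neg h]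
    exact continuous_apply _

theorem e5_D (𝔡 : TI n → Ideal (𝓞 K)) : {w : SI n → EE K | ∀ p, w p ∈ FI (𝔡 (Sum.inl p))} =
    Set.pi Set.univ fun p : SI n => FI (𝔡 (Sum.inl p)) := by
  ext w
  simp

theorem e5_ld {Γ : Subgroup (SP n K)} {𝔡 : TI n → Ideal (𝓞 K)} (h : HasI Γ 𝔡) :
    LD (LY 𝔡) {w : SI n → EE K | ∀ p, w p ∈ FI (𝔡 (Sum.inl p))} := by
  refine ⟨?_, ?_, ?_, ?_⟩
  · rw [e5_D]
    exact MeasurableSet.univ_pi fun p => (fi_spec (h.ne _)).meas
  · rw [e5_D]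
    exact Bornology.IsBounded.pi fun p => (fi_spec (h.ne _)).bdd
  · intro x
    have hex : ∀ p : SI n, ∃! z : LI (𝔡 (Sum.inl p)), (z : EE K) + x p ∈ FI (𝔡 (Sum.inl p)) :=
      fun p => (fi_spec (h.ne _)).fd (x p)
    choose z hz hu using hex
    refine ⟨⟨fun p => (z p : EE K), fun p => (z p).2⟩, fun p => hz p, ?_⟩
    intro w hw
    apply Subtype.ext
    funext p
    exact congrArg Subtype.val (hu p ⟨w.1 p, w.2 p⟩ (hw p))
  · rw [e5_D, volume_pi, Measure.pi_pi]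
    exact pos_iff_ne_zero.2 (Finset.prod_ne_zero_iff.2 fun p _ => (fi_spec (h.ne _)).pos.ne')

theorem e5_ctb (𝔡 : TI n → Ideal (𝓞 K)) : Countable (LY 𝔡) := by
  let f : LY 𝔡 → (∀ p : SI n, LI (𝔡 (Sum.inl p))) := fun w p => ⟨w.1 p, w.2 p⟩
  have hf : Function.Injective f := by
    intro w w' h
    apply Subtype.ext
    funext p
    exact congrArg Subtype.val (congrFun h p)
  exact hf.countable

theorem e5_int (hP : PsD Γ 𝔡 θ₀ θ Ψ) {γ : SP n K} (hγ : γ ∈ GJs 0 Γ) {z : SI n → EE K} (hz : z ∈ LY 𝔡) :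
    ∃ m : ℤ, l0 θ₀ γ z = m := by
  have hz' : ∀ p, ∃ y : K, InI (𝔡 (Sum.inl p)) y ∧ z p = mixedEmbedding K y := hz
  choose y hy e using hz'
  have hez : embS (nS y) = nS z := by
    refine bl_ext ?_ ?_ ?_ ?_
    · rw [e3_A (e3_emb (e3_nS y)), e3_A (e3_nS z)]
    · obtain ⟨-, n2, -, -⟩ := v1_blocks (g := nS y) (A := 1) (B := syM y) (C := 0) (D := 1) rfl
      obtain ⟨-, k2, -, -⟩ := v1_blocks (g := nS z) (A := 1) (B := syM z) (C := 0) (D := 1) rfl
      rw [(bl_emb _).2.1, n2, k2]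
      refine Matrix.ext fun a b => ?_
      rw [Matrix.map_apply]
      unfold syM
      rw [Matrix.of_apply, Matrix.of_apply]
      by_cases h : a ≤ b
      · rw [dif_pos h, dif_pos h, e]
      · rw [dif_neg h, dif_neg h, e]
    · rw [(e3_emb (e3_nS y)).us.1, (e3_nS z).us.1]
    · rw [(e3_emb (e3_nS y)).d, (e3_nS z).d]
  have hyΓ : nS y ∈ Γ := (hP.hasI.iff _ (e3_nS y).us).2 fun p => by
    rcases p with p | p
    · rw [e5_cu]
      exact hy p
    · rw [e5_cu']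
      exact ini_zero
  obtain ⟨u, hu, h1, h2⟩ := e5_key θ₀ θ hγ.2.1 z
  have hg : embS (γ * nS y * γ⁻¹) = u := by
    rw [map_mul, map_mul, hez, h1, map_inv, mul_assoc, mul_inv_cancel, mul_one]
  have hgΓ : γ * nS y * γ⁻¹ ∈ Γ := mul_mem (mul_mem hγ.1 hyΓ) (inv_mem hγ.1)
  have hgU : IsUS (γ * nS y * γ⁻¹) := by
    rw [← isUS_emb, hg]
    exact hu
  obtain ⟨m1, hm1⟩ := hP.int _ hgΓ hgU
  obtain ⟨m2, hm2⟩ := hP.int _ hyΓ (e3_nS y).us
  rw [hg] at hm1
  rw [hez] at hm2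
  refine ⟨m1 - m2, ?_⟩
  push_cast
  linarith

theorem e5_single {R : Type} [CommRing R] (a : Fin n) (c : R) (i j : Fin n) :
    syM (Pi.single (⟨(a, a), le_refl a⟩ : SI n) c) i j = if i = a then (if j = a then c else 0) else 0 := by
  unfold syM
  rw [Matrix.of_apply]
  by_cases h : i ≤ j
  · rw [dif_pos h]
    by_cases h1 : i = a
    · by_cases h2 : j = a
      · subst h1
        subst h2
        rw [Pi.single_eq_same, if_pos rfl, if_pos rfl]
      · rw [if_pos h1, if_neg h2, Pi.single_eq_of_ne]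
        intro h3
        exact h2 (congrArg (fun q : SI n => q.1.2) h3)
    · rw [if_neg h1, Pi.single_eq_of_ne]
      intro h3
      exact h1 (congrArg (fun q : SI n => q.1.1) h3)
  · rw [dif_neg h]
    by_cases h1 : i = a
    · by_cases h2 : j = a
      · subst h1
        subst h2
        exact absurd le_rfl h
      · rw [if_pos h1, if_neg h2, Pi.single_eq_of_ne]
        intro h3
        exact h2 (congrArg (fun q : SI n => q.1.1) h3)
    · rw [if_neg h1, Pi.single_eq_of_ne]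
      intro h3
      exact h1 (congrArg (fun q : SI n => q.1.2) h3)

theorem e5_nd {θ₀ : EE K →ₗ[ℝ] ℝ} (hθ : θ₀ ≠ 0) {y : K} (h : ∀ c : EE K, θ₀ (mixedEmbedding K y * c) = 0) : y = 0 := by
  by_contra hy
  apply hθ
  refine LinearMap.ext fun c => ?_
  have h1 := h (mixedEmbedding K y⁻¹ * c)
  rw [← mul_assoc, ← map_mul, mul_inv_cancel₀ hy, map_one, one_mul] at h1
  exact h1

theorem e5_sq {θ₀ : EE K →ₗ[ℝ] ℝ} (hθ : θ₀ ≠ 0) {γ : SP n K} (h : l0 θ₀ γ = 0) (a : Fin n) :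
    bA γ 0 a * bA γ 0 a = if a = 0 then 1 else 0 := by
  rw [← sub_eq_zero]
  refine e5_nd hθ fun c => ?_
  have h1 : l0 θ₀ γ (Pi.single (⟨(a, a), le_refl a⟩ : SI n) c) = 0 := by
    rw [h]
    rfl
  rw [e5_l0, ← map_sub] at h1
  rw [← h1]
  congr 1
  simp only [e5_single]
  rw [Finset.sum_eq_single a, Finset.sum_eq_single a]
  · rw [if_pos rfl, if_pos rfl, map_sub, map_mul]
    by_cases h2 : a = 0
    · rw [if_pos h2, if_pos h2.symm, if_pos h2.symm, map_one]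
      ring
    · rw [if_neg h2, if_neg (fun h3 : (0 : Fin n) = a => h2 h3.symm), map_zero]
      ring
  · intro b _ hb
    rw [if_pos rfl, if_neg hb, mul_zero]
  · intro h2
    exact absurd (Finset.mem_univ _) h2
  · intro b _ hb
    refine Finset.sum_eq_zero fun j _ => ?_
    rw [if_neg hb, mul_zero]
  · intro h2
    exact absurd (Finset.mem_univ _) h2

theorem e5_iff {θ₀ : EE K →ₗ[ℝ] ℝ} (hθ : θ₀ ≠ 0) (hne : ∀ γ ∈ Γ, bD γ 0 0 ≠ -1) {γ : SP n K} (hγ : γ ∈ GJs 0 Γ) :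
    l0 θ₀ γ = 0 ↔ γ ∈ GJs 1 Γ := by
  obtain ⟨i1, i2⟩ := inv_of_C hγ.2.1
  constructor
  · intro h
    have h0 : ∀ a : Fin n, a ≠ 0 → bA γ 0 a = 0 := by
      intro a ha
      have h1 := e5_sq hθ h a
      rw [if_neg ha] at h1
      exact mul_self_eq_zero.1 h1
    have h1 : bA γ 0 0 = 1 := by
      have h2 := e5_sq hθ h 0
      rw [if_pos rfl] at h2
      rcases mul_self_eq_one_iff.1 h2 with h3 | h3
      · exact h3
      · refine absurd ?_ (hne γ⁻¹ (inv_mem hγ.1))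
        rw [(bl_inv γ).2.2.2, Matrix.transpose_apply]
        exact h3
    refine ⟨hγ.1, hγ.2.1, fun a l hl _ => ?_⟩
    have hl0 : l = 0 := Fin.ext (by
      rw [Fin.val_zero]
      omega)
    subst hl0
    rw [← i2, Matrix.mul_apply, Finset.sum_eq_single 0]
    · rw [Matrix.transpose_apply, h1, mul_one]
    · intro b _ hb
      rw [Matrix.transpose_apply, h0 b hb, mul_zero]
    · intro h2
      exact absurd (Finset.mem_univ _) h2
  · intro h
    have h2 : ColJ 1 (bA γ)ᵀ := colJ_inv h.2.2 i1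
    have h3 : ∀ a, bA γ 0 a = (1 : Matrix (Fin n) (Fin n) K) a 0 := fun a =>
      h2 a 0 (by rw [Fin.val_zero]; omega) (Fin.zero_le a)
    refine LinearMap.ext fun w => ?_
    rw [e5_l0, ← map_sub, LinearMap.zero_apply]
    have h4 : ∑ a, ∑ b, mixedEmbedding K (bA γ 0 a) * mixedEmbedding K (bA γ 0 b) * syM w a b = syM w 0 0 := by
      rw [Finset.sum_eq_single 0, Finset.sum_eq_single 0]
      · rw [h3, Matrix.one_apply_eq, map_one, one_mul, one_mul]
      · intro b _ hb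
        rw [h3 b, Matrix.one_apply_ne hb, map_zero, mul_zero, zero_mul]
      · intro h4
        exact absurd (Finset.mem_univ _) h4
      · intro b _ hb
        refine Finset.sum_eq_zero fun j _ => ?_
        rw [h3 b, Matrix.one_apply_ne hb, map_zero, zero_mul, zero_mul]
      · intro h4
        exact absurd (Finset.mem_univ _) h4
    rw [h4, sub_self, map_zero]

/-- PROOF. `LD`: product of the `fi_spec` (compare `H33W.ldv`). `us`, `cont`: clear. `blk`: `blk_zero`. `conj`: `γ = [[A, B], [0, D]]`, `D⁻¹ = Aᵗ`: `γ n(Y) γ⁻¹ = n(D⁻ᵗ Y D⁻¹) = n(A Y Aᵗ)` (block computation: `γ n(Y) = [[A, A Y + B], [0, D]]`, `n(A Y Aᵗ) γ = [[A, B + A Y Aᵗ D], [0, D]]`, `Aᵗ D = 1`), and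
`(A Y Aᵗ)_11 = ∑ A_1a A_1b Y_ab`. `int`: for `z ∈ LY` let `z p = mixedEmbedding (y p)`: `nS y ∈ Γ` (`hasI.iff`), so `g = γ (nS y) γ⁻¹ ∈ Γ` is in `U` (`isUS_emb` and `conj`), so `chS (cuS (embS g))` and `chS (cuS (embS (nS y)))` are integers (`PsD.int`), and `ℓ` is the difference.
`iff`: if `ℓ_γ = 0`: test with `w = c` times the unit vectors (`θ₀ ≠ 0`: `θ₀(c z) = 0` for all `c ∈ EE K` implies `z = 0`; for `z = mixedEmbedding y`, `y ≠ 0` is invertible): `η_0² = 1`, `2 η_0 η_b = 0` and `η_b² = 0` for `b ≠ 0`, so `η = ± e_0`; the sign is `+` by `hne`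
(`bA γ 0 0 = bD γ⁻¹ 0 0 ≠ -1`, `bl_inv`). So the first column of `D⁻¹` is `e_0` and so is the first column of `D`: `ColJ 1`. Conversely `ColJ 1 D` gives `η = e_0` (`colJ_inv`). -/
theorem stp_zero (hP : PsD Γ 𝔡 θ₀ θ Ψ) (hθ : θ₀ ≠ 0) (hne : ∀ γ ∈ Γ, bD γ 0 0 ≠ -1) :
    Stp Γ 𝔡 θ₀ θ (LY 𝔡) {w | ∀ p, w p ∈ FI (𝔡 (Sum.inl p))} (GJs 0 Γ) (GJs 1 Γ) nS (l0 θ₀) where
  ld := e5_ld hP.hasI
  ctb := e5_ctb 𝔡
  le1 := gjs_u Γ
  le2 := gjs_mono (Nat.zero_le 1) Γ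
  le3 := fun _ h => h.1
  us := fun w => (e3_nS w).us
  cont := e5_cont
  blk := fun w _ mH iH _ => blk_zero hP.hasI w mH iH
  conj := fun _ hγ w => e5_key θ₀ θ hγ.2.1 w
  int := fun _ hγ _ hz => e5_int hP hγ hz
  iff := fun _ hγ => e5_iff hθ hne hγ

end

end Pool.Agent.Lib.H67G
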