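import Pool.Agent.Lib.H67G.E4
import Pool.Agent.Lib.H67G.E1

/-!
# E6 (M): the steps J >= 1
-/

namespace Pool.Agent.Lib.H67G

open MeasureTheory Matrix NumberField IsDedekindDomain Pool.Agent.Lib.H89N Pool.Agent.Lib.H33W
open scoped ENNReal

noncomputable section

set_option linter.unusedSectionVars false

variable {n : ℕ} {K : Type} [Field K] [NumberField K]

variable [NeZero n] {Γ : Subgroup (SP n K)} {𝔡 : TI n → Ideal (𝓞 K)} {θ₀ : EE K →ₗ[ℝ] ℝ} {θ : Fin n → (EE K →ₗ[ℝ] ℝ)} {Ψ : SP n (EE K) → ℂ}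

/-- The linear form `w ↦ θ_(J-1)(∑_{l ≥ J} w_(J-1,l) (η_l - δ_(l,J)))`, `η_l = (D⁻¹)_(l,J) = (bA γ)_(J,l)`, for `J ≥ 1`; here `j = J - 1`. -/
def lj (θ : Fin n → (EE K →ₗ[ℝ] ℝ)) (j : ℕ) (hj : j + 1 < n) (γ : SP n K) : VM n K →ₗ[ℝ] ℝ where
  toFun w := θ ⟨j, by omega⟩ (∑ l : Fin n, if j + 1 ≤ (l : ℕ) then
    w ⟨j, by omega⟩ l * (mixedEmbedding K (bA γ ⟨j + 1, hj⟩ l) - if (l : ℕ) = j + 1 then 1 else 0) else 0)
  map_add' w w' := by
    rw [← map_add, ← Finset.sum_add_distrib]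
    congr 1
    refine Finset.sum_congr rfl fun l _ => ?_
    by_cases h : j + 1 ≤ (l : ℕ)
    · rw [if_pos h, if_pos h, if_pos h]
      change (w _ l + w' _ l) * _ = _
      ring
    · rw [if_neg h, if_neg h, if_neg h, add_zero]
  map_smul' r w := by
    rw [RingHom.id_apply, ← map_smul, Finset.smul_sum]
    congr 1
    refine Finset.sum_congr rfl fun l _ => ?_
    by_cases h : j + 1 ≤ (l : ℕ)
    · rw [if_pos h, if_pos h]
      change (r • w _ l) * _ = _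
      rw [smul_mul_assoc]
    · rw [if_neg h, if_neg h, smul_zero]

/-- The block `a < j ≤ b`. -/
def e6_blk {R : Type} [CommRing R] (j : ℕ) (w : Fin n → Fin n → R) : Matrix (Fin n) (Fin n) R :=
  Matrix.of fun a b => if (a : ℕ) < j ∧ j ≤ (b : ℕ) then w a b else 0

theorem e6_unib {R : Type} [CommRing R] (j : ℕ) (w : Fin n → Fin n → R) :
    (Uni j w : SpecialLinearGroup (Fin n) R).1 = 1 + e6_blk j w := by
  refine Matrix.ext fun a b => ?_
  show (if a = b then 1 else if (a : ℕ) < j ∧ j ≤ (b : ℕ) then w a b else 0) =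
    (1 : Matrix (Fin n) (Fin n) R) a b + if (a : ℕ) < j ∧ j ≤ (b : ℕ) then w a b else 0
  rw [Matrix.one_apply]
  by_cases h : a = b
  · subst h
    have h1 : ¬((a : ℕ) < j ∧ j ≤ (a : ℕ)) := by omega
    rw [if_pos rfl, if_pos rfl, if_neg h1, add_zero]
  · rw [if_neg h, if_neg h, zero_add]

theorem e6_blk_mul {R : Type} [CommRing R] {i j : ℕ} (hij : i ≤ j) (v w : Fin n → Fin n → R) :
    e6_blk j v * e6_blk i w = 0 := by
  refine Matrix.ext fun a b => ?_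
  rw [Matrix.mul_apply]
  refine Finset.sum_eq_zero fun m _ => ?_
  show (if (a : ℕ) < j ∧ j ≤ (m : ℕ) then v a m else 0) * (if (m : ℕ) < i ∧ i ≤ (b : ℕ) then w m b else 0) = 0
  by_cases h : (m : ℕ) < i
  · rw [if_neg (by omega), zero_mul]
  · rw [if_neg (c := (m : ℕ) < i ∧ i ≤ (b : ℕ)) (by omega), mul_zero]

/-- PROOF. Entries: the product of two such matrices: `w_{am} w'_{ml}` with `a < j ≤ m` and `m < j ≤ l` never occurs. -/
theorem e6_uni_add {R : Type} [CommRing R] (j : ℕ) (v w : Fin n → Fin n → R) :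
    (Uni j (v + w) : SpecialLinearGroup (Fin n) R) = Uni j v * Uni j w := by
  apply Subtype.ext
  show (Uni j (v + w) : SpecialLinearGroup (Fin n) R).1 =
    (Uni j v : SpecialLinearGroup (Fin n) R).1 * (Uni j w : SpecialLinearGroup (Fin n) R).1
  rw [e6_unib, e6_unib, e6_unib]
  have h1 : e6_blk j (v + w) = e6_blk j v + e6_blk j w := by
    refine Matrix.ext fun a b => ?_
    show (if (a : ℕ) < j ∧ j ≤ (b : ℕ) then (v + w) a b else 0) =
      (if (a : ℕ) < j ∧ j ≤ (b : ℕ) then v a b else 0) + if (a : ℕ) < j ∧ j ≤ (b : ℕ) then w a b else 0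
    split_ifs
    · rfl
    · rw [add_zero]
  rw [mul_add, add_mul, one_mul, add_mul, e6_blk_mul le_rfl, h1, mul_one, one_mul]
  abel

theorem e6_uni_zero {R : Type} [CommRing R] (j : ℕ) :
    (Uni j (0 : Fin n → Fin n → R) : SpecialLinearGroup (Fin n) R) = 1 := by
  apply Subtype.ext
  rw [e6_unib]
  have h1 : e6_blk j (0 : Fin n → Fin n → R) = 0 := by
    refine Matrix.ext fun a b => ?_
    show (if (a : ℕ) < j ∧ j ≤ (b : ℕ) then (0 : R) else 0) = 0
    split_ifs <;> rfl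
  rw [h1, add_zero]
  rfl

theorem e6_uni_neg {R : Type} [CommRing R] (j : ℕ) (v : Fin n → Fin n → R) :
    (Uni j (-v) : SpecialLinearGroup (Fin n) R) = (Uni j v)⁻¹ := by
  rw [eq_inv_iff_mul_eq_one, ← e6_uni_add, neg_add_cancel, e6_uni_zero]

theorem e6_emb_uni (j : ℕ) (z : Fin n → Fin n → K) :
    emb (Uni j z) = (Uni j (fun a b => mixedEmbedding K (z a b)) : GG n K) := by
  apply Subtype.ext
  refine Matrix.ext fun a b => ?_
  show mixedEmbedding K (if a = b then 1 else if (a : ℕ) < j ∧ j ≤ (b : ℕ) then z a b else 0) =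
    if a = b then 1 else if (a : ℕ) < j ∧ j ≤ (b : ℕ) then mixedEmbedding K (z a b) else 0
  split_ifs <;> simp

/-- PROOF. The topology of `SL_n` is the subspace topology of matrices (`Continuous.subtype_mk`, `continuous_matrix`/`continuous_pi`), every entry is `1`, `0` or a coordinate. -/
theorem e6_uni_cont (j : ℕ) : Continuous fun w : VM n K => (Uni j w : GG n K) := by
  refine continuous_induced_rng.2 (continuous_matrix fun a b => ?_)
  show Continuous fun w : VM n K => if a = b then (1 : EE K) else if (a : ℕ) < j ∧ j ≤ (b : ℕ) then w a b else 0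
  split_ifs
  · exact continuous_const
  · exact (continuous_apply b).comp (continuous_apply a)
  · exact continuous_const

theorem e6_bl {R : Type} [CommRing R] (M : SpecialLinearGroup (Fin n) R) :
    bA (mS M) = ((M⁻¹).1)ᵀ ∧ bB (mS M) = 0 ∧ bC (mS M) = 0 ∧ bD (mS M) = M.1 :=
  v1_blocks rfl

theorem e6_us {R : Type} [CommRing R] (J : ℕ) (w : Fin n → Fin n → R) : IsUS (mS (Uni J w)) := by
  obtain ⟨-, -, h3, h4⟩ := e6_bl (Uni J w)
  refine ⟨h3, ?_⟩
  rw [h4]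
  exact (isBl_uni J w).uu

theorem e6_cuS_inl {R : Type} [CommRing R] (M : SpecialLinearGroup (Fin n) R) (p : SI n) :
    cuS (mS M) (Sum.inl p) = 0 := by
  obtain ⟨-, h2, -, -⟩ := e6_bl M
  show ((bD (mS M))ᵀ * bB (mS M)) p.1.1 p.1.2 = 0
  rw [h2, Matrix.mul_zero]
  rfl

theorem e6_cont (J : ℕ) : Continuous fun w : VM n K => (mS (Uni J w) : SP n (EE K)) := by
  have h1 : Continuous fun w : VM n K => (Uni J w : GG n K).1 :=
    continuous_subtype_val.comp (e6_uni_cont J)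
  have h2 : Continuous fun w : VM n K => ((Uni J w : GG n K)⁻¹).1 := by
    have e : (fun w : VM n K => ((Uni J w : GG n K)⁻¹).1) = fun w : VM n K => (Uni J (-w) : GG n K).1 := by
      funext w
      rw [e6_uni_neg]
    rw [e]
    exact h1.comp continuous_neg
  refine continuous_induced_rng.2 ?_
  show Continuous fun w : VM n K => Matrix.fromBlocks (((Uni J w : GG n K)⁻¹).1)ᵀ 0 0 (Uni J w : GG n K).1
  exact Continuous.matrix_fromBlocks h2.matrix_transpose continuous_const continuous_const h1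

theorem e6_emb (J : ℕ) (y : Fin n → Fin n → K) :
    embS (mS (Uni J y) : SP n K) = (mS (Uni J (fun a b => mixedEmbedding K (y a b))) : SP n (EE K)) := by
  obtain ⟨a1, a2, a3, a4⟩ := bl_emb (mS (Uni J y) : SP n K)
  obtain ⟨b1, b2, b3, b4⟩ := e6_bl (Uni J y : SLK n K)
  obtain ⟨c1, c2, c3, c4⟩ := e6_bl (Uni J (fun a b => mixedEmbedding K (y a b)) : GG n K)
  have h0 : (0 : Matrix (Fin n) (Fin n) K).map (mixedEmbedding K) = 0 :=
    Matrix.map_zero _ (map_zero _)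
  have hu : ∀ y : Fin n → Fin n → K, (Uni J y : SLK n K).1.map (mixedEmbedding K) =
      (Uni J (fun a b => mixedEmbedding K (y a b)) : GG n K).1 := by
    intro y
    rw [← e6_emb_uni]
    rfl
  refine bl_ext ?_ ?_ ?_ ?_
  · rw [a1, b1, c1, ← e6_uni_neg, ← e6_uni_neg, Matrix.transpose_map, hu]
    congr 2
    congr 1
    funext a b
    simp
  · rw [a2, b2, c2, h0]
  · rw [a3, b3, c3, h0]
  · rw [a4, b4, c4, hu]

theorem e6_col [NeZero n] {R : Type} [CommRing R] {M : Matrix (Fin n) (Fin n) R} (h1 : M 0 0 = 1)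
    (h0 : ∀ c : Fin n, c ≠ 0 → M c 0 = 0) (Y : Matrix (Fin n) (Fin n) R) :
    (Mᵀ * Y * M) 0 0 = Y 0 0 := by
  rw [Matrix.mul_apply, Finset.sum_eq_single 0]
  · rw [h1, mul_one, Matrix.mul_apply, Finset.sum_eq_single 0]
    · rw [Matrix.transpose_apply, h1, one_mul]
    · intro c _ hc
      rw [Matrix.transpose_apply, h0 c hc, zero_mul]
    · intro h
      exact absurd (Finset.mem_univ _) h
  · intro c _ hc
    rw [h0 c hc, mul_zero]
  · intro h
    exact absurd (Finset.mem_univ _) h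

/-- The blocks of the conjugate. -/
theorem e6_conj_bl {R : Type} [CommRing R] {g : SP n R} (hg : bC g = 0) (M : SpecialLinearGroup (Fin n) R) :
    bC (g * mS M * g⁻¹) = 0 ∧ bD (g * mS M * g⁻¹) = bD g * M.1 * (bA g)ᵀ ∧
    (bD (g * mS M * g⁻¹))ᵀ * bB (g * mS M * g⁻¹) =
      bA g * (M.1ᵀ * ((bD g)ᵀ * bB g) * M.1 - (bD g)ᵀ * bB g) * (bA g)ᵀ := by
  obtain ⟨a1, a2, a3, a4⟩ := e6_bl M
  obtain ⟨i1, i2, i3, i4⟩ := bl_inv g
  obtain ⟨m1, m2, m3, m4⟩ := bl_mul g (mS M)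
  obtain ⟨k1, k2, k3, k4⟩ := bl_mul (g * mS M) g⁻¹
  obtain ⟨r1, r2, r3, -, r5, -, r7⟩ := bl_rel g
  rw [hg] at r1 r2 r3 m3 m4 i3
  rw [Matrix.transpose_zero, Matrix.mul_zero, sub_zero] at r1
  rw [Matrix.transpose_zero, Matrix.zero_mul, sub_zero] at r2
  rw [Matrix.zero_mul, sub_zero] at r3
  rw [a3, Matrix.zero_mul, Matrix.mul_zero, add_zero] at m3
  rw [a2, a4, Matrix.zero_mul, zero_add] at m4
  rw [a1, a3, Matrix.mul_zero, add_zero] at m1
  rw [a2, a4, Matrix.mul_zero, zero_add] at m2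
  rw [Matrix.transpose_zero, neg_zero] at i3
  have hM : M.1ᵀ * ((M⁻¹).1)ᵀ = 1 := by
    rw [← Matrix.transpose_mul]
    have : (M⁻¹).1 * M.1 = 1 := by
      rw [← Matrix.SpecialLinearGroup.coe_mul, inv_mul_cancel]
      rfl
    rw [this, Matrix.transpose_one]
  have hDA : (bD g)ᵀ * bA g = 1 := by
    have h := congrArg Matrix.transpose r2
    rw [Matrix.transpose_mul, Matrix.transpose_transpose, Matrix.transpose_one] at h
    exact h
  have hD : bD (g * mS M * g⁻¹) = bD g * M.1 * (bA g)ᵀ := by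
    rw [k4, m3, m4, i4, Matrix.zero_mul, zero_add]
  refine ⟨?_, hD, ?_⟩
  · rw [k3, m3, i3, Matrix.zero_mul, Matrix.mul_zero, add_zero]
  · rw [hD, k2, m1, m2, i2, i4, Matrix.transpose_mul, Matrix.transpose_mul, Matrix.transpose_transpose,
      Matrix.mul_add, Matrix.mul_neg]
    have f1 : bA g * (M.1ᵀ * (bD g)ᵀ) * (bA g * ((M⁻¹).1)ᵀ * -(bB g)ᵀ) = -(bA g * (bB g)ᵀ) := by
      rw [Matrix.mul_neg, Matrix.mul_neg]
      congr 1
      calc bA g * (M.1ᵀ * (bD g)ᵀ) * (bA g * ((M⁻¹).1)ᵀ * (bB g)ᵀ)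
          = bA g * (M.1ᵀ * ((bD g)ᵀ * bA g) * ((M⁻¹).1)ᵀ) * (bB g)ᵀ := by simp only [Matrix.mul_assoc]
        _ = bA g * (bB g)ᵀ := by rw [hDA, Matrix.mul_one, hM, Matrix.mul_one]
    have f2 : bA g * (bB g)ᵀ = bA g * ((bD g)ᵀ * bB g) * (bA g)ᵀ := by
      rw [← r7, Matrix.transpose_mul, Matrix.transpose_transpose]
      calc bB g * (bA g)ᵀ = (bA g * (bD g)ᵀ) * bB g * (bA g)ᵀ := by rw [r1, Matrix.one_mul]
        _ = _ := by simp only [Matrix.mul_assoc]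
    have f1' : bA g * (M.1ᵀ * (bD g)ᵀ) * -(bA g * ((M⁻¹).1)ᵀ * (bB g)ᵀ) = -(bA g * (bB g)ᵀ) := by
      rw [← f1, Matrix.mul_neg, Matrix.mul_neg, Matrix.mul_neg]
    rw [f1', f2, Matrix.mul_sub, Matrix.sub_mul]
    simp only [Matrix.mul_assoc]
    abel

/-- The first `J` columns are unipotent upper triangular. -/
def e6_Col {R : Type} [CommRing R] (J : ℕ) (D : Matrix (Fin n) (Fin n) R) : Prop :=
  ∀ a l : Fin n, (l : ℕ) < J → l ≤ a → D a l = (1 : Matrix (Fin n) (Fin n) R) a l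

theorem e6_Dblk {R : Type} [CommRing R] {J : ℕ} {D : Matrix (Fin n) (Fin n) R} (hD : e6_Col J D)
    (w : Fin n → Fin n → R) {a : Fin n} (ha : J ≤ (a : ℕ)) (q : Fin n) : (D * e6_blk J w) a q = 0 := by
  rw [Matrix.mul_apply]
  refine Finset.sum_eq_zero fun m _ => ?_
  show D a m * (if (m : ℕ) < J ∧ J ≤ (q : ℕ) then w m q else 0) = 0
  by_cases h : (m : ℕ) < J
  · have hlt : m < a := by
      show (m : ℕ) < a
      omega
    rw [hD a m h hlt.le, Matrix.one_apply_ne hlt.ne', zero_mul]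
  · rw [if_neg (fun h' => h h'.1), mul_zero]

theorem e6_blkE {R : Type} [CommRing R] {J : ℕ} {D E : Matrix (Fin n) (Fin n) R} (hE : e6_Col J E)
    (w : Fin n → Fin n → R) (a : Fin n) {l : Fin n} (hl : (l : ℕ) < J) : (D * e6_blk J w * E) a l = 0 := by
  rw [Matrix.mul_apply]
  refine Finset.sum_eq_zero fun q _ => ?_
  by_cases h : (q : ℕ) < J
  · have : (D * e6_blk J w) a q = 0 := by
      rw [Matrix.mul_apply]
      refine Finset.sum_eq_zero fun m _ => ?_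
      show D a m * (if (m : ℕ) < J ∧ J ≤ (q : ℕ) then w m q else 0) = 0
      rw [if_neg (by omega), mul_zero]
    rw [this, zero_mul]
  · have hlt : l < q := by
      show (l : ℕ) < q
      omega
    rw [hE q l hl hlt.le, Matrix.one_apply_ne hlt.ne', mul_zero]

theorem e6_non {R : Type} [CommRing R] {J : ℕ} {D E : Matrix (Fin n) (Fin n) R} (hD : e6_Col J D)
    (hE : e6_Col J E) (w : Fin n → Fin n → R) {a l : Fin n} (h : ¬((a : ℕ) < J ∧ J ≤ (l : ℕ))) :
    (D * e6_blk J w * E) a l = 0 := by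
  by_cases hl : (l : ℕ) < J
  · exact e6_blkE hE w a hl
  · have ha : J ≤ (a : ℕ) := by omega
    rw [Matrix.mul_apply]
    refine Finset.sum_eq_zero fun q _ => ?_
    rw [e6_Dblk hD w ha q, zero_mul]

theorem e6_DME {R : Type} [CommRing R] {J : ℕ} {D E : Matrix (Fin n) (Fin n) R} (hDE : D * E = 1)
    (w : Fin n → Fin n → R) : D * (Uni J w : SpecialLinearGroup (Fin n) R).1 * E = 1 + D * e6_blk J w * E := by
  rw [e6_unib, Matrix.mul_add, Matrix.mul_one, Matrix.add_mul, hDE]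

theorem e6_uu {R : Type} [CommRing R] {J : ℕ} {D E : Matrix (Fin n) (Fin n) R} (hD : e6_Col J D)
    (hE : e6_Col J E) (hDE : D * E = 1) (w : Fin n → Fin n → R) :
    IsUU (D * (Uni J w : SpecialLinearGroup (Fin n) R).1 * E) := by
  intro a l hl
  rw [e6_DME hDE, Matrix.add_apply, e6_non hD hE w, add_zero]
  rintro ⟨h1, h2⟩
  have h3 : (l : ℕ) ≤ a := hl
  omega

theorem e6_row {R : Type} [CommRing R] {j : ℕ} (hj : j < n) {D E : Matrix (Fin n) (Fin n) R}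
    (hD : e6_Col (j + 1) D) (w : Fin n → Fin n → R) (l : Fin n) :
    (D * e6_blk (j + 1) w * E) ⟨j, hj⟩ l = ∑ q : Fin n, if j + 1 ≤ (q : ℕ) then w ⟨j, hj⟩ q * E q l else 0 := by
  rw [Matrix.mul_apply]
  refine Finset.sum_congr rfl fun q _ => ?_
  have h1 : (D * e6_blk (j + 1) w) ⟨j, hj⟩ q = if j + 1 ≤ (q : ℕ) then w ⟨j, hj⟩ q else 0 := by
    rw [Matrix.mul_apply, Finset.sum_eq_single (⟨j, hj⟩ : Fin n)]
    · have h2 : D ⟨j, hj⟩ ⟨j, hj⟩ = 1 := by
        rw [hD ⟨j, hj⟩ ⟨j, hj⟩ (Nat.lt_succ_self j) (le_refl _), Matrix.one_apply_eq]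
      rw [h2, one_mul]
      show (if j < j + 1 ∧ j + 1 ≤ (q : ℕ) then w ⟨j, hj⟩ q else 0) = _
      by_cases h : j + 1 ≤ (q : ℕ)
      · rw [if_pos ⟨Nat.lt_succ_self j, h⟩, if_pos h]
      · rw [if_neg (fun h' => h h'.2), if_neg h]
    · intro m _ hm
      show D ⟨j, hj⟩ m * (if (m : ℕ) < j + 1 ∧ j + 1 ≤ (q : ℕ) then w m q else 0) = 0
      by_cases h : (m : ℕ) < j + 1
      · have hle : m ≤ (⟨j, hj⟩ : Fin n) := by
          show (m : ℕ) ≤ j
          omega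
        rw [hD _ m h hle, Matrix.one_apply_ne (Ne.symm hm), zero_mul]
      · rw [if_neg (fun h' => h h'.1), mul_zero]
    · intro h
      exact absurd (Finset.mem_univ _) h
  rw [h1]
  by_cases h : j + 1 ≤ (q : ℕ)
  · rw [if_pos h, if_pos h]
  · rw [if_neg h, if_neg h, zero_mul]

theorem e6_sd {θ : Fin n → (EE K →ₗ[ℝ] ℝ)} {j : ℕ} (hj : j + 1 < n) {N : Matrix (Fin n) (Fin n) (EE K)}
    (h : ∀ (i : Fin n) (hi : (i : ℕ) + 1 < n), (i : ℕ) ≠ j → N i ⟨i + 1, hi⟩ = 0) :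
    sd θ N = θ ⟨j, by omega⟩ (N ⟨j, by omega⟩ ⟨j + 1, hj⟩) := by
  unfold sd
  rw [Finset.sum_eq_single (⟨j, by omega⟩ : Fin n)]
  · have h1 : ((⟨j, by omega⟩ : Fin n) : ℕ) + 1 < n := hj
    rw [dif_pos h1]
  · intro i _ hi
    by_cases h1 : (i : ℕ) + 1 < n
    · rw [dif_pos h1, h i h1, map_zero]
      intro h2
      exact hi (Fin.ext h2)
    · rw [dif_neg h1]
  · intro h1
    exact absurd (Finset.mem_univ _) h1

theorem e6_col_emb {J : ℕ} {D : Matrix (Fin n) (Fin n) K} (hD : ColJ J D) :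
    e6_Col J (D.map (mixedEmbedding K)) := by
  intro a l hl hla
  show mixedEmbedding K (D a l) = _
  rw [hD a l hl hla]
  rcases eq_or_ne a l with h1 | h1
  · subst h1
    rw [Matrix.one_apply_eq, Matrix.one_apply_eq, map_one]
  · rw [Matrix.one_apply_ne h1, Matrix.one_apply_ne h1, map_zero]

theorem e6_conj {j : ℕ} (hj : j + 1 < n) {γ : SP n K} (hC : bC γ = 0) (hD : ColJ (j + 1) (bD γ)) (w : VM n K) :
    IsUS (embS γ * mS (Uni (j + 1) w) * (embS γ)⁻¹) ∧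
      chS θ₀ θ (cuS (embS γ * mS (Uni (j + 1) w) * (embS γ)⁻¹)) =
        lj θ j hj γ w + chS θ₀ θ (cuS (mS (Uni (j + 1) w))) := by
  obtain ⟨a1, a2, a3, a4⟩ := bl_emb γ
  obtain ⟨b1, b2, b3, b4⟩ := e6_bl (Uni (j + 1) w : GG n K)
  have hC' : bC (embS γ) = 0 := by
    rw [a3, hC]
    exact Matrix.map_zero _ (map_zero _)
  have hinv := inv_of_C hC
  have hA : ColJ (j + 1) (bA γ)ᵀ := colJ_inv hD hinv.1
  have hD' : e6_Col (j + 1) (bD (embS γ)) := by
    rw [a4]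
    exact e6_col_emb hD
  have hA' : e6_Col (j + 1) (bA (embS γ))ᵀ := by
    rw [a1]
    exact e6_col_emb hA
  have hDA : bD (embS γ) * (bA (embS γ))ᵀ = 1 := by
    obtain ⟨-, -, r3, -⟩ := bl_rel (embS γ)
    rw [hC', Matrix.zero_mul, sub_zero] at r3
    exact r3
  obtain ⟨c1, c2, c3⟩ := e6_conj_bl hC' (Uni (j + 1) w : GG n K)
  have hU : IsUS (embS γ * mS (Uni (j + 1) w) * (embS γ)⁻¹) := by
    refine ⟨c1, ?_⟩
    rw [c2]
    exact e6_uu hD' hA' hDA w
  refine ⟨hU, ?_⟩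
  have hcol : ∀ Y : Matrix (Fin n) (Fin n) (EE K), (bA (embS γ) * Y * (bA (embS γ))ᵀ) 0 0 = Y 0 0 := by
    intro Y
    have h := e6_col (M := (bA (embS γ))ᵀ) ?_ ?_ Y
    · rw [Matrix.transpose_transpose] at h
      exact h
    · rw [hA' 0 0 (by simp) le_rfl, Matrix.one_apply_eq]
    · intro c hc
      rw [hA' c 0 (by simp) (Fin.zero_le c), Matrix.one_apply_ne hc]
  have hY : cuS (embS γ * mS (Uni (j + 1) w) * (embS γ)⁻¹) (Sum.inl ⟨(0, 0), le_refl _⟩) = 0 := by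
    show ((bD (embS γ * mS (Uni (j + 1) w) * (embS γ)⁻¹))ᵀ * bB (embS γ * mS (Uni (j + 1) w) * (embS γ)⁻¹)) 0 0 = 0
    rw [c3, hcol, Matrix.sub_apply, v4_col (isBl_uni (j + 1) w).uu, sub_self]
  rw [v4_eq θ₀ θ hU, v4_eq θ₀ θ (e6_us (j + 1) w), hY, e6_cuS_inl, map_zero, zero_add, zero_add, c2, b4]
  have e1 : sd θ (bD (embS γ) * (Uni (j + 1) w : GG n K).1 * (bA (embS γ))ᵀ) =
      θ ⟨j, by omega⟩ ((bD (embS γ) * (Uni (j + 1) w : GG n K).1 * (bA (embS γ))ᵀ) ⟨j, by omega⟩ ⟨j + 1, hj⟩) := by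
    apply e6_sd hj
    intro i hi hij
    have hne : i ≠ (⟨(i : ℕ) + 1, hi⟩ : Fin n) := by
      intro h
      have := congrArg Fin.val h
      simp at this
    rw [e6_DME hDA, Matrix.add_apply, Matrix.one_apply_ne hne, zero_add]
    apply e6_non hD' hA' w
    rintro ⟨h1, h2⟩
    have h3 : j + 1 ≤ (i : ℕ) + 1 := h2
    omega
  have e2 : sd θ (Uni (j + 1) w : GG n K).1 =
      θ ⟨j, by omega⟩ ((Uni (j + 1) w : GG n K).1 ⟨j, by omega⟩ ⟨j + 1, hj⟩) := by
    apply e6_sd hj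
    intro i hi hij
    have hne : i ≠ (⟨(i : ℕ) + 1, hi⟩ : Fin n) := by
      intro h
      have := congrArg Fin.val h
      simp at this
    rw [uni_entry, if_neg hne, if_neg]
    rintro ⟨h1, h2⟩
    have h3 : j + 1 ≤ (i : ℕ) + 1 := h2
    omega
  rw [e1, e2]
  show _ = θ ⟨j, by omega⟩ (∑ l : Fin n, if j + 1 ≤ (l : ℕ) then
    w ⟨j, by omega⟩ l * (mixedEmbedding K (bA γ ⟨j + 1, hj⟩ l) - if (l : ℕ) = j + 1 then 1 else 0) else 0) + _
  rw [← map_add]
  congr 1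
  have hne : (⟨j, by omega⟩ : Fin n) ≠ (⟨j + 1, hj⟩ : Fin n) := by
    intro h
    have := congrArg Fin.val h
    simp at this
  rw [e6_DME hDA, Matrix.add_apply, Matrix.one_apply_ne hne, zero_add, e6_row (by omega) hD' w]
  have e3 : (Uni (j + 1) w : GG n K).1 ⟨j, by omega⟩ ⟨j + 1, hj⟩ =
      ∑ l : Fin n, if j + 1 ≤ (l : ℕ) then w ⟨j, by omega⟩ l * (if (l : ℕ) = j + 1 then 1 else 0) else 0 := by
    rw [uni_entry, if_neg hne, if_pos ⟨Nat.lt_succ_self j, le_refl _⟩, Finset.sum_eq_single (⟨j + 1, hj⟩ : Fin n)]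
    · rw [if_pos (le_refl _), if_pos rfl, mul_one]
    · intro l _ hl
      have h1 : ¬ ((l : ℕ) = j + 1) := fun h => hl (Fin.ext h)
      rw [if_neg h1, mul_zero]
      split_ifs <;> rfl
    · intro h1
      exact absurd (Finset.mem_univ _) h1
  rw [e3, ← Finset.sum_add_distrib]
  refine Finset.sum_congr rfl fun l _ => ?_
  by_cases h : j + 1 ≤ (l : ℕ)
  · rw [if_pos h, if_pos h, if_pos h, ← mul_add, sub_add_cancel]
    rw [a1]
    rfl
  · rw [if_neg h, if_neg h, if_neg h, add_zero]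

theorem e6_ctb (𝔟 : Fin n → Ideal (𝓞 K)) : Countable (LV 𝔟) := by
  have hK : Countable K := (Module.finBasis ℚ K).equivFun.injective.countable
  have hM : Countable (Fin n → Fin n → K) := inferInstance
  have hS : ((LV 𝔟 : AddSubgroup (VM n K)) : Set (VM n K)).Countable := by
    refine (Set.countable_range fun y : Fin n → Fin n → K => fun a b => mixedEmbedding K (y a b)).mono ?_
    intro w hw
    choose z hz hzw using hw
    exact ⟨z, by funext a b; exact (hzw a b).symm⟩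
  exact hS.to_subtype

/-- PROOF (`J = j + 1`). `LD`: `H33W.ldv`. `blk`: `blk_pos`. `conj`: `γ = [[A, B], [0, D]] ∈ Γ_(J)`, `D⁻¹ = Aᵗ`, `D = [[D_1, *], [0, D_2]]` with `D_1` (`J × J`) unipotent upper triangular, and the same for `D⁻¹`. `γ m(M) γ⁻¹` has `C`-block `0` and `D`-block `D M D⁻¹ = 1 + D w' D⁻¹`, `w'` the block part of `w`
(rows `< J`, columns `≥ J`): `D w' D⁻¹` is again supported on the block, so the `D`-block is unipotent upper triangular; its entry `(J - 1, J)` is `∑_{l ≥ J} w_(J-1,l) (D⁻¹)_(l,J)` (the row `J - 1` of `D` restricted to the columns `< J` is `e_(J-1)`), the other superdiagonal entries of the block part vanish.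
The entry `Y_11` of `cuS (γ m(M) γ⁻¹)` vanishes: `Y = Dᵗ B` for the blocks of `u = γ m(M) γ⁻¹`; with `Y_γ = Dᵗ B` (`γ = m(D) n(Y_γ)`): `γ m(M) γ⁻¹ = m(D) n(Y_γ) m(M) n(-Y_γ) m(D)⁻¹ = m(D M) n(Mᵗ Y_γ M - Y_γ) m(D)⁻¹ = m(D M D⁻¹) n(D⁻ᵗ (Mᵗ Y_γ M - Y_γ) D⁻¹)`, and the first column of `D⁻¹` is `e_1`
(`J ≥ 1`) and the first column of `M` is `e_1`, so the entry `11` is `(Mᵗ Y_γ M - Y_γ)_11 = 0`. (`D` need not have determinant one: compute with block matrices, not with `mS`.)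
`int`: as in E5: for `z ∈ LV 𝔟` the element `g = mS (Uni J y)` is in `Γ` (`hasI.iff`, `h𝔡`), `γ g γ⁻¹ ∈ Γ ∩ U`, and `ℓ` is the difference of two integers. `iff`: `ℓ_γ = 0` iff `η_l = δ_(l,J)` for `l ≥ J` (`θ_j ≠ 0`, test with `w_(J-1,l) = c`), iff `ColJ (J + 1) (D⁻¹)`, iff `ColJ (J + 1) D` (`colJ_inv`). -/
theorem stp_pos (hP : PsD Γ 𝔡 θ₀ θ Ψ) {𝔟 : Fin n → Ideal (𝓞 K)} (h𝔡 : ∀ p : UI n, 𝔡 (Sum.inr p) = 𝔟 p.1.2) (h𝔟 : ∀ l, 𝔟 l ≠ ⊥) (j : ℕ) (hj : j + 1 < n)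
    (hθ : θ ⟨j, by omega⟩ ≠ 0) :
    Stp Γ 𝔡 θ₀ θ (LV 𝔟) (DV 𝔟) (GJs (j + 1) Γ) (GJs (j + 2) Γ) (fun w => mS (Uni (j + 1) w)) (lj θ j hj) := by
  have hle : ∀ γ ∈ GJs (j + 1) Γ, γ ∈ Γ ∧ bC γ = 0 ∧ ColJ (j + 1) (bD γ) := fun γ h => h
  refine ⟨ldv h𝔟, e6_ctb 𝔟, gjs_u Γ, gjs_mono (by omega) Γ, fun γ h => (hle γ h).1, fun w => e6_us (j + 1) w,
    e6_cont (j + 1), ?_, ?_, ?_, ?_⟩
  · intro w H mH iH _
    exact blk_pos hP.hasI (j + 1) w mH iH
  · intro γ hγ w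
    obtain ⟨h1, h2, h3⟩ := hle γ hγ
    obtain ⟨k1, k2⟩ := e6_conj (θ₀ := θ₀) (θ := θ) hj h2 h3 w
    refine ⟨embS γ * mS (Uni (j + 1) w) * (embS γ)⁻¹, k1, ?_, k2⟩
    rw [inv_mul_cancel_right]
  · intro γ hγ z hz
    obtain ⟨h1, h2, h3⟩ := hle γ hγ
    choose y hy hyz using hz
    have hz' : z = fun a b => mixedEmbedding K (y a b) := by
      funext a b
      exact hyz a b
    obtain ⟨k1, k2⟩ := e6_conj (θ₀ := θ₀) (θ := θ) hj h2 h3 z
    have hg : mS (Uni (j + 1) z) = embS (mS (Uni (j + 1) y) : SP n K) := by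
      rw [e6_emb, hz']
    have hgΓ : (mS (Uni (j + 1) y) : SP n K) ∈ Γ := by
      rw [hP.hasI.iff _ (e6_us (j + 1) y)]
      intro p
      rcases p with p | p
      · rw [e6_cuS_inl]
        exact ⟨0, zero_mem _, by simp⟩
      · show InI _ (bD (mS (Uni (j + 1) y)) p.1.1 p.1.2)
        rw [(e6_bl (Uni (j + 1) y)).2.2.2, uni_entry, if_neg (ne_of_lt p.2)]
        by_cases h : (p.1.1 : ℕ) < j + 1 ∧ j + 1 ≤ (p.1.2 : ℕ)
        · rw [if_pos h, h𝔡]
          exact hy _ _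
        · rw [if_neg h]
          exact ⟨0, zero_mem _, by simp⟩
    have hc : embS γ * mS (Uni (j + 1) z) * (embS γ)⁻¹ = embS (γ * mS (Uni (j + 1) y) * γ⁻¹) := by
      rw [hg, map_mul, map_mul, map_inv]
    rw [hc] at k1 k2
    obtain ⟨m1, hm1⟩ := hP.int _ (mul_mem (mul_mem h1 hgΓ) (inv_mem h1)) (isUS_emb.1 k1)
    obtain ⟨m2, hm2⟩ := hP.int _ hgΓ (e6_us (j + 1) y)
    rw [hm1, hg, hm2] at k2
    refine ⟨m1 - m2, ?_⟩
    push_cast
    linarith
  · intro γ hγ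
    obtain ⟨h1, h2, h3⟩ := hle γ hγ
    have hinv := inv_of_C h2
    have hA : ColJ (j + 1) (bA γ)ᵀ := colJ_inv h3 hinv.1
    constructor
    · intro h0
      refine ⟨h1, h2, colJ_inv (D := (bA γ)ᵀ) ?_ hinv.2⟩
      intro a l hl hla
      by_cases hlj : (l : ℕ) < j + 1
      · exact hA a l hlj hla
      · have hl1 : l = ⟨j + 1, hj⟩ := Fin.ext (by show (l : ℕ) = j + 1; omega)
        subst hl1
        have haj : j + 1 ≤ (a : ℕ) := hla
        by_contra hne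
        apply hθ
        have hk : bA γ ⟨j + 1, hj⟩ a - (1 : Matrix (Fin n) (Fin n) K) a ⟨j + 1, hj⟩ ≠ 0 := by
          intro h
          exact hne (sub_eq_zero.1 h)
        obtain ⟨k, hkd⟩ : ∃ k : K, k = bA γ ⟨j + 1, hj⟩ a - (1 : Matrix (Fin n) (Fin n) K) a ⟨j + 1, hj⟩ := ⟨_, rfl⟩
        rw [← hkd] at hk
        apply LinearMap.ext
        intro c
        rw [LinearMap.zero_apply]
        have e1 := congrArg (fun f : VM n K →ₗ[ℝ] ℝ => f (fun a' l' =>
          if l' = a then c * mixedEmbedding K k⁻¹ else 0)) h0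
        have e2 : θ ⟨j, by omega⟩ (∑ l : Fin n, if j + 1 ≤ (l : ℕ) then
          (if l = a then c * mixedEmbedding K k⁻¹ else 0) *
            (mixedEmbedding K (bA γ ⟨j + 1, hj⟩ l) - if (l : ℕ) = j + 1 then 1 else 0) else 0) = 0 := e1
        rw [Finset.sum_eq_single a] at e2
        · rw [if_pos haj, if_pos rfl] at e2
          have e3 : (mixedEmbedding K (bA γ ⟨j + 1, hj⟩ a) - if (a : ℕ) = j + 1 then 1 else 0) =
              mixedEmbedding K k := by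
            rw [hkd, map_sub]
            congr 1
            by_cases h : a = ⟨j + 1, hj⟩
            · rw [h, Matrix.one_apply_eq, map_one, if_pos rfl]
            · rw [Matrix.one_apply_ne h, map_zero, if_neg (fun h' => h (Fin.ext h'))]
          rw [e3, mul_assoc, ← map_mul, inv_mul_cancel₀ hk, map_one, mul_one] at e2
          exact e2
        · intro l _ hl
          rw [if_neg hl, zero_mul]
          split_ifs <;> rfl
        · intro h
          exact absurd (Finset.mem_univ _) h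
    · rintro ⟨-, -, h6⟩
      have hA2 : ColJ (j + 2) (bA γ)ᵀ := colJ_inv h6 hinv.1
      apply LinearMap.ext
      intro w
      show θ ⟨j, by omega⟩ (∑ l : Fin n, if j + 1 ≤ (l : ℕ) then
        w ⟨j, by omega⟩ l * (mixedEmbedding K (bA γ ⟨j + 1, hj⟩ l) - if (l : ℕ) = j + 1 then 1 else 0) else 0) = 0
      rw [Finset.sum_eq_zero, map_zero]
      intro l _
      by_cases h : j + 1 ≤ (l : ℕ)
      · rw [if_pos h]
        have e1 : bA γ ⟨j + 1, hj⟩ l = (1 : Matrix (Fin n) (Fin n) K) l ⟨j + 1, hj⟩ :=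
          hA2 l ⟨j + 1, hj⟩ (by show j + 1 < j + 2; omega) h
        rw [e1]
        by_cases h' : l = ⟨j + 1, hj⟩
        · rw [h', Matrix.one_apply_eq, map_one, if_pos rfl, sub_self, mul_zero]
        · rw [Matrix.one_apply_ne h', map_zero, if_neg (fun h2 => h' (Fin.ext h2)), sub_zero, mul_zero]
      · rw [if_neg h]

end

end Pool.Agent.Lib.H67G
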