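import Pool.Agent.Lib.H67G.E2
import Pool.Agent.Lib.H67G.E5
import Pool.Agent.Lib.H67G.E6

/-!
# E7 (S/M): the mean of the Siegel part
-/

namespace Pool.Agent.Lib.H67G

open MeasureTheory Matrix NumberField IsDedekindDomain Pool.Agent.Lib.H89N Pool.Agent.Lib.H33W
open scoped ENNReal

noncomputable section

set_option linter.unusedSectionVars false

variable {n : ℕ} {K : Type} [Field K] [NumberField K]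

variable [NeZero n] {Γ : Subgroup (SP n K)} {𝔡 : TI n → Ideal (𝓞 K)} {θ₀ : EE K →ₗ[ℝ] ℝ} {θ : Fin n → (EE K →ₗ[ℝ] ℝ)} {Ψ : SP n (EE K) → ℂ}

theorem e7_ind (hP : PsD Γ 𝔡 θ₀ θ Ψ) (hθ : θ₀ ≠ 0) (hθ' : ∀ i : Fin n, (i : ℕ) + 1 < n → θ i ≠ 0) (hne : ∀ γ ∈ Γ, bD γ 0 0 ≠ -1)
    {𝔟 : Fin n → Ideal (𝓞 K)} (h𝔡 : ∀ p : UI n, 𝔡 (Sum.inr p) = 𝔟 p.1.2) (h𝔟 : ∀ l, 𝔟 l ≠ ⊥) (x : SP n (EE K)) (J : ℕ) (hJ : J < n) :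
    ∫ t in LB 𝔡, ee (-chS θ₀ θ t) * EJ Γ (GJs 0 Γ) Ψ (uT t * x) =
      ∫ t in LB 𝔡, ee (-chS θ₀ θ t) * EJ Γ (GJs (J + 1) Γ) Ψ (uT t * x) := by
  induction J with
  | zero => exact e_step hP (stp_zero hP hθ hne) x
  | succ j ih =>
    rw [ih (by omega)]
    exact e_step hP (stp_pos hP h𝔡 h𝔟 j hJ (hθ' ⟨j, by omega⟩ hJ)) x

/-- PROOF. By induction over `J ≤ n` with `e_step` (`stp_zero` for `J = 0`, `stp_pos` for `J = j + 1`): the integral for `GJs 0 Γ` is equal to the integral for `GJs n Γ = Γ ⊓ UGS` (`gjs_n`), where `EJ = Ψ` (`ej_last`) and `ee(-chS t) Ψ(uT t x) = Ψ(x)` (`PsD.eq`, `cuS_uT`, `ee_add`); divide by the volume of `LB`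
(`LB_pos`, `LB_top`). -/
theorem e_fin (hP : PsD Γ 𝔡 θ₀ θ Ψ) (hθ : θ₀ ≠ 0) (hθ' : ∀ i : Fin n, (i : ℕ) + 1 < n → θ i ≠ 0) (hne : ∀ γ ∈ Γ, bD γ 0 0 ≠ -1)
    {𝔟 : Fin n → Ideal (𝓞 K)} (h𝔡 : ∀ p : UI n, 𝔡 (Sum.inr p) = 𝔟 p.1.2) (h𝔟 : ∀ l, 𝔟 l ≠ ⊥) (x : SP n (EE K)) :
    ⨍ t in LB 𝔡, ee (-chS θ₀ θ t) * EJ Γ (GJs 0 Γ) Ψ (uT t * x) = Ψ x := by
  have hn : 0 < n := Nat.pos_of_ne_zero (NeZero.ne n)
  have h1 := e7_ind hP hθ hθ' hne h𝔡 h𝔟 x (n - 1) (by omega)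
  have h2 : n - 1 + 1 = n := by omega
  rw [h2, gjs_n] at h1
  have h3 : ∀ t : TI n → EE K, ee (-chS θ₀ θ t) * EJ Γ (Γ ⊓ UGS n K) Ψ (uT t * x) = Ψ x := by
    intro t
    rw [ej_last hP, hP.eq _ (isUS_uT t), cuS_uT, ← mul_assoc, ← ee_add, neg_add_cancel, ee_zero, one_mul]
  simp only [h3] at h1
  rw [setAverage_eq, h1, ← setAverage_eq]
  exact setAverage_const (LB_pos hP.hasI.ne) (LB_top hP.hasI.ne) _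

end

end Pool.Agent.Lib.H67G
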