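import Pool.Agent.Lib.H67G.L10

/-!
# L11 (M): (I.8), the Hecke eigenvalues
-/

namespace Pool.Agent.Lib.H67G

open Matrix Pool.Agent.Lib.H89N

noncomputable section

variable {R K : Type} [CommRing R] [IsDomain R] [IsDiscreteValuationRing R] [Field K] [Algebra R K] {ϖ : R} {q : ℕ}
  {n : ℕ} {P Q M N : Submodule R (Fin n → K)} {A B : Matrix (Fin n) (Fin n) K}

theorem l11_om (a c : ℂ) (m : ℕ) : PowerSeries.rescale a (om c m) = om (c * a ^ m) m := by
  ext k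
  unfold om
  rw [PowerSeries.coeff_rescale, map_sub, map_sub, PowerSeries.coeff_C_mul, PowerSeries.coeff_C_mul,
    PowerSeries.coeff_X_pow, PowerSeries.coeff_one]
  by_cases hk : k = 0
  · subst hk
    by_cases hm : 0 = m
    · subst hm
      simp
    · simp [hm]
  · by_cases hm : k = m
    · subst hm
      simp [hk]
      ring
    · simp [hk, hm]

theorem l11_ne (c : ℂ) {m : ℕ} (hm : m ≠ 0) : om c m ≠ 0 := by
  intro h0
  have h1 := congrArg (PowerSeries.coeff 0) h0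
  unfold om at h1
  rw [map_sub, PowerSeries.coeff_C_mul, PowerSeries.coeff_X_pow, PowerSeries.coeff_one, map_zero] at h1
  simp [Ne.symm hm] at h1

/-- Multiply the coefficients: let `ST = stdP q x` and `rs f = mk (fun k => (q ^ n) ^ k * coeff k f)` (`PowerSeries.rescale (q ^ n)`, a ring homomorphism). The hypothesis `H` says that the left side of `starE` is `C (F St2) * rs ST`
(coefficient `k`: `∑ᶠ L ∈ {L | dg q L.1 St2 = k}, F L.1`). `rs (om ((q ^ n)⁻¹) 1) = om 1 1`, `rs (om ((q ^ (2 (i + 1)))⁻¹) 2) = om (q ^ (2 n - 2 (i + 1))) 2` and `∏_{i < n - 1} om (q ^ (2 (n - 1 - i))) 2 = ∏_{i < n - 1} om (q ^ (2 (i + 1))) 2`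
(reflection, `Finset.prod_range_reflect`). So with `Π = om 1 1 * ∏_{i < n - 1} om (q ^ (2 (i + 1))) 2 ≠ 0` (`om_ne`): `C (F St2) * Π * rs (kapP x) = Π * mk (fun k => q ^ (2 n k) F (L_k))`; cancel `Π` (power series over `ℂ` are a domain) and compare the coefficients of `Z ^ k`:
`F St2 * q ^ (n k) * coeff k (kapP x) = q ^ (2 n k) F (L_k)`; divide by `q ^ (n k) ≠ 0`. -/
theorem hecke_local [NeZero n] (h : LF R K ϖ q) {χ₀ : K → ℂ} (hχ₀ : Chl ϖ χ₀) {χ : Fin n → K → ℂ}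
    (hχ : ∀ i : Fin n, (i : ℕ) + 1 < n → Chl ϖ (χ i)) {F : Submodule R (Fin n ⊕ Fin n → K) → ℂ} (hF : WF ϖ χ₀ χ F)
    (x : Fin n → ℂ)
    (H : ∀ k, ∑ᶠ L ∈ {L : SDt K ϖ n | dg q L.1 (St2 R K n) = k}, F L.1 =
      (q : ℂ) ^ (n * k) * PowerSeries.coeff k (stdP q x) * F (St2 R K n)) (k : ℕ) :
    (q : ℂ) ^ (n * k) * F (Lm (Mk K ϖ n k) 0) = PowerSeries.coeff k (kapP x) * F (St2 R K n) := by
  have hq0 : (q : ℂ) ≠ 0 := by
    have := h.dv.two
    have h0 : q ≠ 0 := by omega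
    exact_mod_cast h0
  have hst := starE h hχ₀ hχ hF
  have hL : gf (fun L : SDt K ϖ n => dg q L.1 (St2 R K n)) (fun L => F L.1) =
      PowerSeries.C (F (St2 R K n)) * PowerSeries.rescale ((q : ℂ) ^ n) (stdP q x) := by
    ext k
    unfold gf
    rw [PowerSeries.coeff_mk, H k, PowerSeries.coeff_C_mul, PowerSeries.coeff_rescale, ← pow_mul]
    ring
  have hprod : PowerSeries.rescale ((q : ℂ) ^ n) (∏ i ∈ Finset.range (n - 1), om ((q : ℂ) ^ (2 * (i + 1)))⁻¹ 2) =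
      ∏ i ∈ Finset.range (n - 1), om ((q : ℂ) ^ (2 * (i + 1))) 2 := by
    rw [map_prod, ← Finset.prod_range_reflect (fun i => om ((q : ℂ) ^ (2 * (i + 1))) 2) (n - 1)]
    apply Finset.prod_congr rfl
    intro i hi
    rw [Finset.mem_range] at hi
    rw [l11_om]
    congr 1
    have e1 : ((q : ℂ) ^ n) ^ 2 = (q : ℂ) ^ (2 * (n - 1 - 1 - i + 1)) * (q : ℂ) ^ (2 * (i + 1)) := by
      rw [← pow_mul, ← pow_add]
      congr 1
      omega
    rw [e1]
    have e2 : (q : ℂ) ^ (2 * (i + 1)) ≠ 0 := pow_ne_zero _ hq0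
    field_simp
  have hom : PowerSeries.rescale ((q : ℂ) ^ n) (om ((q : ℂ) ^ n)⁻¹ 1) = om 1 1 := by
    rw [l11_om, pow_one, inv_mul_cancel₀ (pow_ne_zero _ hq0)]
  rw [hL] at hst
  unfold stdP at hst
  rw [map_mul, map_mul, hom, hprod] at hst
  have hne : om 1 1 * ∏ i ∈ Finset.range (n - 1), om ((q : ℂ) ^ (2 * (i + 1))) 2 ≠ 0 :=
    mul_ne_zero (l11_ne _ one_ne_zero) (Finset.prod_ne_zero_iff.2 fun i _ => l11_ne _ two_ne_zero)
  have h2 : PowerSeries.C (F (St2 R K n)) * PowerSeries.rescale ((q : ℂ) ^ n) (kapP x) =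
      PowerSeries.mk fun k => (q : ℂ) ^ (2 * n * k) * F (Lm (Mk K ϖ n k) 0) := by
    apply mul_left_cancel₀ hne
    rw [← hst]
    ring
  have h3 := congrArg (PowerSeries.coeff k) h2
  rw [PowerSeries.coeff_C_mul, PowerSeries.coeff_rescale, PowerSeries.coeff_mk, ← pow_mul] at h3
  have h4 : (q : ℂ) ^ (2 * n * k) = (q : ℂ) ^ (n * k) * (q : ℂ) ^ (n * k) := by
    rw [← pow_add]
    congr 1
    ring
  rw [h4] at h3
  have h5 : (q : ℂ) ^ (n * k) ≠ 0 := pow_ne_zero _ hq0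
  apply mul_left_cancel₀ h5
  linear_combination -h3

end

end Pool.Agent.Lib.H67G
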