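import Pool.Agent.Lib.H67G.Q3
import Pool.Agent.Lib.H67G.L11
import Pool.Agent.Lib.H89N.LD

/-!
# G0: definitions for part III
-/

namespace Pool.Agent.Lib.H67G

open MeasureTheory Matrix NumberField IsDedekindDomain Pool.Agent.Lib.H89N Pool.Agent.Lib.H33W
open scoped ENNReal Pointwise

noncomputable section

set_option linter.unusedSectionVars false

variable {n : ℕ} {K : Type} [Field K] [NumberField K] {v : HeightOneSpectrum (𝓞 K)} {R : Type} [CommRing R] [IsDomain R]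
  [IsDiscreteValuationRing R] [Algebra R K] {ϖ : R} {𝔫 𝔪 : Ideal (𝓞 K)}

theorem g0_den {g : SP n K} (h : ∃ j, ∀ i l, Den 𝔫 v j ((g.val - 1) i l)) {g' : SP n K} (h' : ∃ j, ∀ i l, Den 𝔫 v j ((g'.val - 1) i l)) :
    ∃ j, ∀ i l, Den 𝔫 v j (((g * g').val - 1) i l) := by
  obtain ⟨j, hj⟩ := h
  obtain ⟨j', hj'⟩ := h'
  refine ⟨j + j', fun i l => ?_⟩
  have e : (g * g').val - 1 = (g.val - 1) * (g'.val - 1) + (g.val - 1) + (g'.val - 1) := by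
    rw [SP.val_mul, sub_mul, mul_sub, mul_sub, one_mul, mul_one, mul_one]
    abel
  rw [e, Matrix.add_apply, Matrix.add_apply, Matrix.mul_apply]
  refine ((Den.sum _ fun c _ => ?_).add ((hj i l).mono (Nat.le_add_right _ _))).add ((hj' i l).mono (Nat.le_add_left _ _))
  exact ((hj i c).mul (hj' c l)).le Ideal.mul_le_left

theorem g0_neg {z : K} {j : ℕ} (h : Den 𝔫 v j z) : Den 𝔫 v j (-z) := by
  intro x hx
  obtain ⟨y, hy, hy'⟩ := h x hx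
  exact ⟨-y, neg_mem hy, by rw [mul_neg, hy']; exact (map_neg _ _).symm⟩

theorem g0_inv {g : SP n K} (h : ∃ j, ∀ i l, Den 𝔫 v j ((g.val - 1) i l)) : ∃ j, ∀ i l, Den 𝔫 v j ((g⁻¹.val - 1) i l) := by
  obtain ⟨j, hj⟩ := h
  refine ⟨j, fun i l => ?_⟩
  have e : g⁻¹.val - 1 = -(Matrix.J (Fin n) K * (g.val - 1)ᵀ * Matrix.J (Fin n) K) := by
    rw [SP.val_inv, Matrix.transpose_sub, Matrix.transpose_one, Matrix.mul_sub, Matrix.sub_mul, Matrix.mul_one, Matrix.J_squared]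
    abel
  have hJ : ∀ a b, Matrix.J (Fin n) K a b = 0 ∨ Matrix.J (Fin n) K a b = 1 ∨ Matrix.J (Fin n) K a b = -1 := by
    rintro (a | a) (b | b) <;> by_cases hab : a = b <;> simp [Matrix.J, hab]
  have hm : ∀ {a z : K}, (a = 0 ∨ a = 1 ∨ a = -1) → Den 𝔫 v j z → Den 𝔫 v j (a * z) := by
    rintro a z (rfl | rfl | rfl) hz
    · rw [zero_mul]
      exact Den.zero
    · rwa [one_mul]
    · rw [neg_one_mul]
      exact g0_neg hz
  rw [e, Matrix.neg_apply]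
  refine g0_neg ?_
  rw [Matrix.mul_apply]
  refine Den.sum _ fun c _ => ?_
  rw [mul_comm]
  refine hm (hJ _ _) ?_
  rw [Matrix.mul_apply]
  exact Den.sum _ fun b _ => hm (hJ _ _) (hj _ _)

/-- The set `HGS` is a subgroup. -/
def HSg (n : ℕ) (𝔫 : Ideal (𝓞 K)) (v : HeightOneSpectrum (𝓞 K)) : Subgroup (SP n K) where
  carrier := HGS n 𝔫 v
  mul_mem' := fun h h' => g0_den h h'
  one_mem' := ⟨0, fun i l => by
    have e : ((1 : SP n K).val - 1) i l = 0 := by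
      rw [SP.val_one, sub_self]
      rfl
    rw [e]
    exact Den.zero⟩
  inv_mem' := fun h => g0_inv h

theorem ac_inv_eq {g : SP n K} {L : Submodule R (Fin n ⊕ Fin n → K)} (h : ac g.val L = L) : ac g⁻¹.val L = L := by
  have e : ac g⁻¹.val (ac g.val L) = L := by
    rw [← ac_mul, ← SP.val_mul, inv_mul_cancel, SP.val_one, ac_one]
  rwa [h] at e

/-- The stabiliser of the lattice `L`. -/
def StG (n : ℕ) (𝔫 : Ideal (𝓞 K)) (v : HeightOneSpectrum (𝓞 K)) (L : Submodule R (Fin n ⊕ Fin n → K)) : Subgroup (SP n K) where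
  carrier := {g | g ∈ HSg n 𝔫 v ∧ ac g.val L = L}
  mul_mem' := by
    rintro g g' ⟨h1, h2⟩ ⟨h1', h2'⟩
    exact ⟨mul_mem h1 h1', by rw [SP.val_mul, ac_mul, h2', h2]⟩
  one_mem' := ⟨one_mem _, by rw [SP.val_one, ac_one]⟩
  inv_mem' := by
    rintro g ⟨h1, h2⟩
    exact ⟨inv_mem h1, ac_inv_eq h2⟩

open Classical in
/-- `f(g y)` for the `g ∈ HG(𝔫)` with `L = g⁻¹ R ^ (2n)`. -/
def ftS (𝔫 : Ideal (𝓞 K)) (v : HeightOneSpectrum (𝓞 K)) (f : SP n (EE K) → ℂ) (L : Submodule R (Fin n ⊕ Fin n → K)) (y : SP n (EE K)) : ℂ :=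
  if h : ∃ g : SP n K, g ∈ HSg n 𝔫 v ∧ L = ac g⁻¹.val (St2 R K n) then f (embS h.choose * y) else 0

/-- The unipotent matrices congruent to one modulo `𝔠`. -/
def UCc (n : ℕ) (𝔠 : Ideal (𝓞 K)) : Set (SP n K) := {g | IsUS g ∧ ∀ i l, InI 𝔠 ((g.val - 1) i l)}

/-- `ϖ ^ m R ^ (2n) ⊆ L ⊆ ϖ ^ (-m) R ^ (2n)`. -/
def BdL (ϖ : R) (m : ℕ) (L : Submodule R (Fin n ⊕ Fin n → K)) : Prop :=
  (∀ x ∈ St2 R K n, ϖ ^ m • x ∈ L) ∧ ∀ x ∈ L, ϖ ^ m • x ∈ St2 R K n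

/-- The least `m` with `BdL ϖ m L`. -/
def mL (ϖ : R) (L : Submodule R (Fin n ⊕ Fin n → K)) : ℕ := sInf {m | BdL ϖ m L}

/-- The Whittaker function on the lattices. -/
def FW [NeZero n] (𝔫 : Ideal (𝓞 K)) (v : HeightOneSpectrum (𝓞 K)) (ϖ : R) (θ₀ : EE K →ₗ[ℝ] ℝ) (θ : Fin n → (EE K →ₗ[ℝ] ℝ)) (f : SP n (EE K) → ℂ)
    (x : SP n (EE K)) (L : Submodule R (Fin n ⊕ Fin n → K)) : ℂ :=
  MnS (fun _ => 𝔫 * v.asIdeal ^ (2 * mL ϖ L)) θ₀ θ (ftS 𝔫 v f L) x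

open Classical in
/-- The local character of `K` given by `θ`: `e(-θ(z'))`, `z' ∈ 𝔫 𝓞[1/v]`, `z - z' ∈ R`. -/
def chl (R : Type) [CommRing R] [Algebra R K] (𝔫 : Ideal (𝓞 K)) (v : HeightOneSpectrum (𝓞 K)) (θ : EE K →ₗ[ℝ] ℝ) (z : K) : ℂ :=
  if h : ∃ z' : K, (∃ j, Den 𝔫 v j z') ∧ In R (z - z') then ee (-θ (mixedEmbedding K h.choose)) else 0

/-- The lattice `L_k`. -/
abbrev Lk (K : Type) [Field K] [Algebra R K] (ϖ : R) (n k : ℕ) : Submodule R (Fin n ⊕ Fin n → K) := Lm (Mk K ϖ n k) 0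

end

end Pool.Agent.Lib.H67G
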