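import Pool.Agent.Lib.H67G.G0

/-!
# G1 (S/M): the valuation ring of v and the ideals prime to v
-/

namespace Pool.Agent.Lib.H67G

open MeasureTheory Matrix NumberField IsDedekindDomain Pool.Agent.Lib.H89N Pool.Agent.Lib.H33W
open scoped ENNReal Pointwise

noncomputable section

set_option linter.unusedSectionVars false

variable {n : ℕ} {K : Type} [Field K] [NumberField K] {v : HeightOneSpectrum (𝓞 K)} {R : Type} [CommRing R] [IsDomain R]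
  [IsDiscreteValuationRing R] [Algebra R K] {ϖ : R} {𝔫 𝔪 : Ideal (𝓞 K)}

/-!
PROOFS. Everything is in `H89N/LD9.lean` (`Loc`, `Loc.den_int`, `Loc.den_R`, `Loc.powmem`, `Loc.upow`, `Loc.genpow`) and `H89N/LD.lean` (`Den.mul`, `Den.of_int`, ..). `lf_of_loc`: `frac`: `z = a / b` with `a, b ∈ 𝓞`, `b ≠ 0`; `b = u ϖ ^ m` in `R`, `u` a unit.
`g1_den`: for `x ∈ v ^ k`, `x = ϖ ^ k y`, so `x z ∈ R` and `x z` has a denominator only at `v`: `g1_in`. `g1_pow`: `z ∈ 𝔪` (`g1_in`) and `z ∈ v ^ k` (`Loc.powmem`), and `𝔪 ∩ v ^ k = 𝔪 v ^ k` (coprime; compare `H33W.h3_inf`).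
-/

theorem lf_of_loc (h : Loc v R ϖ) : LF R K ϖ (Ideal.absNorm v.asIdeal) := by
  refine ⟨h.dv, h.inj, ?_⟩
  intro z
  obtain ⟨a, b, hb, rfl⟩ := IsFractionRing.div_surjective (A := 𝓞 K) z
  have hb0 : b ≠ 0 := nonZeroDivisors.ne_zero hb
  obtain ⟨ra, hra⟩ := h.int a
  obtain ⟨rb, hrb⟩ := h.int b
  have hbK : (b : K) ≠ 0 := by
    intro h0
    apply hb0
    apply FaithfulSMul.algebraMap_injective (𝓞 K) K
    rw [map_zero]
    exact h0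
  have hrb0 : rb ≠ 0 := by
    rintro rfl
    rw [map_zero] at hrb
    exact hbK hrb.symm
  obtain ⟨m, u, hu⟩ := IsDiscreteValuationRing.associated_pow_irreducible hrb0 h.dv.irr
  refine ⟨m, (u : R) * ra, ?_⟩
  rw [← map_pow, ← hu, map_mul, map_mul, hra, hrb]
  have e1 : (algebraMap (𝓞 K) K a) = (a : K) := rfl
  have e2 : (algebraMap (𝓞 K) K b) = (b : K) := rfl
  rw [e1, e2]
  field_simp

theorem g1_of {z : K} (j : ℕ) (hz : InI 𝔪 z) : Den 𝔪 v j z := by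
  obtain ⟨y, hy, rfl⟩ := hz
  exact Den.of_int hy j

theorem g1_R (h : Loc v R ϖ) {z : K} {k : ℕ} (hz : Den 𝔪 v k z) : In R (algebraMap R K ϖ ^ k * z) := by
  obtain ⟨y, hy⟩ := h.den_R hz
  exact ⟨y, by rw [← hy, map_pow]⟩

theorem g1_R0 (h : Loc v R ϖ) {z : K} (hz : InI 𝔪 z) : In R z := by
  obtain ⟨y, hy, rfl⟩ := hz
  exact h.int y

theorem g1_Rk (h : Loc v R ϖ) {z : K} {k : ℕ} (hz : InI (𝔪 * v.asIdeal ^ k) z) : In R ((algebraMap R K ϖ ^ k)⁻¹ * z) ∧ InI 𝔪 z := by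
  obtain ⟨y, hy, rfl⟩ := hz
  refine ⟨?_, ⟨y, Ideal.mul_le_left hy, rfl⟩⟩
  obtain ⟨w, hw⟩ := h.upow k y (Ideal.mul_le_right hy)
  refine ⟨w, ?_⟩
  rw [← hw, map_mul, map_pow, ← mul_assoc, inv_mul_cancel₀ (pow_ne_zero _ h.pi_ne), one_mul]

theorem g1_in (h : Loc v R ϖ) (hv : ¬𝔪 ≤ v.asIdeal) {z : K} {j : ℕ} (hz : Den 𝔪 v j z) (hR : In R z) : InI 𝔪 z := by
  exact h.den_int hv hz hR

theorem g1_den (h : Loc v R ϖ) (hv : ¬𝔪 ≤ v.asIdeal) {z : K} {j k : ℕ} (hz : Den 𝔪 v j z) (hR : In R (algebraMap R K ϖ ^ k * z)) : Den 𝔪 v k z := by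
  intro x hx
  obtain ⟨w, hw⟩ := h.upow k x hx
  obtain ⟨r, hr⟩ := hR
  refine g1_in h hv (j := j) ?_ ⟨w * r, ?_⟩
  · intro x' hx'
    obtain ⟨y', hy', e⟩ := hz x' hx'
    refine ⟨x * y', Ideal.mul_mem_left _ _ hy', ?_⟩
    have e1 : ((x * y' : 𝓞 K) : K) = (x : K) * (y' : K) := rfl
    rw [e1, ← e]
    ring
  · rw [map_mul, hr, ← hw, map_mul, map_pow]
    ring

theorem g1_pow (h : Loc v R ϖ) (hv : ¬𝔪 ≤ v.asIdeal) {z : K} {j k : ℕ} (hz : Den 𝔪 v j z) (hR : In R ((algebraMap R K ϖ ^ k)⁻¹ * z)) :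
    InI (𝔪 * v.asIdeal ^ k) z := by
  obtain ⟨r, hr⟩ := hR
  have hzr : z = algebraMap R K (ϖ ^ k * r) := by
    rw [map_mul, map_pow, hr, ← mul_assoc, mul_inv_cancel₀ (pow_ne_zero _ h.pi_ne), one_mul]
  obtain ⟨y, hy, hzy⟩ := g1_in h hv hz ⟨_, hzr.symm⟩
  refine ⟨y, ?_, hzy⟩
  have h1 : y ∈ v.asIdeal ^ k := h.powmem (y := r) (by rw [← hzy, hzr])
  have hmax : v.asIdeal.IsMaximal := v.isMaximal
  have h2 : 𝔪 ⊔ v.asIdeal = ⊤ := by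
    refine hmax.1.2 _ (lt_of_le_of_ne le_sup_right fun h' => hv ?_)
    rw [h']
    exact le_sup_left
  have h3 : 𝔪 ⊔ v.asIdeal ^ k = ⊤ := by
    rw [← Ideal.isCoprime_iff_sup_eq] at h2 ⊢
    exact h2.pow_right
  rw [Ideal.mul_eq_inf_of_coprime h3]
  exact ⟨hy, h1⟩

end

end Pool.Agent.Lib.H67G
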