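import Pool.Agent.Lib.H67G.G9

/-!
# G10 (M): the functions ft
-/

namespace Pool.Agent.Lib.H67G

open MeasureTheory Matrix NumberField IsDedekindDomain Pool.Agent.Lib.H89N Pool.Agent.Lib.H33W
open scoped ENNReal Pointwise

noncomputable section

set_option linter.unusedSectionVars false

variable {n : ℕ} {K : Type} [Field K] [NumberField K] {v : HeightOneSpectrum (𝓞 K)} {R : Type} [CommRing R] [IsDomain R]
  [IsDiscreteValuationRing R] [Algebra R K] {ϖ : R} {𝔫 𝔪 : Ideal (𝓞 K)}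

variable {f : SP n (EE K) → ℂ} {L : Submodule R (Fin n ⊕ Fin n → K)}

/-!
PROOFS. `ft_eq`: the chosen `g'` has `ac g'⁻¹ St2 = ac g⁻¹ St2`, so `γ = g' g⁻¹ ∈ HG` stabilises `St2` and is in `Γ(𝔫)` (`g5_st`), `f(g' y) = f(γ g y) = f(g y)`. `ft_act`: `L = ac g₀⁻¹ St2` (`strong`), `ac g L = ac (g₀ g⁻¹)⁻¹ St2`: both sides are `f(g₀ y)`. `ft_inv` is the special case `ac γ L = L`. `ft_lin`: the chosen element does not depend on `f`.
-/

theorem g10_cancel (g : SP n K) (L : Submodule R (Fin n ⊕ Fin n → K)) : ac g.val (ac g⁻¹.val L) = L := by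
  rw [← ac_mul, ← SP.val_mul, mul_inv_cancel, SP.val_one, ac_one]

theorem ft_eq (h : Loc v R ϖ) (hv : ¬𝔫 ≤ v.asIdeal) (hf : ∀ γ ∈ GammaS n 𝔫, ∀ x, f (embS γ * x) = f x) {g : SP n K} (hg : g ∈ HSg n 𝔫 v) (y : SP n (EE K)) :
    ftS 𝔫 v f (ac g⁻¹.val (St2 R K n)) y = f (embS g * y) := by
  have hex : ∃ g' : SP n K, g' ∈ HSg n 𝔫 v ∧ ac g⁻¹.val (St2 R K n) = ac g'⁻¹.val (St2 R K n) := ⟨g, hg, rfl⟩
  unfold ftS
  rw [dif_pos hex]
  obtain ⟨h1, h2⟩ := hex.choose_spec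
  generalize hex.choose = g' at h1 h2
  have h3 : ac (g' * g⁻¹).val (St2 R K n) = St2 R K n := by
    rw [SP.val_mul, ac_mul, h2, g10_cancel]
  have h4 : g' * g⁻¹ ∈ GammaS n 𝔫 := (g5_st h hv (mul_mem h1 (inv_mem hg))).1 h3
  have h5 := hf _ h4 (embS g * y)
  rw [← mul_assoc, ← map_mul, inv_mul_cancel_right] at h5
  exact h5

theorem ft_act (h : Loc v R ϖ) (hv : ¬𝔫 ≤ v.asIdeal) (hf : ∀ γ ∈ GammaS n 𝔫, ∀ x, f (embS γ * x) = f x) (hL : IsSD ϖ L) {g : SP n K} (hg : g ∈ HSg n 𝔫 v)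
    (y : SP n (EE K)) : ftS 𝔫 v f (ac g.val L) (embS g * y) = ftS 𝔫 v f L y := by
  obtain ⟨g₀, h0, rfl⟩ := strong h hv hL
  have e : ac g.val (ac g₀⁻¹.val (St2 R K n)) = ac (g₀ * g⁻¹)⁻¹.val (St2 R K n) := by
    rw [← ac_mul, ← SP.val_mul, _root_.mul_inv_rev, inv_inv]
  rw [e, ft_eq h hv hf (mul_mem h0 (inv_mem hg)), ft_eq h hv hf h0, ← mul_assoc, ← map_mul, inv_mul_cancel_right]

theorem ft_inv (h : Loc v R ϖ) (hv : ¬𝔫 ≤ v.asIdeal) (hf : ∀ γ ∈ GammaS n 𝔫, ∀ x, f (embS γ * x) = f x) (hL : IsSD ϖ L) {γ : SP n K} (hγ : γ ∈ StG n 𝔫 v L)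
    (y : SP n (EE K)) : ftS 𝔫 v f L (embS γ * y) = ftS 𝔫 v f L y := by
  have h1 := ft_act h hv hf hL hγ.1 y
  rw [hγ.2] at h1
  exact h1

theorem ft_St (h : Loc v R ϖ) (hv : ¬𝔫 ≤ v.asIdeal) (hf : ∀ γ ∈ GammaS n 𝔫, ∀ x, f (embS γ * x) = f x) : ftS 𝔫 v f (St2 R K n) = f := by
  funext y
  have h1 := ft_eq (R := R) h hv hf (one_mem (HSg n 𝔫 v)) y
  rw [inv_one, SP.val_one, ac_one, map_one, one_mul] at h1
  exact h1

theorem ft_cont (hf : Continuous f) (L : Submodule R (Fin n ⊕ Fin n → K)) : Continuous (ftS 𝔫 v f L) := by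
  unfold ftS
  by_cases hex : ∃ g : SP n K, g ∈ HSg n 𝔫 v ∧ L = ac g⁻¹.val (St2 R K n)
  · simp only [dif_pos hex]
    exact hf.comp (continuous_const.mul continuous_id)
  · simp only [dif_neg hex]
    exact continuous_const

theorem ft_lin {m : ℕ} (c : Fin m → ℂ) (F : Fin m → SP n (EE K) → ℂ) (L : Submodule R (Fin n ⊕ Fin n → K)) (y : SP n (EE K)) :
    ftS 𝔫 v (fun x => ∑ i, c i * F i x) L y = ∑ i, c i * ftS 𝔫 v (F i) L y := by
  unfold ftS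
  by_cases hex : ∃ g : SP n K, g ∈ HSg n 𝔫 v ∧ L = ac g⁻¹.val (St2 R K n)
  · simp only [dif_pos hex]
  · simp only [dif_neg hex, mul_zero, Finset.sum_const_zero]

end

end Pool.Agent.Lib.H67G
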