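import Pool.Agent.Lib.H67G.G5

/-!
# G6 (M): the height of an element of HG
-/

namespace Pool.Agent.Lib.H67G

open MeasureTheory Matrix NumberField IsDedekindDomain Pool.Agent.Lib.H89N Pool.Agent.Lib.H33W
open scoped ENNReal Pointwise

noncomputable section

set_option linter.unusedSectionVars false

variable {n : ℕ} {K : Type} [Field K] [NumberField K] {v : HeightOneSpectrum (𝓞 K)} {R : Type} [CommRing R] [IsDomain R]
  [IsDiscreteValuationRing R] [Algebra R K] {ϖ : R} {𝔫 𝔪 : Ideal (𝓞 K)}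

theorem g6_On {x : Fin n ⊕ Fin n → K} : x ∈ OnS n K ↔ ∀ i, ∃ a : 𝓞 K, (a : K) = x i := by
  constructor
  · intro hx i
    exact hx i (Set.mem_univ i)
  · intro hx i _
    exact hx i

/-- PROOF. Let `A = ac g⁻¹ St2`, `A ⊓ St2 = {x ∈ St2 | g x ∈ St2}` (`mem_ac_inv`). The map `𝓞 ^ (2n) → St2 / (A ⊓ St2)` is surjective: `ϖ ^ m St2 ⊆ A ⊓ St2` for some `m` (`la_ac`, `la_inf`), and every `y ∈ R` is `a + ϖ ^ m z`, `a ∈ 𝓞` (`Loc.dense`). Its kernel is `{x ∈ 𝓞 ^ (2n) | g x ∈ R ^ (2n)}`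
`= {x ∈ 𝓞 ^ (2n) | g x ∈ 𝓞 ^ (2n)}`: `(g - 1) x` has entries with denominators only at `v` (`Den.sum`, `Den.mul`) and in `R`, so in `𝔫` (`g1_in`). Compare `H89N.height_eq` (file LD). -/
theorem g6_height (h : Loc v R ϖ) (hv : ¬𝔫 ≤ v.asIdeal) {g : SP n K} (hg : g ∈ HSg n 𝔫 v) :
    heightS g = ix (ac g⁻¹.val (St2 R K n)) (St2 R K n) := by
  have e : g⁻¹.val * g.val = 1 := by
    rw [← SP.val_mul, inv_mul_cancel, SP.val_one]
  have hLF := lf_of_loc h
  obtain ⟨A, hA⟩ : ∃ A : Submodule R (Fin n ⊕ Fin n → K), A = ac g⁻¹.val (St2 R K n) := ⟨_, rfl⟩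
  have hAla : IsLa ϖ A := by
    rw [hA]
    exact la_ac hLF e la_St
  have hAmem : ∀ x, x ∈ A ↔ g.val *ᵥ x ∈ St2 R K n := by
    intro x
    rw [hA, mem_ac_inv e]
  rw [← hA]
  obtain ⟨j, hj⟩ := hg
  -- the intersection with `O`
  have h1 : (OnS n K).comap g.val.mulVecLin.toAddMonoidHom ⊓ OnS n K = (A ⊓ St2 R K n).toAddSubgroup ⊓ OnS n K := by
    ext x
    rw [AddSubgroup.mem_inf, AddSubgroup.mem_inf]
    constructor
    · rintro ⟨h2, h3⟩
      have h2' : g.val *ᵥ x ∈ OnS n K := h2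
      refine ⟨⟨(hAmem x).2 fun i => ?_, fun i => ?_⟩, h3⟩
      · obtain ⟨a, ha⟩ := g6_On.1 h2' i
        obtain ⟨y, hy⟩ := h.int a
        exact ⟨y, hy.trans ha⟩
      · obtain ⟨a, ha⟩ := g6_On.1 h3 i
        obtain ⟨y, hy⟩ := h.int a
        exact ⟨y, hy.trans ha⟩
    · rintro ⟨⟨h2, h4⟩, h3⟩
      refine ⟨?_, h3⟩
      show g.val *ᵥ x ∈ OnS n K
      rw [g6_On]
      intro i
      have h5 := (hAmem x).1 h2 i
      have h6 : Den 𝔫 v (j + 0) (((g.val - 1) *ᵥ x) i) := by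
        show Den 𝔫 v (j + 0) (∑ c, (g.val - 1) i c * x c)
        refine Den.sum _ fun c _ => ?_
        obtain ⟨a, ha⟩ := g6_On.1 h3 c
        have h7 : Den (⊤ : Ideal (𝓞 K)) v 0 (x c) := by
          rw [← ha]
          exact Den.of_int (Submodule.mem_top (R := 𝓞 K) (x := a)) 0
        exact ((hj i c).mul h7).le Ideal.mul_le_left
      have h8 : ((g.val - 1) *ᵥ x) i = (g.val *ᵥ x) i - x i := by
        rw [Matrix.sub_mulVec, Matrix.one_mulVec]
        rfl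
      have h9 : In R (((g.val - 1) *ᵥ x) i) := by
        rw [h8]
        exact in_sub h5 (h4 i)
      obtain ⟨y, hy, hy'⟩ := g1_in h hv h6 h9
      obtain ⟨a, ha⟩ := g6_On.1 h3 i
      refine ⟨y + a, ?_⟩
      rw [ld9_add, ← hy', h8, ha]
      ring
  have h10 : OnS n K ⊔ (A ⊓ St2 R K n).toAddSubgroup = (St2 R K n).toAddSubgroup := by
    apply le_antisymm
    · refine sup_le ?_ ?_
      · intro x hx i
        obtain ⟨a, ha⟩ := g6_On.1 hx i
        obtain ⟨y, hy⟩ := h.int a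
        exact ⟨y, hy.trans ha⟩
      · intro x hx
        exact hx.2
    · intro x hx
      obtain ⟨m, hm, -⟩ := hAla
      have h11 : ∀ i, ∃ (a : 𝓞 K) (z : R), x i = (a : K) + algebraMap R K (ϖ ^ m * z) := by
        intro i
        obtain ⟨y, hy⟩ := hx i
        obtain ⟨a, z, haz⟩ := h.dense m y
        exact ⟨a, z, by rw [← hy, haz]⟩
      choose a z haz using h11
      rw [AddSubgroup.mem_sup]
      refine ⟨fun i => (a i : K), g6_On.2 fun i => ⟨a i, rfl⟩, ϖ ^ m • fun i => algebraMap R K (z i), ?_, ?_⟩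
      · have hz : (fun i => algebraMap R K (z i)) ∈ St2 R K n := fun i => ⟨z i, rfl⟩
        exact ⟨hm _ hz, Submodule.smul_mem _ _ hz⟩
      · funext i
        rw [Pi.add_apply, Pi.smul_apply, Algebra.smul_def, ← map_mul]
        exact (haz i).symm
  unfold heightS ix
  calc ((OnS n K).comap g.val.mulVecLin.toAddMonoidHom).relIndex (OnS n K) =
      ((OnS n K).comap g.val.mulVecLin.toAddMonoidHom ⊓ OnS n K).relIndex (OnS n K) :=
        (AddSubgroup.inf_relIndex_right _ _).symm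
    _ = ((A ⊓ St2 R K n).toAddSubgroup ⊓ OnS n K).relIndex (OnS n K) := by rw [h1]
    _ = (A ⊓ St2 R K n).toAddSubgroup.relIndex (OnS n K) := AddSubgroup.inf_relIndex_right _ _
    _ = (A ⊓ St2 R K n).toAddSubgroup.relIndex (OnS n K ⊔ (A ⊓ St2 R K n).toAddSubgroup) :=
        (AddSubgroup.relIndex_sup_right _ _).symm
    _ = (A ⊓ St2 R K n).toAddSubgroup.relIndex (St2 R K n).toAddSubgroup := by rw [h10]
    _ = A.toAddSubgroup.relIndex (St2 R K n).toAddSubgroup :=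
        AddSubgroup.inf_relIndex_right A.toAddSubgroup (St2 R K n).toAddSubgroup

theorem g6_dg (h : Loc v R ϖ) (hv : ¬𝔫 ≤ v.asIdeal) {g : SP n K} (hg : g ∈ HSg n 𝔫 v) (k : ℕ) :
    heightS g = Ideal.absNorm v.asIdeal ^ k ↔ dg (Ideal.absNorm v.asIdeal) (ac g⁻¹.val (St2 R K n)) (St2 R K n) = k := by
  have e : g⁻¹.val * g.val = 1 := by
    rw [← SP.val_mul, inv_mul_cancel, SP.val_one]
  have hLF := lf_of_loc h
  rw [g6_height h hv hg, ix_eq hLF (la_ac hLF e la_St) la_St]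
  exact ⟨fun h1 => Nat.pow_right_injective hLF.dv.two h1, fun h1 => by rw [h1]⟩

end

end Pool.Agent.Lib.H67G
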