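import Pool.Agent.Lib.H67G.G10
import Pool.Agent.Lib.H67G.G6

/-!
# G11 (M): the Hecke operators as sums over the lattices
-/

namespace Pool.Agent.Lib.H67G

open MeasureTheory Matrix NumberField IsDedekindDomain Pool.Agent.Lib.H89N Pool.Agent.Lib.H33W
open scoped ENNReal Pointwise

noncomputable section

set_option linter.unusedSectionVars false

variable {n : ℕ} {K : Type} [Field K] [NumberField K] {v : HeightOneSpectrum (𝓞 K)} {R : Type} [CommRing R] [IsDomain R]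
  [IsDiscreteValuationRing R] [Algebra R K] {ϖ : R} {𝔫 𝔪 : Ideal (𝓞 K)}

/-- The lattice of `s`. -/
def g11_phi (h : Loc v R ϖ) (s : SP n K) : SDt K ϖ n := ⟨ac s⁻¹.val (St2 R K n), g5_sd (lf_of_loc h) s⁻¹ g5_sdSt⟩

theorem g11_bij (h : Loc v R ϖ) (hv : ¬𝔫 ≤ v.asIdeal) {k : ℕ} {S : Finset (SP n K)} (h1 : ∀ s ∈ S, s ∈ DeltaS n 𝔫 v k)
    (h2 : ∀ g ∈ DeltaS n 𝔫 v k, ∃! s, s ∈ S ∧ ∃ γ ∈ GammaS n 𝔫, g = γ * s) :
    Set.InjOn (g11_phi h) (S : Set (SP n K)) ∧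
      {L : SDt K ϖ n | dg (Ideal.absNorm v.asIdeal) L.1 (St2 R K n) = k} = g11_phi h '' (S : Set (SP n K)) := by
  have hH : ∀ s ∈ S, s ∈ HSg n 𝔫 v := fun s hs => (h1 s hs).1
  constructor
  · intro s hs s' hs' he
    have e1 : ac s⁻¹.val (St2 R K n) = ac s'⁻¹.val (St2 R K n) := congrArg Subtype.val he
    have e2 : ac (s' * s⁻¹).val (St2 R K n) = St2 R K n := by
      rw [SP.val_mul, ac_mul, e1, g10_cancel]
    have e3 : s' * s⁻¹ ∈ GammaS n 𝔫 := (g5_st h hv (mul_mem (hH s' hs') (inv_mem (hH s hs)))).1 e2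
    obtain ⟨t, -, ht⟩ := h2 s' (h1 s' hs')
    have e4 := ht s ⟨hs, s' * s⁻¹, e3, by rw [inv_mul_cancel_right]⟩
    have e5 := ht s' ⟨hs', 1, one_mem _, by rw [one_mul]⟩
    rw [e4, e5]
  · ext L
    constructor
    · intro hL
      obtain ⟨g, hg, he⟩ := strong h hv L.2
      have hL' : dg (Ideal.absNorm v.asIdeal) L.1 (St2 R K n) = k := hL
      rw [he] at hL'
      have hgD : g ∈ DeltaS n 𝔫 v k := ⟨hg, (g6_dg h hv hg k).2 hL'⟩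
      obtain ⟨s, ⟨hs, γ, hγ, hgs⟩, -⟩ := h2 g hgD
      refine ⟨s, hs, Subtype.ext ?_⟩
      show ac s⁻¹.val (St2 R K n) = L.1
      have e6 : ac γ⁻¹.val (St2 R K n) = St2 R K n :=
        (g5_st h hv (gam_HS (inv_mem hγ))).2 (inv_mem hγ)
      rw [he, hgs, _root_.mul_inv_rev, SP.val_mul, ac_mul, e6]
    · rintro ⟨s, hs, rfl⟩
      exact (g6_dg h hv (hH s hs) k).1 (h1 s hs).2

/-- PROOF. `s ↦ ac s⁻¹ St2` is a bijection from the finite set `S` of `IsHeckeS` onto the set of the `L` with `dg L St2 = k`: injective (if `ac s⁻¹ St2 = ac s'⁻¹ St2` then `s' s⁻¹ ∈ Γ(𝔫)` by `g5_st`, and the uniqueness in `IsHeckeS` for `g = s'` gives `s = s'`), surjective (`strong`, `g6_dg`: `L = ac g⁻¹ St2` with `g ∈ DeltaS`,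
`g = γ s`, `ac (γ s)⁻¹ St2 = ac s⁻¹ St2`). And `ftS f (ac s⁻¹ St2) y = f(s y)` (`ft_eq`). -/
theorem hecke_fin (h : Loc v R ϖ) (hv : ¬𝔫 ≤ v.asIdeal) {f : SP n (EE K) → ℂ} {k : ℕ} {lam : ℂ} (H : IsHeckeS 𝔫 v k f lam) :
    {L : SDt K ϖ n | dg (Ideal.absNorm v.asIdeal) L.1 (St2 R K n) = k}.Finite := by
  obtain ⟨S, h1, h2, -⟩ := H
  rw [(g11_bij h hv h1 h2).2]
  exact S.finite_toSet.image _

theorem hecke_sum (h : Loc v R ϖ) (hv : ¬𝔫 ≤ v.asIdeal) {f : SP n (EE K) → ℂ} (hf : ∀ γ ∈ GammaS n 𝔫, ∀ x, f (embS γ * x) = f x) {k : ℕ} {lam : ℂ}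
    (H : IsHeckeS 𝔫 v k f lam) (y : SP n (EE K)) :
    ∑ᶠ L ∈ {L : SDt K ϖ n | dg (Ideal.absNorm v.asIdeal) L.1 (St2 R K n) = k}, ftS 𝔫 v f L.1 y = lam * f y := by
  obtain ⟨S, h1, h2, h3⟩ := H
  obtain ⟨h4, h5⟩ := g11_bij h hv h1 h2
  rw [h5, finsum_mem_image h4, finsum_mem_coe_finset, ← h3 y]
  refine Finset.sum_congr rfl fun s hs => ?_
  exact ft_eq h hv hf (h1 s hs).1 y

end

end Pool.Agent.Lib.H67G
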