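import Pool.Agent.Lib.H67G.G5

/-!
# G12 (M): unipotent congruence subgroups
-/

namespace Pool.Agent.Lib.H67G

open MeasureTheory Matrix NumberField IsDedekindDomain Pool.Agent.Lib.H89N Pool.Agent.Lib.H33W
open scoped ENNReal Pointwise

noncomputable section

set_option linter.unusedSectionVars false

variable {n : ℕ} {K : Type} [Field K] [NumberField K] {v : HeightOneSpectrum (𝓞 K)} {R : Type} [CommRing R] [IsDomain R]
  [IsDiscreteValuationRing R] [Algebra R K] {ϖ : R} {𝔫 𝔪 : Ideal (𝓞 K)}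

theorem g12_mul {𝔠 : Ideal (𝓞 K)} {g g' : SP n K} (h : g ∈ UCc n 𝔠) (h' : g' ∈ UCc n 𝔠) : g * g' ∈ UCc n 𝔠 := by
  refine ⟨isUS_mul h.1 h'.1, fun i l => ?_⟩
  have e : (g * g').val - 1 = (g.val - 1) * (g'.val - 1) + (g.val - 1) + (g'.val - 1) := by
    rw [SP.val_mul, sub_mul, mul_sub, mul_sub, one_mul, mul_one, mul_one]
    abel
  rw [e, Matrix.add_apply, Matrix.add_apply, Matrix.mul_apply]
  exact ini_add (ini_add (ini_sum _ fun c _ => ini_mul (h.2 i c) (h'.2 c l)) (h.2 i l)) (h'.2 i l)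

theorem g12_inv {𝔠 : Ideal (𝓞 K)} {g : SP n K} (h : g ∈ UCc n 𝔠) : g⁻¹ ∈ UCc n 𝔠 := by
  refine ⟨isUS_inv h.1, fun i l => ?_⟩
  have e : g⁻¹.val - 1 = -(Matrix.J (Fin n) K * (g.val - 1)ᵀ * Matrix.J (Fin n) K) := by
    rw [SP.val_inv, Matrix.transpose_sub, Matrix.transpose_one, Matrix.mul_sub, Matrix.sub_mul, Matrix.mul_one, Matrix.J_squared]
    abel
  have hJ : ∀ a b, Matrix.J (Fin n) K a b = 0 ∨ Matrix.J (Fin n) K a b = 1 ∨ Matrix.J (Fin n) K a b = -1 := by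
    rintro (a | a) (b | b) <;> by_cases hab : a = b <;> simp [Matrix.J, hab]
  have hm : ∀ {a z : K}, (a = 0 ∨ a = 1 ∨ a = -1) → InI 𝔠 z → InI 𝔠 (a * z) := by
    rintro a z (rfl | rfl | rfl) hz
    · rw [zero_mul]
      exact ini_zero
    · rwa [one_mul]
    · rw [neg_one_mul]
      exact ini_neg hz
  rw [e, Matrix.neg_apply]
  refine ini_neg ?_
  rw [Matrix.mul_apply]
  refine ini_sum _ fun c _ => ?_
  rw [mul_comm]
  refine hm (hJ _ _) ?_
  rw [Matrix.mul_apply]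
  exact ini_sum _ fun b _ => hm (hJ _ _) (h.2 _ _)

/-- The group `U(𝔠)`. -/
def UCg (n : ℕ) (𝔠 : Ideal (𝓞 K)) : Subgroup (SP n K) where
  carrier := UCc n 𝔠
  mul_mem' := fun h h' => g12_mul h h'
  one_mem' := ⟨isUS_one, fun i l => by
    have e : ((1 : SP n K).val - 1) i l = 0 := by
      rw [SP.val_one, sub_self]
      rfl
    rw [e]
    exact ini_zero⟩
  inv_mem' := fun h => g12_inv h

theorem g12_nS {𝔠 : Ideal (𝓞 K)} {Y : SI n → K} (hY : ∀ p, InI 𝔠 (Y p)) : nS Y ∈ UCc n 𝔠 := by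
  refine ⟨⟨?_, ?_⟩, ?_⟩
  · show (Matrix.fromBlocks 1 (syM Y) 0 1).toBlocks₂₁ = 0
    rw [Matrix.toBlocks_fromBlocks₂₁]
  · show IsUU (Matrix.fromBlocks 1 (syM Y) 0 1).toBlocks₂₂
    rw [Matrix.toBlocks_fromBlocks₂₂]
    exact isUU_one
  · have e : (nS Y).val - 1 = Matrix.fromBlocks 0 (syM Y) 0 0 := by
      show Matrix.fromBlocks 1 (syM Y) 0 1 - 1 = _
      rw [sub_eq_iff_eq_add, ← Matrix.fromBlocks_one, Matrix.fromBlocks_add]
      simp
    rw [e]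
    rintro (i | i) (l | l)
    · exact ini_zero
    · show InI 𝔠 (syM Y i l)
      unfold syM
      rw [Matrix.of_apply]
      split_ifs
      · exact hY _
      · exact hY _
    · exact ini_zero
    · exact ini_zero

theorem g12_sub {𝔠 : Ideal (𝓞 K)} {g : SLK n K} (h : LUc (fun _ => 𝔠) g) (a l : Fin n) : InI 𝔠 ((g.1 - 1) a l) := by
  rw [Matrix.sub_apply]
  rcases le_or_gt l a with h1 | h1
  · rw [(h a l).1 h1, sub_self]
    exact ini_zero
  · rw [Matrix.one_apply_ne h1.ne, sub_zero]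
    exact (h a l).2 h1

theorem g12_mS {𝔠 : Ideal (𝓞 K)} {τ : UI n → K} (hτ : ∀ p, InI 𝔠 (τ p)) : mS (up τ) ∈ UCc n 𝔠 := by
  have hL : LUc (fun _ => 𝔠) (up τ : SLK n K) := by
    intro a l
    refine ⟨fun h => isUU_upM τ a l h, fun h => ?_⟩
    show InI 𝔠 (upM τ a l)
    rw [upM_lt τ h]
    exact hτ _
  have hLi := luc_inv hL
  refine ⟨⟨?_, ?_⟩, ?_⟩
  · show (Matrix.fromBlocks ((up τ)⁻¹.1)ᵀ 0 0 (up τ).1).toBlocks₂₁ = 0
    rw [Matrix.toBlocks_fromBlocks₂₁]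
  · show IsUU (Matrix.fromBlocks ((up τ)⁻¹.1)ᵀ 0 0 (up τ).1).toBlocks₂₂
    rw [Matrix.toBlocks_fromBlocks₂₂]
    exact isUU_upM τ
  · have e : (mS (up τ)).val - 1 = Matrix.fromBlocks (((up τ)⁻¹.1) - 1)ᵀ 0 0 ((up τ).1 - 1) := by
      show Matrix.fromBlocks ((up τ)⁻¹.1)ᵀ 0 0 (up τ).1 - 1 = _
      rw [sub_eq_iff_eq_add, ← Matrix.fromBlocks_one, Matrix.fromBlocks_add, Matrix.transpose_sub, Matrix.transpose_one]
      simp
    rw [e]
    rintro (i | i) (l | l)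
    · exact g12_sub hLi l i
    · exact ini_zero
    · exact ini_zero
    · exact g12_sub hL i l

theorem g12_iff {𝔠 : Ideal (𝓞 K)} {g : SP n K} (hg : IsUS g) : (∀ i l, InI 𝔠 ((g.val - 1) i l)) ↔ ∀ p, InI 𝔠 (cuS g p) := by
  constructor
  · intro h
    have hB : ∀ c d : Fin n, InI 𝔠 (bB g c d) := by
      intro c d
      have h1 := h (Sum.inl c) (Sum.inr d)
      have e : (g.val - 1) (Sum.inl c) (Sum.inr d) = bB g c d := by
        rw [Matrix.sub_apply, Matrix.one_apply_ne (by simp), sub_zero]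
        rfl
      rwa [e] at h1
    have hD : ∀ c d : Fin n, InI 𝔠 ((bD g - 1) c d) := by
      intro c d
      have h1 := h (Sum.inr c) (Sum.inr d)
      have e : (g.val - 1) (Sum.inr c) (Sum.inr d) = (bD g - 1) c d := by
        rw [Matrix.sub_apply, Matrix.sub_apply]
        congr 1
        simp [Matrix.one_apply]
      rwa [e] at h1
    rintro (p | p)
    · show InI 𝔠 (((bD g)ᵀ * bB g) p.1.1 p.1.2)
      have e : (bD g)ᵀ * bB g = (bD g - 1)ᵀ * bB g + bB g := by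
        rw [Matrix.transpose_sub, Matrix.transpose_one, Matrix.sub_mul, Matrix.one_mul, sub_add_cancel]
      rw [e, Matrix.add_apply, Matrix.mul_apply]
      exact ini_add (ini_sum _ fun c _ => ini_mul (hD c p.1.1) (hB c p.1.2)) (hB _ _)
    · show InI 𝔠 (bD g p.1.1 p.1.2)
      have h1 := hD p.1.1 p.1.2
      rwa [Matrix.sub_apply, Matrix.one_apply_ne p.2.ne, sub_zero] at h1
  · intro h
    have h1 : uT (cuS g) ∈ UCc n 𝔠 := g12_mul (g12_mS fun p => h (Sum.inr p)) (g12_nS fun p => h (Sum.inl p))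
    rw [uT_cuS hg] at h1
    exact h1.2

/-- PROOF. `g = [[A, B], [0, D]]` unipotent, `cuS g (inr p) = D_p`, `cuS g (inl p) = (Dᵗ B)_p`, `A = D⁻ᵗ`, `B = A (Dᵗ B)`. If `g - 1` has entries in `𝔠` then so do `D - 1` and `Dᵗ B`; conversely if the coordinates are in `𝔠` then `D - 1`, `A - 1` (`D⁻¹ - 1`: inverse of a unipotent matrix, or `UCg` is closed under inverses: prove it for
`m(D)` and `n(Y)` separately, `g = uT (cuS g)`) and `B` have entries in `𝔠`. -/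
theorem uc_hasI {𝔠 : Ideal (𝓞 K)} (h𝔠 : 𝔠 ≠ ⊥) : HasI (UCg n 𝔠) (fun _ => 𝔠) :=
  ⟨fun _ => h𝔠, fun g hg => ⟨fun h => (g12_iff hg).1 h.2, fun h => ⟨hg, (g12_iff hg).2 h⟩⟩⟩

/-- PROOF. `mem_gamS`, `uc_hasI`. -/
theorem gam_hasI (h𝔫 : 𝔫 ≠ ⊥) : HasI (GammaS n 𝔫) (fun _ => 𝔫) :=
  ⟨fun _ => h𝔫, fun g hg => by
    rw [mem_gamS]
    exact g12_iff hg⟩

theorem bdl_mL {L : Submodule R (Fin n ⊕ Fin n → K)} (hL : IsSD ϖ L) : BdL ϖ (mL ϖ L) L :=
  Nat.sInf_mem (s := {m | BdL ϖ m L}) hL.la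

theorem g12_step {m : ℕ} {L : Submodule R (Fin n ⊕ Fin n → K)} (hϖ : algebraMap R K ϖ ≠ 0) (hL : BdL ϖ m L) {g : SP n K}
    (hg : ∀ i l, In R ((algebraMap R K ϖ ^ (2 * m))⁻¹ * (g.val - 1) i l)) {x : Fin n ⊕ Fin n → K} (hx : x ∈ L) : g.val *ᵥ x ∈ L := by
  choose w hw using hg
  have hy := hL.2 x hx
  have hy' : ∀ i, In R ((ϖ ^ m • x) i) := hy
  choose y hy2 using hy'
  have e1 : g.val *ᵥ x = x + ϖ ^ m • fun i => ∑ l, algebraMap R K (w i l * y l) := by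
    have e2 : g.val *ᵥ x = x + (g.val - 1) *ᵥ x := by
      rw [Matrix.sub_mulVec, Matrix.one_mulVec, add_sub_cancel]
    rw [e2]
    congr 1
    funext i
    rw [Matrix.mulVec, dotProduct, Pi.smul_apply, Algebra.smul_def, map_pow, Finset.mul_sum]
    refine Finset.sum_congr rfl fun l _ => ?_
    rw [map_mul, hw, hy2, Pi.smul_apply, Algebra.smul_def, map_pow]
    have h2 : algebraMap R K ϖ ^ (2 * m) = algebraMap R K ϖ ^ m * algebraMap R K ϖ ^ m := by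
      rw [← pow_add, two_mul]
    rw [h2]
    field_simp
  rw [e1]
  refine add_mem hx (hL.1 _ fun i => ⟨∑ l, w i l * y l, ?_⟩)
  rw [map_sum]

theorem g12_invR {c : K} {g : SP n K} (hg : ∀ i l, In R (c * (g.val - 1) i l)) (i l : Fin n ⊕ Fin n) :
    In R (c * (g⁻¹.val - 1) i l) := by
  have hadd : ∀ {a b : K}, In R (c * a) → In R (c * b) → In R (c * (a + b)) := by
    rintro a b ⟨r, hr⟩ ⟨s, hs⟩
    exact ⟨r + s, by rw [map_add, hr, hs, mul_add]⟩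
  have hneg : ∀ {a : K}, In R (c * a) → In R (c * -a) := by
    rintro a ⟨r, hr⟩
    exact ⟨-r, by rw [map_neg, hr, mul_neg]⟩
  have h0 : In R (c * (0 : K)) := ⟨0, by rw [map_zero, mul_zero]⟩
  have hsum : ∀ (f : Fin n ⊕ Fin n → K), (∀ i, In R (c * f i)) → In R (c * ∑ i, f i) := by
    intro f hf
    refine Finset.sum_induction f (fun z => In R (c * z)) (fun a b => hadd) h0 fun i _ => hf i
  have e : g⁻¹.val - 1 = -(Matrix.J (Fin n) K * (g.val - 1)ᵀ * Matrix.J (Fin n) K) := by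
    rw [SP.val_inv, Matrix.transpose_sub, Matrix.transpose_one, Matrix.mul_sub, Matrix.sub_mul, Matrix.mul_one, Matrix.J_squared]
    abel
  have hJ : ∀ a b, Matrix.J (Fin n) K a b = 0 ∨ Matrix.J (Fin n) K a b = 1 ∨ Matrix.J (Fin n) K a b = -1 := by
    rintro (a | a) (b | b) <;> by_cases hab : a = b <;> simp [Matrix.J, hab]
  have hm : ∀ {a z : K}, (a = 0 ∨ a = 1 ∨ a = -1) → In R (c * z) → In R (c * (a * z)) := by
    rintro a z (rfl | rfl | rfl) hz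
    · rw [zero_mul]
      exact h0
    · rwa [one_mul]
    · rw [neg_one_mul]
      exact hneg hz
  rw [e, Matrix.neg_apply]
  refine hneg ?_
  rw [Matrix.mul_apply, Finset.sum_congr rfl fun d _ => mul_comm _ _]
  have h1 : ∀ d, In R (c * (Matrix.J (Fin n) K * (g.val - 1)ᵀ : Matrix (Fin n ⊕ Fin n) (Fin n ⊕ Fin n) K) i d) := by
    intro d
    rw [Matrix.mul_apply]
    exact hsum _ fun b => hm (hJ _ _) (hg _ _)
  exact hsum _ fun d => hm (hJ _ _) (h1 d)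

/-- PROOF. For `x ∈ L`: `(g - 1) x = (g - 1) ϖ ^ (-m) (ϖ ^ m x)`, `ϖ ^ m x ∈ St2`, `(g - 1) ϖ ^ (-m) ∈ ϖ ^ m R`, so `(g - 1) x ∈ ϖ ^ m St2 ⊆ L`; the same for `g⁻¹`. -/
theorem g12_small (h : LF R K ϖ (Ideal.absNorm v.asIdeal)) {m : ℕ} {L : Submodule R (Fin n ⊕ Fin n → K)} (hL : BdL ϖ m L) {g : SP n K}
    (hg : ∀ i l, In R ((algebraMap R K ϖ ^ (2 * m))⁻¹ * (g.val - 1) i l)) : ac g.val L = L := by
  have hϖ : algebraMap R K ϖ ≠ 0 := by
    intro h0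
    rw [← map_zero (algebraMap R K)] at h0
    exact h.dv.irr.ne_zero (h.inj h0)
  have hgi := g12_invR hg
  apply le_antisymm
  · rintro _ ⟨y, hy, rfl⟩
    exact g12_step hϖ hL hg hy
  · intro x hx
    refine ⟨g⁻¹.val *ᵥ x, g12_step hϖ hL hgi hx, ?_⟩
    show g.val *ᵥ (g⁻¹.val *ᵥ x) = x
    rw [Matrix.mulVec_mulVec, ← SP.val_mul, mul_inv_cancel, SP.val_one, Matrix.one_mulVec]

theorem uc_le (h : Loc v R ϖ) {m : ℕ} {L : Submodule R (Fin n ⊕ Fin n → K)} (hL : BdL ϖ m L) : UCg n (𝔫 * v.asIdeal ^ (2 * m)) ≤ StG n 𝔫 v L := by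
  intro g hg
  have h1 : ∀ i l, In R ((algebraMap R K ϖ ^ (2 * m))⁻¹ * (g.val - 1) i l) ∧ InI 𝔫 ((g.val - 1) i l) := fun i l =>
    g1_Rk h (hg.2 i l)
  exact ⟨⟨0, fun i l => g1_of 0 (h1 i l).2⟩, g12_small (lf_of_loc h) hL fun i l => (h1 i l).1⟩

end

end Pool.Agent.Lib.H67G
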