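import Pool.Agent.Lib.H67G.V4B
import Pool.Agent.Lib.H67G.E0

/-!
# G13 (M): the Whittaker mean does not depend on the group
-/

namespace Pool.Agent.Lib.H67G

open MeasureTheory Matrix NumberField IsDedekindDomain Pool.Agent.Lib.H89N Pool.Agent.Lib.H33W
open scoped ENNReal Pointwise

noncomputable section

set_option linter.unusedSectionVars false

variable {n : ℕ} {K : Type} [Field K] [NumberField K]

variable {𝔫 : Ideal (𝓞 K)} [NeZero n] {Γ Γ' : Subgroup (SP n K)} {𝔡 𝔡' : TI n → Ideal (𝓞 K)} {θ₀ : EE K →ₗ[ℝ] ℝ} {θ : Fin n → (EE K →ₗ[ℝ] ℝ)}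

theorem g13_inI {I J : Ideal (𝓞 K)} {z : K} : InI (I ⊓ J) z ↔ InI I z ∧ InI J z := by
  constructor
  · rintro ⟨y, hy, e⟩
    exact ⟨⟨y, hy.1, e⟩, ⟨y, hy.2, e⟩⟩
  · rintro ⟨⟨y, hy, e⟩, ⟨y', hy', e'⟩⟩
    have h : y = y' := NumberField.RingOfIntegers.ext (e.symm.trans e')
    exact ⟨y, ⟨hy, h ▸ hy'⟩, e⟩

theorem g13_hasI (hI : HasI Γ 𝔡) (hI' : HasI Γ' 𝔡') : HasI (Γ ⊓ Γ') (fun p => 𝔡 p ⊓ 𝔡' p) := by
  refine ⟨fun p h => ?_, fun g hg => ?_⟩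
  · have h1 : 𝔡 p * 𝔡' p = ⊥ := le_bot_iff.1 (h ▸ Ideal.mul_le_inf)
    rcases Ideal.mul_eq_bot.1 h1 with h2 | h2
    · exact hI.ne p h2
    · exact hI'.ne p h2
  · rw [Subgroup.mem_inf, hI.iff g hg, hI'.iff g hg, ← forall_and]
    exact forall_congr' fun p => g13_inI.symm

theorem g13_conj {G X : Type} [Group G] [MulAction G X] [MeasurableSpace X] {Γ : Subgroup G} {S : Set X} (hS : SF Γ S)
    (u : G) (hm : Measurable fun x : X => u • x) :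
    SF (Γ.comap (MulAut.conj u).toMonoidHom) ((fun x : X => u • x) ⁻¹' S) := by
  have hmem : ∀ δ : G, δ ∈ Γ.comap (MulAut.conj u).toMonoidHom ↔ u * δ * u⁻¹ ∈ Γ := fun δ => Iff.rfl
  refine ⟨hm hS.meas, fun x => ?_⟩
  obtain ⟨g, hg, hu⟩ := hS.fd (u • x)
  have hg' : (g : G) • u • x ∈ S := hg
  refine ⟨⟨u⁻¹ * g * u, ?_⟩, ?_, ?_⟩
  · rw [hmem]
    have e : u * (u⁻¹ * (g : G) * u) * u⁻¹ = g := by group
    rw [e]
    exact g.2
  · show u • ((u⁻¹ * (g : G) * u) • x) ∈ S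
    rw [← mul_smul]
    have e : u * (u⁻¹ * (g : G) * u) = g * u := by group
    rw [e, mul_smul]
    exact hg'
  · rintro ⟨δ, hδ⟩ h
    have h1 : u • (δ • x) ∈ S := h
    rw [hmem] at hδ
    have h2 : (⟨u * δ * u⁻¹, hδ⟩ : Γ) = g := by
      refine hu _ ?_
      show (u * δ * u⁻¹) • (u • x) ∈ S
      rw [← mul_smul]
      have e : u * δ * u⁻¹ * u = u * δ := by group
      rw [e, mul_smul]
      exact h1
    apply Subtype.ext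
    show δ = u⁻¹ * g * u
    rw [← h2]
    group

/-- The action of an element as an equivalence. -/
def g13E (g : UGS n K) : (TI n → EE K) ≃ᵐ (TI n → EE K) where
  toFun t := g • t
  invFun t := g⁻¹ • t
  left_inv t := inv_smul_smul g t
  right_inv t := smul_inv_smul g t
  measurable_toFun := (ut_mp g).measurable
  measurable_invFun := (ut_mp g⁻¹).measurable

/-- PROOF. `Γ ⊓ Γ'` has the ideals `𝔡 p ⊓ 𝔡' p` (nonzero: they contain the products). `t ↦ h(uT t x) ee(-chS t)` is invariant under `Γ ∩ U` and under `Γ' ∩ U` (`wh_int`), continuous. `H33W.u2_mean` (with `ut_mp`, `sf_LB`, `LB_pos`, `LB_top`) for the subgroup `Γ ⊓ Γ'` of `Γ` and of `Γ'`. -/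
theorem mn_indep (hI : HasI Γ 𝔡) (hI' : HasI Γ' 𝔡') (hc : ChI 𝔫 θ₀ θ) (h𝔡 : ∀ p, 𝔡 p ≤ 𝔫) (h𝔡' : ∀ p, 𝔡' p ≤ 𝔫) {h : SP n (EE K) → ℂ}
    (hh : Continuous h) (ih : ∀ γ ∈ Γ, ∀ x, h (embS γ * x) = h x) (ih' : ∀ γ ∈ Γ', ∀ x, h (embS γ * x) = h x) (x : SP n (EE K)) :
    MnS 𝔡 θ₀ θ h x = MnS 𝔡' θ₀ θ h x := by
  have hI2 := g13_hasI hI hI'
  have mH := (v4b_H θ₀ θ hh x).measurable
  have e1 : ⨍ t in LB (fun p => 𝔡 p ⊓ 𝔡' p), h (uT t * x) * ee (-chS θ₀ θ t) =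
      ⨍ t in LB 𝔡, h (uT t * x) * ee (-chS θ₀ θ t) := by
    refine u2_mean (H := UGS n K) ut_mp (G := Γ.subgroupOf (UGS n K)) (G' := (Γ ⊓ Γ').subgroupOf (UGS n K)) ?_ (sf_LB hI) (sf_LB hI2)
      (LB_pos hI.ne) (LB_top hI2.ne) mH ?_
    · intro g hg
      exact Subgroup.mem_subgroupOf.2 (Subgroup.mem_subgroupOf.1 hg).1
    · intro g hg t
      exact wh_int θ₀ θ hI hc h𝔡 ih x g hg t
  have e2 : ⨍ t in LB (fun p => 𝔡 p ⊓ 𝔡' p), h (uT t * x) * ee (-chS θ₀ θ t) =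
      ⨍ t in LB 𝔡', h (uT t * x) * ee (-chS θ₀ θ t) := by
    refine u2_mean (H := UGS n K) ut_mp (G := Γ'.subgroupOf (UGS n K)) (G' := (Γ ⊓ Γ').subgroupOf (UGS n K)) ?_ (sf_LB hI') (sf_LB hI2)
      (LB_pos hI'.ne) (LB_top hI2.ne) mH ?_
    · intro g hg
      exact Subgroup.mem_subgroupOf.2 (Subgroup.mem_subgroupOf.1 hg).2
    · intro g hg t
      exact wh_int θ₀ θ hI' hc h𝔡' ih' x g hg t
  unfold MnS
  rw [← e1, e2]

/-- PROOF. Let `H(s) = h(uT s x) ee(-chS s)`. For `s = lT (embS u⁻¹) t`: `uT s = embS u⁻¹ uT t`, `chS s = chS t - chS (cuS (embS u))` (`chS_lT`, `chS_inv`), so `h(embS u⁻¹ uT t x) ee(-chS t) = ee(-chS (cuS (embS u))) H(s)`. `D = lT (embS u⁻¹) '' LB 𝔡'` (preimage under `lT (embS u)`) is a fundamental domain of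
`Δ = u⁻¹ (Γ' ∩ U) u ≤ Γ ∩ U`, with the volume of `LB 𝔡'` (`lT_mp`), so the mean of `H` over `D` is the mean over `LB 𝔡` (`H33W.u2_mean`). -/
theorem mn_shift (hI : HasI Γ 𝔡) (hI' : HasI Γ' 𝔡') (hc : ChI 𝔫 θ₀ θ) (h𝔡 : ∀ p, 𝔡 p ≤ 𝔫) {h : SP n (EE K) → ℂ}
    (hh : Continuous h) (ih : ∀ γ ∈ Γ, ∀ x, h (embS γ * x) = h x) {u : SP n K} (hu : IsUS u) (hΓ : ∀ γ ∈ Γ', IsUS γ → u⁻¹ * γ * u ∈ Γ) (x : SP n (EE K)) :
    MnS 𝔡' θ₀ θ (fun y => h (embS u⁻¹ * y)) x = ee (-chS θ₀ θ (cuS (embS u))) * MnS 𝔡 θ₀ θ h x := by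
  set w : UGS n K := ⟨u, hu⟩ with hw
  set Φ : (TI n → EE K) → ℂ := fun t => h (uT t * x) * ee (-chS θ₀ θ t) with hΦ
  have hpt : ∀ t : TI n → EE K, h (embS u⁻¹ * (uT t * x)) * ee (-chS θ₀ θ t) =
      ee (-chS θ₀ θ (cuS (embS u))) * Φ (w⁻¹ • t) := by
    intro t
    have h1 : uT (w⁻¹ • t) = embS u⁻¹ * uT t := uT_smul w⁻¹ t
    have h2 : chS θ₀ θ (w⁻¹ • t) = -chS θ₀ θ (cuS (embS u)) + chS θ₀ θ t := by
      have h3 : chS θ₀ θ (w⁻¹ • t) = chS θ₀ θ (cuS (embS u⁻¹)) + chS θ₀ θ t :=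
        chS_lT θ₀ θ (isUS_emb.2 (isUS_inv hu)) t
      rw [h3, map_inv, chS_inv θ₀ θ (isUS_emb.2 hu)]
    have h4 : ee (-chS θ₀ θ (cuS (embS u))) * ee (-(-chS θ₀ θ (cuS (embS u)) + chS θ₀ θ t)) = ee (-chS θ₀ θ t) := by
      rw [← ee_add]
      congr 1
      ring
    show _ = ee (-chS θ₀ θ (cuS (embS u))) * (h (uT (w⁻¹ • t) * x) * ee (-chS θ₀ θ (w⁻¹ • t)))
    rw [h1, h2, ← h4, mul_assoc]
    ring
  have hD := g13_conj (sf_LB hI') w (ut_mp w).measurable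
  have hvol : volume ((fun t : TI n → EE K => w • t) ⁻¹' LB 𝔡') = volume (LB 𝔡') :=
    (ut_mp w).measure_preimage (sf_LB hI').meas.nullMeasurableSet
  have hpre : LB 𝔡' = (fun t : TI n → EE K => w⁻¹ • t) ⁻¹' ((fun t : TI n → EE K => w • t) ⁻¹' LB 𝔡') := by
    ext t
    show t ∈ LB 𝔡' ↔ w • (w⁻¹ • t) ∈ LB 𝔡'
    rw [smul_inv_smul]
  have hint : ∫ t in LB 𝔡', Φ (w⁻¹ • t) = ∫ t in (fun t : TI n → EE K => w • t) ⁻¹' LB 𝔡', Φ t := by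
    have h4 := (ut_mp w⁻¹).setIntegral_preimage_emb (g13E (n := n) (K := K) w⁻¹).measurableEmbedding Φ
      ((fun t : TI n → EE K => w • t) ⁻¹' LB 𝔡')
    rw [← hpre] at h4
    exact h4
  have hmean : ⨍ t in (fun t : TI n → EE K => w • t) ⁻¹' LB 𝔡', Φ t = ⨍ t in LB 𝔡, Φ t := by
    refine u2_mean (H := UGS n K) ut_mp (G := Γ.subgroupOf (UGS n K)) ?_ (sf_LB hI) hD (LB_pos hI.ne) ?_
      (v4b_H θ₀ θ hh x).measurable ?_
    · intro δ hδ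
      have h1 : w * δ * w⁻¹ ∈ Γ'.subgroupOf (UGS n K) := hδ
      have h2 := hΓ _ (Subgroup.mem_subgroupOf.1 h1) (w * δ * w⁻¹).2
      rw [Subgroup.mem_subgroupOf]
      have e : u⁻¹ * ((w * δ * w⁻¹ : UGS n K) : SP n K) * u = (δ : SP n K) := by
        rw [Subgroup.coe_mul, Subgroup.coe_mul, Subgroup.coe_inv]
        show u⁻¹ * (u * (δ : SP n K) * u⁻¹) * u = _
        group
      rw [e] at h2
      exact h2
    · rw [hvol]
      exact LB_top hI'.ne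
    · intro g hg t
      exact wh_int θ₀ θ hI hc h𝔡 ih x g hg t
  unfold MnS
  simp_rw [hpt]
  rw [← hmean, setAverage_eq, setAverage_eq, integral_const_mul, hint, measureReal_def, measureReal_def, hvol, mul_smul_comm]

end

end Pool.Agent.Lib.H67G
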