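import Pool.Agent.Lib.H67G.G13
import Pool.Agent.Lib.H67G.G12
import Pool.Agent.Lib.H33W.U6

/-!
# G14 (M): the Whittaker coefficient as a mean
-/

namespace Pool.Agent.Lib.H67G

open MeasureTheory Matrix NumberField IsDedekindDomain Pool.Agent.Lib.H89N Pool.Agent.Lib.H33W
open scoped ENNReal Pointwise

noncomputable section

set_option linter.unusedSectionVars false

variable {n : ℕ} {K : Type} [Field K] [NumberField K] {v : HeightOneSpectrum (𝓞 K)} {R : Type} [CommRing R] [IsDomain R]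
  [IsDiscreteValuationRing R] [Algebra R K] {ϖ : R} {𝔫 𝔪 : Ideal (𝓞 K)}

variable [NeZero n] {Γ : Subgroup (SP n K)} {𝔡 : TI n → Ideal (𝓞 K)} {θ₀ : EE K →ₗ[ℝ] ℝ} {θ : Fin n → (EE K →ₗ[ℝ] ℝ)}

/-- PROOF. `N • BoxS = {t | ∀ p, t p ∈ N • FD K}` is a fundamental domain of `UCg n (span {N})` (`sf_box`, `uc_hasI`, `H33W.u6_ld`), so `WhS N = MnS (fun _ => span {N})` (`H33W.u6_avg`, compare `H33W.uw_top`; `mean_box` and the volumes: `H33W.u2_vol`), and then `mn_indep` (`span {N} ≤ 𝔡 p`; `h` is invariant under `UCg n (span {N}) ≤ Γ`,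
by `hI.iff`). -/
theorem wh_eq (hI : HasI Γ 𝔡) (hc : ChI 𝔫 θ₀ θ) (h𝔡 : ∀ p, 𝔡 p ≤ 𝔫) {h : SP n (EE K) → ℂ} (hh : Continuous h)
    (ih : ∀ γ ∈ Γ, ∀ x, h (embS γ * x) = h x) {N : ℕ} (hN : N ≠ 0) (hNN : ∀ p, (N : 𝓞 K) ∈ 𝔡 p) (x : SP n (EE K)) :
    WhS N θ₀ θ h x = MnS 𝔡 θ₀ θ h x := by
  have hN' : (N : ℝ) ≠ 0 := Nat.cast_ne_zero.2 hN
  set Φ : (TI n → EE K) → ℂ := fun t => h (uT t * x) * ee (-chS θ₀ θ t) with hΦ
  have e1 : WhS N θ₀ θ h x = ⨍ t in BoxS n K, Φ ((N : ℝ) • t) := by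
    unfold WhS
    have e : ∀ t : TI n → EE K, (fun p => (N : EE K) * t p) = (N : ℝ) • t := by
      intro t
      funext p
      rw [Pi.smul_apply, ← nsmul_eq_mul, ← Nat.cast_smul_eq_nsmul ℝ]
    simp_rw [e, hΦ]
  have e2 : (N : ℝ) • BoxS n K = {t : TI n → EE K | ∀ p, t p ∈ (fun _ : TI n => (N : ℝ) • FD K) p} := by
    ext t
    rw [Set.mem_smul_set_iff_inv_smul_mem₀ hN']
    show (∀ p, ((N : ℝ)⁻¹ • t) p ∈ FD K) ↔ ∀ p, t p ∈ (N : ℝ) • FD K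
    refine forall_congr' fun p => ?_
    rw [Set.mem_smul_set_iff_inv_smul_mem₀ hN']
    rfl
  have hs0 : Ideal.span {(N : 𝓞 K)} ≠ ⊥ := by
    rw [Ne, Ideal.span_singleton_eq_bot]
    exact Nat.cast_ne_zero.2 hN
  have hIN := uc_hasI (n := n) hs0
  have hD := sf_box hIN (fun _ => (N : ℝ) • FD K) fun _ => u6_ld N hN
  rw [e1, u6_avg hN', e2]
  refine u2_mean (H := UGS n K) ut_mp (G := Γ.subgroupOf (UGS n K)) ?_ (sf_LB hI) hD (LB_pos hI.ne) ?_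
    (v4b_H θ₀ θ hh x).measurable ?_
  · intro g hg
    rw [Subgroup.mem_subgroupOf] at hg ⊢
    rw [hIN.iff _ g.2] at hg
    rw [hI.iff _ g.2]
    intro p
    obtain ⟨y, hy, e⟩ := hg p
    exact ⟨y, (Ideal.span_singleton_le_iff_mem _).2 (hNN p) hy, e⟩
  · rw [vol_box]
    exact (ENNReal.prod_lt_top fun p _ => (u6_ld N hN).bdd.measure_lt_top).ne
  · intro g hg t
    exact wh_int θ₀ θ hI hc h𝔡 ih x g hg t

/-- Linearity of the mean. PROOF. Continuous functions on a bounded set of finite measure (`LB_bdd`, `LB_top`; `uT_cont`, `chS_cont`; compare `H33W.mn_sum`). -/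
theorem mn_lin (h𝔡 : ∀ p, 𝔡 p ≠ ⊥) {ι : Type} (s : Finset ι) (c : ι → ℂ) {F : ι → SP n (EE K) → ℂ} (hF : ∀ i ∈ s, Continuous (F i)) (x : SP n (EE K)) :
    MnS 𝔡 θ₀ θ (fun y => ∑ i ∈ s, c i * F i y) x = ∑ i ∈ s, c i * MnS 𝔡 θ₀ θ (F i) x := by
  unfold MnS
  simp_rw [setAverage_eq]
  have e1 : ∀ t : TI n → EE K, (∑ i ∈ s, c i * F i (uT t * x)) * ee (-chS θ₀ θ t) =
      ∑ i ∈ s, c i * (F i (uT t * x) * ee (-chS θ₀ θ t)) := by
    intro t
    rw [Finset.sum_mul]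
    exact Finset.sum_congr rfl fun i _ => mul_assoc _ _ _
  simp_rw [e1]
  rw [integral_finsetSum, Finset.smul_sum]
  · refine Finset.sum_congr rfl fun i _ => ?_
    rw [integral_const_mul, mul_smul_comm]
  · intro i hi
    refine Integrable.const_mul ?_ _
    exact ((v4b_H θ₀ θ (hF i hi) x).continuousOn.integrableOn_compact
      (LB_bdd h𝔡).isCompact_closure).mono_set subset_closure

end

end Pool.Agent.Lib.H67G
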