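import Pool.Agent.Lib.H67G.G14
import Pool.Agent.Lib.H67G.G10

/-!
# G16 (M): the Whittaker function on the lattices
-/

namespace Pool.Agent.Lib.H67G

open MeasureTheory Matrix NumberField IsDedekindDomain Pool.Agent.Lib.H89N Pool.Agent.Lib.H33W
open scoped ENNReal Pointwise

noncomputable section

set_option linter.unusedSectionVars false

variable {n : ℕ} {K : Type} [Field K] [NumberField K] {v : HeightOneSpectrum (𝓞 K)} {R : Type} [CommRing R] [IsDomain R]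
  [IsDiscreteValuationRing R] [Algebra R K] {ϖ : R} {𝔫 𝔪 : Ideal (𝓞 K)}

variable [NeZero n] {θ₀ : EE K →ₗ[ℝ] ℝ} {θ : Fin n → (EE K →ₗ[ℝ] ℝ)} {f : SP n (EE K) → ℂ} {L : Submodule R (Fin n ⊕ Fin n → K)}

theorem chi_of_chrS (H : ChrS 𝔫 v θ₀ θ) : ChI 𝔫 θ₀ θ := ⟨H.int0, fun j hj z hz => H.chr.int j hj z hz⟩

theorem ne_bot_of (hv : ¬𝔫 ≤ v.asIdeal) : 𝔫 ≠ ⊥ := fun h => hv (h ▸ bot_le)

theorem g16_le {𝔞 𝔟 : Ideal (𝓞 K)} : 𝔞 * 𝔟 ≤ 𝔞 := Ideal.mul_le_left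

theorem g16_ne (hv : ¬𝔫 ≤ v.asIdeal) (k : ℕ) : 𝔫 * v.asIdeal ^ k ≠ ⊥ :=
  mul_ne_zero (ne_bot_of hv) (pow_ne_zero _ v.ne_bot)

/-- PROOF. `mn_indep` for `Γ'` and `UCg n (𝔫 v ^ (2 m))`, `m = mL ϖ L` (`uc_hasI`, `uc_le`, `bdl_mL`), `ft_inv`, `ft_cont`. -/
theorem fw_eq (h : Loc v R ϖ) (hv : ¬𝔫 ≤ v.asIdeal) (hc : ChI 𝔫 θ₀ θ) (cf : Continuous f) (hf : ∀ γ ∈ GammaS n 𝔫, ∀ x, f (embS γ * x) = f x)
    (hL : IsSD ϖ L) {Γ' : Subgroup (SP n K)} {𝔡' : TI n → Ideal (𝓞 K)} (hI' : HasI Γ' 𝔡') (h𝔡' : ∀ p, 𝔡' p ≤ 𝔫) (hΓ' : Γ' ≤ StG n 𝔫 v L) (x : SP n (EE K)) :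
    MnS 𝔡' θ₀ θ (ftS 𝔫 v f L) x = FW 𝔫 v ϖ θ₀ θ f x L := by
  unfold FW
  exact mn_indep hI' (uc_hasI (g16_ne hv _)) hc h𝔡' (fun _ => g16_le) (ft_cont cf L)
    (fun γ hγ y => ft_inv h hv hf hL (hΓ' hγ) y)
    (fun γ hγ y => ft_inv h hv hf hL (uc_le h (bdl_mL hL) hγ) y) x

/-- PROOF. `fw_eq` with `Γ' = GammaS n 𝔫` (`gam_hasI`, `g5_st`), `ft_St`, `wh_eq` (`Ideal.absNorm_mem`). -/
theorem fw_St (h : Loc v R ϖ) (hv : ¬𝔫 ≤ v.asIdeal) (hc : ChI 𝔫 θ₀ θ) (cf : Continuous f) (hf : ∀ γ ∈ GammaS n 𝔫, ∀ x, f (embS γ * x) = f x)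
    (x : SP n (EE K)) : FW 𝔫 v ϖ θ₀ θ f x (St2 R K n) = WhS (Ideal.absNorm 𝔫) θ₀ θ f x := by
  have hn : 𝔫 ≠ ⊥ := ne_bot_of hv
  rw [← fw_eq h hv hc cf hf g5_sdSt (gam_hasI hn) (fun _ => le_rfl)
    (fun γ hγ => ⟨gam_HS hγ, (g5_st h hv (gam_HS hγ)).2 hγ⟩) x, ft_St h hv hf]
  refine (wh_eq (gam_hasI hn) hc (fun _ => le_rfl) cf hf ?_ (fun _ => Ideal.absNorm_mem 𝔫) x).symm
  rw [Ne, Ideal.absNorm_eq_zero_iff]
  exact hn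

theorem g16_den {𝔞 : Ideal (𝓞 K)} {J : ℕ} {z a : K} (hz : InI (𝔞 * v.asIdeal ^ J) z) (ha : Den ⊤ v J a) : InI 𝔞 (z * a) := by
  obtain ⟨y, hy, rfl⟩ := hz
  refine Submodule.mul_induction_on (C := fun y : 𝓞 K => InI 𝔞 ((y : K) * a)) hy (fun p hp q hq => ?_) (fun p q hp hq => ?_)
  · obtain ⟨w, -, hw⟩ := ha q hq
    refine ⟨p * w, Ideal.mul_mem_right _ _ hp, ?_⟩
    push_cast
    rw [mul_assoc, hw]
  · have e : (((p + q : 𝓞 K)) : K) * a = (p : K) * a + (q : K) * a := by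
      push_cast
      ring
    rw [e]
    exact ini_add hp hq

theorem g16_ent {u : SP n K} {j : ℕ} (hu : ∀ i l, Den 𝔫 v j ((u.val - 1) i l)) (i l : Fin n ⊕ Fin n) : Den ⊤ v j (u.val i l) := by
  have e : u.val i l = (u.val - 1) i l + (1 : Matrix (Fin n ⊕ Fin n) (Fin n ⊕ Fin n) K) i l := by
    rw [Matrix.sub_apply]
    ring
  rw [e]
  refine ((hu i l).le le_top).add ?_
  rw [Matrix.one_apply]
  split_ifs
  · have := Den.of_int (v := v) (𝔫 := (⊤ : Ideal (𝓞 K))) (a := 1) trivial j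
    simpa using this
  · exact Den.zero

theorem g16_conj {s a b : ℕ} {u u' g : Matrix (Fin n ⊕ Fin n) (Fin n ⊕ Fin n) K} (hu : ∀ i l, Den ⊤ v a (u i l))
    (hu' : ∀ i l, Den ⊤ v b (u' i l)) (hg : ∀ i l, InI (𝔫 * v.asIdeal ^ (s + a + b)) (g i l)) (i l : Fin n ⊕ Fin n) :
    InI (𝔫 * v.asIdeal ^ s) ((u * g * u') i l) := by
  rw [Matrix.mul_apply]
  refine ini_sum _ fun c _ => ?_
  have h1 : InI (𝔫 * v.asIdeal ^ s * v.asIdeal ^ b) ((u * g) i c) := by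
    rw [Matrix.mul_apply]
    refine ini_sum _ fun d _ => ?_
    rw [mul_comm (u i d)]
    refine g16_den (J := a) ?_ (hu i d)
    have e : 𝔫 * v.asIdeal ^ s * v.asIdeal ^ b * v.asIdeal ^ a = 𝔫 * v.asIdeal ^ (s + a + b) := by
      rw [pow_add, pow_add]
      ring
    rw [e]
    exact hg d c
  exact g16_den h1 (hu' c l)

/-- PROOF. `ftS f (ac u L) y = ftS f L (u⁻¹ y)` (`ft_act`). `FW (ac u L) = MnS (fun _ => 𝔫 v ^ (2 m')) (ftS f (ac u L)) x` for every large `m'` (`fw_eq`, `uc_le`; `BdL` is monotone in `m`). The entries of `u`, `u⁻¹` have denominators in `v ^ j`, so for `m' ≥ m + j` (`m = mL ϖ L`) and `γ ∈ UCg n (𝔫 v ^ (2 m'))`: `u⁻¹ γ u - 1 = u⁻¹ (γ - 1) u`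
has entries in `𝔫 v ^ (2 m)`; `mn_shift` with `Γ = UCg n (𝔫 v ^ (2 m))`, `Γ' = UCg n (𝔫 v ^ (2 m'))`. -/
theorem fw_u (h : Loc v R ϖ) (hv : ¬𝔫 ≤ v.asIdeal) (hc : ChI 𝔫 θ₀ θ) (cf : Continuous f) (hf : ∀ γ ∈ GammaS n 𝔫, ∀ x, f (embS γ * x) = f x)
    (hL : IsSD ϖ L) {u : SP n K} (hu : IsUS u) (hu' : u ∈ HSg n 𝔫 v) (x : SP n (EE K)) :
    FW 𝔫 v ϖ θ₀ θ f x (ac u.val L) = ee (-chS θ₀ θ (cuS (embS u))) * FW 𝔫 v ϖ θ₀ θ f x L := by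
  have hlf := lf_of_loc h
  have hL' : IsSD ϖ (ac u.val L) := g5_sd hlf u hL
  obtain ⟨a, ha⟩ := (inv_mem hu' : u⁻¹ ∈ HSg n 𝔫 v)
  obtain ⟨b, hb⟩ := hu'
  have hu'' : u ∈ HSg n 𝔫 v := ⟨b, hb⟩
  set m := mL ϖ L with hm
  set m' := mL ϖ (ac u.val L) with hm'
  set M := 2 * m + a + b + 2 * m' with hM
  have hle : UCg n (𝔫 * v.asIdeal ^ M) ≤ UCg n (𝔫 * v.asIdeal ^ (2 * m')) := by
    rintro γ ⟨h1, h2⟩
    refine ⟨h1, fun i l => ?_⟩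
    obtain ⟨y, hy, hy'⟩ := h2 i l
    exact ⟨y, Ideal.mul_mono_right (Ideal.pow_le_pow_right (by omega)) hy, hy'⟩
  have hft : ftS 𝔫 v f (ac u.val L) = fun y => ftS 𝔫 v f L (embS u⁻¹ * y) := by
    funext y
    rw [← ft_act h hv hf hL hu'' (embS u⁻¹ * y), ← mul_assoc, ← map_mul, mul_inv_cancel, map_one, one_mul]
  rw [← fw_eq h hv hc cf hf hL' (uc_hasI (g16_ne hv M)) (fun _ => g16_le)
    (hle.trans (uc_le h (bdl_mL hL'))) x, hft]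
  refine mn_shift (uc_hasI (g16_ne hv _)) (uc_hasI (g16_ne hv M)) hc (fun _ => g16_le) (ft_cont cf L)
    (fun γ hγ y => ft_inv h hv hf hL (uc_le h (bdl_mL hL) hγ) y) hu (fun γ hγ hγ' => ?_) x
  refine ⟨isUS_mul (isUS_mul (isUS_inv hu) hγ') hu, fun i l => ?_⟩
  have e : (u⁻¹ * γ * u).val - 1 = u⁻¹.val * (γ.val - 1) * u.val := by
    rw [SP.val_mul, SP.val_mul, Matrix.mul_sub, Matrix.sub_mul, Matrix.mul_one, ← SP.val_mul u⁻¹ u, inv_mul_cancel, SP.val_one]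
  rw [e]
  refine g16_conj (s := 2 * m) (g16_ent ha) (g16_ent hb) (fun c d => ?_) i l
  obtain ⟨y, hy, hy'⟩ := hγ.2 c d
  exact ⟨y, Ideal.mul_mono_right (Ideal.pow_le_pow_right (by omega)) hy, hy'⟩

end

end Pool.Agent.Lib.H67G
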