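import Pool.Agent.Lib.H67G.G3

/-!
# G4 (S/M): the local characters
-/

namespace Pool.Agent.Lib.H67G

open MeasureTheory Matrix NumberField IsDedekindDomain Pool.Agent.Lib.H89N Pool.Agent.Lib.H33W
open scoped ENNReal Pointwise

noncomputable section

set_option linter.unusedSectionVars false

variable {n : ℕ} {K : Type} [Field K] [NumberField K] {v : HeightOneSpectrum (𝓞 K)} {R : Type} [CommRing R] [IsDomain R]
  [IsDiscreteValuationRing R] [Algebra R K] {ϖ : R} {𝔫 𝔪 : Ideal (𝓞 K)}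

/-- PROOF. The chosen `z''` and `z'` have `z'' - z' ∈ R`, with a denominator only at `v`, so `z'' - z' ∈ 𝔫` (`g1_in`), and `θ` is integral on `𝔫` (`ee_add`, `ee_int`). -/
theorem chl_val (h : Loc v R ϖ) (hv : ¬𝔫 ≤ v.asIdeal) {θ : EE K →ₗ[ℝ] ℝ} (hi : ∀ z ∈ 𝔫, ∃ m : ℤ, θ (mixedEmbedding K (z : K)) = m) {z z' : K}
    (hz : ∃ j, Den 𝔫 v j z') (hz' : In R (z - z')) : chl R 𝔫 v θ z = ee (-θ (mixedEmbedding K z')) := by
  obtain ⟨j, hj⟩ := hz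
  have hex : ∃ z' : K, (∃ j, Den 𝔫 v j z') ∧ In R (z - z') := ⟨z', ⟨j, hj⟩, hz'⟩
  unfold chl
  rw [dif_pos hex]
  obtain ⟨⟨j2, hj2⟩, hR2⟩ := hex.choose_spec
  obtain ⟨z2, hz2⟩ : ∃ z2, z2 = hex.choose := ⟨_, rfl⟩
  rw [← hz2] at hj2 hR2 ⊢
  have hd : Den 𝔫 v (max j j2) (z2 - z') := by
    rw [sub_eq_add_neg]
    exact (hj2.mono (le_max_right _ _)).add (g0_neg (hj.mono (le_max_left _ _)))
  have hR : In R (z2 - z') := by
    obtain ⟨a, ha⟩ := hz'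
    obtain ⟨b, hb⟩ := hR2
    exact ⟨a - b, by rw [map_sub, ha, hb]; ring⟩
  obtain ⟨y, hy, hyz⟩ := g1_in h hv hd hR
  obtain ⟨m, hm⟩ := hi y hy
  have e : -θ (mixedEmbedding K z2) = -θ (mixedEmbedding K z') + ((-m : ℤ) : ℝ) := by
    have e1 : θ (mixedEmbedding K z2) = θ (mixedEmbedding K z') + m := by
      rw [← hm, ← hyz, map_sub, map_sub]
      ring
    rw [e1]
    push_cast
    ring
  rw [e, ee_add, ee_int, mul_one]

/-- PROOF. `add`: `chl_val` with `z₁' + z₂'`; `triv`: `z' = 0`; `nt`: the `z` of `hp`: `chl z = ee(-θ(z)) ≠ 1` (`ee_eq_one`), `g1_R`. -/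
theorem chl_chl (h : Loc v R ϖ) (hv : ¬𝔫 ≤ v.asIdeal) {θ : EE K →ₗ[ℝ] ℝ} (hi : ∀ z ∈ 𝔫, ∃ m : ℤ, θ (mixedEmbedding K (z : K)) = m)
    (hp : ∃ z : K, Den 𝔫 v 1 z ∧ ∀ m : ℤ, θ (mixedEmbedding K z) ≠ m) : Chl ϖ (chl R 𝔫 v θ) := by
  refine ⟨fun x y => ?_, fun x hx => ?_, ?_⟩
  · obtain ⟨x', ⟨j, hj⟩, hx'⟩ := g3_zero h hv x
    obtain ⟨y', ⟨k, hk⟩, hy'⟩ := g3_zero h hv y
    rw [chl_val h hv hi ⟨j, hj⟩ hx', chl_val h hv hi ⟨k, hk⟩ hy',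
      chl_val h hv hi (z := x + y) (z' := x' + y')
        ⟨max j k, (hj.mono (le_max_left _ _)).add (hk.mono (le_max_right _ _))⟩ ?_,
      ← ee_add, map_add, map_add]
    · congr 1
      ring
    · obtain ⟨a, ha⟩ := hx'
      obtain ⟨b, hb⟩ := hy'
      exact ⟨a + b, by rw [map_add, ha, hb]; ring⟩
  · rw [chl_val h hv hi (z := x) (z' := 0) ⟨0, Den.zero⟩ (by rwa [sub_zero]), map_zero, map_zero,
      neg_zero, ee_zero]
  · obtain ⟨z, hz, hm⟩ := hp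
    refine ⟨z, ?_, fun h1 => ?_⟩
    · have h2 := g1_R h hz
      rwa [pow_one] at h2
    · rw [chl_val h hv hi (z := z) (z' := z) ⟨1, hz⟩ ⟨0, by rw [map_zero, sub_self]⟩] at h1
      obtain ⟨m, hm'⟩ := ee_eq_one h1
      refine hm (-m) ?_
      push_cast
      linarith

end

end Pool.Agent.Lib.H67G
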