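import Pool.Agent.Lib.H67G.G16
import Pool.Agent.Lib.H67G.G4

/-!
# G17 (M): FW is a Whittaker function
-/

namespace Pool.Agent.Lib.H67G

open MeasureTheory Matrix NumberField IsDedekindDomain Pool.Agent.Lib.H89N Pool.Agent.Lib.H33W
open scoped ENNReal Pointwise

noncomputable section

set_option linter.unusedSectionVars false

variable {n : ℕ} {K : Type} [Field K] [NumberField K] {v : HeightOneSpectrum (𝓞 K)} {R : Type} [CommRing R] [IsDomain R]
  [IsDiscreteValuationRing R] [Algebra R K] {ϖ : R} {𝔫 𝔪 : Ideal (𝓞 K)}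

variable [NeZero n] {θ₀ : EE K →ₗ[ℝ] ℝ} {θ : Fin n → (EE K →ₗ[ℝ] ℝ)} {f : SP n (EE K) → ℂ}

theorem g17_ee {ι : Type} (s : Finset ι) (f : ι → ℝ) : ee (∑ i ∈ s, f i) = ∏ i ∈ s, ee (f i) := by
  classical
  induction s using Finset.induction_on with
  | empty => simp [ee_zero]
  | insert a s ha ih => rw [Finset.sum_insert ha, Finset.prod_insert ha, ee_add, ih]

omit [NeZero n] in
/-- The inverse of a unipotent matrix with entries in a subring. -/
theorem g17_inv {S : K → Prop} (h0 : S 0) (hadd : ∀ a b, S a → S b → S (a + b)) (hneg : ∀ a, S a → S (-a))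
    (hmul : ∀ a b, S a → S b → S (a * b)) {U V : Matrix (Fin n) (Fin n) K} (hUV : U * V = 1) (hU : IsUU U)
    (hS : ∀ a l, S ((U - 1) a l)) (a l : Fin n) : S ((V - 1) a l) := by
  have e : V - 1 = -(U - 1) - (U - 1) * (V - 1) := by
    have e1 : (U - 1) * (V - 1) = U * V - U - V + 1 := by noncomm_ring
    rw [e1, hUV]
    abel
  have key : ∀ k : ℕ, ∀ a : Fin n, n - (a : ℕ) = k → ∀ l, S ((V - 1) a l) := by
    intro k
    induction k using Nat.strong_induction_on with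
    | _ k ih =>
      intro a ha l
      rw [e, Matrix.sub_apply, Matrix.neg_apply, Matrix.mul_apply, sub_eq_add_neg]
      refine hadd _ _ (hneg _ (hS a l)) (hneg _ ?_)
      refine Finset.sum_induction _ S hadd h0 fun c _ => ?_
      rcases le_or_gt c a with hc | hc
      · have e2 : (U - 1) a c = 0 := by rw [Matrix.sub_apply, hU a c hc, sub_self]
        rw [e2, zero_mul]
        exact h0
      · have hc' : (a : ℕ) < c := hc
        have hcn := c.2
        exact hmul _ _ (hS a c) (ih (n - (c : ℕ)) (by omega) c rfl l)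
  exact key _ a rfl l

omit [NeZero n] in
theorem g17_mem {u : SP n K} (h : ∀ i l, ∃ j, Den 𝔫 v j ((u.val - 1) i l)) : u ∈ HSg n 𝔫 v := by
  choose j hj using h
  refine ⟨∑ i, ∑ l, j i l, fun i l => (hj i l).mono ?_⟩
  refine (Finset.single_le_sum (f := j i) (fun _ _ => Nat.zero_le _) (Finset.mem_univ l)).trans ?_
  exact Finset.single_le_sum (f := fun i => ∑ l, j i l) (fun _ _ => Nat.zero_le _) (Finset.mem_univ i)

omit [NeZero n] in
theorem g17_nS_val (Y : SI n → K) : (nS Y).val - 1 = Matrix.fromBlocks 0 (syM Y) 0 0 := by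
  show Matrix.fromBlocks 1 (syM Y) 0 1 - 1 = _
  rw [sub_eq_iff_eq_add, ← Matrix.fromBlocks_one, Matrix.fromBlocks_add]
  simp

omit [NeZero n] in
theorem g17_mS_val (A : SLK n K) : (mS A).val - 1 = Matrix.fromBlocks ((A⁻¹.1) - 1)ᵀ 0 0 (A.1 - 1) := by
  show Matrix.fromBlocks ((A⁻¹).1)ᵀ 0 0 A.1 - 1 = _
  rw [sub_eq_iff_eq_add, ← Matrix.fromBlocks_one, Matrix.fromBlocks_add, Matrix.transpose_sub, Matrix.transpose_one]
  simp

omit [NeZero n] in
/-- Entries of `n(Y) - 1`. -/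
theorem g17_nS {S : K → Prop} (h0 : S 0) {Y : SI n → K} (hY : ∀ p, S (Y p)) (i l : Fin n ⊕ Fin n) :
    S (((nS Y).val - 1) i l) := by
  rw [g17_nS_val]
  rcases i with i | i <;> rcases l with l | l
  · exact h0
  · show S (syM Y i l)
    unfold syM
    rw [Matrix.of_apply]
    split_ifs
    · exact hY _
    · exact hY _
  · exact h0
  · exact h0

omit [NeZero n] in
/-- Entries of `m(A) - 1`, `A` unipotent. -/
theorem g17_mS {S : K → Prop} (h0 : S 0) (hadd : ∀ a b, S a → S b → S (a + b)) (hneg : ∀ a, S a → S (-a))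
    (hmul : ∀ a b, S a → S b → S (a * b)) {A : SLK n K} (hA : IsUU A.1) (hS : ∀ a l, S ((A.1 - 1) a l))
    (i l : Fin n ⊕ Fin n) : S (((mS A).val - 1) i l) := by
  have h1 : A.1 * (A⁻¹).1 = 1 := congrArg Subtype.val (mul_inv_cancel A)
  rw [g17_mS_val]
  rcases i with i | i <;> rcases l with l | l
  · exact g17_inv h0 hadd hneg hmul h1 hA hS l i
  · exact h0
  · exact h0
  · exact hS i l

omit [NeZero n] in
theorem g17_mS_mul (A B : SLK n K) : mS (A * B) = mS A * mS B := by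
  apply SP.ext
  show Matrix.fromBlocks (((A * B)⁻¹).1)ᵀ 0 0 (A * B).1 = Matrix.fromBlocks ((A⁻¹).1)ᵀ 0 0 A.1 * Matrix.fromBlocks ((B⁻¹).1)ᵀ 0 0 B.1
  rw [Matrix.fromBlocks_multiply]
  have e : ((A * B)⁻¹).1 = (B⁻¹).1 * (A⁻¹).1 := by
    rw [_root_.mul_inv_rev]
    rfl
  rw [e, Matrix.transpose_mul]
  simp

/-- PROOF. Let `m = mL ϖ L`. `nY`: approximate the entries of `Y` (on and above the diagonal) by `Y'` with denominators only at `v` modulo `ϖ ^ (2m) R` (`g3_approx`); `u = nS Y' ∈ HG ∩ U`, `nM Y = u.val * g`, `g = nS (Y - Y')` with `ac g L = L` (`g12_small`); `fw_u`: the factor is `ee(-θ₀(Y'_11)) = χ₀(Y_11)` (`chl_val`).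
`mA`: the same with `A' = 1 + (approximations of the entries above the diagonal)` modulo `ϖ ^ (2m + c) R`, `ϖ ^ c A⁻¹` integral: `A'⁻¹ A = (1 - A⁻¹ (A - A'))⁻¹`, or `A⁻¹ A' - 1 = -A⁻¹ (A - A') ∈ ϖ ^ (2m)`: `g = mG (A⁻¹ A')..` stabilises `L` (`g12_small`), `A' = A (A⁻¹ A')`, so `ac m(A') L = ac m(A) L`;
`u = m(A') ∈ HG ∩ U`, the factor is `∏ ee(-θ_i(A'_(i,i+1))) = ∏ χ_i(A_(i,i+1))`. -/
theorem wf_fw (h : Loc v R ϖ) (hv : ¬𝔫 ≤ v.asIdeal) (H : ChrS 𝔫 v θ₀ θ) (cf : Continuous f) (hf : ∀ γ ∈ GammaS n 𝔫, ∀ x, f (embS γ * x) = f x)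
    (x : SP n (EE K)) : WF ϖ (chl R 𝔫 v θ₀) (fun i => chl R 𝔫 v (θ i)) (FW 𝔫 v ϖ θ₀ θ f x) := by
  have hlf := lf_of_loc h
  have hϖ : algebraMap R K ϖ ≠ 0 := by
    intro h0
    rw [← map_zero (algebraMap R K)] at h0
    exact hlf.dv.irr.ne_zero (hlf.inj h0)
  have hc := chi_of_chrS H
  have hIn : ∀ {k : ℕ} {z : K}, In R ((algebraMap R K ϖ ^ k)⁻¹ * z) → In R z := by
    rintro k z ⟨r, hr⟩
    exact ⟨ϖ ^ k * r, by rw [map_mul, map_pow, hr, mul_inv_cancel_left₀ (pow_ne_zero k hϖ)]⟩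
  -- the two predicates
  have d0 : ∃ j, Den 𝔫 v j (0 : K) := ⟨0, Den.zero⟩
  have dadd : ∀ a b : K, (∃ j, Den 𝔫 v j a) → (∃ j, Den 𝔫 v j b) → ∃ j, Den 𝔫 v j (a + b) := by
    rintro a b ⟨j, hj⟩ ⟨j', hj'⟩
    exact ⟨j + j', (hj.mono (Nat.le_add_right _ _)).add (hj'.mono (Nat.le_add_left _ _))⟩
  have dneg : ∀ a : K, (∃ j, Den 𝔫 v j a) → ∃ j, Den 𝔫 v j (-a) := by
    rintro a ⟨j, hj⟩
    exact ⟨j, g0_neg hj⟩
  have dmul : ∀ a b : K, (∃ j, Den 𝔫 v j a) → (∃ j, Den 𝔫 v j b) → ∃ j, Den 𝔫 v j (a * b) := by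
    rintro a b ⟨j, hj⟩ ⟨j', hj'⟩
    exact ⟨j + j', (hj.mul hj').le Ideal.mul_le_left⟩
  have r0 : ∀ c : K, In R (c * (0 : K)) := fun c => ⟨0, by rw [map_zero, mul_zero]⟩
  have radd : ∀ c a b : K, In R (c * a) → In R (c * b) → In R (c * (a + b)) := by
    rintro c a b ⟨r, hr⟩ ⟨s, hs⟩
    exact ⟨r + s, by rw [map_add, hr, hs, mul_add]⟩
  have rneg : ∀ c a : K, In R (c * a) → In R (c * -a) := by
    rintro c a ⟨r, hr⟩
    exact ⟨-r, by rw [map_neg, hr, mul_neg]⟩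
  have rmul : ∀ (k : ℕ) (a b : K), In R ((algebraMap R K ϖ ^ k)⁻¹ * a) → In R ((algebraMap R K ϖ ^ k)⁻¹ * b) →
      In R ((algebraMap R K ϖ ^ k)⁻¹ * (a * b)) := by
    intro k a b ha hb
    obtain ⟨s, hs⟩ := hIn hb
    obtain ⟨r, hr⟩ := ha
    exact ⟨r * s, by rw [map_mul, hr, hs, mul_assoc]⟩
  refine ⟨?_, ?_⟩
  · intro Y L hL
    have hB := bdl_mL hL
    generalize mL ϖ L = m at hB
    choose Y' hY1 hY2 using fun p : SI n => g3_approx h hv (Y.1 p.1.1 p.1.2) (2 * m)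
    have hu' : nS Y' ∈ HSg n 𝔫 v := g17_mem fun i l => g17_nS (S := fun z => ∃ j, Den 𝔫 v j z) d0 hY1 i l
    have hu : IsUS (nS Y') := by
      refine ⟨?_, ?_⟩
      · show (Matrix.fromBlocks 1 (syM Y') 0 1).toBlocks₂₁ = 0
        rw [Matrix.toBlocks_fromBlocks₂₁]
      · show IsUU (Matrix.fromBlocks 1 (syM Y') 0 1).toBlocks₂₂
        rw [Matrix.toBlocks_fromBlocks₂₂]
        exact isUU_one
    have hg : ac (nS fun p => Y.1 p.1.1 p.1.2 - Y' p).val L = L :=
      g12_small hlf hB fun i l => g17_nS (S := fun z => In R ((algebraMap R K ϖ ^ (2 * m))⁻¹ * z)) (r0 _) hY2 i l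
    have hYs : Y.1ᵀ = Y.1 := Y.2
    have e1 : nM Y.1 = (nS Y').val * (nS fun p => Y.1 p.1.1 p.1.2 - Y' p).val := by
      show Matrix.fromBlocks 1 Y.1 0 1 = Matrix.fromBlocks 1 (syM Y') 0 1 * Matrix.fromBlocks 1 (syM fun p => Y.1 p.1.1 p.1.2 - Y' p) 0 1
      rw [Matrix.fromBlocks_multiply]
      have e2 : (1 : Matrix (Fin n) (Fin n) K) * (syM fun p => Y.1 p.1.1 p.1.2 - Y' p) + syM Y' * 1 = Y.1 := by
        rw [Matrix.one_mul, Matrix.mul_one]
        ext a b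
        rw [Matrix.add_apply]
        unfold syM
        rw [Matrix.of_apply, Matrix.of_apply]
        split_ifs
        · ring
        · have e3 : Y.1 b a = Y.1 a b := by
            have := congrFun (congrFun hYs a) b
            rwa [Matrix.transpose_apply] at this
          rw [← e3]
          ring
      rw [e2]
      simp
    rw [e1, ac_mul, hg, fw_u h hv hc cf hf hL hu hu']
    congr 1
    have hin := hIn (hY2 ⟨(0, 0), le_refl _⟩)
    rw [chl_val h hv H.int0 (hY1 ⟨(0, 0), le_refl _⟩) hin]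
    congr 2
    unfold chS
    have e4 : ∀ p : TI n, cuS (nS Y') p = Sum.elim Y' (fun _ => 0) p := by
      have hB1 : bB (nS Y') = syM Y' := Matrix.toBlocks_fromBlocks₁₂ _ _ _ _
      have hD1 : bD (nS Y') = 1 := Matrix.toBlocks_fromBlocks₂₂ _ _ _ _
      rintro (p | p)
      · show ((bD (nS Y'))ᵀ * bB (nS Y')) p.1.1 p.1.2 = Y' p
        rw [hB1, hD1, Matrix.transpose_one, Matrix.one_mul]
        unfold syM
        rw [Matrix.of_apply, dif_pos p.2]
      · show bD (nS Y') p.1.1 p.1.2 = 0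
        rw [hD1, Matrix.one_apply_ne p.2.ne]
    have e5 : sd θ (upM fun p : UI n => cuS (embS (nS Y')) (Sum.inr p)) = 0 := by
      unfold sd
      refine Finset.sum_eq_zero fun i _ => ?_
      by_cases hi : (i : ℕ) + 1 < n
      · have hlt : i < (⟨i + 1, hi⟩ : Fin n) := by
          show (i : ℕ) < i + 1
          omega
        rw [dif_pos hi, upM_lt _ hlt, cuS_emb, e4]
        show θ i (mixedEmbedding K 0) = 0
        rw [map_zero, map_zero]
      · rw [dif_neg hi]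
    rw [e5, cuS_emb, e4, add_zero]
    rfl
  · intro A B L hL hA hAB hBA
    have hB := bdl_mL hL
    generalize mL ϖ L = m at hB
    -- denominators of `B`
    obtain ⟨c, hcB⟩ : ∃ c : ℕ, ∀ i j, In R (algebraMap R K ϖ ^ c * B i j) := by
      choose e he using fun i j => hlf.frac (B i j)
      refine ⟨∑ i, ∑ j, e i j, fun i j => ?_⟩
      have hle : e i j ≤ ∑ i, ∑ j, e i j :=
        (Finset.single_le_sum (f := e i) (fun _ _ => Nat.zero_le _) (Finset.mem_univ j)).trans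
          (Finset.single_le_sum (f := fun i => ∑ j, e i j) (fun _ _ => Nat.zero_le _) (Finset.mem_univ i))
      obtain ⟨r, hr⟩ := he i j
      refine ⟨ϖ ^ (∑ i, ∑ j, e i j - e i j) * r, ?_⟩
      rw [map_mul, map_pow, hr, ← mul_assoc, ← pow_add, Nat.sub_add_cancel hle]
    choose τ hτ1 hτ2 using fun p : UI n => g3_approx h hv (A p.1.1 p.1.2) (2 * m + c)
    have hAU : IsUU A := hA
    obtain ⟨σ, hσ⟩ : ∃ σ : SLK n K, σ.1 = A := ⟨up (cu A), upM_cu hAU⟩
    have hσi : (σ⁻¹).1 = B := by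
      have h1 : σ.1 * (σ⁻¹).1 = 1 := congrArg Subtype.val (mul_inv_cancel σ)
      rw [hσ] at h1
      calc (σ⁻¹).1 = (B * A) * (σ⁻¹).1 := by rw [hBA, Matrix.one_mul]
        _ = B * (A * (σ⁻¹).1) := by rw [Matrix.mul_assoc]
        _ = B := by rw [h1, Matrix.mul_one]
    have hu' : mS (up τ) ∈ HSg n 𝔫 v := by
      refine g17_mem fun i l => g17_mS (S := fun z => ∃ j, Den 𝔫 v j z) d0 dadd dneg dmul (isUU_upM τ) ?_ i l
      intro a l
      show ∃ j, Den 𝔫 v j ((upM τ - 1) a l)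
      rcases le_or_gt l a with h1 | h1
      · rw [Matrix.sub_apply, isUU_upM τ a l h1, sub_self]
        exact d0
      · rw [Matrix.sub_apply, upM_lt τ h1, Matrix.one_apply_ne h1.ne, sub_zero]
        exact hτ1 _
    have hu : IsUS (mS (up τ) : SP n K) := by
      refine ⟨?_, ?_⟩
      · show (Matrix.fromBlocks ((up τ)⁻¹.1)ᵀ 0 0 (up τ).1).toBlocks₂₁ = 0
        rw [Matrix.toBlocks_fromBlocks₂₁]
      · show IsUU (Matrix.fromBlocks ((up τ)⁻¹.1)ᵀ 0 0 (up τ).1).toBlocks₂₂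
        rw [Matrix.toBlocks_fromBlocks₂₂]
        exact isUU_upM τ
    have hE : ∀ a l, In R ((algebraMap R K ϖ ^ (2 * m + c))⁻¹ * (A - upM τ) a l) := by
      intro a l
      rcases le_or_gt l a with h1 | h1
      · rw [Matrix.sub_apply, isUU_upM τ a l h1, hAU a l h1, sub_self]
        exact r0 _
      · rw [Matrix.sub_apply, upM_lt τ h1]
        exact hτ2 ⟨(a, l), h1⟩
    have hW : ∀ a l, In R ((algebraMap R K ϖ ^ (2 * m))⁻¹ * ((σ⁻¹ * up τ : SLK n K).1 - 1) a l) := by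
      intro a l
      have e1 : (σ⁻¹ * up τ : SLK n K).1 - 1 = -(B * (A - upM τ)) := by
        show (σ⁻¹).1 * upM τ - 1 = _
        rw [hσi, Matrix.mul_sub, hBA]
        abel
      rw [e1, Matrix.neg_apply, Matrix.mul_apply]
      refine rneg _ _ ?_
      refine Finset.sum_induction _ (fun z => In R ((algebraMap R K ϖ ^ (2 * m))⁻¹ * z)) (radd _) (r0 _) fun d _ => ?_
      obtain ⟨r, hr⟩ := hcB a d
      obtain ⟨s, hs⟩ := hE d l
      refine ⟨r * s, ?_⟩
      rw [map_mul, hr, hs, pow_add]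
      have h1 : algebraMap R K ϖ ^ (2 * m) ≠ 0 := pow_ne_zero _ hϖ
      have h2 : algebraMap R K ϖ ^ c ≠ 0 := pow_ne_zero _ hϖ
      field_simp
    have hWU : IsUU (σ⁻¹ * up τ : SLK n K).1 := by
      refine isUU_mul (isUU_inv ?_) (isUU_upM τ)
      rw [hσ]
      exact hAU
    have hg : ac (mS (σ⁻¹ * up τ) : SP n K).val L = L :=
      g12_small hlf hB fun i l => g17_mS (S := fun z => In R ((algebraMap R K ϖ ^ (2 * m))⁻¹ * z)) (r0 _) (radd _)
        (rneg _) (rmul _) hWU hW i l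
    have e1 : mM A B = (mS σ).val := by
      show Matrix.fromBlocks Bᵀ 0 0 A = Matrix.fromBlocks ((σ⁻¹).1)ᵀ 0 0 σ.1
      rw [hσ, hσi]
    have e2 : ac (mS (up τ) : SP n K).val L = ac (mS σ).val L := by
      have e3 : (mS (up τ) : SP n K) = mS σ * mS (σ⁻¹ * up τ) := by
        rw [← g17_mS_mul, mul_inv_cancel_left]
      rw [e3, SP.val_mul, ac_mul, hg]
    rw [e1, ← e2, fw_u h hv hc cf hf hL hu hu']
    congr 1
    have e4 : ∀ p : TI n, cuS (mS (up τ) : SP n K) p = Sum.elim (fun _ => 0) τ p := by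
      have hB1 : bB (mS (up τ) : SP n K) = 0 := Matrix.toBlocks_fromBlocks₁₂ _ _ _ _
      have hD1 : bD (mS (up τ) : SP n K) = upM τ := Matrix.toBlocks_fromBlocks₂₂ _ _ _ _
      rintro (p | p)
      · show ((bD (mS (up τ) : SP n K))ᵀ * bB (mS (up τ) : SP n K)) p.1.1 p.1.2 = 0
        rw [hB1, Matrix.mul_zero]
        rfl
      · show bD (mS (up τ) : SP n K) p.1.1 p.1.2 = τ p
        rw [hD1]
        exact upM_lt τ p.2
    unfold chS chU sd
    rw [cuS_emb, e4]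
    have e5 : θ₀ (mixedEmbedding K (Sum.elim (fun _ => 0) τ (Sum.inl ⟨(0, 0), le_refl _⟩ : TI n))) = 0 := by
      show θ₀ (mixedEmbedding K 0) = 0
      rw [map_zero, map_zero]
    rw [e5, zero_add, ← Finset.sum_neg_distrib, g17_ee]
    refine Finset.prod_congr rfl fun i _ => ?_
    by_cases hi : (i : ℕ) + 1 < n
    · have hlt : i < (⟨i + 1, hi⟩ : Fin n) := by
        show (i : ℕ) < i + 1
        omega
      rw [dif_pos hi, dif_pos hi, upM_lt _ hlt, cuS_emb, e4]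
      have hin := hIn (hτ2 ⟨(i, ⟨i + 1, hi⟩), hlt⟩)
      exact (chl_val h hv (fun z hz => H.chr.int i hi z hz) (hτ1 ⟨(i, ⟨i + 1, hi⟩), hlt⟩) hin).symm
    · rw [dif_neg hi, dif_neg hi, neg_zero, ee_zero]

end

end Pool.Agent.Lib.H67G
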