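import Pool.Agent.Lib.H67G.G17
import Pool.Agent.Lib.H67G.G11

/-!
# G18 (M): the Hecke eigenvalue and the value at L_k
-/

namespace Pool.Agent.Lib.H67G

open MeasureTheory Matrix NumberField IsDedekindDomain Pool.Agent.Lib.H89N Pool.Agent.Lib.H33W
open scoped ENNReal Pointwise

noncomputable section

set_option linter.unusedSectionVars false

variable {n : ℕ} {K : Type} [Field K] [NumberField K] {v : HeightOneSpectrum (𝓞 K)} {R : Type} [CommRing R] [IsDomain R]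
  [IsDiscreteValuationRing R] [Algebra R K] {ϖ : R} {𝔫 𝔪 : Ideal (𝓞 K)}

variable [NeZero n] {θ₀ : EE K →ₗ[ℝ] ℝ} {θ : Fin n → (EE K →ₗ[ℝ] ℝ)} {f : SP n (EE K) → ℂ}

theorem g18_mono {m m' : ℕ} (hm : m ≤ m') {L : Submodule R (Fin n ⊕ Fin n → K)} (hL : BdL ϖ m L) : BdL ϖ m' L := by
  obtain ⟨c, rfl⟩ := Nat.exists_eq_add_of_le hm
  refine ⟨fun x hx => ?_, fun x hx => ?_⟩
  · rw [add_comm, pow_add, mul_smul]
    exact Submodule.smul_mem _ _ (hL.1 x hx)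
  · rw [add_comm, pow_add, mul_smul]
    exact Submodule.smul_mem _ _ (hL.2 x hx)

theorem g18_St (m : ℕ) : BdL ϖ m (St2 R K n) :=
  ⟨fun _ hx => Submodule.smul_mem _ _ hx, fun _ hx => Submodule.smul_mem _ _ hx⟩

/-- PROOF. The set is finite (`hecke_fin`); take `m` with `BdL ϖ m L` for all these `L` and for `St2`; `FW L = MnS (fun _ => 𝔫 v ^ (2m)) (ftS f L) x` for all of them (`fw_eq`, `uc_le`, `uc_hasI`); `mn_lin` and `hecke_sum` (the finsum over the finite set is a finite sum). -/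
theorem hecke_fw (h : Loc v R ϖ) (hv : ¬𝔫 ≤ v.asIdeal) (hc : ChI 𝔫 θ₀ θ) (cf : Continuous f) (hf : ∀ γ ∈ GammaS n 𝔫, ∀ x, f (embS γ * x) = f x) {k : ℕ} {lam : ℂ}
    (H : IsHeckeS 𝔫 v k f lam) (x : SP n (EE K)) :
    ∑ᶠ L ∈ {L : SDt K ϖ n | dg (Ideal.absNorm v.asIdeal) L.1 (St2 R K n) = k}, FW 𝔫 v ϖ θ₀ θ f x L.1 = lam * FW 𝔫 v ϖ θ₀ θ f x (St2 R K n) := by
  have h𝔫 : 𝔫 ≠ ⊥ := ne_bot_of hv
  have hfin := hecke_fin h hv H
  have hsum := fun y => hecke_sum h hv hf H y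
  obtain ⟨m, hm⟩ : ∃ m : ℕ, ∀ L ∈ hfin.toFinset, BdL ϖ m L.1 :=
    ⟨hfin.toFinset.sup fun L => mL ϖ L.1, fun L hL => g18_mono (Finset.le_sup (f := fun L : SDt K ϖ n => mL ϖ L.1) hL) (bdl_mL L.2)⟩
  have hne : 𝔫 * v.asIdeal ^ (2 * m) ≠ ⊥ := mul_ne_zero h𝔫 (pow_ne_zero _ v.ne_bot)
  have hfw : ∀ L : Submodule R (Fin n ⊕ Fin n → K), IsSD ϖ L → BdL ϖ m L →
      FW 𝔫 v ϖ θ₀ θ f x L = MnS (fun _ => 𝔫 * v.asIdeal ^ (2 * m)) θ₀ θ (ftS 𝔫 v f L) x := fun L hL hb =>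
    (fw_eq h hv hc cf hf hL (uc_hasI hne) (fun _ => Ideal.mul_le_left) (uc_le h hb) x).symm
  rw [finsum_mem_eq_finite_toFinset_sum _ hfin, Finset.sum_congr rfl fun L hL => hfw L.1 L.2 (hm L hL), hfw _ g5_sdSt (g18_St m)]
  have h1 := mn_lin (θ₀ := θ₀) (θ := θ) (𝔡 := fun _ => 𝔫 * v.asIdeal ^ (2 * m)) (fun _ => hne) hfin.toFinset (fun _ => (1 : ℂ))
    (F := fun L => ftS 𝔫 v f L.1) (fun L _ => ft_cont cf L.1) x
  have h2 := mn_lin (θ₀ := θ₀) (θ := θ) (𝔡 := fun _ => 𝔫 * v.asIdeal ^ (2 * m)) (fun _ => hne) (Finset.univ : Finset Unit) (fun _ => lam)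
    (F := fun _ => ftS 𝔫 v f (St2 R K n)) (fun _ _ => ft_cont cf _) x
  simp only [one_mul] at h1
  simp only [Finset.univ_unique, Finset.sum_singleton] at h2
  rw [← h1, ← h2]
  congr 1
  funext y
  have h3 := hsum y
  rw [finsum_mem_eq_finite_toFinset_sum _ hfin] at h3
  rw [h3, ft_St h hv hf]

/-- **Local-global**: PROOF. `hecke_local` with `F = FW`, `wf_fw`, `chl_chl`, `hecke_fw`, `fw_St`. -/
theorem hkl (h : Loc v R ϖ) (hv : ¬𝔫 ≤ v.asIdeal) (H : ChrS 𝔫 v θ₀ θ) (cf : Continuous f) (hf : ∀ γ ∈ GammaS n 𝔫, ∀ x, f (embS γ * x) = f x)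
    {x : Fin n → ℂ} (hS : SatakeS 𝔫 v f x) (k : ℕ) (y : SP n (EE K)) :
    (Ideal.absNorm v.asIdeal : ℂ) ^ (n * k) * FW 𝔫 v ϖ θ₀ θ f y (Lk K ϖ n k) = PowerSeries.coeff k (kapP x) * WhS (Ideal.absNorm 𝔫) θ₀ θ f y := by
  have hc : ChI 𝔫 θ₀ θ := chi_of_chrS H
  rw [← fw_St h hv hc cf hf y]
  exact hecke_local (lf_of_loc h) (chl_chl h hv H.int0 H.prim0) (fun i hi => chl_chl h hv (H.chr.int i hi) (H.chr.prim i hi))
    (wf_fw h hv H cf hf y) x (fun k => hecke_fw h hv hc cf hf (hS.ev k) y) k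

end

end Pool.Agent.Lib.H67G
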