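import Pool.Agent.Lib.H67G.G5

/-!
# G19 (M): the stabiliser of L_k, entries
-/

namespace Pool.Agent.Lib.H67G

open MeasureTheory Matrix NumberField IsDedekindDomain Pool.Agent.Lib.H89N Pool.Agent.Lib.H33W
open scoped ENNReal Pointwise

noncomputable section

set_option linter.unusedSectionVars false

variable {n : ℕ} {K : Type} [Field K] [NumberField K] {v : HeightOneSpectrum (𝓞 K)} {R : Type} [CommRing R] [IsDomain R]
  [IsDiscreteValuationRing R] [Algebra R K] {ϖ : R} {𝔫 𝔪 : Ideal (𝓞 K)}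

variable [NeZero n]

/-- `L_k = D R ^ (2n)`, `D = diag(1, .., 1, ϖ ^ k; 1, .., 1, ϖ ^ (-k))`. -/
def dk (n : ℕ) (K : Type) [Field K] {R : Type} [CommRing R] [Algebra R K] (ϖ : R) (k : ℕ) : Fin n ⊕ Fin n → K
  | Sum.inl i => if (i : ℕ) + 1 = n then algebraMap R K ϖ ^ k else 1
  | Sum.inr i => if (i : ℕ) + 1 = n then (algebraMap R K ϖ ^ k)⁻¹ else 1

theorem dk_inl (k : ℕ) (i : Fin n) : dk n K ϖ k (Sum.inl i) = if (i : ℕ) + 1 = n then algebraMap R K ϖ ^ k else 1 := rfl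

theorem dk_inr (k : ℕ) (i : Fin n) : dk n K ϖ k (Sum.inr i) = if (i : ℕ) + 1 = n then (algebraMap R K ϖ ^ k)⁻¹ else 1 := rfl

theorem g19_p (h : LF R K ϖ (Ideal.absNorm v.asIdeal)) (k : ℕ) : algebraMap R K ϖ ^ k ≠ 0 :=
  pow_ne_zero _ (pi_ne h)

theorem g19_ne (h : LF R K ϖ (Ideal.absNorm v.asIdeal)) (k : ℕ) (i : Fin n ⊕ Fin n) : dk n K ϖ k i ≠ 0 := by
  have hp := g19_p h k
  rcases i with i | i
  · rw [dk_inl]
    split_ifs
    · exact hp
    · exact one_ne_zero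
  · rw [dk_inr]
    split_ifs
    · exact inv_ne_zero hp
    · exact one_ne_zero

theorem g19_AB (h : LF R K ϖ (Ideal.absNorm v.asIdeal)) (k : ℕ) :
    (diagonal fun i : Fin n => if (i : ℕ) + 1 = n then ((algebraMap R K ϖ) ^ k)⁻¹ else 1) *
      (diagonal fun i : Fin n => if (i : ℕ) + 1 = n then ((algebraMap R K ϖ) ^ k) else 1) = 1 := by
  have hp := g19_p h k
  rw [diagonal_mul_diagonal, ← diagonal_one]
  congr 1
  funext i
  split_ifs
  · exact inv_mul_cancel₀ hp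
  · exact one_mul _

theorem g19_Lm0 : Lm (St R K (Fin n)) 0 = St2 R K n := by
  ext z
  rw [mem_Lm, mem_St, zero_mulVec, sub_zero, du_St, mem_St, mem_St]
  constructor
  · rintro ⟨h1, h2⟩ (i | i)
    · exact h2 i
    · exact h1 i
  · intro h1
    exact ⟨fun i => h1 (Sum.inr i), fun i => h1 (Sum.inl i)⟩

/-- PROOF. `mem_Lm`, `du_ac`, `du_St`, or `ac_mM`. -/
theorem lk_eq (h : LF R K ϖ (Ideal.absNorm v.asIdeal)) (k : ℕ) : Lk K ϖ n k = ac (diagonal (dk n K ϖ k)) (St2 R K n) := by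
  have h1 := ac_mM (M := St R K (Fin n)) (g19_AB (n := n) h k) 0
  rw [Matrix.mul_zero, Matrix.zero_mul, g19_Lm0] at h1
  change Lm (ac _ _) 0 = _
  rw [← h1]
  congr 1
  unfold mM
  rw [diagonal_transpose, fromBlocks_diagonal]
  congr 1
  funext i
  rcases i with i | i <;> rfl

theorem lk_sd (h : LF R K ϖ (Ideal.absNorm v.asIdeal)) (k : ℕ) : IsSD ϖ (Lk K ϖ n k) :=
  l9a_sd0 h (la_ac h (g19_AB (n := n) h k) la_St)

theorem g19_int {g : SP n K} : ac g.val (St2 R K n) = St2 R K n ↔ ∀ i l, In R (g.val i l) := by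
  constructor
  · intro hg i l
    have h1 : g.val *ᵥ (Pi.single l 1) ∈ St2 R K n := by
      rw [← hg]
      exact ⟨_, single_St l, rfl⟩
    have h2 := h1 i
    rwa [mulVec_single_one] at h2
  · exact fun hg => g5_int hg

/-- `D` as a symplectic matrix. -/
def g19_D (h : LF R K ϖ (Ideal.absNorm v.asIdeal)) (k : ℕ) : SP n K := ⟨diagonal (dk n K ϖ k), by
  have hp := g19_p h k
  rw [diagonal_transpose]
  ext i j
  rw [mul_diagonal, diagonal_mul]
  rcases i with i | i <;> rcases j with j | j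
  · simp [Matrix.J]
  · simp only [Matrix.J, fromBlocks_apply₁₂, dk_inl, dk_inr, Matrix.neg_apply, Matrix.one_apply]
    by_cases hij : i = j
    · subst hij
      rw [if_pos rfl]
      split_ifs
      · field_simp
      · ring
    · rw [if_neg hij]
      ring
  · simp only [Matrix.J, fromBlocks_apply₂₁, dk_inl, dk_inr, Matrix.one_apply]
    by_cases hij : i = j
    · subst hij
      rw [if_pos rfl]
      split_ifs
      · field_simp
      · ring
    · rw [if_neg hij]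
      ring
  · simp [Matrix.J]⟩

theorem g19_inv (h : LF R K ϖ (Ideal.absNorm v.asIdeal)) (k : ℕ) :
    (g19_D (n := n) h k)⁻¹.val = diagonal fun i => (dk n K ϖ k i)⁻¹ := by
  have h1 : (g19_D (n := n) h k).val * (g19_D (n := n) h k)⁻¹.val = 1 := by
    rw [← SP.val_mul, mul_inv_cancel, SP.val_one]
  have h2 : (diagonal fun i => (dk n K ϖ k i)⁻¹) * (g19_D (n := n) h k).val = 1 := by
    change (diagonal fun i => (dk n K ϖ k i)⁻¹) * diagonal (dk n K ϖ k) = 1
    rw [diagonal_mul_diagonal, ← diagonal_one]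
    congr 1
    funext i
    exact inv_mul_cancel₀ (g19_ne h k i)
  calc (g19_D (n := n) h k)⁻¹.val
      = ((diagonal fun i => (dk n K ϖ k i)⁻¹) * (g19_D (n := n) h k).val) * (g19_D (n := n) h k)⁻¹.val := by
        rw [h2, Matrix.one_mul]
    _ = _ := by rw [Matrix.mul_assoc, h1, Matrix.mul_one]

/-- PROOF. `ac g Lk ⊆ Lk` iff `D⁻¹ g D` has entries in `R`; and `D⁻¹ g D` is symplectic, so its inverse has also entries in `R` (`g5_int`). -/
theorem lk_mem (h : LF R K ϖ (Ideal.absNorm v.asIdeal)) (k : ℕ) {g : SP n K} :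
    ac g.val (Lk K ϖ n k) = Lk K ϖ n k ↔ ∀ i l, In R ((dk n K ϖ k i)⁻¹ * g.val i l * dk n K ϖ k l) := by
  have e1 : ∀ i l, ((g19_D (n := n) h k)⁻¹ * g * g19_D (n := n) h k).val i l =
      (dk n K ϖ k i)⁻¹ * g.val i l * dk n K ϖ k l := by
    intro i l
    rw [SP.val_mul, SP.val_mul, g19_inv]
    have e0 : (g19_D (n := n) h k).val = diagonal (dk n K ϖ k) := rfl
    rw [e0, mul_diagonal, diagonal_mul]
  have e2 : Lk K ϖ n k = ac (g19_D (n := n) h k).val (St2 R K n) := lk_eq h k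
  simp_rw [← e1]
  rw [← g19_int (R := R), e2, SP.val_mul, SP.val_mul, ac_mul, ac_mul]
  constructor
  · intro h1
    rw [h1, ← ac_mul, ← SP.val_mul, inv_mul_cancel, SP.val_one, ac_one]
  · intro h1
    have h2 := congrArg (ac (g19_D (n := n) h k).val) h1
    rwa [← ac_mul, ← SP.val_mul, mul_inv_cancel, SP.val_one, ac_one] at h2

/-- PROOF. `lk_mem` for the entries `(inr a, inr l)`: `z = g_al`, `a ≠ n`, `l = n`: `ϖ ^ (-k) z ∈ R` (`g1_pow`); `a = n`, `l ≠ n`: `ϖ ^ k z ∈ R` (`g1_den`); otherwise `z ∈ R` (`g1_in` for `g - 1`). -/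
theorem st_entD (h : Loc v R ϖ) (hv : ¬𝔪 ≤ v.asIdeal) (k : ℕ) : ∀ γ ∈ StG n 𝔪 v (Lk K ϖ n k), ∀ a l, EC 𝔪 v k a l ((bD γ - 1) a l) := by
  rintro γ ⟨⟨j, hj⟩, hγ⟩ a l
  have hlf := lf_of_loc h
  have hp := g19_p (K := K) hlf k
  have h1 := (lk_mem hlf k).1 hγ (Sum.inr a) (Sum.inr l)
  have h2 := hj (Sum.inr a) (Sum.inr l)
  have e : (γ.val - 1) (Sum.inr a) (Sum.inr l) = (bD γ - 1) a l := by
    rw [Matrix.sub_apply, Matrix.sub_apply]
    congr 1
    by_cases hal : a = l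
    · subst hal
      rw [Matrix.one_apply_eq, Matrix.one_apply_eq]
    · rw [Matrix.one_apply_ne hal, Matrix.one_apply_ne (by simpa using hal)]
  have e' : γ.val (Sum.inr a) (Sum.inr l) = bD γ a l := rfl
  rw [e] at h2
  rw [e'] at h1
  have hone : In R ((1 : Matrix (Fin n) (Fin n) K) a l) := by
    rw [Matrix.one_apply]
    split_ifs
    · exact in_one
    · exact in_zero
  unfold EC cI
  rw [dk_inr, dk_inr] at h1
  by_cases ha : (a : ℕ) + 1 = n
  · by_cases hl : (l : ℕ) + 1 = n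
    · rw [if_pos ha, if_pos hl]
      rw [if_pos ha, if_pos hl, inv_inv] at h1
      have e3 : algebraMap R K ϖ ^ k * bD γ a l * (algebraMap R K ϖ ^ k)⁻¹ = bD γ a l := by
        field_simp
      rw [e3] at h1
      exact g1_in h hv h2 (in_sub h1 hone)
    · rw [if_pos ha, if_neg hl]
      rw [if_pos ha, if_neg hl, inv_inv, mul_one] at h1
      refine g1_den h hv h2 ?_
      rw [Matrix.sub_apply, mul_sub]
      exact in_sub h1 (in_mul (in_pow (in_alg ϖ) k) hone)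
  · by_cases hl : (l : ℕ) + 1 = n
    · rw [if_neg ha, if_pos hl]
      rw [if_neg ha, if_pos hl, inv_one, one_mul] at h1
      refine g1_pow h hv h2 ?_
      have hal : a ≠ l := by
        rintro rfl
        exact ha hl
      rw [Matrix.sub_apply, Matrix.one_apply_ne hal, sub_zero, mul_comm]
      exact h1
    · rw [if_neg ha, if_neg hl]
      rw [if_neg ha, if_neg hl, inv_one, one_mul, mul_one] at h1
      exact g1_in h hv h2 (in_sub h1 hone)

theorem st_entC (h : Loc v R ϖ) (hv : ¬𝔪 ≤ v.asIdeal) (k : ℕ) : ∀ γ ∈ StG n 𝔪 v (Lk K ϖ n k), ∀ a l, CC 𝔪 v k a l (bC γ a l) := by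
  rintro γ ⟨⟨j, hj⟩, hγ⟩ a l
  have hlf := lf_of_loc h
  have h1 := (lk_mem hlf k).1 hγ (Sum.inr a) (Sum.inl l)
  have h2 := hj (Sum.inr a) (Sum.inl l)
  have e : (γ.val - 1) (Sum.inr a) (Sum.inl l) = bC γ a l := by
    rw [Matrix.sub_apply, Matrix.one_apply_ne (by simp), sub_zero]
    rfl
  have e' : γ.val (Sum.inr a) (Sum.inl l) = bC γ a l := rfl
  rw [e] at h2
  rw [e'] at h1
  unfold CC
  rw [dk_inr, dk_inl] at h1
  by_cases ha : (a : ℕ) + 1 = n
  · by_cases hl : (l : ℕ) + 1 = n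
    · rw [if_pos ha, if_pos hl]
      rw [if_pos ha, if_pos hl, inv_inv] at h1
      refine g1_den h hv h2 ?_
      have e3 : algebraMap R K ϖ ^ (2 * k) * bC γ a l = algebraMap R K ϖ ^ k * bC γ a l * algebraMap R K ϖ ^ k := by
        ring
      rw [e3]
      exact h1
    · rw [if_pos ha, if_neg hl]
      rw [if_pos ha, if_neg hl, inv_inv, mul_one] at h1
      exact g1_den h hv h2 h1
  · by_cases hl : (l : ℕ) + 1 = n
    · rw [if_neg ha, if_pos hl]
      rw [if_neg ha, if_pos hl, inv_one, one_mul, mul_comm] at h1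
      exact g1_den h hv h2 h1
    · rw [if_neg ha, if_neg hl]
      rw [if_neg ha, if_neg hl, inv_one, one_mul, mul_one] at h1
      exact g1_in h hv h2 h1

theorem g19_b (h : LF R K ϖ (Ideal.absNorm v.asIdeal)) (k : ℕ) (i : Fin n ⊕ Fin n) :
    In R (algebraMap R K ϖ ^ k * dk n K ϖ k i) ∧ In R (algebraMap R K ϖ ^ k * (dk n K ϖ k i)⁻¹) := by
  have hp := g19_p h k
  have hi : In R (algebraMap R K ϖ ^ k) := in_pow (in_alg ϖ) k
  rcases i with i | i
  · rw [dk_inl]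
    split_ifs
    · exact ⟨in_mul hi hi, by rw [mul_inv_cancel₀ hp]; exact in_one⟩
    · rw [inv_one, mul_one]
      exact ⟨hi, hi⟩
  · rw [dk_inr]
    split_ifs
    · rw [inv_inv, mul_inv_cancel₀ hp]
      exact ⟨in_one, in_mul hi hi⟩
    · rw [inv_one, mul_one]
      exact ⟨hi, hi⟩

/-- PROOF. All the entries `z` of `γ` have `ϖ ^ (2k) z ∈ R` (`lk_mem`), so `Den ⊤ v (2k) z` (`g1_den` for `𝔪 = ⊤` applied to `γ - 1`, or to `z`), and `N v ∈ v`. -/
theorem st_den (h : Loc v R ϖ) (hv : ¬𝔪 ≤ v.asIdeal) (k : ℕ) : ∀ γ ∈ StG n 𝔪 v (Lk K ϖ n k), ∀ i l, ∃ y : 𝓞 K,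
    ((Ideal.absNorm v.asIdeal ^ (2 * k) : ℕ) : K) * γ.val i l = ((y : 𝓞 K) : K) := by
  rintro γ ⟨⟨j, hj⟩, hγ⟩ i l
  have hlf := lf_of_loc h
  have hp := g19_p (K := K) hlf k
  have h1 := (lk_mem hlf k).1 hγ i l
  have h2 : In R (algebraMap R K ϖ ^ (2 * k) * γ.val i l) := by
    have e : algebraMap R K ϖ ^ (2 * k) * γ.val i l = (algebraMap R K ϖ ^ k * dk n K ϖ k i) *
        ((dk n K ϖ k i)⁻¹ * γ.val i l * dk n K ϖ k l) * (algebraMap R K ϖ ^ k * (dk n K ϖ k l)⁻¹) := by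
      have hi := g19_ne hlf k i
      have hl := g19_ne hlf k l
      rw [two_mul, pow_add]
      field_simp
    rw [e]
    exact in_mul (in_mul (g19_b hlf k i).1 h1) (g19_b hlf k l).2
  have hone : In R ((1 : Matrix (Fin n ⊕ Fin n) (Fin n ⊕ Fin n) K) i l) := by
    rw [Matrix.one_apply]
    split_ifs
    · exact in_one
    · exact in_zero
  have h3 : Den 𝔪 v (2 * k) ((γ.val - 1) i l) := by
    refine g1_den h hv (hj i l) ?_
    rw [Matrix.sub_apply, mul_sub]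
    exact in_sub h2 (in_mul (in_pow (in_alg ϖ) (2 * k)) hone)
  obtain ⟨y, -, hy⟩ := h3 ((Ideal.absNorm v.asIdeal : 𝓞 K) ^ (2 * k)) (Ideal.pow_mem_pow (Ideal.absNorm_mem v.asIdeal) _)
  have hy' : ((Ideal.absNorm v.asIdeal ^ (2 * k) : ℕ) : K) * (γ.val - 1) i l = y := by
    rw [← hy]
    push_cast
    rfl
  rw [Matrix.sub_apply, mul_sub] at hy'
  by_cases hil : i = l
  · subst hil
    rw [Matrix.one_apply_eq, mul_one] at hy'
    refine ⟨y + (Ideal.absNorm v.asIdeal : 𝓞 K) ^ (2 * k), ?_⟩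
    have : ((Ideal.absNorm v.asIdeal ^ (2 * k) : ℕ) : K) * γ.val i i = (y : K) + ((Ideal.absNorm v.asIdeal ^ (2 * k) : ℕ) : K) := by
      rw [← hy']
      ring
    rw [this]
    push_cast
    rfl
  · rw [Matrix.one_apply_ne hil, mul_zero, sub_zero] at hy'
    exact ⟨y, hy'⟩

end

end Pool.Agent.Lib.H67G
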