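import Pool.Agent.Lib.H67G.G19
import Pool.Agent.Lib.H67G.G12

/-!
# G20 (M): the stabiliser of L_k, unipotent elements
-/

namespace Pool.Agent.Lib.H67G

open MeasureTheory Matrix NumberField IsDedekindDomain Pool.Agent.Lib.H89N Pool.Agent.Lib.H33W
open scoped ENNReal Pointwise

noncomputable section

set_option linter.unusedSectionVars false

variable {n : ℕ} {K : Type} [Field K] [NumberField K] {v : HeightOneSpectrum (𝓞 K)} {R : Type} [CommRing R] [IsDomain R]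
  [IsDiscreteValuationRing R] [Algebra R K] {ϖ : R} {𝔫 𝔪 : Ideal (𝓞 K)}

variable [NeZero n]

theorem g20_us {S T : Type} [CommRing S] [CommRing T] (f : S →+* T) {g : SP n S} (hg : IsUS g) : IsUS (SP.map f g) := by
  refine ⟨?_, ?_⟩
  · show (bC g).map f = 0
    rw [hg.1, Matrix.map_zero _ (map_zero f)]
  · intro a l hl
    show f (bD g a l) = _
    rw [hg.2 a l hl]
    by_cases h : a = l
    · subst h
      rw [Matrix.one_apply_eq, Matrix.one_apply_eq, map_one]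
    · rw [Matrix.one_apply_ne h, Matrix.one_apply_ne h, map_zero]

theorem g20_cu {S T : Type} [CommRing S] [CommRing T] (f : S →+* T) (g : SP n S) (p : TI n) : cuS (SP.map f g) p = f (cuS g p) := by
  rcases p with p | p
  · show (((bD g).map f)ᵀ * (bB g).map f) p.1.1 p.1.2 = f (((bD g)ᵀ * bB g) p.1.1 p.1.2)
    rw [← Matrix.transpose_map, ← Matrix.map_mul]
    rfl
  · rfl

theorem g20_map {S T : Type} [CommRing S] [CommRing T] (f : S →+* T) (t : TI n → S) : SP.map f (uT t) = uT fun p => f (t p) := by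
  rw [← uT_cuS (g20_us f (isUS_uT t))]
  congr 1
  funext p
  rw [g20_cu, cuS_uT]

theorem g20_int {g : SP n K} (hg : IsUS g) (h : ∀ p, In R (cuS g p)) : ∀ i l, In R (g.val i l) := by
  choose t ht using h
  have e : g = SP.map (algebraMap R K) (uT t) := by
    rw [g20_map, ← uT_cuS hg]
    congr 1
    funext p
    exact (ht p).symm
  intro i l
  rw [e]
  exact ⟨(uT t).val i l, rfl⟩

theorem g20_dk0 (hϖ : algebraMap R K ϖ ≠ 0) (k : ℕ) (i : Fin n ⊕ Fin n) : dk n K ϖ k i ≠ 0 := by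
  rcases i with i | i
  · show (if (i : ℕ) + 1 = n then algebraMap R K ϖ ^ k else 1) ≠ 0
    split_ifs
    · exact pow_ne_zero _ hϖ
    · exact one_ne_zero
  · show (if (i : ℕ) + 1 = n then (algebraMap R K ϖ ^ k)⁻¹ else 1) ≠ 0
    split_ifs
    · exact inv_ne_zero (pow_ne_zero _ hϖ)
    · exact one_ne_zero

theorem g20_dkl (k : ℕ) (i : Fin n) : dk n K ϖ k (Sum.inl i) = (dk n K ϖ k (Sum.inr i))⁻¹ := by
  show (if (i : ℕ) + 1 = n then algebraMap R K ϖ ^ k else 1) = (if (i : ℕ) + 1 = n then (algebraMap R K ϖ ^ k)⁻¹ else 1)⁻¹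
  split_ifs
  · rw [inv_inv]
  · rw [inv_one]

/-- The diagonal matrix as an element of the symplectic group. -/
def g20_D (hϖ : algebraMap R K ϖ ≠ 0) (k : ℕ) : SP n K :=
  ⟨diagonal (dk n K ϖ k), by
    have e : (diagonal (dk n K ϖ k) : Matrix (Fin n ⊕ Fin n) (Fin n ⊕ Fin n) K) =
        fromBlocks ((diagonal fun i => dk n K ϖ k (Sum.inl i))ᵀ) 0 0 (diagonal fun i => dk n K ϖ k (Sum.inr i)) := by
      rw [diagonal_transpose, fromBlocks_diagonal]
      congr 1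
      funext i
      rcases i with i | i <;> rfl
    rw [e]
    refine mS_aux _ _ ?_
    rw [diagonal_mul_diagonal, ← diagonal_one]
    congr 1
    funext i
    rw [g20_dkl, mul_inv_cancel₀ (g20_dk0 hϖ k _)]⟩

theorem g20_Dinv (hϖ : algebraMap R K ϖ ≠ 0) (k : ℕ) : ((g20_D hϖ k : SP n K)⁻¹).val = diagonal fun i => (dk n K ϖ k i)⁻¹ := by
  have h1 : (g20_D hϖ k : SP n K).val * diagonal (fun i => (dk n K ϖ k i)⁻¹) = 1 := by
    show diagonal (dk n K ϖ k) * diagonal (fun i => (dk n K ϖ k i)⁻¹) = 1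
    rw [diagonal_mul_diagonal, ← diagonal_one]
    congr 1
    funext i
    rw [mul_inv_cancel₀ (g20_dk0 hϖ k _)]
  have h2 : ((g20_D hϖ k : SP n K)⁻¹).val * (g20_D hϖ k : SP n K).val = 1 := by
    rw [← SP.val_mul, inv_mul_cancel, SP.val_one]
  calc ((g20_D hϖ k : SP n K)⁻¹).val = ((g20_D hϖ k : SP n K)⁻¹).val *
        ((g20_D hϖ k : SP n K).val * diagonal (fun i => (dk n K ϖ k i)⁻¹)) := by rw [h1, Matrix.mul_one]
    _ = diagonal (fun i => (dk n K ϖ k i)⁻¹) := by rw [← Matrix.mul_assoc, h2, Matrix.one_mul]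

theorem g20_val (hϖ : algebraMap R K ϖ ≠ 0) (k : ℕ) (g : SP n K) (i l : Fin n ⊕ Fin n) :
    ((g20_D hϖ k)⁻¹ * g * g20_D hϖ k).val i l = (dk n K ϖ k i)⁻¹ * g.val i l * dk n K ϖ k l := by
  rw [SP.val_mul, SP.val_mul, g20_Dinv]
  show (diagonal (fun i => (dk n K ϖ k i)⁻¹) * g.val * diagonal (dk n K ϖ k)) i l = _
  rw [Matrix.mul_diagonal, Matrix.diagonal_mul]

theorem g20_cusUS (hϖ : algebraMap R K ϖ ≠ 0) (k : ℕ) {g : SP n K} (hg : IsUS g) : IsUS ((g20_D hϖ k)⁻¹ * g * g20_D hϖ k) := by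
  refine ⟨?_, ?_⟩
  · ext i l
    have h := g20_val hϖ k g (Sum.inr i) (Sum.inl l)
    have h0 : g.val (Sum.inr i) (Sum.inl l) = 0 := congrFun (congrFun hg.1 i) l
    rw [h0, mul_zero, zero_mul] at h
    exact h
  · intro a l hl
    have h := g20_val hϖ k g (Sum.inr a) (Sum.inr l)
    have h0 : g.val (Sum.inr a) (Sum.inr l) = (1 : Matrix (Fin n) (Fin n) K) a l := hg.2 a l hl
    rw [h0] at h
    refine h.trans ?_
    by_cases hal : a = l
    · subst hal
      rw [Matrix.one_apply_eq, mul_one, inv_mul_cancel₀ (g20_dk0 hϖ k _)]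
    · rw [Matrix.one_apply_ne hal, mul_zero, zero_mul]

theorem g20_cur (hϖ : algebraMap R K ϖ ≠ 0) (k : ℕ) (g : SP n K) (p : UI n) :
    cuS ((g20_D hϖ k)⁻¹ * g * g20_D hϖ k) (Sum.inr p) =
      (dk n K ϖ k (Sum.inr p.1.1))⁻¹ * cuS g (Sum.inr p) * dk n K ϖ k (Sum.inr p.1.2) :=
  g20_val hϖ k g (Sum.inr p.1.1) (Sum.inr p.1.2)

theorem g20_cul (hϖ : algebraMap R K ϖ ≠ 0) (k : ℕ) (g : SP n K) (p : SI n) :
    cuS ((g20_D hϖ k)⁻¹ * g * g20_D hϖ k) (Sum.inl p) =
      dk n K ϖ k (Sum.inr p.1.1) * dk n K ϖ k (Sum.inr p.1.2) * cuS g (Sum.inl p) := by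
  have e1 : cuS ((g20_D hϖ k)⁻¹ * g * g20_D hϖ k) (Sum.inl p) =
    ((bD ((g20_D hϖ k)⁻¹ * g * g20_D hϖ k))ᵀ * bB ((g20_D hϖ k)⁻¹ * g * g20_D hϖ k) : Matrix (Fin n) (Fin n) K) p.1.1 p.1.2 := rfl
  have e2 : cuS g (Sum.inl p) = ((bD g)ᵀ * bB g : Matrix (Fin n) (Fin n) K) p.1.1 p.1.2 := rfl
  rw [e1, e2, Matrix.mul_apply, Matrix.mul_apply, Finset.mul_sum]
  refine Finset.sum_congr rfl fun l _ => ?_
  rw [Matrix.transpose_apply, Matrix.transpose_apply]
  have h1 : bD ((g20_D hϖ k)⁻¹ * g * g20_D hϖ k) l p.1.1 = _ := g20_val hϖ k g (Sum.inr l) (Sum.inr p.1.1)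
  have h2 : bB ((g20_D hϖ k)⁻¹ * g * g20_D hϖ k) l p.1.2 = _ := g20_val hϖ k g (Sum.inl l) (Sum.inr p.1.2)
  rw [h1, h2, g20_dkl, inv_inv]
  have h3 := g20_dk0 (n := n) hϖ k (Sum.inr l)
  show (dk n K ϖ k (Sum.inr l))⁻¹ * bD g l p.1.1 * dk n K ϖ k (Sum.inr p.1.1) *
    (dk n K ϖ k (Sum.inr l) * bB g l p.1.2 * dk n K ϖ k (Sum.inr p.1.2)) = _
  field_simp

theorem g20_dkr (k : ℕ) (i : Fin n) : dk n K ϖ k (Sum.inr i) = if (i : ℕ) + 1 = n then (algebraMap R K ϖ ^ k)⁻¹ else 1 := rfl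

theorem g20_pi (h : Loc v R ϖ) : algebraMap R K ϖ ≠ 0 := pi_ne (lf_of_loc h)

/-- PROOF. `g = [[A, B], [0, D]]`, `cuS g (inr p) = D_p`, `cuS g (inl p) = (Dᵗ B)_p`. `→`: for the `D_p` this is `st_entD`; `z = (Dᵗ B)_ij = ∑_l D_li B_lj`: `D - 1` and `B` have entries in `𝔪` with denominators at `v`, so `Den 𝔪 v j z` for some `j`, and by `lk_mem` `D_li ∈ ϖ ^ (..) R`, `B_lj ∈ ..`: with `d' = dk (inr ·)`,
`dk (inl l) = d'_l⁻¹`: `D_li d'_i d'_l⁻¹ ∈ R`, `B_lj d'_j d'_l ∈ R`, so `z d'_i d'_j ∈ R`, i.e. `z ∈ ϖ ^ (k ([i = n] + [j = n])) R`; `g1_pow`. `←`: `g = uT (cuS g)`: the entries of `g - 1` are in `𝔪` (so `g ∈ HG`: `UCg`, `uc_hasI`-like), and the symplectic matrix `D_k⁻¹ g D_k` is the unipotent element with the coordinates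
`D_ij d'_j / d'_i` and `Y_ij d'_i d'_j`, which are in `R`, so all its entries are in `R` (`lk_mem`). -/
theorem st_hasI (h : Loc v R ϖ) (hv : ¬𝔪 ≤ v.asIdeal) (k : ℕ) : HasI (StG n 𝔪 v (Lk K ϖ n k)) (dI (n := n) 𝔪 v k) := by
  have h𝔪 : 𝔪 ≠ ⊥ := by
    rintro rfl
    exact hv bot_le
  have hϖ : algebraMap R K ϖ ≠ 0 := g20_pi h
  refine ⟨q1_ne h𝔪 v k, fun g hg => ⟨?_, ?_⟩⟩
  · intro hG
    have hent := st_entD h hv k g hG
    obtain ⟨⟨j, hj⟩, hac⟩ := hG
    have hin := (lk_mem (lf_of_loc h) k).1 hac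
    have hcu : ∀ p : TI n, In R (cuS ((g20_D hϖ k)⁻¹ * g * g20_D hϖ k) p) := by
      rintro (p | p)
      · have e1 : cuS ((g20_D hϖ k)⁻¹ * g * g20_D hϖ k) (Sum.inl p) =
          ((bD ((g20_D hϖ k)⁻¹ * g * g20_D hϖ k))ᵀ * bB ((g20_D hϖ k)⁻¹ * g * g20_D hϖ k) : Matrix (Fin n) (Fin n) K) p.1.1 p.1.2 := rfl
        rw [e1, Matrix.mul_apply]
        refine in_sum _ _ fun l _ => ?_
        refine in_mul ?_ ?_
        · have h1 : bD ((g20_D hϖ k)⁻¹ * g * g20_D hϖ k) l p.1.1 = _ := g20_val hϖ k g (Sum.inr l) (Sum.inr p.1.1)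
          show In R (bD ((g20_D hϖ k)⁻¹ * g * g20_D hϖ k) l p.1.1)
          rw [h1]
          exact hin _ _
        · have h1 : bB ((g20_D hϖ k)⁻¹ * g * g20_D hϖ k) l p.1.2 = _ := g20_val hϖ k g (Sum.inl l) (Sum.inr p.1.2)
          show In R (bB ((g20_D hϖ k)⁻¹ * g * g20_D hϖ k) l p.1.2)
          rw [h1]
          exact hin _ _
      · rw [g20_cur]
        exact hin _ _
    rintro (p | p)
    · have hden : Den 𝔪 v (j + j) (cuS g (Sum.inl p)) := by
        have e : cuS g (Sum.inl p) = bB g p.1.1 p.1.2 + ∑ l, (bD g - 1) l p.1.1 * bB g l p.1.2 := by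
          show ((bD g)ᵀ * bB g) p.1.1 p.1.2 = _
          have e1 : (bD g)ᵀ * bB g = bB g + (bD g - 1)ᵀ * bB g := by
            rw [Matrix.transpose_sub, Matrix.transpose_one, Matrix.sub_mul, Matrix.one_mul]
            abel
          rw [e1, Matrix.add_apply, Matrix.mul_apply]
          rfl
        have hB : ∀ a b, Den 𝔪 v j (bB g a b) := by
          intro a b
          have h1 := hj (Sum.inl a) (Sum.inr b)
          have h2 : (g.val - 1) (Sum.inl a) (Sum.inr b) = bB g a b := by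
            rw [Matrix.sub_apply, Matrix.one_apply_ne (by simp), sub_zero]
            rfl
          rwa [h2] at h1
        have hD : ∀ a b, Den 𝔪 v j ((bD g - 1) a b) := by
          intro a b
          have h1 := hj (Sum.inr a) (Sum.inr b)
          have h2 : (g.val - 1) (Sum.inr a) (Sum.inr b) = (bD g - 1) a b := by
            rw [Matrix.sub_apply, Matrix.sub_apply]
            congr 1
            by_cases hab : a = b
            · subst hab
              rw [Matrix.one_apply_eq, Matrix.one_apply_eq]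
            · rw [Matrix.one_apply_ne hab, Matrix.one_apply_ne fun e => hab (Sum.inr_injective e)]
          rwa [h2] at h1
        rw [e]
        exact ((hB _ _).mono (Nat.le_add_left _ _)).add (Den.sum _ fun l _ => ((hD _ _).mul (hB _ _)).le Ideal.mul_le_left)
      have hc := hcu (Sum.inl p)
      rw [g20_cul, g20_dkr, g20_dkr] at hc
      have hle : (p.1.1 : ℕ) ≤ p.1.2 := p.2
      show InI (if (p.1.2 : ℕ) + 1 = n then (if (p.1.1 : ℕ) + 1 = n then 𝔪 * v.asIdeal ^ (2 * k) else 𝔪 * v.asIdeal ^ k) else 𝔪) _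
      by_cases h2 : (p.1.2 : ℕ) + 1 = n
      · by_cases h1 : (p.1.1 : ℕ) + 1 = n
        · rw [if_pos h2, if_pos h1]
          rw [if_pos h2, if_pos h1, ← mul_inv, ← pow_add, ← two_mul] at hc
          exact g1_pow h hv hden hc
        · rw [if_pos h2, if_neg h1]
          rw [if_pos h2, if_neg h1, one_mul] at hc
          exact g1_pow h hv hden hc
      · have h1 : ¬ (p.1.1 : ℕ) + 1 = n := by
          have := p.1.2.2
          omega
        rw [if_neg h2]
        rw [if_neg h2, if_neg h1, one_mul, one_mul] at hc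
        exact g1_in h hv hden hc
    · have h1 := hent p.1.1 p.1.2
      unfold EC at h1
      have hlt : (p.1.1 : ℕ) < p.1.2 := p.2
      rw [if_neg (by have := p.1.2.2; omega), Matrix.sub_apply, Matrix.one_apply_ne (ne_of_lt p.2), sub_zero] at h1
      exact h1
  · intro hp
    have hU : g ∈ UCg n 𝔪 := by
      refine ((uc_hasI h𝔪).iff g hg).2 fun p => ?_
      obtain ⟨y, hy, e⟩ := hp p
      exact ⟨y, q3_le 𝔪 v k p hy, e⟩
    refine ⟨⟨0, fun i l => g1_of 0 (hU.2 i l)⟩, (lk_mem (lf_of_loc h) k).2 ?_⟩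
    have hint : ∀ i l, In R (((g20_D hϖ k)⁻¹ * g * g20_D hϖ k).val i l) := by
      refine g20_int (g20_cusUS hϖ k hg) ?_
      rintro (p | p)
      · have h0 := hp (Sum.inl p)
        rw [g20_cul, g20_dkr, g20_dkr]
        have hle : (p.1.1 : ℕ) ≤ p.1.2 := p.2
        replace h0 : InI (if (p.1.2 : ℕ) + 1 = n then (if (p.1.1 : ℕ) + 1 = n then 𝔪 * v.asIdeal ^ (2 * k) else 𝔪 * v.asIdeal ^ k) else 𝔪)
          (cuS g (Sum.inl p)) := h0
        by_cases h2 : (p.1.2 : ℕ) + 1 = n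
        · by_cases h1 : (p.1.1 : ℕ) + 1 = n
          · rw [if_pos h2, if_pos h1] at h0
            rw [if_pos h2, if_pos h1, ← mul_inv, ← pow_add, ← two_mul]
            exact (g1_Rk h h0).1
          · rw [if_pos h2, if_neg h1] at h0
            rw [if_pos h2, if_neg h1, one_mul]
            exact (g1_Rk h h0).1
        · have h1 : ¬ (p.1.1 : ℕ) + 1 = n := by
            have := p.1.2.2
            omega
          rw [if_neg h2] at h0
          rw [if_neg h2, if_neg h1, one_mul, one_mul]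
          exact g1_R0 h h0
      · have h0 := hp (Sum.inr p)
        rw [g20_cur, g20_dkr, g20_dkr]
        have hlt : (p.1.1 : ℕ) < p.1.2 := p.2
        replace h0 : InI (if (p.1.2 : ℕ) + 1 = n then 𝔪 * v.asIdeal ^ k else 𝔪) (cuS g (Sum.inr p)) := h0
        have h1 : ¬ (p.1.1 : ℕ) + 1 = n := by
          have := p.1.2.2
          omega
        rw [if_neg h1, inv_one, one_mul]
        by_cases h2 : (p.1.2 : ℕ) + 1 = n
        · rw [if_pos h2] at h0 ⊢
          rw [mul_comm]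
          exact (g1_Rk h h0).1
        · rw [if_neg h2] at h0 ⊢
          rw [mul_one]
          exact g1_R0 h h0
    intro i l
    rw [← g20_val hϖ k g i l]
    exact hint i l

theorem gdS_st (h : Loc v R ϖ) (hv : ¬𝔪 ≤ v.asIdeal) (k : ℕ) : GdS 𝔪 v k (StG n 𝔪 v (Lk K ϖ n k)) :=
  ⟨st_entD h hv k, st_entC h hv k, st_hasI h hv k, st_den h hv k⟩

end

end Pool.Agent.Lib.H67G
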