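import Pool.Agent.Lib.H67G.G5
import Pool.Agent.Lib.H33W.U2

/-!
# G22 (M): the index of the stabilisers
-/

namespace Pool.Agent.Lib.H67G

open MeasureTheory Matrix NumberField IsDedekindDomain Pool.Agent.Lib.H89N Pool.Agent.Lib.H33W
open scoped ENNReal Pointwise

noncomputable section

set_option linter.unusedSectionVars false

variable {n : ℕ} {K : Type} [Field K] [NumberField K] {v : HeightOneSpectrum (𝓞 K)} {R : Type} [CommRing R] [IsDomain R]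
  [IsDiscreteValuationRing R] [Algebra R K] {ϖ : R} {𝔫 𝔪 : Ideal (𝓞 K)}

theorem g22_app {M : ℕ} (hM : (M : 𝓞 K) ∉ v.asIdeal) {g : SP n K} (hg : g ∈ HSg n 𝔫 v) :
    ∃ c : Fin n ⊕ Fin n → Fin n ⊕ Fin n → Submodule.toAddSubgroup 𝔫, ∃ j, ∀ i l,
      Den (Ideal.span {(M : 𝓞 K)} * 𝔫) v j ((g.val - 1) i l - ((c i l : 𝓞 K) : K)) := by
  obtain ⟨j, hj⟩ := hg
  obtain ⟨c, e, he, hce⟩ := ld9_cop hM j
  have h1 : ∀ i l, ∃ y ∈ 𝔫, (e : K) * (g.val - 1) i l = ((y : 𝓞 K) : K) := fun i l => hj i l e he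
  choose y hy hy' using h1
  refine ⟨fun i l => ⟨y i l, hy i l⟩, j, fun i l => ?_⟩
  intro x hx
  obtain ⟨w, hw, hw'⟩ := hj i l x hx
  refine ⟨(c * (M : 𝓞 K)) * w, ?_, ?_⟩
  · refine Ideal.mul_mem_mul ?_ hw
    exact Ideal.mul_mem_left _ _ (Ideal.mem_span_singleton_self _)
  · have e1 : (((c * (M : 𝓞 K)) * w : 𝓞 K) : K) = ((c * (M : 𝓞 K) : 𝓞 K) : K) * (w : K) := ld9_mul _ _
    have e2 : ((c * (M : 𝓞 K) : 𝓞 K) : K) + (e : K) = 1 := by
      rw [← ld9_add, hce]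
      exact map_one _
    show (x : K) * ((g.val - 1) i l - ((y i l : 𝓞 K) : K)) = _
    rw [e1, ← hw', ← hy' i l]
    linear_combination (-((x : K) * (g.val - 1) i l)) * e2

theorem g22_card (h𝔫 : 𝔫 ≠ ⊥) (M : ℕ) :
    Nat.card (Submodule.toAddSubgroup 𝔫 ⧸ ((Submodule.toAddSubgroup (Ideal.span {(M : 𝓞 K)} * 𝔫)).addSubgroupOf
      (Submodule.toAddSubgroup 𝔫))) = M ^ Module.finrank ℚ K := by
  have hle : Submodule.toAddSubgroup (Ideal.span {(M : 𝓞 K)} * 𝔫) ≤ Submodule.toAddSubgroup 𝔫 :=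
    fun x hx => Ideal.mul_le_right (I := Ideal.span {(M : 𝓞 K)}) (J := 𝔫) hx
  have h1 := AddSubgroup.relIndex_mul_index hle
  have h2 : (Submodule.toAddSubgroup (Ideal.span {(M : 𝓞 K)} * 𝔫)).index =
      Ideal.absNorm (Ideal.span {(M : 𝓞 K)} * 𝔫) := rfl
  have h3 : (Submodule.toAddSubgroup 𝔫).index = Ideal.absNorm 𝔫 := rfl
  rw [h2, h3, map_mul, Ideal.absNorm_span_natCast, RingOfIntegers.rank] at h1
  have h4 : Ideal.absNorm 𝔫 ≠ 0 := by
    rw [Ne, Ideal.absNorm_eq_zero_iff]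
    exact h𝔫
  exact Nat.eq_of_mul_eq_mul_right (Nat.pos_of_ne_zero h4) h1

theorem g22_mul {γ γ' : SP n K} {𝔪 : Ideal (𝓞 K)} {j : ℕ} (hγ : γ ∈ HSg n 𝔫 v)
    (h : ∀ i l, Den 𝔪 v j (γ'.val i l - γ.val i l)) : γ⁻¹ * γ' ∈ HSg n 𝔪 v := by
  obtain ⟨j', hj'⟩ := (HSg n 𝔫 v).inv_mem hγ
  refine ⟨j' + j, fun i l => ?_⟩
  have e : (γ⁻¹ * γ').val - 1 = γ⁻¹.val * (γ'.val - γ.val) := by
    have h1 : γ⁻¹.val * γ.val = 1 := by
      rw [← SP.val_mul, inv_mul_cancel, SP.val_one]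
    rw [Matrix.mul_sub, h1, SP.val_mul]
  rw [e, Matrix.mul_apply]
  refine Den.sum _ fun c _ => ?_
  have h2 : Den (⊤ : Ideal (𝓞 K)) v j' (γ⁻¹.val i c) := by
    have h3 : γ⁻¹.val i c = (γ⁻¹.val - 1) i c + (1 : Matrix (Fin n ⊕ Fin n) (Fin n ⊕ Fin n) K) i c := by
      rw [Matrix.sub_apply]
      ring
    rw [h3]
    refine ((hj' i c).le le_top).add ?_
    rw [Matrix.one_apply]
    split_ifs
    · have h4 := Den.of_int (v := v) (𝔫 := ⊤) (a := (1 : 𝓞 K)) trivial j'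
      have h5 : ((1 : 𝓞 K) : K) = 1 := map_one _
      rwa [h5] at h4
    · exact Den.zero
  exact (h2.mul (h c l)).le Ideal.mul_le_right

/-- PROOF. Let `𝔪 = (M) 𝔫`, `A = 𝔫 / 𝔪 𝔫..`: every `z ∈ K` with `Den 𝔫 v j z` (some `j`) is congruent to an element `c` of `𝔫` modulo the elements with `Den ((M) 𝔫) v j' ·`: take `e ∈ v ^ j`, `e ≡ 1` modulo `(M)` (coprime); `c = e z ∈ 𝔫`, `z - c = (1 - e) z`. So every coset `γ StG((M) 𝔫)` is determined by the classes of the entries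
of `γ - 1` in `𝔫 / (M) 𝔫`, which has `N((M)) = M ^ d` elements (`Ideal.absNorm` is multiplicative; index of `(M) 𝔫` in `𝔫`): if `γ, γ'` have the same classes then `γ' - γ` has entries in `(M) 𝔫 [1/v]`, so `γ⁻¹ γ' - 1 = γ⁻¹ (γ' - γ)` too. `u2k` is the number of the cosets (`ENNReal.tsum_one`, `ENat.card`). -/
theorem idx_le (hv : ¬𝔫 ≤ v.asIdeal) {M : ℕ} (hM : (M : 𝓞 K) ∉ v.asIdeal) (L : Submodule R (Fin n ⊕ Fin n → K)) :
    u2k (StG n 𝔫 v L) (StG n (Ideal.span {(M : 𝓞 K)} * 𝔫) v L) ≤ (((M ^ Module.finrank ℚ K) ^ (4 * n ^ 2) : ℕ) : ℝ≥0∞) := by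
  classical
  have h𝔫 : 𝔫 ≠ ⊥ := by
    rintro rfl
    exact hv bot_le
  have hM0 : M ≠ 0 := by
    rintro rfl
    apply hM
    rw [Nat.cast_zero]
    exact zero_mem _
  have hcard := g22_card h𝔫 M
  set Qt := (Submodule.toAddSubgroup 𝔫 ⧸ ((Submodule.toAddSubgroup (Ideal.span {(M : 𝓞 K)} * 𝔫)).addSubgroupOf
      (Submodule.toAddSubgroup 𝔫))) with hQt
  have hfin : Finite Qt := by
    apply Nat.finite_of_card_ne_zero
    rw [hcard]
    exact pow_ne_zero _ hM0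
  have hc : ∀ γ : StG n 𝔫 v L, ∃ c : Fin n ⊕ Fin n → Fin n ⊕ Fin n → Submodule.toAddSubgroup 𝔫, ∃ j, ∀ i l,
      Den (Ideal.span {(M : 𝓞 K)} * 𝔫) v j ((γ.1.val - 1) i l - ((c i l : 𝓞 K) : K)) :=
    fun γ => g22_app hM γ.2.1
  choose c j hcj using hc
  let f : (StG n 𝔫 v L ⧸ (StG n (Ideal.span {(M : 𝓞 K)} * 𝔫) v L).subgroupOf (StG n 𝔫 v L)) →
      (Fin n ⊕ Fin n → Fin n ⊕ Fin n → Qt) := fun q i l => QuotientAddGroup.mk (c q.out i l)
  have hf : Function.Injective f := by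
    intro q q' hqq
    rw [← QuotientGroup.out_eq' q, ← QuotientGroup.out_eq' q', QuotientGroup.eq]
    have h1 : ∀ i l, -((c q.out i l : 𝓞 K)) + (c q'.out i l : 𝓞 K) ∈ Ideal.span {(M : 𝓞 K)} * 𝔫 := by
      intro i l
      have h2 : (QuotientAddGroup.mk (c q.out i l) : Qt) = QuotientAddGroup.mk (c q'.out i l) :=
        congrFun (congrFun hqq i) l
      rw [QuotientAddGroup.eq] at h2
      exact h2
    have h3 : ∀ i l, Den (Ideal.span {(M : 𝓞 K)} * 𝔫) v (max (j q.out) (j q'.out))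
        (q'.out.1.val i l - q.out.1.val i l) := by
      intro i l
      have h4 := (hcj q.out i l).mono (le_max_left (j q.out) (j q'.out))
      have h5 := (hcj q'.out i l).mono (le_max_right (j q.out) (j q'.out))
      have h6 := Den.of_int (v := v) (h1 i l) (max (j q.out) (j q'.out))
      have h7 := (h5.add (g0_neg h4)).add h6
      have e1 : ((-((c q.out i l : 𝓞 K)) + (c q'.out i l : 𝓞 K) : 𝓞 K) : K) =
          -((c q.out i l : 𝓞 K) : K) + ((c q'.out i l : 𝓞 K) : K) := by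
        rw [ld9_add]
        congr 1
      rw [e1] at h7
      have e2 : q'.out.1.val i l - q.out.1.val i l =
          (q'.out.1.val - 1) i l - ((c q'.out i l : 𝓞 K) : K) + -((q.out.1.val - 1) i l - ((c q.out i l : 𝓞 K) : K)) +
            (-((c q.out i l : 𝓞 K) : K) + ((c q'.out i l : 𝓞 K) : K)) := by
        rw [Matrix.sub_apply, Matrix.sub_apply]
        ring
      rw [e2]
      exact h7
    have h8 : (q.out.1)⁻¹ * q'.out.1 ∈ HSg n (Ideal.span {(M : 𝓞 K)} * 𝔫) v := g22_mul q.out.2.1 h3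
    have h9 := ((q.out)⁻¹ * q'.out).2.2
    exact ⟨h8, h9⟩
  have hcardT : Nat.card (Fin n ⊕ Fin n → Fin n ⊕ Fin n → Qt) = (M ^ Module.finrank ℚ K) ^ (4 * n ^ 2) := by
    rw [Nat.card_fun, Nat.card_fun, hcard, ← pow_mul]
    congr 1
    rw [Nat.card_eq_fintype_card, Fintype.card_sum, Fintype.card_fin]
    ring
  unfold u2k
  refine (ENNReal.tsum_comp_le_tsum_of_injective hf (fun _ => (1 : ℝ≥0∞))).trans ?_
  have : Fintype (Fin n ⊕ Fin n → Fin n ⊕ Fin n → Qt) := Fintype.ofFinite _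
  rw [tsum_fintype, Finset.sum_const, Finset.card_univ, nsmul_eq_mul, mul_one, ← Nat.card_eq_fintype_card, hcardT]

theorem st_mono (h𝔪 : 𝔪 ≤ 𝔫) (L : Submodule R (Fin n ⊕ Fin n → K)) : StG n 𝔪 v L ≤ StG n 𝔫 v L := by
  rintro g ⟨⟨j, hj⟩, hg⟩
  exact ⟨⟨j, fun i l => (hj i l).le h𝔪⟩, hg⟩

end

end Pool.Agent.Lib.H67G
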