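import Pool.Agent.Lib.H67G.G10
import Pool.Agent.Lib.H67G.G22

/-!
# G23 (M): the norm of ft
-/

namespace Pool.Agent.Lib.H67G

open MeasureTheory Matrix NumberField IsDedekindDomain Pool.Agent.Lib.H89N Pool.Agent.Lib.H33W
open scoped ENNReal Pointwise

noncomputable section

set_option linter.unusedSectionVars false

variable {n : ℕ} {K : Type} [Field K] [NumberField K] {v : HeightOneSpectrum (𝓞 K)} {R : Type} [CommRing R] [IsDomain R]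
  [IsDiscreteValuationRing R] [Algebra R K] {ϖ : R} {𝔫 𝔪 : Ideal (𝓞 K)}

/-- the stabiliser of `g⁻¹ St2` is conjugate to `Γ(𝔫)` -/
theorem g23_conj (h : Loc v R ϖ) (hv : ¬𝔫 ≤ v.asIdeal) {g : SP n K} (hg : g ∈ HSg n 𝔫 v) (γ : SP n K) :
    γ ∈ StG n 𝔫 v (ac g⁻¹.val (St2 R K n)) ↔ g * γ * g⁻¹ ∈ GammaS n 𝔫 := by
  have e1 : ac (g * γ * g⁻¹).val (St2 R K n) = ac g.val (ac γ.val (ac g⁻¹.val (St2 R K n))) := by
    rw [SP.val_mul, SP.val_mul, ac_mul, ac_mul]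
  have e2 : ac g.val (ac g⁻¹.val (St2 R K n)) = St2 R K n := by
    rw [← ac_mul, ← SP.val_mul, mul_inv_cancel, SP.val_one, ac_one]
  have e3 : ∀ L : Submodule R (Fin n ⊕ Fin n → K), ac g⁻¹.val (ac g.val L) = L := by
    intro L
    rw [← ac_mul, ← SP.val_mul, inv_mul_cancel, SP.val_one, ac_one]
  constructor
  · rintro ⟨h1, h2⟩
    have h3 : g * γ * g⁻¹ ∈ HSg n 𝔫 v := mul_mem (mul_mem hg h1) (inv_mem hg)
    refine (g5_st h hv h3).1 ?_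
    rw [e1, h2, e2]
  · intro h1
    have h3 : g * γ * g⁻¹ ∈ HSg n 𝔫 v := gam_HS h1
    refine ⟨?_, ?_⟩
    · have h4 : g⁻¹ * (g * γ * g⁻¹) * g ∈ HSg n 𝔫 v := mul_mem (mul_mem (inv_mem hg) h3) hg
      have e4 : g⁻¹ * (g * γ * g⁻¹) * g = γ := by group
      rwa [e4] at h4
    · have h5 := (g5_st h hv h3).2 h1
      rw [e1] at h5
      have h6 := congrArg (ac g⁻¹.val) h5
      rwa [e3] at h6

/-- PROOF. `L = ac g⁻¹ St2` (`strong`), `ftS f L y = f(g y)` (`ft_eq`), `StG n 𝔫 v L = g⁻¹ Γ(𝔫) g` (`g5_st`). `F'' = {y | embS g * y ∈ F₀}` is a fundamental domain of `StG n 𝔫 v L`; `∫_{F''} ‖f(g y)‖² = ∫_{F₀} ‖f‖²` (left invariance); `H33W.u2_lint` for the invariant function `‖ftS f L‖²` (`ft_inv`). -/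
theorem norm_ft (μ : Measure (SP n (EE K))) [μ.IsHaarMeasure] (h : Loc v R ϖ) (hv : ¬𝔫 ≤ v.asIdeal) {f : SP n (EE K) → ℂ} (cf : Continuous f)
    (hf : ∀ γ ∈ GammaS n 𝔫, ∀ x, f (embS γ * x) = f x) {L : Submodule R (Fin n ⊕ Fin n → K)} (hL : IsSD ϖ L) {F₀ F' : Set (SP n (EE K))}
    (hF₀ : SF (GammaS n 𝔫) F₀) {Γ' : Subgroup (SP n K)} (hΓ' : Γ' ≤ StG n 𝔫 v L) (hF' : SF Γ' F') :
    ∫⁻ x in F', ‖ftS 𝔫 v f L x‖ₑ ^ 2 ∂μ = u2k (StG n 𝔫 v L) Γ' * ∫⁻ x in F₀, ‖f x‖ₑ ^ 2 ∂μ := by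
  obtain ⟨g, hg, rfl⟩ := strong (𝔫 := 𝔫) h hv hL
  have hft := ft_eq h hv hf hg
  have mf : Measurable fun x => ‖f x‖ₑ ^ 2 := (cf.measurable.enorm).pow_const 2
  have mp : MeasurePreserving (fun y : SP n (EE K) => embS g * y) μ μ := measurePreserving_mul_left μ (embS g)
  have hF'' : SF (StG n 𝔫 v (ac g⁻¹.val (St2 R K n))) ((fun y : SP n (EE K) => embS g * y) ⁻¹' F₀) := by
    refine ⟨mp.measurable hF₀.meas, fun x => ?_⟩
    obtain ⟨δ, hδ, hu⟩ := hF₀.fd (embS g * x)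
    have hδm : g⁻¹ * δ.1 * g ∈ StG n 𝔫 v (ac g⁻¹.val (St2 R K n)) := by
      rw [g23_conj h hv hg]
      have e : g * (g⁻¹ * δ.1 * g) * g⁻¹ = δ.1 := by group
      rw [e]
      exact δ.2
    refine ⟨⟨g⁻¹ * δ.1 * g, hδm⟩, ?_, ?_⟩
    · show embS g * (embS (g⁻¹ * δ.1 * g) * x) ∈ F₀
      have e : embS g * (embS (g⁻¹ * δ.1 * g) * x) = embS δ.1 * (embS g * x) := by
        rw [map_mul, map_mul, map_inv]
        group
      rw [e]
      exact hδ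
    · rintro ⟨γ, hγ⟩ h2
      have h2' : embS g * (embS γ * x) ∈ F₀ := h2
      have hγ' := (g23_conj h hv hg γ).1 hγ
      have h3 := hu ⟨g * γ * g⁻¹, hγ'⟩ (by
        show embS (g * γ * g⁻¹) * (embS g * x) ∈ F₀
        have e : embS (g * γ * g⁻¹) * (embS g * x) = embS g * (embS γ * x) := by
          rw [map_mul, map_mul, map_inv]
          group
        rw [e]
        exact h2')
      have h4 : g * γ * g⁻¹ = δ.1 := congrArg Subtype.val h3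
      apply Subtype.ext
      show γ = g⁻¹ * δ.1 * g
      rw [← h4]
      group
  have hpres : ∀ δ : SP n K, MeasurePreserving (fun x : SP n (EE K) => δ • x) μ μ := fun δ =>
    measurePreserving_mul_left μ (embS δ)
  have mΦ : Measurable fun x => ‖ftS 𝔫 v f (ac g⁻¹.val (St2 R K n)) x‖ₑ ^ 2 :=
    ((ft_cont (𝔫 := 𝔫) (v := v) cf (ac g⁻¹.val (St2 R K n))).measurable.enorm).pow_const 2
  rw [u2_lint hpres hΓ' hF'' hF' mΦ fun δ hδ x => by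
    show ‖ftS 𝔫 v f (ac g⁻¹.val (St2 R K n)) (embS δ * x)‖ₑ ^ 2 = ‖ftS 𝔫 v f (ac g⁻¹.val (St2 R K n)) x‖ₑ ^ 2
    rw [ft_inv h hv hf hL hδ x]]
  congr 1
  simp only [hft]
  exact mp.setLIntegral_comp_preimage hF₀.meas mf

end

end Pool.Agent.Lib.H67G
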