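import Pool.Agent.Lib.H67G.S2
import Pool.Agent.Lib.H67G.G12

/-!
# G24 (M): fundamental domains and orthonormal functions
-/

namespace Pool.Agent.Lib.H67G

open MeasureTheory Matrix NumberField IsDedekindDomain Pool.Agent.Lib.H89N Pool.Agent.Lib.H33W
open scoped ENNReal Pointwise

noncomputable section

set_option linter.unusedSectionVars false

variable {n : ℕ} {K : Type} [Field K] [NumberField K] {v : HeightOneSpectrum (𝓞 K)} {R : Type} [CommRing R] [IsDomain R]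
  [IsDiscreteValuationRing R] [Algebra R K] {ϖ : R} {𝔫 𝔪 : Ideal (𝓞 K)}

theorem g24_ctb : Countable (SP n K) := by
  have hK : Countable K := (Module.finBasis ℚ K).equivFun.injective.countable
  have hM : Countable (Matrix (Fin n ⊕ Fin n) (Fin n ⊕ Fin n) K) := by
    unfold Matrix
    infer_instance
  have hi : Function.Injective (SP.val : SP n K → Matrix (Fin n ⊕ Fin n) (Fin n ⊕ Fin n) K) := fun a b h => SP.ext h
  exact hi.countable

/-- PROOF. `mem_gamS`: all the entries of `γ ∈ Γ(𝔫)` are in `𝓞`; `exists_sfS` with `c = 1`. -/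
theorem gam_sf (𝔫 : Ideal (𝓞 K)) : ∃ F₀ : Set (SP n (EE K)), SF (GammaS n 𝔫) F₀ := by
  refine exists_sfS one_ne_zero fun γ hγ i l => ?_
  obtain ⟨y, _, hy⟩ := mem_gamS.1 hγ i l
  rw [Matrix.sub_apply] at hy
  rw [Nat.cast_one, one_mul]
  by_cases h : i = l
  · refine ⟨y + 1, ?_⟩
    rw [h, Matrix.one_apply_eq] at hy
    rw [h]
    push_cast
    linear_combination hy
  · refine ⟨y, ?_⟩
    rw [Matrix.one_apply_ne h, sub_zero] at hy
    exact hy

/-- PROOF. `F₀` is also a fundamental domain in the sense of Mathlib (`IsFundamentalDomain.mk'`); `IsFundamentalDomain.setLIntegral_eq`. -/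
theorem fd_eq (μ : Measure (SP n (EE K))) [μ.IsHaarMeasure] {F F₀ : Set (SP n (EE K))} (hF : IsFundamentalDomain (GammaS n 𝔫) F μ) (hF₀ : SF (GammaS n 𝔫) F₀)
    {Φ : SP n (EE K) → ℝ≥0∞} (iΦ : ∀ γ ∈ GammaS n 𝔫, ∀ x, Φ (embS γ * x) = Φ x) : ∫⁻ x in F, Φ x ∂μ = ∫⁻ x in F₀, Φ x ∂μ := by
  have : Countable (SP n K) := g24_ctb
  have : MeasurableConstSMul (GammaS n 𝔫) (SP n (EE K)) := ⟨fun c => measurable_const_smul (c : SP n K)⟩
  have : SMulInvariantMeasure (GammaS n 𝔫) (SP n (EE K)) μ :=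
    ⟨fun c _ hs => SMulInvariantMeasure.measure_preimage_smul (c : SP n K) hs⟩
  have hfd : IsFundamentalDomain (GammaS n 𝔫) F₀ μ := IsFundamentalDomain.mk' hF₀.meas.nullMeasurableSet hF₀.fd
  exact hF.setLIntegral_eq hfd _ fun g x => iΦ g.1 g.2 x

theorem g24_int {X : Type} [MeasurableSpace X] {ρ : Measure X} {f g : X → ℂ} (hf : MemLp f 2 ρ) (hg : MemLp g 2 ρ) :
    Integrable (fun x => star (f x) * g x) ρ := by
  have h1 : MemLp (fun x => star (f x)) 2 ρ := hf.star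
  exact h1.integrable_mul hg

theorem g24_enn {X : Type} [MeasurableSpace X] {ρ : Measure X} {T : X → ℂ} (h : MemLp T 2 ρ) :
    ∫⁻ x, ‖T x‖ₑ ^ 2 ∂ρ = ENNReal.ofReal (∫ x, ‖T x‖ ^ 2 ∂ρ) := by
  have hi : Integrable (fun x => ‖T x‖ ^ 2) ρ := h.integrable_norm_pow (by norm_num)
  rw [ofReal_integral_eq_lintegral_ofReal hi (ae_of_all _ fun x => by positivity)]
  refine lintegral_congr fun x => ?_
  rw [ENNReal.ofReal_pow (norm_nonneg _), ofReal_norm]

/-- PROOF. `fd_eq`, then expand `‖∑ c_i f_i‖² = ∑ c_i conj(c_k) f_i conj(f_k)` and integrate over `F` (`MemLp.integrable_mul`-type integrability); `∫⁻ ‖g‖ₑ² = ofReal ∫ ‖g‖²` for `g ∈ L²`. Compare `H33W` (file Fin or E..) for the same computation. -/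
theorem on_sum (μ : Measure (SP n (EE K))) [μ.IsHaarMeasure] {F F₀ : Set (SP n (EE K))} (hF : IsFundamentalDomain (GammaS n 𝔫) F μ) (hF₀ : SF (GammaS n 𝔫) F₀)
    {φ : SP n (EE K) → ℂ} {m : ℕ} {f : Fin m → SP n (EE K) → ℂ} (hf : ∀ i, AutS 𝔫 μ F φ (f i))
    (ho : ∀ i k, ∫ x in F, star (f i x) * f k x ∂μ = if i = k then 1 else 0) (c : Fin m → ℂ) :
    ∫⁻ x in F₀, ‖∑ i, c i * f i x‖ₑ ^ 2 ∂μ = ENNReal.ofReal (∑ i, ‖c i‖ ^ 2) := by
  rw [← fd_eq μ hF hF₀ (Φ := fun x => ‖∑ i, c i * f i x‖ₑ ^ 2) fun γ hγ x => by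
    simp_rw [(hf _).inv γ hγ x]]
  have lg : MemLp (fun y => ∑ i, c i * f i y) 2 (μ.restrict F) :=
    memLp_finsetSum _ fun i _ => (hf i).l2.const_mul (c i)
  rw [g24_enn lg]
  congr 1
  apply Complex.ofReal_injective
  rw [← integral_complex_ofReal]
  have h2 : ∀ x, ((‖∑ i, c i * f i x‖ ^ 2 : ℝ) : ℂ) =
      ∑ i, ∑ k, (star (c i) * c k) * (star (f i x) * f k x) := by
    intro x
    have h3 : ((‖∑ i, c i * f i x‖ ^ 2 : ℝ) : ℂ) = star (∑ i, c i * f i x) * ∑ k, c k * f k x := by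
      rw [← Complex.normSq_eq_norm_sq, Complex.normSq_eq_conj_mul_self]
      rfl
    rw [h3, star_sum, Finset.sum_mul]
    refine Finset.sum_congr rfl fun i _ => ?_
    rw [Finset.mul_sum]
    refine Finset.sum_congr rfl fun k _ => ?_
    rw [star_mul']
    ring
  simp_rw [h2]
  have hi : ∀ i k, Integrable (fun x => (star (c i) * c k) * (star (f i x) * f k x)) (μ.restrict F) :=
    fun i k => (g24_int (hf i).l2 (hf k).l2).const_mul _
  rw [integral_finsetSum _ fun i _ => integrable_finsetSum _ fun k _ => hi i k]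
  rw [Complex.ofReal_sum]
  refine Finset.sum_congr rfl fun i _ => ?_
  rw [integral_finsetSum _ fun k _ => hi i k, Finset.sum_eq_single i]
  · rw [integral_const_mul, ho i i, if_pos rfl, mul_one, ← Complex.normSq_eq_norm_sq,
      Complex.normSq_eq_conj_mul_self]
    rfl
  · intro k _ hk
    rw [integral_const_mul, ho i k, if_neg hk.symm, mul_zero]
  · intro h
    exact absurd (Finset.mem_univ i) h

end

end Pool.Agent.Lib.H67G
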