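import Pool.Agent.Lib.H67G.S1
import Pool.Agent.Lib.H33W.C10

/-!
# S2 (M): discreteness and fundamental domains (port of H33W/C10)
-/

namespace Pool.Agent.Lib.H67G

open MeasureTheory Matrix NumberField IsDedekindDomain Pool.Agent.Lib.H89N Pool.Agent.Lib.H33W
open scoped ENNReal Pointwise

noncomputable section

set_option linter.unusedSectionVars false

variable {n : ℕ} {K : Type} [Field K] [NumberField K]

/-- All the elements of `Γ` have the denominator `c`. -/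
def HasDS (c : ℕ) (Γ : Subgroup (SP n K)) : Prop :=
  ∀ γ ∈ Γ, ∀ i l, ∃ y : 𝓞 K, (c : K) * γ.val i l = ((y : 𝓞 K) : K)

/-!
PROOFS: ports of `H33W.hasD_finite`, `H33W.c10_nhd`, `H33W.exists_sf` (file H33W/C10; `H89N.a10_bdd` in FN3) with matrices indexed by `Fin n ⊕ Fin n`. The group `SP n (EE K)` is a second countable locally compact Hausdorff group (closed subset of the matrices: `{g | g J gᵗ = J}`); instances.
`sf_sub`: the actions of `↥(UGS n K)` and of `SP n K` on `SP n (EE K)` are the same (`embS g * x`), the elements of `Γ ⊓ UGS` and of `Γ.subgroupOf UGS` correspond.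
-/

theorem s2_valc : Continuous (SP.val : SP n (EE K) → Matrix (Fin n ⊕ Fin n) (Fin n ⊕ Fin n) (EE K)) :=
  continuous_induced_dom

theorem s2_inj : Function.Injective (SP.val : SP n (EE K) → Matrix (Fin n ⊕ Fin n) (Fin n ⊕ Fin n) (EE K)) :=
  fun _ _ h => SP.ext h

theorem s2_emb : Topology.IsClosedEmbedding (SP.val : SP n (EE K) → Matrix (Fin n ⊕ Fin n) (Fin n ⊕ Fin n) (EE K)) := by
  refine ⟨⟨⟨rfl⟩, s2_inj⟩, ?_⟩
  have e : Set.range (SP.val : SP n (EE K) → Matrix (Fin n ⊕ Fin n) (Fin n ⊕ Fin n) (EE K)) =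
      {g | g * Matrix.J (Fin n) (EE K) * gᵀ = Matrix.J (Fin n) (EE K)} := by
    ext g
    constructor
    · rintro ⟨x, rfl⟩
      exact x.prop
    · intro h
      exact ⟨⟨g, h⟩, rfl⟩
  rw [e]
  refine isClosed_eq ?_ continuous_const
  exact (continuous_id.matrix_mul continuous_const).matrix_mul continuous_id.matrix_transpose

instance sp_t2 : T2Space (SP n (EE K)) :=
  T2Space.of_injective_continuous s2_inj s2_valc

instance sp_lc : LocallyCompactSpace (SP n (EE K)) :=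
  s2_emb.locallyCompactSpace

instance sp_sc : SecondCountableTopology (SP n (EE K)) :=
  s2_emb.isInducing.secondCountableTopology

theorem act_defS (g : SP n K) (x : SP n (EE K)) : g • x = embS g * x := rfl

instance act_measS : MeasurableConstSMul (SP n K) (SP n (EE K)) := ⟨fun g => (continuous_const_mul (embS g)).measurable⟩

instance act_invS (μ : Measure (SP n (EE K))) [μ.IsMulLeftInvariant] : SMulInvariantMeasure (SP n K) (SP n (EE K)) μ := ⟨by
  intro g s _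
  exact measure_preimage_mul μ (embS g) s⟩

theorem s2_bdd {Q : Set (SP n (EE K))} (hQ : IsCompact Q) :
    ∃ B : ℝ, ∀ y ∈ Q, ∀ (w : InfinitePlace K) (i l : Fin n ⊕ Fin n), mixedEmbedding.normAtPlace w (y.val i l) ≤ B := by
  have h : ∀ p : InfinitePlace K × (Fin n ⊕ Fin n) × (Fin n ⊕ Fin n), ∃ B : ℝ, ∀ y ∈ Q,
      ‖mixedEmbedding.normAtPlace p.1 (y.val p.2.1 p.2.2)‖ ≤ B := by
    intro p
    apply hQ.exists_bound_of_continuousOn
    apply Continuous.continuousOn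
    apply (mixedEmbedding.continuous_normAtPlace p.1).comp
    exact (continuous_apply_apply p.2.1 p.2.2).comp s2_valc
  choose B hB using h
  refine ⟨∑ p, |B p|, fun y hy w i l => ?_⟩
  have h1 := hB (w, i, l) y hy
  have h2 : |B (w, i, l)| ≤ ∑ p, |B p| :=
    Finset.single_le_sum (f := fun p => |B p|) (fun p _ => abs_nonneg _) (Finset.mem_univ (w, i, l))
  calc mixedEmbedding.normAtPlace w (y.val i l) ≤ ‖mixedEmbedding.normAtPlace w (y.val i l)‖ := le_abs_self _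
    _ ≤ B (w, i, l) := h1
    _ ≤ |B (w, i, l)| := le_abs_self _
    _ ≤ _ := h2

theorem hasDS_finite {c : ℕ} (hc : c ≠ 0) {Γ : Subgroup (SP n K)} (hΓ : HasDS c Γ) {Q : Set (SP n (EE K))} (hQ : IsCompact Q) :
    {γ : SP n K | γ ∈ Γ ∧ embS γ ∈ Q}.Finite := by
  obtain ⟨B, hB⟩ := s2_bdd hQ
  have hfin := NumberField.Embeddings.finite_of_norm_le K ℂ ((c : ℝ) * B)
  have h2 : {A : (Fin n ⊕ Fin n) → (Fin n ⊕ Fin n) → K | ∀ i l, A i l ∈
      {x : K | IsIntegral ℤ x ∧ ∀ φ : K →+* ℂ, ‖φ x‖ ≤ (c : ℝ) * B}}.Finite := by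
    have h3 := Set.Finite.pi' (ι := Fin n ⊕ Fin n) (κ := fun _ => (Fin n ⊕ Fin n) → K) (t := fun _ => {r : (Fin n ⊕ Fin n) → K | ∀ l, r l ∈
      {x : K | IsIntegral ℤ x ∧ ∀ φ : K →+* ℂ, ‖φ x‖ ≤ (c : ℝ) * B}}) (fun _ => Set.Finite.pi' fun _ => hfin)
    exact h3
  apply Set.Finite.of_finite_image (f := fun γ : SP n K => (fun i l => (c : K) * γ.val i l : (Fin n ⊕ Fin n) → (Fin n ⊕ Fin n) → K))
  · apply h2.subset
    rintro A ⟨γ, ⟨hγ, hγQ⟩, rfl⟩
    intro i l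
    obtain ⟨y, hy⟩ := hΓ γ hγ i l
    refine ⟨?_, fun φ => ?_⟩
    · change IsIntegral ℤ ((c : K) * γ.val i l)
      rw [hy]
      exact RingOfIntegers.isIntegral_coe y
    · change ‖φ ((c : K) * γ.val i l)‖ ≤ _
      have h4 := hB _ hγQ (InfinitePlace.mk φ) i l
      have h5 : mixedEmbedding.normAtPlace (InfinitePlace.mk φ) ((embS γ).val i l) = ‖φ (γ.val i l)‖ := by
        change mixedEmbedding.normAtPlace (InfinitePlace.mk φ) (mixedEmbedding K (γ.val i l)) = _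
        rw [mixedEmbedding.normAtPlace_apply]
        rfl
      rw [h5] at h4
      rw [map_mul, map_natCast, norm_mul, RCLike.norm_natCast]
      exact mul_le_mul_of_nonneg_left h4 (Nat.cast_nonneg c)
  · intro a _ b _ hab
    apply SP.ext
    ext i l
    have h := congrFun (congrFun hab i) l
    exact mul_left_cancel₀ (Nat.cast_ne_zero.2 hc) h

theorem s2_nhd {c : ℕ} (hc : c ≠ 0) {Γ : Subgroup (SP n K)} (hΓ : HasDS c Γ) (x : SP n (EE K)) : ∃ U : Set (SP n (EE K)), IsOpen U ∧ x ∈ U ∧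
    ∀ γ ∈ Γ, γ ≠ 1 → ∀ u ∈ U, embS γ * u ∉ U := by
  obtain ⟨V, hV, hVx⟩ := exists_compact_mem_nhds x
  have hcomp : IsCompact (V * V⁻¹) := hV.mul hV.inv
  have hfin : {γ : SP n K | γ ∈ Γ ∧ γ ≠ 1 ∧ embS γ ∈ V * V⁻¹}.Finite :=
    (hasDS_finite hc hΓ hcomp).subset (fun γ hγ => ⟨hγ.1, hγ.2.2⟩)
  have hsep : ∀ γ : SP n K, ∃ W : Set (SP n (EE K)), IsOpen W ∧ x ∈ W ∧ (γ ≠ 1 → ∀ u ∈ W, embS γ * u ∉ W) := by
    intro γ
    by_cases hγ : γ = 1
    · exact ⟨Set.univ, isOpen_univ, Set.mem_univ _, fun h => absurd hγ h⟩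
    · have hne : x ≠ embS γ * x := by
        intro h
        apply hγ
        apply embS_inj
        rw [map_one]
        exact mul_eq_right.1 h.symm
      obtain ⟨A, B, hA, hB, hxA, hxB, hAB⟩ := t2_separation hne
      refine ⟨A ∩ (fun u => embS γ * u) ⁻¹' B, hA.inter (hB.preimage (continuous_const_mul _)), ⟨hxA, hxB⟩, ?_⟩
      rintro - u ⟨hu1, hu2⟩ ⟨hu3, -⟩
      exact Set.disjoint_left.1 hAB hu3 hu2
  choose W hW1 hW2 hW3 using hsep
  refine ⟨interior V ∩ ⋂ γ ∈ hfin.toFinset, W γ, ?_, ?_, ?_⟩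
  · exact isOpen_interior.inter (isOpen_biInter_finset fun γ _ => hW1 γ)
  · exact ⟨mem_interior_iff_mem_nhds.2 hVx, Set.mem_iInter₂.2 fun γ _ => hW2 γ⟩
  · rintro γ hγ hne u ⟨hu1, hu2⟩ ⟨hu3, hu4⟩
    have hmem : γ ∈ hfin.toFinset := by
      rw [Set.Finite.mem_toFinset]
      refine ⟨hγ, hne, ?_⟩
      have e : embS γ = (embS γ * u) * u⁻¹ := by rw [mul_inv_cancel_right]
      rw [e]
      exact Set.mul_mem_mul (interior_subset hu3) (Set.inv_mem_inv.2 (interior_subset hu1))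
    exact hW3 γ hne u (Set.mem_iInter₂.1 hu2 γ hmem) (Set.mem_iInter₂.1 hu4 γ hmem)

theorem exists_sfS {c : ℕ} (hc : c ≠ 0) {Γ : Subgroup (SP n K)} (hΓ : HasDS c Γ) : ∃ F : Set (SP n (EE K)), SF Γ F := by
  choose U hU1 hU2 hU3 using s2_nhd (n := n) (K := K) hc hΓ
  obtain ⟨S, hS, hSU⟩ := TopologicalSpace.countable_cover_nhds (f := U) fun x => (hU1 x).mem_nhds (hU2 x)
  have hSne : S.Nonempty := by
    by_contra h
    rw [Set.not_nonempty_iff_eq_empty] at h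
    rw [h] at hSU
    have h1 : (1 : SP n (EE K)) ∈ (⋃ x ∈ (∅ : Set (SP n (EE K))), U x) := by rw [hSU]; trivial
    simp at h1
  obtain ⟨s, hs⟩ := hS.exists_eq_range hSne
  have hcov : ∀ x : SP n (EE K), ∃ n, x ∈ U (s n) := by
    intro x
    have h1 : x ∈ (⋃ x ∈ S, U x) := by rw [hSU]; trivial
    obtain ⟨y, hy, hxy⟩ := Set.mem_iUnion₂.1 h1
    rw [hs] at hy
    obtain ⟨n, rfl⟩ := hy
    exact ⟨n, hxy⟩
  let T : ℕ → Set (SP n (EE K)) := fun m => ⋃ γ : Γ, (fun x => γ • x) ⁻¹' U (s m)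
  have hTo : ∀ m, IsOpen (T m) := by
    intro m
    apply isOpen_iUnion
    intro γ
    exact (hU1 (s m)).preimage (continuous_const_mul (embS γ.1))
  have hTinv : ∀ m (γ : Γ) x, γ • x ∈ T m ↔ x ∈ T m := by
    intro m γ x
    constructor
    · intro h
      obtain ⟨δ, hδ⟩ := Set.mem_iUnion.1 h
      refine Set.mem_iUnion.2 ⟨δ * γ, ?_⟩
      change (δ * γ) • x ∈ U (s m)
      rw [mul_smul]
      exact hδ
    · intro h
      obtain ⟨δ, hδ⟩ := Set.mem_iUnion.1 h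
      refine Set.mem_iUnion.2 ⟨δ * γ⁻¹, ?_⟩
      change (δ * γ⁻¹) • (γ • x) ∈ U (s m)
      rw [← mul_smul, inv_mul_cancel_right]
      exact hδ
  have hUT : ∀ m, U (s m) ⊆ T m := by
    intro m x hx
    refine Set.mem_iUnion.2 ⟨1, ?_⟩
    change (1 : Γ) • x ∈ U (s m)
    rw [one_smul]
    exact hx
  refine ⟨⋃ m, (U (s m) \ ⋃ j ∈ Finset.range m, T j), ?_, ?_⟩
  · apply MeasurableSet.iUnion
    intro m
    exact (hU1 (s m)).measurableSet.diff (Finset.measurableSet_biUnion _ fun j _ => (hTo j).measurableSet)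
  · intro x
    classical
    have hex : ∃ m, x ∈ T m := by
      obtain ⟨m, hm⟩ := hcov x
      exact ⟨m, hUT m hm⟩
    have hmin := fun m (hm : m < Nat.find hex) => Nat.find_min hex hm
    obtain ⟨γ, hγ⟩ := Set.mem_iUnion.1 (Nat.find_spec hex)
    have key : ∀ δ : Γ, δ • x ∈ (⋃ m, (U (s m) \ ⋃ j ∈ Finset.range m, T j)) →
        δ • x ∈ U (s (Nat.find hex)) := by
      intro δ hδ
      obtain ⟨m, hn1, hn2⟩ := Set.mem_iUnion.1 hδ
      have hle : Nat.find hex ≤ m := Nat.find_min' hex ((hTinv m δ x).1 (hUT m hn1))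
      have hge : m ≤ Nat.find hex := by
        by_contra hcon
        apply hn2
        exact Set.mem_iUnion₂.2 ⟨Nat.find hex, Finset.mem_range.2 (not_le.1 hcon),
          (hTinv _ δ x).2 (Nat.find_spec hex)⟩
      have : m = Nat.find hex := le_antisymm hge hle
      rw [← this]
      exact hn1
    refine ⟨γ, ?_, ?_⟩
    · refine Set.mem_iUnion.2 ⟨Nat.find hex, hγ, ?_⟩
      intro h
      obtain ⟨m, hm, hmT⟩ := Set.mem_iUnion₂.1 h
      exact hmin m (Finset.mem_range.1 hm) ((hTinv m γ x).1 hmT)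
    · intro δ hδ
      have h1 := key δ hδ
      by_contra hne
      have h2 : (δ * γ⁻¹).1 ≠ 1 := by
        intro h
        apply hne
        have h3 : δ * γ⁻¹ = 1 := Subtype.ext h
        exact mul_inv_eq_one.1 h3
      have h4 := hU3 (s (Nat.find hex)) (δ * γ⁻¹).1 (δ * γ⁻¹).2 h2 (γ • x) hγ
      apply h4
      have h5 : embS (δ * γ⁻¹).1 * (γ • x) = (δ * γ⁻¹) • (γ • x) := rfl
      rw [h5, ← mul_smul, inv_mul_cancel_right]
      exact h1

theorem sf_sub {Γ : Subgroup (SP n K)} {F : Set (SP n (EE K))} : SF (Γ ⊓ UGS n K) F ↔ SF (Γ.subgroupOf (UGS n K)) F := by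
  constructor
  · intro h
    refine ⟨h.meas, fun x => ?_⟩
    obtain ⟨g, hg, hu⟩ := h.fd x
    refine ⟨⟨⟨g.1, g.2.2⟩, Subgroup.mem_subgroupOf.2 g.2.1⟩, hg, ?_⟩
    rintro ⟨⟨g', h1⟩, h2⟩ h3
    have h4 := hu ⟨g', Subgroup.mem_subgroupOf.1 h2, h1⟩ h3
    apply Subtype.ext
    apply Subtype.ext
    exact congrArg (fun z : ↥(Γ ⊓ UGS n K) => (z : SP n K)) h4
  · intro h
    refine ⟨h.meas, fun x => ?_⟩
    obtain ⟨g, hg, hu⟩ := h.fd x
    refine ⟨⟨((g : UGS n K) : SP n K), Subgroup.mem_subgroupOf.1 g.2, g.1.2⟩, hg, ?_⟩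
    rintro ⟨g', h1, h2⟩ h3
    have h4 := hu ⟨⟨g', h2⟩, Subgroup.mem_subgroupOf.2 h1⟩ h3
    apply Subtype.ext
    exact congrArg (fun z : ↥(Γ.subgroupOf (UGS n K)) => ((z : UGS n K) : SP n K)) h4

theorem gdS_den {𝔪 : Ideal (𝓞 K)} {v : HeightOneSpectrum (𝓞 K)} {k : ℕ} {Γ : Subgroup (SP n K)} (hG : GdS 𝔪 v k Γ) :
    HasDS (Ideal.absNorm v.asIdeal ^ (2 * k)) Γ ∧ Ideal.absNorm v.asIdeal ^ (2 * k) ≠ 0 :=
  ⟨hG.den, c10_ne v (2 * k)⟩

/-- The averaging data of file B1 for `U`. -/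
theorem avgS (μ : Measure (SP n (EE K))) [μ.IsHaarMeasure] :
    Avg (UGS n K) μ (volume : Measure (TI n → EE K)) (fun t x => uT t * x) iT := by
  refine ⟨?_, fun t => measurePreserving_mul_left μ (uT t), iT_mp, fun t x => ?_, fun t x => ?_, fun h t x => ?_, ut_mp⟩
  · exact ((uT_cont.comp continuous_fst).mul continuous_snd).measurable
  · show uT (iT t) * (uT t * x) = x
    rw [uT_iT, inv_mul_cancel_left]
  · show uT t * (uT (iT t) * x) = x
    rw [uT_iT, mul_inv_cancel_left]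
  · show uT (h • t) * x = embS (h : SP n K) * (uT t * x)
    rw [uT_smul, mul_assoc]

end

end Pool.Agent.Lib.H67G
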