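import Pool.Agent.Lib.H67G.V4B
import Pool.Agent.Lib.H67G.S2

/-!
# G25 (M): the convolution operator and the Whittaker coefficient
-/

namespace Pool.Agent.Lib.H67G

open MeasureTheory Matrix NumberField IsDedekindDomain Pool.Agent.Lib.H89N Pool.Agent.Lib.H33W
open scoped ENNReal Pointwise

noncomputable section

set_option linter.unusedSectionVars false

variable {n : ℕ} {K : Type} [Field K] [NumberField K]

theorem g25_box : BoxS n K = Set.pi Set.univ fun _ : TI n => FD K := by
  ext t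
  simp [BoxS]

theorem g25_meas : MeasurableSet (BoxS n K) := by
  rw [g25_box]
  exact MeasurableSet.univ_pi fun _ => FD_meas

theorem g25_bdd : Bornology.IsBounded (BoxS n K) := by
  rw [g25_box]
  exact Bornology.IsBounded.pi fun _ => FD_bdd

theorem g25_top : volume (BoxS n K) ≠ ⊤ := g25_bdd.measure_lt_top.ne

/-- The integrand of the Whittaker coefficient. -/
def g25H [NeZero n] (N : ℕ) (θ₀ : EE K →ₗ[ℝ] ℝ) (θ : Fin n → (EE K →ₗ[ℝ] ℝ)) (f : SP n (EE K) → ℂ) (x : SP n (EE K)) (t : TI n → EE K) : ℂ :=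
  f (uT (fun p => (N : EE K) * t p) * x) * ee (-chS θ₀ θ fun p => (N : EE K) * t p)

theorem g25_scal (N : ℕ) : Continuous fun t : TI n → EE K => fun p => (N : EE K) * t p :=
  continuous_pi fun p => continuous_const.mul (continuous_apply p)

theorem g25H_cont [NeZero n] (N : ℕ) (θ₀ : EE K →ₗ[ℝ] ℝ) (θ : Fin n → (EE K →ₗ[ℝ] ℝ)) {f : SP n (EE K) → ℂ} (cf : Continuous f) :
    Continuous fun q : SP n (EE K) × (TI n → EE K) => g25H N θ₀ θ f q.1 q.2 := by
  unfold g25H
  exact (cf.comp ((uT_cont.comp ((g25_scal N).comp continuous_snd)).mul continuous_fst)).mul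
    (ee_continuous.comp ((chS_cont θ₀ θ).comp ((g25_scal N).comp continuous_snd)).neg)

theorem g25_wh [NeZero n] (N : ℕ) (θ₀ : EE K →ₗ[ℝ] ℝ) (θ : Fin n → (EE K →ₗ[ℝ] ℝ)) (f : SP n (EE K) → ℂ) (x : SP n (EE K)) :
    WhS N θ₀ θ f x = (volume.real (BoxS n K))⁻¹ • ∫ t in BoxS n K, g25H N θ₀ θ f x t := by
  unfold WhS
  rw [setAverage_eq]
  rfl

/-- PROOF. `∫_y (⨍_t f(uT(N t) x y) ee(..)) φ(y) = ⨍_t ee(..) ∫_y f(uT(N t) x y) φ(y) = ⨍_t ee(..) lam f(uT(N t) x)`: Fubini on `BoxS × supp φ` (`BoxS` is bounded with finite volume, `φ` has compact support, all the functions are continuous). -/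
theorem wh_conv [NeZero n] (μ : Measure (SP n (EE K))) [μ.IsHaarMeasure] (N : ℕ) (θ₀ : EE K →ₗ[ℝ] ℝ) (θ : Fin n → (EE K →ₗ[ℝ] ℝ)) {φ f : SP n (EE K) → ℂ}
    (cφ : Continuous φ) (sφ : HasCompactSupport φ) (cf : Continuous f) {lam : ℂ} (he : ∀ x, ∫ y, f (x * y) * φ y ∂μ = lam * f x) (x : SP n (EE K)) :
    ∫ y, WhS N θ₀ θ f (x * y) * φ y ∂μ = lam * WhS N θ₀ θ f x := by
  have hfin : IsFiniteMeasure (volume.restrict (BoxS n K)) := by
    refine ⟨?_⟩
    rw [Measure.restrict_apply_univ]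
    exact lt_top_iff_ne_top.2 g25_top
  let G : SP n (EE K) → (TI n → EE K) → ℂ := fun y t => g25H N θ₀ θ f (x * y) t * φ y
  have hG : Continuous (Function.uncurry G) := by
    have h1 : Continuous fun q : SP n (EE K) × (TI n → EE K) => g25H N θ₀ θ f (x * q.1) q.2 :=
      (g25H_cont N θ₀ θ cf).comp ((continuous_const.mul continuous_fst).prodMk continuous_snd)
    exact h1.mul (cφ.comp continuous_fst)
  have hKc : IsCompact (tsupport φ ×ˢ closure (BoxS n K)) := sφ.prod g25_bdd.isCompact_closure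
  obtain ⟨C, hC⟩ := hKc.exists_bound_of_continuousOn hG.continuousOn
  have hint : Integrable (Function.uncurry G) (μ.prod (volume.restrict (BoxS n K))) := by
    have h1 : Integrable ((tsupport φ).indicator fun _ => C) μ := by
      rw [integrable_indicator_iff sφ.isClosed.measurableSet]
      have h2 : IsFiniteMeasure (μ.restrict (tsupport φ)) := by
        refine ⟨?_⟩
        rw [Measure.restrict_apply_univ]
        exact sφ.measure_lt_top
      exact integrable_const _
    have h3 := h1.comp_fst (volume.restrict (BoxS n K))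
    refine h3.mono' hG.aestronglyMeasurable ?_
    have h4 : μ.prod (volume.restrict (BoxS n K)) = (μ.prod volume).restrict (Set.univ ×ˢ BoxS n K) := by
      rw [← Measure.prod_restrict, Measure.restrict_univ]
    rw [h4]
    refine ae_restrict_of_forall_mem (MeasurableSet.univ.prod g25_meas) ?_
    rintro ⟨y, t⟩ ⟨_, ht⟩
    show ‖G y t‖ ≤ (tsupport φ).indicator (fun _ => C) y
    by_cases hy : y ∈ tsupport φ
    · rw [Set.indicator_of_mem hy]
      exact hC (y, t) ⟨hy, subset_closure ht⟩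
    · rw [Set.indicator_of_notMem hy]
      have h5 : φ y = 0 := image_eq_zero_of_notMem_tsupport hy
      show ‖g25H N θ₀ θ f (x * y) t * φ y‖ ≤ 0
      rw [h5, mul_zero, norm_zero]
  have h6 : ∀ y, WhS N θ₀ θ f (x * y) * φ y = (volume.real (BoxS n K))⁻¹ • ∫ t in BoxS n K, G y t := by
    intro y
    rw [g25_wh, smul_mul_assoc, ← integral_mul_const]
  simp_rw [h6]
  rw [integral_smul, integral_integral_swap hint, g25_wh, mul_smul_comm, ← integral_const_mul]
  congr 1
  refine integral_congr_ae (Filter.Eventually.of_forall fun t => ?_)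
  show ∫ y, g25H N θ₀ θ f (x * y) t * φ y ∂μ = lam * g25H N θ₀ θ f x t
  have h7 := he (uT (fun p => (N : EE K) * t p) * x)
  have h8 : ∀ y, g25H N θ₀ θ f (x * y) t * φ y = ee (-chS θ₀ θ fun p => (N : EE K) * t p) *
      (f (uT (fun p => (N : EE K) * t p) * x * y) * φ y) := by
    intro y
    show f (uT (fun p => (N : EE K) * t p) * (x * y)) * ee (-chS θ₀ θ fun p => (N : EE K) * t p) * φ y = _
    rw [← mul_assoc (uT (fun p => (N : EE K) * t p)) x y]
    ring
  simp_rw [h8]
  rw [integral_const_mul, h7]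
  unfold g25H
  ring

theorem g25_intc [NeZero n] (N : ℕ) (θ₀ : EE K →ₗ[ℝ] ℝ) (θ : Fin n → (EE K →ₗ[ℝ] ℝ)) {f : SP n (EE K) → ℂ} (cf : Continuous f) :
    Continuous fun x => ∫ t in BoxS n K, g25H N θ₀ θ f x t := by
  have hc := g25H_cont N θ₀ θ cf
  have hK : IsCompact (closure (BoxS n K)) := g25_bdd.isCompact_closure
  have hfin : IsFiniteMeasure (volume.restrict (BoxS n K)) := by
    refine ⟨?_⟩
    rw [Measure.restrict_apply_univ]
    exact lt_top_iff_ne_top.2 g25_top
  rw [continuous_iff_continuousAt]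
  intro x₀
  have hx : ∀ x, Continuous fun t => g25H N θ₀ θ f x t := fun x => by
    unfold g25H
    exact (cf.comp ((uT_cont.comp (g25_scal N)).mul continuous_const)).mul
      (ee_continuous.comp ((chS_cont θ₀ θ).comp (g25_scal N)).neg)
  obtain ⟨C, hC⟩ := hK.exists_bound_of_continuousOn (f := fun t => g25H N θ₀ θ f x₀ t) (hx x₀).continuousOn
  have hev : ∀ᶠ x in nhds x₀, ∀ t ∈ closure (BoxS n K), ‖g25H N θ₀ θ f x t‖ < C + 1 := by
    refine hK.eventually_forall_of_forall_eventually ?_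
    intro t ht
    have h1 : ContinuousAt (fun q : SP n (EE K) × (TI n → EE K) => ‖g25H N θ₀ θ f q.1 q.2‖) (x₀, t) :=
      hc.norm.continuousAt
    have h2 : ‖g25H N θ₀ θ f x₀ t‖ < C + 1 := lt_of_le_of_lt (hC t ht) (lt_add_one C)
    exact h1.eventually (gt_mem_nhds h2)
  refine continuousAt_of_dominated (bound := fun _ => C + 1) ?_ ?_ (integrable_const _) ?_
  · exact Filter.Eventually.of_forall fun x => (hx x).aestronglyMeasurable
  · filter_upwards [hev] with x hx
    exact ae_restrict_of_forall_mem g25_meas fun t ht => (hx t (subset_closure ht)).le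
  · refine Filter.Eventually.of_forall fun t => ?_
    exact (hc.comp (continuous_id.prodMk continuous_const)).continuousAt

/-- PROOF. As `mnS_cont`. -/
theorem wh_cont [NeZero n] (N : ℕ) (θ₀ : EE K →ₗ[ℝ] ℝ) (θ : Fin n → (EE K →ₗ[ℝ] ℝ)) {f : SP n (EE K) → ℂ} (cf : Continuous f) : Continuous (WhS N θ₀ θ f) := by
  have e : WhS N θ₀ θ f = fun x => (((volume.real (BoxS n K))⁻¹ : ℝ) : ℂ) * ∫ t in BoxS n K, g25H N θ₀ θ f x t :=
    funext fun x => by rw [g25_wh, Complex.real_smul]
  rw [e]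
  exact continuous_const.mul (g25_intc N θ₀ θ cf)

end

end Pool.Agent.Lib.H67G
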