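import Mathlib

/-!
# G26 (M, pure): duality and Cauchy-Schwarz
-/

namespace Pool.Agent.Lib.H67G

open MeasureTheory
open scoped ENNReal

noncomputable section

set_option linter.unusedSectionVars false


/-- PROOF. `c_i = star z_i`: `S = ∑ ‖z_i‖² = ∑ c_i z_i = ∫ (∑ c_i w_i) φ`, so `S² ≤ (∫_Q ‖∑ c_i w_i‖²) (∫ ‖φ‖²) ≤ B S ∫ ‖φ‖²` (Cauchy-Schwarz for `lintegral`: `ENNReal.lintegral_mul_le_Lp_mul_Lq`; `φ = 0` outside `Q`). If `S = 0` trivial, otherwise divide. -/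
theorem dual {X : Type} [MeasurableSpace X] {μ : Measure X} {m : ℕ} {w : Fin m → X → ℂ} {φ : X → ℂ} {z : Fin m → ℂ} {Q : Set X} {B : ℝ} (hB : 0 ≤ B)
    (mw : ∀ i, Measurable (w i)) (mφ : Measurable φ) (hφ : ∀ y, y ∉ Q → φ y = 0) (hφ2 : ∫⁻ y, ‖φ y‖ₑ ^ 2 ∂μ ≠ ⊤)
    (hi : ∀ i, Integrable (fun y => w i y * φ y) μ) (hz : ∀ i, ∫ y, w i y * φ y ∂μ = z i)
    (h : ∀ c : Fin m → ℂ, ∫⁻ y in Q, ‖∑ i, c i * w i y‖ₑ ^ 2 ∂μ ≤ ENNReal.ofReal (B * ∑ i, ‖c i‖ ^ 2)) :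
    ∑ i, ‖z i‖ ^ 2 ≤ B * (∫⁻ y, ‖φ y‖ₑ ^ 2 ∂μ).toReal := by
  set S : ℝ := ∑ i, ‖z i‖ ^ 2 with hS
  have hS0 : 0 ≤ S := Finset.sum_nonneg fun i _ => sq_nonneg _
  set g : X → ℂ := fun y => ∑ i, star (z i) * w i y with hg
  have mg : Measurable g := Finset.measurable_fun_sum _ fun i _ => (mw i).const_mul _
  have e1 : (S : ℂ) = ∫ y, g y * φ y ∂μ := by
    have h1 : ∀ y, g y * φ y = ∑ i, star (z i) * (w i y * φ y) := by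
      intro y
      rw [hg, Finset.sum_mul]
      exact Finset.sum_congr rfl fun i _ => by ring
    simp_rw [h1]
    rw [integral_finsetSum _ (fun i _ => (hi i).const_mul _)]
    simp_rw [integral_const_mul, hz]
    rw [hS, Complex.ofReal_sum]
    refine Finset.sum_congr rfl fun i _ => ?_
    rw [← Complex.normSq_eq_norm_sq, Complex.normSq_eq_conj_mul_self]
    rfl
  have e2 : ENNReal.ofReal S ≤ ∫⁻ y, ‖g y‖ₑ * ‖φ y‖ₑ ∂μ := by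
    calc ENNReal.ofReal S = ‖(S : ℂ)‖ₑ := by
          rw [← ofReal_norm, Complex.norm_real, Real.norm_of_nonneg hS0]
      _ = ‖∫ y, g y * φ y ∂μ‖ₑ := by rw [e1]
      _ ≤ ∫⁻ y, ‖g y * φ y‖ₑ ∂μ := enorm_integral_le_lintegral_enorm _
      _ = _ := by simp_rw [enorm_mul]
  set Q' : Set X := {y | φ y ≠ 0} with hQ'
  have mQ' : MeasurableSet Q' := mφ (measurableSet_singleton (0 : ℂ)).compl
  have hQQ : Q' ⊆ Q := by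
    intro y hy
    by_contra h1
    exact hy (hφ y h1)
  have e3 : ∫⁻ y, ‖g y‖ₑ * ‖φ y‖ₑ ∂μ = ∫⁻ y in Q', ‖g y‖ₑ * ‖φ y‖ₑ ∂μ := by
    rw [← lintegral_indicator mQ']
    refine lintegral_congr fun y => ?_
    by_cases hy : y ∈ Q'
    · rw [Set.indicator_of_mem hy]
    · rw [Set.indicator_of_notMem hy]
      have h1 : φ y = 0 := not_not.1 hy
      rw [h1, enorm_zero, mul_zero]
  have e4 : ∫⁻ y in Q', ‖g y‖ₑ * ‖φ y‖ₑ ∂μ ≤ (∫⁻ y in Q', ‖g y‖ₑ ^ (2 : ℝ) ∂μ) ^ (1 / 2 : ℝ) *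
      (∫⁻ y in Q', ‖φ y‖ₑ ^ (2 : ℝ) ∂μ) ^ (1 / 2 : ℝ) :=
    ENNReal.lintegral_mul_le_Lp_mul_Lq _ Real.HolderConjugate.two_two mg.enorm.aemeasurable
      mφ.enorm.aemeasurable
  have e5 : ∫⁻ y in Q', ‖g y‖ₑ ^ (2 : ℝ) ∂μ ≤ ENNReal.ofReal (B * S) := by
    refine (lintegral_mono_set hQQ).trans ?_
    have h1 := h fun i => star (z i)
    simp_rw [norm_star] at h1
    simpa only [ENNReal.rpow_two] using h1
  have e6 : ∫⁻ y in Q', ‖φ y‖ₑ ^ (2 : ℝ) ∂μ ≤ ∫⁻ y, ‖φ y‖ₑ ^ 2 ∂μ := by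
    simp only [ENNReal.rpow_two]
    exact setLIntegral_le_lintegral _ _
  have e7 : ENNReal.ofReal S ^ 2 ≤ ENNReal.ofReal (B * S) * ∫⁻ y, ‖φ y‖ₑ ^ 2 ∂μ := by
    have h1 : ENNReal.ofReal S ≤ ENNReal.ofReal (B * S) ^ (1 / 2 : ℝ) *
        (∫⁻ y, ‖φ y‖ₑ ^ 2 ∂μ) ^ (1 / 2 : ℝ) :=
      (e2.trans (e3.le.trans e4)).trans (mul_le_mul' (ENNReal.rpow_le_rpow e5 (by norm_num))
        (ENNReal.rpow_le_rpow e6 (by norm_num)))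
    calc ENNReal.ofReal S ^ 2 ≤ (ENNReal.ofReal (B * S) ^ (1 / 2 : ℝ) *
        (∫⁻ y, ‖φ y‖ₑ ^ 2 ∂μ) ^ (1 / 2 : ℝ)) ^ 2 := pow_le_pow_left' h1 2
      _ = _ := by
        rw [mul_pow, ← ENNReal.rpow_two, ← ENNReal.rpow_two, ← ENNReal.rpow_mul, ← ENNReal.rpow_mul]
        norm_num
  set Φ : ℝ := (∫⁻ y, ‖φ y‖ₑ ^ 2 ∂μ).toReal with hΦ
  have e8 : ∫⁻ y, ‖φ y‖ₑ ^ 2 ∂μ = ENNReal.ofReal Φ := (ENNReal.ofReal_toReal hφ2).symm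
  have hΦ0 : 0 ≤ Φ := ENNReal.toReal_nonneg
  rw [e8, ← ENNReal.ofReal_pow hS0, ← ENNReal.ofReal_mul (mul_nonneg hB hS0)] at e7
  have e9 : S ^ 2 ≤ B * S * Φ := (ENNReal.ofReal_le_ofReal_iff (by positivity)).1 e7
  rcases hS0.eq_or_lt with h1 | h1
  · rw [← h1]
    positivity
  · have h2 : S * S ≤ S * (B * Φ) := by nlinarith [e9]
    exact le_of_mul_le_mul_left h2 h1

end

end Pool.Agent.Lib.H67G
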