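import Pool.Agent.Lib.H67G.Pw

/-!
# G27 (M, pure): lower bound for the coefficients
-/

namespace Pool.Agent.Lib.H67G

open scoped ENNReal

noncomputable section

set_option linter.unusedSectionVars false


theorem g27_geo (c : ℂ) (k : ℕ) : PowerSeries.coeff k (geo c) = c ^ k := by
  rw [geo, PowerSeries.coeff_mk]

theorem g27_om (c : ℂ) (F : PowerSeries ℂ) (k : ℕ) :
    PowerSeries.coeff k (om c 1 * F) = PowerSeries.coeff k F - (if k = 0 then 0 else c * PowerSeries.coeff (k - 1) F) := by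
  rw [om, pow_one, sub_mul, one_mul, map_sub, mul_assoc, PowerSeries.coeff_C_mul]
  congr 1
  rcases k with _ | k
  · rw [if_pos rfl, PowerSeries.coeff_zero_X_mul, mul_zero]
  · rw [if_neg (Nat.succ_ne_zero k), Nat.add_sub_cancel, PowerSeries.coeff_succ_X_mul]

theorem g27_geo_om (c : ℂ) : om c 1 * geo c = 1 := by
  ext k
  rw [g27_om, g27_geo, g27_geo, PowerSeries.coeff_one]
  rcases k with _ | k
  · simp
  · rw [if_neg (Nat.succ_ne_zero k), if_neg (Nat.succ_ne_zero k), Nat.add_sub_cancel, pow_succ']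
    exact sub_self _

theorem g27_bd {m : ℕ} {Λ : ℝ} (hΛ : 0 ≤ Λ) {F : PowerSeries ℂ} (hF : ∀ r, ‖PowerSeries.coeff r F‖ ≤ (m.choose r : ℝ) * Λ ^ r)
    {c : ℂ} (hc : ‖c‖ ≤ Λ) (r : ℕ) : ‖PowerSeries.coeff r (om c 1 * F)‖ ≤ ((m + 1).choose r : ℝ) * Λ ^ r := by
  rw [g27_om]
  rcases r with _ | r
  · rw [if_pos rfl, sub_zero]
    have h := hF 0
    simpa using h
  · rw [if_neg (Nat.succ_ne_zero r), Nat.add_sub_cancel]
    have h1 := hF (r + 1)
    have h2 := hF r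
    have h3 : ‖c * PowerSeries.coeff r F‖ ≤ Λ * ((m.choose r : ℝ) * Λ ^ r) := by
      rw [norm_mul]
      exact mul_le_mul hc h2 (norm_nonneg _) hΛ
    calc ‖PowerSeries.coeff (r + 1) F - c * PowerSeries.coeff r F‖
        ≤ ‖PowerSeries.coeff (r + 1) F‖ + ‖c * PowerSeries.coeff r F‖ := norm_sub_le _ _
      _ ≤ (m.choose (r + 1) : ℝ) * Λ ^ (r + 1) + Λ * ((m.choose r : ℝ) * Λ ^ r) := add_le_add h1 h3
      _ = ((m + 1).choose (r + 1) : ℝ) * Λ ^ (r + 1) := by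
        rw [Nat.choose_succ_succ]
        push_cast
        ring

theorem g27_prod {ι : Type} [DecidableEq ι] (s : Finset ι) (x : ι → ℂ) {Λ : ℝ} (hΛ0 : 0 ≤ Λ) (hΛ : ∀ i, ‖x i‖ ≤ Λ ∧ ‖(x i)⁻¹‖ ≤ Λ) :
    ∀ r, ‖PowerSeries.coeff r (∏ i ∈ s, (om (x i) 1 * om (x i)⁻¹ 1))‖ ≤ ((2 * s.card).choose r : ℝ) * Λ ^ r := by
  induction s using Finset.induction_on with
  | empty =>
    intro r
    rw [Finset.prod_empty, PowerSeries.coeff_one, Finset.card_empty, mul_zero]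
    rcases r with _ | r
    · simp
    · rw [if_neg (Nat.succ_ne_zero r), norm_zero]
      positivity
  | insert a s ha ih =>
    intro r
    rw [Finset.prod_insert ha, Finset.card_insert_of_notMem ha, mul_assoc, mul_add, mul_one]
    exact g27_bd hΛ0 (g27_bd hΛ0 ih (hΛ a).2) (hΛ a).1 r

theorem g27_p {y : ℂ} (hy : y ≠ 0) (j : ℕ) :
    (y - 1) * PowerSeries.coeff j ((1 + PowerSeries.X) * (geo y * geo y⁻¹)) = y ^ (j + 1) - (y ^ j)⁻¹ := by
  have h : PowerSeries.C (y - 1) * ((1 + PowerSeries.X) * (geo y * geo y⁻¹)) = PowerSeries.C y * geo y - geo y⁻¹ := by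
    have e : PowerSeries.C (y - 1) * (1 + PowerSeries.X) = PowerSeries.C y * om y⁻¹ 1 - om y 1 := by
      have e1 : (PowerSeries.C y : PowerSeries ℂ) * PowerSeries.C y⁻¹ = 1 := by
        rw [← map_mul, mul_inv_cancel₀ hy, map_one]
      rw [om, om, pow_one, map_sub, map_one, mul_sub, ← mul_assoc, e1]
      ring
    calc PowerSeries.C (y - 1) * ((1 + PowerSeries.X) * (geo y * geo y⁻¹))
        = (PowerSeries.C (y - 1) * (1 + PowerSeries.X)) * (geo y * geo y⁻¹) := by ring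
      _ = PowerSeries.C y * geo y * (om y⁻¹ 1 * geo y⁻¹) - geo y⁻¹ * (om y 1 * geo y) := by
        rw [e]
        ring
      _ = PowerSeries.C y * geo y - geo y⁻¹ := by rw [g27_geo_om, g27_geo_om, mul_one, mul_one]
  have h1 := congrArg (PowerSeries.coeff j) h
  rw [PowerSeries.coeff_C_mul, map_sub, PowerSeries.coeff_C_mul, g27_geo, g27_geo] at h1
  rw [h1, pow_succ', inv_pow]

/-- PROOF. Let `y ∈ {x_i₀, x_i₀⁻¹}` be the parameter with `‖y‖ = Λ`. `(1 + X) geo(y) geo(y⁻¹) = ∑_j p_j X^j`, `p_j = ∑_{|r| ≤ j} y^r`, `(y - 1) p_j = y^(j+1) - y^(-j)`. So `‖p_j‖ (Λ + 1) ≥ Λ^(j+1) - Λ^(-j) ≥ Λ^(j+1) / 2` (since `2 ≤ Λ^(2j+1)`), `‖p_j‖ ≥ Λ^j / 4`.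
`∑_j p_j X^j = kapP x * ∏_{i ≠ i₀} (1 - x_i X) (1 - x_i⁻¹ X)` (`geo c * (1 - c X) = 1`), a product with `2n - 2` factors: its coefficient of `X^r` is at most `binom(2n-2, r) Λ^r` in absolute value (induction on the number of factors). So `Λ^j / 4 ≤ ∑_{r ≤ min(j, 2n-2)} binom(2n-2, r) Λ^r ‖κ_{j-r}‖`; if all `2^(2n) Λ^r ‖κ_{j-r}‖ < Λ^j` the right side is
`< 2^(2n-2) 2^(-2n) Λ^j = Λ^j / 4`. -/
theorem kap_lower {n : ℕ} (hn : 1 ≤ n) (x : Fin n → ℂ) (hx : ∀ i, x i ≠ 0) {Λ : ℝ} (h1 : 1 ≤ Λ) (hΛ : ∀ i, ‖x i‖ ≤ Λ ∧ ‖(x i)⁻¹‖ ≤ Λ)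
    (h0 : ∃ i, ‖x i‖ = Λ ∨ ‖(x i)⁻¹‖ = Λ) {j : ℕ} (hj : 2 ≤ Λ ^ (2 * j + 1)) :
    ∃ r : ℕ, r ≤ 2 * n - 2 ∧ r ≤ j ∧ Λ ^ (j - r) ≤ 2 ^ (2 * n) * ‖PowerSeries.coeff (j - r) (kapP x)‖ := by
  classical
  have hΛ0 : 0 < Λ := lt_of_lt_of_le one_pos h1
  obtain ⟨i₀, hi₀⟩ := h0
  obtain ⟨y, hy0, hyn, hyg⟩ : ∃ y : ℂ, y ≠ 0 ∧ ‖y‖ = Λ ∧ geo y * geo y⁻¹ = geo (x i₀) * geo (x i₀)⁻¹ := by
    rcases hi₀ with h | h
    · exact ⟨x i₀, hx i₀, h, rfl⟩
    · refine ⟨(x i₀)⁻¹, inv_ne_zero (hx i₀), h, ?_⟩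
      rw [inv_inv, mul_comm]
  set D : PowerSeries ℂ := ∏ i ∈ Finset.univ.erase i₀, (om (x i) 1 * om (x i)⁻¹ 1) with hD
  set P : PowerSeries ℂ := (1 + PowerSeries.X) * (geo y * geo y⁻¹) with hP
  have hcard : (Finset.univ.erase i₀ : Finset (Fin n)).card = n - 1 := by
    rw [Finset.card_erase_of_mem (Finset.mem_univ _), Finset.card_univ, Fintype.card_fin]
  have hDb : ∀ r, ‖PowerSeries.coeff r D‖ ≤ ((2 * n - 2).choose r : ℝ) * Λ ^ r := by
    intro r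
    have h := g27_prod (Finset.univ.erase i₀) x hΛ0.le hΛ r
    have e : 2 * (n - 1) = 2 * n - 2 := by omega
    rwa [hcard, e] at h
  have hPD : P = kapP x * D := by
    have e1 : ∏ i, (geo (x i) * geo (x i)⁻¹) = (geo (x i₀) * geo (x i₀)⁻¹) * ∏ i ∈ Finset.univ.erase i₀, (geo (x i) * geo (x i)⁻¹) :=
      (Finset.mul_prod_erase _ _ (Finset.mem_univ i₀)).symm
    have e2 : (∏ i ∈ Finset.univ.erase i₀, (geo (x i) * geo (x i)⁻¹)) * D = 1 := by
      rw [hD, ← Finset.prod_mul_distrib]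
      refine Finset.prod_eq_one fun i _ => ?_
      calc geo (x i) * geo (x i)⁻¹ * (om (x i) 1 * om (x i)⁻¹ 1) = (om (x i) 1 * geo (x i)) * (om (x i)⁻¹ 1 * geo (x i)⁻¹) := by ring
        _ = 1 := by rw [g27_geo_om, g27_geo_om, mul_one]
    rw [kapP, e1, hP, hyg, mul_assoc, mul_assoc, e2, mul_one]
  -- the lower bound
  have hlow : Λ ^ j / 4 ≤ ‖PowerSeries.coeff j P‖ := by
    have h2 := congrArg norm (g27_p hy0 j)
    rw [norm_mul] at h2
    have h3 : ‖y - 1‖ ≤ 2 * Λ := by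
      calc ‖y - 1‖ ≤ ‖y‖ + ‖(1 : ℂ)‖ := norm_sub_le _ _
        _ ≤ 2 * Λ := by rw [hyn, norm_one]; linarith
    have h4 : Λ ^ (j + 1) / 2 ≤ ‖y ^ (j + 1) - (y ^ j)⁻¹‖ := by
      have h5 : ‖y ^ (j + 1)‖ - ‖(y ^ j)⁻¹‖ ≤ ‖y ^ (j + 1) - (y ^ j)⁻¹‖ := norm_sub_norm_le _ _
      rw [norm_pow, norm_inv, norm_pow, hyn] at h5
      have h6 : (Λ ^ j)⁻¹ ≤ Λ ^ (j + 1) / 2 := by
        rw [inv_le_iff_one_le_mul₀ (pow_pos hΛ0 j)]
        have e : Λ ^ (j + 1) / 2 * Λ ^ j = Λ ^ (2 * j + 1) / 2 := by ring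
        rw [e]
        linarith
      linarith
    have h7 : Λ ^ (j + 1) / 2 ≤ 2 * Λ * ‖PowerSeries.coeff j P‖ := by
      calc Λ ^ (j + 1) / 2 ≤ ‖y ^ (j + 1) - (y ^ j)⁻¹‖ := h4
        _ = ‖y - 1‖ * ‖PowerSeries.coeff j P‖ := h2.symm
        _ ≤ 2 * Λ * ‖PowerSeries.coeff j P‖ := mul_le_mul_of_nonneg_right h3 (norm_nonneg _)
    have h8 : Λ * (Λ ^ j / 4) ≤ Λ * ‖PowerSeries.coeff j P‖ := by
      rw [pow_succ] at h7
      linarith
    exact le_of_mul_le_mul_left h8 hΛ0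
  by_contra hcon
  push Not at hcon
  -- the upper bound
  have hcoef : PowerSeries.coeff j P = ∑ p ∈ Finset.HasAntidiagonal.antidiagonal j, PowerSeries.coeff p.1 (kapP x) * PowerSeries.coeff p.2 D := by
    rw [hPD, PowerSeries.coeff_mul]
  have hterm : ∀ p ∈ Finset.HasAntidiagonal.antidiagonal j, ‖PowerSeries.coeff p.1 (kapP x) * PowerSeries.coeff p.2 D‖ ≤
      ((2 * n - 2).choose p.2 : ℝ) * (Λ ^ j / 2 ^ (2 * n)) := by
    intro p hp
    rw [Finset.HasAntidiagonal.mem_antidiagonal] at hp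
    rw [norm_mul]
    by_cases hr : p.2 ≤ 2 * n - 2
    · have h2 := hcon p.2 hr (by omega)
      have e : j - p.2 = p.1 := by omega
      rw [e] at h2
      have h3 : ‖PowerSeries.coeff p.1 (kapP x)‖ ≤ Λ ^ p.1 / 2 ^ (2 * n) := by
        rw [le_div_iff₀ (by positivity), mul_comm]
        exact h2.le
      calc ‖PowerSeries.coeff p.1 (kapP x)‖ * ‖PowerSeries.coeff p.2 D‖
          ≤ (Λ ^ p.1 / 2 ^ (2 * n)) * (((2 * n - 2).choose p.2 : ℝ) * Λ ^ p.2) :=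
            mul_le_mul h3 (hDb p.2) (norm_nonneg _) (by positivity)
        _ = ((2 * n - 2).choose p.2 : ℝ) * (Λ ^ j / 2 ^ (2 * n)) := by
            rw [← hp, pow_add]
            ring
    · have h2 := hDb p.2
      rw [Nat.choose_eq_zero_of_lt (by omega)] at h2
      have h3 : ‖PowerSeries.coeff p.2 D‖ = 0 := by
        apply le_antisymm _ (norm_nonneg _)
        simpa using h2
      rw [h3, mul_zero]
      positivity
  have hterm0 : ‖PowerSeries.coeff j (kapP x) * PowerSeries.coeff 0 D‖ < ((2 * n - 2).choose 0 : ℝ) * (Λ ^ j / 2 ^ (2 * n)) := by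
    have h2 := hcon 0 (Nat.zero_le _) (Nat.zero_le _)
    rw [Nat.sub_zero] at h2
    have h3 : ‖PowerSeries.coeff 0 D‖ ≤ 1 := by
      have h := hDb 0
      simpa using h
    rw [norm_mul, Nat.choose_zero_right, Nat.cast_one, one_mul, lt_div_iff₀ (by positivity)]
    calc ‖PowerSeries.coeff j (kapP x)‖ * ‖PowerSeries.coeff 0 D‖ * 2 ^ (2 * n)
        ≤ ‖PowerSeries.coeff j (kapP x)‖ * 1 * 2 ^ (2 * n) := by
          gcongr
      _ = 2 ^ (2 * n) * ‖PowerSeries.coeff j (kapP x)‖ := by ring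
      _ < Λ ^ j := h2
  have hsum : ‖PowerSeries.coeff j P‖ < ∑ p ∈ Finset.HasAntidiagonal.antidiagonal j, ((2 * n - 2).choose p.2 : ℝ) * (Λ ^ j / 2 ^ (2 * n)) := by
    rw [hcoef]
    refine lt_of_le_of_lt (norm_sum_le _ _) ?_
    refine Finset.sum_lt_sum hterm ⟨(j, 0), ?_, hterm0⟩
    rw [Finset.HasAntidiagonal.mem_antidiagonal, add_zero]
  have hch : ∑ p ∈ Finset.HasAntidiagonal.antidiagonal j, ((2 * n - 2).choose p.2 : ℝ) ≤ 2 ^ (2 * n - 2) := by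
    have e1 : ∑ p ∈ Finset.HasAntidiagonal.antidiagonal j, ((2 * n - 2).choose p.2 : ℝ) = ∑ r ∈ Finset.range (j + 1), ((2 * n - 2).choose r : ℝ) := by
      have h := Finset.sum_range_reflect (fun r => ((2 * n - 2).choose r : ℝ)) (j + 1)
      rw [Finset.Nat.sum_antidiagonal_eq_sum_range_succ_mk, ← h]
      refine Finset.sum_congr rfl fun k _ => ?_
      rw [Nat.add_sub_cancel]
    have e2 : ∑ r ∈ Finset.range (2 * n - 2 + 1), ((2 * n - 2).choose r : ℝ) = 2 ^ (2 * n - 2) := by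
      have h := Nat.sum_range_choose (2 * n - 2)
      exact_mod_cast h
    rw [e1, ← e2]
    rcases le_total (j + 1) (2 * n - 2 + 1) with h | h
    · exact Finset.sum_le_sum_of_subset_of_nonneg (Finset.range_mono h) fun _ _ _ => Nat.cast_nonneg _
    · rw [← Finset.sum_subset (Finset.range_mono h)]
      intro r _ hr
      rw [Finset.mem_range, not_lt] at hr
      rw [Nat.choose_eq_zero_of_lt (by omega), Nat.cast_zero]
  rw [← Finset.sum_mul] at hsum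
  have h9 : (∑ p ∈ Finset.HasAntidiagonal.antidiagonal j, ((2 * n - 2).choose p.2 : ℝ)) * (Λ ^ j / 2 ^ (2 * n)) ≤ Λ ^ j / 4 := by
    calc (∑ p ∈ Finset.HasAntidiagonal.antidiagonal j, ((2 * n - 2).choose p.2 : ℝ)) * (Λ ^ j / 2 ^ (2 * n))
        ≤ 2 ^ (2 * n - 2) * (Λ ^ j / 2 ^ (2 * n)) := mul_le_mul_of_nonneg_right hch (by positivity)
      _ = Λ ^ j / 4 := by
        have e : (2 : ℝ) ^ (2 * n) = 2 ^ (2 * n - 2) * 4 := by
          have : 2 * n = 2 * n - 2 + 2 := by omega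
          conv_lhs => rw [this, pow_add]
          norm_num
        rw [e]
        field_simp
  linarith

theorem kap_zero {n : ℕ} (x : Fin n → ℂ) : PowerSeries.coeff 0 (kapP x) = 1 := by
  rw [PowerSeries.coeff_zero_eq_constantCoeff_apply, kapP, map_mul, map_add, map_one, PowerSeries.constantCoeff_X, add_zero,
    one_mul, map_prod]
  refine Finset.prod_eq_one fun i _ => ?_
  rw [map_mul, ← PowerSeries.coeff_zero_eq_constantCoeff_apply, ← PowerSeries.coeff_zero_eq_constantCoeff_apply, g27_geo, g27_geo,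
    pow_zero, pow_zero, mul_one]

end

end Pool.Agent.Lib.H67G
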