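import Pool.Agent.Lib.H67G.G27

/-!
# G28 (M, pure): the choice of k
-/

namespace Pool.Agent.Lib.H67G

open scoped ENNReal

noncomputable section

set_option linter.unusedSectionVars false


/-- PROOF. Let `Λ` be the maximum of the `‖x_i‖`, `‖x_i⁻¹‖` (`≥ 1`, `≥ q^ν`), `ρ = q^(4n-2) / N^(2n+1)`. `N^(2n+1) < q^(2k+2)`, so `ρ ≥ q^(4n-4) q^(-2k)`.
(A) `k < 2n-2`: `ρ ≥ 1` (`2k + 2 ≤ 4n - 4`), `k' = 0`. (B) `k ≥ 2n-2`, `Λ^(2k+1) < 2`: `q^(ν (2k+1)) < 2`, `ρ^ν ≥ q^(-2kν) ≥ 1/2`, `k' = 0` (`kap_zero`). (C) `k ≥ 2n-2`, `Λ^(2k+1) ≥ 2`: `kap_lower` with `j = k`: `k' = k - r ≥ k - 2n + 2`, `2^(4n) ‖κ_k'‖² ≥ Λ^(2k') ≥ q^(2ν(k-2n+2))`, and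
`ρ^ν ≥ q^(ν (4n-4-2k))`: the product is `≥ 1`. (Real powers: `Real.rpow_natCast`, `Real.rpow_mul`, monotonicity.) -/
theorem end_one {n : ℕ} (hn : 1 ≤ n) {q N k : ℕ} (hq : 2 ≤ q) (hN : 1 ≤ N) (h1 : q ^ (2 * k) ≤ N ^ (2 * n + 1)) (h2 : N ^ (2 * n + 1) < q ^ (2 * k + 2)) {ν : ℝ} (hν : 0 ≤ ν)
    (x : Fin n → ℂ) (hx : ∀ i, x i ≠ 0) (hf : ∃ i, (q : ℝ) ^ ν ≤ max ‖x i‖ ‖(x i)⁻¹‖) :
    ∃ k' : ℕ, k' ≤ k ∧ (k' = 0 ∨ k ≤ k' + (2 * n - 2)) ∧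
      1 ≤ 2 ^ (4 * n) * ((q : ℝ) ^ (4 * n - 2) / (N : ℝ) ^ (2 * n + 1)) ^ ν * ‖PowerSeries.coeff k' (kapP x)‖ ^ 2 := by
  have hq0 : (0 : ℝ) < q := by exact_mod_cast (by omega : 0 < q)
  have hq1 : (1 : ℝ) ≤ q := by exact_mod_cast (by omega : 1 ≤ q)
  have hN0 : (0 : ℝ) < N := by exact_mod_cast (by omega : 0 < N)
  set ρ : ℝ := (q : ℝ) ^ (4 * n - 2) / (N : ℝ) ^ (2 * n + 1) with hρ
  have hρ0 : 0 < ρ := by positivity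
  have h2' : (N : ℝ) ^ (2 * n + 1) < (q : ℝ) ^ (2 * k + 2) := by exact_mod_cast h2
  -- `ρ q^(2k) ≥ q^(4n-4)`
  have hρ1 : (q : ℝ) ^ (4 * n - 4) ≤ ρ * (q : ℝ) ^ (2 * k) := by
    rw [hρ, div_mul_eq_mul_div, le_div_iff₀ (by positivity)]
    calc (q : ℝ) ^ (4 * n - 4) * (N : ℝ) ^ (2 * n + 1) ≤ (q : ℝ) ^ (4 * n - 4) * (q : ℝ) ^ (2 * k + 2) :=
          mul_le_mul_of_nonneg_left h2'.le (by positivity)
      _ = (q : ℝ) ^ (4 * n - 2) * (q : ℝ) ^ (2 * k) := by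
          rw [← pow_add, ← pow_add]
          congr 1
          omega
  have h16 : (1 : ℝ) ≤ 2 ^ (4 * n) := one_le_pow₀ (by norm_num)
  have hk0 : ‖PowerSeries.coeff 0 (kapP x)‖ ^ 2 = 1 := by
    rw [kap_zero, norm_one, one_pow]
  by_cases hA : k < 2 * n - 2
  · refine ⟨0, Nat.zero_le _, Or.inl rfl, ?_⟩
    have h3 : 1 ≤ ρ := by
      rw [hρ, le_div_iff₀ (by positivity), one_mul]
      exact h2'.le.trans (pow_le_pow_right₀ hq1 (by omega))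
    have h4 : 1 ≤ ρ ^ ν := Real.one_le_rpow h3 hν
    rw [hk0, mul_one]
    calc (1 : ℝ) = 1 * 1 := (mul_one 1).symm
      _ ≤ 2 ^ (4 * n) * ρ ^ ν := mul_le_mul h16 h4 zero_le_one (by positivity)
  · rw [not_lt] at hA
    have hne : Nonempty (Fin n) := ⟨⟨0, hn⟩⟩
    obtain ⟨i₀, hi₀⟩ := Finite.exists_max fun i => max ‖x i‖ ‖(x i)⁻¹‖
    set Λ : ℝ := max ‖x i₀‖ ‖(x i₀)⁻¹‖ with hΛ
    have hΛ1 : 1 ≤ Λ := by
      have h3 : ‖x i₀‖ * ‖(x i₀)⁻¹‖ = 1 := by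
        rw [← norm_mul, mul_inv_cancel₀ (hx i₀), norm_one]
      by_contra hlt
      rw [not_le] at hlt
      have h4 : ‖x i₀‖ < 1 := lt_of_le_of_lt (le_max_left _ _) hlt
      have h5 : ‖(x i₀)⁻¹‖ < 1 := lt_of_le_of_lt (le_max_right _ _) hlt
      nlinarith [norm_nonneg (x i₀), norm_nonneg (x i₀)⁻¹]
    have hΛ0 : 0 < Λ := lt_of_lt_of_le one_pos hΛ1
    have hqΛ : (q : ℝ) ^ ν ≤ Λ := by
      obtain ⟨i, hi⟩ := hf
      exact hi.trans (hi₀ i)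
    have hqν : 0 < (q : ℝ) ^ ν := Real.rpow_pos_of_pos hq0 ν
    have hpow : ∀ m : ℕ, ((q : ℝ) ^ m) ^ ν = ((q : ℝ) ^ ν) ^ m := by
      intro m
      rw [← Real.rpow_natCast, ← Real.rpow_natCast, ← Real.rpow_mul hq0.le, ← Real.rpow_mul hq0.le, mul_comm]
    by_cases hB : Λ ^ (2 * k + 1) < 2
    · refine ⟨0, Nat.zero_le _, Or.inl rfl, ?_⟩
      have h3 : 1 ≤ (ρ * (q : ℝ) ^ (2 * k)) ^ ν :=
        Real.one_le_rpow ((one_le_pow₀ hq1).trans hρ1) hν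
      rw [Real.mul_rpow hρ0.le (by positivity), hpow] at h3
      have h4 : ((q : ℝ) ^ ν) ^ (2 * k) ≤ Λ ^ (2 * k) := pow_le_pow_left₀ hqν.le hqΛ _
      have h5 : Λ ^ (2 * k) ≤ 2 := by
        have : Λ ^ (2 * k) ≤ Λ ^ (2 * k + 1) := pow_le_pow_right₀ hΛ1 (by omega)
        linarith
      have h6 : 0 < ρ ^ ν := Real.rpow_pos_of_pos hρ0 ν
      have h7 : 1 ≤ ρ ^ ν * 2 := h3.trans (mul_le_mul_of_nonneg_left (h4.trans h5) h6.le)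
      have h8 : (2 : ℝ) ≤ 2 ^ (4 * n) := by
        calc (2 : ℝ) = 2 ^ 1 := (pow_one _).symm
          _ ≤ 2 ^ (4 * n) := pow_le_pow_right₀ (by norm_num) (by omega)
      rw [hk0, mul_one]
      calc (1 : ℝ) ≤ ρ ^ ν * 2 := h7
        _ ≤ ρ ^ ν * 2 ^ (4 * n) := mul_le_mul_of_nonneg_left h8 h6.le
        _ = 2 ^ (4 * n) * ρ ^ ν := mul_comm _ _
    · rw [not_lt] at hB
      obtain ⟨r, hr1, hr2, hr3⟩ := kap_lower hn x hx hΛ1 (fun i => ⟨(le_max_left _ _).trans (hi₀ i), (le_max_right _ _).trans (hi₀ i)⟩)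
        ⟨i₀, by
          rcases max_choice ‖x i₀‖ ‖(x i₀)⁻¹‖ with h | h
          · exact Or.inl h.symm
          · exact Or.inr h.symm⟩ hB
      refine ⟨k - r, Nat.sub_le _ _, Or.inr (by omega), ?_⟩
      set κ := ‖PowerSeries.coeff (k - r) (kapP x)‖ with hκ
      have h3 : (Λ ^ (k - r)) ^ 2 ≤ (2 ^ (2 * n) * κ) ^ 2 := pow_le_pow_left₀ (by positivity) hr3 2
      have h4 : ((q : ℝ) ^ ν) ^ (2 * (k - (2 * n - 2))) ≤ (Λ ^ (k - r)) ^ 2 := by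
        rw [← pow_mul]
        calc ((q : ℝ) ^ ν) ^ (2 * (k - (2 * n - 2))) ≤ Λ ^ (2 * (k - (2 * n - 2))) := pow_le_pow_left₀ hqν.le hqΛ _
          _ ≤ Λ ^ ((k - r) * 2) := pow_le_pow_right₀ hΛ1 (by omega)
      have h5 : 1 ≤ ρ * (q : ℝ) ^ (2 * (k - (2 * n - 2))) := by
        have h6 : (q : ℝ) ^ (2 * k) = (q : ℝ) ^ (2 * (k - (2 * n - 2))) * (q : ℝ) ^ (4 * n - 4) := by
          rw [← pow_add]
          congr 1
          omega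
        rw [h6, ← mul_assoc] at hρ1
        have h7 : 0 < (q : ℝ) ^ (4 * n - 4) := by positivity
        by_contra hlt
        rw [not_le] at hlt
        have h8 := mul_lt_mul_of_pos_right hlt h7
        rw [one_mul] at h8
        linarith
      have h6 : 1 ≤ ρ ^ ν * ((q : ℝ) ^ ν) ^ (2 * (k - (2 * n - 2))) := by
        have h7 := Real.one_le_rpow h5 hν
        rwa [Real.mul_rpow hρ0.le (by positivity), hpow] at h7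
      have h7 : 0 < ρ ^ ν := Real.rpow_pos_of_pos hρ0 ν
      calc (1 : ℝ) ≤ ρ ^ ν * ((q : ℝ) ^ ν) ^ (2 * (k - (2 * n - 2))) := h6
        _ ≤ ρ ^ ν * (2 ^ (2 * n) * κ) ^ 2 := mul_le_mul_of_nonneg_left (h4.trans h3) h7.le
        _ = 2 ^ (4 * n) * ρ ^ ν * κ ^ 2 := by
          rw [mul_pow, ← pow_mul]
          have e : 2 * n * 2 = 4 * n := by ring
          rw [e]
          ring

/-- PROOF. The largest `k` with `q^(2k) ≤ N^(2n+1)`. -/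
theorem end_k {n q N : ℕ} (hq : 2 ≤ q) (hN : 1 ≤ N) : ∃ k : ℕ, q ^ (2 * k) ≤ N ^ (2 * n + 1) ∧ N ^ (2 * n + 1) < q ^ (2 * k + 2) := by
  have hM : N ^ (2 * n + 1) ≠ 0 := pow_ne_zero _ (by omega)
  have hb : 1 < q ^ 2 := Nat.one_lt_pow (by norm_num) (by omega)
  refine ⟨Nat.log (q ^ 2) (N ^ (2 * n + 1)), ?_, ?_⟩
  · rw [pow_mul]
    exact Nat.pow_log_le_self _ hM
  · have h := Nat.lt_pow_succ_log_self hb (N ^ (2 * n + 1))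
    have e : 2 * Nat.log (q ^ 2) (N ^ (2 * n + 1)) + 2 = 2 * (Nat.log (q ^ 2) (N ^ (2 * n + 1))).succ := by
      rw [Nat.mul_succ]
    rw [e, pow_mul]
    exact h

end

end Pool.Agent.Lib.H67G
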