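import Pool.Agent.Lib.H67G.Stm
import Pool.Agent.Lib.H67G.G28

/-!
# G29 (M): from the inequality for every k to the density theorem
-/

namespace Pool.Agent.Lib.H67G

open MeasureTheory Matrix NumberField IsDedekindDomain Pool.Agent.Lib.H89N Pool.Agent.Lib.H33W
open scoped ENNReal Pointwise

noncomputable section

set_option linter.unusedSectionVars false

variable {n : ℕ}

/-- The right side without the factor of the density. -/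
def Bnd [NeZero n] (K : Type) [Field K] [NumberField K] (𝔫 : Ideal (𝓞 K)) (a : Fin n → ℝ) : ℝ :=
  (∏ p : SI n, ((a p.1.1 * a p.1.2) ^ Module.finrank ℚ K * (Ideal.absNorm 𝔫 : ℝ))⁻¹) *
    ∏ p : UI n, (a p.1.1 / a p.1.2) ^ Module.finrank ℚ K / (Ideal.absNorm 𝔫 : ℝ)

/-- **The inequality (*)** (the statement). -/
def StarS (n : ℕ) [NeZero n] (K : Type) [Field K] [NumberField K] : Prop :=
  ∀ (μ : Measure (SP n (EE K))) [μ.IsHaarMeasure] (φ : SP n (EE K) → ℂ), Continuous φ → HasCompactSupport φ →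
    ∀ Ω : Set (SP n (EE K)), IsCompact Ω → ∃ C : ℝ, 0 ≤ C ∧ ∀ (v : HeightOneSpectrum (𝓞 K)) (𝔫 : Ideal (𝓞 K)), 𝔫 ≠ ⊥ →
    ¬𝔫 ≤ v.asIdeal → ∀ k : ℕ, Ideal.absNorm v.asIdeal ^ (2 * k) ≤ Ideal.absNorm 𝔫 ^ (2 * n + 1) →
    ∀ (θ₀ : EE K →ₗ[ℝ] ℝ) (θ : Fin n → (EE K →ₗ[ℝ] ℝ)), ChrS 𝔫 v θ₀ θ → ∀ a : Fin n → ℝ, TorS 𝔫 a → ∀ x, InRangeS Ω a x →
    ∀ F : Set (SP n (EE K)), IsFundamentalDomain (GammaS n 𝔫) F μ →
    ∀ (m : ℕ) (f : Fin m → SP n (EE K) → ℂ), (∀ i, AutS 𝔫 μ F φ (f i)) →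
    (∀ i k, ∫ x in F, star (f i x) * f k x ∂μ = if i = k then 1 else 0) →
    ∀ y : Fin m → Fin n → ℂ, (∀ i, SatakeS 𝔫 v (f i) (y i)) →
    ∑ i, ‖PowerSeries.coeff k (kapP (y i))‖ ^ 2 * ‖WhS (Ideal.absNorm 𝔫) θ₀ θ (f i) x‖ ^ 2 ≤ C * Bnd K 𝔫 a

theorem g29_norm {K : Type} [Field K] [NumberField K] {𝔫 : Ideal (𝓞 K)} (h : 𝔫 ≠ ⊥) : 1 ≤ Ideal.absNorm 𝔫 := by
  have : Ideal.absNorm 𝔫 ≠ 0 := fun h0 => h (Ideal.absNorm_eq_zero_iff.1 h0)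
  omega

theorem g29_q {K : Type} [Field K] [NumberField K] (v : HeightOneSpectrum (𝓞 K)) : 2 ≤ Ideal.absNorm v.asIdeal := by
  have h0 : Ideal.absNorm v.asIdeal ≠ 0 := fun h0 => v.ne_bot (Ideal.absNorm_eq_zero_iff.1 h0)
  have h1 : Ideal.absNorm v.asIdeal ≠ 1 := fun h1 => v.isPrime.ne_top (Ideal.absNorm_eq_one_iff.1 h1)
  omega

theorem g29_bnd [NeZero n] (K : Type) [Field K] [NumberField K] {𝔫 : Ideal (𝓞 K)} {a : Fin n → ℝ} (ha : ∀ i, 0 < a i) :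
    0 ≤ Bnd K 𝔫 a := by
  unfold Bnd
  refine mul_nonneg (Finset.prod_nonneg fun p _ => ?_) (Finset.prod_nonneg fun p _ => ?_)
  · exact inv_nonneg.2 (mul_nonneg (pow_nonneg (mul_pos (ha _) (ha _)).le _) (Nat.cast_nonneg _))
  · exact div_nonneg (pow_nonneg (div_pos (ha _) (ha _)).le _) (Nat.cast_nonneg _)

theorem g29_card (n k : ℕ) (hn : 1 ≤ n) :
    (insert 0 ((Finset.range (k + 1)).filter fun k' => k ≤ k' + (2 * n - 2)) : Finset ℕ).card ≤ 2 * n := by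
  refine (Finset.card_insert_le _ _).trans ?_
  have h1 : ((Finset.range (k + 1)).filter fun k' => k ≤ k' + (2 * n - 2)) ⊆ Finset.Icc (k - (2 * n - 2)) k := by
    intro j hj
    rw [Finset.mem_filter, Finset.mem_range] at hj
    rw [Finset.mem_Icc]
    omega
  have h2 := Finset.card_le_card h1
  rw [Nat.card_Icc] at h2
  omega

/-- PROOF. Constant `2^(4n) (2n) C`. Choose the Satake parameters `y i` from `FarS`, `k` from `end_k`, `k'(i)` from `end_one`, all in the set `P = {0} ∪ {k' ≤ k | k ≤ k' + (2n-2)}` with at most `2n` elements. `∑_i |W_i|² ≤ 2^(4n) ρ^ν ∑_i ∑_{k' ∈ P} |κ_k'|² |W_i|² = 2^(4n) ρ^ν ∑_{k' ∈ P} (..) ≤ 2^(4n) ρ^ν (2n) C Bnd`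
(for `k' ≤ k`: `q^(2k') ≤ q^(2k) ≤ N^(2n+1)`). `hq`: `N v ≥ 2`; `N𝔫 ≥ 1`; `Bnd ≥ 0`. -/
theorem s_of_star (n : ℕ) [NeZero n] (K : Type) [Field K] [NumberField K] (H : StarS n K) : SDensity n K := by
  intro μ _ φ cφ sφ Ω hΩ
  obtain ⟨C, hC0, hC⟩ := H μ φ cφ sφ Ω hΩ
  refine ⟨2 ^ (4 * n) * (2 * n) * C, ?_⟩
  intro v 𝔫 h𝔫 hv ν hν θ₀ θ hχ a ha x hx F hF m f hf ho hfar
  have hn : 1 ≤ n := NeZero.one_le
  have hN := g29_norm h𝔫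
  have hq := g29_q v
  obtain ⟨k, hk1, hk2⟩ := end_k (n := n) hq hN
  choose y hy hy2 using hfar
  choose k' hk'1 hk'2 hk'3 using fun i => end_one hn hq hN hk1 hk2 hν (y i) (hy i).ne (hy2 i)
  obtain ⟨P, hP⟩ : ∃ P : Finset ℕ, P = insert 0 ((Finset.range (k + 1)).filter fun k' => k ≤ k' + (2 * n - 2)) := ⟨_, rfl⟩
  have hcard : P.card ≤ 2 * n := by
    rw [hP]
    exact g29_card n k hn
  have hPk : ∀ j ∈ P, j ≤ k := by
    intro j hj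
    rw [hP, Finset.mem_insert, Finset.mem_filter, Finset.mem_range] at hj
    omega
  have hkP : ∀ i, k' i ∈ P := by
    intro i
    rw [hP, Finset.mem_insert, Finset.mem_filter, Finset.mem_range]
    rcases hk'2 i with h | h
    · exact Or.inl h
    · exact Or.inr ⟨Nat.lt_succ_of_le (hk'1 i), h⟩
  obtain ⟨W, hW⟩ : ∃ W : Fin m → ℝ, W = fun i => ‖WhS (Ideal.absNorm 𝔫) θ₀ θ (f i) x‖ ^ 2 := ⟨_, rfl⟩
  have hW0 : ∀ i, 0 ≤ W i := fun i => by rw [hW]; positivity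
  obtain ⟨ρ, hρ⟩ : ∃ ρ : ℝ, ρ = ((Ideal.absNorm v.asIdeal : ℝ) ^ (4 * n - 2) / (Ideal.absNorm 𝔫 : ℝ) ^ (2 * n + 1)) ^ ν := ⟨_, rfl⟩
  have hρ0 : 0 ≤ ρ := by
    rw [hρ]
    positivity
  have hB0 := g29_bnd K (𝔫 := 𝔫) ha.pos
  have h1 : ∀ j ∈ P, ∑ i, ‖PowerSeries.coeff j (kapP (y i))‖ ^ 2 * W i ≤ C * Bnd K 𝔫 a := by
    intro j hj
    have hj2 : Ideal.absNorm v.asIdeal ^ (2 * j) ≤ Ideal.absNorm 𝔫 ^ (2 * n + 1) :=
      (Nat.pow_le_pow_right (by omega) (by have := hPk j hj; omega)).trans hk1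
    rw [hW]
    exact hC v 𝔫 h𝔫 hv j hj2 θ₀ θ hχ a ha x hx F hF m f hf ho y hy
  have h2 : ∀ i, W i ≤ 2 ^ (4 * n) * ρ * ∑ j ∈ P, ‖PowerSeries.coeff j (kapP (y i))‖ ^ 2 * W i := by
    intro i
    have g1 := hk'3 i
    rw [← hρ] at g1
    have g2 : ‖PowerSeries.coeff (k' i) (kapP (y i))‖ ^ 2 * W i ≤
        ∑ j ∈ P, ‖PowerSeries.coeff j (kapP (y i))‖ ^ 2 * W i :=
      Finset.single_le_sum (f := fun j => ‖PowerSeries.coeff j (kapP (y i))‖ ^ 2 * W i)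
        (fun j _ => mul_nonneg (by positivity) (hW0 i)) (hkP i)
    calc W i = 1 * W i := (one_mul _).symm
      _ ≤ (2 ^ (4 * n) * ρ * ‖PowerSeries.coeff (k' i) (kapP (y i))‖ ^ 2) * W i :=
          mul_le_mul_of_nonneg_right g1 (hW0 i)
      _ = 2 ^ (4 * n) * ρ * (‖PowerSeries.coeff (k' i) (kapP (y i))‖ ^ 2 * W i) := by ring
      _ ≤ _ := mul_le_mul_of_nonneg_left g2 (by positivity)
  have h3 : ∑ i, W i ≤ 2 ^ (4 * n) * ρ * (2 * n * (C * Bnd K 𝔫 a)) := by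
    calc ∑ i, W i ≤ ∑ i, 2 ^ (4 * n) * ρ * ∑ j ∈ P, ‖PowerSeries.coeff j (kapP (y i))‖ ^ 2 * W i :=
          Finset.sum_le_sum fun i _ => h2 i
      _ = 2 ^ (4 * n) * ρ * ∑ j ∈ P, ∑ i, ‖PowerSeries.coeff j (kapP (y i))‖ ^ 2 * W i := by
          rw [← Finset.mul_sum, Finset.sum_comm]
      _ ≤ 2 ^ (4 * n) * ρ * (2 * n * (C * Bnd K 𝔫 a)) := by
          refine mul_le_mul_of_nonneg_left ?_ (by positivity)
          refine (Finset.sum_le_sum h1).trans ?_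
          rw [Finset.sum_const, nsmul_eq_mul]
          refine mul_le_mul_of_nonneg_right ?_ (mul_nonneg hC0 hB0)
          exact_mod_cast hcard
  have e1 : ∑ i, ‖WhS (Ideal.absNorm 𝔫) θ₀ θ (f i) x‖ ^ 2 = ∑ i, W i := by rw [hW]
  rw [e1, ← hρ]
  refine h3.trans (le_of_eq ?_)
  unfold Bnd
  ring

end

end Pool.Agent.Lib.H67G
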