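import Pool.Agent.Lib.H67G.G1

/-!
# G3 (M): approximation
-/

namespace Pool.Agent.Lib.H67G

open MeasureTheory Matrix NumberField IsDedekindDomain Pool.Agent.Lib.H89N Pool.Agent.Lib.H33W
open scoped ENNReal Pointwise

noncomputable section

set_option linter.unusedSectionVars false

variable {n : ℕ} {K : Type} [Field K] [NumberField K] {v : HeightOneSpectrum (𝓞 K)} {R : Type} [CommRing R] [IsDomain R]
  [IsDiscreteValuationRing R] [Algebra R K] {ϖ : R} {𝔫 𝔪 : Ideal (𝓞 K)}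

/-- PROOF. `z = ϖ ^ (-a) r`, `r ∈ R` (`LF.frac`). Let `t ∈ v ^ a`, `t = ϖ ^ a u`, `u` a unit of `R` (`Loc.genpow`), `(t) = v ^ a 𝔱` (`Ideal.dvd_iff_le`), `𝔱` not contained in `v` (otherwise `t ∈ v ^ (a+1)`, `t = ϖ ^ (a+1) y`, `Loc.upow`: `u = ϖ y` not a unit). `r' = t z = u r ∈ R`.
There is `b ∈ 𝔫 𝔱` with `r' - b ∈ ϖ ^ (m + a) R`: `r' = c + ϖ ^ (m + a) w`, `c ∈ 𝓞` (`Loc.dense`), `1 = x + e`, `x ∈ 𝔫 𝔱`, `e ∈ v ^ (m + a)` (coprime, `𝔫 𝔱` is not contained in `v`), `b = c x`, `c - b = c e`. `z' = b / t`: for `x ∈ v ^ a`: `x b ∈ v ^ a 𝔱 𝔫 = (t) 𝔫`, so `x z' ∈ 𝔫`;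
`z - z' = (r' - b) / t ∈ ϖ ^ m R`. -/
theorem g3_approx (h : Loc v R ϖ) (hv : ¬𝔫 ≤ v.asIdeal) (z : K) (m : ℕ) :
    ∃ z' : K, (∃ j, Den 𝔫 v j z') ∧ In R ((algebraMap R K ϖ ^ m)⁻¹ * (z - z')) := by
  have hp : v.asIdeal.IsPrime := v.isPrime
  obtain ⟨a, r, hr⟩ := (lf_of_loc h).frac z
  obtain ⟨t, ht, u, hu, htu⟩ := h.genpow a
  have hϖ := h.pi_ne
  have hu0 : algebraMap R K u ≠ 0 := by
    intro h0
    rw [← map_zero (algebraMap R K)] at h0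
    exact hu.ne_zero (h.inj h0)
  rw [map_mul, map_pow] at htu
  have htK : (t : K) ≠ 0 := by
    rw [← htu]
    exact mul_ne_zero (pow_ne_zero _ hϖ) hu0
  -- the complementary ideal
  obtain ⟨𝔱, h𝔱⟩ : v.asIdeal ^ a ∣ Ideal.span {t} := by
    rw [Ideal.dvd_iff_le, Ideal.span_singleton_le_iff_mem]
    exact ht
  have h𝔱v : ¬𝔱 ≤ v.asIdeal := by
    intro hle
    have h1 : t ∈ v.asIdeal ^ (a + 1) := by
      have h2 : t ∈ v.asIdeal ^ a * 𝔱 := by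
        rw [← h𝔱]
        exact Ideal.mem_span_singleton_self t
      rw [pow_succ]
      exact Ideal.mul_mono_right hle h2
    obtain ⟨y, hy⟩ := h.upow (a + 1) t h1
    rw [← htu, ← map_pow, ← map_mul] at hy
    have h3 := h.inj hy
    have h4 : ϖ ^ a * (ϖ * y) = ϖ ^ a * u := by
      rw [← h3]
      ring
    have h5 := mul_left_cancel₀ (pow_ne_zero a h.dv.irr.ne_zero) h4
    exact h.dv.irr.not_isUnit (isUnit_of_mul_isUnit_left (h5 ▸ hu))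
  obtain ⟨τ, hτ, hτv⟩ := SetLike.not_le_iff_exists.mp h𝔱v
  obtain ⟨ν, hν, hνv⟩ := SetLike.not_le_iff_exists.mp hv
  have hτν : τ * ν ∉ v.asIdeal := fun h' => (hp.mem_or_mem h').elim hτv hνv
  obtain ⟨c₁, e, he, hce⟩ := ld9_cop hτν (m + a)
  obtain ⟨y, hy⟩ := h.upow (m + a) e he
  obtain ⟨c, w, hcw⟩ := h.dense (m + a) (u * r)
  obtain ⟨c', hc'⟩ := h.int c
  obtain ⟨ui, hui⟩ := hu.exists_left_inv
  refine ⟨((c * c₁ * (τ * ν) : 𝓞 K) : K) / t, ⟨a, ?_⟩, ui * (w + c' * y), ?_⟩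
  · intro x hx
    have h1 : x * τ ∈ Ideal.span {t} := by
      rw [h𝔱]
      exact Ideal.mul_mem_mul hx hτ
    obtain ⟨s, hs⟩ := Ideal.mem_span_singleton'.1 h1
    refine ⟨s * (c * c₁) * ν, 𝔫.mul_mem_left _ hν, ?_⟩
    have h2 : (s : K) * (t : K) = (x : K) * (τ : K) := by rw [← ld9_mul, hs, ld9_mul]
    rw [← mul_div_assoc, div_eq_iff htK]
    simp only [ld9_mul]
    linear_combination (-(c : K) * c₁ * ν) * h2
  · have h6 : algebraMap R K ui * algebraMap R K u = 1 := by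
      rw [← map_mul, hui, map_one]
    have h7 : (c₁ : K) * ((τ : K) * (ν : K)) + (e : K) = 1 := by
      rw [← ld9_mul, ← ld9_mul, ← ld9_add, hce]
      exact map_one _
    rw [map_mul, map_pow] at hy
    rw [map_mul, map_mul, map_pow, hr] at hcw
    rw [eq_comm, inv_mul_eq_iff_eq_mul₀ (pow_ne_zero m hϖ), map_mul, map_add, map_mul, hc']
    apply mul_left_cancel₀ htK
    rw [mul_sub, mul_div_cancel₀ _ htK]
    simp only [ld9_mul]
    rw [pow_add] at hcw hy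
    rw [← htu]
    linear_combination hcw - (c : K) * h7 - (c : K) * hy +
      (-(algebraMap R K ϖ ^ m * algebraMap R K ϖ ^ a) * (algebraMap R K w + (c : K) * algebraMap R K y)) * h6

theorem g3_zero (h : Loc v R ϖ) (hv : ¬𝔫 ≤ v.asIdeal) (z : K) : ∃ z' : K, (∃ j, Den 𝔫 v j z') ∧ In R (z - z') := by
  obtain ⟨z', h1, h2⟩ := g3_approx h hv z 0
  refine ⟨z', h1, ?_⟩
  rwa [pow_zero, inv_one, one_mul] at h2

end

end Pool.Agent.Lib.H67G
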