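import Pool.Agent.Lib.H67G.G30A
import Pool.Agent.Lib.H67G.G24
import Pool.Agent.Lib.H67G.G25
import Pool.Agent.Lib.H67G.G26

/-!
# G30 (M/L): the inequality (*)
-/

namespace Pool.Agent.Lib.H67G

open MeasureTheory Matrix NumberField IsDedekindDomain Pool.Agent.Lib.H89N Pool.Agent.Lib.H33W
open scoped ENNReal Pointwise

noncomputable section

set_option linter.unusedSectionVars false

theorem g30_fw_lin {n : ℕ} [NeZero n] {K : Type} [Field K] [NumberField K] {v : HeightOneSpectrum (𝓞 K)} {R : Type} [CommRing R] [IsDomain R]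
    [IsDiscreteValuationRing R] [Algebra R K] {ϖ : R} {𝔫 : Ideal (𝓞 K)} (h𝔫 : 𝔫 ≠ ⊥) (θ₀ : EE K →ₗ[ℝ] ℝ) (θ : Fin n → (EE K →ₗ[ℝ] ℝ))
    {m : ℕ} (c : Fin m → ℂ) {f : Fin m → SP n (EE K) → ℂ} (cf : ∀ i, Continuous (f i)) (z : SP n (EE K))
    (L : Submodule R (Fin n ⊕ Fin n → K)) :
    FW 𝔫 v ϖ θ₀ θ (fun x => ∑ i, c i * f i x) z L = ∑ i, c i * FW 𝔫 v ϖ θ₀ θ (f i) z L := by
  unfold FW
  have e : ftS 𝔫 v (fun x => ∑ i, c i * f i x) L = fun y => ∑ i, c i * ftS 𝔫 v (f i) L y :=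
    funext fun y => ft_lin c f L y
  rw [e]
  refine mn_lin (fun _ => ?_) Finset.univ c (fun i _ => ft_cont (cf i) L) z
  intro h0
  rw [← Ideal.zero_eq_bot] at h0 h𝔫
  rcases mul_eq_zero.1 h0 with h1 | h1
  · exact h𝔫 h1
  · have h2 := eq_zero_of_pow_eq_zero h1
    exact v.ne_bot (by rw [← Ideal.zero_eq_bot]; exact h2)

theorem g30_enorm (q j : ℕ) : ‖((q : ℂ) ^ j)‖ₑ ^ 2 = ENNReal.ofReal ((q : ℝ) ^ (2 * j)) := by
  rw [← ofReal_norm, ← ENNReal.ofReal_pow (norm_nonneg _)]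
  congr 1
  rw [norm_pow, Complex.norm_natCast, ← pow_mul, Nat.mul_comm]

/-- PROOF. `Ω₁ = tsupport φ`, `R`, `ϖ` from `exists_loc v`, `F₀` from `gam_sf`, `κ_i = coeff k (kapP (y i))`, `W_i = WhS (N𝔫) θ₀ θ (f i)`. `dual` with `Q = Ω₁`, `w_i(y) = κ_i W_i(x y)`, `z_i = κ_i lam_i W_i(x)` (`wh_conv`). For `c`: `g = ∑ c_i f_i`; `q^(nk) FW g (x y) = ∑ c_i κ_i W_i(x y)` (`hkl` for every `f i`; `FW` is linear: `ft_lin`, `mn_lin`),
so `∫_{Ω₁} ‖∑ c_i w_i‖² = q^(2nk) ∫_{x Ω₁} ‖FW g‖² ≤ C Bnd ∫_{F₀} ‖g‖² = C Bnd ∑ ‖c_i‖²` (left invariance of `μ`, `g30_ls`, `on_sum`). So `∑ |κ_i|² |lam_i|² |W_i(x)|² ≤ C Bnd ‖φ‖²` and `|lam_i| ≥ 1`. Integrability: continuous times continuous with compact support (`wh_cont`). -/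
theorem star_s (n : ℕ) [NeZero n] (K : Type) [Field K] [NumberField K] : StarS n K := by
  intro μ _ φ cφ sφ Ω hΩ
  have hΩ₁ : IsCompact (tsupport φ) := sφ
  obtain ⟨C, hC0, hls⟩ := g30_ls n K μ hΩ hΩ₁
  refine ⟨C * (∫⁻ y, ‖φ y‖ₑ ^ 2 ∂μ).toReal, mul_nonneg hC0 ENNReal.toReal_nonneg, ?_⟩
  intro v 𝔫 h𝔫 hv k hk θ₀ θ hχ a ha x hx F hF m f hf ho y hy
  obtain ⟨R, iC, iD, iV, iA, ϖ, hloc⟩ := exists_loc v
  obtain ⟨F₀, hF₀⟩ := gam_sf (n := n) 𝔫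
  choose lam hlam1 hlam2 using fun i => (hf i).eig
  have hB0 := g29_bnd K (𝔫 := 𝔫) ha.pos
  have hCB : 0 ≤ C * Bnd K 𝔫 a := mul_nonneg hC0 hB0
  have cW : ∀ i, Continuous (WhS (Ideal.absNorm 𝔫) θ₀ θ (f i)) := fun i =>
    wh_cont _ θ₀ θ (hf i).cont
  have cw : ∀ i, Continuous fun z : SP n (EE K) => PowerSeries.coeff k (kapP (y i)) * WhS (Ideal.absNorm 𝔫) θ₀ θ (f i) (x * z) := fun i =>
    continuous_const.mul ((cW i).comp (continuous_const_mul x))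
  have hφ2 : ∫⁻ y, ‖φ y‖ₑ ^ 2 ∂μ ≠ ⊤ := by
    have h1 : MemLp φ 2 μ := cφ.memLp_of_hasCompactSupport sφ
    have h2 := h1.eLpNorm_lt_top
    have h3 := lintegral_rpow_enorm_lt_top_of_eLpNorm_lt_top (p := 2) (by norm_num) (by norm_num) h2
    have e : ∫⁻ y, ‖φ y‖ₑ ^ (2 : ℝ≥0∞).toReal ∂μ = ∫⁻ y, ‖φ y‖ₑ ^ 2 ∂μ := by
      refine lintegral_congr fun y => ?_
      rw [ENNReal.toReal_ofNat, ENNReal.rpow_ofNat]
    rw [e] at h3
    exact h3.ne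
  have key := dual (μ := μ) (m := m)
    (w := fun i z => PowerSeries.coeff k (kapP (y i)) * WhS (Ideal.absNorm 𝔫) θ₀ θ (f i) (x * z))
    (φ := φ) (z := fun i => PowerSeries.coeff k (kapP (y i)) * (lam i * WhS (Ideal.absNorm 𝔫) θ₀ θ (f i) x))
    (Q := tsupport φ) (B := C * Bnd K 𝔫 a) hCB
    (fun i => (cw i).measurable) cφ.measurable (fun z hz => image_eq_zero_of_notMem_tsupport hz) hφ2
    (fun i => ((cw i).mul cφ).integrable_of_hasCompactSupport sφ.mul_left)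
    (fun i => by
      have e : ∀ z, PowerSeries.coeff k (kapP (y i)) * WhS (Ideal.absNorm 𝔫) θ₀ θ (f i) (x * z) * φ z =
          PowerSeries.coeff k (kapP (y i)) * (WhS (Ideal.absNorm 𝔫) θ₀ θ (f i) (x * z) * φ z) := fun z => mul_assoc _ _ _
      simp only [e]
      rw [integral_const_mul, wh_conv μ (Ideal.absNorm 𝔫) θ₀ θ cφ sφ (hf i).cont (hlam2 i) x])
    (fun c => by
      obtain ⟨g, hg⟩ : ∃ g : SP n (EE K) → ℂ, g = fun z => ∑ i, c i * f i z := ⟨_, rfl⟩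
      have cg : Continuous g := by
        rw [hg]
        exact continuous_finsetSum _ fun i _ => continuous_const.mul (hf i).cont
      have ig : ∀ γ ∈ GammaS n 𝔫, ∀ z, g (embS γ * z) = g z := by
        intro γ hγ z
        rw [hg]
        exact Finset.sum_congr rfl fun i _ => by rw [(hf i).inv γ hγ z]
      have e1 : ∀ z, ∑ i, c i * (PowerSeries.coeff k (kapP (y i)) * WhS (Ideal.absNorm 𝔫) θ₀ θ (f i) (x * z)) =
          (Ideal.absNorm v.asIdeal : ℂ) ^ (n * k) * FW 𝔫 v ϖ θ₀ θ g (x * z) (Lk K ϖ n k) := by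
        intro z
        rw [hg, g30_fw_lin h𝔫 θ₀ θ c (fun i => (hf i).cont), Finset.mul_sum]
        refine Finset.sum_congr rfl fun i _ => ?_
        rw [← hkl hloc hv hχ (hf i).cont (hf i).inv (hy i) k (x * z)]
        ring
      have e2 : ∀ z, ‖∑ i, c i * (PowerSeries.coeff k (kapP (y i)) * WhS (Ideal.absNorm 𝔫) θ₀ θ (f i) (x * z))‖ₑ ^ 2 =
          ENNReal.ofReal ((Ideal.absNorm v.asIdeal : ℝ) ^ (2 * (n * k))) * ‖FW 𝔫 v ϖ θ₀ θ g (x * z) (Lk K ϖ n k)‖ₑ ^ 2 := by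
        intro z
        rw [e1, enorm_mul, mul_pow, g30_enorm]
      simp only [e2]
      rw [lintegral_const_mul' _ _ ENNReal.ofReal_ne_top]
      have mp : MeasurePreserving (fun z : SP n (EE K) => x * z) μ μ := measurePreserving_mul_left μ x
      have me : MeasurableEmbedding (fun z : SP n (EE K) => x * z) := (Homeomorph.mulLeft x).measurableEmbedding
      rw [mp.setLIntegral_comp_emb me (fun z => ‖FW 𝔫 v ϖ θ₀ θ g z (Lk K ϖ n k)‖ₑ ^ 2) (tsupport φ)]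
      have h1 := hls v R ϖ hloc 𝔫 hv k hk θ₀ θ hχ a ha x hx F₀ hF₀ g cg ig
      have h2 : ∫⁻ z in F₀, ‖g z‖ₑ ^ 2 ∂μ = ENNReal.ofReal (∑ i, ‖c i‖ ^ 2) := by
        rw [hg]
        exact on_sum μ hF hF₀ hf ho c
      rw [h2] at h1
      have hq : (0 : ℝ) < (Ideal.absNorm v.asIdeal : ℝ) ^ (2 * (n * k)) := by
        have := g29_q v
        have h0 : (0 : ℝ) < (Ideal.absNorm v.asIdeal : ℝ) := by exact_mod_cast (by omega : 0 < Ideal.absNorm v.asIdeal)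
        exact pow_pos h0 _
      refine (mul_le_mul_right h1 _).trans (le_of_eq ?_)
      have eq2 : 2 * n * k = 2 * (n * k) := by ring
      rw [eq2, ← mul_assoc, ← ENNReal.ofReal_mul hq.le, mul_div_cancel₀ _ hq.ne', ← ENNReal.ofReal_mul hCB])
  have h3 : ∑ i, ‖PowerSeries.coeff k (kapP (y i))‖ ^ 2 * ‖WhS (Ideal.absNorm 𝔫) θ₀ θ (f i) x‖ ^ 2 ≤
      ∑ i, ‖PowerSeries.coeff k (kapP (y i)) * (lam i * WhS (Ideal.absNorm 𝔫) θ₀ θ (f i) x)‖ ^ 2 := by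
    refine Finset.sum_le_sum fun i _ => ?_
    rw [norm_mul, norm_mul, mul_pow, mul_pow]
    refine mul_le_mul_of_nonneg_left ?_ (by positivity)
    refine le_mul_of_one_le_left (by positivity) ?_
    exact one_le_pow₀ (hlam1 i)
  refine (h3.trans key).trans (le_of_eq ?_)
  ring

end

end Pool.Agent.Lib.H67G
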