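import Pool.Agent.Lib.H67G.G18
import Pool.Agent.Lib.H67G.G20
import Pool.Agent.Lib.H67G.G23
import Pool.Agent.Lib.H67G.G29

/-!
# G30A (M/L): the large sieve for the functions ft
-/

namespace Pool.Agent.Lib.H67G

open MeasureTheory Matrix NumberField IsDedekindDomain Pool.Agent.Lib.H89N Pool.Agent.Lib.H33W
open scoped ENNReal Pointwise

noncomputable section

set_option linter.unusedSectionVars false


/-- A number `M ≥ M₀` prime to `v`, from a list of two. PROOF. A power of `2` and a power of `3`; `2` and `3` are not both in `v`. -/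
theorem g30_M (M₀ : ℝ) : ∃ M₁ M₂ : ℕ, M₀ ≤ M₁ ∧ M₀ ≤ M₂ ∧ 1 ≤ M₁ ∧ 1 ≤ M₂ ∧ ∀ (K : Type) [Field K] [NumberField K] (v : HeightOneSpectrum (𝓞 K)),
    (M₁ : 𝓞 K) ∉ v.asIdeal ∨ (M₂ : 𝓞 K) ∉ v.asIdeal := by
  refine ⟨2 ^ ⌈M₀⌉₊, 3 ^ ⌈M₀⌉₊, ?_, ?_, Nat.one_le_two_pow, Nat.one_le_pow _ _ (by norm_num), ?_⟩
  · refine (Nat.le_ceil M₀).trans ?_
    exact_mod_cast (Nat.lt_pow_self (by norm_num : 1 < 2)).le
  · refine (Nat.le_ceil M₀).trans ?_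
    exact_mod_cast (Nat.lt_pow_self (by norm_num : 1 < 3)).le
  · intro K _ _ v
    by_contra hcon
    rw [not_or, not_not, not_not] at hcon
    have hp := v.isPrime
    have h2 : (2 : 𝓞 K) ∈ v.asIdeal := hp.mem_of_pow_mem ⌈M₀⌉₊ (by
      have := hcon.1
      rwa [Nat.cast_pow, Nat.cast_ofNat] at this)
    have h3 : (3 : 𝓞 K) ∈ v.asIdeal := hp.mem_of_pow_mem ⌈M₀⌉₊ (by
      have := hcon.2
      rwa [Nat.cast_pow, Nat.cast_ofNat] at this)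
    have h1 : (1 : 𝓞 K) ∈ v.asIdeal := by
      have := sub_mem h3 h2
      have e : (3 : 𝓞 K) - 2 = 1 := by norm_num
      rwa [e] at this
    exact hp.ne_top ((Ideal.eq_top_iff_one _).2 h1)

theorem g30_nm (K : Type) [Field K] [NumberField K] (M : ℕ) (𝔫 : Ideal (𝓞 K)) :
    Ideal.absNorm (Ideal.span {(M : 𝓞 K)} * 𝔫) = M ^ Module.finrank ℚ K * Ideal.absNorm 𝔫 := by
  rw [map_mul, Ideal.absNorm_span_singleton]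
  congr 1
  have e : (M : 𝓞 K) = algebraMap ℤ (𝓞 K) (M : ℤ) := by simp
  rw [e, Algebra.norm_algebraMap, RingOfIntegers.rank, Int.natAbs_pow, Int.natAbs_natCast]

theorem g30_v {K : Type} [Field K] [NumberField K] {v : HeightOneSpectrum (𝓞 K)} {M : ℕ} (hM : (M : 𝓞 K) ∉ v.asIdeal) {𝔫 : Ideal (𝓞 K)}
    (hv : ¬𝔫 ≤ v.asIdeal) : ¬Ideal.span {(M : 𝓞 K)} * 𝔫 ≤ v.asIdeal := by
  intro h
  rcases (v.isPrime.mul_le).1 h with h | h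
  · exact hM (h (Ideal.mem_span_singleton_self _))
  · exact hv h

theorem g30_prod {n : ℕ} (K : Type) [Field K] [NumberField K] {a : Fin n → ℝ} (ha : ∀ i, 0 < a i) {N N' : ℝ} (hN : 0 < N) (h : N ≤ N') :
    (∏ p : SI n, ((a p.1.1 * a p.1.2) ^ Module.finrank ℚ K * N')⁻¹) * (∏ p : UI n, (a p.1.1 / a p.1.2) ^ Module.finrank ℚ K / N') ≤
      (∏ p : SI n, ((a p.1.1 * a p.1.2) ^ Module.finrank ℚ K * N)⁻¹) * ∏ p : UI n, (a p.1.1 / a p.1.2) ^ Module.finrank ℚ K / N := by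
  have hN' : 0 < N' := hN.trans_le h
  refine mul_le_mul ?_ ?_ (Finset.prod_nonneg fun p _ => ?_) (Finset.prod_nonneg fun p _ => ?_)
  · refine Finset.prod_le_prod (fun p _ => ?_) fun p _ => ?_
    · have := ha p.1.1
      have := ha p.1.2
      positivity
    · have h1 := ha p.1.1
      have h2 := ha p.1.2
      exact inv_anti₀ (by positivity) (mul_le_mul_of_nonneg_left h (by positivity))
  · refine Finset.prod_le_prod (fun p _ => ?_) fun p _ => ?_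
    · have := ha p.1.1
      have := ha p.1.2
      positivity
    · have h1 := ha p.1.1
      have h2 := ha p.1.2
      exact div_le_div_of_nonneg_left (by positivity) hN h
  · have := ha p.1.1
    have := ha p.1.2
    positivity
  · have := ha p.1.1
    have := ha p.1.2
    positivity

/-- The large sieve for the functions `ft(f, L_k)`. PROOF. `C`, `M₀` from `ls_sp` (for `μ`, `Ω`, `Ω₁`), `M₁`, `M₂` from `g30_M`. Given `v`, take `M` one of the two prime to `v`, `𝔪 = (M) 𝔫`: `N𝔪 = M^d N𝔫 ≥ M₀ N𝔫`; `PrmS M₀ (N𝔫) 𝔪 v k a`. `Γ = StG n 𝔪 v (Lk)`: `gdS_st`; `Γ ≤ StG n 𝔫 v (Lk)` (`st_mono`). `h = ftS f (Lk)` is continuous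
(`ft_cont`) and `Γ`-invariant (`ft_inv`, `lk_sd`); `F'` from `exists_sfS` (`gdS_den`). `MnS (dI 𝔪 v k) h y = FW y (Lk)` (`fw_eq`, `dI ≤ 𝔪 ≤ 𝔫`). `norm_ft` and `idx_le`: `∫_{F'} ‖h‖² ≤ M^(4 n² d) ∫_{F₀} ‖f‖²`. The products: `N𝔪 ≥ N𝔫`, so the product in `ls_sp` is at most `Bnd K 𝔫 a`. `ChrS` gives `ChI 𝔫`, so `ChI 𝔪`, and `θ₀ ≠ 0`, `θ_i ≠ 0`
(`prim0`, `chr.prim`). -/
theorem g30_ls (n : ℕ) [NeZero n] (K : Type) [Field K] [NumberField K] (μ : Measure (SP n (EE K))) [μ.IsHaarMeasure] {Ω Ω₁ : Set (SP n (EE K))}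
    (hΩ : IsCompact Ω) (hΩ₁ : IsCompact Ω₁) : ∃ C : ℝ, 0 ≤ C ∧ ∀ (v : HeightOneSpectrum (𝓞 K)) (R : Type) [CommRing R] [IsDomain R]
    [IsDiscreteValuationRing R] [Algebra R K] (ϖ : R), Loc v R ϖ → ∀ 𝔫 : Ideal (𝓞 K), ¬𝔫 ≤ v.asIdeal → ∀ k : ℕ, Ideal.absNorm v.asIdeal ^ (2 * k) ≤ Ideal.absNorm 𝔫 ^ (2 * n + 1) →
    ∀ (θ₀ : EE K →ₗ[ℝ] ℝ) (θ : Fin n → (EE K →ₗ[ℝ] ℝ)), ChrS 𝔫 v θ₀ θ → ∀ a : Fin n → ℝ, TorS 𝔫 a → ∀ x, InRangeS Ω a x →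
    ∀ F₀ : Set (SP n (EE K)), SF (GammaS n 𝔫) F₀ → ∀ f : SP n (EE K) → ℂ, Continuous f → (∀ γ ∈ GammaS n 𝔫, ∀ x, f (embS γ * x) = f x) →
      ∫⁻ y in (fun y => x * y) '' Ω₁, ‖FW 𝔫 v ϖ θ₀ θ f y (Lk K ϖ n k)‖ₑ ^ 2 ∂μ ≤
        ENNReal.ofReal (C * Bnd K 𝔫 a / (Ideal.absNorm v.asIdeal : ℝ) ^ (2 * n * k)) * ∫⁻ y in F₀, ‖f y‖ₑ ^ 2 ∂μ := by
  obtain ⟨C, M₀, hC, hM₀, hLS⟩ := ls_sp n K μ Ω Ω₁ hΩ hΩ₁
  obtain ⟨M₁, M₂, h1, h2, h3, h4, hM⟩ := g30_M M₀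
  refine ⟨C * ((((M₁ ^ Module.finrank ℚ K) ^ (4 * n ^ 2) : ℕ) : ℝ) + (((M₂ ^ Module.finrank ℚ K) ^ (4 * n ^ 2) : ℕ) : ℝ)), by positivity, ?_⟩
  intro v R _ _ _ _ ϖ hL 𝔫 hv k hk θ₀ θ hθ a ha x hx F₀ hF₀ f cf hf
  obtain ⟨M, hMv, hMM, hM1, hMb⟩ : ∃ M : ℕ, (M : 𝓞 K) ∉ v.asIdeal ∧ M₀ ≤ M ∧ 1 ≤ M ∧ (((M ^ Module.finrank ℚ K) ^ (4 * n ^ 2) : ℕ) : ℝ) ≤
      (((M₁ ^ Module.finrank ℚ K) ^ (4 * n ^ 2) : ℕ) : ℝ) + (((M₂ ^ Module.finrank ℚ K) ^ (4 * n ^ 2) : ℕ) : ℝ) := by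
    rcases hM K v with hv1 | hv2
    · exact ⟨M₁, hv1, h1, h3, le_add_of_nonneg_right (by positivity)⟩
    · exact ⟨M₂, hv2, h2, h4, le_add_of_nonneg_left (by positivity)⟩
  set 𝔪 : Ideal (𝓞 K) := Ideal.span {(M : 𝓞 K)} * 𝔫 with h𝔪
  have hle : 𝔪 ≤ 𝔫 := Ideal.mul_le_right
  have hv𝔪 : ¬𝔪 ≤ v.asIdeal := g30_v hMv hv
  have hne : 𝔫 ≠ ⊥ := ne_bot_of hv
  have hne𝔪 : 𝔪 ≠ ⊥ := ne_bot_of hv𝔪
  have hNN : Ideal.absNorm 𝔫 ≠ 0 := fun h => hne (Ideal.absNorm_eq_zero_iff.1 h)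
  have hN1 : (1 : ℝ) ≤ Ideal.absNorm 𝔫 := by exact_mod_cast Nat.one_le_iff_ne_zero.2 hNN
  have hd : 1 ≤ Module.finrank ℚ K := Module.finrank_pos
  have hM1' : (1 : ℝ) ≤ M := by exact_mod_cast hM1
  have hNm : (Ideal.absNorm 𝔪 : ℝ) = (M : ℝ) ^ Module.finrank ℚ K * Ideal.absNorm 𝔫 := by
    rw [h𝔪, g30_nm]
    push_cast
    ring
  have hMd : (M : ℝ) ≤ (M : ℝ) ^ Module.finrank ℚ K := le_self_pow₀ hM1' (by omega)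
  have hPrm : PrmS M₀ (Ideal.absNorm 𝔫 : ℝ) 𝔪 v k a := by
    refine ⟨hne𝔪, hN1, ?_, ?_, ⟨ha.pos, ha.long, ha.ratio⟩⟩
    · rw [hNm]
      exact mul_le_mul_of_nonneg_right (hMM.trans hMd) (by positivity)
    · exact_mod_cast hk
  have hc := chi_of_chrS hθ
  have hcm : ChI 𝔪 θ₀ θ := ⟨fun z hz => hc.i0 z (hle hz), fun j hj z hz => hc.i j hj z (hle hz)⟩
  have hθ0 : θ₀ ≠ 0 := by
    rintro rfl
    obtain ⟨z, -, hz⟩ := hθ.prim0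
    exact hz 0 (by simp)
  have hθi : ∀ i : Fin n, (i : ℕ) + 1 < n → θ i ≠ 0 := by
    intro i hi h0
    obtain ⟨z, -, hz⟩ := hθ.chr.prim i hi
    exact hz 0 (by rw [h0]; simp)
  have hG := gdS_st (n := n) hL hv𝔪 k
  have lf := lf_of_loc hL
  have hsd : IsSD ϖ (Lk K ϖ n k) := lk_sd lf k
  have hst : StG n 𝔪 v (Lk K ϖ n k) ≤ StG n 𝔫 v (Lk K ϖ n k) := st_mono hle _
  have ch : Continuous (ftS 𝔫 v f (Lk K ϖ n k)) := ft_cont cf _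
  have ih : ∀ γ ∈ StG n 𝔪 v (Lk K ϖ n k), ∀ x, ftS 𝔫 v f (Lk K ϖ n k) (embS γ * x) = ftS 𝔫 v f (Lk K ϖ n k) x :=
    fun γ hγ x => ft_inv hL hv hf hsd (hst hγ) x
  obtain ⟨F', hF'⟩ := exists_sfS (gdS_den hG).2 (gdS_den hG).1
  have key := hLS (Ideal.absNorm 𝔫 : ℝ) 𝔪 v k a hPrm θ₀ θ hcm hθ0 hθi _ hG _ ch ih F' hF' x hx
  have e1 : ∀ y, MnS (dI 𝔪 v k) θ₀ θ (ftS 𝔫 v f (Lk K ϖ n k)) y = FW 𝔫 v ϖ θ₀ θ f y (Lk K ϖ n k) :=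
    fun y => fw_eq hL hv hc cf hf hsd hG.hasI (fun p => (q3_le 𝔪 v k p).trans hle) hst y
  simp_rw [e1] at key
  rw [norm_ft μ hL hv cf hf hsd hF₀ hst hF'] at key
  have hidx := idx_le (n := n) (R := R) hv hMv (Lk K ϖ n k)
  refine key.trans ?_
  rw [← mul_assoc]
  refine mul_le_mul' ?_ le_rfl
  refine (mul_le_mul' le_rfl hidx).trans ?_
  rw [← ENNReal.ofReal_natCast, ← ENNReal.ofReal_mul' (by positivity)]
  refine ENNReal.ofReal_le_ofReal ?_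
  have hq : (0 : ℝ) < (Ideal.absNorm v.asIdeal : ℝ) ^ (2 * n * k) := by
    have h0 : Ideal.absNorm v.asIdeal ≠ 0 := fun h => v.ne_bot (Ideal.absNorm_eq_zero_iff.1 h)
    have : (0 : ℝ) < Ideal.absNorm v.asIdeal := by exact_mod_cast Nat.pos_of_ne_zero h0
    positivity
  have hp := g30_prod K ha.pos (N := (Ideal.absNorm 𝔫 : ℝ)) (N' := (Ideal.absNorm 𝔪 : ℝ)) (by positivity) (by
    rw [hNm]
    exact le_mul_of_one_le_left (by positivity) (hM1'.trans hMd))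
  have hB0 : 0 ≤ (∏ p : SI n, ((a p.1.1 * a p.1.2) ^ Module.finrank ℚ K * (Ideal.absNorm 𝔪 : ℝ))⁻¹) *
      ∏ p : UI n, (a p.1.1 / a p.1.2) ^ Module.finrank ℚ K / (Ideal.absNorm 𝔪 : ℝ) := by
    refine mul_nonneg (Finset.prod_nonneg fun p _ => ?_) (Finset.prod_nonneg fun p _ => ?_)
    · have := ha.pos p.1.1
      have := ha.pos p.1.2
      positivity
    · have := ha.pos p.1.1
      have := ha.pos p.1.2
      positivity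
  rw [div_mul_eq_mul_div, div_le_div_iff_of_pos_right hq, mul_assoc C, mul_right_comm C]
  unfold Bnd
  calc C * (((M ^ Module.finrank ℚ K) ^ (4 * n ^ 2) : ℕ) : ℝ) * ((∏ p : SI n, ((a p.1.1 * a p.1.2) ^ Module.finrank ℚ K * (Ideal.absNorm 𝔪 : ℝ))⁻¹) *
        ∏ p : UI n, (a p.1.1 / a p.1.2) ^ Module.finrank ℚ K / (Ideal.absNorm 𝔪 : ℝ))
      ≤ C * ((((M₁ ^ Module.finrank ℚ K) ^ (4 * n ^ 2) : ℕ) : ℝ) + (((M₂ ^ Module.finrank ℚ K) ^ (4 * n ^ 2) : ℕ) : ℝ)) *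
        ((∏ p : SI n, ((a p.1.1 * a p.1.2) ^ Module.finrank ℚ K * (Ideal.absNorm 𝔪 : ℝ))⁻¹) *
        ∏ p : UI n, (a p.1.1 / a p.1.2) ^ Module.finrank ℚ K / (Ideal.absNorm 𝔪 : ℝ)) :=
        mul_le_mul_of_nonneg_right (mul_le_mul_of_nonneg_left hMb hC.le) hB0
    _ ≤ _ := mul_le_mul_of_nonneg_left hp (by positivity)

end

end Pool.Agent.Lib.H67G
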