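import Pool.Agent.Lib.H67G.G1

/-!
# G5 (M): the stabiliser of the standard lattice
-/

namespace Pool.Agent.Lib.H67G

open MeasureTheory Matrix NumberField IsDedekindDomain Pool.Agent.Lib.H89N Pool.Agent.Lib.H33W
open scoped ENNReal Pointwise

noncomputable section

set_option linter.unusedSectionVars false

variable {n : ℕ} {K : Type} [Field K] [NumberField K] {v : HeightOneSpectrum (𝓞 K)} {R : Type} [CommRing R] [IsDomain R]
  [IsDiscreteValuationRing R] [Algebra R K] {ϖ : R} {𝔫 𝔪 : Ideal (𝓞 K)}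

theorem g5_one (i l : Fin n ⊕ Fin n) : (((1 : Matrix (Fin n ⊕ Fin n) (Fin n ⊕ Fin n) (𝓞 K)) i l : 𝓞 K) : K) =
    (1 : Matrix (Fin n ⊕ Fin n) (Fin n ⊕ Fin n) K) i l := by
  by_cases h : i = l
  · subst h
    rw [Matrix.one_apply_eq, Matrix.one_apply_eq]
    exact map_one _
  · rw [Matrix.one_apply_ne h, Matrix.one_apply_ne h]
    exact map_zero _

theorem g5_Jmap (S T : Type) [CommRing S] [CommRing T] (f : S →+* T) : (Matrix.J (Fin n) S).map f = Matrix.J (Fin n) T := by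
  ext i j
  rcases i with i | i <;> rcases j with j | j <;>
    simp [Matrix.J, Matrix.one_apply, apply_ite f]

/-- PROOF. `→`: `g` is the image of a matrix over `𝓞` which is the identity modulo `𝔫`. `←`: the entries of `g` are in `𝓞`; the matrix over `𝓞` is symplectic (`𝓞 → K` is injective) and in the kernel of the reduction modulo `𝔫`. -/
theorem mem_gamS {g : SP n K} : g ∈ GammaS n 𝔫 ↔ ∀ i l, InI 𝔫 ((g.val - 1) i l) := by
  constructor
  · rintro ⟨η, hη, rfl⟩ i l
    have h1 : (SP.map (n := n) (Ideal.Quotient.mk 𝔫)) η = 1 := hη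
    have h2 := congrFun (congrFun (congrArg SP.val h1) i) l
    refine ⟨η.val i l - (1 : Matrix (Fin n ⊕ Fin n) (Fin n ⊕ Fin n) (𝓞 K)) i l, ?_, ?_⟩
    · rw [← Ideal.Quotient.eq_zero_iff_mem, map_sub, sub_eq_zero]
      have h3 : Ideal.Quotient.mk 𝔫 (η.val i l) = (1 : Matrix (Fin n ⊕ Fin n) (Fin n ⊕ Fin n) (𝓞 K ⧸ 𝔫)) i l := h2
      rw [h3]
      by_cases h : i = l
      · subst h
        rw [Matrix.one_apply_eq, Matrix.one_apply_eq, map_one]
      · rw [Matrix.one_apply_ne h, Matrix.one_apply_ne h, map_zero]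
    · have h4 : ((η.val i l - (1 : Matrix (Fin n ⊕ Fin n) (Fin n ⊕ Fin n) (𝓞 K)) i l : 𝓞 K) : K) =
          ((η.val i l : 𝓞 K) : K) - (((1 : Matrix (Fin n ⊕ Fin n) (Fin n ⊕ Fin n) (𝓞 K)) i l : 𝓞 K) : K) :=
        map_sub _ _ _
      rw [h4, g5_one]
      rfl
  · intro hg
    choose Y hY hYe using hg
    obtain ⟨A, hA⟩ : ∃ A : Matrix (Fin n ⊕ Fin n) (Fin n ⊕ Fin n) (𝓞 K), A = 1 + Matrix.of Y := ⟨_, rfl⟩
    have hAg : A.map (algebraMap (𝓞 K) K) = g.val := by
      ext i l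
      have h5 : (algebraMap (𝓞 K) K) (A i l) =
          (((1 : Matrix (Fin n ⊕ Fin n) (Fin n ⊕ Fin n) (𝓞 K)) i l : 𝓞 K) : K) + ((Y i l : 𝓞 K) : K) := by
        rw [hA]
        exact map_add _ _ _
      rw [Matrix.map_apply, h5, g5_one, ← hYe i l, Matrix.sub_apply]
      ring
    have hinj : Function.Injective (algebraMap (𝓞 K) K) := FaithfulSMul.algebraMap_injective (𝓞 K) K
    have hAJ : A * Matrix.J (Fin n) (𝓞 K) * Aᵀ = Matrix.J (Fin n) (𝓞 K) := by
      have h6 : (A * Matrix.J (Fin n) (𝓞 K) * Aᵀ).map (algebraMap (𝓞 K) K) =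
          (Matrix.J (Fin n) (𝓞 K)).map (algebraMap (𝓞 K) K) := by
        rw [Matrix.map_mul, Matrix.map_mul, g5_Jmap, Matrix.transpose_map, hAg]
        exact g.prop
      ext i l
      have h7 := congrFun (congrFun h6 i) l
      exact congrArg _ (hinj h7)
    refine ⟨⟨A, hAJ⟩, ?_, SP.ext hAg⟩
    show SP.map (n := n) (Ideal.Quotient.mk 𝔫) ⟨A, hAJ⟩ = 1
    apply SP.ext
    show A.map (Ideal.Quotient.mk 𝔫) = 1
    ext i l
    rw [Matrix.map_apply, hA, Matrix.add_apply, map_add, Matrix.of_apply,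
      Ideal.Quotient.eq_zero_iff_mem.2 (hY i l), add_zero]
    by_cases h : i = l
    · subst h
      rw [Matrix.one_apply_eq, Matrix.one_apply_eq, map_one]
    · rw [Matrix.one_apply_ne h, Matrix.one_apply_ne h, map_zero]

theorem gam_HS {g : SP n K} (hg : g ∈ GammaS n 𝔫) : g ∈ HSg n 𝔫 v :=
  ⟨0, fun i l => by
    obtain ⟨y, hy, e⟩ := mem_gamS.1 hg i l
    rw [e]
    exact Den.of_int hy 0⟩

theorem g5_J (a b : Fin n ⊕ Fin n) : In R (Matrix.J (Fin n) K a b) := by
  have h : Matrix.J (Fin n) K a b = 0 ∨ Matrix.J (Fin n) K a b = 1 ∨ Matrix.J (Fin n) K a b = -1 := by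
    rcases a with a | a <;> rcases b with b | b <;> by_cases hab : a = b <;> simp [Matrix.J, hab]
  rcases h with h | h | h
  · rw [h]
    exact in_zero
  · rw [h]
    exact in_one
  · rw [h]
    exact in_neg in_one

theorem g5_mul {A B : Matrix (Fin n ⊕ Fin n) (Fin n ⊕ Fin n) K} (hA : ∀ i l, In R (A i l)) (hB : ∀ i l, In R (B i l)) :
    ∀ i l, In R ((A * B) i l) := by
  intro i l
  rw [Matrix.mul_apply]
  exact in_sum _ _ fun c _ => in_mul (hA i c) (hB c l)

theorem g5_vec {A : Matrix (Fin n ⊕ Fin n) (Fin n ⊕ Fin n) K} (hA : ∀ i l, In R (A i l)) {x : Fin n ⊕ Fin n → K}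
    (hx : x ∈ St2 R K n) : A *ᵥ x ∈ St2 R K n :=
  fun i => in_dot (hA i) hx

/-- If the entries of `g` are in `R` then `g` preserves the standard lattice. -/
theorem g5_int {g : SP n K} (hg : ∀ i l, In R (g.val i l)) : ac g.val (St2 R K n) = St2 R K n := by
  have hg' : ∀ i l, In R (g⁻¹.val i l) := by
    intro i l
    rw [SP.val_inv, Matrix.neg_apply]
    exact in_neg (g5_mul (g5_mul g5_J fun a b => hg b a) g5_J i l)
  have e : g.val * g⁻¹.val = 1 := by
    rw [← SP.val_mul, mul_inv_cancel, SP.val_one]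
  apply le_antisymm
  · intro x hx
    obtain ⟨y, hy, rfl⟩ := mem_ac.1 hx
    exact g5_vec hg hy
  · intro x hx
    exact (mem_ac_inv e).2 (g5_vec hg' hx)

/-- PROOF. `g St ⊆ St` says that the entries of `g` are in `R` (`single_St`), and the inverse `-(J gᵗ J)` has then also entries in `R`, so `g St = St`. With `g1_in` for the entries of `g - 1`. -/
theorem g5_st (h : Loc v R ϖ) (hv : ¬𝔫 ≤ v.asIdeal) {g : SP n K} (hg : g ∈ HSg n 𝔫 v) : ac g.val (St2 R K n) = St2 R K n ↔ g ∈ GammaS n 𝔫 := by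
  have h1 : ∀ i l : Fin n ⊕ Fin n, In R ((1 : Matrix (Fin n ⊕ Fin n) (Fin n ⊕ Fin n) K) i l) := by
    intro i l
    by_cases h : i = l
    · subst h
      rw [Matrix.one_apply_eq]
      exact in_one
    · rw [Matrix.one_apply_ne h]
      exact in_zero
  constructor
  · intro he
    obtain ⟨j, hj⟩ := hg
    refine mem_gamS.2 fun i l => g1_in h hv (hj i l) ?_
    rw [Matrix.sub_apply]
    refine in_sub ?_ (h1 i l)
    have h2 : g.val *ᵥ (Pi.single l 1) ∈ St2 R K n := by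
      rw [← he]
      exact mem_ac.2 ⟨_, single_St l, rfl⟩
    have h3 := h2 i
    rw [Matrix.mulVec_single_one] at h3
    exact h3
  · intro hG
    refine g5_int fun i l => ?_
    have h4 := g1_R0 h (mem_gamS.1 hG i l)
    have h5 := in_add h4 (h1 i l)
    rwa [Matrix.sub_apply, sub_add_cancel] at h5

theorem g5_sy (x y : Fin n ⊕ Fin n → K) : sy x y = -(x ⬝ᵥ (Matrix.J (Fin n) K *ᵥ y)) := by
  have e : Matrix.J (Fin n) K *ᵥ y = Sum.elim (-(y ∘ Sum.inr)) (y ∘ Sum.inl) := by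
    rw [Matrix.J, Matrix.fromBlocks_mulVec]
    simp [Matrix.neg_mulVec]
  rw [e]
  unfold sy dotProduct
  rw [Fintype.sum_sum_type]
  simp only [Sum.elim_inl, Sum.elim_inr, Function.comp_apply, Pi.neg_apply, mul_neg, Finset.sum_neg_distrib]
  ring

theorem g5_syg (g : SP n K) (x y : Fin n ⊕ Fin n → K) : sy (g.val *ᵥ x) (g.val *ᵥ y) = sy x y := by
  rw [g5_sy, g5_sy]
  congr 1
  have e := g.prop'
  calc (g.val *ᵥ x) ⬝ᵥ (Matrix.J (Fin n) K *ᵥ (g.val *ᵥ y)) =
      x ⬝ᵥ ((g.valᵀ * Matrix.J (Fin n) K * g.val) *ᵥ y) := by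
        rw [← Matrix.mulVec_mulVec, ← Matrix.mulVec_mulVec, Matrix.dotProduct_mulVec x g.valᵀ, Matrix.vecMul_transpose]
    _ = x ⬝ᵥ (Matrix.J (Fin n) K *ᵥ y) := by rw [e]

/-- Symplectic matrices map self-dual lattices to self-dual lattices. PROOF. `la_ac`; `sy (g x) (g y) = sy x y` (`SP.prop'`). -/
theorem g5_sd (h : LF R K ϖ (Ideal.absNorm v.asIdeal)) (g : SP n K) {L : Submodule R (Fin n ⊕ Fin n → K)} (hL : IsSD ϖ L) : IsSD ϖ (ac g.val L) := by
  have e : g.val * g⁻¹.val = 1 := by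
    rw [← SP.val_mul, mul_inv_cancel, SP.val_one]
  refine ⟨la_ac h e hL.la, fun x => ?_⟩
  rw [mem_ac_inv e, hL.sd]
  constructor
  · intro h1 z hz
    obtain ⟨y, hy, rfl⟩ := mem_ac.1 hz
    have h2 := h1 y hy
    rw [← g5_syg g, Matrix.mulVec_mulVec, e, Matrix.one_mulVec] at h2
    exact h2
  · intro h1 y hy
    have h2 := h1 (g.val *ᵥ y) (mem_ac.2 ⟨y, hy, rfl⟩)
    rw [← g5_syg g, Matrix.mulVec_mulVec, e, Matrix.one_mulVec]
    exact h2

theorem g5_sdSt : IsSD ϖ (St2 R K n) := by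
  refine ⟨la_St, fun x => ⟨fun hx y hy => ?_, fun hx i => ?_⟩⟩
  · exact in_sub (in_dot (fun i => hx _) fun i => hy _) (in_dot (fun i => hx _) fun i => hy _)
  · rcases i with a | a
    · have h1 := hx _ (single_St (Sum.inr a))
      have h2 : sy x (Pi.single (Sum.inr a) 1) = x (Sum.inl a) := by
        unfold sy dotProduct
        simp [Pi.single_apply]
      rw [h2] at h1
      exact h1
    · have h1 := in_neg (hx _ (single_St (Sum.inl a)))
      have h2 : sy x (Pi.single (Sum.inl a) 1) = -x (Sum.inr a) := by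
        unfold sy dotProduct
        simp [Pi.single_apply]
      rw [h2, neg_neg] at h1
      exact h1

end

end Pool.Agent.Lib.H67G
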