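import Pool.Agent.Lib.H67G.G5
import Pool.Agent.Lib.H67G.G3

/-!
# G7 (M/L): strong approximation, the closure
-/

namespace Pool.Agent.Lib.H67G

open MeasureTheory Matrix NumberField IsDedekindDomain Pool.Agent.Lib.H89N Pool.Agent.Lib.H33W
open scoped ENNReal Pointwise

noncomputable section

set_option linter.unusedSectionVars false

variable {n : ℕ} {K : Type} [Field K] [NumberField K] {v : HeightOneSpectrum (𝓞 K)} {R : Type} [CommRing R] [IsDomain R]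
  [IsDiscreteValuationRing R] [Algebra R K] {ϖ : R} {𝔫 𝔪 : Ideal (𝓞 K)}

/-- All the entries are in `R`. -/
def g7_I (R : Type) [CommRing R] {K : Type} [Field K] [Algebra R K] {ι : Type} (X : Matrix ι ι K) : Prop := ∀ i l, In R (X i l)

theorem g7_mul {ι : Type} [Fintype ι] {X Y : Matrix ι ι K} (hX : g7_I R X) (hY : g7_I R Y) : g7_I R (X * Y) := by
  intro i l
  rw [Matrix.mul_apply]
  exact in_sum _ _ fun c _ => in_mul (hX i c) (hY c l)

theorem g7_add {ι : Type} {X Y : Matrix ι ι K} (hX : g7_I R X) (hY : g7_I R Y) : g7_I R (X + Y) := fun i l =>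
  in_add (hX i l) (hY i l)

theorem g7_one {ι : Type} [DecidableEq ι] : g7_I R (1 : Matrix ι ι K) := by
  intro i l
  rw [Matrix.one_apply]
  split_ifs
  · exact in_one
  · exact in_zero

theorem g7_smul {ι : Type} {X : Matrix ι ι K} {c : K} (hc : In R c) (hX : g7_I R X) : g7_I R (c • X) := fun i l => by
  rw [Matrix.smul_apply, smul_eq_mul]
  exact in_mul hc (hX i l)

theorem g7_pow (c : ℕ) : In R (algebraMap R K ϖ ^ c) := in_pow (in_alg ϖ) c

theorem g7_clear (h : LF R K ϖ (Ideal.absNorm v.asIdeal)) {ι : Type} [Fintype ι] (X : Matrix ι ι K) :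
    ∃ c : ℕ, ∀ c', c ≤ c' → g7_I R (algebraMap R K ϖ ^ c' • X) := by
  choose m hm using fun p : ι × ι => h.frac (X p.1 p.2)
  refine ⟨∑ p, m p, fun c' hc' i l => ?_⟩
  have h1 : m (i, l) ≤ c' := (Finset.single_le_sum (f := m) (fun _ _ => Nat.zero_le _) (Finset.mem_univ (i, l))).trans hc'
  obtain ⟨e, rfl⟩ := Nat.exists_eq_add_of_le h1
  rw [Matrix.smul_apply, smul_eq_mul, pow_add, mul_comm (algebraMap R K ϖ ^ m (i, l)), mul_assoc]
  exact in_mul (g7_pow e) (hm (i, l))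

theorem g7_iff {ι : Type} {X : Matrix ι ι K} {c : K} : g7_I R (c • X) ↔ ∀ i l, In R (c * X i l) := Iff.rfl

/-- `g` is in the closure of `HG(𝔫)` for the topology of `v`. -/
def ClS (R : Type) [CommRing R] [Algebra R K] (ϖ : R) (𝔫 : Ideal (𝓞 K)) (v : HeightOneSpectrum (𝓞 K)) (g : SP n K) : Prop :=
  ∀ m : ℕ, ∃ g' : SP n K, g' ∈ HSg n 𝔫 v ∧ ∀ i l, In R ((algebraMap R K ϖ ^ m)⁻¹ * ((g'⁻¹ * g).val - 1) i l)

/-- PROOF. Let `m` be given; `ϖ ^ c g₁`, `ϖ ^ c g₁⁻¹` have entries in `R`. Choose `g₁'` for `g₁` and `m`: `g₁'⁻¹ g₁ = 1 + ϖ ^ m X₁`; `g'` for `g` and `m + 2 c`: `g'⁻¹ g = 1 + ϖ ^ (m + 2c) X`. Then `(g' g₁')⁻¹ g g₁ = g₁'⁻¹ (1 + ϖ ^ (m+2c) X) g₁ = g₁'⁻¹ g₁ + ϖ ^ (m+2c) (g₁'⁻¹ g₁) g₁⁻¹ X g₁`. -/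
theorem cl_mul (h : Loc v R ϖ) {g g₁ : SP n K} (hg : ClS R ϖ 𝔫 v g) (hg₁ : ClS R ϖ 𝔫 v g₁) : ClS R ϖ 𝔫 v (g * g₁) := by
  have hLF := lf_of_loc (K := K) h
  have hπ : algebraMap R K ϖ ≠ 0 := h.pi_ne
  intro m
  obtain ⟨c1, hc1⟩ := g7_clear hLF g₁.val
  obtain ⟨c2, hc2⟩ := g7_clear hLF g₁⁻¹.val
  obtain ⟨c, hc⟩ : ∃ c, c = c1 + c2 := ⟨_, rfl⟩
  have k1 : g7_I R (algebraMap R K ϖ ^ c • g₁.val) := hc1 c (by omega)
  have k2 : g7_I R (algebraMap R K ϖ ^ c • g₁⁻¹.val) := hc2 c (by omega)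
  obtain ⟨a, ha, ha'⟩ := hg (m + 2 * c)
  obtain ⟨b, hb, hb'⟩ := hg₁ m
  refine ⟨a * b, mul_mem ha hb, ?_⟩
  obtain ⟨D, hD⟩ : ∃ D, D = (a⁻¹ * g).val - 1 := ⟨_, rfl⟩
  obtain ⟨E, hE⟩ : ∃ E, E = (b⁻¹ * g₁).val - 1 := ⟨_, rfl⟩
  have k3 : g7_I R ((algebraMap R K ϖ ^ (m + 2 * c))⁻¹ • D) := by rw [hD]; exact ha'
  have k4 : g7_I R ((algebraMap R K ϖ ^ m)⁻¹ • E) := by rw [hE]; exact hb'
  have k5 : g7_I R E := by
    have h1 := g7_smul (g7_pow (K := K) (ϖ := ϖ) m) k4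
    rwa [smul_smul, mul_inv_cancel₀ (pow_ne_zero _ hπ), one_smul] at h1
  have h1 : ((a * b)⁻¹ * (g * g₁)).val - 1 = E + (1 + E) * (g₁⁻¹.val * D * g₁.val) := by
    have e1 : (a * b)⁻¹ * (g * g₁) = (b⁻¹ * g₁) * (g₁⁻¹ * (a⁻¹ * g) * g₁) := by group
    have e2 : (a⁻¹ * g).val = 1 + D := by rw [hD]; abel
    have e3 : (b⁻¹ * g₁).val = 1 + E := by rw [hE]; abel
    have e4 : g₁⁻¹.val * g₁.val = 1 := by rw [← SP.val_mul, inv_mul_cancel, SP.val_one]
    rw [e1, SP.val_mul (b⁻¹ * g₁), SP.val_mul (g₁⁻¹ * (a⁻¹ * g)), SP.val_mul g₁⁻¹, e2, e3, Matrix.mul_add, Matrix.mul_one,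
      Matrix.add_mul (g₁⁻¹.val), e4, Matrix.mul_add, Matrix.mul_one]
    abel
  have h2 : (algebraMap R K ϖ ^ m)⁻¹ • (((a * b)⁻¹ * (g * g₁)).val - 1) = (algebraMap R K ϖ ^ m)⁻¹ • E +
      (1 + E) * ((algebraMap R K ϖ ^ c • g₁⁻¹.val) * ((algebraMap R K ϖ ^ (m + 2 * c))⁻¹ • D) * (algebraMap R K ϖ ^ c • g₁.val)) := by
    rw [h1, smul_add]
    congr 1
    simp only [Matrix.smul_mul, Matrix.mul_smul, smul_smul]
    congr 1
    rw [pow_add, two_mul, pow_add]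
    field_simp
  exact g7_iff.1 (h2 ▸ g7_add k4 (g7_mul (g7_add g7_one k5) (g7_mul (g7_mul k2 k3) k1)))

theorem g7_den_sy {Y : SI n → K} (hY : ∀ p, ∃ j, Den 𝔫 v j (Y p)) : ∃ j, ∀ a b, Den 𝔫 v j (syM Y a b) := by
  choose j hj using hY
  refine ⟨∑ p, j p, fun a b => ?_⟩
  have h1 : ∀ p, Den 𝔫 v (∑ p, j p) (Y p) := fun p =>
    (hj p).mono (Finset.single_le_sum (f := j) (fun _ _ => Nat.zero_le _) (Finset.mem_univ p))
  unfold syM
  rw [Matrix.of_apply]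
  split_ifs
  · exact h1 _
  · exact h1 _

theorem g7_sy_add (Y Z : SI n → K) : syM Y + syM Z = syM (Y + Z) := by
  ext a b
  rw [Matrix.add_apply]
  unfold syM
  simp only [Matrix.of_apply]
  split_ifs <;> rfl

theorem g7_sy_in {Y : SI n → K} {c : K} (hY : ∀ p, In R (c * Y p)) (a b : Fin n) : In R (c * syM Y a b) := by
  unfold syM
  rw [Matrix.of_apply]
  split_ifs
  · exact hY _
  · exact hY _

theorem g7_one_bl : (1 : Matrix (Fin n ⊕ Fin n) (Fin n ⊕ Fin n) K) = Matrix.fromBlocks 1 0 0 1 := Matrix.fromBlocks_one.symm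

theorem g7_nS_sub (Y : SI n → K) : (nS Y).val - 1 = Matrix.fromBlocks 0 (syM Y) 0 0 := by
  show Matrix.fromBlocks 1 (syM Y) 0 1 - 1 = _
  rw [g7_one_bl]
  ext (i | i) (l | l) <;>
    simp only [Matrix.sub_apply, Matrix.fromBlocks_apply₁₁, Matrix.fromBlocks_apply₁₂, Matrix.fromBlocks_apply₂₁,
      Matrix.fromBlocks_apply₂₂, sub_self, Matrix.zero_apply, sub_zero]

/-- PROOF. Approximate the entries of `Y` by `Y'` (`g3_approx`): `nS Y' ∈ HG` and `(nS Y')⁻¹ nS Y = nS (Y - Y')`. -/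
theorem cl_nS (h : Loc v R ϖ) (hv : ¬𝔫 ≤ v.asIdeal) (Y : SI n → K) : ClS R ϖ 𝔫 v (nS Y) := by
  intro m
  choose Y' hY1 hY2 using fun p => g3_approx h hv (Y p) m
  refine ⟨nS Y', ?_, ?_⟩
  · obtain ⟨j, hj⟩ := g7_den_sy hY1
    refine ⟨j, fun i l => ?_⟩
    rw [g7_nS_sub]
    rcases i with i | i <;> rcases l with l | l
    · rw [Matrix.fromBlocks_apply₁₁]
      exact Den.zero
    · rw [Matrix.fromBlocks_apply₁₂]
      exact hj i l
    · rw [Matrix.fromBlocks_apply₂₁]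
      exact Den.zero
    · rw [Matrix.fromBlocks_apply₂₂]
      exact Den.zero
  · have e1 : nS Y' * nS (Y - Y') = nS Y := by
      apply SP.ext
      show Matrix.fromBlocks 1 (syM Y') 0 1 * Matrix.fromBlocks 1 (syM (Y - Y')) 0 1 = Matrix.fromBlocks 1 (syM Y) 0 1
      rw [Matrix.fromBlocks_multiply]
      simp only [Matrix.mul_one, Matrix.one_mul, Matrix.mul_zero, Matrix.zero_mul, add_zero, zero_add]
      rw [g7_sy_add, sub_add_cancel]
    have e2 : (nS Y')⁻¹ * nS Y = nS (Y - Y') := by rw [← e1, inv_mul_cancel_left]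
    intro i l
    rw [e2, g7_nS_sub]
    rcases i with i | i <;> rcases l with l | l
    · rw [Matrix.fromBlocks_apply₁₁, Matrix.zero_apply, mul_zero]
      exact in_zero
    · rw [Matrix.fromBlocks_apply₁₂]
      exact g7_sy_in hY2 i l
    · rw [Matrix.fromBlocks_apply₂₁, Matrix.zero_apply, mul_zero]
      exact in_zero
    · rw [Matrix.fromBlocks_apply₂₂, Matrix.zero_apply, mul_zero]
      exact in_zero

/-- The lower unipotent elements. -/
def nL (Y : SI n → K) : SP n K :=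
  ⟨Matrix.fromBlocks 1 0 (syM Y) 1, by
    rw [Matrix.J, Matrix.fromBlocks_transpose, Matrix.fromBlocks_multiply, Matrix.fromBlocks_multiply]
    simp [syM_tr]⟩

theorem g7_nL_sub (Y : SI n → K) : (nL Y).val - 1 = Matrix.fromBlocks 0 0 (syM Y) 0 := by
  show Matrix.fromBlocks 1 0 (syM Y) 1 - 1 = _
  rw [g7_one_bl]
  ext (i | i) (l | l) <;>
    simp only [Matrix.sub_apply, Matrix.fromBlocks_apply₁₁, Matrix.fromBlocks_apply₁₂, Matrix.fromBlocks_apply₂₁,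
      Matrix.fromBlocks_apply₂₂, sub_self, Matrix.zero_apply, sub_zero]

theorem cl_nL (h : Loc v R ϖ) (hv : ¬𝔫 ≤ v.asIdeal) (Y : SI n → K) : ClS R ϖ 𝔫 v (nL Y) := by
  intro m
  choose Y' hY1 hY2 using fun p => g3_approx h hv (Y p) m
  refine ⟨nL Y', ?_, ?_⟩
  · obtain ⟨j, hj⟩ := g7_den_sy hY1
    refine ⟨j, fun i l => ?_⟩
    rw [g7_nL_sub]
    rcases i with i | i <;> rcases l with l | l
    · rw [Matrix.fromBlocks_apply₁₁]
      exact Den.zero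
    · rw [Matrix.fromBlocks_apply₁₂]
      exact Den.zero
    · rw [Matrix.fromBlocks_apply₂₁]
      exact hj i l
    · rw [Matrix.fromBlocks_apply₂₂]
      exact Den.zero
  · have e1 : nL Y' * nL (Y - Y') = nL Y := by
      apply SP.ext
      show Matrix.fromBlocks 1 0 (syM Y') 1 * Matrix.fromBlocks 1 0 (syM (Y - Y')) 1 = Matrix.fromBlocks 1 0 (syM Y) 1
      rw [Matrix.fromBlocks_multiply]
      simp only [Matrix.mul_one, Matrix.one_mul, Matrix.mul_zero, Matrix.zero_mul, add_zero, zero_add]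
      rw [g7_sy_add, add_sub_cancel]
    have e2 : (nL Y')⁻¹ * nL Y = nL (Y - Y') := by rw [← e1, inv_mul_cancel_left]
    intro i l
    rw [e2, g7_nL_sub]
    rcases i with i | i <;> rcases l with l | l
    · rw [Matrix.fromBlocks_apply₁₁, Matrix.zero_apply, mul_zero]
      exact in_zero
    · rw [Matrix.fromBlocks_apply₁₂, Matrix.zero_apply, mul_zero]
      exact in_zero
    · rw [Matrix.fromBlocks_apply₂₁]
      exact g7_sy_in hY2 i l
    · rw [Matrix.fromBlocks_apply₂₂, Matrix.zero_apply, mul_zero]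
      exact in_zero

end

end Pool.Agent.Lib.H67G
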