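import Pool.Agent.Lib.H67G.G7

/-!
# G8 (M): strong approximation, the Levi subgroup
-/

namespace Pool.Agent.Lib.H67G

open MeasureTheory Matrix NumberField IsDedekindDomain Pool.Agent.Lib.H89N Pool.Agent.Lib.H33W
open scoped ENNReal Pointwise

noncomputable section

set_option linter.unusedSectionVars false

variable {n : ℕ} {K : Type} [Field K] [NumberField K] {v : HeightOneSpectrum (𝓞 K)} {R : Type} [CommRing R] [IsDomain R]
  [IsDiscreteValuationRing R] [Algebra R K] {ϖ : R} {𝔫 𝔪 : Ideal (𝓞 K)}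

/-- The element `m(A)`. -/
def mG (A B : Matrix (Fin n) (Fin n) K) (h : A * B = 1) : SP n K := ⟨Matrix.fromBlocks Bᵀ 0 0 A, mS_aux A B h⟩

theorem g8_w (h : Loc v R ϖ) (hv : ¬𝔫 ≤ v.asIdeal) {S T : Matrix (Fin n) (Fin n) K} (hS : Sᵀ = S) (hT : Tᵀ = T) (h1 : S * T = 1) (h2 : T * S = 1) :
    ∃ w : SP n K, ClS R ϖ 𝔫 v w ∧ w.val = Matrix.fromBlocks 0 S (-T) 0 := by
  have hT' : (-T)ᵀ = -T := by rw [Matrix.transpose_neg, hT]
  refine ⟨nS (fun p : SI n => S p.1.1 p.1.2) * nL (fun p : SI n => (-T) p.1.1 p.1.2) * nS (fun p : SI n => S p.1.1 p.1.2),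
    cl_mul h (cl_mul h (cl_nS h hv _) (cl_nL h hv _)) (cl_nS h hv _), ?_⟩
  show Matrix.fromBlocks 1 (syM fun p : SI n => S p.1.1 p.1.2) 0 1 * Matrix.fromBlocks 1 0 (syM fun p : SI n => (-T) p.1.1 p.1.2) 1 *
    Matrix.fromBlocks 1 (syM fun p : SI n => S p.1.1 p.1.2) 0 1 = _
  rw [v1_sy' hS, v1_sy' hT', Matrix.fromBlocks_multiply, Matrix.fromBlocks_multiply]
  simp only [Matrix.mul_one, Matrix.one_mul, Matrix.mul_zero, Matrix.zero_mul, add_zero, zero_add, Matrix.mul_neg, h1, Matrix.neg_mul, h2,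
    add_neg_cancel, neg_add_cancel]

/-- PROOF. For a symmetric invertible `Y`: `n(Y) nL(-Y⁻¹) n(Y) = [[0, Y], [-Y⁻¹, 0]] =: w(Y)`, and `w(Y) w(Y')⁻¹ = [[Y Y'⁻¹, 0], [0, Y⁻¹ Y']]`, `w(Y')⁻¹ = n(-Y') nL(Y'⁻¹) n(-Y')`. With `P = Y⁻¹`, `Q = Y'` this is `m(P Q)`. (`syM` of the entries of a symmetric matrix is the matrix.) -/
theorem g8_sym (h : Loc v R ϖ) (hv : ¬𝔫 ≤ v.asIdeal) {P Q P' Q' : Matrix (Fin n) (Fin n) K} (hP : Pᵀ = P) (hQ : Qᵀ = Q) (h1 : P * P' = 1) (h2 : Q * Q' = 1)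
    (h3 : P * Q * (Q' * P') = 1) : ClS R ϖ 𝔫 v (mG (P * Q) (Q' * P') h3) := by
  have h1' : P' * P = 1 := mul_eq_one_comm.1 h1
  have h2' : Q' * Q = 1 := mul_eq_one_comm.1 h2
  have hP' : P'ᵀ = P' := by
    have e : P'ᵀ * P = 1 := by
      have := congrArg Matrix.transpose h1
      rwa [Matrix.transpose_mul, hP, Matrix.transpose_one] at this
    calc P'ᵀ = P'ᵀ * (P * P') := by rw [h1, Matrix.mul_one]
      _ = P' := by rw [← Matrix.mul_assoc, e, Matrix.one_mul]
  have hQ' : Q'ᵀ = Q' := by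
    have e : Q'ᵀ * Q = 1 := by
      have := congrArg Matrix.transpose h2
      rwa [Matrix.transpose_mul, hQ, Matrix.transpose_one] at this
    calc Q'ᵀ = Q'ᵀ * (Q * Q') := by rw [h2, Matrix.mul_one]
      _ = Q' := by rw [← Matrix.mul_assoc, e, Matrix.one_mul]
  obtain ⟨w, hw, hw'⟩ := g8_w (𝔫 := 𝔫) h hv hP' hP h1' h1
  obtain ⟨u, hu, hu'⟩ := g8_w (𝔫 := 𝔫) h hv (S := -Q) (T := -Q') (by rw [Matrix.transpose_neg, hQ]) (by rw [Matrix.transpose_neg, hQ'])
    (by rw [neg_mul_neg, h2]) (by rw [neg_mul_neg, h2'])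
  have e : mG (P * Q) (Q' * P') h3 = w * u := by
    apply SP.ext
    rw [SP.val_mul, hw', hu', Matrix.fromBlocks_multiply]
    show Matrix.fromBlocks (Q' * P')ᵀ 0 0 (P * Q) = _
    rw [Matrix.transpose_mul, hP', hQ']
    simp only [neg_neg, Matrix.zero_mul, zero_add, Matrix.mul_zero, add_zero, Matrix.neg_mul, Matrix.mul_neg, neg_zero]
  rw [e]
  exact cl_mul h hw hu

theorem g8_prod (h : Loc v R ϖ) {A₁ B₁ A₂ B₂ B : Matrix (Fin n) (Fin n) K} (h1 : A₁ * B₁ = 1) (h2 : A₂ * B₂ = 1)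
    (c1 : ClS R ϖ 𝔫 v (mG A₁ B₁ h1)) (c2 : ClS R ϖ 𝔫 v (mG A₂ B₂ h2)) (hAB : A₁ * A₂ * B = 1) : ClS R ϖ 𝔫 v (mG (A₁ * A₂) B hAB) := by
  have hB : B = B₂ * B₁ := by
    have e1 : B₂ * B₁ * (A₁ * A₂) = 1 := by
      have h1' : B₁ * A₁ = 1 := mul_eq_one_comm.1 h1
      have h2' : B₂ * A₂ = 1 := mul_eq_one_comm.1 h2
      calc B₂ * B₁ * (A₁ * A₂) = B₂ * (B₁ * A₁) * A₂ := by simp only [Matrix.mul_assoc]
        _ = 1 := by rw [h1', Matrix.mul_one, h2']
    calc B = B₂ * B₁ * (A₁ * A₂) * B := by rw [e1, Matrix.one_mul]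
      _ = B₂ * B₁ := by rw [Matrix.mul_assoc, hAB, Matrix.mul_one]
  have e : mG (A₁ * A₂) B hAB = mG A₁ B₁ h1 * mG A₂ B₂ h2 := by
    apply SP.ext
    show Matrix.fromBlocks Bᵀ 0 0 (A₁ * A₂) = Matrix.fromBlocks B₁ᵀ 0 0 A₁ * Matrix.fromBlocks B₂ᵀ 0 0 A₂
    rw [Matrix.fromBlocks_multiply, hB, Matrix.transpose_mul]
    simp only [Matrix.zero_mul, zero_add, Matrix.mul_zero, add_zero]
  rw [e]
  exact cl_mul h c1 c2

theorem g8_congr {A A' B B' : Matrix (Fin n) (Fin n) K} (hA : A = A') (hAB : A * B = 1) (hAB' : A' * B' = 1)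
    (c : ClS R ϖ 𝔫 v (mG A' B' hAB')) : ClS R ϖ 𝔫 v (mG A B hAB) := by
  subst hA
  have hB : B = B' := by
    have e1 : B' * A = 1 := mul_eq_one_comm.1 hAB'
    calc B = B' * A * B := by rw [e1, Matrix.one_mul]
      _ = B' := by rw [Matrix.mul_assoc, hAB, Matrix.mul_one]
  subst hB
  exact c

/-- The permutation matrix of a transposition. -/
def g8_sw (i j : Fin n) : Matrix (Fin n) (Fin n) K := Matrix.of fun a b => if Equiv.swap i j a = b then 1 else 0

theorem g8_sw_tr (i j : Fin n) : (g8_sw i j : Matrix (Fin n) (Fin n) K)ᵀ = g8_sw i j := by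
  ext a b
  rw [Matrix.transpose_apply]
  unfold g8_sw
  simp only [Matrix.of_apply]
  refine if_congr ?_ rfl rfl
  constructor
  · rintro rfl
    exact Equiv.swap_apply_self _ _ _
  · rintro rfl
    exact Equiv.swap_apply_self _ _ _

theorem g8_sw_sq (i j : Fin n) : (g8_sw i j : Matrix (Fin n) (Fin n) K) * g8_sw i j = 1 := by
  ext a b
  rw [Matrix.mul_apply, Matrix.one_apply]
  unfold g8_sw
  simp only [Matrix.of_apply]
  rw [Finset.sum_eq_single (Equiv.swap i j a)]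
  · rw [if_pos rfl, one_mul, Equiv.swap_apply_self]
  · intro c _ hc
    rw [if_neg (Ne.symm hc), zero_mul]
  · intro hc
    exact absurd (Finset.mem_univ _) hc

theorem g8_tv (i j : Fin n) (c : K) :
    (g8_sw i j + Matrix.single i i c) * g8_sw i j = Matrix.transvection i j c := by
  rw [Matrix.add_mul, g8_sw_sq]
  unfold Matrix.transvection
  congr 1
  ext a b
  rw [Matrix.mul_apply]
  by_cases ha : a = i
  · subst ha
    rw [Finset.sum_eq_single a]
    · rw [Matrix.single_apply_same]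
      unfold g8_sw
      rw [Matrix.of_apply, Equiv.swap_apply_left]
      by_cases hb : j = b
      · subst hb
        rw [if_pos rfl, mul_one, Matrix.single_apply_same]
      · rw [if_neg hb, mul_zero, Matrix.single_apply_of_ne]
        exact fun e => hb e.2
    · intro x _ hx
      rw [Matrix.single_apply_of_ne, zero_mul]
      exact fun e => hx e.2.symm
    · intro hx
      exact absurd (Finset.mem_univ _) hx
  · rw [Matrix.single_apply_of_ne]
    · refine Finset.sum_eq_zero fun x _ => ?_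
      rw [Matrix.single_apply_of_ne, zero_mul]
      exact fun e => ha e.1.symm
    · exact fun e => ha e.1.symm

/-- PROOF. `Matrix.diagonal_transvection_induction_of_det_ne_zero`. Diagonal matrices: `D = D 1`; a transvection `1 + t E_ij = (σ + t E_ii) σ`, `σ` the permutation matrix of the transposition `(i j)` (symmetric, `σ² = 1`); both factors are symmetric and invertible. Products: `cl_mul`. (`B` is determined by `A`.) -/
theorem g8_mG (h : Loc v R ϖ) (hv : ¬𝔫 ≤ v.asIdeal) {A B : Matrix (Fin n) (Fin n) K} (hAB : A * B = 1) : ClS R ϖ 𝔫 v (mG A B hAB) := by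
  have key : ∀ B' : Matrix (Fin n) (Fin n) K, ∀ h' : A * B' = 1, ClS R ϖ 𝔫 v (mG A B' h') := by
    have hdet : A.det ≠ 0 := by
      intro h0
      have := congrArg Matrix.det hAB
      rw [Matrix.det_mul, h0, zero_mul, Matrix.det_one] at this
      exact zero_ne_one this
    refine Matrix.diagonal_transvection_induction_of_det_ne_zero
      (fun A : Matrix (Fin n) (Fin n) K => ∀ B' : Matrix (Fin n) (Fin n) K, ∀ h' : A * B' = 1, ClS R ϖ 𝔫 v (mG A B' h')) A hdet ?_ ?_ ?_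
    · intro D hD B' h'
      rw [Matrix.det_diagonal] at hD
      have hD' : ∀ i, D i ≠ 0 := fun i => Finset.prod_ne_zero_iff.1 hD i (Finset.mem_univ i)
      have e1 : Matrix.diagonal D * Matrix.diagonal (fun i => (D i)⁻¹) = 1 := by
        rw [Matrix.diagonal_mul_diagonal, ← Matrix.diagonal_one]
        congr 1
        funext i
        exact mul_inv_cancel₀ (hD' i)
      have e2 : Matrix.diagonal D * 1 * (1 * Matrix.diagonal (fun i => (D i)⁻¹)) = 1 := by
        rw [Matrix.mul_one, Matrix.one_mul, e1]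
      exact g8_congr (Matrix.mul_one _).symm h' e2 (g8_sym h hv (Matrix.diagonal_transpose _) Matrix.transpose_one e1 (Matrix.mul_one 1) e2)
    · intro t B' h'
      have e0 := g8_tv t.i t.j t.c
      have e1 : (g8_sw t.i t.j + Matrix.single t.i t.i t.c) * (g8_sw t.i t.j * Matrix.transvection t.i t.j (-t.c)) = 1 := by
        rw [← Matrix.mul_assoc, e0, Matrix.transvection_mul_transvection_same _ _ t.hij, add_neg_cancel, Matrix.transvection_zero]
      have hP : (g8_sw t.i t.j + Matrix.single t.i t.i t.c : Matrix (Fin n) (Fin n) K)ᵀ = g8_sw t.i t.j + Matrix.single t.i t.i t.c := by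
        rw [Matrix.transpose_add, g8_sw_tr, Matrix.transpose_single]
      have e2 : (g8_sw t.i t.j + Matrix.single t.i t.i t.c) * g8_sw t.i t.j *
          (g8_sw t.i t.j * (g8_sw t.i t.j * Matrix.transvection t.i t.j (-t.c))) = 1 := by
        rw [Matrix.mul_assoc (g8_sw t.i t.j + Matrix.single t.i t.i t.c), ← Matrix.mul_assoc (g8_sw t.i t.j) (g8_sw t.i t.j), g8_sw_sq, Matrix.one_mul, e1]
      exact g8_congr (show t.toMatrix = _ from e0.symm) h' e2 (g8_sym h hv hP (g8_sw_tr _ _) e1 (g8_sw_sq _ _) e2)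
    · intro A₁ A₂ d1 d2 c1 c2 B' h'
      have u1 : A₁ * A₁⁻¹ = 1 := Matrix.mul_nonsing_inv _ (isUnit_iff_ne_zero.2 d1)
      have u2 : A₂ * A₂⁻¹ = 1 := Matrix.mul_nonsing_inv _ (isUnit_iff_ne_zero.2 d2)
      exact g8_prod h u1 u2 (c1 _ u1) (c2 _ u2) h'
  exact key B hAB

end

end Pool.Agent.Lib.H67G
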