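import Pool.Agent.Lib.H67G.G8

/-!
# G9 (S/M): strong approximation
-/

namespace Pool.Agent.Lib.H67G

open MeasureTheory Matrix NumberField IsDedekindDomain Pool.Agent.Lib.H89N Pool.Agent.Lib.H33W
open scoped ENNReal Pointwise

noncomputable section

set_option linter.unusedSectionVars false

variable {n : ℕ} {K : Type} [Field K] [NumberField K] {v : HeightOneSpectrum (𝓞 K)} {R : Type} [CommRing R] [IsDomain R]
  [IsDiscreteValuationRing R] [Algebra R K] {ϖ : R} {𝔫 𝔪 : Ideal (𝓞 K)}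

theorem g9_Lm0 : Lm (St R K (Fin n)) (0 : Matrix (Fin n) (Fin n) K) = St2 R K n := by
  ext z
  rw [mem_Lm, Matrix.zero_mulVec, sub_zero]
  constructor
  · rintro ⟨h1, h2⟩ (i | i)
    · have h3 := h2 (Pi.single i 1) (by
        intro j
        by_cases hj : j = i
        · subst hj
          rw [Pi.single_eq_same]
          exact in_one
        · rw [Pi.single_eq_of_ne hj]
          exact in_zero)
      rw [dotProduct_single, mul_one] at h3
      exact h3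
    · exact h1 i
  · intro hz
    exact ⟨fun i => hz (Sum.inr i), fun y hy => in_dot (fun i => hz (Sum.inl i)) hy⟩

/-- PROOF. `L = Lm M S` (`exists_Lm`), `M = ac A (St R K (Fin n))` (`exists_basis`), `St2 = Lm St 0`: `L = ac g₀ St2` for `g₀ = nS(S) mG A B` (`ac_nM`, `ac_mM`), `g₀` is in the closure (`cl_mul`, `cl_nS`, `g8_mG`). Take `m = 0`: `g' ∈ HG` with `g'⁻¹ g₀` integral, so `ac (g'⁻¹ g₀) St2 = St2` (`g5_int`),
`L = ac g' St2`, `g = g'⁻¹`. -/
theorem strong (h : Loc v R ϖ) (hv : ¬𝔫 ≤ v.asIdeal) {L : Submodule R (Fin n ⊕ Fin n → K)} (hL : IsSD ϖ L) :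
    ∃ g : SP n K, g ∈ HSg n 𝔫 v ∧ L = ac g⁻¹.val (St2 R K n) := by
  have hLF := lf_of_loc (K := K) h
  obtain ⟨M, hM, S, hLS⟩ := exists_Lm hLF hL
  obtain ⟨A, B, hAB, -, hMA⟩ := exists_basis hLF hM
  obtain ⟨g₀, hg₀⟩ : ∃ g₀ : SP n K, g₀ = nS (fun p : SI n => S.1 p.1.1 p.1.2) * mG A B hAB := ⟨_, rfl⟩
  have hcl : ClS R ϖ 𝔫 v g₀ := by
    rw [hg₀]
    exact cl_mul h (cl_nS h hv _) (g8_mG h hv hAB)
  have e1 : ac g₀.val (St2 R K n) = L := by
    have e2 : g₀.val = nM S.1 * mM A B := by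
      rw [hg₀, SP.val_mul]
      show Matrix.fromBlocks 1 (syM fun p : SI n => S.1 p.1.1 p.1.2) 0 1 * Matrix.fromBlocks Bᵀ 0 0 A = _
      rw [v1_sy' S.2]
      rfl
    rw [e2, ac_mul, ← g9_Lm0, ac_mM hAB, ← hMA, Matrix.mul_zero, Matrix.zero_mul, hLS]
    have e3 := ac_nM (M := M) S 0
    rw [show ((0 : Sy n K) : Matrix (Fin n) (Fin n) K) = 0 from rfl, zero_add] at e3
    exact e3
  obtain ⟨g', hg', hi⟩ := hcl 0
  have hint : ∀ i l, In R ((g'⁻¹ * g₀).val i l) := by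
    intro i l
    have h1 := hi i l
    rw [pow_zero, inv_one, one_mul] at h1
    have h2 : (g'⁻¹ * g₀).val i l = ((g'⁻¹ * g₀).val - 1) i l + (1 : Matrix (Fin n ⊕ Fin n) (Fin n ⊕ Fin n) K) i l := by
      rw [Matrix.sub_apply, sub_add_cancel]
    rw [h2]
    exact in_add h1 (g7_one i l)
  refine ⟨g'⁻¹, inv_mem hg', ?_⟩
  rw [inv_inv, ← g5_int hint, ← ac_mul, ← SP.val_mul, mul_inv_cancel_left, e1]

end

end Pool.Agent.Lib.H67G
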