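import Pool.Agent.Lib.H67G.L0

/-!
# GF1 (M, PURE): generating functions
-/

namespace Pool.Agent.Lib.H67G

open Matrix Pool.Agent.Lib.H89N

noncomputable section

/-!
`gf deg w` is the power series with the coefficients `∑ᶠ a ∈ {a | deg a = k}, w a` and `FinF deg` says that all the sets `{a | deg a = k}` are finite.

* `gf_bij`: reindexing (`finsum_mem_eq_of_bijOn`, which holds without finiteness).
* `gf_sigma`: the coefficient of `Z ^ k` is the sum over the finite set `{x | degB x.1 + degC x.1 x.2 = k}`, which is the disjoint union over `i + j = k` (`Finset.antidiagonal k`)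
  and over `b` with `degB b = i` of the sets `{c | degC b c = j}`. The inner sum is the coefficient of `Z ^ j` in `gf (degC b) (w b) = C (u b) * Φ`, that is `u b * coeff j Φ`.
  Finiteness: `{x | degB x.1 + degC x.1 x.2 = k} ⊆ ⋃_{b : degB b ≤ k} (finite set)`.
* `gf_smul`: constants.
-/

theorem GF1_coeff {α : Type} (deg : α → ℕ) (w : α → ℂ) (k : ℕ) :
    PowerSeries.coeff k (gf deg w) = ∑ᶠ a ∈ {a | deg a = k}, w a := PowerSeries.coeff_mk _ _

theorem gf_bij {α β : Type} (φ : α → β) (hφ : Function.Bijective φ) (deg : β → ℕ) (w : β → ℂ) :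
    gf (fun a => deg (φ a)) (fun a => w (φ a)) = gf deg w := by
  ext k
  rw [GF1_coeff, GF1_coeff]
  refine finsum_mem_eq_of_bijOn φ ⟨fun a ha => ha, fun a _ b _ hab => hφ.1 hab, fun b hb => ?_⟩ (fun a _ => rfl)
  obtain ⟨a, rfl⟩ := hφ.2 b
  exact ⟨a, hb, rfl⟩

theorem gf_smul {α : Type} (deg : α → ℕ) (w : α → ℂ) (c : ℂ) :
    gf deg (fun a => w a * c) = PowerSeries.C c * gf deg w := by
  ext k
  rw [PowerSeries.coeff_C_mul, GF1_coeff, GF1_coeff, ← smul_eq_mul, smul_finsum]
  refine finsum_congr fun a => ?_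
  rw [smul_finsum]
  refine finsum_congr fun _ => ?_
  rw [smul_eq_mul, mul_comm]

theorem GF1_finle {β : Type} (degB : β → ℕ) (hB : FinF degB) (k : ℕ) : {b | degB b ≤ k}.Finite := by
  have h : {b | degB b ≤ k} ⊆ ⋃ i ∈ Set.Iic k, {b | degB b = i} := by
    intro b hb
    simp only [Set.mem_iUnion]
    exact ⟨degB b, hb, rfl⟩
  exact (Set.Finite.biUnion (Set.finite_Iic k) fun i _ => hB i).subset h

theorem finF_sigma {β : Type} {γ : β → Type} (degB : β → ℕ) (degC : ∀ b, γ b → ℕ) (hB : FinF degB)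
    (hC : ∀ b, FinF (degC b)) : FinF (fun x : Σ b, γ b => degB x.1 + degC x.1 x.2) := by
  intro k
  have h : {x : Σ b, γ b | degB x.1 + degC x.1 x.2 = k} ⊆
      ⋃ b ∈ {b | degB b ≤ k}, Sigma.mk b '' {c | degC b c = k - degB b} := by
    rintro ⟨b, c⟩ hbc
    have hbc' : degB b + degC b c = k := hbc
    simp only [Set.mem_iUnion]
    refine ⟨b, ?_, c, ?_, rfl⟩
    · change degB b ≤ k
      omega
    · change degC b c = k - degB b
      omega
  exact (Set.Finite.biUnion (GF1_finle degB hB k) fun b _ => (hC b _).image _).subset h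

theorem gf_sigma {β : Type} {γ : β → Type} (degB : β → ℕ) (degC : ∀ b, γ b → ℕ) (w : ∀ b, γ b → ℂ) (u : β → ℂ)
    (Φ : PowerSeries ℂ) (hB : FinF degB) (hC : ∀ b, FinF (degC b)) (hw : ∀ b, gf (degC b) (w b) = PowerSeries.C (u b) * Φ) :
    gf (fun x : Σ b, γ b => degB x.1 + degC x.1 x.2) (fun x => w x.1 x.2) = gf degB u * Φ := by
  classical
  ext k
  rw [GF1_coeff, PowerSeries.coeff_mul, finsum_mem_eq_finite_toFinset_sum _ (finF_sigma degB degC hB hC k)]
  have e1 : (finF_sigma degB degC hB hC k).toFinset =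
      (GF1_finle degB hB k).toFinset.sigma fun b => (hC b (k - degB b)).toFinset := by
    ext x
    simp only [Set.Finite.mem_toFinset, Finset.mem_sigma, Set.mem_setOf_eq]
    omega
  rw [e1, Finset.sum_sigma]
  have e2 : ∀ b ∈ (GF1_finle degB hB k).toFinset, ∑ c ∈ (hC b (k - degB b)).toFinset, w b c =
      u b * PowerSeries.coeff (k - degB b) Φ := by
    intro b _
    rw [← PowerSeries.coeff_C_mul, ← hw b, GF1_coeff, finsum_mem_eq_finite_toFinset_sum _ (hC b (k - degB b))]
  rw [Finset.sum_congr rfl e2]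
  rw [Finset.Nat.sum_antidiagonal_eq_sum_range_succ
    (fun i j => PowerSeries.coeff i (gf degB u) * PowerSeries.coeff j Φ) k]
  have e3 : ∀ b ∈ (GF1_finle degB hB k).toFinset, degB b ∈ Finset.range k.succ := by
    intro b hb
    rw [Set.Finite.mem_toFinset] at hb
    rw [Finset.mem_range]
    exact Nat.lt_succ_of_le hb
  rw [← Finset.sum_fiberwise_of_maps_to e3]
  refine Finset.sum_congr rfl fun i hi => ?_
  rw [GF1_coeff, finsum_mem_eq_finite_toFinset_sum _ (hB i), Finset.sum_mul]
  have e4 : (GF1_finle degB hB k).toFinset.filter (fun b => degB b = i) = (hB i).toFinset := by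
    ext b
    simp only [Finset.mem_filter, Set.Finite.mem_toFinset, Set.mem_setOf_eq]
    rw [Finset.mem_range] at hi
    omega
  rw [← e4]
  refine Finset.sum_congr rfl fun b hb => ?_
  rw [Finset.mem_filter] at hb
  rw [hb.2]

end

end Pool.Agent.Lib.H67G
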