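import Pool.Agent.Lib.H67G.GF1

/-!
# GF2 (M, PURE): generating functions, products and homomorphisms
-/

namespace Pool.Agent.Lib.H67G

open Matrix Pool.Agent.Lib.H89N

noncomputable section

/-!
* `gf_prod`, `finF_prod`: from `gf_sigma` and `gf_bij` with `Equiv.sigmaEquivProd`.
* `gf_hom`: a surjective homomorphism with a kernel of `N` elements: the fibre over `b` with `deg b = k` has `N` elements, so `∑_{a : deg (φ a) = k} w (φ a) = N ∑_{b : deg b = k} w b`
  (`Finset.sum_fiberwise_of_maps_to`, or `Set.Finite.preimage`; every fibre is a translate of the kernel; in particular all the sets are finite).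
-/

theorem finF_prod {β γ : Type} (degB : β → ℕ) (degC : β → γ → ℕ) (hB : FinF degB)
    (hC : ∀ b, FinF (degC b)) : FinF (fun x : β × γ => degB x.1 + degC x.1 x.2) := by
  intro k
  have h := (finF_sigma degB degC hB hC k).image (Equiv.sigmaEquivProd β γ)
  refine h.subset ?_
  rintro ⟨b, c⟩ hbc
  exact ⟨⟨b, c⟩, hbc, rfl⟩

theorem gf_prod {β γ : Type} (degB : β → ℕ) (degC : β → γ → ℕ) (w : β → γ → ℂ) (u : β → ℂ)
    (Φ : PowerSeries ℂ) (hB : FinF degB) (hC : ∀ b, FinF (degC b)) (hw : ∀ b, gf (degC b) (w b) = PowerSeries.C (u b) * Φ) :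
    gf (fun x : β × γ => degB x.1 + degC x.1 x.2) (fun x => w x.1 x.2) = gf degB u * Φ := by
  refine (gf_bij (Equiv.sigmaEquivProd β γ) (Equiv.bijective _) (fun x : β × γ => degB x.1 + degC x.1 x.2)
    (fun x => w x.1 x.2)).symm.trans ?_
  exact gf_sigma degB degC w u Φ hB hC hw

theorem GF2_fib {A B : Type} [AddCommGroup A] [AddCommGroup B] (φ : A →+ B) (a₀ : A) :
    {a | φ a = φ a₀} = (fun x => a₀ + x) '' (φ.ker : Set A) := by
  ext a
  constructor
  · intro ha
    have ha' : φ a = φ a₀ := ha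
    refine ⟨a - a₀, ?_, by simp⟩
    change a - a₀ ∈ φ.ker
    rw [AddMonoidHom.mem_ker, map_sub, ha', sub_self]
  · rintro ⟨x, hx, rfl⟩
    have hx' : φ x = 0 := hx
    change φ (a₀ + x) = φ a₀
    rw [map_add, hx', add_zero]

theorem GF2_kfin {A B : Type} [AddCommGroup A] [AddCommGroup B] (φ : A →+ B) (N : ℕ)
    (hN : Nat.card φ.ker = N) (hN0 : 0 < N) : (φ.ker : Set A).Finite := by
  have h : Finite φ.ker := Nat.finite_of_card_ne_zero (by omega)
  exact Set.toFinite _

theorem GF2_fibfin {A B : Type} [AddCommGroup A] [AddCommGroup B] (φ : A →+ B) (N : ℕ)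
    (hN : Nat.card φ.ker = N) (hN0 : 0 < N) (b : B) : {a | φ a = b}.Finite := by
  by_cases h : ∃ a₀, φ a₀ = b
  · obtain ⟨a₀, rfl⟩ := h
    rw [GF2_fib]
    exact (GF2_kfin φ N hN hN0).image _
  · have : {a | φ a = b} = ∅ := by
      ext a
      constructor
      · intro ha
        exact absurd ⟨a, ha⟩ h
      · intro ha
        exact ha.elim
    rw [this]
    exact Set.finite_empty

theorem finF_hom {A B : Type} [AddCommGroup A] [AddCommGroup B] (φ : A →+ B) (N : ℕ)
    (hN : Nat.card φ.ker = N) (hN0 : 0 < N) (deg : B → ℕ) (hd : FinF deg) : FinF (fun a => deg (φ a)) := by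
  intro k
  have h : {a | deg (φ a) = k} ⊆ ⋃ b ∈ {b | deg b = k}, {a | φ a = b} := by
    intro a ha
    simp only [Set.mem_iUnion]
    exact ⟨φ a, ha, rfl⟩
  exact (Set.Finite.biUnion (hd k) fun b _ => GF2_fibfin φ N hN hN0 b).subset h

theorem gf_hom {A B : Type} [AddCommGroup A] [AddCommGroup B] (φ : A →+ B) (hφ : Function.Surjective φ) (N : ℕ)
    (hN : Nat.card φ.ker = N) (hN0 : 0 < N) (deg : B → ℕ) (w : B → ℂ) (hd : FinF deg) :
    gf (fun a => deg (φ a)) (fun a => w (φ a)) = PowerSeries.C (N : ℂ) * gf deg w := by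
  classical
  ext k
  rw [PowerSeries.coeff_C_mul, GF1_coeff, GF1_coeff, finsum_mem_eq_finite_toFinset_sum _ (finF_hom φ N hN hN0 deg hd k),
    finsum_mem_eq_finite_toFinset_sum _ (hd k), Finset.mul_sum]
  have e3 : ∀ a ∈ (finF_hom φ N hN hN0 deg hd k).toFinset, φ a ∈ (hd k).toFinset := by
    intro a ha
    rw [Set.Finite.mem_toFinset] at ha ⊢
    exact ha
  rw [← Finset.sum_fiberwise_of_maps_to e3]
  refine Finset.sum_congr rfl fun b hb => ?_
  have e4 : (finF_hom φ N hN hN0 deg hd k).toFinset.filter (fun a => φ a = b) = (GF2_fibfin φ N hN hN0 b).toFinset := by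
    ext a
    rw [Finset.mem_filter, Set.Finite.mem_toFinset, Set.Finite.mem_toFinset]
    rw [Set.Finite.mem_toFinset] at hb
    constructor
    · intro ha
      exact ha.2
    · intro ha
      refine ⟨?_, ha⟩
      have ha' : φ a = b := ha
      change deg (φ a) = k
      rw [ha']
      exact hb
  rw [e4]
  have e5 : ∀ a ∈ (GF2_fibfin φ N hN hN0 b).toFinset, w (φ a) = w b := by
    intro a ha
    rw [Set.Finite.mem_toFinset] at ha
    have ha' : φ a = b := ha
    rw [ha']
  rw [Finset.sum_congr rfl e5, Finset.sum_const, nsmul_eq_mul]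
  congr 2
  obtain ⟨a₀, rfl⟩ := hφ b
  rw [← Set.ncard_eq_toFinset_card _ (GF2_fibfin φ N hN hN0 (φ a₀)), GF2_fib,
    Set.ncard_image_of_injective _ (add_right_injective a₀), ← hN]
  rfl

end

end Pool.Agent.Lib.H67G
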