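import Pool.Agent.Lib.H67G.G30

/-!
# Top: the density theorem
-/

namespace Pool.Agent.Lib.H67G

open MeasureTheory Matrix NumberField IsDedekindDomain Pool.Agent.Lib.H89N Pool.Agent.Lib.H33W
open scoped ENNReal Pointwise

noncomputable section

set_option linter.unusedSectionVars false


/-- **The density theorem for the globally generic spectrum of `Sp_{2n}`.** -/
theorem sdensity (n : ℕ) [NeZero n] (K : Type) [Field K] [NumberField K] : SDensity n K := s_of_star n K (star_s n K)

end

end Pool.Agent.Lib.H67G
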