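import Pool.Agent.Lib.H67G.HandDefs
import Pool.Agent.Lib.H67G.Top

/-!
# The density theorem in the notation of `HandDefs`
-/

namespace Pool.Agent.Lib.H67G.Hand

open MeasureTheory Matrix NumberField IsDedekindDomain Pool.Agent.Lib.H89N Pool.Agent.Lib.H33W Pool.Agent.Lib.H67G

noncomputable section

variable {n : ℕ} {K : Type} [Field K] [NumberField K]

theorem hd_far {𝔫 : Ideal (𝓞 K)} {v : HeightOneSpectrum (𝓞 K)} {ν : ℝ} {f : G n K → ℂ} (h : Far 𝔫 v ν f) : FarS 𝔫 v ν (n := n) f := by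
  obtain ⟨x, ⟨h1, h2⟩, h3⟩ := h
  exact ⟨x, ⟨h1, h2⟩, h3⟩

theorem hd_aut {𝔫 : Ideal (𝓞 K)} {μ : Measure (G n K)} {F : Set (G n K)} {φ f : G n K → ℂ} (h : Aut 𝔫 μ F φ f) : AutS 𝔫 (n := n) μ F φ f := by
  obtain ⟨h1, h2, h3, h4⟩ := h
  exact ⟨h1, h2, h3, h4⟩

theorem hd_ch [NeZero n] (θ₀ : L K) (θ : Fin n → L K) (t : TI n → E K) : ch θ₀ θ t = chS (n := n) (K := K) θ₀ θ t := by
  unfold ch chS sd
  congr 1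
  refine Finset.sum_congr rfl fun i _ => ?_
  by_cases h : (i : ℕ) + 1 < n
  · rw [dif_pos h, dif_pos h]
    congr 1
    have h' : i < (⟨(i : ℕ) + 1, h⟩ : Fin n) := Fin.lt_def.2 (Nat.lt_succ_self _)
    rw [upM, Matrix.of_apply, dif_pos h']
  · rw [dif_neg h, dif_neg h]

theorem hd_wh [NeZero n] (N : ℕ) (θ₀ : L K) (θ : Fin n → L K) (f : G n K → ℂ) (x : G n K) :
    Wh N θ₀ θ f x = WhS (n := n) (K := K) N θ₀ θ f x := by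
  unfold Wh WhS
  simp only [hd_ch]
  rfl

theorem hd_main (n : ℕ) [NeZero n] (K : Type) [Field K] [NumberField K] (μ : Measure (G n K)) [hμ : μ.IsHaarMeasure]
    (φ : G n K → ℂ) (hφ : Continuous φ) (hφ' : HasCompactSupport φ) (Ω : Set (G n K)) (hΩ : IsCompact Ω) :
    ∃ C : ℝ, ∀ (v : HeightOneSpectrum (𝓞 K)) (𝔫 : Ideal (𝓞 K)), 𝔫 ≠ ⊥ → ¬𝔫 ≤ v.asIdeal → ∀ ν : ℝ, 0 ≤ ν →
    ∀ (θ₀ : L K) (θ : Fin n → L K), Prim 𝔫 v θ₀ → (∀ i : Fin n, (i : ℕ) + 1 < n → Prim 𝔫 v (θ i)) →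
    ∀ a : Fin n → ℝ, TorS 𝔫 a → ∀ x, InRange Ω a x →
    ∀ F : Set (G n K), IsFundamentalDomain (GammaS n 𝔫) F μ →
    ∀ (m : ℕ) (f : Fin m → G n K → ℂ), (∀ i, Aut 𝔫 μ F φ (f i)) →
    (∀ i k, ∫ x in F, star (f i x) * f k x ∂μ = if i = k then 1 else 0) →
    (∀ i, Far 𝔫 v ν (f i)) →
    ∑ i, ‖Wh (Ideal.absNorm 𝔫) θ₀ θ (f i) x‖ ^ 2 ≤
      C * ((Ideal.absNorm v.asIdeal : ℝ) ^ (4 * n - 2) / (Ideal.absNorm 𝔫 : ℝ) ^ (2 * n + 1)) ^ ν *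
        (∏ p : SI n, ((a p.1.1 * a p.1.2) ^ Module.finrank ℚ K * (Ideal.absNorm 𝔫 : ℝ))⁻¹) *
        ∏ p : UI n, (a p.1.1 / a p.1.2) ^ Module.finrank ℚ K / (Ideal.absNorm 𝔫 : ℝ) := by
  obtain ⟨C, hC⟩ := @sdensity n _ K _ _ μ hμ φ hφ hφ' Ω hΩ
  refine ⟨C, fun v 𝔫 h1 h2 ν h3 θ₀ θ h4 h5 a h6 x h7 F h8 m f h9 h10 h11 => ?_⟩
  simp only [hd_wh]
  exact hC v 𝔫 h1 h2 ν h3 θ₀ θ ⟨h4.1, h4.2, ⟨fun i hi => (h5 i hi).1, fun i hi => (h5 i hi).2⟩⟩ a h6 x h7 F h8 m f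
    (fun i => hd_aut (h9 i)) h10 fun i => hd_far (h11 i)

end

end Pool.Agent.Lib.H67G.Hand
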