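import Pool.Agent.Lib.H67G.Stm

/-!
# Definitions for the hand-in `MP_08cfa9_nt.Sp2nDensity`

`SP n R` (the group `Sp_{2n}(R)`), `SP.map`, `SI`, `UI`, `TI`, `syM`, `nS`, `mS`, `upM`, `up`, `uT`, `GammaS`, `HGS`, `OnS`, `heightS`, `DeltaS`, `TorS`, `ee`, `Den`, `FD`, `stdP` are the definitions of `Lib/H67G/Stm.lean`, `Lib/H67G/Pw.lean`,
`Lib/H33W/Stm.lean` and `Lib/H89N/Stm.lean`.
-/

namespace Pool.Agent.Lib.H67G.Hand

open MeasureTheory Matrix NumberField IsDedekindDomain Pool.Agent.Lib.H89N Pool.Agent.Lib.H33W Pool.Agent.Lib.H67G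

noncomputable section

/-- The ring `K ⊗ ℝ = ℝ ^ r₁ × ℂ ^ r₂`, the product of the completions of `K` at the infinite places. -/
def E (K : Type) [Field K] : Type := mixedEmbedding.mixedSpace K

instance (K : Type) [Field K] : CommRing (E K) := (inferInstance : CommRing (mixedEmbedding.mixedSpace K))

instance (K : Type) [Field K] : Algebra ℝ (E K) := (inferInstance : Algebra ℝ (mixedEmbedding.mixedSpace K))

instance (K : Type) [Field K] : TopologicalSpace (E K) := (inferInstance : TopologicalSpace (mixedEmbedding.mixedSpace K))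

instance (K : Type) [Field K] [NumberField K] : MeasureSpace (E K) := (inferInstance : MeasureSpace (mixedEmbedding.mixedSpace K))

/-- The Lie group `G = Sp_{2n}(K ⊗ ℝ)`. -/
def G (n : ℕ) (K : Type) [Field K] : Type := SP n (E K)

instance (n : ℕ) (K : Type) [Field K] : Group (G n K) := (inferInstance : Group (SP n (E K)))

instance (n : ℕ) (K : Type) [Field K] : TopologicalSpace (G n K) := (inferInstance : TopologicalSpace (SP n (E K)))

instance (n : ℕ) (K : Type) [Field K] : MeasurableSpace (G n K) := borel _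

variable {n : ℕ} {K : Type} [Field K] [NumberField K]

/-- The diagonal embedding `K → K ⊗ ℝ`. -/
def em : K →+* E K := mixedEmbedding K

/-- The diagonal embedding `Sp_{2n}(K) → Sp_{2n}(K ⊗ ℝ)`. -/
def emb : SP n K →* G n K := SP.map em

/-- `Sp_{2n}(K)` acts on `G` by left translations. -/
instance act : MulAction (SP n K) (G n K) where
  smul g x := emb g * x
  one_smul x := by
    change emb (1 : SP n K) * x = x
    rw [map_one, one_mul]
  mul_smul g h x := by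
    change emb (g * h) * x = emb g * (emb h * x)
    rw [map_mul, mul_assoc]

/-- `f` is an eigenfunction of the Hecke operator `S_k : f ↦ ∑ f (s x)`, `s ∈ Γ(𝔫) \ Delta k` (the sum over the self-dual lattices `L` with `[L₀ : L ∩ L₀] = q ^ k`). -/
def IsHecke (𝔫 : Ideal (𝓞 K)) (v : HeightOneSpectrum (𝓞 K)) (k : ℕ) (f : G n K → ℂ) (θ : ℂ) : Prop :=
  ∃ S : Finset (SP n K), (∀ s ∈ S, s ∈ DeltaS n 𝔫 v k) ∧
    (∀ g ∈ DeltaS n 𝔫 v k, ∃! s, s ∈ S ∧ ∃ γ ∈ GammaS n 𝔫, g = γ * s) ∧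
    ∀ x, ∑ s ∈ S, f (emb s * x) = θ * f x

/-- `x_1, .., x_n` are the standard Satake parameters of `f` at `v` (of norm `q`; the parameters of the standard representation of the dual group `SO_{2n+1}` are `x_i, x_i⁻¹, 1`): the eigenvalue of `S_k` is `q ^ (n k)` times the coefficient of `X ^ k` in
`stdP = (1 - q ^ (-n) X) (1 + X) ∏_{i < n} (1 - q ^ (-2 i) X ^ 2) / ∏_i (1 - x_i X) (1 - x_i⁻¹ X)`. -/
structure Satake (𝔫 : Ideal (𝓞 K)) (v : HeightOneSpectrum (𝓞 K)) (f : G n K → ℂ) (x : Fin n → ℂ) : Prop where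
  ne : ∀ i, x i ≠ 0
  ev : ∀ k, IsHecke 𝔫 v k f ((Ideal.absNorm v.asIdeal : ℂ) ^ (n * k) *
    PowerSeries.coeff k (stdP (Ideal.absNorm v.asIdeal) x))

/-- `f` has Satake parameters at `v` with some `max (|x_i|, |x_i⁻¹|) ≥ q ^ ν`. -/
def Far (𝔫 : Ideal (𝓞 K)) (v : HeightOneSpectrum (𝓞 K)) (ν : ℝ) (f : G n K → ℂ) : Prop :=
  ∃ x : Fin n → ℂ, Satake 𝔫 v f x ∧ ∃ i, (Ideal.absNorm v.asIdeal : ℝ) ^ ν ≤ max ‖x i‖ ‖(x i)⁻¹‖

/-- The characters of `U`: the `ℝ`-linear forms `θ₀, θ_1, .., θ_{n-1}` on `K ⊗ ℝ` (and `θ_n`, not used). -/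
abbrev L (K : Type) [Field K] : Type := E K →ₗ[ℝ] ℝ

/-- The exponent of the character `ψ(u) = e(θ₀(Y_11) + ∑_i θ_i(A_{i,i+1}))` of `U`, at the element `u = m(A) n(Y)` with the coordinates `t` (`uT`). -/
def ch [NeZero n] (θ₀ : L K) (θ : Fin n → L K) (t : TI n → E K) : ℝ :=
  θ₀ (t (Sum.inl ⟨(0, 0), le_refl _⟩)) +
    ∑ i : Fin n, if h : (i : ℕ) + 1 < n then θ i (t (Sum.inr ⟨(i, ⟨i + 1, h⟩), Fin.lt_def.2 (Nat.lt_succ_self _)⟩)) else 0

/-- The element `u = m(A) n(Y)` of `U`, with the coordinates `t`. -/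
def u (t : TI n → E K) : G n K := (uT t : SP n (E K))

variable (n K) in
/-- The product of the fundamental domains of `𝓞` in `K ⊗ ℝ`. -/
def Box : Set (TI n → E K) := {t | ∀ p, t p ∈ FD K}

/-- **The Whittaker coefficient** of `f` at `x`: the mean value over `U(N 𝓞) \ U(K ⊗ ℝ)` (`f` invariant under `U(N 𝓞)`) of `f (u x)` times the complex conjugate of `ψ(u)`. -/
def Wh [NeZero n] (N : ℕ) (θ₀ : L K) (θ : Fin n → L K) (f : G n K → ℂ) (x : G n K) : ℂ :=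
  ⨍ t in Box n K, f (u (fun p => (N : E K) * t p) * x) * ee (-ch θ₀ θ fun p => (N : E K) * t p)

/-- `θ` is trivial on `𝔫` and not on `𝔫 v⁻¹`: `θ(𝔫) ⊆ ℤ`, `θ(𝔫 v⁻¹) ⊄ ℤ`. -/
def Prim (𝔫 : Ideal (𝓞 K)) (v : HeightOneSpectrum (𝓞 K)) (θ : L K) : Prop :=
  (∀ z ∈ 𝔫, ∃ m : ℤ, θ (em (z : K)) = m) ∧ ∃ z : K, Den 𝔫 v 1 z ∧ ∀ m : ℤ, θ (em z) ≠ m

/-- `x ∈ U m(a) Ω`, `m(a) = diag(a_1⁻¹, .., a_n⁻¹, a_1, .., a_n)`. -/
def InRange (Ω : Set (G n K)) (a : Fin n → ℝ) (x : G n K) : Prop :=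
  ∃ t : TI n → E K, ∃ ω ∈ Ω, SP.val x = (uT t).val *
    Matrix.fromBlocks (Matrix.diagonal fun i => algebraMap ℝ (E K) (a i)⁻¹) 0 0 (Matrix.diagonal fun i => algebraMap ℝ (E K) (a i)) * SP.val ω

/-- Continuous functions in `L²(Γ(𝔫) \ G)` (`F` a fundamental domain) which are eigenfunctions of the convolution operator of `φ` with eigenvalue at least one in absolute value: `∫ f (x y) φ (y) dy = lam f (x)`, `|lam| ≥ 1`. -/
structure Aut (𝔫 : Ideal (𝓞 K)) (μ : Measure (G n K)) (F : Set (G n K)) (φ f : G n K → ℂ) : Prop where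
  cont : Continuous f
  inv : ∀ γ ∈ GammaS n 𝔫, ∀ x, f (emb γ * x) = f x
  l2 : MemLp f 2 (μ.restrict F)
  eig : ∃ lam : ℂ, 1 ≤ ‖lam‖ ∧ ∀ x, ∫ y, f (x * y) * φ y ∂μ = lam * f x

end

end Pool.Agent.Lib.H67G.Hand
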