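import Mathlib

/-!
# Pw: the generating series of the Hecke eigenvalues
-/

namespace Pool.Agent.Lib.H67G

noncomputable section

/-- The power series `∑_k c ^ k X ^ k = 1 / (1 - c X)`. -/
def geo (c : ℂ) : PowerSeries ℂ := PowerSeries.mk fun k => c ^ k

/-- The power series `1 - c X ^ m`. -/
def om (c : ℂ) (m : ℕ) : PowerSeries ℂ := 1 - PowerSeries.C c * PowerSeries.X ^ m

/-- `(1 + X) / ∏_i (1 - x_i X) (1 - x_i⁻¹ X)`. -/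
def kapP {n : ℕ} (x : Fin n → ℂ) : PowerSeries ℂ := (1 + PowerSeries.X) * ∏ i, (geo (x i) * geo (x i)⁻¹)

/-- `(1 - q ^ (-n) X) ∏_{1 ≤ i < n} (1 - q ^ (-2 i) X ^ 2) (1 + X) / ∏_i (1 - x_i X) (1 - x_i⁻¹ X)`. -/
def stdP (q : ℕ) {n : ℕ} (x : Fin n → ℂ) : PowerSeries ℂ :=
  om ((q : ℂ) ^ n)⁻¹ 1 * (∏ i ∈ Finset.range (n - 1), om ((q : ℂ) ^ (2 * (i + 1)))⁻¹ 2) * kapP x

end

end Pool.Agent.Lib.H67G
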