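import Mathlib
import Pool.Agent.Lib.H89N.LD0
import Pool.Agent.Lib.H67G.Pw

/-!
# L0: definitions for the local part (PART I of PROOF.md)
-/

namespace Pool.Agent.Lib.H67G

open Matrix Pool.Agent.Lib.H89N

noncomputable section

/-- `z` is the image of an element of `R`. -/
def In (R : Type) [CommRing R] {K : Type} [Field K] [Algebra R K] (z : K) : Prop := ∃ r : R, algebraMap R K r = z

/-- `R` is a discrete valuation ring with uniformizer `ϖ`, `q` elements in the residue field and field of fractions `K`. -/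
structure LF (R K : Type) [CommRing R] [IsDomain R] [IsDiscreteValuationRing R] [Field K] [Algebra R K] (ϖ : R) (q : ℕ) :
    Prop where
  dv : DVq R ϖ q
  inj : Function.Injective (algebraMap R K)
  frac : ∀ z : K, ∃ m : ℕ, In R (algebraMap R K ϖ ^ m * z)

/-! ## Lattices -/

section lattices

variable (R K : Type) [CommRing R] [Field K] [Algebra R K] (ι : Type)

/-- The standard lattice `R ^ ι`. -/
def St : Submodule R (ι → K) where
  carrier := {x | ∀ i, In R (x i)}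
  add_mem' := by
    intro x y hx hy i
    obtain ⟨a, ha⟩ := hx i
    obtain ⟨b, hb⟩ := hy i
    exact ⟨a + b, by rw [map_add, ha, hb, Pi.add_apply]⟩
  zero_mem' := fun i => ⟨0, by simp⟩
  smul_mem' := by
    intro c x hx i
    obtain ⟨a, ha⟩ := hx i
    exact ⟨c * a, by rw [map_mul, ha, Pi.smul_apply, Algebra.smul_def]⟩

end lattices

variable {R K : Type} [CommRing R] [Field K] [Algebra R K] {ι : Type}

/-- `M` is a lattice: `ϖ ^ m R ^ ι ⊆ M ⊆ ϖ ^ (-m) R ^ ι` for some `m`. -/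
def IsLa (ϖ : R) (M : Submodule R (ι → K)) : Prop :=
  ∃ m : ℕ, (∀ x ∈ St R K ι, ϖ ^ m • x ∈ M) ∧ ∀ x ∈ M, ϖ ^ m • x ∈ St R K ι

/-- The dual lattice. -/
def du [Fintype ι] (M : Submodule R (ι → K)) : Submodule R (ι → K) where
  carrier := {x | ∀ y ∈ M, In R (x ⬝ᵥ y)}
  add_mem' := by
    intro x x' hx hx' y hy
    obtain ⟨a, ha⟩ := hx y hy
    obtain ⟨b, hb⟩ := hx' y hy
    exact ⟨a + b, by rw [map_add, ha, hb, add_dotProduct]⟩
  zero_mem' := fun y _ => ⟨0, by simp⟩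
  smul_mem' := by
    intro c x hx y hy
    obtain ⟨a, ha⟩ := hx y hy
    exact ⟨c * a, by rw [map_mul, ha, smul_dotProduct, Algebra.smul_def]⟩

/-- The lattice `g M`. -/
def ac [Fintype ι] (g : Matrix ι ι K) (M : Submodule R (ι → K)) : Submodule R (ι → K) :=
  M.map (g.mulVecLin.restrictScalars R)

/-- The index `[B : A ∩ B]`. -/
def ix (A B : Submodule R (ι → K)) : ℕ := A.toAddSubgroup.relIndex B.toAddSubgroup

/-- The exponent of `q` in the index `[B : A ∩ B]`. -/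
def dg (q : ℕ) (A B : Submodule R (ι → K)) : ℕ := Nat.log q (ix A B)

/-! ## Symmetric matrices -/

/-- The symmetric matrices. -/
def Sy (n : ℕ) (K : Type) [Field K] : AddSubgroup (Matrix (Fin n) (Fin n) K) where
  carrier := {S | Sᵀ = S}
  add_mem' := by
    intro a b ha hb
    change (a + b)ᵀ = a + b
    rw [transpose_add, ha, hb]
  zero_mem' := transpose_zero
  neg_mem' := by
    intro a ha
    change (-a)ᵀ = -a
    rw [transpose_neg, ha]

variable {n : ℕ}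

/-- The symmetric matrices which are integral on `M`. -/
def LS (M : Submodule R (Fin n → K)) : AddSubgroup (Sy n K) where
  carrier := {S | ∀ x ∈ M, ∀ y ∈ M, In R (x ⬝ᵥ (S.1 *ᵥ y))}
  add_mem' := by
    intro S T hS hT x hx y hy
    obtain ⟨a, ha⟩ := hS x hx y hy
    obtain ⟨b, hb⟩ := hT x hx y hy
    refine ⟨a + b, ?_⟩
    rw [map_add, ha, hb, ← dotProduct_add, ← add_mulVec]
    rfl
  zero_mem' := by
    intro x _ y _
    refine ⟨0, ?_⟩
    rw [map_zero]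
    change (0 : K) = x ⬝ᵥ ((0 : Matrix (Fin n) (Fin n) K) *ᵥ y)
    rw [zero_mulVec, dotProduct_zero]
  neg_mem' := by
    intro S hS x hx y hy
    obtain ⟨a, ha⟩ := hS x hx y hy
    refine ⟨-a, ?_⟩
    rw [map_neg, ha, ← dotProduct_neg, ← neg_mulVec]
    rfl

/-- `{y ∈ P | z ᵗ S y ∈ R for all z ∈ P}`. -/
def ker (P : Submodule R (Fin n → K)) (S : Matrix (Fin n) (Fin n) K) : Submodule R (Fin n → K) where
  carrier := {y | y ∈ P ∧ ∀ z ∈ P, In R (z ⬝ᵥ (S *ᵥ y))}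
  add_mem' := by
    rintro x y ⟨hx, hx'⟩ ⟨hy, hy'⟩
    refine ⟨add_mem hx hy, fun z hz => ?_⟩
    obtain ⟨a, ha⟩ := hx' z hz
    obtain ⟨b, hb⟩ := hy' z hz
    exact ⟨a + b, by rw [map_add, ha, hb, mulVec_add, dotProduct_add]⟩
  zero_mem' := ⟨zero_mem _, fun z _ => ⟨0, by simp⟩⟩
  smul_mem' := by
    rintro c x ⟨hx, hx'⟩
    refine ⟨Submodule.smul_mem _ _ hx, fun z hz => ?_⟩
    obtain ⟨a, ha⟩ := hx' z hz
    exact ⟨c * a, by rw [map_mul, ha, mulVec_smul, dotProduct_smul, Algebra.smul_def]⟩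

/-- `ν_P(S)`: the length of `P / ker_P S`. -/
def nu (q : ℕ) (P : Submodule R (Fin n → K)) (S : Matrix (Fin n) (Fin n) K) : ℕ := dg q (ker P S) P

/-! ## Self-dual lattices -/

/-- The symplectic form. -/
def sy (x y : Fin n ⊕ Fin n → K) : K := (x ∘ Sum.inl) ⬝ᵥ (y ∘ Sum.inr) - (x ∘ Sum.inr) ⬝ᵥ (y ∘ Sum.inl)

/-- Self-dual lattices. -/
structure IsSD (ϖ : R) (L : Submodule R (Fin n ⊕ Fin n → K)) : Prop where
  la : IsLa ϖ L
  sd : ∀ x, x ∈ L ↔ ∀ y ∈ L, In R (sy x y)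

/-- The lattice `{(x' + S m, m) : m ∈ M, x' ∈ M^}`. -/
def Lm (M : Submodule R (Fin n → K)) (S : Matrix (Fin n) (Fin n) K) : Submodule R (Fin n ⊕ Fin n → K) where
  carrier := {z | z ∘ Sum.inr ∈ M ∧ z ∘ Sum.inl - S *ᵥ (z ∘ Sum.inr) ∈ du M}
  add_mem' := by
    rintro x y ⟨hx, hx'⟩ ⟨hy, hy'⟩
    refine ⟨add_mem hx hy, ?_⟩
    have e : (x + y) ∘ Sum.inl - S *ᵥ ((x + y) ∘ Sum.inr) =
        (x ∘ Sum.inl - S *ᵥ (x ∘ Sum.inr)) + (y ∘ Sum.inl - S *ᵥ (y ∘ Sum.inr)) := by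
      have e1 : (x + y) ∘ Sum.inr = x ∘ Sum.inr + y ∘ Sum.inr := rfl
      have e2 : (x + y) ∘ Sum.inl = x ∘ Sum.inl + y ∘ Sum.inl := rfl
      rw [e1, e2, mulVec_add]
      abel
    rw [e]
    exact add_mem hx' hy'
  zero_mem' := by
    refine ⟨zero_mem _, ?_⟩
    have e : (0 : Fin n ⊕ Fin n → K) ∘ Sum.inl - S *ᵥ ((0 : Fin n ⊕ Fin n → K) ∘ Sum.inr) = 0 := by
      have e1 : (0 : Fin n ⊕ Fin n → K) ∘ Sum.inr = 0 := rfl
      have e2 : (0 : Fin n ⊕ Fin n → K) ∘ Sum.inl = 0 := rfl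
      rw [e1, e2, mulVec_zero, sub_zero]
    rw [e]
    exact zero_mem _
  smul_mem' := by
    rintro c x ⟨hx, hx'⟩
    refine ⟨Submodule.smul_mem _ c hx, ?_⟩
    have e : (c • x) ∘ Sum.inl - S *ᵥ ((c • x) ∘ Sum.inr) = c • (x ∘ Sum.inl - S *ᵥ (x ∘ Sum.inr)) := by
      have e1 : (c • x) ∘ Sum.inr = c • (x ∘ Sum.inr) := rfl
      have e2 : (c • x) ∘ Sum.inl = c • (x ∘ Sum.inl) := rfl
      rw [e1, e2, mulVec_smul, smul_sub]
    rw [e]
    exact Submodule.smul_mem _ c hx'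

/-! ## Generating functions -/

/-- `∑_a w(a) Z ^ (deg a)`. -/
def gf {α : Type} (deg : α → ℕ) (w : α → ℂ) : PowerSeries ℂ :=
  PowerSeries.mk fun k => ∑ᶠ a ∈ {a | deg a = k}, w a

/-- The fibres of `deg` are finite. -/
def FinF {α : Type} (deg : α → ℕ) : Prop := ∀ k, {a | deg a = k}.Finite

/-! ## Characters -/

/-- An additive character of `K`, trivial on `R` and nontrivial on `ϖ⁻¹ R`. -/
structure Chl (ϖ : R) (χ : K → ℂ) : Prop where
  add : ∀ x y, χ (x + y) = χ x * χ y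
  triv : ∀ x, In R x → χ x = 1
  nt : ∃ x, In R (algebraMap R K ϖ * x) ∧ χ x ≠ 1

/-- The block matrix `n(Y)`. -/
def nM (Y : Matrix (Fin n) (Fin n) K) : Matrix (Fin n ⊕ Fin n) (Fin n ⊕ Fin n) K := fromBlocks 1 Y 0 1

/-- The block matrix `m(A)`, `A` with inverse `B`. -/
def mM (A B : Matrix (Fin n) (Fin n) K) : Matrix (Fin n ⊕ Fin n) (Fin n ⊕ Fin n) K := fromBlocks Bᵀ 0 0 A

/-- `A` is unipotent upper triangular. -/
def Uu (A : Matrix (Fin n) (Fin n) K) : Prop := ∀ i j, j ≤ i → A i j = (1 : Matrix (Fin n) (Fin n) K) i j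

/-- `∏ χ_i (A_{i,i+1})`. -/
def chU (χ : Fin n → K → ℂ) (A : Matrix (Fin n) (Fin n) K) : ℂ :=
  ∏ i : Fin n, if h : (i : ℕ) + 1 < n then χ i (A i ⟨i + 1, h⟩) else 1

/-- Whittaker functions on self-dual lattices. -/
structure WF [NeZero n] (ϖ : R) (χ₀ : K → ℂ) (χ : Fin n → K → ℂ) (F : Submodule R (Fin n ⊕ Fin n → K) → ℂ) : Prop where
  nY : ∀ (Y : Sy n K) (L : Submodule R (Fin n ⊕ Fin n → K)), IsSD ϖ L → F (ac (nM Y.1) L) = χ₀ (Y.1 0 0) * F L
  mA : ∀ (A B : Matrix (Fin n) (Fin n) K) (L : Submodule R (Fin n ⊕ Fin n → K)), IsSD ϖ L → Uu A → A * B = 1 → B * A = 1 →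
    F (ac (mM A B) L) = chU χ A * F L

/-- Functions on lattices in `K ^ n` with the same equivariance. -/
def WG (ϖ : R) (χ : Fin n → K → ℂ) (f : Submodule R (Fin n → K) → ℂ) : Prop :=
  ∀ (A : Matrix (Fin n) (Fin n) K) (M : Submodule R (Fin n → K)), Uu A → IsLa ϖ M → f (ac A M) = chU χ A * f M

/-- `M_k = ⟨e_1, .., e_(n-1), ϖ ^ (-k) e_n⟩`. -/
def Mk (K : Type) [Field K] [Algebra R K] (ϖ : R) (n k : ℕ) : Submodule R (Fin n → K) :=
  ac (diagonal fun i : Fin n => if (i : ℕ) + 1 = n then ((algebraMap R K ϖ) ^ k)⁻¹ else 1) (St R K (Fin n))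

/-! ## Lemma N -/

/-- `R` as a subgroup of `K`. -/
def RS (R K : Type) [CommRing R] [Field K] [Algebra R K] : AddSubgroup K where
  carrier := {z | In R z}
  add_mem' := by
    rintro x y ⟨a, ha⟩ ⟨b, hb⟩
    exact ⟨a + b, by rw [map_add, ha, hb]⟩
  zero_mem' := ⟨0, map_zero _⟩
  neg_mem' := by
    rintro x ⟨a, ha⟩
    exact ⟨-a, by rw [map_neg, ha]⟩

/-- `K / R`. -/
abbrev Q1 (R K : Type) [CommRing R] [Field K] [Algebra R K] : Type := K ⧸ RS R K

/-- `(K / R) ^ m`. -/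
abbrev QV (R K : Type) [CommRing R] [Field K] [Algebra R K] (m : ℕ) : Type := (Fin m → K) ⧸ (St R K (Fin m)).toAddSubgroup

/-- The symmetric matrices modulo those which are integral on `M`. -/
abbrev QS (M : Submodule R (Fin n → K)) : Type := Sy n K ⧸ LS M

/-- The order of `c` in `K / R`: the least `g` with `ϖ ^ g c ∈ R`. -/
def od1 (ϖ : R) (c : K) : ℕ := sInf {g | In R (algebraMap R K ϖ ^ g * c)}

/-- The order of the vector `s` in `(K / R) ^ m`. -/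
def od {m : ℕ} (ϖ : R) (s : Fin m → K) : ℕ := sInf {g | ∀ i, In R (algebraMap R K ϖ ^ g * s i)}

/-- `{y ∈ R ^ m | s ⬝ y ∈ R}`. -/
def PPl {m : ℕ} (s : Fin m → K) : Submodule R (Fin m → K) where
  carrier := {y | y ∈ St R K (Fin m) ∧ In R (s ⬝ᵥ y)}
  add_mem' := by
    rintro x y ⟨hx, a, ha⟩ ⟨hy, b, hb⟩
    exact ⟨add_mem hx hy, a + b, by rw [map_add, ha, hb, dotProduct_add]⟩
  zero_mem' := ⟨zero_mem _, 0, by rw [map_zero, dotProduct_zero]⟩
  smul_mem' := by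
    rintro c x ⟨hx, a, ha⟩
    exact ⟨Submodule.smul_mem _ _ hx, c * a, by rw [map_mul, ha, dotProduct_smul, Algebra.smul_def]⟩

open Classical in
/-- `c⁻¹`, replaced by `0` if `c ∈ R`. -/
def civ (R : Type) {K : Type} [CommRing R] [Field K] [Algebra R K] (c : K) : K := if In R c then 0 else c⁻¹

/-- The symmetric matrix `[[c, sᵗ], [s, T + c⁻¹ s sᵗ]]`. -/
def mN (R : Type) {K : Type} [CommRing R] [Field K] [Algebra R K] {m : ℕ} (c : K) (s : Fin m → K) (T : Sy m K) : Sy (m + 1) K :=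
  ⟨Matrix.of fun i j => Fin.cases (Fin.cases c (fun b => s b) j)
    (fun a => Fin.cases (s a) (fun b => T.1 a b + civ R c * s a * s b) j) i, by
    ext i j
    rw [transpose_apply, of_apply, of_apply]
    refine Fin.cases ?_ (fun a => ?_) i
    · refine Fin.cases rfl (fun b => rfl) j
    · refine Fin.cases rfl (fun b => ?_) j
      change T.1 b a + civ R c * s b * s a = T.1 a b + civ R c * s a * s b
      have hT : T.1 b a = T.1 a b := by
        conv_lhs => rw [← T.2]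
        rfl
      rw [hT]
      ring⟩

/-- `∑_S Z ^ ν_P(S)`, the sum over the symmetric matrices modulo those which are integral on `M`. -/
def FP (q : ℕ) (M P : Submodule R (Fin n → K)) : PowerSeries ℂ :=
  gf (fun S : QS M => nu q P S.out.1) (fun _ => 1)

/-- `∑_S χ₀(S_11) Z ^ ν_P(S)`. -/
def BP [NeZero n] (q : ℕ) (χ₀ : K → ℂ) (M P : Submodule R (Fin n → K)) : PowerSeries ℂ :=
  gf (fun S : QS M => nu q P S.out.1) (fun S => χ₀ (S.out.1 0 0))

/-! ## The sum over the lattices -/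

/-- The vector `e_1`. -/
def e1 (n : ℕ) (K : Type) [Field K] [NeZero n] : Fin n → K := Pi.single 0 1

/-- The lattices of `K ^ n`. -/
abbrev LaT (K : Type) [Field K] [Algebra R K] (ϖ : R) (n : ℕ) : Type := {M : Submodule R (Fin n → K) // IsLa ϖ M}

/-- The self-dual lattices of `K ^ (2n)`. -/
abbrev SDt (K : Type) [Field K] [Algebra R K] (ϖ : R) (n : ℕ) : Type :=
  {L : Submodule R (Fin n ⊕ Fin n → K) // IsSD ϖ L}

/-- The pairs `(M, P)` of lattices with `e_1 ∈ P ⊆ M ∩ R ^ n`. -/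
structure PTc [NeZero n] (ϖ : R) (M P : Submodule R (Fin n → K)) : Prop where
  laM : IsLa ϖ M
  laP : IsLa ϖ P
  e : e1 n K ∈ P
  le : P ≤ M
  leS : P ≤ St R K (Fin n)

/-- The type of the pairs `(M, P)`. -/
abbrev PT (K : Type) [Field K] [Algebra R K] (ϖ : R) (n : ℕ) [NeZero n] : Type :=
  {x : Submodule R (Fin n → K) × Submodule R (Fin n → K) // PTc ϖ x.1 x.2}

/-- `∑_M Z ^ (len(R ^ n / P) + len(M / P)) q ^ ((n + 1) len(M / P)) f(M)`, `P = M ∩ R ^ n`. -/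
def AA (ϖ : R) (q : ℕ) (f : Submodule R (Fin n → K) → ℂ) : PowerSeries ℂ :=
  gf (fun M : LaT K ϖ n => dg q (M.1 ⊓ St R K (Fin n)) (St R K (Fin n)) + dg q (M.1 ⊓ St R K (Fin n)) M.1)
    (fun M => (q : ℂ) ^ ((n + 1) * dg q (M.1 ⊓ St R K (Fin n)) M.1) * f M.1)

/-- The sum over the pairs `(M, P)`. -/
def SP2 [NeZero n] (ϖ : R) (q : ℕ) (f : Submodule R (Fin n → K) → ℂ) : PowerSeries ℂ :=
  gf (fun x : PT K ϖ n => dg q x.1.2 (St R K (Fin n)) + dg q x.1.2 x.1.1)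
    (fun x => (q : ℂ) ^ ((n + 1) * dg q x.1.2 x.1.1) * f x.1.1)

/-- The standard lattice of rank `2 n`. -/
abbrev St2 (R K : Type) [CommRing R] [Field K] [Algebra R K] (n : ℕ) : Submodule R (Fin n ⊕ Fin n → K) := St R K (Fin n ⊕ Fin n)

end

end Pool.Agent.Lib.H67G
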