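import Pool.Agent.Lib.H67G.L7E

/-!
# L7F (S/M): closed form of the Siegel series with a character
-/

namespace Pool.Agent.Lib.H67G

open Matrix Pool.Agent.Lib.H89N

noncomputable section

variable {R K : Type} [CommRing R] [IsDomain R] [IsDiscreteValuationRing R] [Field K] [Algebra R K] {ϖ : R} {q : ℕ} {m : ℕ}

/-!
`om_ne`: the constant coefficient is `1` if `m ≥ 1`. `FP_closed`: induction over `m` with `rec_FB` and `FP_zero` (power series over `ℂ` form a domain: cancel `om _ _ ≠ 0`):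
`F_(m+1) (1 - q^(m+1) Z) (1 - q^(2m+1) Z²) = (1 - q^m Z) G (1 - q^(2m+1) Z²) = (1 - q^m Z) F_m (1 - q^(m+1) Z²)`.
`BP_closed`: write `n = m + 1` (`NeZero n`; `obtain ⟨m, rfl⟩`); `Bet (1 - q^(2m+1) Z²) = (1 - q^m Z) F_m (1 - q^(m+1) Z²)`, so `Bet ∏_{i=1..n} (1 - q^(2i-1) Z²) = (1 - Z) ∏_{i=1..n} (1 - q^i Z²)`. Multiply by `∏_{i=1..n-1} (1 - q^(n+i) Z²)` and use
`∏_{i=1..n} (1 - q^i Z²) ∏_{i=1..n-1} (1 - q^(n+i) Z²) = ∏_{i=1..2n-1} (1 - q^i Z²) = ∏_{i=1..n} (1 - q^(2i-1) Z²) ∏_{i=1..n-1} (1 - q^(2i) Z²)` (induction, `prod_split`), then cancel.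
-/

theorem om_ne (c : ℂ) {m : ℕ} (hm : 1 ≤ m) : om c m ≠ 0 := by
  intro h
  have h1 := congrArg (PowerSeries.constantCoeff (R := ℂ)) h
  unfold om at h1
  rw [map_sub, map_one, map_mul, map_pow, PowerSeries.constantCoeff_X, zero_pow (by omega), mul_zero, map_zero,
    sub_zero] at h1
  exact one_ne_zero h1

theorem l7f_odd (f : ℕ → PowerSeries ℂ) (m : ℕ) :
    ∏ i ∈ Finset.range (2 * m + 1), f (i + 1) =
      (∏ i ∈ Finset.range (m + 1), f (2 * i + 1)) * ∏ i ∈ Finset.range m, f (2 * (i + 1)) := by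
  induction m with
  | zero => simp
  | succ m ih =>
    have e : 2 * (m + 1) + 1 = 2 * m + 1 + 1 + 1 := by ring
    rw [e, Finset.prod_range_succ, Finset.prod_range_succ, ih, Finset.prod_range_succ (fun i => f (2 * i + 1)) (m + 1),
      Finset.prod_range_succ (fun i => f (2 * (i + 1))) m]
    have e1 : 2 * (m + 1) + 1 = 2 * m + 1 + 1 + 1 := by ring
    have e2 : 2 * (m + 1) = 2 * m + 1 + 1 := by ring
    rw [e1, e2]
    ring

theorem prod_split (f : ℕ → PowerSeries ℂ) (m : ℕ) :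
    (∏ i ∈ Finset.range (m + 1), f (i + 1)) * ∏ i ∈ Finset.range m, f (m + 1 + (i + 1)) =
      (∏ i ∈ Finset.range (m + 1), f (2 * i + 1)) * ∏ i ∈ Finset.range m, f (2 * (i + 1)) := by
  rw [← l7f_odd]
  have e : 2 * m + 1 = (m + 1) + m := by ring
  have e2 := Finset.prod_range_add (fun i => f (i + 1)) (m + 1) m
  rw [e, e2]
  rfl

theorem FP_closed (h : LF R K ϖ q) (m : ℕ) :
    FP q (St R K (Fin m)) (St R K (Fin m)) * om ((q : ℂ) ^ m) 1 * ∏ i ∈ Finset.range m, om ((q : ℂ) ^ (2 * i + 1)) 2 =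
      om 1 1 * ∏ i ∈ Finset.range m, om ((q : ℂ) ^ (i + 1)) 2 := by
  induction m with
  | zero => rw [FP_zero, pow_zero, Finset.prod_range_zero, Finset.prod_range_zero, one_mul]
  | succ m ih =>
    obtain ⟨G, h1, h2, -⟩ := rec_FB h m
    rw [h1, Finset.prod_range_succ, Finset.prod_range_succ]
    linear_combination (om ((q : ℂ) ^ (m + 1)) 2) * ih +
      (om ((q : ℂ) ^ m) 1 * ∏ i ∈ Finset.range m, om ((q : ℂ) ^ (2 * i + 1)) 2) * h2

theorem BP_closed {n : ℕ} [NeZero n] (h : LF R K ϖ q) {χ₀ : K → ℂ} (hχ : Chl ϖ χ₀) :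
    BP q χ₀ (St R K (Fin n)) (St R K (Fin n)) * ∏ i ∈ Finset.range (n - 1), om ((q : ℂ) ^ (n + 1 + i)) 2 =
      om 1 1 * ∏ i ∈ Finset.range (n - 1), om ((q : ℂ) ^ (2 * (i + 1))) 2 := by
  obtain ⟨m, rfl⟩ : ∃ m, n = m + 1 := ⟨n - 1, (Nat.succ_pred_eq_of_ne_zero (NeZero.ne n)).symm⟩
  obtain ⟨G, h1, h2, h3⟩ := rec_FB h m
  have h4 := FP_closed h m
  have h5 := prod_split (fun k => om ((q : ℂ) ^ k) 2) m
  have h6 := h3 χ₀ hχ
  have hne : (∏ i ∈ Finset.range (m + 1), om ((q : ℂ) ^ (2 * i + 1)) 2) ≠ 0 :=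
    Finset.prod_ne_zero_iff.2 fun i _ => om_ne _ (by norm_num)
  have e0 : m + 1 - 1 = m := rfl
  have e1 : ∀ i, m + 1 + 1 + i = m + 1 + (i + 1) := fun i => by ring
  rw [e0]
  simp only [e1]
  apply mul_left_cancel₀ hne
  have h7 : BP q χ₀ (St R K (Fin (m + 1))) (St R K (Fin (m + 1))) *
      ∏ i ∈ Finset.range (m + 1), om ((q : ℂ) ^ (2 * i + 1)) 2 =
      om 1 1 * ∏ i ∈ Finset.range (m + 1), om ((q : ℂ) ^ (i + 1)) 2 := by
    rw [h6, Finset.prod_range_succ, Finset.prod_range_succ]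
    linear_combination (om ((q : ℂ) ^ (m + 1)) 2) * h4 +
      (om ((q : ℂ) ^ m) 1 * ∏ i ∈ Finset.range m, om ((q : ℂ) ^ (2 * i + 1)) 2) * h2
  linear_combination (∏ i ∈ Finset.range m, om ((q : ℂ) ^ (m + 1 + (i + 1))) 2) * h7 + om 1 1 * h5

end

end Pool.Agent.Lib.H67G
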