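import Pool.Agent.Lib.H67G.L8B

/-!
# L9C (M): the sum over the pairs, first over P (assembly)
-/

namespace Pool.Agent.Lib.H67G

open Matrix Pool.Agent.Lib.H89N

noncomputable section

variable {R K : Type} [CommRing R] [IsDomain R] [IsDiscreteValuationRing R] [Field K] [Algebra R K] {ϖ : R} {q : ℕ}
  {n : ℕ} {P Q M N : Submodule R (Fin n → K)} {A B : Matrix (Fin n) (Fin n) K}

/-- The sublattices of `P` which contain `e_1`. -/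
abbrev l9c_T (ϖ : R) {K : Type} [Field K] [Algebra R K] {n : ℕ} [NeZero n] (P : Submodule R (Fin n → K)) : Type :=
  {Q : Submodule R (Fin n → K) // IsLa ϖ Q ∧ e1 n K ∈ Q ∧ Q ≤ P}

/-- The reindexing map. -/
def l9c_φ (ϖ : R) (K : Type) [Field K] [Algebra R K] (n : ℕ) [NeZero n]
    (x : Σ M : LaT K ϖ n, l9c_T ϖ (M.1 ⊓ St R K (Fin n))) : PT K ϖ n :=
  ⟨(x.1.1, x.2.1), ⟨x.1.2, x.2.2.1, x.2.2.2.1, x.2.2.2.2.trans inf_le_left, x.2.2.2.2.trans inf_le_right⟩⟩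

omit [IsDomain R] [IsDiscreteValuationRing R] in
theorem l9c_bij (ϖ : R) (n : ℕ) [NeZero n] : Function.Bijective (l9c_φ ϖ K n) := by
  constructor
  · rintro ⟨M, Q⟩ ⟨M', Q'⟩ he
    have h1 : M.1 = M'.1 := congrArg (fun y => y.1.1) he
    have h2 : Q.1 = Q'.1 := congrArg (fun y => y.1.2) he
    obtain rfl : M = M' := Subtype.ext h1
    obtain rfl : Q = Q' := Subtype.ext h2
    rfl
  · rintro ⟨⟨M, Q⟩, hx⟩
    exact ⟨⟨⟨M, hx.laM⟩, ⟨Q, hx.laP, hx.e, le_inf hx.le hx.leS⟩⟩, rfl⟩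

theorem l9c_St (n : ℕ) [NeZero n] : e1 n K ∈ St R K (Fin n) := single_St 0

/-- Reindex the pairs `(M, Q)` with `e_1 ∈ Q ≤ M ⊓ St` as the sigma type over the lattices `M` (`gf_bij` with the bijection `(Σ M : LaT K ϖ n, {Q // IsLa ϖ Q ∧ e1 n K ∈ Q ∧ Q ≤ M.1 ⊓ St}) → PT K ϖ n`).
With `P = M ⊓ St`: `dg Q St = dg Q P + dg P St`, `dg Q M = dg Q P + dg P M` (`dg_add`), so the degree is `(dg P St + dg P M) + 2 dg Q P` and the weight is `q ^ ((n + 1) dg P M) f M (q ^ (n + 1)) ^ dg Q P`. `gf_sigma` with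
`Φ = gf (2 dg Q P) ((q ^ (n + 1)) ^ dg Q P)`, which is independent of `P ∋ e_1`: by `gf_sub` (`c = q ^ (n + 1)`) it is the inverse of `∏_{i < n - 1} om (q ^ (n + 1) q ^ i) 2`. If `e_1 ∉ M` there is no `Q`, and `f M = 0` (`hf`).
So `SP2 = AA * Φ` with `Φ * ∏ = 1` (`Φ` := the inverse of the product, e.g. take `Φ` for the lattice `St`). -/
theorem SP2_eq [NeZero n] (h : LF R K ϖ q) {f : Submodule R (Fin n → K) → ℂ}
    (hf : ∀ M, IsLa ϖ M → e1 n K ∉ M → f M = 0) :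
    SP2 (K := K) ϖ q f * ∏ i ∈ Finset.range (n - 1), om ((q : ℂ) ^ (n + 1 + i)) 2 = AA ϖ q f := by
  have hprod : ∏ i ∈ Finset.range (n - 1), om ((q : ℂ) ^ (n + 1 + i)) 2 =
      ∏ i ∈ Finset.range (n - 1), om ((q : ℂ) ^ (n + 1) * (q : ℂ) ^ i) 2 :=
    Finset.prod_congr rfl fun i _ => by rw [pow_add]
  have hΦ := gf_sub (K := K) h la_St (l9c_St n) le_rfl ((q : ℂ) ^ (n + 1))
  let Φ : PowerSeries ℂ := gf (fun Q : l9c_T ϖ (St R K (Fin n)) => 2 * dg q Q.1 (St R K (Fin n)))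
      (fun Q => ((q : ℂ) ^ (n + 1)) ^ dg q Q.1 (St R K (Fin n)))
  have hΦ' : Φ * ∏ i ∈ Finset.range (n - 1), om ((q : ℂ) ^ (n + 1) * (q : ℂ) ^ i) 2 = 1 := hΦ
  have hM : ∀ P : Submodule R (Fin n → K), IsLa ϖ P → e1 n K ∈ P → P ≤ St R K (Fin n) →
      gf (fun Q : l9c_T ϖ P => 2 * dg q Q.1 P) (fun Q => ((q : ℂ) ^ (n + 1)) ^ dg q Q.1 P) = Φ := by
    intro P h1 h2 h3
    have h4 := gf_sub (K := K) h h1 h2 h3 ((q : ℂ) ^ (n + 1))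
    calc gf (fun Q : l9c_T ϖ P => 2 * dg q Q.1 P) (fun Q => ((q : ℂ) ^ (n + 1)) ^ dg q Q.1 P)
        = gf (fun Q : l9c_T ϖ P => 2 * dg q Q.1 P) (fun Q => ((q : ℂ) ^ (n + 1)) ^ dg q Q.1 P) *
          (Φ * ∏ i ∈ Finset.range (n - 1), om ((q : ℂ) ^ (n + 1) * (q : ℂ) ^ i) 2) := by rw [hΦ', mul_one]
      _ = (gf (fun Q : l9c_T ϖ P => 2 * dg q Q.1 P) (fun Q => ((q : ℂ) ^ (n + 1)) ^ dg q Q.1 P) *
          ∏ i ∈ Finset.range (n - 1), om ((q : ℂ) ^ (n + 1) * (q : ℂ) ^ i) 2) * Φ := by ring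
      _ = Φ := by rw [h4, one_mul]
  have a1 : SP2 (K := K) ϖ q f = gf
      (fun x : Σ M : LaT K ϖ n, l9c_T ϖ (M.1 ⊓ St R K (Fin n)) =>
        (dg q (x.1.1 ⊓ St R K (Fin n)) (St R K (Fin n)) + dg q (x.1.1 ⊓ St R K (Fin n)) x.1.1) +
          2 * dg q x.2.1 (x.1.1 ⊓ St R K (Fin n)))
      (fun x => (((q : ℂ) ^ (n + 1)) ^ dg q x.2.1 (x.1.1 ⊓ St R K (Fin n))) *
        ((q : ℂ) ^ ((n + 1) * dg q (x.1.1 ⊓ St R K (Fin n)) x.1.1) * f x.1.1)) := by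
    unfold SP2
    rw [← gf_bij (l9c_φ ϖ K n) (l9c_bij ϖ n)]
    have h5 : ∀ x : Σ M : LaT K ϖ n, l9c_T ϖ (M.1 ⊓ St R K (Fin n)),
        dg q x.2.1 (St R K (Fin n)) = dg q x.2.1 (x.1.1 ⊓ St R K (Fin n)) +
          dg q (x.1.1 ⊓ St R K (Fin n)) (St R K (Fin n)) := fun x =>
      dg_add h x.2.2.1 la_St x.2.2.2.2 inf_le_right
    have h6 : ∀ x : Σ M : LaT K ϖ n, l9c_T ϖ (M.1 ⊓ St R K (Fin n)),
        dg q x.2.1 x.1.1 = dg q x.2.1 (x.1.1 ⊓ St R K (Fin n)) +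
          dg q (x.1.1 ⊓ St R K (Fin n)) x.1.1 := fun x =>
      dg_add h x.2.2.1 x.1.2 x.2.2.2.2 inf_le_left
    have h7 : (fun x : Σ M : LaT K ϖ n, l9c_T ϖ (M.1 ⊓ St R K (Fin n)) =>
        dg q (l9c_φ ϖ K n x).1.2 (St R K (Fin n)) + dg q (l9c_φ ϖ K n x).1.2 (l9c_φ ϖ K n x).1.1) =
        (fun x => (dg q (x.1.1 ⊓ St R K (Fin n)) (St R K (Fin n)) + dg q (x.1.1 ⊓ St R K (Fin n)) x.1.1) +
          2 * dg q x.2.1 (x.1.1 ⊓ St R K (Fin n))) := by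
      funext x
      change dg q x.2.1 (St R K (Fin n)) + dg q x.2.1 x.1.1 = _
      rw [h5, h6]
      ring
    have h8 : (fun x : Σ M : LaT K ϖ n, l9c_T ϖ (M.1 ⊓ St R K (Fin n)) =>
        (q : ℂ) ^ ((n + 1) * dg q (l9c_φ ϖ K n x).1.2 (l9c_φ ϖ K n x).1.1) * f (l9c_φ ϖ K n x).1.1) =
        (fun x => (((q : ℂ) ^ (n + 1)) ^ dg q x.2.1 (x.1.1 ⊓ St R K (Fin n))) *
        ((q : ℂ) ^ ((n + 1) * dg q (x.1.1 ⊓ St R K (Fin n)) x.1.1) * f x.1.1)) := by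
      funext x
      change (q : ℂ) ^ ((n + 1) * dg q x.2.1 x.1.1) * f x.1.1 = _
      rw [h6, mul_add, pow_add, pow_mul, mul_assoc]
    rw [h7, h8]
  have a2 : gf
      (fun x : Σ M : LaT K ϖ n, l9c_T ϖ (M.1 ⊓ St R K (Fin n)) =>
        (dg q (x.1.1 ⊓ St R K (Fin n)) (St R K (Fin n)) + dg q (x.1.1 ⊓ St R K (Fin n)) x.1.1) +
          2 * dg q x.2.1 (x.1.1 ⊓ St R K (Fin n)))
      (fun x => (((q : ℂ) ^ (n + 1)) ^ dg q x.2.1 (x.1.1 ⊓ St R K (Fin n))) *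
        ((q : ℂ) ^ ((n + 1) * dg q (x.1.1 ⊓ St R K (Fin n)) x.1.1) * f x.1.1)) = AA ϖ q f * Φ := by
    refine gf_sigma (β := LaT K ϖ n) (γ := fun M => l9c_T ϖ (M.1 ⊓ St R K (Fin n)))
      (fun M => dg q (M.1 ⊓ St R K (Fin n)) (St R K (Fin n)) + dg q (M.1 ⊓ St R K (Fin n)) M.1)
      (fun M Q => 2 * dg q Q.1 (M.1 ⊓ St R K (Fin n)))
      (fun M Q => (((q : ℂ) ^ (n + 1)) ^ dg q Q.1 (M.1 ⊓ St R K (Fin n))) *
        ((q : ℂ) ^ ((n + 1) * dg q (M.1 ⊓ St R K (Fin n)) M.1) * f M.1))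
      (fun M => (q : ℂ) ^ ((n + 1) * dg q (M.1 ⊓ St R K (Fin n)) M.1) * f M.1) Φ
      (fin_AA h n) (fun M => fin_subF h (la_inf M.2 la_St)) ?_
    intro M
    by_cases hM1 : e1 n K ∈ M.1
    · rw [gf_smul, hM _ (la_inf M.2 la_St) ⟨hM1, l9c_St n⟩ inf_le_right]
    · rw [hf M.1 M.2 hM1]
      ext k
      rw [GF1_coeff]
      simp
  rw [a1, a2, hprod, mul_assoc, hΦ', mul_one]

end

end Pool.Agent.Lib.H67G
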