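import Pool.Agent.Lib.H67G.L1D

/-!
# L1E (M): finiteness
-/

namespace Pool.Agent.Lib.H67G

open Matrix Pool.Agent.Lib.H89N

noncomputable section

variable {R K : Type} [CommRing R] [IsDomain R] [IsDiscreteValuationRing R] [Field K] [Algebra R K] {ϖ : R} {q : ℕ}
  {ι : Type} [Fintype ι] [DecidableEq ι] {P Q M N : Submodule R (ι → K)} {A B : Matrix ι ι K}

/-!
`fin_sub`: by `pow_smul_mem` all these `P` contain `ϖ ^ k M`, and `M / ϖ ^ k M` is finite (`ix_eq`; `ϖ ^ k M = ac (ϖ ^ k • 1) M` is a lattice), so there are finitely many submodules between them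
(`P` is determined by its image in the finite quotient; `Set.Finite.of_injOn` or the finiteness of `Set (M / ϖ ^ k M)`). `fin_sup`: in the same way `M ⊆ ϖ ^ (-k) P`.
`fin_AA`: `M` with `dg (M ∩ St) St + dg (M ∩ St) M = k`: finitely many `P = M ∩ St` (`fin_sub` for every value `≤ k`) and for each of them finitely many `M`.
-/

theorem l1e_mid (h : LF R K ϖ q) (hN : IsLa ϖ N) (hM : IsLa ϖ M) : {P | N ≤ P ∧ P ≤ M}.Finite := by
  have hfin : Finite (M.toAddSubgroup ⧸ (N.toAddSubgroup.addSubgroupOf M.toAddSubgroup)) := by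
    apply Nat.finite_of_card_ne_zero
    have h1 : Nat.card (M.toAddSubgroup ⧸ (N.toAddSubgroup.addSubgroupOf M.toAddSubgroup)) = ix N M := rfl
    rw [h1, ix_eq h hN hM]
    exact pow_ne_zero _ (by have := h.dv.two; omega)
  let f : Submodule R (ι → K) → Set (M.toAddSubgroup ⧸ (N.toAddSubgroup.addSubgroupOf M.toAddSubgroup)) :=
    fun P => {x | ∃ y : M.toAddSubgroup, y.1 ∈ P ∧ (QuotientAddGroup.mk y : M.toAddSubgroup ⧸ _) = x}
  have key : ∀ P P' : Submodule R (ι → K), N ≤ P' → P ≤ M → f P = f P' → P ≤ P' := by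
    intro P P' h1 h2 hf x hx
    have h3 : (QuotientAddGroup.mk (⟨x, h2 hx⟩ : M.toAddSubgroup) :
        M.toAddSubgroup ⧸ (N.toAddSubgroup.addSubgroupOf M.toAddSubgroup)) ∈ f P' := by
      rw [← hf]
      exact ⟨⟨x, h2 hx⟩, hx, rfl⟩
    obtain ⟨y, hy, hyx⟩ := h3
    rw [QuotientAddGroup.eq, AddSubgroup.mem_addSubgroupOf] at hyx
    have h4 : -y.1 + x ∈ P' := h1 hyx
    have h5 : x = y.1 + (-y.1 + x) := by abel
    rw [h5]
    exact add_mem hy h4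
  refine Set.Finite.of_finite_image (Set.toFinite (f '' {P | N ≤ P ∧ P ≤ M})) ?_
  rintro P ⟨h1, h2⟩ P' ⟨h1', h2'⟩ hf
  exact le_antisymm (key P P' h1' h2 hf) (key P' P h1 h2' hf.symm)

omit [IsDomain R] [IsDiscreteValuationRing R] in
theorem l1e_dg (c : K) (hc : c ≠ 0) : (diagonal fun _ : ι => c) * (diagonal fun _ : ι => c⁻¹) = 1 := by
  rw [diagonal_mul_diagonal, ← diagonal_one]
  exact congrArg diagonal (funext fun i => mul_inv_cancel₀ hc)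

theorem fin_sub (h : LF R K ϖ q) (hM : IsLa ϖ M) (k : ℕ) : {P | IsLa ϖ P ∧ P ≤ M ∧ dg q P M = k}.Finite := by
  have hc : algebraMap R K ϖ ^ k ≠ 0 := pow_ne_zero _ (pi_ne h)
  have hN : IsLa ϖ (ac (diagonal fun _ : ι => algebraMap R K ϖ ^ k) M) := la_ac h (l1e_dg _ hc) hM
  refine (l1e_mid h hN hM).subset ?_
  rintro P ⟨h1, h2, h3⟩
  refine ⟨?_, h2⟩
  intro x hx
  obtain ⟨y, hy, rfl⟩ := mem_ac.1 hx
  have h4 := pow_smul_mem h h1 hM h2 hy
  rw [h3] at h4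
  have h5 : diagonal (fun _ : ι => algebraMap R K ϖ ^ k) *ᵥ y = ϖ ^ k • y := by
    funext i
    rw [mulVec_diagonal, Pi.smul_apply, Algebra.smul_def, map_pow]
  rw [h5]
  exact h4

theorem fin_sup (h : LF R K ϖ q) (hP : IsLa ϖ P) (k : ℕ) : {M | IsLa ϖ M ∧ P ≤ M ∧ dg q P M = k}.Finite := by
  have hc : algebraMap R K ϖ ^ k ≠ 0 := pow_ne_zero _ (pi_ne h)
  have hAB := l1e_dg (ι := ι) _ hc
  have hBA := mul_eq_one_comm.1 hAB
  have hN : IsLa ϖ (ac (diagonal fun _ : ι => (algebraMap R K ϖ ^ k)⁻¹) P) := la_ac h hBA hP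
  refine (l1e_mid h hP hN).subset ?_
  rintro M ⟨h1, h2, h3⟩
  refine ⟨h2, ?_⟩
  intro x hx
  rw [mem_ac_inv hBA]
  have h4 := pow_smul_mem h hP h1 h2 hx
  rw [h3] at h4
  have h5 : diagonal (fun _ : ι => algebraMap R K ϖ ^ k) *ᵥ x = ϖ ^ k • x := by
    funext i
    rw [mulVec_diagonal, Pi.smul_apply, Algebra.smul_def, map_pow]
  rw [h5]
  exact h4

theorem l1e_le {α : Type} (s : Set α) (d : α → ℕ) (hs : ∀ k, {a | a ∈ s ∧ d a = k}.Finite) (k : ℕ) :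
    {a | a ∈ s ∧ d a ≤ k}.Finite := by
  refine ((Finset.range (k + 1)).finite_toSet.biUnion fun i _ => hs i).subset ?_
  rintro a ⟨ha, hk⟩
  rw [Set.mem_iUnion₂]
  exact ⟨d a, by rw [Finset.mem_coe, Finset.mem_range]; omega, ha, rfl⟩

theorem l1e_pairs (h : LF R K ϖ q) (k : ℕ) :
    {x : Submodule R (ι → K) × Submodule R (ι → K) | IsLa ϖ x.1 ∧ IsLa ϖ x.2 ∧ x.2 ≤ x.1 ∧ x.2 ≤ St R K ι ∧
      dg q x.2 (St R K ι) + dg q x.2 x.1 = k}.Finite := by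
  have h1 : {P | (IsLa ϖ P ∧ P ≤ St R K ι) ∧ dg q P (St R K ι) ≤ k}.Finite := by
    refine l1e_le {P | IsLa ϖ P ∧ P ≤ St R K ι} (fun P => dg q P (St R K ι)) (fun i => ?_) k
    refine (fin_sub h la_St i).subset ?_
    rintro P ⟨⟨h2, h3⟩, h4⟩
    exact ⟨h2, h3, h4⟩
  have h2 : ∀ P : Submodule R (ι → K), IsLa ϖ P → {M | (IsLa ϖ M ∧ P ≤ M) ∧ dg q P M ≤ k}.Finite := by
    intro P hP
    refine l1e_le {M | IsLa ϖ M ∧ P ≤ M} (fun M => dg q P M) (fun i => ?_) k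
    refine (fin_sup h hP i).subset ?_
    rintro M ⟨⟨h2, h3⟩, h4⟩
    exact ⟨h2, h3, h4⟩
  refine (h1.biUnion (t := fun P => (fun M => (M, P)) '' {M | (IsLa ϖ M ∧ P ≤ M) ∧ dg q P M ≤ k})
    fun P hP => (h2 P hP.1.1).image _).subset ?_
  rintro ⟨M, P⟩ ⟨h3, h4, h5, h6, h7⟩
  change dg q P (St R K ι) + dg q P M = k at h7
  rw [Set.mem_iUnion₂]
  exact ⟨P, ⟨⟨h4, h6⟩, by omega⟩, M, ⟨⟨h3, h5⟩, by omega⟩, rfl⟩

theorem fin_AA (h : LF R K ϖ q) (n : ℕ) : FinF (fun M : LaT K ϖ n =>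
    dg q (M.1 ⊓ St R K (Fin n)) (St R K (Fin n)) + dg q (M.1 ⊓ St R K (Fin n)) M.1) := by
  intro k
  refine Set.Finite.of_finite_image (f := fun M : LaT K ϖ n => (M.1, M.1 ⊓ St R K (Fin n)))
    ((l1e_pairs (ι := Fin n) h k).subset ?_) ?_
  · rintro _ ⟨M, hM, rfl⟩
    exact ⟨M.2, la_inf M.2 la_St, inf_le_left, inf_le_right, hM⟩
  · intro M _ M' _ hMM
    exact Subtype.ext (congrArg Prod.fst hMM)

theorem fin_PT (h : LF R K ϖ q) (n : ℕ) [NeZero n] : FinF (fun x : PT K ϖ n => dg q x.1.2 (St R K (Fin n)) + dg q x.1.2 x.1.1) := by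
  intro k
  refine Set.Finite.of_finite_image (f := fun x : PT K ϖ n => x.1)
    ((l1e_pairs (ι := Fin n) h k).subset ?_) ?_
  · rintro _ ⟨x, hx, rfl⟩
    exact ⟨x.2.laM, x.2.laP, x.2.le, x.2.leS, hx⟩
  · intro M _ M' _ hMM
    exact Subtype.ext hMM

end

end Pool.Agent.Lib.H67G
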