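import Pool.Agent.Lib.H67G.L1H
import Pool.Agent.Lib.H67G.L1E

/-!
# L9E (S/M): the sum over the lattices which contain P
-/

namespace Pool.Agent.Lib.H67G

open Matrix Pool.Agent.Lib.H89N

noncomputable section

variable {R K : Type} [CommRing R] [IsDomain R] [IsDiscreteValuationRing R] [Field K] [Algebra R K] {ϖ : R} {q : ℕ}
  {n : ℕ} {P Q M N : Submodule R (Fin n → K)} {A B : Matrix (Fin n) (Fin n) K}

/-- `M ↦ ac A M` is a bijection from `{M ≥ P, dg q P M = k}` onto `{M ≥ ac A P, dg q (ac A P) M = k}` (`dg_ac`, `la_ac`, `ac_mono`, `uu_inv`), and `f (ac A M) = chU χ A * f M`. -/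
theorem wg_sup (h : LF R K ϖ q) {χ : Fin n → K → ℂ} {f : Submodule R (Fin n → K) → ℂ} (hf : WG ϖ χ f) (k : ℕ) :
    WG ϖ χ (fun P => ∑ᶠ M ∈ {M | IsLa ϖ M ∧ P ≤ M ∧ dg q P M = k}, f M) := by
  intro A P hA hP
  obtain ⟨B, hAB, hBA, _⟩ := uu_inv hA
  have h1 : chU χ A * ∑ᶠ M ∈ {M | IsLa ϖ M ∧ P ≤ M ∧ dg q P M = k}, f M =
      ∑ᶠ M ∈ {M | IsLa ϖ M ∧ P ≤ M ∧ dg q P M = k}, chU χ A * f M := by
    rw [← smul_eq_mul, smul_finsum]
    refine finsum_congr fun M => ?_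
    rw [smul_finsum]
    rfl
  change ∑ᶠ M ∈ {M | IsLa ϖ M ∧ ac A P ≤ M ∧ dg q (ac A P) M = k}, f M = _
  rw [h1]
  symm
  refine finsum_mem_eq_of_bijOn (fun M => ac A M) ⟨?_, ?_, ?_⟩ ?_
  · rintro M ⟨h2, h3, h4⟩
    exact ⟨la_ac h hAB h2, ac_mono h3, by rw [dg_ac hAB, h4]⟩
  · intro M _ N _ hMN
    exact ac_inj hAB hMN
  · rintro M ⟨h2, h3, h4⟩
    have h5 : ac A (ac B M) = M := by rw [← ac_mul, hAB, ac_one]
    refine ⟨ac B M, ⟨la_ac h hBA h2, ?_, ?_⟩, h5⟩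
    · rw [← ac_le_iff hAB, h5]
      exact h3
    · rw [← dg_ac hAB, h5, h4]
  · rintro M ⟨h2, _, _⟩
    exact (hf A M hA h2).symm

end

end Pool.Agent.Lib.H67G
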