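import Pool.Agent.Lib.H67G.L9G2

/-!
# L9G (S/M): the sum over the lattices which contain R^n
-/

namespace Pool.Agent.Lib.H67G

open Matrix Pool.Agent.Lib.H89N

noncomputable section

variable {R K : Type} [CommRing R] [IsDomain R] [IsDiscreteValuationRing R] [Field K] [Algebra R K] {ϖ : R} {q : ℕ}
  {n : ℕ} {P Q M N : Submodule R (Fin n → K)} {A B : Matrix (Fin n) (Fin n) K}

/-- `n = m + 1`, `good_eq`: `M = ac X_t (Mk)`, `Uu X_t` (`uu_xt`), `f M = chU χ X_t * f (Mk)`, and `chU χ X_t = χ (m - 1) (t_(m-1)) = 1` (`Chl.triv`; the other factors are `χ i 0 = 1`, `chl_zero`), the empty product if `m = 0`. -/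
theorem f_good (h : LF R K ϖ q) (hn : 1 ≤ n) {χ : Fin n → K → ℂ} (hχ : ∀ i : Fin n, (i : ℕ) + 1 < n → Chl ϖ (χ i))
    {f : Submodule R (Fin n → K) → ℂ} (hf : WG ϖ χ f) {k : ℕ} (hM : IsLa ϖ M) (h1 : St R K (Fin n) ≤ M)
    (h2 : dg q (St R K (Fin n)) M = k) (h3 : ¬Bad M) : f M = f (Mk K ϖ n k) := by
  obtain ⟨m, rfl⟩ : ∃ m, n = m + 1 := ⟨n - 1, by omega⟩
  obtain ⟨t, ht, ht', hMt⟩ := good_eq h hM h1 h2 h3
  rw [hMt, hf _ _ (uu_xt t ht') (L9G1_la_Mk h _ _)]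
  have hch : chU χ (1 + vecMulVec t (Pi.single (Fin.last m) 1)) = 1 := by
    rw [chU]
    refine Finset.prod_eq_one fun i _ => ?_
    by_cases hi : (i : ℕ) + 1 < m + 1
    · rw [dif_pos hi]
      refine (hχ i hi).triv _ ?_
      rw [Matrix.add_apply, vecMulVec_apply]
      refine in_add ?_ (in_mul (ht i) ?_)
      · rw [one_apply]
        split_ifs
        · exact in_one
        · exact in_zero
      · exact mem_St.1 (single_St (Fin.last m)) _
    · rw [dif_neg hi]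
  rw [hch, one_mul]

/-- The finite set (`fin_sup`) is the disjoint union of the bad and the good lattices: `sum_bad`, `f_good`, `ncard_good`. -/
theorem sum_c (h : LF R K ϖ q) (hn : 1 ≤ n) {χ : Fin n → K → ℂ} (hχ : ∀ i : Fin n, (i : ℕ) + 1 < n → Chl ϖ (χ i))
    {f : Submodule R (Fin n → K) → ℂ} (hf : WG ϖ χ f) (k : ℕ) :
    ∑ᶠ M ∈ {M | IsLa ϖ M ∧ St R K (Fin n) ≤ M ∧ dg q (St R K (Fin n)) M = k}, f M = (q : ℂ) ^ ((n - 1) * k) * f (Mk K ϖ n k) := by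
  classical
  have hfin : {M : Submodule R (Fin n → K) | IsLa ϖ M ∧ St R K (Fin n) ≤ M ∧ dg q (St R K (Fin n)) M = k}.Finite :=
    fin_sup h la_St k
  have hb : {M : Submodule R (Fin n → K) | (IsLa ϖ M ∧ St R K (Fin n) ≤ M ∧ dg q (St R K (Fin n)) M = k) ∧ Bad M}.Finite :=
    hfin.subset fun M hM => hM.1
  have hg : {M : Submodule R (Fin n → K) | (IsLa ϖ M ∧ St R K (Fin n) ≤ M ∧ dg q (St R K (Fin n)) M = k) ∧ ¬Bad M}.Finite :=
    hfin.subset fun M hM => hM.1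
  have hu : {M : Submodule R (Fin n → K) | IsLa ϖ M ∧ St R K (Fin n) ≤ M ∧ dg q (St R K (Fin n)) M = k} =
      {M | (IsLa ϖ M ∧ St R K (Fin n) ≤ M ∧ dg q (St R K (Fin n)) M = k) ∧ Bad M} ∪
        {M | (IsLa ϖ M ∧ St R K (Fin n) ≤ M ∧ dg q (St R K (Fin n)) M = k) ∧ ¬Bad M} := by
    ext M
    constructor
    · intro hM
      by_cases h1 : Bad M
      · exact Or.inl ⟨hM, h1⟩
      · exact Or.inr ⟨hM, h1⟩
    · rintro (hM | hM)
      · exact hM.1
      · exact hM.1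
  have hd : Disjoint {M : Submodule R (Fin n → K) | (IsLa ϖ M ∧ St R K (Fin n) ≤ M ∧ dg q (St R K (Fin n)) M = k) ∧ Bad M}
      {M | (IsLa ϖ M ∧ St R K (Fin n) ≤ M ∧ dg q (St R K (Fin n)) M = k) ∧ ¬Bad M} := by
    rw [Set.disjoint_left]
    intro M h1 h2
    exact h2.2 h1.2
  rw [hu, finsum_mem_union hd hb hg, sum_bad h hχ hf k, zero_add, finsum_mem_eq_finite_toFinset_sum _ hg]
  have hc : ∀ M ∈ hg.toFinset, f M = f (Mk K ϖ n k) := by
    intro M hM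
    rw [Set.Finite.mem_toFinset] at hM
    exact f_good h hn hχ hf hM.1.1 hM.1.2.1 hM.1.2.2 hM.2
  rw [Finset.sum_congr rfl hc, Finset.sum_const, nsmul_eq_mul, ← Set.ncard_eq_toFinset_card _ hg, ncard_good h hn k]
  push_cast
  rfl

end

end Pool.Agent.Lib.H67G
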