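import Pool.Agent.Lib.H67G.L9D
import Pool.Agent.Lib.H67G.L9E
import Pool.Agent.Lib.H67G.L9G

/-!
# L9H (M): the sum over the pairs, first over M
-/

namespace Pool.Agent.Lib.H67G

open Matrix Pool.Agent.Lib.H89N

noncomputable section

variable {R K : Type} [CommRing R] [IsDomain R] [IsDiscreteValuationRing R] [Field K] [Algebra R K] {ϖ : R} {q : ℕ}
  {n : ℕ} {P Q M N : Submodule R (Fin n → K)} {A B : Matrix (Fin n) (Fin n) K}

open Classical in
/-- The coefficient as a sum over `(l, k)`. -/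
theorem l9h_coeff [NeZero n] (h : LF R K ϖ q) (f : Submodule R (Fin n → K) → ℂ) (N : ℕ) :
    PowerSeries.coeff N (SP2 (K := K) ϖ q f) = ∑ x ∈ Finset.HasAntidiagonal.antidiagonal N,
      (q : ℂ) ^ ((n + 1) * x.2) *
        ∑ᶠ P ∈ {P | IsLa ϖ P ∧ e1 n K ∈ P ∧ P ≤ St R K (Fin n) ∧ dg q P (St R K (Fin n)) = x.1},
          ∑ᶠ M ∈ {M | IsLa ϖ M ∧ P ≤ M ∧ dg q P M = x.2}, f M := by
  have hA : ∀ l, {P : Submodule R (Fin n → K) | IsLa ϖ P ∧ e1 n K ∈ P ∧ P ≤ St R K (Fin n) ∧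
      dg q P (St R K (Fin n)) = l}.Finite := by
    intro l
    refine (fin_sub h la_St l).subset ?_
    rintro P ⟨h1, _, h3, h4⟩
    exact ⟨h1, h3, h4⟩
  have hB : ∀ (P : Submodule R (Fin n → K)) (_ : IsLa ϖ P) (k : ℕ),
      {M | IsLa ϖ M ∧ P ≤ M ∧ dg q P M = k}.Finite := fun P hP k => fin_sup h hP k
  unfold SP2 gf
  rw [PowerSeries.coeff_mk, finsum_mem_eq_finite_toFinset_sum _ (fin_PT h n N)]
  have e3 : ∀ a ∈ (fin_PT (K := K) h n N).toFinset,
      (dg q a.1.2 (St R K (Fin n)), dg q a.1.2 a.1.1) ∈ Finset.HasAntidiagonal.antidiagonal N := by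
    intro a ha
    rw [Set.Finite.mem_toFinset] at ha
    rw [Finset.HasAntidiagonal.mem_antidiagonal]
    exact ha
  rw [← Finset.sum_fiberwise_of_maps_to e3]
  refine Finset.sum_congr rfl fun x hx => ?_
  rw [Finset.HasAntidiagonal.mem_antidiagonal] at hx
  rw [finsum_mem_eq_finite_toFinset_sum _ (hA x.1)]
  have e4 : ∀ a ∈ ((fin_PT (K := K) h n N).toFinset.filter fun a =>
      (dg q a.1.2 (St R K (Fin n)), dg q a.1.2 a.1.1) = x), a.1.2 ∈ (hA x.1).toFinset := by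
    intro a ha
    rw [Finset.mem_filter] at ha
    rw [Set.Finite.mem_toFinset]
    exact ⟨a.2.laP, a.2.e, a.2.leS, congrArg Prod.fst ha.2⟩
  rw [← Finset.sum_fiberwise_of_maps_to e4, Finset.mul_sum]
  refine Finset.sum_congr rfl fun P hP => ?_
  rw [Set.Finite.mem_toFinset] at hP
  obtain ⟨h1, h2, h3, h4⟩ := hP
  rw [finsum_mem_eq_finite_toFinset_sum _ (hB P h1 x.2), Finset.mul_sum]
  refine Finset.sum_bij (fun a _ => a.1.1) ?_ ?_ ?_ ?_
  · intro a ha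
    rw [Finset.mem_filter, Finset.mem_filter] at ha
    obtain ⟨⟨_, a2⟩, rfl⟩ := ha
    rw [Set.Finite.mem_toFinset]
    exact ⟨a.2.laM, a.2.le, congrArg Prod.snd a2⟩
  · intro a ha b hb hab
    rw [Finset.mem_filter, Finset.mem_filter] at ha hb
    exact Subtype.ext (Prod.ext hab (ha.2.trans hb.2.symm))
  · intro M hM
    rw [Set.Finite.mem_toFinset] at hM
    obtain ⟨m1, m2, m3⟩ := hM
    refine ⟨⟨(M, P), ⟨m1, h1, h2, m2, h3⟩⟩, ?_, rfl⟩
    rw [Finset.mem_filter, Finset.mem_filter, Set.Finite.mem_toFinset]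
    refine ⟨⟨?_, ?_⟩, rfl⟩
    · change dg q P (St R K (Fin n)) + dg q P M = N
      rw [h4, m3, hx]
    · change (dg q P (St R K (Fin n)), dg q P M) = x
      rw [h4, m3]
  · intro a ha
    rw [Finset.mem_filter, Finset.mem_filter] at ha
    rw [show dg q a.1.2 a.1.1 = x.2 from congrArg Prod.snd ha.1.2]

/-- The coefficient of `Z ^ N` of `SP2` is the sum over the finite set of pairs `(M, P)` with `dg P St + dg P M = N` (`fin_PT`), that is
`∑_{l + k = N} ∑_{P : e_1 ∈ P ≤ St, dg P St = l} q ^ ((n + 1) k) ∑_{M ≥ P, dg P M = k} f M`. For `l ≥ 1` the sum over `P` vanishes by `sum_b` for `G = G_k` (`wg_sup`; a constant factor does not matter). For `l = 0` only `P = St` (`dg_zero_iff`; `e_1 ∈ St`), `k = N`: `sum_c`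
gives `q ^ ((n + 1) N) q ^ ((n - 1) N) f (Mk N) = q ^ (2 n N) f (Mk N)`. -/
theorem SP2_sum [NeZero n] (h : LF R K ϖ q) {χ : Fin n → K → ℂ} (hχ : ∀ i : Fin n, (i : ℕ) + 1 < n → Chl ϖ (χ i))
    {f : Submodule R (Fin n → K) → ℂ} (hf : WG ϖ χ f) :
    SP2 (K := K) ϖ q f = PowerSeries.mk fun k => (q : ℂ) ^ (2 * n * k) * f (Mk K ϖ n k) := by
  ext N
  rw [l9h_coeff h, PowerSeries.coeff_mk, Finset.sum_eq_single (0, N)]
  · have hn : 1 ≤ n := NeZero.one_le
    have h1 : {P : Submodule R (Fin n → K) | IsLa ϖ P ∧ e1 n K ∈ P ∧ P ≤ St R K (Fin n) ∧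
      dg q P (St R K (Fin n)) = 0} = {St R K (Fin n)} := by
      ext P
      rw [Set.mem_singleton_iff]
      constructor
      · rintro ⟨a1, _, a3, a4⟩
        exact le_antisymm a3 ((dg_zero_iff h a1 la_St).1 a4)
      · rintro rfl
        exact ⟨la_St, single_St 0, le_rfl, dg_self⟩
    change (q : ℂ) ^ ((n + 1) * N) * ∑ᶠ P ∈ {P : Submodule R (Fin n → K) | IsLa ϖ P ∧ e1 n K ∈ P ∧
      P ≤ St R K (Fin n) ∧ dg q P (St R K (Fin n)) = 0}, ∑ᶠ M ∈ {M | IsLa ϖ M ∧ P ≤ M ∧ dg q P M = N}, f M = _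
    rw [h1, finsum_mem_singleton, sum_c h hn hχ hf N, ← mul_assoc, ← pow_add]
    congr 2
    obtain ⟨m, rfl⟩ : ∃ m, n = m + 1 := ⟨n - 1, by omega⟩
    rw [Nat.add_sub_cancel]
    ring
  · rintro ⟨l, k⟩ hx hne
    rw [Finset.HasAntidiagonal.mem_antidiagonal] at hx
    have hl : 1 ≤ l := by
      rcases Nat.eq_zero_or_pos l with hl | hl
      · exfalso
        apply hne
        have hx' : l + k = N := hx
        rw [hl] at hx' ⊢
        rw [← hx', zero_add]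
      · exact hl
    change (q : ℂ) ^ ((n + 1) * k) * ∑ᶠ P ∈ {P : Submodule R (Fin n → K) | IsLa ϖ P ∧ e1 n K ∈ P ∧
      P ≤ St R K (Fin n) ∧ dg q P (St R K (Fin n)) = l}, ∑ᶠ M ∈ {M | IsLa ϖ M ∧ P ≤ M ∧ dg q P M = k}, f M = 0
    have h2 := sum_b h hχ (wg_sup h hf k) hl
    rw [h2, mul_zero]
  · intro hx
    exact absurd (Finset.HasAntidiagonal.mem_antidiagonal.2 (zero_add N)) hx

end

end Pool.Agent.Lib.H67G
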