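import Pool.Agent.Lib.H67G.L9B
import Pool.Agent.Lib.H67G.L9C
import Pool.Agent.Lib.H67G.L9H
import Pool.Agent.Lib.H67G.L7F

/-!
# L10 (S): the main identity (STAR)
-/

namespace Pool.Agent.Lib.H67G

open Matrix Pool.Agent.Lib.H89N

noncomputable section

variable {R K : Type} [CommRing R] [IsDomain R] [IsDiscreteValuationRing R] [Field K] [Algebra R K] {ϖ : R} {q : ℕ}
  {n : ℕ} {P Q M N : Submodule R (Fin n → K)} {A B : Matrix (Fin n) (Fin n) K}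

/-- **The main identity.** -/
theorem starE [NeZero n] (h : LF R K ϖ q) {χ₀ : K → ℂ} (hχ₀ : Chl ϖ χ₀) {χ : Fin n → K → ℂ}
    (hχ : ∀ i : Fin n, (i : ℕ) + 1 < n → Chl ϖ (χ i)) {F : Submodule R (Fin n ⊕ Fin n → K) → ℂ} (hF : WF ϖ χ₀ χ F) :
    gf (fun L : SDt K ϖ n => dg q L.1 (St2 R K n)) (fun L => F L.1) =
      (om 1 1 * ∏ i ∈ Finset.range (n - 1), om ((q : ℂ) ^ (2 * (i + 1))) 2) *
        PowerSeries.mk fun k => (q : ℂ) ^ (2 * n * k) * F (Lm (Mk K ϖ n k) 0) := by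
  have e1 := sum_SD h hχ₀ hF
  have e2 := SP2_eq h (f := fun M => F (Lm M 0)) (fun M hM he => alpha h hχ₀ hF hM he)
  have e3 := SP2_sum h hχ (wg_of_wf h hF)
  have e4 := BP_closed h hχ₀ (n := n)
  rw [e1, ← e2, e3, ← e4]
  ring

end

end Pool.Agent.Lib.H67G
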