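import Pool.Agent.Lib.H67G.L0

/-!
# L1A (S/M): integral elements and characters
-/

namespace Pool.Agent.Lib.H67G

open Matrix Pool.Agent.Lib.H89N

noncomputable section

variable {R K : Type} [CommRing R] [IsDomain R] [IsDiscreteValuationRing R] [Field K] [Algebra R K] {ϖ : R} {q : ℕ}

/-!
All elementary. `exists_uv`: by `h.frac` there is `m` with `ϖ ^ m z ∈ R`; take the least one (it is `≥ 1` since `z ∉ R`), `ϖ ^ m z = r`; if `r` were not a unit then
`r = ϖ r'` (`R` is a discrete valuation ring, `ϖ` irreducible: the maximal ideal is generated by `ϖ`) and `ϖ ^ (m - 1) z = r'`, a contradiction.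
`char_scale`: let `t` be as in `hχ.nt` (`ϖ t = r ∈ R`, `χ t ≠ 1`), `ϖ ^ m z = u`, `u v = 1`, `m ≥ 1`: `c = r ϖ ^ (m - 1) v` gives `c z = t`. `char_scale_sq`: `ϖ ^ (2m) z² = u²`; same with `2 m ≥ 1`.
-/

theorem in_alg (r : R) : In R (algebraMap R K r) := by
  exact ⟨r, rfl⟩

theorem in_zero : In R (0 : K) := by
  exact ⟨0, map_zero _⟩

theorem in_one : In R (1 : K) := by
  exact ⟨1, map_one _⟩

theorem in_add {x y : K} (hx : In R x) (hy : In R y) : In R (x + y) := by
  obtain ⟨a, rfl⟩ := hx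
  obtain ⟨b, rfl⟩ := hy
  exact ⟨a + b, map_add _ _ _⟩

theorem in_neg {x : K} (hx : In R x) : In R (-x) := by
  obtain ⟨a, rfl⟩ := hx
  exact ⟨-a, map_neg _ _⟩

theorem in_sub {x y : K} (hx : In R x) (hy : In R y) : In R (x - y) := by
  obtain ⟨a, rfl⟩ := hx
  obtain ⟨b, rfl⟩ := hy
  exact ⟨a - b, map_sub _ _ _⟩

theorem in_mul {x y : K} (hx : In R x) (hy : In R y) : In R (x * y) := by
  obtain ⟨a, rfl⟩ := hx
  obtain ⟨b, rfl⟩ := hy
  exact ⟨a * b, map_mul _ _ _⟩

theorem in_pow {x : K} (hx : In R x) (m : ℕ) : In R (x ^ m) := by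
  obtain ⟨a, rfl⟩ := hx
  exact ⟨a ^ m, map_pow _ _ _⟩

theorem in_sum {ι : Type} (s : Finset ι) (f : ι → K) (h : ∀ i ∈ s, In R (f i)) : In R (∑ i ∈ s, f i) := by
  classical
  induction s using Finset.induction_on with
  | empty =>
    rw [Finset.sum_empty]
    exact ⟨0, map_zero _⟩
  | insert a s ha ih =>
    rw [Finset.sum_insert ha]
    exact in_add (h a (Finset.mem_insert_self a s)) (ih fun i hi => h i (Finset.mem_insert_of_mem hi))

theorem in_dot {ι : Type} [Fintype ι] {x y : ι → K} (hx : ∀ i, In R (x i)) (hy : ∀ i, In R (y i)) : In R (x ⬝ᵥ y) := by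
  unfold dotProduct
  exact in_sum _ _ fun i _ => in_mul (hx i) (hy i)

theorem pi_ne (h : LF R K ϖ q) : algebraMap R K ϖ ≠ 0 := by
  rw [Ne, map_eq_zero_iff _ h.inj]
  exact h.dv.irr.ne_zero

/-- If `ϖ x` is not integral after division by `ϖ`. -/
theorem exists_uv (h : LF R K ϖ q) {z : K} (hz : ¬In R z) :
    ∃ m : ℕ, 1 ≤ m ∧ ∃ u v : R, u * v = 1 ∧ algebraMap R K ϖ ^ m * z = algebraMap R K u := by
  classical
  have hex : ∃ m : ℕ, In R (algebraMap R K ϖ ^ m * z) := h.frac z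
  have hm := Nat.find_spec hex
  have hmin : ∀ k, k < Nat.find hex → ¬In R (algebraMap R K ϖ ^ k * z) := fun k hk => Nat.find_min hex hk
  generalize Nat.find hex = m at hm hmin
  have hm1 : 1 ≤ m := by
    rcases Nat.eq_zero_or_pos m with h0 | h0
    · exfalso
      rw [h0, pow_zero, one_mul] at hm
      exact hz hm
    · exact h0
  refine ⟨m, hm1, ?_⟩
  obtain ⟨r, hr⟩ := hm
  by_cases hu : IsUnit r
  · obtain ⟨v, hv⟩ := hu.exists_right_inv
    exact ⟨r, v, hv, hr.symm⟩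
  · exfalso
    have hmem : r ∈ IsLocalRing.maximalIdeal R := (IsLocalRing.mem_maximalIdeal r).mpr hu
    rw [(IsDiscreteValuationRing.irreducible_iff_uniformizer ϖ).mp h.dv.irr, Ideal.mem_span_singleton] at hmem
    obtain ⟨r', hr'⟩ := hmem
    refine hmin (m - 1) (by omega) ⟨r', ?_⟩
    apply mul_left_cancel₀ (pi_ne h)
    rw [← map_mul, ← hr', hr, ← mul_assoc, ← pow_succ', Nat.sub_add_cancel hm1]

theorem in_or_inv (h : LF R K ϖ q) (z : K) : In R z ∨ In R z⁻¹ := by
  by_cases hz : In R z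
  · exact Or.inl hz
  · right
    obtain ⟨m, hm, u, v, huv, he⟩ := exists_uv h hz
    have hz0 : z ≠ 0 := by
      rintro rfl
      exact hz in_zero
    refine ⟨ϖ ^ m * v, ?_⟩
    apply mul_right_cancel₀ hz0
    rw [inv_mul_cancel₀ hz0, map_mul, map_pow]
    calc algebraMap R K ϖ ^ m * algebraMap R K v * z = (algebraMap R K ϖ ^ m * z) * algebraMap R K v := by ring
      _ = 1 := by rw [he, ← map_mul, huv, map_one]

theorem chl_zero {χ : K → ℂ} (hχ : Chl ϖ χ) : χ 0 = 1 := by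
  exact hχ.triv 0 in_zero

theorem chl_neg {χ : K → ℂ} (hχ : Chl ϖ χ) (x : K) : χ (-x) * χ x = 1 := by
  rw [← hχ.add, neg_add_cancel]
  exact chl_zero hχ

theorem chl_congr {χ : K → ℂ} (hχ : Chl ϖ χ) {x y : K} (hxy : In R (x - y)) : χ x = χ y := by
  have h1 : x = (x - y) + y := by ring
  rw [h1, hχ.add, hχ.triv _ hxy, one_mul]

theorem char_scale (h : LF R K ϖ q) {χ : K → ℂ} (hχ : Chl ϖ χ) {z : K} (hz : ¬In R z) :
    ∃ c : R, χ (algebraMap R K c * z) ≠ 1 := by
  obtain ⟨t, ⟨r, hr⟩, ht⟩ := hχ.nt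
  obtain ⟨m, hm, u, v, huv, he⟩ := exists_uv h hz
  refine ⟨r * ϖ ^ (m - 1) * v, ?_⟩
  have h1 : algebraMap R K (r * ϖ ^ (m - 1) * v) * z = t := by
    apply mul_left_cancel₀ (pi_ne h)
    rw [← hr, map_mul, map_mul, map_pow]
    calc algebraMap R K ϖ * (algebraMap R K r * algebraMap R K ϖ ^ (m - 1) * algebraMap R K v * z)
        = algebraMap R K r * algebraMap R K v * (algebraMap R K ϖ ^ (m - 1 + 1) * z) := by ring
      _ = algebraMap R K r * algebraMap R K v * algebraMap R K u := by rw [Nat.sub_add_cancel hm, he]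
      _ = algebraMap R K r * algebraMap R K (u * v) := by rw [map_mul]; ring
      _ = algebraMap R K r := by rw [huv, map_one, mul_one]
  rw [h1]
  exact ht

theorem char_scale_sq (h : LF R K ϖ q) {χ : K → ℂ} (hχ : Chl ϖ χ) {z : K} (hz : ¬In R z) :
    ∃ c : R, χ (algebraMap R K c * (z * z)) ≠ 1 := by
  obtain ⟨t, ⟨r, hr⟩, ht⟩ := hχ.nt
  obtain ⟨m, hm, u, v, huv, he⟩ := exists_uv h hz
  refine ⟨r * ϖ ^ (2 * m - 1) * (v * v), ?_⟩
  have h1 : algebraMap R K (r * ϖ ^ (2 * m - 1) * (v * v)) * (z * z) = t := by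
    apply mul_left_cancel₀ (pi_ne h)
    rw [← hr, map_mul, map_mul, map_pow, map_mul]
    calc algebraMap R K ϖ * (algebraMap R K r * algebraMap R K ϖ ^ (2 * m - 1) * (algebraMap R K v * algebraMap R K v) * (z * z))
        = algebraMap R K r * (algebraMap R K v * algebraMap R K v) * (algebraMap R K ϖ ^ (2 * m - 1 + 1) * (z * z)) := by ring
      _ = algebraMap R K r * (algebraMap R K v * algebraMap R K v) * ((algebraMap R K ϖ ^ m * z) * (algebraMap R K ϖ ^ m * z)) := by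
        rw [Nat.sub_add_cancel (by omega), two_mul, pow_add]; ring
      _ = algebraMap R K r * (algebraMap R K (u * v) * algebraMap R K (u * v)) := by rw [he, map_mul]; ring
      _ = algebraMap R K r := by rw [huv, map_one, mul_one, mul_one]
  rw [h1]
  exact ht

end

end Pool.Agent.Lib.H67G
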