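import Pool.Agent.Lib.H67G.L1A

/-!
# L1B (S/M): lattices
-/

set_option linter.unusedSectionVars false

namespace Pool.Agent.Lib.H67G

open Matrix Pool.Agent.Lib.H89N

noncomputable section

variable {R K : Type} [CommRing R] [IsDomain R] [IsDiscreteValuationRing R] [Field K] [Algebra R K] {ϖ : R} {q : ℕ}
  {ι : Type} [Fintype ι] [DecidableEq ι] {P Q M N : Submodule R (ι → K)} {A B : Matrix ι ι K}

/-!
`ac A M = {A *ᵥ y : y ∈ M}`; `A * B = 1` implies `B * A = 1` (`Matrix.mul_eq_one_comm`). `la_ac`: all entries of `A` and `B` become integral after multiplication by some `ϖ ^ k` (`h.frac`,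
finitely many entries), so `ϖ ^ k A St ⊆ St` and `ϖ ^ k B St ⊆ St`; if `ϖ ^ m St ⊆ M`, `ϖ ^ m M ⊆ St` then `ϖ ^ (k + m) St ⊆ A M` (for `x ∈ St`: `ϖ ^ k B x ∈ St`, so `ϖ ^ (k + m) B x ∈ M`) and
`ϖ ^ (k + m) A M ⊆ St`. In the definition of `IsLa` the exponent `m` may be enlarged.
-/

theorem mem_St {x : ι → K} : x ∈ St R K ι ↔ ∀ i, In R (x i) := Iff.rfl

theorem single_St (i : ι) : (Pi.single i 1 : ι → K) ∈ St R K ι := by
  intro j
  by_cases hj : j = i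
  · subst hj
    rw [Pi.single_eq_same]
    exact ⟨1, map_one _⟩
  · rw [Pi.single_eq_of_ne hj]
    exact ⟨0, map_zero _⟩

theorem mem_ac {x : ι → K} : x ∈ ac A M ↔ ∃ y ∈ M, A *ᵥ y = x := Iff.rfl

theorem mem_ac_inv (h : A * B = 1) {x : ι → K} : x ∈ ac A M ↔ B *ᵥ x ∈ M := by
  have h' : B * A = 1 := mul_eq_one_comm.1 h
  rw [mem_ac]
  constructor
  · rintro ⟨y, hy, rfl⟩
    rwa [mulVec_mulVec, h', one_mulVec]
  · intro hx
    exact ⟨_, hx, by rw [mulVec_mulVec, h, one_mulVec]⟩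

theorem ac_one : ac (1 : Matrix ι ι K) M = M := by
  ext x
  rw [mem_ac]
  constructor
  · rintro ⟨y, hy, rfl⟩
    rwa [one_mulVec]
  · intro hx
    exact ⟨x, hx, one_mulVec x⟩

theorem ac_mul (A B : Matrix ι ι K) (M : Submodule R (ι → K)) : ac (A * B) M = ac A (ac B M) := by
  ext x
  rw [mem_ac, mem_ac]
  constructor
  · rintro ⟨y, hy, rfl⟩
    exact ⟨B *ᵥ y, ⟨y, hy, rfl⟩, by rw [mulVec_mulVec]⟩
  · rintro ⟨z, ⟨y, hy, rfl⟩, rfl⟩
    refine ⟨y, hy, ?_⟩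
    rw [← mulVec_mulVec]
    rfl

theorem ac_inj (h : A * B = 1) (e : ac A M = ac A N) : M = N := by
  have h' : B * A = 1 := mul_eq_one_comm.1 h
  rw [← ac_one (M := M), ← ac_one (M := N), ← h', ac_mul, ac_mul, e]

theorem ac_mono (h : M ≤ N) : ac A M ≤ ac A N := Submodule.map_mono h

theorem ac_le_iff (h : A * B = 1) : ac A M ≤ ac A N ↔ M ≤ N := by
  refine ⟨fun h1 => ?_, ac_mono⟩
  have h' : B * A = 1 := mul_eq_one_comm.1 h
  have h2 := ac_mono (A := B) h1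
  rwa [← ac_mul, ← ac_mul, h', ac_one, ac_one] at h2

theorem ac_inf (h : A * B = 1) : ac A (M ⊓ N) = ac A M ⊓ ac A N := by
  ext x
  rw [Submodule.mem_inf, mem_ac_inv h, mem_ac_inv h, mem_ac_inv h, Submodule.mem_inf]

theorem ac_sup : ac A (M ⊔ N) = ac A M ⊔ ac A N := Submodule.map_sup _ _ _

omit [IsDomain R] [IsDiscreteValuationRing R] [Fintype ι] [DecidableEq ι] in
theorem l1b_up {X : Submodule R (ι → K)} {x : ι → K} {m : ℕ} (h : ϖ ^ m • x ∈ X) (k : ℕ) :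
    ϖ ^ (m + k) • x ∈ X ∧ ϖ ^ (k + m) • x ∈ X := by
  have h1 : ϖ ^ (m + k) • x ∈ X := by
    rw [pow_add, mul_comm, mul_smul]
    exact Submodule.smul_mem _ _ h
  exact ⟨h1, by rwa [add_comm k m]⟩

theorem la_St : IsLa ϖ (St R K ι) :=
  ⟨0, fun x hx => by rwa [pow_zero, one_smul], fun x hx => by rwa [pow_zero, one_smul]⟩

theorem la_inf (hM : IsLa ϖ M) (hN : IsLa ϖ N) : IsLa ϖ (M ⊓ N) := by
  obtain ⟨m, h1, h2⟩ := hM
  obtain ⟨k, h3, h4⟩ := hN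
  exact ⟨m + k, fun x hx => ⟨(l1b_up (h1 x hx) k).1, (l1b_up (h3 x hx) m).2⟩,
    fun x hx => (l1b_up (h2 x hx.1) k).1⟩

theorem la_sup (hM : IsLa ϖ M) (hN : IsLa ϖ N) : IsLa ϖ (M ⊔ N) := by
  obtain ⟨m, h1, h2⟩ := hM
  obtain ⟨k, h3, h4⟩ := hN
  refine ⟨m + k, fun x hx => (le_sup_left : M ≤ M ⊔ N) (l1b_up (h1 x hx) k).1, fun x hx => ?_⟩
  obtain ⟨y, hy, z, hz, rfl⟩ := Submodule.mem_sup.1 hx
  rw [smul_add]
  exact add_mem (l1b_up (h2 y hy) k).1 (l1b_up (h4 z hz) m).2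

theorem la_mid (hP : IsLa ϖ P) (hM : IsLa ϖ M) (h1 : P ≤ Q) (h2 : Q ≤ M) : IsLa ϖ Q := by
  obtain ⟨m, h3, h4⟩ := hP
  obtain ⟨k, h5, h6⟩ := hM
  exact ⟨m + k, fun x hx => h1 (l1b_up (h3 x hx) k).1, fun x hx => (l1b_up (h6 x (h2 hx)) m).2⟩

omit [IsDomain R] [IsDiscreteValuationRing R] in
theorem l1b_in_mono {z : K} {m k : ℕ} (hmk : m ≤ k) (h : In R (algebraMap R K ϖ ^ m * z)) :
    In R (algebraMap R K ϖ ^ k * z) := by
  obtain ⟨r, hr⟩ := h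
  refine ⟨ϖ ^ (k - m) * r, ?_⟩
  rw [map_mul, hr, map_pow, ← mul_assoc, ← pow_add, Nat.sub_add_cancel hmk]

omit [Fintype ι] [DecidableEq ι] in
theorem l1b_vec [Fintype ι] (h : LF R K ϖ q) (x : ι → K) : ∃ m : ℕ, ϖ ^ m • x ∈ St R K ι := by
  choose m hm using fun i => h.frac (x i)
  refine ⟨∑ i, m i, fun i => ?_⟩
  rw [Pi.smul_apply, Algebra.smul_def, map_pow]
  exact l1b_in_mono (Finset.single_le_sum (fun _ _ => Nat.zero_le _) (Finset.mem_univ i)) (hm i)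

theorem l1b_mat (h : LF R K ϖ q) (A : Matrix ι ι K) :
    ∃ k : ℕ, ∀ x ∈ St R K ι, ϖ ^ k • (A *ᵥ x) ∈ St R K ι := by
  choose m hm using fun i => l1b_vec h (A i)
  refine ⟨∑ i, m i, fun x hx i => ?_⟩
  rw [Pi.smul_apply, Algebra.smul_def, map_pow]
  unfold Matrix.mulVec
  rw [← smul_eq_mul, ← smul_dotProduct]
  refine in_dot (fun j => ?_) hx
  rw [Pi.smul_apply, smul_eq_mul]
  have h1 := hm i j
  rw [Pi.smul_apply, Algebra.smul_def, map_pow] at h1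
  exact l1b_in_mono (Finset.single_le_sum (fun _ _ => Nat.zero_le _) (Finset.mem_univ i)) h1

theorem la_ac (h : LF R K ϖ q) (hAB : A * B = 1) (hM : IsLa ϖ M) : IsLa ϖ (ac A M) := by
  obtain ⟨m, h1, h2⟩ := hM
  obtain ⟨k, hk⟩ := l1b_mat h A
  obtain ⟨l, hl⟩ := l1b_mat h B
  have e1 : ∀ (C : Matrix ι ι K) (s : ℕ) (x : ι → K), C *ᵥ (ϖ ^ s • x) = ϖ ^ s • (C *ᵥ x) :=
    fun C s x => mulVec_smul _ _ _
  refine ⟨(l + m) + (m + k), fun x hx => ?_, fun x hx => ?_⟩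
  · refine (l1b_up ?_ _).1
    rw [mem_ac_inv hAB, e1, add_comm l m, pow_add, mul_smul]
    exact h1 _ (hl x hx)
  · refine (l1b_up ?_ _).2
    obtain ⟨y, hy, rfl⟩ := hx
    change ϖ ^ (m + k) • (A *ᵥ y) ∈ St R K ι
    rw [add_comm m k, pow_add, mul_smul, ← e1]
    exact hk _ (h2 y hy)

/-- Lattices contain enough multiples of every vector. -/
theorem la_absorb (h : LF R K ϖ q) (hM : IsLa ϖ M) (x : ι → K) : ∃ m : ℕ, ϖ ^ m • x ∈ M := by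
  obtain ⟨m, h1, h2⟩ := hM
  obtain ⟨k, hk⟩ := l1b_vec h x
  refine ⟨m + k, ?_⟩
  rw [pow_add, mul_smul]
  exact h1 _ hk

end

end Pool.Agent.Lib.H67G
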