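import Pool.Agent.Lib.H67G.L1B

/-!
# L1C (M): bases of lattices and elementary divisors
-/

namespace Pool.Agent.Lib.H67G

open Matrix Pool.Agent.Lib.H89N

noncomputable section

section gen

variable {R K : Type} [CommRing R] [Field K] [Algebra R K] {ι : Type}

/-- The integral vectors. -/
def l1c_T (R K : Type) [CommRing R] [Field K] [Algebra R K] (ι : Type) : (ι → R) →ₗ[R] (ι → K) where
  toFun y := fun i => algebraMap R K (y i)
  map_add' x y := by
    funext i
    exact map_add _ _ _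
  map_smul' c x := by
    funext i
    change algebraMap R K (c * x i) = c • algebraMap R K (x i)
    rw [map_mul, Algebra.smul_def]

theorem l1c_mem {x : ι → K} : x ∈ St R K ι ↔ ∃ y : ι → R, l1c_T R K ι y = x := by
  constructor
  · intro hx
    choose y hy using hx
    exact ⟨y, funext hy⟩
  · rintro ⟨y, rfl⟩ i
    exact ⟨y i, rfl⟩

theorem l1c_mulVec [Fintype ι] (U : Matrix ι ι R) (y : ι → R) :
    (U.map (algebraMap R K)) *ᵥ (l1c_T R K ι y) = l1c_T R K ι (U *ᵥ y) := by
  funext i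
  exact ((algebraMap R K).map_mulVec U y i).symm

end gen

variable {R K : Type} [CommRing R] [IsDomain R] [IsDiscreteValuationRing R] [Field K] [Algebra R K] {ϖ : R} {q : ℕ}
  {ι : Type} [Fintype ι] [DecidableEq ι] {P Q M N : Submodule R (ι → K)} {A B : Matrix ι ι K}

theorem l1c_ac_St {U V : Matrix ι ι R} (h1 : U * V = 1) : ac (U.map (algebraMap R K)) (St R K ι) = St R K ι := by
  ext x
  rw [mem_ac, l1c_mem]
  constructor
  · rintro ⟨y, hy, rfl⟩
    rw [l1c_mem] at hy
    obtain ⟨z, rfl⟩ := hy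
    exact ⟨U *ᵥ z, (l1c_mulVec U z).symm⟩
  · rintro ⟨z, rfl⟩
    refine ⟨l1c_T R K ι (V *ᵥ z), l1c_mem.2 ⟨_, rfl⟩, ?_⟩
    rw [l1c_mulVec, mulVec_mulVec, h1, one_mulVec]

/-- Smith normal form for sublattices of the standard lattice. -/
theorem l1c_core (h : LF R K ϖ q) (hN : N ≤ St R K ι) (k : ℕ) (hk : ∀ x ∈ St R K ι, ϖ ^ k • x ∈ N) :
    ∃ (U V : Matrix ι ι K) (a : ι → ℕ), U * V = 1 ∧ V * U = 1 ∧ ac U (St R K ι) = St R K ι ∧
      N = ac (U * diagonal fun i => algebraMap R K ϖ ^ a i) (St R K ι) := by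
  classical
  obtain ⟨N₀, hN₀⟩ : ∃ N₀ : Submodule R (ι → R), N₀ = N.comap (l1c_T R K ι) := ⟨_, rfl⟩
  have hr : Module.finrank R N₀ = Module.finrank R (ι → R) := by
    apply le_antisymm (Submodule.finrank_le N₀)
    let f : (ι → R) →ₗ[R] N₀ := LinearMap.codRestrict N₀ (ϖ ^ k • LinearMap.id) (by
      intro y
      rw [hN₀, Submodule.mem_comap]
      have := hk (l1c_T R K ι y) (l1c_mem.2 ⟨y, rfl⟩)
      rw [← map_smul] at this
      exact this)
    have hf : Function.Injective f := by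
      intro x y hxy
      have h1 : ϖ ^ k • x = ϖ ^ k • y := congrArg Subtype.val hxy
      funext i
      have h2 := congrFun h1 i
      simp only [Pi.smul_apply, smul_eq_mul] at h2
      exact mul_left_cancel₀ (pow_ne_zero _ h.dv.irr.ne_zero) h2
    exact LinearMap.finrank_le_finrank_of_injective hf
  obtain ⟨b, c, b', hb⟩ := Submodule.exists_smith_normal_form_of_rank_eq (Pi.basisFun R ι) hr
  have hc : ∀ i, c i ≠ 0 := by
    intro i hi
    have h1 := hb i
    rw [hi, zero_smul] at h1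
    exact b'.ne_zero i (Subtype.ext h1)
  have hu : ∀ i, ∃ (a : ℕ) (u : Rˣ), c i = u * ϖ ^ a := fun i =>
    IsDiscreteValuationRing.eq_unit_mul_pow_irreducible (hc i) h.dv.irr
  choose a u hau using hu
  have hUV : (Pi.basisFun R ι).toMatrix b * b.toMatrix (Pi.basisFun R ι) = 1 :=
    Module.Basis.toMatrix_mul_toMatrix_flip _ _
  have hVU : b.toMatrix (Pi.basisFun R ι) * (Pi.basisFun R ι).toMatrix b = 1 :=
    Module.Basis.toMatrix_mul_toMatrix_flip _ _
  set U := (Pi.basisFun R ι).toMatrix b with hU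
  set V := b.toMatrix (Pi.basisFun R ι) with hV
  have hUv : ∀ v : ι → R, U *ᵥ v = ∑ j, v j • b j := by
    intro v
    funext i
    rw [Finset.sum_apply]
    unfold Matrix.mulVec dotProduct
    refine Finset.sum_congr rfl fun j _ => ?_
    rw [Pi.smul_apply, smul_eq_mul, mul_comm]
    rfl
  have hmem : ∀ y : ι → R, y ∈ N₀ ↔ ∃ v : ι → R, U *ᵥ (fun i => ϖ ^ a i * v i) = y := by
    intro y
    constructor
    · intro hy
      refine ⟨fun i => u i * b'.repr ⟨y, hy⟩ i, ?_⟩
      rw [hUv]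
      have h1 := congrArg Subtype.val (b'.sum_repr ⟨y, hy⟩)
      rw [Submodule.coe_sum] at h1
      refine Eq.trans ?_ h1
      refine Finset.sum_congr rfl fun j _ => ?_
      rw [Submodule.coe_smul, hb, smul_smul, hau]
      congr 1
      ring
    · rintro ⟨v, rfl⟩
      rw [hUv]
      refine Submodule.sum_mem _ fun j _ => ?_
      have h1 : (ϖ ^ a j * v j) • b j = ((↑(u j)⁻¹ : R) * v j) • (b' j : ι → R) := by
        rw [hb, smul_smul, hau]
        congr 1
        have := Units.inv_mul (u j)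
        linear_combination (-(v j * ϖ ^ a j)) * this
      rw [h1]
      exact Submodule.smul_mem _ _ (b' j).2
  refine ⟨U.map (algebraMap R K), V.map (algebraMap R K), a, ?_, ?_, l1c_ac_St hUV, ?_⟩
  · rw [← Matrix.map_mul, hUV, Matrix.map_one _ (map_zero _) (map_one _)]
  · rw [← Matrix.map_mul, hVU, Matrix.map_one _ (map_zero _) (map_one _)]
  · have hd : ∀ v : ι → R, (diagonal fun i => algebraMap R K ϖ ^ a i) *ᵥ (l1c_T R K ι v) =
        l1c_T R K ι (fun i => ϖ ^ a i * v i) := by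
      intro v
      funext i
      rw [mulVec_diagonal]
      change _ = algebraMap R K (ϖ ^ a i * v i)
      rw [map_mul, map_pow]
      rfl
    ext x
    rw [mem_ac]
    constructor
    · intro hx
      obtain ⟨y, rfl⟩ := l1c_mem.1 (hN hx)
      have hy : y ∈ N₀ := by
        rw [hN₀]
        exact hx
      obtain ⟨v, hv⟩ := (hmem y).1 hy
      refine ⟨l1c_T R K ι v, l1c_mem.2 ⟨v, rfl⟩, ?_⟩
      rw [← mulVec_mulVec, hd, l1c_mulVec, hv]
    · rintro ⟨z, hz, rfl⟩
      obtain ⟨v, rfl⟩ := l1c_mem.1 hz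
      rw [← mulVec_mulVec, hd, l1c_mulVec]
      have hy := (hmem _).2 ⟨v, rfl⟩
      rw [hN₀] at hy
      exact hy

/-- The matrix of a lattice. -/
theorem l1c_basis (h : LF R K ϖ q) (hM : IsLa ϖ M) :
    ∃ A B : Matrix ι ι K, A * B = 1 ∧ B * A = 1 ∧ M = ac A (St R K ι) := by
  classical
  obtain ⟨m, h1, h2⟩ := hM
  have hp : algebraMap R K ϖ ^ m ≠ 0 := pow_ne_zero _ (pi_ne h)
  obtain ⟨N, hN⟩ : ∃ N : Submodule R (ι → K), N = ac ((algebraMap R K ϖ ^ m) • (1 : Matrix ι ι K)) M := ⟨_, rfl⟩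
  have hs : ∀ x : ι → K, ((algebraMap R K ϖ ^ m) • (1 : Matrix ι ι K)) *ᵥ x = ϖ ^ m • x := by
    intro x
    rw [smul_mulVec, one_mulVec]
    funext i
    rw [Pi.smul_apply, Pi.smul_apply, smul_eq_mul, Algebra.smul_def, map_pow]
  have hNS : N ≤ St R K ι := by
    intro x hx
    rw [hN, mem_ac] at hx
    obtain ⟨y, hy, rfl⟩ := hx
    rw [hs]
    exact h2 y hy
  have hNk : ∀ x ∈ St R K ι, ϖ ^ (m + m) • x ∈ N := by
    intro x hx
    rw [hN, mem_ac]
    refine ⟨ϖ ^ m • x, h1 x hx, ?_⟩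
    rw [hs, smul_smul, pow_add]
  obtain ⟨U, V, a, hUV, hVU, -, hNe⟩ := l1c_core h hNS _ hNk
  have hd1 : (diagonal fun i => algebraMap R K ϖ ^ a i : Matrix ι ι K) *
      (diagonal fun i => (algebraMap R K ϖ ^ a i)⁻¹) = 1 := by
    rw [diagonal_mul_diagonal, ← diagonal_one]
    congr 1
    funext i
    exact mul_inv_cancel₀ (pow_ne_zero _ (pi_ne h))
  have hd2 : (diagonal fun i => (algebraMap R K ϖ ^ a i)⁻¹ : Matrix ι ι K) *
      (diagonal fun i => algebraMap R K ϖ ^ a i) = 1 := by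
    rw [diagonal_mul_diagonal, ← diagonal_one]
    congr 1
    funext i
    exact inv_mul_cancel₀ (pow_ne_zero _ (pi_ne h))
  refine ⟨((algebraMap R K ϖ ^ m)⁻¹ • (1 : Matrix ι ι K)) * (U * diagonal fun i => algebraMap R K ϖ ^ a i),
    ((diagonal fun i => (algebraMap R K ϖ ^ a i)⁻¹) * V) * ((algebraMap R K ϖ ^ m) • (1 : Matrix ι ι K)), ?_, ?_, ?_⟩
  · have e : U * (diagonal fun i => algebraMap R K ϖ ^ a i) * ((diagonal fun i => (algebraMap R K ϖ ^ a i)⁻¹) * V) = 1 := by
      rw [mul_assoc, ← mul_assoc (diagonal _) (diagonal _) V, hd1, one_mul, hUV]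
    rw [mul_assoc, ← mul_assoc (U * _), e, one_mul, smul_mul_smul_comm, one_mul, inv_mul_cancel₀ hp, one_smul]
  · have e : ((algebraMap R K ϖ ^ m) • (1 : Matrix ι ι K)) * ((algebraMap R K ϖ ^ m)⁻¹ • (1 : Matrix ι ι K)) = 1 := by
      rw [smul_mul_smul_comm, one_mul, mul_inv_cancel₀ hp, one_smul]
    rw [mul_assoc, ← mul_assoc (_ • (1 : Matrix ι ι K)) (_ • (1 : Matrix ι ι K)), e, one_mul, mul_assoc,
      ← mul_assoc V, hVU, one_mul, hd2]
  · rw [ac_mul, ← hNe, hN, ← ac_mul, smul_mul_smul_comm, one_mul, inv_mul_cancel₀ hp, one_smul, ac_one]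

/-- `M` is a finitely generated torsion-free module over the principal ideal domain `R` (`x ↦ ϖ ^ m x` embeds it into `St R K ι`, which is free of rank `|ι|`), so it is free; its rank is
`|ι|` because `ϖ ^ m St ⊆ M`. The same holds for `P`. By the Smith normal form (`Submodule.exists_smith_normal_form_of_rank_eq`, `Submodule.smithNormalForm`, or
`H89N.exists_smith` for the matrix of a basis of `P` in a basis of `M`) there are a basis `(b_i)` of `M` and elements `c_i ≠ 0` of `R` such that `(c_i b_i)` is a basis of `P`; `c_i` is a unit times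
`ϖ ^ (a_i)`. `A` = the matrix with the columns `b_i` (invertible over `K` since the `b_i` are linearly independent over `R`, hence over `K` by `h.frac`). The general index type `ι` can be transported from `Fin n`. -/
theorem exists_adapted (h : LF R K ϖ q) (hP : IsLa ϖ P) (hM : IsLa ϖ M) (hPM : P ≤ M) :
    ∃ (A B : Matrix ι ι K) (a : ι → ℕ), A * B = 1 ∧ B * A = 1 ∧ M = ac A (St R K ι) ∧
      P = ac (A * diagonal fun i => algebraMap R K ϖ ^ a i) (St R K ι) := by
  obtain ⟨A, B, hAB, hBA, hMA⟩ := l1c_basis h hM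
  have hN : ac B P ≤ St R K ι := by
    have h1 : ac B P ≤ ac B M := ac_mono hPM
    rwa [hMA, ← ac_mul, hBA, ac_one] at h1
  obtain ⟨k, hk, -⟩ := la_ac h hBA hP
  obtain ⟨U, V, a, hUV, hVU, hUS, hNe⟩ := l1c_core h hN k hk
  refine ⟨A * U, V * B, a, ?_, ?_, ?_, ?_⟩
  · rw [mul_assoc, ← mul_assoc U, hUV, one_mul, hAB]
  · rw [mul_assoc, ← mul_assoc B, hBA, one_mul, hVU]
  · rw [ac_mul, hUS, hMA]
  · rw [mul_assoc, ac_mul, ← hNe, ← ac_mul, hAB, ac_one]

theorem exists_basis (h : LF R K ϖ q) (hM : IsLa ϖ M) :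
    ∃ A B : Matrix ι ι K, A * B = 1 ∧ B * A = 1 ∧ M = ac A (St R K ι) := by
  obtain ⟨A, B, _, h1, h2, h3, _⟩ := exists_adapted h hM hM le_rfl
  exact ⟨A, B, h1, h2, h3⟩

end

end Pool.Agent.Lib.H67G
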