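import Pool.Agent.Lib.H89N.LD1
import Pool.Agent.Lib.H67G.L1C

/-!
# L1D (M): indices of lattices
-/

namespace Pool.Agent.Lib.H67G

open Matrix Pool.Agent.Lib.H89N

noncomputable section

variable {R K : Type} [CommRing R] [IsDomain R] [IsDiscreteValuationRing R] [Field K] [Algebra R K] {ϖ : R} {q : ℕ}
  {ι : Type} [Fintype ι] [DecidableEq ι] {P Q M N : Submodule R (ι → K)} {A B : Matrix ι ι K}

/-!
`ix P M = [M : P ∩ M]`, `dg q P M` its logarithm.

* `ix_diag`: the quotient `R ^ ι / diag(ϖ ^ a_i) R ^ ι` is the product of the `R / ϖ ^ (a_i)` (compare `H89N.ld4_diag`, `H89N.index_span`: the index of `ϖ ^ a R` in `R` is `q ^ a`).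
* `ix_ac`: `A` is a bijection (`AddSubgroup.relIndex_map_map_of_injective` or `relIndex_comap`).
* `ix_eq`: `ix P M = ix (P ⊓ M) M`, then `exists_adapted` for `P ⊓ M ≤ M`, `ix_ac` and `ix_diag`: a power of `q`; `q ≥ 2` gives the logarithm (`Nat.log_pow`).
* `dg_add`: `AddSubgroup.relIndex_mul_relIndex`. `dg_zero_iff`: index `1`. `dg_sup`: `AddSubgroup.relIndex_sup_right`.
* `pow_smul_mem`: with an adapted basis, `a_i ≤ ∑ a_i = dg q P M`.
-/

/-- The embedding of `R ^ ι` into `K ^ ι`. -/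
def l1d_f (R K ι : Type) [CommRing R] [Field K] [Algebra R K] : (ι → R) →+ (ι → K) where
  toFun v i := algebraMap R K (v i)
  map_zero' := by
    funext i
    exact map_zero _
  map_add' v w := by
    funext i
    exact map_add _ _ _

omit [IsDomain R] [IsDiscreteValuationRing R] [Fintype ι] [DecidableEq ι] in
theorem l1d_range : (l1d_f R K ι).range = (St R K ι).toAddSubgroup := by
  ext x
  constructor
  · rintro ⟨v, rfl⟩
    exact fun i => ⟨v i, rfl⟩
  · intro hx
    have hx' : ∀ i, ∃ r : R, algebraMap R K r = x i := hx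
    choose v hv using hx'
    exact ⟨v, funext hv⟩

theorem ix_diag (h : LF R K ϖ q) (a : ι → ℕ) :
    ix (ac (diagonal fun i => algebraMap R K ϖ ^ a i) (St R K ι)) (St R K ι) = q ^ ∑ i, a i := by
  let Φ : (ι → R) →+ (∀ i : ι, R ⧸ (Ideal.span {ϖ ^ a i} : Ideal R)) :=
    { toFun := fun v i => Ideal.Quotient.mk _ (v i)
      map_zero' := by
        funext i
        exact map_zero _
      map_add' := fun v w => by
        funext i
        exact map_add _ _ _ }
  have h1 : (ac (diagonal fun i => algebraMap R K ϖ ^ a i) (St R K ι)).toAddSubgroup.comap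
      (l1d_f R K ι) = Φ.ker := by
    ext v
    rw [AddMonoidHom.mem_ker, AddSubgroup.mem_comap]
    constructor
    · rintro ⟨w, hw, hwv⟩
      funext i
      obtain ⟨c, hc⟩ := hw i
      have h2 : (diagonal (fun i => algebraMap R K ϖ ^ a i) *ᵥ w) i = algebraMap R K (v i) :=
        congrFun hwv i
      rw [mulVec_diagonal, ← hc, ← map_pow, ← map_mul] at h2
      change Ideal.Quotient.mk (Ideal.span {ϖ ^ a i}) (v i) = 0
      rw [Ideal.Quotient.eq_zero_iff_mem, Ideal.mem_span_singleton, ← h.inj h2]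
      exact dvd_mul_right _ _
    · intro hv
      have h2 : ∀ i, ∃ c : R, v i = ϖ ^ a i * c := by
        intro i
        have h3 : Ideal.Quotient.mk (Ideal.span {ϖ ^ a i}) (v i) = 0 := congrFun hv i
        rw [Ideal.Quotient.eq_zero_iff_mem, Ideal.mem_span_singleton] at h3
        exact h3
      choose c hc using h2
      refine ⟨fun i => algebraMap R K (c i), fun i => ⟨c i, rfl⟩, ?_⟩
      funext i
      change (diagonal (fun i => algebraMap R K ϖ ^ a i) *ᵥ fun i => algebraMap R K (c i)) i =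
        algebraMap R K (v i)
      rw [mulVec_diagonal, hc i, map_mul, map_pow]
  unfold ix
  rw [← l1d_range, ← AddSubgroup.index_comap, h1, AddSubgroup.index_ker]
  have h2 : Φ.range = ⊤ := by
    rw [AddMonoidHom.range_eq_top]
    intro y
    have h3 : ∀ i, ∃ x : R, Ideal.Quotient.mk (Ideal.span {ϖ ^ a i}) x = y i := fun i =>
      Ideal.Quotient.mk_surjective (y i)
    choose x hx using h3
    exact ⟨x, funext hx⟩
  rw [h2]
  have h3 : Nat.card (⊤ : AddSubgroup (∀ i : ι, R ⧸ (Ideal.span {ϖ ^ a i} : Ideal R))) =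
      Nat.card (∀ i : ι, R ⧸ (Ideal.span {ϖ ^ a i} : Ideal R)) := AddSubgroup.card_top
  rw [h3, Nat.card_pi, ← Finset.prod_pow_eq_pow_sum]
  refine Finset.prod_congr rfl fun i _ => ?_
  exact index_span h.dv (a i)

theorem ix_ac (hAB : A * B = 1) : ix (ac A P) (ac A M) = ix P M := by
  have hBA : B * A = 1 := mul_eq_one_comm.1 hAB
  have h1 : ∀ X : Submodule R (ι → K), (ac A X).toAddSubgroup =
      X.toAddSubgroup.map (A.mulVecLin.restrictScalars R).toAddMonoidHom := fun X => rfl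
  unfold ix
  rw [h1, h1, AddSubgroup.relIndex_map_map_of_injective]
  intro x y hxy
  have h2 : A *ᵥ x = A *ᵥ y := hxy
  have h3 : B *ᵥ (A *ᵥ x) = B *ᵥ (A *ᵥ y) := by rw [h2]
  rwa [mulVec_mulVec, mulVec_mulVec, hBA, one_mulVec, one_mulVec] at h3

theorem dg_ac (hAB : A * B = 1) : dg q (ac A P) (ac A M) = dg q P M := by
  rw [dg, dg, ix_ac hAB]

theorem dg_diag (h : LF R K ϖ q) (hAB : A * B = 1) (a : ι → ℕ) :
    dg q (ac (A * diagonal fun i => algebraMap R K ϖ ^ a i) (St R K ι)) (ac A (St R K ι)) = ∑ i, a i := by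
  rw [ac_mul, dg_ac hAB, dg, ix_diag h, Nat.log_pow h.dv.two]

theorem l1d_inf_ix (P M : Submodule R (ι → K)) : ix (P ⊓ M) M = ix P M :=
  AddSubgroup.inf_relIndex_right P.toAddSubgroup M.toAddSubgroup

theorem ix_eq (h : LF R K ϖ q) (hP : IsLa ϖ P) (hM : IsLa ϖ M) : ix P M = q ^ dg q P M := by
  obtain ⟨A, B, a, hAB, -, h1, h2⟩ := exists_adapted h (la_inf hP hM) hM inf_le_right
  have h3 : ix (P ⊓ M) M = q ^ ∑ i, a i := by
    rw [h2, h1, ac_mul, ix_ac hAB, ix_diag h]
  rw [l1d_inf_ix] at h3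
  rw [dg, h3, Nat.log_pow h.dv.two]

theorem dg_self : dg q M M = 0 := by
  unfold dg ix
  rw [AddSubgroup.relIndex_self, Nat.log_one_right]

theorem dg_inf : dg q (P ⊓ M) M = dg q P M := by
  rw [dg, dg, l1d_inf_ix]

theorem dg_sup : dg q P (P ⊔ M) = dg q P M := by
  have h1 : ix P (P ⊔ M) = ix P M := by
    unfold ix
    rw [Submodule.sup_toAddSubgroup]
    exact AddSubgroup.relIndex_sup_left _ _
  rw [dg, dg, h1]

theorem dg_add (h : LF R K ϖ q) (hP : IsLa ϖ P) (hM : IsLa ϖ M) (h1 : P ≤ Q) (h2 : Q ≤ M) :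
    dg q P M = dg q P Q + dg q Q M := by
  have hQ : IsLa ϖ Q := la_mid hP hM h1 h2
  have h3 : ix P Q * ix Q M = ix P M :=
    AddSubgroup.relIndex_mul_relIndex P.toAddSubgroup Q.toAddSubgroup M.toAddSubgroup h1 h2
  rw [ix_eq h hP hQ, ix_eq h hQ hM, ix_eq h hP hM, ← pow_add] at h3
  exact (Nat.pow_right_injective h.dv.two h3).symm

theorem dg_zero_iff (h : LF R K ϖ q) (hP : IsLa ϖ P) (hM : IsLa ϖ M) : dg q P M = 0 ↔ M ≤ P := by
  have h1 := ix_eq h hP hM
  constructor
  · intro h0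
    rw [h0, pow_zero] at h1
    exact AddSubgroup.relIndex_eq_one.1 h1
  · intro hMP
    have h2 : ix P M = 1 := AddSubgroup.relIndex_eq_one.2 hMP
    rw [dg, h2, Nat.log_one_right]

theorem pow_smul_mem (h : LF R K ϖ q) (hP : IsLa ϖ P) (hM : IsLa ϖ M) (hPM : P ≤ M) {x : ι → K} (hx : x ∈ M) :
    ϖ ^ dg q P M • x ∈ P := by
  obtain ⟨A, B, a, hAB, -, h1, h2⟩ := exists_adapted h hP hM hPM
  have h3 : dg q P M = ∑ i, a i := by
    rw [h2, h1, dg_diag h hAB]
  rw [h3]
  rw [h1, mem_ac] at hx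
  obtain ⟨y, hy, rfl⟩ := hx
  rw [h2, ac_mul, mem_ac]
  refine ⟨ϖ ^ (∑ i, a i) • y, ?_, ?_⟩
  · rw [mem_ac]
    refine ⟨fun i => algebraMap R K ϖ ^ ((∑ i, a i) - a i) * y i, ?_, ?_⟩
    · rw [mem_St]
      intro i
      exact in_mul (in_pow (in_alg ϖ) _) (mem_St.1 hy i)
    · funext i
      rw [mulVec_diagonal, Pi.smul_apply, Algebra.smul_def, map_pow, ← mul_assoc, ← pow_add,
        Nat.add_sub_cancel' (Finset.single_le_sum (fun _ _ => Nat.zero_le _) (Finset.mem_univ i))]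
  · exact mulVec_smul _ _ _

end

end Pool.Agent.Lib.H67G
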