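import Pool.Agent.Lib.H67G.L1D

/-!
# L1F (M): duality of lattices
-/

namespace Pool.Agent.Lib.H67G

open Matrix Pool.Agent.Lib.H89N

noncomputable section

variable {R K : Type} [CommRing R] [IsDomain R] [IsDiscreteValuationRing R] [Field K] [Algebra R K] {ϖ : R} {q : ℕ}
  {ι : Type} [Fintype ι] [DecidableEq ι] {P Q M N : Submodule R (ι → K)} {A B : Matrix ι ι K}

/-!
`du_ac`: `x ∈ du (A M)` iff `x ⬝ A y = (Aᵀ x) ⬝ y ∈ R` for `y ∈ M` iff `Aᵀ x ∈ du M` iff `x ∈ Bᵀ du M` (`(Aᵀ) (Bᵀ) = (B A)ᵀ = 1`). `du_St`: test with the unit vectors.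
With a basis `M = ac A St` (`exists_basis`): `du M = ac Bᵀ St`, `du (du M) = ac A St = M`, `du M` is a lattice. `du_inf`: from `du_sup` for the dual lattices and `du_du`.
`dg_du`: adapted basis `P = ac (A D) St`: `du M = ac Bᵀ St`, `du P = ac (Bᵀ D⁻¹) St`, so `ac D⁻¹ St ⊇ St`, and `[D⁻¹ St : St] = [St : D St]` (`ix_ac` with `D`).
`exists_sep`: otherwise `x ∈ du (du M) = M`.
-/

theorem mem_du {x : ι → K} : x ∈ du M ↔ ∀ y ∈ M, In R (x ⬝ᵥ y) := Iff.rfl

theorem du_anti (h : P ≤ M) : du M ≤ du P := fun _ hx y hy => hx y (h hy)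

theorem l1f_tr (hAB : A * B = 1) : Bᵀ * Aᵀ = 1 := by
  rw [← transpose_mul, hAB, transpose_one]

theorem du_ac (hAB : A * B = 1) : du (ac A M) = ac Bᵀ (du M) := by
  ext x
  rw [mem_ac_inv (l1f_tr hAB), mem_du, mem_du]
  constructor
  · intro h y hy
    rw [mulVec_transpose, ← dotProduct_mulVec]
    exact h _ (mem_ac.2 ⟨y, hy, rfl⟩)
  · intro h y hy
    obtain ⟨z, hz, rfl⟩ := mem_ac.1 hy
    have h1 := h z hz
    rwa [mulVec_transpose, ← dotProduct_mulVec] at h1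

theorem du_St : du (St R K ι) = St R K ι := by
  ext x
  rw [mem_du, mem_St]
  constructor
  · intro h i
    have h1 := h _ (single_St i)
    rwa [dotProduct_single, mul_one] at h1
  · intro h y hy
    exact in_dot h (mem_St.1 hy)

theorem la_du (h : LF R K ϖ q) (hM : IsLa ϖ M) : IsLa ϖ (du M) := by
  obtain ⟨A, B, hAB, -, rfl⟩ := exists_basis h hM
  rw [du_ac hAB, du_St]
  exact la_ac h (l1f_tr hAB) la_St

theorem du_du (h : LF R K ϖ q) (hM : IsLa ϖ M) : du (du M) = M := by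
  obtain ⟨A, B, hAB, -, rfl⟩ := exists_basis h hM
  rw [du_ac hAB, du_St, du_ac (l1f_tr hAB), du_St, transpose_transpose]

theorem du_sup : du (M ⊔ N) = du M ⊓ du N := by
  apply le_antisymm
  · exact le_inf (du_anti le_sup_left) (du_anti le_sup_right)
  · intro x hx y hy
    obtain ⟨u, hu, v, hv, rfl⟩ := Submodule.mem_sup.1 hy
    rw [dotProduct_add]
    exact in_add (hx.1 u hu) (hx.2 v hv)

theorem du_inf (h : LF R K ϖ q) (hM : IsLa ϖ M) (hN : IsLa ϖ N) : du (M ⊓ N) = du M ⊔ du N := by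
  have h1 : M ⊓ N = du (du M ⊔ du N) := by
    rw [du_sup, du_du h hM, du_du h hN]
  rw [h1, du_du h (la_sup (la_du h hM) (la_du h hN))]

theorem dg_du (h : LF R K ϖ q) (hP : IsLa ϖ P) (hM : IsLa ϖ M) (hPM : P ≤ M) : dg q (du M) (du P) = dg q P M := by
  obtain ⟨A, B, a, hAB, -, h1, h2⟩ := exists_adapted h hP hM hPM
  have h3 : dg q P M = ∑ i, a i := by
    rw [h2, h1, dg_diag h hAB]
  have hDE : (diagonal fun i => algebraMap R K ϖ ^ a i) * (diagonal fun i => (algebraMap R K ϖ ^ a i)⁻¹) = 1 := by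
    rw [diagonal_mul_diagonal, ← diagonal_one]
    exact congrArg diagonal (funext fun i => mul_inv_cancel₀ (pow_ne_zero _ (pi_ne h)))
  have h4 : du P = ac Bᵀ (ac (diagonal fun i => (algebraMap R K ϖ ^ a i)⁻¹) (St R K ι)) := by
    rw [h2, ac_mul, du_ac hAB, du_ac hDE, du_St, diagonal_transpose]
  have h5 : du M = ac Bᵀ (St R K ι) := by
    rw [h1, du_ac hAB, du_St]
  rw [h3, h4, h5, dg_ac (l1f_tr hAB), ← dg_ac hDE, ← ac_mul, hDE, ac_one, dg, ix_diag h, Nat.log_pow h.dv.two]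

theorem exists_sep (h : LF R K ϖ q) (hM : IsLa ϖ M) {x : ι → K} (hx : x ∉ M) : ∃ y ∈ du M, ¬In R (y ⬝ᵥ x) := by
  by_contra hc
  apply hx
  rw [← du_du h hM]
  intro y hy
  by_contra h1
  rw [dotProduct_comm] at h1
  exact hc ⟨y, hy, h1⟩

end

end Pool.Agent.Lib.H67G
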