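import Pool.Agent.Lib.H67G.L1D

/-!
# L1G (M): a basis which starts with e_1
-/

namespace Pool.Agent.Lib.H67G

open Matrix Pool.Agent.Lib.H89N

noncomputable section

variable {R K : Type} [CommRing R] [IsDomain R] [IsDiscreteValuationRing R] [Field K] [Algebra R K] {ϖ : R} {q : ℕ}
  {n : ℕ} {P Q M N : Submodule R (Fin n → K)} {A B : Matrix (Fin n) (Fin n) K}

theorem l1g_dvd (h : LF R K ϖ q) {r : R} (hr : ¬ IsUnit r) : ∃ d, r = ϖ * d := by
  have h1 : r ∈ IsLocalRing.maximalIdeal R := (IsLocalRing.mem_maximalIdeal r).mpr hr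
  rw [h.dv.irr.maximalIdeal_eq, Ideal.mem_span_singleton] at h1
  exact h1

/-- an integral rank one perturbation of the identity preserves the standard lattice -/
theorem l1g_St {G H : Matrix (Fin n) (Fin n) K} (hGH : G * H = 1)
    (hG : ∀ i j, In R (G i j)) (hH : ∀ i j, In R (H i j)) :
    ac G (St R K (Fin n)) = St R K (Fin n) := by
  ext x
  rw [mem_ac_inv hGH]
  constructor
  · intro hx i
    have h1 : x = G *ᵥ (H *ᵥ x) := by rw [mulVec_mulVec, hGH, one_mulVec]
    rw [h1]
    exact in_dot (fun j => hG i j) (fun j => hx j)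
  · intro hx i
    exact in_dot (fun j => hH i j) (fun j => hx j)

theorem l1g_mat {u w : Fin n → K} {s s' : K} (hs : s * s' = 1) (hw : w ⬝ᵥ u = s - 1) :
    (1 + vecMulVec u w) * (1 - s' • vecMulVec u w) = 1 := by
  have h1 : vecMulVec u w * vecMulVec u w = (s - 1) • vecMulVec u w := by
    ext i j
    simp only [Matrix.mul_apply, vecMulVec_apply, Matrix.smul_apply, smul_eq_mul]
    rw [← hw]
    simp only [dotProduct, Finset.sum_mul]
    refine Finset.sum_congr rfl fun k _ => ?_
    ring
  rw [add_mul, one_mul, mul_sub, mul_one, Matrix.mul_smul, h1, smul_smul]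
  have h2 : s' * (s - 1) = 1 - s' := by linear_combination hs
  rw [h2, sub_smul, one_smul]
  abel

/-- `P = ac A₀ St` (`exists_basis`), `e_1 = A₀ c`, `c ∈ R ^ n`. Some `c_j` is a unit of `R`: otherwise all the `c_j` are divisible by `ϖ` and `e_1 / ϖ ∈ P ⊆ R ^ n`, which is false.
Let `G ∈ GL_n(R)` be a matrix with the first column `c`: the columns are `c` (in place `0`), `e_0` (in place `j`, if `j ≠ 0`) and `e_i` in the other places `i`; its determinant is `± c_j`, a unit of `R`.
`A = A₀ G`: `ac G St = St`. -/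
theorem exists_basis_first [NeZero n] (h : LF R K ϖ q) (hP : IsLa ϖ P) (h1 : e1 n K ∈ P) (h2 : P ≤ St R K (Fin n)) :
    ∃ A B : Matrix (Fin n) (Fin n) K, A * B = 1 ∧ B * A = 1 ∧ P = ac A (St R K (Fin n)) ∧ A *ᵥ e1 n K = e1 n K := by
  obtain ⟨A, B, hAB, hBA, hPA⟩ := exists_basis h hP
  have h3 := h1
  rw [hPA, mem_ac] at h3
  obtain ⟨y, hy, hAy⟩ := h3
  choose c hc using fun i => hy i
  -- some c j is a unit
  have hunit : ∃ j, IsUnit (c j) := by
    by_contra hcon
    push Not at hcon
    choose d hd using fun j => l1g_dvd h (hcon j)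
    have hyd : y = ϖ • (fun j => algebraMap R K (d j)) := by
      funext j
      rw [Pi.smul_apply, Algebra.smul_def, ← map_mul, ← hd j, hc j]
    have h4 : A *ᵥ (fun j => algebraMap R K (d j)) ∈ P := by
      rw [hPA, mem_ac]
      exact ⟨_, fun j => ⟨d j, rfl⟩, rfl⟩
    obtain ⟨r, hr⟩ := h2 h4 0
    have h5 : e1 n K 0 = algebraMap R K (ϖ * r) := by
      rw [← hAy, hyd, mulVec_smul, Pi.smul_apply, ← hr, Algebra.smul_def, map_mul]
    have h6 : algebraMap R K 1 = algebraMap R K (ϖ * r) := by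
      rw [← h5, map_one]
      simp [e1]
    exact h.dv.irr.not_isUnit (IsUnit.of_mul_eq_one r (h.inj h6).symm)
  -- the functional w
  obtain ⟨w, hw0, hws⟩ : ∃ w : Fin n → R, w 0 = 1 ∧ IsUnit (∑ i, w i * c i) := by
    by_cases h0 : IsUnit (c 0)
    · refine ⟨Pi.single 0 1, by simp, ?_⟩
      have : ∑ i, (Pi.single 0 1 : Fin n → R) i * c i = c 0 := by
        rw [Finset.sum_eq_single 0]
        · simp
        · intro b _ hb
          rw [Pi.single_eq_of_ne hb, zero_mul]
        · simp
      rw [this]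
      exact h0
    · obtain ⟨j, hj⟩ := hunit
      have hj0 : j ≠ 0 := by
        rintro rfl
        exact h0 hj
      refine ⟨Pi.single 0 1 + Pi.single j 1, by simp [hj0.symm], ?_⟩
      have : ∑ i, (Pi.single 0 1 + Pi.single j 1 : Fin n → R) i * c i = c 0 + c j := by
        simp only [Pi.add_apply, add_mul, Finset.sum_add_distrib]
        congr 1
        · rw [Finset.sum_eq_single 0]
          · simp
          · intro b _ hb
            rw [Pi.single_eq_of_ne hb, zero_mul]
          · simp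
        · rw [Finset.sum_eq_single j]
          · simp
          · intro b _ hb
            rw [Pi.single_eq_of_ne hb, zero_mul]
          · simp
      rw [this]
      by_contra hcon
      have hm : c 0 + c j ∈ IsLocalRing.maximalIdeal R := (IsLocalRing.mem_maximalIdeal _).mpr hcon
      have hm0 : c 0 ∈ IsLocalRing.maximalIdeal R := (IsLocalRing.mem_maximalIdeal _).mpr h0
      have hmj : c j ∈ IsLocalRing.maximalIdeal R := by
        have := Ideal.sub_mem _ hm hm0
        rwa [add_sub_cancel_left] at this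
      exact (IsLocalRing.mem_maximalIdeal _).mp hmj hj
  obtain ⟨s, hs⟩ := hws
  obtain ⟨W, hW⟩ : ∃ W : Fin n → K, W = fun i => algebraMap R K (w i) := ⟨_, rfl⟩
  obtain ⟨U, hU⟩ : ∃ U : Fin n → K, U = fun i => y i - e1 n K i := ⟨_, rfl⟩
  have hWe : W ⬝ᵥ e1 n K = 1 := by
    rw [e1, dotProduct_single, mul_one, hW]
    simp [hw0]
  have hWy : W ⬝ᵥ y = algebraMap R K (s : R) := by
    rw [hs, map_sum]
    simp only [dotProduct]
    refine Finset.sum_congr rfl fun i _ => ?_
    rw [hW, map_mul, hc i]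
  have hWU : W ⬝ᵥ U = algebraMap R K (s : R) - 1 := by
    have : U = y - e1 n K := by rw [hU]; rfl
    rw [this, dotProduct_sub, hWy, hWe]
  have hss : algebraMap R K (s : R) * algebraMap R K ((s⁻¹ : Rˣ) : R) = 1 := by
    rw [← map_mul, Units.mul_inv, map_one]
  have hGH := l1g_mat (n := n) hss hWU
  obtain ⟨G, hG⟩ : ∃ G : Matrix (Fin n) (Fin n) K, G = 1 + vecMulVec U W := ⟨_, rfl⟩
  obtain ⟨H, hH⟩ : ∃ H : Matrix (Fin n) (Fin n) K,
    H = 1 - algebraMap R K ((s⁻¹ : Rˣ) : R) • vecMulVec U W := ⟨_, rfl⟩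
  rw [← hG, ← hH] at hGH
  have hHG : H * G = 1 := mul_eq_one_comm.mp hGH
  have hone : ∀ i j : Fin n, In R ((1 : Matrix (Fin n) (Fin n) K) i j) := by
    intro i j
    rw [Matrix.one_apply]
    split_ifs
    · exact in_one
    · exact in_zero
  have he1 : ∀ i, In R (e1 n K i) := by
    intro i
    unfold e1
    rw [Pi.single_apply]
    split_ifs
    · exact in_one
    · exact in_zero
  have hUW : ∀ i j, In R (vecMulVec U W i j) := by
    intro i j
    rw [vecMulVec_apply, hU, hW]
    exact in_mul (in_sub (hy i) (he1 i)) (in_alg _)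
  have hGi : ∀ i j, In R (G i j) := by
    intro i j
    rw [hG, Matrix.add_apply]
    exact in_add (hone i j) (hUW i j)
  have hHi : ∀ i j, In R (H i j) := by
    intro i j
    rw [hH, Matrix.sub_apply, Matrix.smul_apply, smul_eq_mul]
    exact in_sub (hone i j) (in_mul (in_alg _) (hUW i j))
  have hGe : G *ᵥ e1 n K = y := by
    rw [hG, add_mulVec, one_mulVec]
    have : vecMulVec U W *ᵥ e1 n K = U := by
      funext i
      simp only [mulVec, dotProduct, vecMulVec_apply]
      have h7 : ∑ j, U i * W j * e1 n K j = U i * (W ⬝ᵥ e1 n K) := by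
        simp only [dotProduct, Finset.mul_sum, mul_assoc]
      rw [h7, hWe, mul_one]
    rw [this, hU]
    funext i
    simp
  refine ⟨A * G, H * B, ?_, ?_, ?_, ?_⟩
  · rw [Matrix.mul_assoc, ← Matrix.mul_assoc G H B, hGH, Matrix.one_mul, hAB]
  · rw [Matrix.mul_assoc, ← Matrix.mul_assoc B A G, hBA, Matrix.one_mul, hHG]
  · rw [ac_mul, l1g_St hGH hGi hHi]
    exact hPA
  · rw [← mulVec_mulVec, hGe, hAy]

end

end Pool.Agent.Lib.H67G
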