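import Pool.Agent.Lib.H67G.L1D

/-!
# L1H (M): unipotent matrices preserve the indices
-/

set_option linter.unusedSectionVars false

namespace Pool.Agent.Lib.H67G

open Matrix Pool.Agent.Lib.H89N

noncomputable section

variable {R K : Type} [CommRing R] [IsDomain R] [IsDiscreteValuationRing R] [Field K] [Algebra R K] {ϖ : R} {q : ℕ}
  {n : ℕ} {P Q M N : Submodule R (Fin n → K)} {A B : Matrix (Fin n) (Fin n) K}

/-!
`uu_inv`, `uu_mul`: unipotent upper triangular matrices form a group (determinant one, `Matrix.det_of_upperTriangular`; the inverse of a unit upper triangular matrix is upper triangular: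
`Matrix.blockTriangular_inv_of_blockTriangular`, or solve from below).

KEY FACT: if `X ≤ M` and `Y ≤ M` are lattices and `Y = ac A X` with `det A = 1`, then `dg q X M = dg q Y M`. Proof: take bases `M = ac C St`, `X = ac (C T) St` with `T ∈ M_n(R)`
(`X ≤ M`), `dg q X M` is the valuation of `det T` (`H89N.ix_range`, or: `dg q (ac (C T) St) (ac C St) = k` if `det T = u ϖ ^ k`, `u` a unit, by the Smith normal form of `T` and `ix_diag`);
`Y = ac (A C T) St = ac (C (C⁻¹ A C T)) St`, `T' = C⁻¹ A C T` has entries in `R` (as `Y ≤ M`) and the same determinant.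
`dg_uu_sub` is this fact. `dg_uu_sup`: `dg q P (ac A M) = dg q (ac A⁻¹ P) M` (`dg_ac`) and `ac A⁻¹ P ≤ M`, `P ≤ M`: the fact for `A⁻¹`.
-/

theorem uu_one : Uu (1 : Matrix (Fin n) (Fin n) K) := fun _ _ _ => rfl

theorem uu_mul (hA : Uu A) (hB : Uu B) : Uu (A * B) := by
  intro i j hij
  rw [Matrix.mul_apply, Finset.sum_eq_single i]
  · rw [hA i i le_rfl, hB i j hij, Matrix.one_apply_eq, one_mul]
  · intro k _ hk
    rcases lt_or_gt_of_ne hk with h1 | h1
    · rw [hA i k h1.le, Matrix.one_apply_ne (Ne.symm hk), zero_mul]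
    · have h2 : j ≠ k := (lt_of_le_of_lt hij h1).ne
      rw [hB k j (hij.trans h1.le), Matrix.one_apply_ne (Ne.symm h2), mul_zero]
  · intro h1
    exact absurd (Finset.mem_univ i) h1

theorem l1h_tri (hA : Uu A) : A.BlockTriangular id := by
  intro i j hij
  have hij' : j < i := hij
  rw [hA i j hij'.le, Matrix.one_apply_ne hij'.ne']

theorem l1h_det1 (hA : Uu A) : A.det = 1 := by
  rw [Matrix.det_of_isUpperTriangular (l1h_tri hA)]
  refine Finset.prod_eq_one fun i _ => ?_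
  rw [hA i i le_rfl, Matrix.one_apply_eq]

theorem uu_inv (hA : Uu A) : ∃ B : Matrix (Fin n) (Fin n) K, A * B = 1 ∧ B * A = 1 ∧ Uu B := by
  have hu : IsUnit A.det := by
    rw [l1h_det1 hA]
    exact isUnit_one
  have h1 : A * A⁻¹ = 1 := Matrix.mul_nonsing_inv A hu
  have h2 : A⁻¹ * A = 1 := Matrix.nonsing_inv_mul A hu
  refine ⟨A⁻¹, h1, h2, ?_⟩
  have : Invertible A := Matrix.invertibleOfIsUnitDet A hu
  have h3 : A⁻¹.BlockTriangular id := Matrix.blockTriangular_inv_of_blockTriangular (l1h_tri hA)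
  intro i j hij
  rcases lt_or_eq_of_le hij with h4 | h4
  · rw [h3 h4, Matrix.one_apply_ne h4.ne']
  · subst h4
    have h5 := congrFun (congrFun h1 j) j
    rw [Matrix.mul_apply, Finset.sum_eq_single j] at h5
    · rw [hA j j le_rfl, Matrix.one_apply_eq, one_mul] at h5
      rw [h5, Matrix.one_apply_eq]
    · intro k _ hk
      rcases lt_or_gt_of_ne hk with h6 | h6
      · rw [hA j k h6.le, Matrix.one_apply_ne (Ne.symm hk), zero_mul]
      · rw [h3 h6, mul_zero]
    · intro h6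
      exact absurd (Finset.mem_univ j) h6

theorem l1h_int {V : Matrix (Fin n) (Fin n) K} (hV : ac V (St R K (Fin n)) ≤ St R K (Fin n)) :
    ∃ V0 : Matrix (Fin n) (Fin n) R, V = V0.map (algebraMap R K) := by
  have h1 : ∀ i j, ∃ r : R, algebraMap R K r = V i j := by
    intro i j
    have h2 : V *ᵥ Pi.single j 1 ∈ St R K (Fin n) := hV ⟨Pi.single j 1, single_St j, rfl⟩
    have h3 := h2 i
    rw [Matrix.mulVec_single_one] at h3
    exact h3
  choose V0 hV0 using h1
  refine ⟨Matrix.of V0, ?_⟩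
  ext i j
  exact (hV0 i j).symm

theorem l1h_unit (h : LF R K ϖ q) {V W : Matrix (Fin n) (Fin n) K} (hVW : V * W = 1)
    (hV : ac V (St R K (Fin n)) ≤ St R K (Fin n)) (hW : ac W (St R K (Fin n)) ≤ St R K (Fin n)) :
    ∃ u : Rˣ, V.det = algebraMap R K u := by
  obtain ⟨V0, rfl⟩ := l1h_int hV
  obtain ⟨W0, rfl⟩ := l1h_int hW
  have h1 : V0.det * W0.det = 1 := by
    apply h.inj
    have h2 := congrArg Matrix.det hVW
    rw [Matrix.det_mul, Matrix.det_one] at h2
    rw [map_mul, map_one, RingHom.map_det, RingHom.map_det]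
    exact h2
  refine ⟨⟨V0.det, W0.det, h1, by rw [mul_comm]; exact h1⟩, ?_⟩
  exact (RingHom.map_det (algebraMap R K) V0).symm

theorem l1h_det (h : LF R K ϖ q) {C C' X X' : Matrix (Fin n) (Fin n) K} (hC : C * C' = 1)
    (hX : X * X' = 1) (hMC : M = ac C (St R K (Fin n))) (hPX : P = ac X (St R K (Fin n)))
    (hP : IsLa ϖ P) (hM : IsLa ϖ M) (hPM : P ≤ M) :
    ∃ u : Rˣ, X.det = algebraMap R K u * algebraMap R K ϖ ^ dg q P M * C.det := by
  have hC' : C' * C = 1 := mul_eq_one_comm.1 hC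
  have hX' : X' * X = 1 := mul_eq_one_comm.1 hX
  obtain ⟨A, B, a, hAB, hBA, h1, h2⟩ := exists_adapted h hP hM hPM
  have hd : dg q P M = ∑ i, a i := by
    rw [h2, h1, dg_diag h hAB]
  rw [hd]
  obtain ⟨D, hD⟩ : ∃ D : Matrix (Fin n) (Fin n) K, D = diagonal fun i => algebraMap R K ϖ ^ a i :=
    ⟨_, rfl⟩
  obtain ⟨D', hD'⟩ : ∃ D' : Matrix (Fin n) (Fin n) K,
    D' = diagonal fun i => (algebraMap R K ϖ ^ a i)⁻¹ := ⟨_, rfl⟩
  rw [← hD] at h2
  have hDD : D * D' = 1 := by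
    rw [hD, hD', diagonal_mul_diagonal, ← diagonal_one]
    congr 1
    funext i
    exact mul_inv_cancel₀ (pow_ne_zero _ (pi_ne h))
  have hDD' : D' * D = 1 := mul_eq_one_comm.1 hDD
  have hdetD : D.det = algebraMap R K ϖ ^ ∑ i, a i := by
    rw [hD, Matrix.det_diagonal, Finset.prod_pow_eq_pow_sum]
  obtain ⟨u1, hu1⟩ := l1h_unit (R := R) h (V := C' * A) (W := B * C)
    (by rw [mul_assoc, ← mul_assoc A, hAB, one_mul, hC'])
    (by rw [ac_mul, ← h1, hMC, ← ac_mul, hC', ac_one])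
    (by rw [ac_mul, ← hMC, h1, ← ac_mul, hBA, ac_one])
  obtain ⟨u2, hu2⟩ := l1h_unit (R := R) h (V := X' * (A * D)) (W := D' * B * X)
    (by rw [mul_assoc X', mul_assoc A, ← mul_assoc D, ← mul_assoc D, hDD, one_mul, ← mul_assoc A,
      hAB, one_mul, hX'])
    (by rw [ac_mul, ← h2, hPX, ← ac_mul, hX', ac_one])
    (by rw [ac_mul, ← hPX, h2, ← ac_mul, mul_assoc D', ← mul_assoc B, hBA, one_mul, hDD', ac_one])
  refine ⟨u2⁻¹ * u1, ?_⟩
  rw [Matrix.det_mul] at hu1
  rw [Matrix.det_mul, Matrix.det_mul, hdetD] at hu2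
  have e1 : C.det * C'.det = 1 := by rw [← Matrix.det_mul, hC, Matrix.det_one]
  have e2 : X.det * X'.det = 1 := by rw [← Matrix.det_mul, hX, Matrix.det_one]
  have e3 : algebraMap R K (u2⁻¹ : Rˣ) * algebraMap R K (u2 : R) = 1 := by
    rw [← map_mul, Units.inv_mul, map_one]
  rw [Units.val_mul, map_mul]
  calc X.det = (algebraMap R K (u2⁻¹ : Rˣ) * algebraMap R K (u2 : R)) * X.det := by
        rw [e3, one_mul]
    _ = algebraMap R K (u2⁻¹ : Rˣ) * (X.det * X'.det) * (A.det * algebraMap R K ϖ ^ ∑ i, a i) := by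
        rw [← hu2]
        ring
    _ = algebraMap R K (u2⁻¹ : Rˣ) * (A.det * algebraMap R K ϖ ^ ∑ i, a i) := by
        rw [e2, mul_one]
    _ = algebraMap R K (u2⁻¹ : Rˣ) * ((C.det * C'.det) * A.det * algebraMap R K ϖ ^ ∑ i, a i) := by
        rw [e1, one_mul]
    _ = algebraMap R K (u2⁻¹ : Rˣ) * (C.det * (C'.det * A.det) * algebraMap R K ϖ ^ ∑ i, a i) := by
        ring
    _ = _ := by
        rw [hu1]
        ring

theorem dg_uu_sub (h : LF R K ϖ q) (hA : Uu A) (hP : IsLa ϖ P) (hM : IsLa ϖ M) (h1 : P ≤ M) (h2 : ac A P ≤ M) :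
    dg q (ac A P) M = dg q P M := by
  obtain ⟨B, hAB, hBA, _⟩ := uu_inv hA
  obtain ⟨C, C', hC, hC', hMC⟩ := exists_basis h hM
  obtain ⟨X, X', hX, hX', hPX⟩ := exists_basis h hP
  obtain ⟨u, hu⟩ := l1h_det h hC hX hMC hPX hP hM h1
  obtain ⟨v, hv⟩ := l1h_det h (X := A * X) (X' := X' * B) hC
    (by rw [mul_assoc, ← mul_assoc X, hX, one_mul, hAB]) hMC (by rw [ac_mul, ← hPX])
    (la_ac h hAB hP) hM h2
  rw [Matrix.det_mul, l1h_det1 hA, one_mul, hu] at hv
  have hCd : C.det ≠ 0 := by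
    intro h0
    have := congrArg Matrix.det hC
    rw [Matrix.det_mul, h0, zero_mul, Matrix.det_one] at this
    exact zero_ne_one this
  have h3 := mul_right_cancel₀ hCd hv
  rw [← map_pow, ← map_pow, ← map_mul, ← map_mul] at h3
  exact (IsDiscreteValuationRing.unit_mul_pow_congr_pow h.dv.irr h.dv.irr u v _ _ (h.inj h3)).symm

theorem dg_uu_sup (h : LF R K ϖ q) (hA : Uu A) (hP : IsLa ϖ P) (hM : IsLa ϖ M) (h1 : P ≤ M) (h2 : P ≤ ac A M) :
    dg q P (ac A M) = dg q P M := by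
  obtain ⟨B, hAB, hBA, hB⟩ := uu_inv hA
  have h3 : ac B P ≤ M := by
    have h4 := ac_mono (A := B) h2
    rwa [← ac_mul, hBA, ac_one] at h4
  have h5 := dg_uu_sub h hB hP hM h1 h3
  rw [← h5, ← dg_ac (P := ac B P) hAB, ← ac_mul, hAB, ac_one]

end

end Pool.Agent.Lib.H67G
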