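import Pool.Agent.Lib.H67G.L1F

/-!
# L3A (M): the lattices L(M, S) are self-dual
-/

set_option linter.unusedSectionVars false

namespace Pool.Agent.Lib.H67G

open Matrix Pool.Agent.Lib.H89N

noncomputable section

variable {R K : Type} [CommRing R] [IsDomain R] [IsDiscreteValuationRing R] [Field K] [Algebra R K] {ϖ : R} {q : ℕ}
  {n : ℕ} {P Q M N : Submodule R (Fin n → K)} {A B : Matrix (Fin n) (Fin n) K}

/-!
`Lm M S = {(x' + S m, m) : m ∈ M, x' ∈ du M}`, `S` symmetric.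

`sd_Lm`: lattice: `du M` is a lattice (`la_du`), the entries of `S` are bounded. `z = (x' + S m, m)`, `w = (y' + S m', m')` in `Lm M S`:
`sy z w = (x' + S m) ⬝ m' - m ⬝ (y' + S m') = x' ⬝ m' - m ⬝ y' + (S m ⬝ m' - m ⬝ S m') = x' ⬝ m' - m ⬝ y' ∈ R` as `S` is symmetric.
Conversely let `z` satisfy `sy z w ∈ R` for all `w ∈ Lm M S`. With `w = (y', 0)`, `y' ∈ du M`: `z'' ⬝ y' ∈ R`, so `z'' ∈ du (du M) = M`. With `w = (S m', m')`, `m' ∈ M`: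
`z' ⬝ m' - z'' ⬝ S m' = (z' - S z'') ⬝ m' ∈ R`, so `z' - S z'' ∈ du M`.
`sd_unique_le`: two self-dual lattices `L ≤ L'` are equal (`x ∈ L'`: `sy x y ∈ R` for all `y ∈ L'`, in particular for `y ∈ L`, so `x ∈ L`).
-/

theorem mem_Lm {S : Matrix (Fin n) (Fin n) K} {z : Fin n ⊕ Fin n → K} :
    z ∈ Lm M S ↔ z ∘ Sum.inr ∈ M ∧ z ∘ Sum.inl - S *ᵥ (z ∘ Sum.inr) ∈ du M := Iff.rfl

theorem sy_comm (S : Sy n K) (x y : Fin n → K) : x ⬝ᵥ (S.1 *ᵥ y) = (S.1 *ᵥ x) ⬝ᵥ y := by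
  rw [dotProduct_mulVec, ← mulVec_transpose]
  congr 2
  exact S.2

theorem l3a_up {κ : Type} {X : Submodule R (κ → K)} {x : κ → K} {m k : ℕ} (h : ϖ ^ m • x ∈ X)
    (hmk : m ≤ k) : ϖ ^ k • x ∈ X := by
  obtain ⟨j, rfl⟩ := Nat.exists_eq_add_of_le hmk
  rw [pow_add, mul_comm, mul_smul]
  exact Submodule.smul_mem _ _ h

theorem l3a_la (h : LF R K ϖ q) (hM : IsLa ϖ M) (S : Sy n K) : IsLa ϖ (Lm M S.1) := by
  obtain ⟨m2, h3, h4⟩ := la_du h hM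
  obtain ⟨m1, h1, h2⟩ := hM
  obtain ⟨k, hk⟩ := l1b_mat h S.1
  have e1 : ∀ (s : ℕ) (x : Fin n → K), S.1 *ᵥ (ϖ ^ s • x) = ϖ ^ s • (S.1 *ᵥ x) :=
    fun s x => mulVec_smul _ _ _
  refine ⟨m1 + (m2 + k), fun z hz => ?_, fun z hz => ?_⟩
  · have hz1 : z ∘ Sum.inl ∈ St R K (Fin n) := fun i => hz (Sum.inl i)
    have hz2 : z ∘ Sum.inr ∈ St R K (Fin n) := fun i => hz (Sum.inr i)
    rw [mem_Lm]
    have e2 : (ϖ ^ (m1 + (m2 + k)) • z) ∘ Sum.inr = ϖ ^ (m1 + (m2 + k)) • (z ∘ Sum.inr) := rfl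
    have e3 : (ϖ ^ (m1 + (m2 + k)) • z) ∘ Sum.inl = ϖ ^ (m1 + (m2 + k)) • (z ∘ Sum.inl) := rfl
    rw [e2, e3, e1, ← smul_sub]
    refine ⟨l3a_up (h1 _ hz2) (by omega), l3a_up (m := m2 + k) ?_ (by omega)⟩
    rw [pow_add, mul_smul]
    refine h3 _ ?_
    rw [smul_sub]
    exact sub_mem (Submodule.smul_mem _ _ hz1) (hk _ hz2)
  · rw [mem_Lm] at hz
    obtain ⟨hz1, hz2⟩ := hz
    have hb := h2 _ hz1
    have ha : ϖ ^ (m1 + (m2 + k)) • (z ∘ Sum.inl) ∈ St R K (Fin n) := by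
      have e4 : z ∘ Sum.inl = (z ∘ Sum.inl - S.1 *ᵥ (z ∘ Sum.inr)) + S.1 *ᵥ (z ∘ Sum.inr) := by
        rw [sub_add_cancel]
      rw [e4, smul_add]
      refine add_mem (l3a_up (h4 _ hz2) (by omega)) (l3a_up (m := k + m1) ?_ (by omega))
      rw [pow_add, mul_smul, ← e1]
      exact hk _ hb
    intro i
    rcases i with i | i
    · exact ha i
    · exact l3a_up (X := St R K (Fin n)) hb (by omega) i

theorem sd_Lm (h : LF R K ϖ q) (hM : IsLa ϖ M) (S : Sy n K) : IsSD ϖ (Lm M S.1) := by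
  refine ⟨l3a_la h hM S, fun z => ⟨fun hz w hw => ?_, fun hz => ?_⟩⟩
  · rw [mem_Lm] at hz hw
    have e1 : sy z w = (z ∘ Sum.inl - S.1 *ᵥ (z ∘ Sum.inr)) ⬝ᵥ (w ∘ Sum.inr) -
        (w ∘ Sum.inl - S.1 *ᵥ (w ∘ Sum.inr)) ⬝ᵥ (z ∘ Sum.inr) := by
      unfold sy
      rw [sub_dotProduct, sub_dotProduct, ← sy_comm S (z ∘ Sum.inr),
        dotProduct_comm (w ∘ Sum.inl) (z ∘ Sum.inr),
        dotProduct_comm (S.1 *ᵥ (w ∘ Sum.inr)) (z ∘ Sum.inr)]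
      ring
    rw [e1]
    exact in_sub (hz.2 _ hw.1) (hw.2 _ hz.1)
  · rw [mem_Lm]
    constructor
    · rw [← du_du h hM]
      intro y hy
      have h1 := hz (Sum.elim y 0) (mem_Lm.2 ⟨by
        rw [Sum.elim_comp_inr]
        exact zero_mem _, by
        rw [Sum.elim_comp_inr, Sum.elim_comp_inl, mulVec_zero, sub_zero]
        exact hy⟩)
      have h2 : sy z (Sum.elim y 0) = -((z ∘ Sum.inr) ⬝ᵥ y) := by
        unfold sy
        rw [Sum.elim_comp_inr, Sum.elim_comp_inl, dotProduct_zero, zero_sub]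
      rw [h2] at h1
      have h3 := in_neg h1
      rwa [neg_neg] at h3
    · intro y hy
      have h1 := hz (Sum.elim (S.1 *ᵥ y) y) (mem_Lm.2 ⟨by
        rw [Sum.elim_comp_inr]
        exact hy, by
        rw [Sum.elim_comp_inr, Sum.elim_comp_inl, sub_self]
        exact zero_mem _⟩)
      have h2 : sy z (Sum.elim (S.1 *ᵥ y) y) =
          (z ∘ Sum.inl - S.1 *ᵥ (z ∘ Sum.inr)) ⬝ᵥ y := by
        unfold sy
        rw [Sum.elim_comp_inr, Sum.elim_comp_inl, sub_dotProduct, sy_comm]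
      rwa [h2] at h1

theorem sd_unique_le {L L' : Submodule R (Fin n ⊕ Fin n → K)} (h : IsSD ϖ L) (h' : IsSD ϖ L') (hL : L ≤ L') : L = L' :=
  le_antisymm hL fun x hx => (h.sd x).2 fun y hy => (h'.sd x).1 hx y (hL hy)

end

end Pool.Agent.Lib.H67G
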