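import Pool.Agent.Lib.H67G.L3A

/-!
# L3B (M): every self-dual lattice is an L(M, S)
-/

namespace Pool.Agent.Lib.H67G

open Matrix Pool.Agent.Lib.H89N

noncomputable section

variable {R K : Type} [CommRing R] [IsDomain R] [IsDiscreteValuationRing R] [Field K] [Algebra R K] {ϖ : R} {q : ℕ}
  {n : ℕ} {P Q M N : Submodule R (Fin n → K)} {A B : Matrix (Fin n) (Fin n) K}

section proj

variable (R K n)

/-- The projection to the second coordinates. -/
def l3b_f : (Fin n ⊕ Fin n → K) →ₗ[R] (Fin n → K) where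
  toFun z := z ∘ Sum.inr
  map_add' _ _ := rfl
  map_smul' _ _ := rfl

end proj

theorem l3b_la {L : Submodule R (Fin n ⊕ Fin n → K)} (hL : IsLa ϖ L) : IsLa ϖ (L.map (l3b_f R K n)) := by
  obtain ⟨m, h1, h2⟩ := hL
  refine ⟨m, fun x hx => ?_, fun x hx => ?_⟩
  · rw [Submodule.mem_map]
    refine ⟨ϖ ^ m • (Sum.elim 0 x : Fin n ⊕ Fin n → K), h1 _ ?_, rfl⟩
    intro i
    rcases i with i | i
    · exact in_zero
    · exact hx i
  · rw [Submodule.mem_map] at hx
    obtain ⟨z, hz, rfl⟩ := hx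
    intro i
    exact h2 z hz (Sum.inr i)

theorem l3b_du {L : Submodule R (Fin n ⊕ Fin n → K)} (hL : IsSD ϖ L) (x : Fin n → K) :
    (Sum.elim x 0 : Fin n ⊕ Fin n → K) ∈ L ↔ x ∈ du (L.map (l3b_f R K n)) := by
  rw [hL.sd, mem_du]
  have e : ∀ y : Fin n ⊕ Fin n → K, sy (Sum.elim x 0 : Fin n ⊕ Fin n → K) y = x ⬝ᵥ (l3b_f R K n y) := by
    intro y
    unfold sy
    have e1 : (Sum.elim x 0 : Fin n ⊕ Fin n → K) ∘ Sum.inl = x := rfl
    have e2 : (Sum.elim x 0 : Fin n ⊕ Fin n → K) ∘ Sum.inr = 0 := rfl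
    rw [e1, e2, zero_dotProduct, sub_zero]
    rfl
  constructor
  · intro h y hy
    rw [Submodule.mem_map] at hy
    obtain ⟨z, hz, rfl⟩ := hy
    rw [← e]
    exact h z hz
  · intro h y hy
    rw [e]
    exact h _ (Submodule.mem_map_of_mem hy)

/-- `M` := the image of `L` under `z ↦ z ∘ Sum.inr` (`Submodule.map`), a lattice. `L ∩ {z'' = 0}` consists of the `(x', 0)` with `x' ∈ du M`: `sy (x', 0) (y', y'') = x' ⬝ y''`, and `L` is self-dual.
Let `M = ac A St` (`exists_basis`), `m_i = A e_i`, and `(x_i, m_i) ∈ L`. Let `S₀` be the matrix with `S₀ m_i = x_i` (`S₀ = X B`, `X` with the columns `x_i`) and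
`w_ij = m_i ⬝ x_j - x_i ⬝ m_j = -sy (x_i, m_i) (x_j, m_j) ∈ R`, alternating. Let `W` be the matrix with entries `w_ij` for `i < j` and `0` otherwise; replace `x_j` by `x_j - Bᵀ W e_j`:
`Bᵀ W e_j ∈ Bᵀ St = du M`, so `(x_j, m_j)` stays in `L`, and `m_i ⬝ x_j` is replaced by `m_i ⬝ x_j - W_ij` (since `m_i ⬝ Bᵀ v = (B m_i) ⬝ v = e_i ⬝ v`), `x_i ⬝ m_j` by `x_i ⬝ m_j - W_ji`:
the new difference is `w_ij - W_ij + W_ji = 0` for `i < j`, so for all `i, j`. So `m_i ⬝ S m_j = m_j ⬝ S m_i` for the new `S`, that is `Aᵀ S A` is symmetric and so is `S`.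
Then `(S m, m) ∈ L` for all `m ∈ M` (it holds for the `m_i`) and `(x', 0) ∈ L` for `x' ∈ du M`, so `Lm M S ≤ L`, and equality holds by `sd_unique_le` (`sd_Lm`). -/
theorem exists_Lm (h : LF R K ϖ q) {L : Submodule R (Fin n ⊕ Fin n → K)} (hL : IsSD ϖ L) :
    ∃ M : Submodule R (Fin n → K), IsLa ϖ M ∧ ∃ S : Sy n K, L = Lm M S.1 := by
  classical
  obtain ⟨M, hM⟩ : ∃ M, M = L.map (l3b_f R K n) := ⟨_, rfl⟩
  have hlM : IsLa ϖ M := by rw [hM]; exact l3b_la hL.la
  refine ⟨M, hlM, ?_⟩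
  obtain ⟨A, B, hAB, hBA, hMA⟩ := exists_basis h hlM
  have hdu : du M = ac Bᵀ (St R K (Fin n)) := by
    rw [hMA, du_ac hAB, du_St]
  -- lifts of the basis
  have hlift : ∀ i : Fin n, ∃ x : Fin n → K, (Sum.elim x (A.col i) : Fin n ⊕ Fin n → K) ∈ L := by
    intro i
    have h1 : A.col i ∈ M := by
      rw [hMA, mem_ac]
      exact ⟨Pi.single i 1, single_St i, mulVec_single_one A i⟩
    rw [hM, Submodule.mem_map] at h1
    obtain ⟨z, hz, hzi⟩ := h1
    refine ⟨z ∘ Sum.inl, ?_⟩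
    have e : (Sum.elim (z ∘ Sum.inl) (A.col i) : Fin n ⊕ Fin n → K) = z := by
      rw [← hzi]
      exact Sum.elim_comp_inl_inr z
    rw [e]
    exact hz
  choose x hx using hlift
  obtain ⟨X, hX⟩ : ∃ X : Matrix (Fin n) (Fin n) K, X = of fun r i => x i r := ⟨_, rfl⟩
  have hXc : ∀ i, X.col i = x i := by
    intro i
    rw [hX]
    rfl
  obtain ⟨w, hw⟩ : ∃ w : Matrix (Fin n) (Fin n) K, w = Aᵀ * X - Xᵀ * A := ⟨_, rfl⟩
  have hwR : ∀ i j, In R (w i j) := by
    intro i j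
    have h1 := (hL.sd _).1 (hx i) _ (hx j)
    have h2 := in_neg h1
    have e : -sy (Sum.elim (x i) (A.col i) : Fin n ⊕ Fin n → K) (Sum.elim (x j) (A.col j)) = w i j := by
      unfold sy
      rw [hw, Matrix.sub_apply, neg_sub]
      have e1 : (Aᵀ * X) i j = A.col i ⬝ᵥ x j := by
        rw [← hXc j]
        rfl
      have e2 : (Xᵀ * A) i j = x i ⬝ᵥ A.col j := by
        rw [← hXc i]
        rfl
      rw [e1, e2]
      rfl
    rw [e] at h2
    exact h2
  have hwa : ∀ i j, w i j = -w j i := by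
    intro i j
    have e : wᵀ = -w := by
      rw [hw, transpose_sub, transpose_mul, transpose_mul, transpose_transpose, transpose_transpose, neg_sub]
    have := congrFun (congrFun e j) i
    rw [transpose_apply, Matrix.neg_apply] at this
    exact this
  have hwd : ∀ i, w i i = 0 := by
    intro i
    have e1 : (Aᵀ * X) i i = A.col i ⬝ᵥ X.col i := rfl
    have e2 : (Xᵀ * A) i i = X.col i ⬝ᵥ A.col i := rfl
    rw [hw, Matrix.sub_apply, e1, e2, dotProduct_comm, sub_self]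
  obtain ⟨W, hW⟩ : ∃ W : Matrix (Fin n) (Fin n) K, W = of fun i j => if i < j then w i j else 0 := ⟨_, rfl⟩
  have hWa : ∀ i j, W i j = if i < j then w i j else 0 := by
    intro i j
    rw [hW]
    rfl
  have hWR : ∀ i j, In R (W i j) := by
    intro i j
    rw [hWa]
    split_ifs
    · exact hwR i j
    · exact in_zero
  obtain ⟨X', hX'⟩ : ∃ X' : Matrix (Fin n) (Fin n) K, X' = X - Bᵀ * W := ⟨_, rfl⟩
  have hABt : Bᵀ * Aᵀ = 1 := by rw [← transpose_mul, hAB, transpose_one]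
  have hBAt : Aᵀ * Bᵀ = 1 := by rw [← transpose_mul, hBA, transpose_one]
  have hsym : (Aᵀ * X')ᵀ = Aᵀ * X' := by
    have e1 : Aᵀ * X' = Aᵀ * X - W := by
      rw [hX', mul_sub, ← mul_assoc, hBAt, one_mul]
    have e2 : (Aᵀ * X')ᵀ = Xᵀ * A - Wᵀ := by
      rw [e1, transpose_sub, transpose_mul, transpose_transpose]
    rw [e2, e1]
    have e3 : w - W + Wᵀ = 0 := by
      ext i j
      rw [Matrix.add_apply, Matrix.sub_apply, transpose_apply, hWa, hWa, Matrix.zero_apply]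
      rcases lt_trichotomy i j with hij | hij | hij
      · rw [if_pos hij, if_neg (not_lt.2 hij.le)]
        ring
      · subst hij
        rw [if_neg (lt_irrefl _), hwd]
        ring
      · rw [if_neg (not_lt.2 hij.le), if_pos hij, hwa i j]
        ring
    rw [hw] at e3
    have e4 : Xᵀ * A - Wᵀ = Aᵀ * X - W - (Aᵀ * X - Xᵀ * A - W + Wᵀ) := by abel
    rw [e4, e3, sub_zero]
  have hcol : ∀ j, (Sum.elim (X'.col j) (A.col j) : Fin n ⊕ Fin n → K) ∈ L := by
    intro j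
    have h1 : (Bᵀ * W).col j ∈ du M := by
      rw [hdu, mem_ac]
      exact ⟨W.col j, fun i => hWR i j, rfl⟩
    have h2 : (Sum.elim ((Bᵀ * W).col j) 0 : Fin n ⊕ Fin n → K) ∈ L := by
      rw [l3b_du hL, ← hM]
      exact h1
    have e : (Sum.elim (X'.col j) (A.col j) : Fin n ⊕ Fin n → K) =
        Sum.elim (x j) (A.col j) - Sum.elim ((Bᵀ * W).col j) 0 := by
      funext i
      rcases i with i | i
      · change X' i j = x j i - (Bᵀ * W) i j
        rw [hX', Matrix.sub_apply, ← hXc j]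
        rfl
      · change A i j = A i j - 0
        rw [sub_zero]
    rw [e]
    exact sub_mem (hx j) h2
  have hlin : ∀ y ∈ St R K (Fin n), (Sum.elim (X' *ᵥ y) (A *ᵥ y) : Fin n ⊕ Fin n → K) ∈ L := by
    intro y hy
    choose r hr using hy
    have e : (Sum.elim (X' *ᵥ y) (A *ᵥ y) : Fin n ⊕ Fin n → K) =
        ∑ j, r j • (Sum.elim (X'.col j) (A.col j) : Fin n ⊕ Fin n → K) := by
      funext i
      rw [Finset.sum_apply]
      rcases i with i | i
      · change ∑ j, X' i j * y j = _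
        refine Finset.sum_congr rfl fun j _ => ?_
        rw [Pi.smul_apply, Algebra.smul_def, hr, mul_comm]
        rfl
      · change ∑ j, A i j * y j = _
        refine Finset.sum_congr rfl fun j _ => ?_
        rw [Pi.smul_apply, Algebra.smul_def, hr, mul_comm]
        rfl
    rw [e]
    exact Submodule.sum_mem _ fun j _ => Submodule.smul_mem _ _ (hcol j)
  obtain ⟨S, hS⟩ : ∃ S : Matrix (Fin n) (Fin n) K, S = Bᵀ * (Aᵀ * X') * B := ⟨_, rfl⟩
  have hSs : Sᵀ = S := by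
    rw [hS, transpose_mul, transpose_mul, hsym, transpose_transpose, mul_assoc Bᵀ]
  have hSA : S * A = X' := by
    rw [hS, mul_assoc, hBA, mul_one, ← mul_assoc, hABt, one_mul]
  refine ⟨⟨S, hSs⟩, ?_⟩
  symm
  refine sd_unique_le (sd_Lm h hlM ⟨S, hSs⟩) hL ?_
  intro z hz
  rw [mem_Lm] at hz
  obtain ⟨h1, h2⟩ := hz
  have h3 : (Sum.elim (S *ᵥ (z ∘ Sum.inr)) (z ∘ Sum.inr) : Fin n ⊕ Fin n → K) ∈ L := by
    have h4 := h1
    rw [hMA, mem_ac] at h4
    obtain ⟨y, hy, hyz⟩ := h4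
    rw [← hyz, mulVec_mulVec, hSA]
    exact hlin y hy
  have h5 : (Sum.elim (z ∘ Sum.inl - S *ᵥ (z ∘ Sum.inr)) 0 : Fin n ⊕ Fin n → K) ∈ L := by
    rw [l3b_du hL, ← hM]
    exact h2
  have e : z = Sum.elim (z ∘ Sum.inl - S *ᵥ (z ∘ Sum.inr)) 0 + Sum.elim (S *ᵥ (z ∘ Sum.inr)) (z ∘ Sum.inr) := by
    funext i
    rcases i with i | i
    · change z (Sum.inl i) = (z (Sum.inl i) - (S *ᵥ (z ∘ Sum.inr)) i) + (S *ᵥ (z ∘ Sum.inr)) i
      ring
    · change z (Sum.inr i) = 0 + z (Sum.inr i)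
      ring
  rw [e]
  exact add_mem h5 h3

end

end Pool.Agent.Lib.H67G
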