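import Pool.Agent.Lib.H67G.L3B
import Pool.Agent.Lib.H67G.GF1

/-!
# L3C (M): uniqueness, the action of the unipotent group, the bijection
-/

set_option linter.unusedSectionVars false

namespace Pool.Agent.Lib.H67G

open Matrix Pool.Agent.Lib.H89N

noncomputable section

variable {R K : Type} [CommRing R] [IsDomain R] [IsDiscreteValuationRing R] [Field K] [Algebra R K] {ϖ : R} {q : ℕ}
  {n : ℕ} {P Q M N : Submodule R (Fin n → K)} {A B : Matrix (Fin n) (Fin n) K}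

/-!
`Lm_eq_iff`: `M` is the image of `Lm M S` under `z ↦ z ∘ Sum.inr` (`(S m, m) ∈ Lm M S`). If `Lm M S = Lm M S'` then `(S m, m) ∈ Lm M S'`, so `(S - S') m ∈ du M` for all `m ∈ M`, that is
`m' ⬝ (S - S') m ∈ R`: `S - S' ∈ LS M`. Conversely if `S - S' ∈ LS M` then `(S - S') m ∈ du M` for `m ∈ M`.
`ac_nM`: `nM Y (x, m) = (x + Y m, m)`. `ac_mM`: `mM A B (x, m) = (Bᵀ x, A m)`, and `Bᵀ (x' + S m) = Bᵀ x' + (Bᵀ S B) (A m)`, `Bᵀ x'` runs through `Bᵀ (du M) = du (ac A M)` (`du_ac`). Use `mem_ac_inv` for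
the block matrices (`fromBlocks_multiply`).
`bij_SD`: surjective by `exists_Lm` and `Lm_eq_iff` (`S - S̄.out ∈ LS M`); injective by `Lm_eq_iff` (`Sigma.ext`, `subst`).
-/

theorem l3c_pt {S : Matrix (Fin n) (Fin n) K} {y : Fin n → K} (hy : y ∈ M) :
    (Sum.elim (S *ᵥ y) y : Fin n ⊕ Fin n → K) ∈ Lm M S := by
  rw [mem_Lm, Sum.elim_comp_inr, Sum.elim_comp_inl, sub_self]
  exact ⟨hy, zero_mem _⟩

theorem l3c_le {S T : Matrix (Fin n) (Fin n) K} (h : Lm M S = Lm N T) : M ≤ N := by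
  intro x hx
  have h1 := l3c_pt (S := S) hx
  rw [h, mem_Lm, Sum.elim_comp_inr] at h1
  exact h1.1

theorem Lm_eq_iff (h : LF R K ϖ q) (hM : IsLa ϖ M) (hN : IsLa ϖ N) (S T : Sy n K) :
    Lm M S.1 = Lm N T.1 ↔ M = N ∧ S - T ∈ LS M := by
  have _ := h
  have _ := hM
  have _ := hN
  have hsub : ∀ y : Fin n → K, S.1 *ᵥ y - T.1 *ᵥ y = (S - T).1 *ᵥ y := fun y =>
    (sub_mulVec S.1 T.1 y).symm
  constructor
  · intro e
    have hMN : M = N := le_antisymm (l3c_le e) (l3c_le e.symm)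
    refine ⟨hMN, fun x hx y hy => ?_⟩
    have h1 := l3c_pt (S := S.1) hy
    rw [e, mem_Lm, Sum.elim_comp_inr, Sum.elim_comp_inl, hsub, ← hMN] at h1
    have h2 := h1.2 x hx
    rwa [dotProduct_comm] at h2
  · rintro ⟨rfl, hST⟩
    have h1 : ∀ y ∈ M, (S - T).1 *ᵥ y ∈ du M := by
      intro y hy x hx
      rw [dotProduct_comm]
      exact hST x hx y hy
    ext z
    rw [mem_Lm, mem_Lm]
    have e1 : z ∘ Sum.inl - T.1 *ᵥ (z ∘ Sum.inr) =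
        (z ∘ Sum.inl - S.1 *ᵥ (z ∘ Sum.inr)) + (S - T).1 *ᵥ (z ∘ Sum.inr) := by
      rw [← hsub]
      abel
    constructor
    · rintro ⟨h2, h3⟩
      refine ⟨h2, ?_⟩
      rw [e1]
      exact add_mem h3 (h1 _ h2)
    · rintro ⟨h2, h3⟩
      refine ⟨h2, ?_⟩
      rw [e1] at h3
      exact (Submodule.add_mem_iff_left _ (h1 _ h2)).1 h3

theorem ac_nM (Y S : Sy n K) : ac (nM Y.1) (Lm M S.1) = Lm M (S.1 + Y.1) := by
  have h1 : nM Y.1 * nM (-Y.1) = 1 := by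
    unfold nM
    rw [fromBlocks_multiply]
    simp
  ext z
  rw [mem_ac_inv h1, mem_Lm, mem_Lm]
  unfold nM
  rw [fromBlocks_mulVec, Sum.elim_comp_inr, Sum.elim_comp_inl, zero_mulVec, one_mulVec, one_mulVec,
    zero_add, neg_mulVec, add_mulVec]
  have e1 : z ∘ Sum.inl + -(Y.1 *ᵥ (z ∘ Sum.inr)) - S.1 *ᵥ (z ∘ Sum.inr) =
      z ∘ Sum.inl - (S.1 *ᵥ (z ∘ Sum.inr) + Y.1 *ᵥ (z ∘ Sum.inr)) := by
    abel
  rw [e1]

theorem ac_mM (hAB : A * B = 1) (S : Matrix (Fin n) (Fin n) K) :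
    ac (mM A B) (Lm M S) = Lm (ac A M) (Bᵀ * S * B) := by
  have hBA : B * A = 1 := mul_eq_one_comm.1 hAB
  have t1 : Bᵀ * Aᵀ = 1 := by rw [← transpose_mul, hAB, transpose_one]
  have t2 : Aᵀ * Bᵀ = 1 := by rw [← transpose_mul, hBA, transpose_one]
  have h1 : mM A B * mM B A = 1 := by
    unfold mM
    rw [fromBlocks_multiply, t1, hAB]
    simp
  ext z
  rw [mem_ac_inv h1, mem_Lm, mem_Lm, mem_ac_inv hAB, du_ac hAB, mem_ac_inv t1]
  unfold mM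
  rw [fromBlocks_mulVec, Sum.elim_comp_inr, Sum.elim_comp_inl, zero_mulVec, zero_mulVec,
    zero_add, add_zero, mulVec_sub, mulVec_mulVec, mulVec_mulVec]
  have e1 : Aᵀ * (Bᵀ * S * B) = S * B := by
    rw [mul_assoc Bᵀ, ← mul_assoc, t2, one_mul]
  rw [e1]

theorem bij_SD (h : LF R K ϖ q) : Function.Bijective (fun x : Σ M : LaT K ϖ n, QS M.1 =>
    (⟨Lm x.1.1 x.2.out.1, sd_Lm h x.1.2 x.2.out⟩ : SDt K ϖ n)) := by
  constructor
  · rintro ⟨⟨M, hM⟩, s⟩ ⟨⟨N, hN⟩, t⟩ e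
    have e1 : Lm M s.out.1 = Lm N t.out.1 := congrArg Subtype.val e
    obtain ⟨h1, h2⟩ := (Lm_eq_iff h hM hN s.out t.out).1 e1
    subst h1
    have h3 : s = t := by
      rw [← QuotientAddGroup.out_eq' s, ← QuotientAddGroup.out_eq' t, QuotientAddGroup.eq]
      have h4 := neg_mem h2
      rwa [neg_sub, sub_eq_neg_add] at h4
    rw [h3]
  · rintro ⟨L, hL⟩
    obtain ⟨M, hM, S, rfl⟩ := exists_Lm h hL
    refine ⟨⟨⟨M, hM⟩, QuotientAddGroup.mk S⟩, Subtype.ext ?_⟩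
    refine (Lm_eq_iff h hM hM _ S).2 ⟨rfl, ?_⟩
    have h5 : QuotientAddGroup.mk S = QuotientAddGroup.mk ((QuotientAddGroup.mk S : QS M).out) :=
      (QuotientAddGroup.out_eq' _).symm
    have h6 := QuotientAddGroup.eq.1 h5
    rwa [← sub_eq_neg_add] at h6

/-- `ac g` preserves self-dual lattices for `g = n(Y)`, `m(A)`. -/
theorem sd_nM (h : LF R K ϖ q) (Y : Sy n K) {L : Submodule R (Fin n ⊕ Fin n → K)} (hL : IsSD ϖ L) : IsSD ϖ (ac (nM Y.1) L) := by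
  obtain ⟨M, hM, S, rfl⟩ := exists_Lm h hL
  rw [ac_nM]
  exact sd_Lm h hM (S + Y)

theorem sd_mM (h : LF R K ϖ q) (hAB : A * B = 1) {L : Submodule R (Fin n ⊕ Fin n → K)} (hL : IsSD ϖ L) :
    IsSD ϖ (ac (mM A B) L) := by
  obtain ⟨M, hM, S, rfl⟩ := exists_Lm h hL
  rw [ac_mM hAB]
  have hs : (Bᵀ * S.1 * B)ᵀ = Bᵀ * S.1 * B := by
    have h1 : S.1ᵀ = S.1 := S.2
    rw [transpose_mul, transpose_mul, transpose_transpose, h1, mul_assoc]
  exact sd_Lm h (la_ac h hAB hM) ⟨Bᵀ * S.1 * B, hs⟩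

end

end Pool.Agent.Lib.H67G
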