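import Pool.Agent.Lib.H67G.L3A

/-!
# L4 (M): the index of L(M, S)
-/

namespace Pool.Agent.Lib.H67G

open Matrix Pool.Agent.Lib.H89N

noncomputable section

/-- The index of a subgroup and a homomorphism. -/
theorem l4_index {A B : Type} [AddCommGroup A] [AddCommGroup B] (f : A →+ B) (H G : AddSubgroup A) (hHG : H ≤ G) :
    H.relIndex G = (H.map f).relIndex (G.map f) * (H ⊓ f.ker).relIndex (G ⊓ f.ker) := by
  have h1 : (H.map f).relIndex (G.map f) = (H ⊔ f.ker).relIndex G := by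
    rw [AddSubgroup.relIndex_map_map]
    have e : G ⊔ f.ker = G ⊔ (H ⊔ f.ker) := by
      rw [← sup_assoc, sup_eq_left.2 hHG]
    rw [e, AddSubgroup.relIndex_sup_right]
  have h2 : (H ⊓ f.ker).relIndex (G ⊓ f.ker) = H.relIndex ((H ⊔ f.ker) ⊓ G) := by
    have e : (H ⊔ f.ker) ⊓ G = H ⊔ (G ⊓ f.ker) := by
      rw [sup_inf_assoc_of_le _ hHG, inf_comm f.ker]
    have e2 : H ⊓ f.ker = H ⊓ (G ⊓ f.ker) := by
      rw [← inf_assoc, inf_eq_left.2 hHG]
    rw [e, AddSubgroup.relIndex_sup_left, e2, AddSubgroup.inf_relIndex_right]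
  rw [h1, h2, mul_comm]
  have h3 : (H ⊔ f.ker).relIndex G = ((H ⊔ f.ker) ⊓ G).relIndex G := (AddSubgroup.inf_relIndex_right _ _).symm
  rw [h3, AddSubgroup.relIndex_mul_relIndex _ _ _ (le_inf le_sup_left hHG) inf_le_right]

variable {R K : Type} [CommRing R] [IsDomain R] [IsDiscreteValuationRing R] [Field K] [Algebra R K] {ϖ : R} {q : ℕ}
  {n : ℕ} {P Q M N : Submodule R (Fin n → K)} {A B : Matrix (Fin n) (Fin n) K}

/-- Finitely many elements have a common denominator. -/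
theorem l4_denom (h : LF R K ϖ q) {κ : Type} [Fintype κ] (f : κ → K) :
    ∃ k : ℕ, ∀ i, In R (algebraMap R K ϖ ^ k * f i) := by
  classical
  choose g hg using fun i => h.frac (f i)
  refine ⟨∑ i, g i, fun i => ?_⟩
  have h1 : g i ≤ ∑ i, g i := Finset.single_le_sum (fun _ _ => Nat.zero_le _) (Finset.mem_univ i)
  obtain ⟨d, hd⟩ := Nat.exists_eq_add_of_le h1
  rw [hd, add_comm, pow_add, mul_assoc]
  exact in_mul (in_pow (in_alg ϖ) _) (hg i)

theorem la_ker (h : LF R K ϖ q) (hM : IsLa ϖ M) (S : Matrix (Fin n) (Fin n) K) : IsLa ϖ (ker M S) := by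
  obtain ⟨m, h1, h2⟩ := hM
  obtain ⟨k, hk⟩ := l4_denom (R := R) h (fun p : Fin n × Fin n => S p.1 p.2)
  refine ⟨m + (k + m), fun x hx => ⟨?_, fun z hz => ?_⟩, fun x hx => ?_⟩
  · rw [add_comm, pow_add, mul_smul]
    exact Submodule.smul_mem _ _ (h1 x hx)
  · have e : z ⬝ᵥ (S *ᵥ (ϖ ^ (m + (k + m)) • x)) =
        (ϖ ^ m • z) ⬝ᵥ (fun i => (fun j => algebraMap R K ϖ ^ k * S i j) ⬝ᵥ (ϖ ^ m • x)) := by
      have e1 : (fun i => (fun j => algebraMap R K ϖ ^ k * S i j) ⬝ᵥ (ϖ ^ m • x)) = ϖ ^ (k + m) • (S *ᵥ x) := by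
        funext i
        have e2 : (fun j => algebraMap R K ϖ ^ k * S i j) = algebraMap R K ϖ ^ k • (fun j => S i j) := rfl
        rw [e2, smul_dotProduct, dotProduct_smul, Pi.smul_apply, smul_eq_mul, Algebra.smul_def (ϖ ^ m),
          Algebra.smul_def (ϖ ^ (k + m)), map_pow, map_pow, pow_add, mul_assoc]
        rfl
      rw [e1, mulVec_smul, dotProduct_smul, dotProduct_smul, smul_dotProduct, smul_smul, ← pow_add, add_comm]
    rw [e]
    refine in_dot (fun i => h2 z hz i) (fun i => in_dot (fun j => hk (i, j)) (fun j => ?_))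
    exact Submodule.smul_mem (St R K (Fin n)) _ hx j
  · rw [add_comm, pow_add, mul_smul]
    exact Submodule.smul_mem _ _ (h2 x hx.1)

/-- `dg q (Lm M S) St2` is the length of `St2 / (St2 ∩ L)`, `L = Lm M S`, `P = M ∩ St`. The projection `π : z ↦ z ∘ Sum.inr`:
`π (St2 ∩ L)` consists of the `m ∈ M ∩ St` for which there is `x' ∈ du M` with `x' + S m ∈ St`, that is `S m ∈ St + du M = du P` (`du_inf`, `du_St`): it is `ker P S`.
`St2 ∩ L ∩ {z'' = 0} = {(x', 0) : x' ∈ St ∩ du M}`, `St ∩ du M = du (St ⊔ M)` (`du_sup`).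
So `[St2 : St2 ∩ L] = [St : ker P S] [St : du (St ⊔ M)]` (index of a subgroup `H` of `G` with a homomorphism `π`: `[G : H] = [π G : π H] [G ∩ ker π : H ∩ ker π]`;
compare `H89N.LD1_index`, `AddSubgroup.index_map`, `AddSubgroup.index_comap`), and
`[St : ker P S] = [St : P] [P : ker P S]` (`dg_add`; `ker P S` is a lattice: it is `P ∩ ac S⁻¹ ..`; directly: it contains `ϖ ^ k P` for large `k`), `[St : du (St ⊔ M)] = [St ⊔ M : St] = [M : St ∩ M]`
(`dg_du` for `St ≤ St ⊔ M`, `dg_sup`, `dg_inf`). -/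
theorem dg_Lm (h : LF R K ϖ q) (hM : IsLa ϖ M) (S : Sy n K) :
    dg q (Lm M S.1) (St2 R K n) = dg q (M ⊓ St R K (Fin n)) (St R K (Fin n)) + dg q (M ⊓ St R K (Fin n)) M +
      nu q (M ⊓ St R K (Fin n)) S.1 := by
  obtain ⟨P, hP⟩ : ∃ P, P = M ⊓ St R K (Fin n) := ⟨_, rfl⟩
  have hlS : IsLa ϖ (St R K (Fin n)) := la_St
  have hlP : IsLa ϖ P := by rw [hP]; exact la_inf hM hlS
  have hduP : du P = St R K (Fin n) ⊔ du M := by
    rw [hP, inf_comm, du_inf h hlS hM, du_St]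
  have hduMS : du M ⊓ St R K (Fin n) = du (M ⊔ St R K (Fin n)) := by
    rw [du_sup, du_St]
  rw [← hP]
  let f : (Fin n ⊕ Fin n → K) →+ (Fin n → K) :=
    { toFun := fun z => z ∘ Sum.inr
      map_zero' := rfl
      map_add' := fun _ _ => rfl }
  let j : (Fin n → K) →+ (Fin n ⊕ Fin n → K) :=
    { toFun := fun x => Sum.elim x 0
      map_zero' := by
        funext i
        rcases i with i | i <;> rfl
      map_add' := by
        intro a b
        funext i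
        rcases i with i | i
        · rfl
        · exact (add_zero (0 : K)).symm }
  have hj : Function.Injective j := by
    intro a b hab
    funext i
    exact congrFun hab (Sum.inl i)
  obtain ⟨H, hH⟩ : ∃ H : AddSubgroup (Fin n ⊕ Fin n → K), H = (Lm M S.1).toAddSubgroup ⊓ (St2 R K n).toAddSubgroup := ⟨_, rfl⟩
  have hHm : ∀ z, z ∈ H ↔ (z ∘ Sum.inr ∈ M ∧ z ∘ Sum.inl - S.1 *ᵥ (z ∘ Sum.inr) ∈ du M) ∧ z ∈ St2 R K n := by
    intro z
    rw [hH]
    exact Iff.rfl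
  have hSz : ∀ z : Fin n ⊕ Fin n → K, z ∈ St2 R K n ↔ z ∘ Sum.inl ∈ St R K (Fin n) ∧ z ∘ Sum.inr ∈ St R K (Fin n) := by
    intro z
    constructor
    · intro hz
      exact ⟨fun i => hz (Sum.inl i), fun i => hz (Sum.inr i)⟩
    · rintro ⟨a, b⟩ i
      rcases i with i | i
      · exact a i
      · exact b i
  have hHG : H ≤ (St2 R K n).toAddSubgroup := by rw [hH]; exact inf_le_right
  have hfG : (St2 R K n).toAddSubgroup.map f = (St R K (Fin n)).toAddSubgroup := by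
    ext y
    rw [AddSubgroup.mem_map]
    constructor
    · rintro ⟨z, hz, rfl⟩
      exact ((hSz z).1 hz).2
    · intro hy
      exact ⟨Sum.elim 0 y, (hSz _).2 ⟨zero_mem _, hy⟩, rfl⟩
  have hker : ∀ y, y ∈ ker P S.1 ↔ y ∈ P ∧ S.1 *ᵥ y ∈ du P := by
    intro y
    rw [mem_du]
    refine and_congr_right fun _ => ?_
    refine forall_congr' fun z => ?_
    rw [dotProduct_comm]
  have hfH : H.map f = (ker P S.1).toAddSubgroup := by
    ext y
    rw [AddSubgroup.mem_map, Submodule.mem_toAddSubgroup, hker, hduP]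
    constructor
    · rintro ⟨z, hz, rfl⟩
      obtain ⟨⟨z1, z2⟩, z3⟩ := (hHm z).1 hz
      obtain ⟨z4, z5⟩ := (hSz z).1 z3
      refine ⟨?_, ?_⟩
      · rw [hP]
        exact ⟨z1, z5⟩
      · have e : S.1 *ᵥ (f z) = z ∘ Sum.inl + -(z ∘ Sum.inl - S.1 *ᵥ (z ∘ Sum.inr)) := by
          change S.1 *ᵥ (z ∘ Sum.inr) = _
          abel
        rw [e]
        exact Submodule.add_mem_sup z4 (neg_mem z2)
    · rintro ⟨hy, hy2⟩
      rw [hP] at hy
      obtain ⟨a, ha, b, hb, hab⟩ := Submodule.mem_sup.1 hy2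
      refine ⟨Sum.elim a y, (hHm _).2 ⟨⟨hy.1, ?_⟩, (hSz _).2 ⟨ha, hy.2⟩⟩, rfl⟩
      have e : (Sum.elim a y : Fin n ⊕ Fin n → K) ∘ Sum.inl - S.1 *ᵥ ((Sum.elim a y : Fin n ⊕ Fin n → K) ∘ Sum.inr) = -b := by
        change a - S.1 *ᵥ y = -b
        rw [← hab]
        abel
      rw [e]
      exact neg_mem hb
  have hkf : ∀ z : Fin n ⊕ Fin n → K, z ∈ f.ker ↔ z ∘ Sum.inr = 0 := fun z => Iff.rfl
  have hel : ∀ z : Fin n ⊕ Fin n → K, z ∘ Sum.inr = 0 → j (z ∘ Sum.inl) = z := by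
    intro z hz
    funext i
    rcases i with i | i
    · rfl
    · exact (congrFun hz i).symm
  have hgG : (St2 R K n).toAddSubgroup ⊓ f.ker = (St R K (Fin n)).toAddSubgroup.map j := by
    ext z
    rw [AddSubgroup.mem_inf, hkf, AddSubgroup.mem_map]
    constructor
    · rintro ⟨hz, h0⟩
      exact ⟨z ∘ Sum.inl, ((hSz z).1 hz).1, hel z h0⟩
    · rintro ⟨x, hx, rfl⟩
      exact ⟨(hSz _).2 ⟨hx, zero_mem _⟩, rfl⟩
  have hgH : H ⊓ f.ker = (du M ⊓ St R K (Fin n)).toAddSubgroup.map j := by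
    ext z
    rw [AddSubgroup.mem_inf, hkf, AddSubgroup.mem_map]
    constructor
    · rintro ⟨hz, h0⟩
      obtain ⟨⟨z1, z2⟩, z3⟩ := (hHm z).1 hz
      rw [h0, mulVec_zero, sub_zero] at z2
      exact ⟨z ∘ Sum.inl, ⟨z2, ((hSz z).1 z3).1⟩, hel z h0⟩
    · rintro ⟨x, hx, rfl⟩
      refine ⟨(hHm _).2 ⟨⟨zero_mem _, ?_⟩, (hSz _).2 ⟨hx.2, zero_mem _⟩⟩, rfl⟩
      have e : (j x) ∘ Sum.inl - S.1 *ᵥ ((j x) ∘ Sum.inr) = x := by
        have e1 : (j x) ∘ Sum.inr = 0 := rfl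
        have e2 : (j x) ∘ Sum.inl = x := rfl
        rw [e1, e2, mulVec_zero, sub_zero]
      rw [e]
      exact hx.1
  have h5 : dg q (du M ⊓ St R K (Fin n)) (St R K (Fin n)) = dg q P M := by
    have e1 := dg_du h hlS (la_sup hM hlS) (le_sup_right : St R K (Fin n) ≤ M ⊔ St R K (Fin n))
    rw [du_St, ← hduMS] at e1
    rw [e1, sup_comm, dg_sup, hP, inf_comm, dg_inf]
  have hix : ix (Lm M S.1) (St2 R K n) = q ^ (dg q P (St R K (Fin n)) + dg q P M + nu q P S.1) := by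
    unfold ix
    rw [← AddSubgroup.inf_relIndex_right, ← hH, l4_index f _ _ hHG, hfG, hfH, hgG, hgH,
      AddSubgroup.relIndex_map_map_of_injective _ _ hj]
    have h1 := ix_eq h (la_ker h hlP S.1) hlS
    have h2 := ix_eq h (P := du M ⊓ St R K (Fin n)) (la_inf (la_du h hM) hlS) hlS
    unfold ix at h1 h2
    rw [h1, h2, h5, dg_add h (la_ker h hlP S.1) hlS (Q := P) (fun y hy => hy.1) (by rw [hP]; exact inf_le_right), ← pow_add]
    unfold nu
    congr 1
    ring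
  unfold dg
  rw [hix, Nat.log_pow h.dv.two]
  rfl

end

end Pool.Agent.Lib.H67G
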