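import Pool.Agent.Lib.H67G.L1D

/-!
# L5A (M): symmetric matrices which are integral on a lattice
-/

set_option linter.unusedSectionVars false

namespace Pool.Agent.Lib.H67G

open Matrix Pool.Agent.Lib.H89N

noncomputable section

variable {R K : Type} [CommRing R] [IsDomain R] [IsDiscreteValuationRing R] [Field K] [Algebra R K] {ϖ : R} {q : ℕ}
  {n : ℕ} {P Q M N : Submodule R (Fin n → K)} {A B : Matrix (Fin n) (Fin n) K}

/-!
`LS M = {S symmetric : x ⬝ S y ∈ R for x, y ∈ M}`.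

* `LS_anti`, `nu_congr` (`ker P S = ker P T` if `S - T ∈ LS P`), `nu_ac` (`ker (ac A P) S = ac A (ker P (Aᵀ S A))`, `dg_ac`).
* `exists_cg`: `e S = Aᵀ S A` with the inverse `T ↦ Bᵀ T B`; `(A x) ⬝ S (A y) = x ⬝ (Aᵀ S A) y`.
-/

theorem mem_LS {S : Sy n K} : S ∈ LS P ↔ ∀ x ∈ P, ∀ y ∈ P, In R (x ⬝ᵥ (S.1 *ᵥ y)) := Iff.rfl

theorem mem_LS_St {S : Sy n K} : S ∈ LS (St R K (Fin n)) ↔ ∀ i j, In R (S.1 i j) := by
  rw [mem_LS]
  constructor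
  · intro h i j
    have h1 := h _ (single_St i) _ (single_St j)
    rwa [Matrix.mulVec_single_one, single_one_dotProduct] at h1
  · intro h x hx y hy
    exact in_dot (mem_St.1 hx) fun i => in_dot (h i) (mem_St.1 hy)

theorem LS_anti (h : P ≤ M) : LS M ≤ LS P := fun _ hS x hx y hy => hS x (h hx) y (h hy)

theorem l5a_ker_le {S T : Sy n K} (h : S - T ∈ LS P) : ker P S.1 ≤ ker P T.1 := by
  rintro y ⟨hy, hy'⟩
  refine ⟨hy, fun z hz => ?_⟩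
  have h1 : z ⬝ᵥ (T.1 *ᵥ y) = z ⬝ᵥ (S.1 *ᵥ y) - z ⬝ᵥ ((S - T).1 *ᵥ y) := by
    have h2 : (S - T).1 *ᵥ y = S.1 *ᵥ y - T.1 *ᵥ y := sub_mulVec S.1 T.1 y
    rw [h2, dotProduct_sub]
    ring
  rw [h1]
  exact in_sub (hy' z hz) (h z hz y hy)

theorem nu_congr {S T : Sy n K} (h : S - T ∈ LS P) : nu q P S.1 = nu q P T.1 := by
  have h' : T - S ∈ LS P := by
    have := neg_mem h
    rwa [neg_sub] at this
  unfold nu
  rw [le_antisymm (l5a_ker_le h) (l5a_ker_le h')]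

theorem l5a_dot (A : Matrix (Fin n) (Fin n) K) (x y : Fin n → K) :
    x ⬝ᵥ (Aᵀ *ᵥ y) = (A *ᵥ x) ⬝ᵥ y := by
  rw [dotProduct_mulVec, vecMul_transpose]

theorem nu_ac (hAB : A * B = 1) (S : Matrix (Fin n) (Fin n) K) : nu q (ac A P) S = nu q P (Aᵀ * S * A) := by
  have h1 : ker (ac A P) S = ac A (ker P (Aᵀ * S * A)) := by
    ext y
    rw [mem_ac_inv hAB]
    have e1 : (Aᵀ * S * A) *ᵥ (B *ᵥ y) = Aᵀ *ᵥ (S *ᵥ y) := by
      rw [mulVec_mulVec, mul_assoc, hAB, mul_one, mulVec_mulVec]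
    constructor
    · rintro ⟨hy, hy'⟩
      refine ⟨(mem_ac_inv hAB).1 hy, fun z hz => ?_⟩
      rw [e1, l5a_dot]
      exact hy' _ ⟨z, hz, rfl⟩
    · rintro ⟨hy, hy'⟩
      refine ⟨(mem_ac_inv hAB).2 hy, ?_⟩
      rintro _ ⟨z, hz, rfl⟩
      have h2 := hy' z hz
      rw [e1, l5a_dot] at h2
      exact h2
  unfold nu
  rw [h1, dg_ac hAB]

theorem l5a_sym (C : Matrix (Fin n) (Fin n) K) (S : Sy n K) : (Cᵀ * S.1 * C)ᵀ = Cᵀ * S.1 * C := by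
  have h1 : S.1ᵀ = S.1 := S.2
  rw [transpose_mul, transpose_mul, transpose_transpose, h1, mul_assoc]

theorem exists_cg (hAB : A * B = 1) : ∃ e : Sy n K ≃+ Sy n K, (∀ S : Sy n K, (e S).1 = Aᵀ * S.1 * A) ∧
    ∀ (P : Submodule R (Fin n → K)) (S : Sy n K), S ∈ LS (ac A P) ↔ e S ∈ LS P := by
  have hBA : B * A = 1 := mul_eq_one_comm.1 hAB
  have t1 : Bᵀ * Aᵀ = 1 := by rw [← transpose_mul, hAB, transpose_one]
  have t2 : Aᵀ * Bᵀ = 1 := by rw [← transpose_mul, hBA, transpose_one]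
  refine ⟨{ toFun := fun S => ⟨Aᵀ * S.1 * A, l5a_sym A S⟩
            invFun := fun T => ⟨Bᵀ * T.1 * B, l5a_sym B T⟩
            left_inv := fun S => Subtype.ext ?_
            right_inv := fun T => Subtype.ext ?_
            map_add' := fun S T => Subtype.ext ?_ }, fun S => rfl, fun P S => ?_⟩
  · change Bᵀ * (Aᵀ * S.1 * A) * B = S.1
    rw [mul_assoc Bᵀ, mul_assoc _ A B, hAB, mul_one, ← mul_assoc, t1, one_mul]
  · change Aᵀ * (Bᵀ * T.1 * B) * A = T.1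
    rw [mul_assoc Aᵀ, mul_assoc _ B A, hBA, mul_one, ← mul_assoc, t2, one_mul]
  · change Aᵀ * (S.1 + T.1) * A = Aᵀ * S.1 * A + Aᵀ * T.1 * A
    rw [mul_add, add_mul]
  · have e1 : ∀ x y : Fin n → K, (A *ᵥ x) ⬝ᵥ (S.1 *ᵥ (A *ᵥ y)) = x ⬝ᵥ ((Aᵀ * S.1 * A) *ᵥ y) := by
      intro x y
      rw [← l5a_dot, mulVec_mulVec, mulVec_mulVec]
    constructor
    · intro hS x hx y hy
      have h1 := hS _ ⟨x, hx, rfl⟩ _ ⟨y, hy, rfl⟩
      change In R (x ⬝ᵥ ((Aᵀ * S.1 * A) *ᵥ y))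
      rw [← e1]
      exact h1
    · rintro hS _ ⟨x, hx, rfl⟩ _ ⟨y, hy, rfl⟩
      have h1 : In R (x ⬝ᵥ ((Aᵀ * S.1 * A) *ᵥ y)) := hS x hx y hy
      rw [← e1] at h1
      exact h1

end

end Pool.Agent.Lib.H67G
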