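import Pool.Agent.Lib.H67G.L5A

/-!
# L5B (M/L): the index of LS(M) in LS(P)
-/

namespace Pool.Agent.Lib.H67G

open Matrix Pool.Agent.Lib.H89N

noncomputable section

/-- The pairs `i ≤ j`. -/
abbrev l5b_I (n : ℕ) : Type := {p : Fin n × Fin n // p.1 ≤ p.2}

theorem l5b_sum (n : ℕ) (a : Fin n → ℕ) : ∑ p : l5b_I n, (a p.1.1 + a p.1.2) = (n + 1) * ∑ i, a i := by
  classical
  have h1 : ∑ p : l5b_I n, (a p.1.1 + a p.1.2) =
      ∑ p ∈ (Finset.univ : Finset (Fin n × Fin n)).filter (fun p => p.1 ≤ p.2), (a p.1 + a p.2) := by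
    rw [← Finset.sum_subtype_eq_sum_filter]
    refine Finset.sum_congr ?_ fun _ _ => rfl
    ext p
    simp
  have h2 : ∑ p ∈ (Finset.univ : Finset (Fin n × Fin n)).filter (fun p => p.1 ≤ p.2), (a p.1 + a p.2) =
      ∑ p ∈ (Finset.univ : Finset (Fin n × Fin n)).filter (fun p => p.2 ≤ p.1), (a p.1 + a p.2) := by
    refine Finset.sum_bij (fun p _ => (p.2, p.1)) ?_ ?_ ?_ ?_
    · intro p hp
      rw [Finset.mem_filter] at hp ⊢
      exact ⟨Finset.mem_univ _, hp.2⟩
    · intro p _ p' _ hpp
      rw [Prod.mk.injEq] at hpp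
      exact Prod.ext hpp.2 hpp.1
    · intro p hp
      rw [Finset.mem_filter] at hp
      exact ⟨(p.2, p.1), by rw [Finset.mem_filter]; exact ⟨Finset.mem_univ _, hp.2⟩, rfl⟩
    · intro p _
      exact add_comm _ _
  have h3 : ∑ p ∈ (Finset.univ : Finset (Fin n × Fin n)).filter (fun p => p.1 ≤ p.2), (a p.1 + a p.2) +
      ∑ p ∈ (Finset.univ : Finset (Fin n × Fin n)).filter (fun p => p.2 ≤ p.1), (a p.1 + a p.2) =
      ∑ p : Fin n × Fin n, (a p.1 + a p.2) +
        ∑ p ∈ (Finset.univ : Finset (Fin n × Fin n)).filter (fun p => p.1 = p.2), (a p.1 + a p.2) := by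
    have e1 : (Finset.univ : Finset (Fin n × Fin n)).filter (fun p => p.1 ≤ p.2) ∪
        (Finset.univ : Finset (Fin n × Fin n)).filter (fun p => p.2 ≤ p.1) = Finset.univ := by
      ext p
      simp only [Finset.mem_union, Finset.mem_filter, Finset.mem_univ, true_and, iff_true]
      exact le_total _ _
    have e2 : (Finset.univ : Finset (Fin n × Fin n)).filter (fun p => p.1 ≤ p.2) ∩
        (Finset.univ : Finset (Fin n × Fin n)).filter (fun p => p.2 ≤ p.1) =
        (Finset.univ : Finset (Fin n × Fin n)).filter (fun p => p.1 = p.2) := by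
      ext p
      simp only [Finset.mem_inter, Finset.mem_filter, Finset.mem_univ, true_and]
      constructor
      · rintro ⟨h1, h2⟩
        exact le_antisymm h1 h2
      · intro h
        rw [h]
        exact ⟨le_rfl, le_rfl⟩
    rw [← Finset.sum_union_inter, e1, e2]
  have h4 : ∑ p : Fin n × Fin n, (a p.1 + a p.2) = 2 * n * ∑ i, a i := by
    rw [Finset.sum_add_distrib, Fintype.sum_prod_type, Fintype.sum_prod_type]
    simp only [Finset.sum_const, Finset.card_univ, Fintype.card_fin, smul_eq_mul]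
    rw [← Finset.mul_sum]
    ring
  have h5 : ∑ p ∈ (Finset.univ : Finset (Fin n × Fin n)).filter (fun p => p.1 = p.2), (a p.1 + a p.2) =
      2 * ∑ i, a i := by
    have : ∑ p ∈ (Finset.univ : Finset (Fin n × Fin n)).filter (fun p => p.1 = p.2), (a p.1 + a p.2) =
        ∑ i : Fin n, (a i + a i) := by
      symm
      refine Finset.sum_bij (fun i _ => (i, i)) ?_ ?_ ?_ ?_
      · intro i _
        rw [Finset.mem_filter]
        exact ⟨Finset.mem_univ _, rfl⟩
      · intro i _ j _ hij
        exact (Prod.mk.injEq _ _ _ _ ▸ hij).1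
      · intro p hp
        rw [Finset.mem_filter] at hp
        exact ⟨p.1, Finset.mem_univ _, Prod.ext rfl hp.2⟩
      · intro i _
        rfl
    rw [this, Finset.sum_add_distrib]
    ring
  rw [h1]
  rw [← h2, h4, h5] at h3
  linarith

/-- Symmetric matrices as functions on the pairs `i ≤ j`. -/
def l5b_e (n : ℕ) (K : Type) [Field K] : Sy n K ≃+ (l5b_I n → K) where
  toFun S p := S.1 p.1.1 p.1.2
  invFun f := ⟨Matrix.of fun i j => if h : i ≤ j then f ⟨(i, j), h⟩ else f ⟨(j, i), (not_le.1 h).le⟩, by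
    ext i j
    rw [transpose_apply, of_apply, of_apply]
    rcases lt_trichotomy i j with hij | hij | hij
    · rw [dif_neg (not_le.2 hij), dif_pos hij.le]
    · subst hij
      rfl
    · rw [dif_pos hij.le, dif_neg (not_le.2 hij)]⟩
  left_inv S := by
    apply Subtype.ext
    ext i j
    change (if _ : i ≤ j then S.1 i j else S.1 j i) = S.1 i j
    split_ifs with h
    · rfl
    · have : S.1 j i = S.1 i j := by
        conv_lhs => rw [← S.2]
        rfl
      exact this
  right_inv f := by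
    funext p
    change (Matrix.of fun i j => if h : i ≤ j then f ⟨(i, j), h⟩ else f ⟨(j, i), (not_le.1 h).le⟩ : Matrix (Fin n) (Fin n) K) p.1.1 p.1.2 = f p
    rw [of_apply, dif_pos p.2]
  map_add' S T := rfl

theorem l5b_e_apply (n : ℕ) (K : Type) [Field K] (S : Sy n K) (p : l5b_I n) : l5b_e n K S p = S.1 p.1.1 p.1.2 := rfl

/-- Indices are preserved by isomorphisms. -/
theorem l5b_comap {A B : Type} [AddCommGroup A] [AddCommGroup B] (e : A ≃+ B) (H G : AddSubgroup B) :
    (H.comap e.toAddMonoidHom).relIndex (G.comap e.toAddMonoidHom) = H.relIndex G := by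
  rw [AddSubgroup.relIndex_comap, AddSubgroup.map_comap_eq_self_of_surjective]
  exact e.surjective

variable {R K : Type} [CommRing R] [IsDomain R] [IsDiscreteValuationRing R] [Field K] [Algebra R K] {ϖ : R} {q : ℕ}
  {n : ℕ} {P Q M N : Submodule R (Fin n → K)} {A B : Matrix (Fin n) (Fin n) K}

theorem l5b_D (h : LF R K ϖ q) {κ : Type} [Fintype κ] [DecidableEq κ] (a : κ → ℕ) :
    ((diagonal fun i => algebraMap R K ϖ ^ a i : Matrix κ κ K) * (diagonal fun i => (algebraMap R K ϖ ^ a i)⁻¹) = 1) ∧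
    (diagonal fun i => (algebraMap R K ϖ ^ a i)⁻¹ : Matrix κ κ K) * (diagonal fun i => algebraMap R K ϖ ^ a i) = 1 := by
  constructor
  · rw [diagonal_mul_diagonal, ← diagonal_one]
    congr 1
    funext i
    exact mul_inv_cancel₀ (pow_ne_zero _ (pi_ne h))
  · rw [diagonal_mul_diagonal, ← diagonal_one]
    congr 1
    funext i
    exact inv_mul_cancel₀ (pow_ne_zero _ (pi_ne h))

theorem l5b_ix (h : LF R K ϖ q) {κ : Type} [Fintype κ] [DecidableEq κ] (a : κ → ℕ) :
    ix (St R K κ) (ac (diagonal fun i => (algebraMap R K ϖ ^ a i)⁻¹) (St R K κ)) = q ^ ∑ i, a i := by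
  obtain ⟨h1, h2⟩ := l5b_D h a
  rw [← ix_diag h a, ← ix_ac (A := diagonal fun i => (algebraMap R K ϖ ^ a i)⁻¹) h2
    (P := ac (diagonal fun i => algebraMap R K ϖ ^ a i) (St R K κ)), ← ac_mul, h2, ac_one]

theorem l5b_diag (h : LF R K ϖ q) (a : Fin n → ℕ) :
    (LS (St R K (Fin n))).relIndex (LS (ac (diagonal fun i => algebraMap R K ϖ ^ a i) (St R K (Fin n)))) =
      q ^ ((n + 1) * ∑ i, a i) := by
  obtain ⟨h1, h2⟩ := l5b_D h a
  obtain ⟨b, hb⟩ : ∃ b : l5b_I n → ℕ, b = fun p => a p.1.1 + a p.1.2 := ⟨_, rfl⟩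
  obtain ⟨g1, g2⟩ := l5b_D (R := R) (K := K) h b
  have e1 : LS (St R K (Fin n)) = ((St R K (l5b_I n)).toAddSubgroup).comap (l5b_e n K).toAddMonoidHom := by
    ext S
    rw [mem_LS_St, AddSubgroup.mem_comap, Submodule.mem_toAddSubgroup, mem_St]
    constructor
    · intro hS p
      exact hS _ _
    · intro hS i j
      rcases le_total i j with hij | hij
      · exact hS ⟨(i, j), hij⟩
      · have : S.1 i j = S.1 j i := by
          conv_rhs => rw [← S.2]
          rfl
        rw [this]
        exact hS ⟨(j, i), hij⟩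
  have e2 : LS (ac (diagonal fun i => algebraMap R K ϖ ^ a i) (St R K (Fin n))) =
      ((ac (diagonal fun p => (algebraMap R K ϖ ^ b p)⁻¹) (St R K (l5b_I n))).toAddSubgroup).comap
        (l5b_e n K).toAddMonoidHom := by
    obtain ⟨e, he, he'⟩ := exists_cg (R := R) h1
    ext S
    rw [he', mem_LS_St, AddSubgroup.mem_comap, Submodule.mem_toAddSubgroup, mem_ac_inv g2, mem_St]
    have key : ∀ i j, (e S).1 i j = algebraMap R K ϖ ^ (a i + a j) * S.1 i j := by
      intro i j
      rw [he, diagonal_transpose, mul_diagonal, diagonal_mul, pow_add]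
      ring
    have key2 : ∀ p : l5b_I n, ((diagonal fun p => algebraMap R K ϖ ^ b p) *ᵥ ((l5b_e n K).toAddMonoidHom S)) p =
        algebraMap R K ϖ ^ (a p.1.1 + a p.1.2) * S.1 p.1.1 p.1.2 := by
      intro p
      rw [mulVec_diagonal, hb]
      rfl
    constructor
    · intro hS p
      rw [key2, ← key]
      exact hS _ _
    · intro hS i j
      rw [key]
      rcases le_total i j with hij | hij
      · have := hS ⟨(i, j), hij⟩
        rw [key2] at this
        exact this
      · have h3 : S.1 i j = S.1 j i := by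
          conv_rhs => rw [← S.2]
          rfl
        have := hS ⟨(j, i), hij⟩
        rw [key2] at this
        rw [h3, add_comm (a i)]
        exact this
  rw [e1, e2, l5b_comap, ← l5b_sum]
  have := l5b_ix h b
  unfold ix at this
  rw [this, hb]

/-- Adapted basis (`exists_adapted`): `M = ac A St`, `P = ac (A D) St`, `D = diagonal (ϖ ^ a_i)`. By `exists_cg` we may take `A = 1` (an isomorphism preserves the relative index:
`AddSubgroup.relIndex_comap`, `AddSubgroup.relIndex_map_map`). `LS St` = symmetric matrices with entries in `R` (`mem_LS_St`), `LS (ac D St)` = symmetric matrices with `ϖ ^ (a_i + a_j) S_ij ∈ R`. The map `S ↦ (ϖ ^ (a_i + a_j) S_ij)_(i ≤ j)`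
identifies the quotient with `∏_(i ≤ j) R / ϖ ^ (a_i + a_j)`, of cardinality `q ^ ∑_(i ≤ j) (a_i + a_j) = q ^ ((n + 1) ∑ a_i)` (every `a_i` occurs `n + 1` times: `i = j` gives `2 a_i`, and there are `n - 1` pairs with `i ≠ j`).
`∑ a_i = dg q P M` (`dg_diag`). The cardinality of `R / ϖ ^ a`: `H89N.index_span` (file `Pool.Agent.Lib.H89N.LD1`, which may be imported).
ALTERNATIVE: induction with steps of index `q`. -/
theorem relIndex_LS (h : LF R K ϖ q) (hP : IsLa ϖ P) (hM : IsLa ϖ M) (hPM : P ≤ M) :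
    (LS M).relIndex (LS P) = q ^ ((n + 1) * dg q P M) := by
  obtain ⟨A, B, a, hAB, -, hMA, hPA⟩ := exists_adapted h hP hM hPM
  obtain ⟨e, -, he⟩ := exists_cg (R := R) hAB
  have e1 : LS M = (LS (St R K (Fin n))).comap e.toAddMonoidHom := by
    ext S
    rw [hMA]
    exact he _ S
  have e2 : LS P = (LS (ac (diagonal fun i => algebraMap R K ϖ ^ a i) (St R K (Fin n)))).comap e.toAddMonoidHom := by
    ext S
    rw [hPA, ac_mul]
    exact he _ S
  rw [e1, e2, l5b_comap, l5b_diag h]
  have h3 : dg q P M = ∑ i, a i := by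
    rw [hMA, hPA]
    exact dg_diag h hAB a
  rw [h3]

end

end Pool.Agent.Lib.H67G
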