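import Pool.Agent.Lib.H67G.L5B
import Pool.Agent.Lib.H67G.GF2
import Pool.Agent.Lib.H67G.L1F
import Pool.Agent.Lib.H67G.L4

/-!
# L6A (M): the projection QS(M) to QS(P)
-/

namespace Pool.Agent.Lib.H67G

open Matrix Pool.Agent.Lib.H89N

noncomputable section

variable {R K : Type} [CommRing R] [IsDomain R] [IsDiscreteValuationRing R] [Field K] [Algebra R K] {ϖ : R} {q : ℕ}
  {n : ℕ} {P Q M N : Submodule R (Fin n → K)} {A B : Matrix (Fin n) (Fin n) K}

/-!
`QS M = Sy n K ⧸ LS M`, `FP q M P = gf (fun S : QS M => nu q P S.out.1) 1`, `BP q χ₀ M P` the same with the weight `χ₀ (S.out.1 0 0)`, `P ≤ M`.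

* `out_sub`: `(mk S).out - S ∈ LS M` (`QuotientAddGroup.eq`, `Quotient.out_eq`).
* `fin_nu`: if `nu q P S = k` then `ϖ ^ k P ⊆ ker P S` (`pow_smul_mem` for `ker P S ≤ P`; `ker P S` is a lattice: it contains `ϖ ^ m P` for large `m`), so `x ⬝ ϖ ^ k S y ∈ R` for `x, y ∈ P`, and `S ∈ LS (ac (ϖ ^ k • 1) P)`;
  `[LS (ac (ϖ ^ k • 1) P) : LS M]` is finite by `relIndex_LS` (`ac (ϖ ^ k • 1) P ≤ P ≤ M`). So the classes in `QS M` with `nu = k` lie in the finite image of this subgroup.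
* `FP_le`, `BP_le`: the projection `φ : QS M → QS P` (`QuotientAddGroup.map`, `LS_anti`) is surjective and its kernel `LS P / LS M` has `q ^ ((n + 1) dg q P M)` elements (`relIndex_LS`);
  `gf_hom`, with `nu q P (φ S).out = nu q P S.out` (`nu_congr`: `(φ S).out - S.out ∈ LS P`). For `BP`: `χ₀ ((φ S).out 0 0) = χ₀ (S.out 0 0)` because `T = (φ S).out - S.out ∈ LS P` and `e_1 ∈ P` give
  `T 0 0 = e_1 ⬝ T e_1 ∈ R` (`chl_congr`).
-/

theorem out_sub (S : Sy n K) : (QuotientAddGroup.mk S : QS M).out - S ∈ LS M := by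
  have h1 : (QuotientAddGroup.mk S : QS M) = QuotientAddGroup.mk (QuotientAddGroup.mk S : QS M).out :=
    (QuotientAddGroup.out_eq' _).symm
  have h2 := QuotientAddGroup.eq.1 h1
  rwa [neg_add_eq_sub] at h2

/-- If the length is `k` then `ϖ ^ (2 k)` times the form is integral. -/
theorem l6a_mem (h : LF R K ϖ q) (hP : IsLa ϖ P) {S : Sy n K} {k : ℕ} (hk : nu q P S.1 = k) :
    S ∈ LS (ac ((algebraMap R K ϖ ^ k) • (1 : Matrix (Fin n) (Fin n) K)) P) := by
  rw [mem_LS]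
  intro x hx y hy
  obtain ⟨x', hx', rfl⟩ := mem_ac.1 hx
  obtain ⟨y', hy', rfl⟩ := mem_ac.1 hy
  have h1 : ∀ z : Fin n → K, ((algebraMap R K ϖ ^ k) • (1 : Matrix (Fin n) (Fin n) K)) *ᵥ z = (algebraMap R K ϖ ^ k) • z := by
    intro z
    rw [smul_mulVec, one_mulVec]
  have h2 : ϖ ^ k • y' ∈ ker P S.1 := by
    have h3 := pow_smul_mem h (la_ker h hP S.1) hP (fun z hz => hz.1) hy'
    have h4 : dg q (ker P S.1) P = k := hk
    rwa [h4] at h3
  have h3 : (ϖ ^ k • y' : Fin n → K) = (algebraMap R K ϖ ^ k) • y' := by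
    rw [← map_pow, algebraMap_smul]
  rw [h1, h1, smul_dotProduct, smul_eq_mul]
  have h4 := h2.2 x' hx'
  rw [h3] at h4
  exact in_mul (in_pow (in_alg ϖ) k) h4

theorem fin_nu (h : LF R K ϖ q) (hP : IsLa ϖ P) (hM : IsLa ϖ M) (hPM : P ≤ M) :
    FinF (fun S : QS M => nu q P S.out.1) := by
  intro k
  have hpi : (algebraMap R K ϖ ^ k) ≠ 0 := pow_ne_zero k (pi_ne h)
  obtain ⟨D, hD⟩ : ∃ D : Matrix (Fin n) (Fin n) K, D = (algebraMap R K ϖ ^ k) • (1 : Matrix (Fin n) (Fin n) K) := ⟨_, rfl⟩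
  have hDD : D * ((algebraMap R K ϖ ^ k)⁻¹ • (1 : Matrix (Fin n) (Fin n) K)) = 1 := by
    rw [hD, smul_mul_smul_comm, mul_one, mul_inv_cancel₀ hpi, one_smul]
  have hPk : IsLa ϖ (ac D P) := la_ac h hDD hP
  have hle : ac D P ≤ M := by
    intro x hx
    obtain ⟨x', hx', rfl⟩ := mem_ac.1 hx
    have h3 : D *ᵥ x' = ϖ ^ k • x' := by
      rw [hD, smul_mulVec, one_mulVec, ← map_pow, algebraMap_smul]
    rw [h3]
    exact Submodule.smul_mem _ _ (hPM hx')
  have h1 := relIndex_LS h hPk hM hle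
  have h2 : (LS M).relIndex (LS (ac D P)) ≠ 0 := by
    rw [h1]
    have := h.dv.two
    exact pow_ne_zero _ (by omega)
  have hfi : ((LS M).addSubgroupOf (LS (ac D P))).FiniteIndex := ⟨h2⟩
  have hfin : Finite (LS (ac D P) ⧸ (LS M).addSubgroupOf (LS (ac D P))) := AddSubgroup.finite_quotient_of_finiteIndex
  refine (Set.finite_range (QuotientAddGroup.map ((LS M).addSubgroupOf (LS (ac D P))) (LS M) (LS (ac D P)).subtype
    (fun x hx => hx))).subset ?_
  intro S hS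
  have h3 : S.out ∈ LS (ac D P) := by
    rw [hD]
    exact l6a_mem h hP hS
  refine ⟨QuotientAddGroup.mk ⟨S.out, h3⟩, ?_⟩
  rw [QuotientAddGroup.map_mk]
  exact QuotientAddGroup.out_eq' S

/-- The projection. -/
def l6a_phi (hPM : P ≤ M) : QS M →+ QS P := QuotientAddGroup.map (LS M) (LS P) (AddMonoidHom.id (Sy n K)) (LS_anti hPM)

theorem l6a_phi_mk (hPM : P ≤ M) (S : Sy n K) : l6a_phi hPM (QuotientAddGroup.mk S) = QuotientAddGroup.mk S := rfl

theorem l6a_out (hPM : P ≤ M) (S : QS M) : (l6a_phi hPM S).out - S.out ∈ LS P := by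
  have h1 : l6a_phi hPM S = QuotientAddGroup.mk S.out := by
    rw [← l6a_phi_mk hPM, QuotientAddGroup.out_eq']
  rw [h1]
  exact out_sub S.out

theorem l6a_surj (hPM : P ≤ M) : Function.Surjective (l6a_phi hPM) := by
  intro T
  obtain ⟨T, rfl⟩ := QuotientAddGroup.mk_surjective T
  exact ⟨QuotientAddGroup.mk T, rfl⟩

theorem l6a_card (h : LF R K ϖ q) (hP : IsLa ϖ P) (hM : IsLa ϖ M) (hPM : P ≤ M) :
    Nat.card (l6a_phi hPM).ker = q ^ ((n + 1) * dg q P M) := by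
  have h1 : (l6a_phi hPM).ker = (LS P).map (QuotientAddGroup.mk' (LS M)) := by
    unfold l6a_phi
    rw [QuotientAddGroup.ker_map, AddSubgroup.comap_id]
  rw [h1, ← AddSubgroup.relIndex_ker, QuotientAddGroup.ker_mk', relIndex_LS h hP hM hPM]

theorem l6a_nu (hPM : P ≤ M) (S : QS M) : nu q P S.out.1 = nu q P (l6a_phi hPM S).out.1 :=
  (nu_congr (l6a_out hPM S)).symm

theorem FP_le (h : LF R K ϖ q) (hP : IsLa ϖ P) (hM : IsLa ϖ M) (hPM : P ≤ M) :
    FP q M P = PowerSeries.C ((q : ℂ) ^ ((n + 1) * dg q P M)) * FP q P P := by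
  have hq : 0 < q := by
    have := h.dv.two
    omega
  have h1 := gf_hom (l6a_phi hPM) (l6a_surj hPM) _ (l6a_card h hP hM hPM) (pow_pos hq _)
    (fun T : QS P => nu q P T.out.1) (fun _ => 1) (fin_nu h hP hP le_rfl)
  have h2 : (fun S : QS M => nu q P S.out.1) = fun S => nu q P (l6a_phi hPM S).out.1 := funext fun S => l6a_nu hPM S
  unfold FP
  rw [h2, h1, Nat.cast_pow]

theorem BP_le [NeZero n] (h : LF R K ϖ q) {χ₀ : K → ℂ} (hχ : Chl ϖ χ₀) (hP : IsLa ϖ P) (hM : IsLa ϖ M) (hPM : P ≤ M)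
    (he : e1 n K ∈ P) : BP q χ₀ M P = PowerSeries.C ((q : ℂ) ^ ((n + 1) * dg q P M)) * BP q χ₀ P P := by
  have hq : 0 < q := by
    have := h.dv.two
    omega
  have h1 := gf_hom (l6a_phi hPM) (l6a_surj hPM) _ (l6a_card h hP hM hPM) (pow_pos hq _)
    (fun T : QS P => nu q P T.out.1) (fun T => χ₀ (T.out.1 0 0)) (fin_nu h hP hP le_rfl)
  have h2 : (fun S : QS M => nu q P S.out.1) = fun S => nu q P (l6a_phi hPM S).out.1 := funext fun S => l6a_nu hPM S
  have h3 : (fun S : QS M => χ₀ (S.out.1 0 0)) = fun S => χ₀ ((l6a_phi hPM S).out.1 0 0) := by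
    funext S
    refine (chl_congr hχ ?_).symm
    have h4 := mem_LS.1 (l6a_out hPM S) _ he _ he
    have h5 : e1 n K ⬝ᵥ (((l6a_phi hPM S).out - S.out).1 *ᵥ e1 n K) = (l6a_phi hPM S).out.1 0 0 - S.out.1 0 0 := by
      unfold e1
      rw [mulVec_single_one, single_one_dotProduct]
      rfl
    rwa [h5] at h4
  unfold BP
  rw [h2, h3, h1, Nat.cast_pow]

end

end Pool.Agent.Lib.H67G
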