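import Pool.Agent.Lib.H67G.L5A
import Pool.Agent.Lib.H67G.GF1
import Pool.Agent.Lib.H67G.L1A

/-!
# L6C (M): change of the basis in the sums
-/

set_option linter.unusedSectionVars false

namespace Pool.Agent.Lib.H67G

open Matrix Pool.Agent.Lib.H89N

noncomputable section

variable {R K : Type} [CommRing R] [IsDomain R] [IsDiscreteValuationRing R] [Field K] [Algebra R K] {ϖ : R} {q : ℕ}
  {n : ℕ} {P Q M N : Submodule R (Fin n → K)} {A B : Matrix (Fin n) (Fin n) K}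

/-!
`exists_cg` gives a bijection `QS (ac A P) → QS P`, `mk S ↦ mk (e S)`, `e S = Aᵀ S A` (`QuotientAddGroup.congr`, or by hand with `out`), and `nu q (ac A P) S = nu q P (Aᵀ S A)` (`nu_ac`, `nu_congr` for the representatives);
if `A e_1 = e_1` then `(Aᵀ S A) 0 0 = (A e_1) ⬝ S (A e_1) = S 0 0`; changing the representative modulo `LS P`, `e_1 ∈ P`, changes the entry `0 0` by an element of `R` (`chl_congr`). Then `gf_bij`.
-/

theorem l6c_equiv (P : Submodule R (Fin n → K)) (hAB : A * B = 1) :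
    ∃ φ : QS (ac A P) → QS P, Function.Bijective φ ∧
      ∀ s, ∃ T : Sy n K, T.1 = Aᵀ * s.out.1 * A ∧ (φ s).out - T ∈ LS P := by
  obtain ⟨e, he1, he2⟩ := exists_cg (R := R) (B := B) hAB
  have hm : (LS (ac A P)).map (e : Sy n K →+ Sy n K) = LS P := by
    ext T
    rw [AddSubgroup.mem_map]
    constructor
    · rintro ⟨S, hS, rfl⟩
      exact (he2 P S).1 hS
    · intro hT
      refine ⟨e.symm T, (he2 P _).2 ?_, ?_⟩
      · rw [AddEquiv.apply_symm_apply]
        exact hT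
      · exact AddEquiv.apply_symm_apply e T
  refine ⟨QuotientAddGroup.congr (LS (ac A P)) (LS P) e hm, (QuotientAddGroup.congr (LS (ac A P)) (LS P) e hm).bijective,
    fun s => ⟨e s.out, he1 _, ?_⟩⟩
  have h1 : QuotientAddGroup.congr (LS (ac A P)) (LS P) e hm s = QuotientAddGroup.mk (e s.out) := by
    conv_lhs => rw [← QuotientAddGroup.out_eq' s]
    rfl
  have h2 : (QuotientAddGroup.mk (e s.out) : QS P) =
      QuotientAddGroup.mk ((QuotientAddGroup.congr (LS (ac A P)) (LS P) e hm s).out) := by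
    rw [QuotientAddGroup.out_eq', h1]
  have h3 := QuotientAddGroup.eq.1 h2
  rwa [← sub_eq_neg_add] at h3

theorem FP_ac (h : LF R K ϖ q) (hAB : A * B = 1) (hP : IsLa ϖ P) : FP q (ac A P) (ac A P) = FP q P P := by
  have _ := h
  have _ := hP
  obtain ⟨φ, hφ, h1⟩ := l6c_equiv P hAB
  unfold FP
  rw [← gf_bij φ hφ]
  congr 1
  funext s
  obtain ⟨T, hT, hd⟩ := h1 s
  rw [nu_congr hd, hT, nu_ac hAB]

theorem l6c_00 [NeZero n] (S : Matrix (Fin n) (Fin n) K) : e1 n K ⬝ᵥ (S *ᵥ e1 n K) = S 0 0 := by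
  unfold e1
  rw [Matrix.mulVec_single_one, single_one_dotProduct]
  rfl

theorem BP_ac [NeZero n] (h : LF R K ϖ q) {χ₀ : K → ℂ} (hχ : Chl ϖ χ₀) (hAB : A * B = 1) (hP : IsLa ϖ P)
    (he : A *ᵥ e1 n K = e1 n K) (he' : e1 n K ∈ P) : BP q χ₀ (ac A P) (ac A P) = BP q χ₀ P P := by
  have _ := h
  have _ := hP
  obtain ⟨φ, hφ, h1⟩ := l6c_equiv P hAB
  unfold BP
  rw [← gf_bij φ hφ]
  congr 1
  · funext s
    obtain ⟨T, hT, hd⟩ := h1 s
    rw [nu_congr hd, hT, nu_ac hAB]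
  · funext s
    obtain ⟨T, hT, hd⟩ := h1 s
    have h2 : In R ((φ s).out.1 0 0 - T.1 0 0) := by
      have h3 := hd _ he' _ he'
      rw [l6c_00] at h3
      exact h3
    rw [chl_congr hχ h2, hT, ← l6c_00 (Aᵀ * s.out.1 * A), ← mulVec_mulVec, ← mulVec_mulVec, he,
      l5a_dot, he, l6c_00]

end

end Pool.Agent.Lib.H67G
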