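import Pool.Agent.Lib.H67G.L6A
import Pool.Agent.Lib.H67G.L6C
import Pool.Agent.Lib.H67G.L1G

/-!
# L6B: assembly (proved)
-/

namespace Pool.Agent.Lib.H67G

open Matrix Pool.Agent.Lib.H89N

noncomputable section

variable {R K : Type} [CommRing R] [IsDomain R] [IsDiscreteValuationRing R] [Field K] [Algebra R K] {ϖ : R} {q : ℕ}
  {n : ℕ} {P Q M N : Submodule R (Fin n → K)} {A B : Matrix (Fin n) (Fin n) K}

theorem FP_eq (h : LF R K ϖ q) (hP : IsLa ϖ P) (hM : IsLa ϖ M) (hPM : P ≤ M) :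
    FP q M P = PowerSeries.C ((q : ℂ) ^ ((n + 1) * dg q P M)) * FP q (St R K (Fin n)) (St R K (Fin n)) := by
  rw [FP_le h hP hM hPM]
  obtain ⟨A, B, hAB, _, hPA⟩ := exists_basis h hP
  rw [hPA, FP_ac h hAB la_St]

theorem BP_eq [NeZero n] (h : LF R K ϖ q) {χ₀ : K → ℂ} (hχ : Chl ϖ χ₀) (hP : IsLa ϖ P) (hM : IsLa ϖ M) (hPM : P ≤ M)
    (he : e1 n K ∈ P) (hS : P ≤ St R K (Fin n)) :
    BP q χ₀ M P = PowerSeries.C ((q : ℂ) ^ ((n + 1) * dg q P M)) * BP q χ₀ (St R K (Fin n)) (St R K (Fin n)) := by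
  rw [BP_le h hχ hP hM hPM he]
  obtain ⟨A, B, hAB, _, hPA, hA⟩ := exists_basis_first h hP he hS
  rw [hPA, BP_ac h hχ hAB la_St hA (single_St 0)]

end

end Pool.Agent.Lib.H67G
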