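import Pool.Agent.Lib.H67G.L1F

/-!
# L7A (M): orders of vectors modulo R
-/

namespace Pool.Agent.Lib.H67G

open Matrix Pool.Agent.Lib.H89N

noncomputable section

variable {R K : Type} [CommRing R] [IsDomain R] [IsDiscreteValuationRing R] [Field K] [Algebra R K] {ϖ : R} {q : ℕ} {m : ℕ}

/-!
`od ϖ s` is the least `g` with `ϖ ^ g s ∈ R ^ m` (exists by `h.frac`), `od1 ϖ c` the least `g` with `ϖ ^ g c ∈ R`.

* `dg_PP`: `PPl s = {y ∈ R ^ m : s ⬝ y ∈ R}` has index `q ^ od(s)` in `R ^ m`: the map `y ↦ s ⬝ y` mod `R` from `R ^ m` to `K / R` has the kernel `PPl s` and the image `(ϖ ^ (-g) R) / R`, `g = od ϖ s`: the image of the map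
  `y ↦ s ⬝ y` is the fractional ideal generated by the `s_i`; together with `R` it is `ϖ ^ (-g) R` (all `ϖ ^ g s_i ∈ R`, and if `g ≥ 1` one of them is a unit). `[ϖ ^ (-g) R : R] = q ^ g` (`H89N.index_span`, file `Pool.Agent.Lib.H89N.LD1`).
  Alternative: if `g ≥ 1` and `ϖ ^ g s_i = u` is a unit, then `PPl s` is the set of the `y ∈ R ^ m` with `∑_j ϖ ^ g s_j y_j ∈ ϖ ^ g R`, the kernel of the surjective map `R ^ m → R / ϖ ^ g`, `y ↦ ∑_j (ϖ ^ g s_j) y_j`.
* `du_PP`: `PPl s = du (St ⊔ R s)`; `St ⊔ R s` is a lattice; `du_du`.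
* `od1_uv`: `z ∉ R` implies that `ϖ ^ (od1 z) z` is a unit of `R` (compare `exists_uv`).
-/

theorem l7a_ne (h : LF R K ϖ q) (s : Fin m → K) : {g | ∀ i, In R (algebraMap R K ϖ ^ g * s i)}.Nonempty := by
  obtain ⟨g, hg⟩ := la_absorb (ϖ := ϖ) h (la_St (R := R) (K := K) (ι := Fin m)) s
  refine ⟨g, fun i => ?_⟩
  have h1 := mem_St.1 hg i
  rwa [Pi.smul_apply, Algebra.smul_def, map_pow] at h1

theorem od_spec (h : LF R K ϖ q) (s : Fin m → K) (i : Fin m) : In R (algebraMap R K ϖ ^ od ϖ s * s i) :=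
  Nat.sInf_mem (l7a_ne h s) i

omit [IsDomain R] [IsDiscreteValuationRing R] in
theorem od_le (s : Fin m → K) (g : ℕ) (hg : ∀ i, In R (algebraMap R K ϖ ^ g * s i)) : od ϖ s ≤ g :=
  Nat.sInf_le hg

theorem l7a_in_congr {x y : K} (g : ℕ) (hxy : In R (x - y)) (hx : In R (algebraMap R K ϖ ^ g * x)) :
    In R (algebraMap R K ϖ ^ g * y) := by
  have h1 : algebraMap R K ϖ ^ g * y = algebraMap R K ϖ ^ g * x - algebraMap R K ϖ ^ g * (x - y) := by ring
  rw [h1]
  exact in_sub hx (in_mul (in_pow (in_alg ϖ) g) hxy)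

theorem od_congr (h : LF R K ϖ q) {s t : Fin m → K} (hst : s - t ∈ St R K (Fin m)) : od ϖ s = od ϖ t := by
  have h1 : ∀ i, In R (s i - t i) := mem_St.1 hst
  have h2 : ∀ i, In R (t i - s i) := by
    intro i
    have h3 := in_neg (h1 i)
    rwa [neg_sub] at h3
  exact le_antisymm (od_le s _ fun i => l7a_in_congr _ (h2 i) (od_spec h t i))
    (od_le t _ fun i => l7a_in_congr _ (h1 i) (od_spec h s i))

theorem od1_spec (h : LF R K ϖ q) (c : K) : In R (algebraMap R K ϖ ^ od1 ϖ c * c) :=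
  Nat.sInf_mem (s := {g | In R (algebraMap R K ϖ ^ g * c)}) (h.frac c)

omit [IsDomain R] [IsDiscreteValuationRing R] in
theorem od1_le (c : K) (g : ℕ) (hg : In R (algebraMap R K ϖ ^ g * c)) : od1 ϖ c ≤ g :=
  Nat.sInf_le hg

theorem od1_congr (h : LF R K ϖ q) {c d : K} (hcd : In R (c - d)) : od1 ϖ c = od1 ϖ d := by
  have h2 : In R (d - c) := by
    have h3 := in_neg hcd
    rwa [neg_sub] at h3
  exact le_antisymm (od1_le c _ (l7a_in_congr _ h2 (od1_spec h d))) (od1_le d _ (l7a_in_congr _ hcd (od1_spec h c)))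

theorem od1_zero_iff (h : LF R K ϖ q) (c : K) : od1 ϖ c = 0 ↔ In R c := by
  constructor
  · intro h0
    have h1 := od1_spec h c
    rwa [h0, pow_zero, one_mul] at h1
  · intro hc
    have h1 : od1 ϖ c ≤ 0 := od1_le c 0 (by rwa [pow_zero, one_mul])
    omega

theorem l7a_unit (h : LF R K ϖ q) {z : K} {k : ℕ} {u v : R} (huv : u * v = 1)
    (hz : algebraMap R K ϖ ^ k * z = algebraMap R K u) {g : ℕ} (hg : In R (algebraMap R K ϖ ^ g * z)) : k ≤ g := by
  by_contra hlt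
  push Not at hlt
  obtain ⟨r, hr⟩ := hg
  have h1 : algebraMap R K u = algebraMap R K (ϖ ^ (k - g) * r) := by
    rw [map_mul, hr, map_pow, ← mul_assoc, ← pow_add, ← hz]
    congr 2
    omega
  have h2 : u = ϖ ^ (k - g) * r := h.inj h1
  have h3 : ϖ ∣ u := by
    rw [h2]
    exact Dvd.dvd.mul_right (dvd_pow_self ϖ (by omega)) r
  exact h.dv.irr.not_isUnit (isUnit_of_dvd_unit h3 (IsUnit.of_mul_eq_one v huv))

theorem od1_uv (h : LF R K ϖ q) {c : K} (hc : ¬In R c) : ∃ u v : R, u * v = 1 ∧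
    algebraMap R K ϖ ^ od1 ϖ c * c = algebraMap R K u := by
  obtain ⟨k, -, u, v, huv, hk⟩ := exists_uv h hc
  have h1 : k ≤ od1 ϖ c := l7a_unit h huv hk (od1_spec h c)
  have h2 : od1 ϖ c ≤ k := od1_le c k ⟨u, hk.symm⟩
  have h3 : od1 ϖ c = k := le_antisymm h2 h1
  exact ⟨u, v, huv, by rw [h3, hk]⟩

omit [IsDomain R] [IsDiscreteValuationRing R] in
theorem l7a_mem_PP {s y : Fin m → K} : y ∈ PPl (R := R) s ↔ y ∈ St R K (Fin m) ∧ In R (s ⬝ᵥ y) := Iff.rfl

theorem la_PP (h : LF R K ϖ q) (s : Fin m → K) : IsLa ϖ (PPl (R := R) s) := by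
  refine ⟨od ϖ s, fun x hx => ?_, fun x hx => Submodule.smul_mem _ _ hx.1⟩
  refine l7a_mem_PP.2 ⟨Submodule.smul_mem _ _ hx, ?_⟩
  have h1 : s ⬝ᵥ (ϖ ^ od ϖ s • x) = (fun i => algebraMap R K ϖ ^ od ϖ s * s i) ⬝ᵥ x := by
    rw [dotProduct, dotProduct]
    refine Finset.sum_congr rfl fun i _ => ?_
    rw [Pi.smul_apply, Algebra.smul_def, map_pow]
    ring
  rw [h1]
  exact in_dot (od_spec h s) (mem_St.1 hx)

theorem l7a_eq (s : Fin m → K) : PPl (R := R) s = du (St R K (Fin m) ⊔ Submodule.span R {s}) := by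
  rw [du_sup, du_St]
  ext y
  rw [Submodule.mem_inf, l7a_mem_PP, mem_du]
  refine and_congr_right fun _ => ?_
  constructor
  · intro h1 z hz
    obtain ⟨c, rfl⟩ := Submodule.mem_span_singleton.1 hz
    rw [dotProduct_smul, Algebra.smul_def, dotProduct_comm]
    exact in_mul (in_alg c) h1
  · intro h1
    have h2 := h1 s (Submodule.mem_span_singleton_self s)
    rwa [dotProduct_comm] at h2

theorem l7a_la (h : LF R K ϖ q) (s : Fin m → K) : IsLa ϖ (St R K (Fin m) ⊔ Submodule.span R {s}) := by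
  refine ⟨od ϖ s, fun x hx => Submodule.smul_mem _ _ (Submodule.mem_sup_left hx), fun x hx => ?_⟩
  obtain ⟨a, ha, b, hb, rfl⟩ := Submodule.mem_sup.1 hx
  obtain ⟨c, rfl⟩ := Submodule.mem_span_singleton.1 hb
  rw [smul_add, smul_comm]
  refine add_mem (Submodule.smul_mem _ _ ha) (Submodule.smul_mem _ _ (mem_St.2 fun i => ?_))
  rw [Pi.smul_apply, Algebra.smul_def, map_pow]
  exact od_spec h s i

theorem du_PP (h : LF R K ϖ q) (s : Fin m → K) : du (PPl (R := R) s) = St R K (Fin m) ⊔ Submodule.span R {s} := by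
  rw [l7a_eq, du_du h (l7a_la h s)]

/-- The map `y ↦ ∑ r_i y_i` modulo `ϖ ^ g`. -/
def l7a_f (ϖ : R) (g : ℕ) (r : Fin m → R) : (Fin m → R) →+ R ⧸ (Ideal.span {ϖ ^ g} : Ideal R) where
  toFun y := Ideal.Quotient.mk _ (r ⬝ᵥ y)
  map_zero' := by rw [dotProduct_zero, map_zero]
  map_add' y z := by rw [dotProduct_add, map_add]

theorem l7a_comap (h : LF R K ϖ q) (s : Fin m → K) (g : ℕ) (r : Fin m → R)
    (hr : ∀ i, algebraMap R K (r i) = algebraMap R K ϖ ^ g * s i) :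
    (PPl (R := R) s).toAddSubgroup.comap (l1d_f R K (Fin m)) = (l7a_f ϖ g r).ker := by
  have hp : algebraMap R K ϖ ^ g ≠ 0 := pow_ne_zero _ (pi_ne h)
  have key : ∀ v : Fin m → R, algebraMap R K (r ⬝ᵥ v) = algebraMap R K ϖ ^ g * (s ⬝ᵥ l1d_f R K (Fin m) v) := by
    intro v
    rw [dotProduct, dotProduct, map_sum, Finset.mul_sum]
    refine Finset.sum_congr rfl fun i _ => ?_
    rw [map_mul, hr, mul_assoc]
    rfl
  ext v
  rw [AddMonoidHom.mem_ker, AddSubgroup.mem_comap]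
  constructor
  · rintro ⟨-, c, hc⟩
    change Ideal.Quotient.mk _ (r ⬝ᵥ v) = 0
    rw [Ideal.Quotient.eq_zero_iff_mem, Ideal.mem_span_singleton]
    refine ⟨c, h.inj ?_⟩
    rw [key, map_mul, map_pow, hc]
  · intro hv
    have h3 : Ideal.Quotient.mk (Ideal.span {ϖ ^ g}) (r ⬝ᵥ v) = 0 := hv
    rw [Ideal.Quotient.eq_zero_iff_mem, Ideal.mem_span_singleton] at h3
    obtain ⟨c, hc⟩ := h3
    refine ⟨fun i => ⟨v i, rfl⟩, c, ?_⟩
    have h4 := key v
    rw [hc, map_mul, map_pow] at h4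
    exact mul_left_cancel₀ hp h4

omit [IsDomain R] [IsDiscreteValuationRing R] in
theorem l7a_surj (g : ℕ) (r : Fin m → R) (hr : ∃ i, ∃ v : R, r i * v = 1) : (l7a_f ϖ g r).range = ⊤ := by
  rw [AddMonoidHom.range_eq_top]
  intro y
  obtain ⟨x, rfl⟩ := Ideal.Quotient.mk_surjective y
  obtain ⟨i, v, hv⟩ := hr
  refine ⟨Pi.single i (v * x), ?_⟩
  change Ideal.Quotient.mk _ (r ⬝ᵥ Pi.single i (v * x)) = _
  rw [dotProduct_single, ← mul_assoc, hv, one_mul]

theorem l7a_exists (h : LF R K ϖ q) (s : Fin m → K) (r : Fin m → R)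
    (hr : ∀ i, algebraMap R K (r i) = algebraMap R K ϖ ^ od ϖ s * s i) (h0 : od ϖ s ≠ 0) : ∃ i, ∃ v : R, r i * v = 1 := by
  by_contra hcon
  push Not at hcon
  have h1 : ∀ i, ∃ c : R, r i = ϖ * c := by
    intro i
    have h2 : ¬IsUnit (r i) := by
      intro hu
      obtain ⟨v, hv⟩ := hu.exists_right_inv
      exact hcon i v hv
    have h3 : r i ∈ IsLocalRing.maximalIdeal R := h2
    rw [h.dv.irr.maximalIdeal_eq, Ideal.mem_span_singleton] at h3
    exact h3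
  have hp : algebraMap R K ϖ ≠ 0 := pi_ne h
  have h4 : od ϖ s ≤ od ϖ s - 1 := by
    refine od_le s _ fun i => ?_
    obtain ⟨c, hc⟩ := h1 i
    refine ⟨c, ?_⟩
    have h5 := hr i
    rw [hc, map_mul] at h5
    obtain ⟨k, hk⟩ := Nat.exists_eq_succ_of_ne_zero h0
    rw [hk, Nat.succ_eq_add_one, pow_succ', mul_assoc] at h5
    rw [hk, Nat.succ_eq_add_one, Nat.add_sub_cancel]
    exact mul_left_cancel₀ hp h5
  omega

theorem dg_PP (h : LF R K ϖ q) (s : Fin m → K) : dg q (PPl (R := R) s) (St R K (Fin m)) = od ϖ s := by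
  obtain ⟨r, hr⟩ : ∃ r : Fin m → R, ∀ i, algebraMap R K (r i) = algebraMap R K ϖ ^ od ϖ s * s i := by
    have h1 : ∀ i, ∃ r : R, algebraMap R K r = algebraMap R K ϖ ^ od ϖ s * s i := od_spec h s
    choose r hr using h1
    exact ⟨r, hr⟩
  have h1 : ix (PPl (R := R) s) (St R K (Fin m)) = q ^ od ϖ s := by
    unfold ix
    rw [← l1d_range, ← AddSubgroup.index_comap, l7a_comap h s _ r hr, AddSubgroup.index_ker]
    by_cases h0 : od ϖ s = 0
    · have h2 : Subsingleton (R ⧸ (Ideal.span {ϖ ^ od ϖ s} : Ideal R)) := by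
        rw [h0, pow_zero, Ideal.span_singleton_one]
        exact Ideal.Quotient.subsingleton_iff.2 rfl
      have h3 : Subsingleton (l7a_f ϖ (od ϖ s) r).range := ⟨fun a b => Subtype.ext (h2.elim _ _)⟩
      have h4 : q ^ od ϖ s = 1 := by rw [h0, pow_zero]
      rw [h4]
      exact Nat.card_unique
    · rw [l7a_surj _ r (l7a_exists h s r hr h0)]
      have h3 : Nat.card (⊤ : AddSubgroup (R ⧸ (Ideal.span {ϖ ^ od ϖ s} : Ideal R))) =
          Nat.card (R ⧸ (Ideal.span {ϖ ^ od ϖ s} : Ideal R)) := AddSubgroup.card_top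
      rw [h3]
      exact index_span h.dv _
  rw [dg, h1, Nat.log_pow h.dv.two]

end

end Pool.Agent.Lib.H67G
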