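import Pool.Agent.Lib.H67G.L7A
import Pool.Agent.Lib.H67G.L5A
import Pool.Agent.Lib.H67G.L4
import Pool.Agent.Lib.H89N.LD1

/-!
# L7B (M/L): Lemma N
-/

namespace Pool.Agent.Lib.H67G

open Matrix Pool.Agent.Lib.H89N

noncomputable section

/-- The index of a subgroup and a homomorphism. -/
theorem l7b_index {A B : Type} [AddCommGroup A] [AddCommGroup B] (f : A →+ B) (H G : AddSubgroup A) (hHG : H ≤ G) :
    H.relIndex G = (H.map f).relIndex (G.map f) * (H ⊓ f.ker).relIndex (G ⊓ f.ker) := by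
  have h1 : (H.map f).relIndex (G.map f) = (H ⊔ f.ker).relIndex G := by
    rw [AddSubgroup.relIndex_map_map]
    have e : G ⊔ f.ker = G ⊔ (H ⊔ f.ker) := by
      rw [← sup_assoc, sup_eq_left.2 hHG]
    rw [e, AddSubgroup.relIndex_sup_right]
  have h2 : (H ⊓ f.ker).relIndex (G ⊓ f.ker) = H.relIndex ((H ⊔ f.ker) ⊓ G) := by
    have e : (H ⊔ f.ker) ⊓ G = H ⊔ (G ⊓ f.ker) := by
      rw [sup_inf_assoc_of_le _ hHG, inf_comm f.ker]
    have e2 : H ⊓ f.ker = H ⊓ (G ⊓ f.ker) := by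
      rw [← inf_assoc, inf_eq_left.2 hHG]
    rw [e, AddSubgroup.relIndex_sup_left, e2, AddSubgroup.inf_relIndex_right]
  rw [h1, h2, mul_comm]
  have h3 : (H ⊔ f.ker).relIndex G = ((H ⊔ f.ker) ⊓ G).relIndex G := (AddSubgroup.inf_relIndex_right _ _).symm
  rw [h3, AddSubgroup.relIndex_mul_relIndex _ _ _ (le_inf le_sup_left hHG) inf_le_right]

section gen

variable {R K : Type} [CommRing R] [Field K] [Algebra R K] {m : ℕ}

/-- The action of the matrix. -/
theorem l7b_zero (c : K) (s : Fin m → K) (T : Sy m K) (y : Fin (m + 1) → K) :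
    ((mN R c s T).1 *ᵥ y) 0 = c * y 0 + s ⬝ᵥ Fin.tail y := by
  unfold mN Matrix.mulVec dotProduct
  rw [Fin.sum_univ_succ]
  rfl

theorem l7b_succ (c : K) (s : Fin m → K) (T : Sy m K) (y : Fin (m + 1) → K) (i : Fin m) :
    ((mN R c s T).1 *ᵥ y) i.succ = s i * (y 0 + civ R c * (s ⬝ᵥ Fin.tail y)) + (T.1 *ᵥ Fin.tail y) i := by
  have e : ((mN R c s T).1 *ᵥ y) i.succ = s i * y 0 + ∑ j, (T.1 i j + civ R c * s i * s j) * Fin.tail y j := by
    unfold mN Matrix.mulVec dotProduct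
    rw [Fin.sum_univ_succ]
    rfl
  rw [e]
  unfold Matrix.mulVec dotProduct
  rw [mul_add, add_assoc, Finset.mul_sum, Finset.mul_sum, ← Finset.sum_add_distrib]
  congr 1
  refine Finset.sum_congr rfl fun j _ => ?_
  ring

end gen

variable {R K : Type} [CommRing R] [IsDomain R] [IsDiscreteValuationRing R] [Field K] [Algebra R K] {ϖ : R} {q : ℕ} {m : ℕ}

/-- The order of a vector and divisibility. -/
theorem l7b_dvd (h : LF R K ϖ q) {n : ℕ} (s : Fin n → K) (r : R) :
    (∀ i, In R (algebraMap R K r * s i)) ↔ ϖ ^ od ϖ s ∣ r := by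
  constructor
  · intro hr
    by_cases h0 : r = 0
    · rw [h0]; exact dvd_zero _
    obtain ⟨a, u, hu⟩ := IsDiscreteValuationRing.eq_unit_mul_pow_irreducible h0 h.dv.irr
    have ha : od ϖ s ≤ a := by
      apply od_le
      intro i
      obtain ⟨b, hb⟩ := hr i
      refine ⟨(↑u⁻¹ : R) * b, ?_⟩
      rw [map_mul, hb, hu, map_mul, map_pow, ← mul_assoc, ← mul_assoc, ← map_mul, Units.inv_mul, map_one, one_mul]
    rw [hu]
    exact (pow_dvd_pow ϖ ha).mul_left _
  · rintro ⟨t, rfl⟩ i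
    obtain ⟨b, hb⟩ := od_spec h s i
    refine ⟨t * b, ?_⟩
    rw [map_mul, hb, map_mul, map_pow]
    ring

theorem l7b_dvd1 (h : LF R K ϖ q) (c : K) (r : R) :
    In R (algebraMap R K r * c) ↔ ϖ ^ od1 ϖ c ∣ r := by
  have := l7b_dvd h (fun _ : Fin 1 => c) r
  have e : od ϖ (fun _ : Fin 1 => c) = od1 ϖ c := by
    unfold od od1
    congr 1
    ext g
    simp
  rw [e] at this
  rw [← this]
  simp

/-- The kernel. -/
theorem l7b_mem (c : K) (s : Fin m → K) (T : Sy m K) (y : Fin (m + 1) → K) :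
    y ∈ ker (St R K (Fin (m + 1))) (mN R c s T).1 ↔ y ∈ St R K (Fin (m + 1)) ∧
      In R (c * y 0 + s ⬝ᵥ Fin.tail y) ∧
      ∀ i, In R (s i * (y 0 + civ R c * (s ⬝ᵥ Fin.tail y)) + (T.1 *ᵥ Fin.tail y) i) := by
  have h1 : y ∈ ker (St R K (Fin (m + 1))) (mN R c s T).1 ↔ y ∈ St R K (Fin (m + 1)) ∧
      (mN R c s T).1 *ᵥ y ∈ St R K (Fin (m + 1)) := by
    have h2 : (mN R c s T).1 *ᵥ y ∈ St R K (Fin (m + 1)) ↔
        ∀ z ∈ St R K (Fin (m + 1)), In R (z ⬝ᵥ ((mN R c s T).1 *ᵥ y)) := by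
      have h3 : (mN R c s T).1 *ᵥ y ∈ St R K (Fin (m + 1)) ↔ (mN R c s T).1 *ᵥ y ∈ du (St R K (Fin (m + 1))) := by
        rw [du_St]
      rw [h3, mem_du]
      refine forall_congr' fun z => forall_congr' fun _ => ?_
      rw [dotProduct_comm]
    rw [h2]
    rfl
  rw [h1, mem_St (x := (mN R c s T).1 *ᵥ y)]
  refine and_congr_right fun _ => ?_
  constructor
  · intro hh
    refine ⟨?_, fun i => ?_⟩
    · rw [← l7b_zero (R := R) c s T y]; exact hh 0
    · rw [← l7b_succ (R := R) c s T y]; exact hh i.succ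
  · rintro ⟨a, b⟩ i
    refine Fin.cases ?_ (fun j => ?_) i
    · rw [l7b_zero]; exact a
    · rw [l7b_succ]; exact b j

/-- The projection of the kernel. -/
theorem l7b_proj (h : LF R K ϖ q) (c : K) (s : Fin m → K) (T : Sy m K) (y' : Fin m → K) :
    (∃ y0 : K, (Fin.cons y0 y' : Fin (m + 1) → K) ∈ ker (St R K (Fin (m + 1))) (mN R c s T).1) ↔
      y' ∈ ker (PPl (R := R) (algebraMap R K ϖ ^ od1 ϖ c • s)) T.1 := by
  set s' : Fin m → K := algebraMap R K ϖ ^ od1 ϖ c • s with hs'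
  have hker : y' ∈ ker (PPl (R := R) s') T.1 ↔ (∀ i, In R (y' i)) ∧ In R (s' ⬝ᵥ y') ∧
      ∃ t : R, ∀ i, In R ((T.1 *ᵥ y') i + algebraMap R K t * s' i) := by
    have h1 : y' ∈ ker (PPl (R := R) s') T.1 ↔ y' ∈ PPl (R := R) s' ∧ T.1 *ᵥ y' ∈ du (PPl (R := R) s') := by
      rw [mem_du]
      refine and_congr_right fun _ => ?_
      refine forall_congr' fun z => ?_
      rw [dotProduct_comm]
    rw [h1, du_PP h]
    have h2 : y' ∈ PPl (R := R) s' ↔ (∀ i, In R (y' i)) ∧ In R (s' ⬝ᵥ y') := Iff.rfl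
    rw [h2, and_assoc]
    refine and_congr_right fun _ => and_congr_right fun _ => ?_
    rw [Submodule.mem_sup]
    constructor
    · rintro ⟨a, ha, b, hb, hab⟩
      rw [Submodule.mem_span_singleton] at hb
      obtain ⟨t, rfl⟩ := hb
      refine ⟨-t, fun i => ?_⟩
      have : (T.1 *ᵥ y') i + algebraMap R K (-t) * s' i = a i := by
        rw [← hab, Pi.add_apply, Pi.smul_apply, Algebra.smul_def, map_neg]
        ring
      rw [this]
      exact ha i
    · rintro ⟨t, ht⟩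
      refine ⟨fun i => (T.1 *ᵥ y') i + algebraMap R K t * s' i, ht, (-t) • s',
        Submodule.smul_mem _ _ (Submodule.mem_span_singleton_self _), ?_⟩
      funext i
      rw [Pi.add_apply, Pi.smul_apply, Algebra.smul_def, map_neg]
      ring
  rw [hker]
  have hsy : s' ⬝ᵥ y' = algebraMap R K ϖ ^ od1 ϖ c * (s ⬝ᵥ y') := by
    rw [hs', smul_dotProduct, smul_eq_mul]
  have hsi : ∀ i, s' i = algebraMap R K ϖ ^ od1 ϖ c * s i := fun i => rfl
  have hmem : ∀ y0 : K, (Fin.cons y0 y' : Fin (m + 1) → K) ∈ ker (St R K (Fin (m + 1))) (mN R c s T).1 ↔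
      (In R y0 ∧ ∀ i, In R (y' i)) ∧ In R (c * y0 + s ⬝ᵥ y') ∧
        ∀ i, In R (s i * (y0 + civ R c * (s ⬝ᵥ y')) + (T.1 *ᵥ y') i) := by
    intro y0
    rw [l7b_mem]
    have e1 : Fin.tail (Fin.cons y0 y' : Fin (m + 1) → K) = y' := Fin.tail_cons _ _
    have e2 : (Fin.cons y0 y' : Fin (m + 1) → K) 0 = y0 := rfl
    rw [e1, e2, mem_St]
    refine and_congr ?_ Iff.rfl
    constructor
    · intro hh
      exact ⟨hh 0, fun i => hh i.succ⟩
    · rintro ⟨a, b⟩ i
      refine Fin.cases a (fun j => b j) i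
  simp only [hmem]
  by_cases hc : In R c
  · have hg : od1 ϖ c = 0 := (od1_zero_iff h c).2 hc
    have hciv : civ R c = 0 := if_pos hc
    simp only [hsy, hsi, hg, pow_zero, one_mul, hciv, zero_mul, add_zero]
    constructor
    · rintro ⟨y0, ⟨h0, hy⟩, h1, h2⟩
      refine ⟨hy, ?_, ?_⟩
      · have := in_sub h1 (in_mul hc h0)
        rwa [add_sub_cancel_left] at this
      · obtain ⟨t, rfl⟩ := h0
        refine ⟨t, fun i => ?_⟩
        rw [add_comm, mul_comm]
        exact h2 i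
    · rintro ⟨hy, h1, t, ht⟩
      refine ⟨algebraMap R K t, ⟨in_alg t, hy⟩, in_add (in_mul hc (in_alg t)) h1, fun i => ?_⟩
      rw [add_comm, mul_comm]
      exact ht i
  · obtain ⟨u, v, huv, hu⟩ := od1_uv h hc
    have hciv : civ R c = c⁻¹ := if_neg hc
    have hp : algebraMap R K ϖ ^ od1 ϖ c ≠ 0 := pow_ne_zero _ (pi_ne h)
    have hc0 : c ≠ 0 := by
      rintro rfl
      exact hc in_zero
    have huv' : algebraMap R K u * algebraMap R K v = 1 := by rw [← map_mul, huv, map_one]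
    have hci : c⁻¹ = algebraMap R K ϖ ^ od1 ϖ c * algebraMap R K v := by
      rw [inv_eq_iff_eq_inv, eq_comm, inv_eq_iff_eq_inv]
      apply eq_inv_of_mul_eq_one_left
      rw [mul_right_comm, hu, huv']
    rw [hciv]
    constructor
    · rintro ⟨y0, ⟨h0, hy⟩, h1, h2⟩
      obtain ⟨r, hr⟩ := h1
      have hw : y0 + c⁻¹ * (s ⬝ᵥ y') = algebraMap R K ϖ ^ od1 ϖ c * algebraMap R K (v * r) := by
        have : y0 + c⁻¹ * (s ⬝ᵥ y') = c⁻¹ * algebraMap R K r := by
          rw [hr]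
          field_simp
        rw [this, hci, map_mul, mul_assoc]
      refine ⟨hy, ?_, v * r, fun i => ?_⟩
      · have h3 : algebraMap R K ϖ ^ od1 ϖ c * (s ⬝ᵥ y') = algebraMap R K u * (c⁻¹ * (s ⬝ᵥ y')) := by
          rw [hci]
          linear_combination (-(algebraMap R K ϖ ^ od1 ϖ c * (s ⬝ᵥ y'))) * huv'
        rw [hsy, h3]
        have h4 : c⁻¹ * (s ⬝ᵥ y') = algebraMap R K ϖ ^ od1 ϖ c * algebraMap R K (v * r) - y0 := by
          rw [← hw]
          ring
        rw [h4]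
        exact in_mul (in_alg u) (in_sub (in_mul (in_pow (in_alg ϖ) _) (in_alg _)) h0)
      · have := h2 i
        rw [hw] at this
        rw [hsi]
        have e : (T.1 *ᵥ y') i + algebraMap R K (v * r) * (algebraMap R K ϖ ^ od1 ϖ c * s i) =
          s i * (algebraMap R K ϖ ^ od1 ϖ c * algebraMap R K (v * r)) + (T.1 *ᵥ y') i := by ring
        rw [e]
        exact this
    · rintro ⟨hy, h1, t, ht⟩
      rw [hsy] at h1
      refine ⟨algebraMap R K ϖ ^ od1 ϖ c * algebraMap R K t - c⁻¹ * (s ⬝ᵥ y'), ⟨?_, hy⟩, ?_, fun i => ?_⟩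
      · rw [hci]
        refine in_sub (in_mul (in_pow (in_alg ϖ) _) (in_alg _)) ?_
        have e : algebraMap R K ϖ ^ od1 ϖ c * algebraMap R K v * (s ⬝ᵥ y') =
          algebraMap R K v * (algebraMap R K ϖ ^ od1 ϖ c * (s ⬝ᵥ y')) := by ring
        rw [e]
        exact in_mul (in_alg _) h1
      · have e : c * (algebraMap R K ϖ ^ od1 ϖ c * algebraMap R K t - c⁻¹ * (s ⬝ᵥ y')) + s ⬝ᵥ y' =
          algebraMap R K ϖ ^ od1 ϖ c * c * algebraMap R K t := by
          field_simp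
          ring
        rw [e, hu]
        exact in_mul (in_alg _) (in_alg _)
      · have := ht i
        rw [hsi] at this
        have e : s i * (algebraMap R K ϖ ^ od1 ϖ c * algebraMap R K t - c⁻¹ * (s ⬝ᵥ y') + c⁻¹ * (s ⬝ᵥ y')) +
            (T.1 *ᵥ y') i = (T.1 *ᵥ y') i + algebraMap R K t * (algebraMap R K ϖ ^ od1 ϖ c * s i) := by ring
        rw [e]
        exact this

/-- `S = mN R c s T = [[c, sᵗ], [s, T + c' s sᵗ]]`, `c' = civ R c` (`c⁻¹` if `c ∉ R`, `0` if `c ∈ R`), `gam = od1 ϖ c`, `P = PPl (ϖ ^ gam s)`, `δ = od (ϖ ^ gam s) = dg q P St` (`dg_PP`).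

The kernel `ker St S` (`St = R ^ (m + 1)`) consists of the `y = (y_1, y') ∈ R × R ^ m` with `y_1 c + s ⬝ y' ∈ R` (E1) and `y_1 s + (T + c' s sᵗ) y' ∈ R ^ m` (E2).

CASE `c ∉ R`: `c = ϖ ^ (-gam) u`, `u` a unit, `gam ≥ 1` (`od1_uv`). (E1) is equivalent to: `y' ∈ P` and `y_1 = -c⁻¹ (s ⬝ y') + ϖ ^ gam t` with `t ∈ R` (put `r = y_1 c + s ⬝ y' ∈ R`: `y_1 = c⁻¹ r - c⁻¹ (s ⬝ y')`, `c⁻¹ r ∈ ϖ ^ gam R`,
and `y_1 ∈ R` iff `c⁻¹ (s ⬝ y') ∈ R` iff `ϖ ^ gam (s ⬝ y') ∈ R`). (E2) becomes `T y' + ϖ ^ gam t s ∈ R ^ m`.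
CASE `c ∈ R` (`gam = 0`, `c' = 0`): (E1) says `s ⬝ y' ∈ R`, `y' ∈ P`; (E2): `T y' + y_1 s ∈ R ^ m`, `y_1 = t ∈ R` arbitrary. The same with `ϖ ^ gam = 1`.

So the projection `y ↦ y'` maps the kernel onto `{y' ∈ P : T y' ∈ R ^ m + R ϖ ^ gam s}`, and `R ^ m + R ϖ ^ gam s = du P` (`du_PP`): the image is `{y' ∈ P : T y' ∈ du P} = ker P T`, of index `q ^ (dg q P St + nu q P T)` in `R ^ m`.
The kernel of the projection on `ker St S` consists of the `(y_1, 0)`, `y_1 = ϖ ^ gam t`, with `ϖ ^ gam t s ∈ R ^ m`, that is `t ∈ ϖ ^ δ R` (`δ = od (ϖ ^ gam s)`): it is `ϖ ^ (gam + δ) R`, of index `q ^ (gam + δ)` in `R` (`H89N.index_span`).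
The index of `ker St S` in `R ^ (m + 1)` is the product (`AddSubgroup.index_map`, `AddSubgroup.index_comap`, compare `H89N.LD1_index`): `nu = (δ + nu q P T) + (gam + δ)`. -/
theorem nu_mN (h : LF R K ϖ q) (c : K) (s : Fin m → K) (T : Sy m K) :
    nu q (St R K (Fin (m + 1))) (mN R c s T).1 =
      od1 ϖ c + 2 * od ϖ (algebraMap R K ϖ ^ od1 ϖ c • s) + nu q (PPl (R := R) (algebraMap R K ϖ ^ od1 ϖ c • s)) T.1 := by
  set s' : Fin m → K := algebraMap R K ϖ ^ od1 ϖ c • s with hs'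
  set g := od1 ϖ c with hg
  -- the projection
  let f : (Fin (m + 1) → K) →+ (Fin m → K) :=
    { toFun := fun y => Fin.tail y
      map_zero' := rfl
      map_add' := fun _ _ => rfl }
  let j : R →+ (Fin (m + 1) → K) :=
    { toFun := fun r => Fin.cons (algebraMap R K r) 0
      map_zero' := by
        funext i
        refine Fin.cases ?_ (fun k => ?_) i
        · exact map_zero _
        · rfl
      map_add' := by
        intro a b
        funext i
        refine Fin.cases ?_ (fun k => ?_) i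
        · exact map_add _ _ _
        · exact (add_zero _).symm }
  have hj : Function.Injective j := by
    intro a b hab
    have := congrFun hab 0
    exact h.inj this
  set H := ker (St R K (Fin (m + 1))) (mN R c s T).1 with hH
  set G := St R K (Fin (m + 1)) with hG
  have hHG : H.toAddSubgroup ≤ G.toAddSubgroup := fun y hy => hy.1
  have hfG : G.toAddSubgroup.map f = (St R K (Fin m)).toAddSubgroup := by
    ext y'
    rw [AddSubgroup.mem_map]
    constructor
    · rintro ⟨y, hy, rfl⟩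
      intro i
      exact hy i.succ
    · intro hy'
      refine ⟨Fin.cons 0 y', ?_, Fin.tail_cons (α := fun _ => K) 0 y'⟩
      intro i
      refine Fin.cases ?_ (fun k => ?_) i
      · exact in_zero
      · exact hy' k
  have hfH : H.toAddSubgroup.map f = (ker (PPl (R := R) s') T.1).toAddSubgroup := by
    ext y'
    rw [AddSubgroup.mem_map]
    have := l7b_proj h c s T y'
    constructor
    · rintro ⟨y, hy, rfl⟩
      refine this.1 ⟨y 0, ?_⟩
      have e : (Fin.cons (y 0) (Fin.tail y) : Fin (m + 1) → K) = y := Fin.cons_self_tail y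
      change (Fin.cons (y 0) (Fin.tail y) : Fin (m + 1) → K) ∈ _
      rw [e]
      exact hy
    · intro hy'
      obtain ⟨y0, hy0⟩ := this.2 hy'
      exact ⟨_, hy0, Fin.tail_cons (α := fun _ => K) y0 y'⟩
  have hkf : ∀ y : Fin (m + 1) → K, y ∈ f.ker ↔ Fin.tail y = 0 := fun y => Iff.rfl
  have hgG : G.toAddSubgroup ⊓ f.ker = (⊤ : AddSubgroup R).map j := by
    ext y
    rw [AddSubgroup.mem_inf, hkf, AddSubgroup.mem_map]
    constructor
    · rintro ⟨hy, h0⟩
      obtain ⟨r, hr⟩ := hy 0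
      refine ⟨r, trivial, ?_⟩
      change (Fin.cons (algebraMap R K r) 0 : Fin (m + 1) → K) = y
      rw [hr, ← h0]
      exact Fin.cons_self_tail y
    · rintro ⟨r, -, rfl⟩
      refine ⟨?_, Fin.tail_cons _ _⟩
      intro i
      refine Fin.cases ?_ (fun k => ?_) i
      · exact in_alg r
      · exact in_zero
  have hgH : H.toAddSubgroup ⊓ f.ker = (Ideal.span {ϖ ^ (g + od ϖ s')} : Ideal R).toAddSubgroup.map j := by
    ext y
    rw [AddSubgroup.mem_inf, hkf, AddSubgroup.mem_map]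
    have key : ∀ r : R, (Fin.cons (algebraMap R K r) 0 : Fin (m + 1) → K) ∈ H ↔ ϖ ^ (g + od ϖ s') ∣ r := by
      intro r
      rw [hH, l7b_mem]
      have e1 : Fin.tail (Fin.cons (algebraMap R K r) 0 : Fin (m + 1) → K) = 0 := Fin.tail_cons _ _
      have e2 : (Fin.cons (algebraMap R K r) 0 : Fin (m + 1) → K) 0 = algebraMap R K r := rfl
      rw [e1, e2]
      simp only [dotProduct_zero, mulVec_zero, mul_zero, add_zero, Pi.zero_apply]
      have h1 : In R (c * algebraMap R K r) ↔ ϖ ^ g ∣ r := by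
        rw [mul_comm]
        exact l7b_dvd1 h c r
      rw [h1]
      constructor
      · rintro ⟨-, ⟨t, rfl⟩, h2⟩
        have h3 : ϖ ^ od ϖ s' ∣ t := by
          rw [← l7b_dvd h]
          intro i
          have h4 := h2 i
          have e : algebraMap R K t * s' i = s i * algebraMap R K (ϖ ^ g * t) := by
            rw [map_mul, map_pow]
            change algebraMap R K t * (algebraMap R K ϖ ^ g * s i) = _
            ring
          rw [e]
          exact h4
        rw [pow_add]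
        exact mul_dvd_mul_left _ h3
      · intro hd
        have hd1 : ϖ ^ g ∣ r := (pow_dvd_pow ϖ (Nat.le_add_right _ _)).trans hd
        refine ⟨?_, hd1, ?_⟩
        · intro i
          refine Fin.cases ?_ (fun k => ?_) i
          · exact in_alg r
          · exact in_zero
        · obtain ⟨t, rfl⟩ := hd1
          have h3 : ϖ ^ od ϖ s' ∣ t := by
            rw [pow_add] at hd
            exact (mul_dvd_mul_iff_left (pow_ne_zero _ h.dv.irr.ne_zero)).1 hd
          rw [← l7b_dvd h] at h3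
          intro i
          have h4 := h3 i
          have e : algebraMap R K t * s' i = s i * algebraMap R K (ϖ ^ g * t) := by
            rw [map_mul, map_pow]
            change algebraMap R K t * (algebraMap R K ϖ ^ g * s i) = _
            ring
          rw [← e]
          exact h4
    constructor
    · rintro ⟨hy, h0⟩
      obtain ⟨r, hr⟩ := hy.1 0
      have e : (Fin.cons (algebraMap R K r) 0 : Fin (m + 1) → K) = y := by
        rw [hr, ← h0]
        exact Fin.cons_self_tail y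
      refine ⟨r, ?_, e⟩
      rw [Submodule.mem_toAddSubgroup, Ideal.mem_span_singleton, ← key, e]
      exact hy
    · rintro ⟨r, hr, rfl⟩
      rw [Submodule.mem_toAddSubgroup, Ideal.mem_span_singleton, ← key] at hr
      exact ⟨hr, Fin.tail_cons _ _⟩
  have hix : ix H G = q ^ (g + 2 * od ϖ s' + nu q (PPl (R := R) s') T.1) := by
    unfold ix
    rw [l7b_index f _ _ hHG, hfG, hfH, hgG, hgH, AddSubgroup.relIndex_map_map_of_injective _ _ hj,
      AddSubgroup.relIndex_top_right, index_span h.dv]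
    have h1 := ix_eq h (la_ker h (la_PP h s') T.1) (la_St (ϖ := ϖ) (R := R) (K := K) (ι := Fin m))
    unfold ix at h1
    rw [h1, dg_add h (la_ker h (la_PP h s') T.1) (la_St (ϖ := ϖ)) (Q := PPl (R := R) s') (fun y hy => hy.1)
      (fun y hy => hy.1), dg_PP h]
    unfold nu
    rw [← pow_add]
    congr 1
    ring
  unfold nu dg
  rw [hix]
  exact Nat.log_pow h.dv.two _

end

end Pool.Agent.Lib.H67G
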