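import Pool.Agent.Lib.H67G.L5A

/-!
# L7C (M): coordinates for the symmetric matrices modulo R
-/

namespace Pool.Agent.Lib.H67G

open Matrix Pool.Agent.Lib.H89N

noncomputable section

variable {R K : Type} [CommRing R] [Field K] [Algebra R K] {m : ℕ}

theorem l7c_in {z : K} : In R z ↔ z ∈ (algebraMap R K).range := Iff.rfl

theorem l7c_LS {n : ℕ} {S : Sy n K} : S ∈ LS (St R K (Fin n)) ↔ ∀ i j, In R (S.1 i j) := by
  constructor
  · intro h i j
    have h1 : ∀ k : Fin n, (Pi.single k 1 : Fin n → K) ∈ St R K (Fin n) := by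
      intro k l
      by_cases hkl : l = k
      · rw [hkl, Pi.single_eq_same]
        exact ⟨1, map_one _⟩
      · rw [Pi.single_eq_of_ne hkl]
        exact ⟨0, map_zero _⟩
    have h2 : In R (Pi.single i 1 ⬝ᵥ (S.1 *ᵥ Pi.single j 1)) := h _ (h1 i) _ (h1 j)
    rwa [single_dotProduct, one_mul, mulVec_single_one, col_apply] at h2
  · intro h x hx y hy
    rw [l7c_in, dotProduct]
    refine Subring.sum_mem _ fun i _ => Subring.mul_mem _ (hx i) ?_
    rw [mulVec, dotProduct]
    exact Subring.sum_mem _ fun j _ => Subring.mul_mem _ (h i j) (hy j)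

theorem l7c_eq {n : ℕ} {S T : Sy n K} :
    ((QuotientAddGroup.mk S : QS (St R K (Fin n))) = QuotientAddGroup.mk T) ↔ ∀ i j, In R (T.1 i j - S.1 i j) := by
  rw [QuotientAddGroup.eq, l7c_LS]
  refine forall_congr' fun i => forall_congr' fun j => ?_
  have h1 : (-S + T : Sy n K).1 i j = T.1 i j - S.1 i j := by
    change -(S.1 i j) + T.1 i j = _
    ring
  rw [h1]

theorem l7c_eq1 {a b : K} : ((QuotientAddGroup.mk a : Q1 R K) = QuotientAddGroup.mk b) ↔ In R (b - a) := by
  rw [QuotientAddGroup.eq]
  have h1 : -a + b = b - a := by ring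
  rw [h1]
  exact Iff.rfl

theorem l7c_eqv {a b : Fin m → K} :
    ((QuotientAddGroup.mk a : QV R K m) = QuotientAddGroup.mk b) ↔ ∀ i, In R (b i - a i) := by
  rw [QuotientAddGroup.eq]
  have h1 : -a + b = b - a := by ring
  rw [h1]
  exact Iff.rfl

/-- Injective: if `mN R c s T - mN R c' s' T' ∈ LS St` (all entries in `R`; test with unit vectors) where `c = x.1.1.out` etc.: `c - c' ∈ R` so the classes agree and `c = c'` (the same representative), in the same way `s = s'`; then `T - T' ∈ LS St`
and the classes `x.2`, `x'.2` agree. Surjective: for `S` take the classes of `S 0 0` and of `(S (i + 1) 0)_i`, their representatives `c`, `s`, and the class of the symmetric matrix `T₁ = (S (i + 1) (j + 1) - civ R c s_i s_j)`;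
`T = out` of it; then `mN R c s T - S` has all entries in `R`. -/
theorem bij_mN : Function.Bijective (fun x : (Q1 R K × QV R K m) × QS (St R K (Fin m)) =>
    (QuotientAddGroup.mk (mN R x.1.1.out x.1.2.out x.2.out) : QS (St R K (Fin (m + 1))))) := by
  constructor
  · rintro ⟨⟨a, b⟩, t⟩ ⟨⟨a', b'⟩, t'⟩ hx
    have h0 := l7c_eq.1 hx
    have h1 : a = a' := by
      have h2 : In R (a'.out - a.out) := h0 0 0
      have h3 := l7c_eq1.2 h2
      rwa [QuotientAddGroup.out_eq', QuotientAddGroup.out_eq'] at h3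
    have h4 : b = b' := by
      have h2 : ∀ i, In R (b'.out i - b.out i) := fun i => h0 0 i.succ
      have h3 := l7c_eqv.2 h2
      rwa [QuotientAddGroup.out_eq', QuotientAddGroup.out_eq'] at h3
    subst h1 h4
    have h5 : t = t' := by
      have h2 : ∀ i j, In R (t'.out.1 i j - t.out.1 i j) := by
        intro i j
        have h6 : In R ((t'.out.1 i j + civ R a.out * b.out i * b.out j) -
          (t.out.1 i j + civ R a.out * b.out i * b.out j)) := h0 i.succ j.succ
        rwa [add_sub_add_right_eq_sub] at h6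
      have h3 := l7c_eq.2 h2
      rwa [QuotientAddGroup.out_eq', QuotientAddGroup.out_eq'] at h3
    rw [h5]
  · intro y
    obtain ⟨S, rfl⟩ := QuotientAddGroup.mk_surjective y
    obtain ⟨a, ha⟩ : ∃ a : Q1 R K, a = QuotientAddGroup.mk (S.1 0 0) := ⟨_, rfl⟩
    obtain ⟨b, hb⟩ : ∃ b : QV R K m, b = QuotientAddGroup.mk (fun i => S.1 0 i.succ) := ⟨_, rfl⟩
    have hS : ∀ i j, S.1 i j = S.1 j i := by
      intro i j
      conv_lhs => rw [← S.2]
      rfl
    obtain ⟨T, hT⟩ : ∃ T : Sy m K, ∀ i j, T.1 i j = S.1 i.succ j.succ - civ R a.out * b.out i * b.out j := by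
      refine ⟨⟨Matrix.of fun i j => S.1 i.succ j.succ - civ R a.out * b.out i * b.out j, ?_⟩, fun i j => rfl⟩
      ext i j
      change S.1 j.succ i.succ - civ R a.out * b.out j * b.out i = S.1 i.succ j.succ - civ R a.out * b.out i * b.out j
      rw [hS j.succ i.succ]
      ring
    have h1 : In R (S.1 0 0 - a.out) := by
      refine l7c_eq1.1 ?_
      rw [QuotientAddGroup.out_eq', ha]
    have h2 : ∀ i, In R (S.1 0 i.succ - b.out i) := by
      refine l7c_eqv.1 ?_
      rw [QuotientAddGroup.out_eq', hb]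
    obtain ⟨t, ht⟩ : ∃ t : QS (St R K (Fin m)), t = QuotientAddGroup.mk T := ⟨_, rfl⟩
    have h3 : ∀ i j, In R (T.1 i j - t.out.1 i j) := by
      refine l7c_eq.1 ?_
      rw [QuotientAddGroup.out_eq', ht]
    refine ⟨((a, b), t), l7c_eq.2 ?_⟩
    intro i j
    refine Fin.cases (Fin.cases ?_ (fun j => ?_) j) (fun i => Fin.cases ?_ (fun j => ?_) j) i
    · exact h1
    · exact h2 j
    · have h4 := h2 i
      rw [hS] at h4
      exact h4
    · have h4 := h3 i j
      rw [hT] at h4
      have h5 : S.1 i.succ j.succ - (mN R a.out b.out t.out).1 i.succ j.succ =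
          S.1 i.succ j.succ - civ R a.out * b.out i * b.out j - t.out.1 i j := by
        change S.1 i.succ j.succ - (t.out.1 i j + civ R a.out * b.out i * b.out j) = _
        ring
      rw [h5]
      exact h4

end

end Pool.Agent.Lib.H67G
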