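import Pool.Agent.Lib.H67G.L7A
import Pool.Agent.Lib.H67G.GF1

/-!
# L7D1 (M): sums over (K/R)^m
-/

namespace Pool.Agent.Lib.H67G

open Matrix Pool.Agent.Lib.H89N

noncomputable section

variable {R K : Type} [CommRing R] [IsDomain R] [IsDiscreteValuationRing R] [Field K] [Algebra R K] {ϖ : R} {q : ℕ} {m : ℕ}

/-- The lattice `ϖ ^ (-g) R ^ m`. -/
def l7d1_B (R K : Type) [CommRing R] [Field K] [Algebra R K] (ϖ : R) (m g : ℕ) : Submodule R (Fin m → K) :=
  ac (diagonal fun _ => (algebraMap R K ϖ ^ g)⁻¹) (St R K (Fin m))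

theorem l7d1_mem (h : LF R K ϖ q) (g : ℕ) (x : Fin m → K) : x ∈ l7d1_B R K ϖ m g ↔ od ϖ x ≤ g := by
  have hp : algebraMap R K ϖ ^ g ≠ 0 := pow_ne_zero _ (pi_ne h)
  have hAB : (diagonal fun _ : Fin m => (algebraMap R K ϖ ^ g)⁻¹) * (diagonal fun _ : Fin m => algebraMap R K ϖ ^ g) = 1 := by
    rw [diagonal_mul_diagonal, ← diagonal_one]
    congr 1
    funext i
    exact inv_mul_cancel₀ hp
  rw [l7d1_B, mem_ac_inv hAB, mem_St]
  constructor
  · intro h1
    refine od_le x g fun i => ?_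
    have h2 := h1 i
    rwa [mulVec_diagonal] at h2
  · intro h1 i
    rw [mulVec_diagonal]
    have h2 : algebraMap R K ϖ ^ g * x i = algebraMap R K ϖ ^ (g - od ϖ x) * (algebraMap R K ϖ ^ od ϖ x * x i) := by
      rw [← mul_assoc, ← pow_add]
      congr 2
      omega
    rw [h2]
    exact in_mul (in_pow (in_alg ϖ) _) (od_spec h x i)

theorem l7d1_ix (h : LF R K ϖ q) (g : ℕ) : ix (St R K (Fin m)) (l7d1_B R K ϖ m g) = q ^ (g * m) := by
  have hp : algebraMap R K ϖ ^ g ≠ 0 := pow_ne_zero _ (pi_ne h)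
  have hAB : (diagonal fun _ : Fin m => (algebraMap R K ϖ ^ g)⁻¹) * (diagonal fun _ : Fin m => algebraMap R K ϖ ^ g) = 1 := by
    rw [diagonal_mul_diagonal, ← diagonal_one]
    congr 1
    funext i
    exact inv_mul_cancel₀ hp
  have h1 : ac (diagonal fun _ : Fin m => (algebraMap R K ϖ ^ g)⁻¹)
      (ac (diagonal fun _ : Fin m => algebraMap R K ϖ ^ g) (St R K (Fin m))) = St R K (Fin m) := by
    rw [← ac_mul, hAB, ac_one]
  have h2 := ix_ac (P := ac (diagonal fun _ : Fin m => algebraMap R K ϖ ^ g) (St R K (Fin m)))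
    (M := St R K (Fin m)) hAB
  rw [h1] at h2
  rw [l7d1_B, h2]
  have h3 := ix_diag (ι := Fin m) (K := K) h (fun _ => g)
  rw [h3]
  congr 1
  simp [mul_comm]

theorem l7d1_set (h : LF R K ϖ q) (g : ℕ) : {s : QV R K m | od ϖ s.out ≤ g} =
    ((l7d1_B R K ϖ m g).toAddSubgroup.map (QuotientAddGroup.mk' (St R K (Fin m)).toAddSubgroup) : Set (QV R K m)) := by
  ext s
  constructor
  · intro hs
    exact ⟨s.out, (l7d1_mem h g _).2 hs, QuotientAddGroup.out_eq' s⟩
  · rintro ⟨b, hb, rfl⟩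
    have h1 : od ϖ b ≤ g := (l7d1_mem h g b).1 hb
    have h2 : -b + (QuotientAddGroup.mk b : QV R K m).out ∈ (St R K (Fin m)).toAddSubgroup := by
      rw [← QuotientAddGroup.eq, QuotientAddGroup.out_eq']
    have h3 : (QuotientAddGroup.mk b : QV R K m).out - b ∈ St R K (Fin m) := by
      have h4 : (QuotientAddGroup.mk b : QV R K m).out - b = -b + (QuotientAddGroup.mk b : QV R K m).out := by abel
      rw [h4]
      exact h2
    change od ϖ (QuotientAddGroup.mk b : QV R K m).out ≤ g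
    rw [od_congr h h3]
    exact h1

/-- The classes `s` with `od s ≤ g` form the group `(ϖ ^ (-g) R / R) ^ m` of order `q ^ (g m)` (`[ϖ ^ (-g) St : St] = q ^ (g m)`: `ix_eq`, `ix_diag`, `ix_ac`). -/
theorem ncard_od (h : LF R K ϖ q) (g : ℕ) : {s : QV R K m | od ϖ s.out ≤ g}.ncard = q ^ (g * m) ∧
    {s : QV R K m | od ϖ s.out ≤ g}.Finite := by
  have h1 : {s : QV R K m | od ϖ s.out ≤ g}.ncard = q ^ (g * m) := by
    rw [l7d1_set h g, ← Nat.card_coe_set_eq]
    have h2 := AddSubgroup.relIndex_ker (QuotientAddGroup.mk' (St R K (Fin m)).toAddSubgroup)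
      (K := (l7d1_B R K ϖ m g).toAddSubgroup)
    rw [QuotientAddGroup.ker_mk'] at h2
    exact h2.symm.trans (l7d1_ix h g)
  refine ⟨h1, Set.finite_of_ncard_ne_zero ?_⟩
  rw [h1]
  have h3 := h.dv.two
  positivity

theorem fin_od (h : LF R K ϖ q) : FinF (fun s : QV R K m => od ϖ s.out) := by
  intro k
  exact (ncard_od h k).2.subset fun s hs => le_of_eq hs

theorem l7d1_N (h : LF R K ϖ q) (g : ℕ) : ({s : QV R K m | od ϖ s.out = g}.ncard : ℂ) =
    (q : ℂ) ^ (g * m) - if g = 0 then 0 else (q : ℂ) ^ ((g - 1) * m) := by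
  rcases Nat.eq_zero_or_pos g with rfl | hg
  · have h1 : {s : QV R K m | od ϖ s.out = 0} = {s : QV R K m | od ϖ s.out ≤ 0} := by
      ext s
      exact Nat.le_zero.symm
    rw [h1, (ncard_od h 0).1, if_pos rfl, sub_zero]
    push_cast
    rfl
  · have h1 : {s : QV R K m | od ϖ s.out ≤ g - 1} ⊆ {s : QV R K m | od ϖ s.out ≤ g} := by
      intro s hs
      exact le_trans hs (Nat.sub_le _ _)
    have h2 : {s : QV R K m | od ϖ s.out = g} = {s : QV R K m | od ϖ s.out ≤ g} \ {s : QV R K m | od ϖ s.out ≤ g - 1} := by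
      ext s
      change od ϖ s.out = g ↔ od ϖ s.out ≤ g ∧ ¬(od ϖ s.out ≤ g - 1)
      omega
    have h3 := Set.ncard_sdiff_add_ncard_of_subset h1 (ncard_od h g).2
    rw [← h2, (ncard_od h g).1, (ncard_od h (g - 1)).1] at h3
    rw [if_neg (by omega), eq_sub_iff_add_eq]
    exact_mod_cast h3

theorem l7d1_even (h : LF R K ϖ q) (c : ℂ) (g : ℕ) :
    PowerSeries.coeff (2 * g) (gf (fun s : QV R K m => 2 * od ϖ s.out) (fun s => c ^ od ϖ s.out)) =
      c ^ g * ((q : ℂ) ^ (g * m) - if g = 0 then 0 else (q : ℂ) ^ ((g - 1) * m)) := by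
  rw [GF1_coeff]
  have h1 : {a : QV R K m | 2 * od ϖ a.out = 2 * g} = {a : QV R K m | od ϖ a.out = g} := by
    ext s
    change 2 * od ϖ s.out = 2 * g ↔ od ϖ s.out = g
    omega
  rw [h1, ← l7d1_N h g]
  have h2 : {a : QV R K m | od ϖ a.out = g}.Finite := fin_od h g
  rw [finsum_mem_eq_finite_toFinset_sum _ h2, Set.ncard_eq_toFinset_card _ h2]
  have h3 : ∀ a ∈ h2.toFinset, c ^ od ϖ a.out = c ^ g := by
    intro a ha
    rw [Set.Finite.mem_toFinset] at ha
    rw [show od ϖ a.out = g from ha]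
  rw [Finset.sum_congr rfl h3, Finset.sum_const, nsmul_eq_mul, mul_comm]

theorem l7d1_odd (c : ℂ) (g : ℕ) :
    PowerSeries.coeff (2 * g + 1) (gf (fun s : QV R K m => 2 * od ϖ s.out) (fun s => c ^ od ϖ s.out)) = 0 := by
  rw [GF1_coeff]
  have h1 : {a : QV R K m | 2 * od ϖ a.out = 2 * g + 1} = ∅ := by
    ext s
    change 2 * od ϖ s.out = 2 * g + 1 ↔ False
    refine iff_false_intro fun h2 => ?_
    omega
  rw [h1, finsum_mem_empty]

/-- The number of the classes with `od s = g` is `N_g = q ^ (g m) - q ^ ((g - 1) m)` for `g ≥ 1` and `N_0 = 1`. The coefficient of `Z ^ (2 g)` of the first series is `c ^ g N_g`, the odd coefficients vanish; multiply by `1 - c q ^ m Z ^ 2`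
and compare coefficients: for `g ≥ 1` the coefficient of `Z ^ (2 g)` is `c ^ g (N_g - q ^ m N_(g - 1))`, which is `0` for `g ≥ 2` and `-c` for `g = 1`. -/
theorem gf_od (h : LF R K ϖ q) (c : ℂ) :
    gf (fun s : QV R K m => 2 * od ϖ s.out) (fun s => c ^ od ϖ s.out) * om (c * (q : ℂ) ^ m) 2 = om c 2 := by
  obtain ⟨G, hG⟩ : ∃ G, G = gf (fun s : QV R K m => 2 * od ϖ s.out) (fun s => c ^ od ϖ s.out) := ⟨_, rfl⟩
  have he := fun g => l7d1_even (m := m) h c g
  have ho := fun g => l7d1_odd (R := R) (K := K) (ϖ := ϖ) (m := m) c g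
  rw [← hG] at he ho ⊢
  have key : ∀ k, PowerSeries.coeff k (G * om (c * (q : ℂ) ^ m) 2) =
      PowerSeries.coeff k G - if 2 ≤ k then PowerSeries.coeff (k - 2) G * (c * (q : ℂ) ^ m) else 0 := by
    intro k
    rw [om, mul_sub, mul_one, map_sub, ← mul_assoc, PowerSeries.coeff_mul_X_pow', PowerSeries.coeff_mul_C]
  have key2 : ∀ k, PowerSeries.coeff k (om c 2) = (if k = 0 then 1 else 0) - if k = 2 then c else 0 := by
    intro k
    rw [om, map_sub, PowerSeries.coeff_one, PowerSeries.coeff_C_mul_X_pow]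
  ext k
  rw [key, key2]
  rcases Nat.even_or_odd' k with ⟨g, rfl | rfl⟩
  · match g with
    | 0 =>
      have h1 := he 0
      rw [if_pos rfl, pow_zero, zero_mul, pow_zero, sub_zero, mul_one] at h1
      rw [h1, if_neg (by omega), if_pos rfl, if_neg (by omega)]
    | 1 =>
      have h1 := he 0
      rw [if_pos rfl, pow_zero, zero_mul, pow_zero, sub_zero, mul_one] at h1
      have h2 := he 1
      rw [if_neg (by omega)] at h2
      have h3 : 2 * 1 - 2 = 2 * 0 := rfl
      rw [h2, if_pos (by omega), h3, h1, if_neg (by omega), if_pos (by omega)]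
      simp
      ring
    | g + 2 =>
      have h1 := he (g + 1)
      rw [if_neg (by omega)] at h1
      have h2 := he (g + 2)
      rw [if_neg (by omega)] at h2
      have h3 : 2 * (g + 2) - 2 = 2 * (g + 1) := by omega
      have h4 : g + 2 - 1 = g + 1 := by omega
      have h5 : g + 1 - 1 = g := by omega
      rw [h2, if_pos (by omega), h3, h1, if_neg (by omega), if_neg (by omega), h4, h5]
      ring
  · have h1 := ho g
    rw [h1, if_neg (by omega : ¬(2 * g + 1 = 0)), if_neg (by omega : ¬(2 * g + 1 = 2))]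
    split_ifs with h2
    · obtain ⟨g', rfl⟩ : ∃ g', g = g' + 1 := ⟨g - 1, by omega⟩
      have h3 : 2 * (g' + 1) + 1 - 2 = 2 * g' + 1 := by omega
      rw [h3, ho g', zero_mul]
    · rfl

end

end Pool.Agent.Lib.H67G
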