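import Pool.Agent.Lib.H67G.L7A
import Pool.Agent.Lib.H67G.GF1
import Pool.Agent.Lib.H89N.LD1

/-!
# L7D2 (M): sums over K/R
-/

namespace Pool.Agent.Lib.H67G

open Matrix Pool.Agent.Lib.H89N

noncomputable section

variable {R K : Type} [CommRing R] [IsDomain R] [IsDiscreteValuationRing R] [Field K] [Algebra R K] {ϖ : R} {q : ℕ} {m : ℕ}

/-!
* `ncard_od1`: the classes `z` with `od1 z ≤ g` form the group `ϖ ^ (-g) R / R` of order `q ^ g` (`H89N.index_span`, file `Pool.Agent.Lib.H89N.LD1`: multiplication by `ϖ ^ g` maps it isomorphically to `R / ϖ ^ g R`).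
* `gf_od1`: the coefficient of `Z ^ g` is `t ^ g N_g`, `N_0 = 1`, `N_g = q ^ g - q ^ (g - 1)`; times `1 - t q Z`.
* `gf_od1_chi`: the coefficient of `Z ^ g` is `t ^ g ∑_{od1 z = g} χ(z)`; `∑_{od1 z ≤ g} χ(z)` is the sum of the character `χ` over the finite group `ϖ ^ (-g) R / R`: `1` for `g = 0` and `0` for `g ≥ 1` since `χ` is nontrivial on it
  (`hχ.nt`; translate by that element). So the sums over `od1 z = g` are `1, -1, 0, 0, ..`. Representatives: `chl_congr`.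
-/

theorem l7d2_mkout (c : K) : In R (((QuotientAddGroup.mk c : Q1 R K)).out - c) := by
  have h1 : (QuotientAddGroup.mk ((QuotientAddGroup.mk c : Q1 R K)).out : Q1 R K) = QuotientAddGroup.mk c :=
    QuotientAddGroup.out_eq' _
  have h2 := QuotientAddGroup.eq.1 h1
  obtain ⟨r, hr⟩ := h2
  exact ⟨-r, by rw [map_neg, hr]; ring⟩

theorem l7d2_od (h : LF R K ϖ q) (c : K) : od1 ϖ ((QuotientAddGroup.mk c : Q1 R K)).out = od1 ϖ c :=
  od1_congr h (l7d2_mkout c)

theorem l7d2_le (h : LF R K ϖ q) (c : K) (g : ℕ) : od1 ϖ c ≤ g ↔ In R (algebraMap R K ϖ ^ g * c) := by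
  refine ⟨fun hg => ?_, fun hg => od1_le c g hg⟩
  obtain ⟨k, rfl⟩ := Nat.exists_eq_add_of_le hg
  rw [pow_add, mul_comm (algebraMap R K ϖ ^ od1 ϖ c), mul_assoc, ← map_pow]
  exact in_mul (in_alg _) (od1_spec h c)

/-- `r ↦ ϖ ^ (-g) r` modulo `R`. -/
def l7d2_hom (R K : Type) [CommRing R] [Field K] [Algebra R K] (ϖ : R) (g : ℕ) : R →+ Q1 R K :=
  (QuotientAddGroup.mk' (RS R K)).comp
    ((AddMonoidHom.mulLeft ((algebraMap R K ϖ ^ g)⁻¹)).comp (algebraMap R K).toAddMonoidHom)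

theorem l7d2_hom_apply (g : ℕ) (r : R) : l7d2_hom R K ϖ g r =
    (QuotientAddGroup.mk ((algebraMap R K ϖ ^ g)⁻¹ * algebraMap R K r) : Q1 R K) := rfl

theorem l7d2_ker (h : LF R K ϖ q) (g : ℕ) : (l7d2_hom R K ϖ g).ker = (Ideal.span {ϖ ^ g} : Ideal R).toAddSubgroup := by
  have hp : algebraMap R K ϖ ^ g ≠ 0 := pow_ne_zero _ (pi_ne h)
  ext r
  rw [AddMonoidHom.mem_ker, l7d2_hom_apply, QuotientAddGroup.eq_zero_iff]
  constructor
  · rintro ⟨s, hs⟩
    refine Ideal.mem_span_singleton.2 ⟨s, ?_⟩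
    apply h.inj
    rw [map_mul, map_pow, hs, ← mul_assoc, mul_inv_cancel₀ hp, one_mul]
  · intro hr
    obtain ⟨s, hs⟩ := Ideal.mem_span_singleton.1 hr
    refine ⟨s, ?_⟩
    rw [hs, map_mul, map_pow, ← mul_assoc, inv_mul_cancel₀ hp, one_mul]

theorem l7d2_range (h : LF R K ϖ q) (g : ℕ) :
    ((l7d2_hom R K ϖ g).range : Set (Q1 R K)) = {z : Q1 R K | od1 ϖ z.out ≤ g} := by
  have hp : algebraMap R K ϖ ^ g ≠ 0 := pow_ne_zero _ (pi_ne h)
  ext z
  constructor
  · rintro ⟨r, rfl⟩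
    change od1 ϖ (l7d2_hom R K ϖ g r).out ≤ g
    rw [l7d2_hom_apply, l7d2_od h, l7d2_le h, ← mul_assoc, mul_inv_cancel₀ hp, one_mul]
    exact in_alg _
  · intro hz
    have hz' : od1 ϖ z.out ≤ g := hz
    obtain ⟨r, hr⟩ := (l7d2_le h _ _).1 hz'
    refine ⟨r, ?_⟩
    rw [l7d2_hom_apply, hr, ← mul_assoc, inv_mul_cancel₀ hp, one_mul]
    exact QuotientAddGroup.out_eq' _

theorem ncard_od1 (h : LF R K ϖ q) (g : ℕ) : {z : Q1 R K | od1 ϖ z.out ≤ g}.ncard = q ^ g ∧
    {z : Q1 R K | od1 ϖ z.out ≤ g}.Finite := by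
  have h1 : {z : Q1 R K | od1 ϖ z.out ≤ g}.ncard = q ^ g := by
    rw [← l7d2_range h g, ← index_span h.dv g, ← l7d2_ker h g, AddSubgroup.index_ker]
    rfl
  refine ⟨h1, Set.finite_of_ncard_pos ?_⟩
  rw [h1]
  exact pow_pos (lt_of_lt_of_le two_pos h.dv.two) _

theorem fin_od1 (h : LF R K ϖ q) : FinF (fun z : Q1 R K => od1 ϖ z.out) := fun k =>
  (ncard_od1 h k).2.subset fun _ hz => le_of_eq hz

theorem l7d2_coeff (h : LF R K ϖ q) (w : K → ℂ) (t : ℂ) (k : ℕ) :
    PowerSeries.coeff k (gf (fun z : Q1 R K => od1 ϖ z.out) (fun z => w z.out * t ^ od1 ϖ z.out)) =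
      (∑ z ∈ (fin_od1 h k).toFinset, w z.out) * t ^ k := by
  rw [GF1_coeff, finsum_mem_eq_finite_toFinset_sum _ (fin_od1 h k), Finset.sum_mul]
  refine Finset.sum_congr rfl fun z hz => ?_
  have : od1 ϖ z.out = k := by simpa using hz
  rw [this]

theorem l7d2_split (h : LF R K ϖ q) (w : K → ℂ) (k : ℕ) :
    ∑ z ∈ (ncard_od1 h (k + 1)).2.toFinset, w z.out =
      ∑ z ∈ (ncard_od1 h k).2.toFinset, w z.out + ∑ z ∈ (fin_od1 h (k + 1)).toFinset, w z.out := by
  classical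
  rw [← Finset.sum_union]
  · refine Finset.sum_congr ?_ fun _ _ => rfl
    ext z
    simp only [Finset.mem_union, Set.Finite.mem_toFinset, Set.mem_setOf_eq]
    omega
  · rw [Finset.disjoint_left]
    intro z hz hz'
    simp only [Set.Finite.mem_toFinset, Set.mem_setOf_eq] at hz hz'
    omega

theorem l7d2_zero (h : LF R K ϖ q) (w : K → ℂ) :
    ∑ z ∈ (fin_od1 h 0).toFinset, w z.out = ∑ z ∈ (ncard_od1 h 0).2.toFinset, w z.out := by
  refine Finset.sum_congr ?_ fun _ _ => rfl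
  ext z
  simp only [Set.Finite.mem_toFinset, Set.mem_setOf_eq]
  omega

theorem l7d2_om (A : PowerSeries ℂ) (c : ℂ) (k : ℕ) : PowerSeries.coeff (k + 1) (A * om c 1) =
    PowerSeries.coeff (k + 1) A - c * PowerSeries.coeff k A := by
  have e : A * om c 1 = A - PowerSeries.C c * (A * PowerSeries.X) := by
    unfold om; ring
  rw [e, map_sub, PowerSeries.coeff_C_mul, PowerSeries.coeff_succ_mul_X]

theorem l7d2_om0 (A : PowerSeries ℂ) (c : ℂ) : PowerSeries.coeff 0 (A * om c 1) = PowerSeries.coeff 0 A := by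
  have e : A * om c 1 = A - PowerSeries.C c * (A * PowerSeries.X) := by
    unfold om; ring
  rw [e, map_sub, PowerSeries.coeff_C_mul, PowerSeries.coeff_zero_mul_X, mul_zero, sub_zero]

theorem l7d2_omc (c : ℂ) (k : ℕ) : PowerSeries.coeff k (om c 1) = if k = 0 then 1 else if k = 1 then -c else 0 := by
  unfold om
  rw [map_sub, PowerSeries.coeff_one, PowerSeries.coeff_C_mul, pow_one, PowerSeries.coeff_X]
  rcases k with _ | k
  · simp
  · rcases k with _ | k
    · simp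
    · simp

theorem gf_od1 (h : LF R K ϖ q) (t : ℂ) :
    gf (fun z : Q1 R K => od1 ϖ z.out) (fun z => t ^ od1 ϖ z.out) * om (t * q) 1 = om t 1 := by
  have hgf : gf (fun z : Q1 R K => od1 ϖ z.out) (fun z => t ^ od1 ϖ z.out) =
      gf (fun z : Q1 R K => od1 ϖ z.out) (fun z => (fun _ : K => (1 : ℂ)) z.out * t ^ od1 ϖ z.out) := by
    congr 1
    funext z
    rw [one_mul]
  rw [hgf]
  have hN : ∀ k, ∑ z ∈ (ncard_od1 h k).2.toFinset, (fun _ : K => (1 : ℂ)) z.out = (q : ℂ) ^ k := by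
    intro k
    simp only [Finset.sum_const, nsmul_eq_mul, mul_one]
    rw [← Set.ncard_eq_toFinset_card _ (ncard_od1 h k).2, (ncard_od1 h k).1]
    push_cast
    rfl
  have hS : ∀ k, ∑ z ∈ (fin_od1 h (k + 1)).toFinset, (fun _ : K => (1 : ℂ)) z.out = (q : ℂ) ^ (k + 1) - (q : ℂ) ^ k := by
    intro k
    have := l7d2_split h (fun _ : K => (1 : ℂ)) k
    rw [hN, hN] at this
    linear_combination -this
  have hS0 : ∑ z ∈ (fin_od1 h 0).toFinset, (fun _ : K => (1 : ℂ)) z.out = 1 := by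
    rw [l7d2_zero h (fun _ : K => (1 : ℂ)), hN, pow_zero]
  ext k
  rw [l7d2_omc]
  rcases k with _ | k
  · rw [l7d2_om0, l7d2_coeff h (fun _ : K => (1 : ℂ)) t, hS0]
    simp
  · rw [l7d2_om, l7d2_coeff h (fun _ : K => (1 : ℂ)) t, l7d2_coeff h (fun _ : K => (1 : ℂ)) t, hS]
    rcases k with _ | k
    · rw [hS0]
      simp
      ring
    · rw [hS]
      simp
      ring

theorem gf_od1_chi (h : LF R K ϖ q) {χ : K → ℂ} (hχ : Chl ϖ χ) (t : ℂ) :
    gf (fun z : Q1 R K => od1 ϖ z.out) (fun z => χ z.out * t ^ od1 ϖ z.out) = om t 1 := by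
  classical
  have hmk : ∀ c : K, χ ((QuotientAddGroup.mk c : Q1 R K)).out = χ c := fun c => chl_congr hχ (l7d2_mkout c)
  have hN0 : ∑ z ∈ (ncard_od1 h 0).2.toFinset, χ z.out = 1 := by
    have h1 := (ncard_od1 h 0).1
    rw [pow_zero, Set.ncard_eq_one] at h1
    obtain ⟨a, ha⟩ := h1
    have h2 : (ncard_od1 h 0).2.toFinset = {a} := by
      ext z
      rw [Set.Finite.mem_toFinset, ha]
      simp
    rw [h2, Finset.sum_singleton]
    have h3 : a ∈ {z : Q1 R K | od1 ϖ z.out ≤ 0} := by rw [ha]; rfl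
    have h4 : od1 ϖ a.out = 0 := Nat.le_zero.1 h3
    exact hχ.triv _ ((od1_zero_iff h _).1 h4)
  have hN : ∀ k, ∑ z ∈ (ncard_od1 h (k + 1)).2.toFinset, χ z.out = 0 := by
    intro k
    obtain ⟨x, hx, hx1⟩ := hχ.nt
    have hx2 : od1 ϖ x ≤ 1 := od1_le x 1 (by rw [pow_one]; exact hx)
    set w : Q1 R K := QuotientAddGroup.mk x with hw
    have hin : ∀ z : Q1 R K, od1 ϖ z.out ≤ k + 1 ↔ z ∈ (l7d2_hom R K ϖ (k + 1)).range := by
      intro z
      have := Set.ext_iff.1 (l7d2_range h (k + 1)) z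
      exact this.symm
    have hwin : w ∈ (l7d2_hom R K ϖ (k + 1)).range := by
      rw [← hin, hw, l7d2_od h]
      omega
    have hkey : ∑ z ∈ (ncard_od1 h (k + 1)).2.toFinset, χ z.out =
        ∑ z ∈ (ncard_od1 h (k + 1)).2.toFinset, χ z.out * χ x := by
      refine (Finset.sum_bij (fun z _ => z + w) ?_ ?_ ?_ ?_).symm
      · intro z hz
        rw [Set.Finite.mem_toFinset] at hz ⊢
        have h1 := (hin z).1 hz
        exact (hin _).2 (add_mem h1 hwin)
      · intro a _ b _ hab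
        exact add_right_cancel hab
      · intro b hb
        rw [Set.Finite.mem_toFinset] at hb
        have h1 := (hin b).1 hb
        refine ⟨b - w, ?_, sub_add_cancel b w⟩
        rw [Set.Finite.mem_toFinset]
        exact (hin _).2 (sub_mem h1 hwin)
      · intro z _
        have h1 : z + w = (QuotientAddGroup.mk (z.out + x) : Q1 R K) := by
          rw [QuotientAddGroup.mk_add, QuotientAddGroup.out_eq', hw]
        rw [h1, hmk, hχ.add]
    rw [← Finset.sum_mul] at hkey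
    have h2 : (∑ z ∈ (ncard_od1 h (k + 1)).2.toFinset, χ z.out) * (χ x - 1) = 0 := by
      linear_combination -hkey
    rcases mul_eq_zero.1 h2 with h3 | h3
    · exact h3
    · exact absurd (by linear_combination h3) hx1
  ext k
  rw [l7d2_omc, l7d2_coeff h]
  rcases k with _ | k
  · rw [l7d2_zero h χ, hN0]
    simp
  · have h1 := l7d2_split h χ k
    rw [hN] at h1
    rcases k with _ | k
    · rw [hN0] at h1
      have h2 : ∑ z ∈ (fin_od1 h (0 + 1)).toFinset, χ z.out = -1 := by linear_combination -h1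
      rw [h2]
      simp
    · rw [hN] at h1
      have h2 : ∑ z ∈ (fin_od1 h (k + 1 + 1)).toFinset, χ z.out = 0 := by linear_combination -h1
      rw [h2]
      simp

end

end Pool.Agent.Lib.H67G
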