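import Pool.Agent.Lib.H67G.L7D1

/-!
# L7D3 (S/M): multiplication by a power of the uniformizer on (K/R)^m
-/

namespace Pool.Agent.Lib.H67G

open Matrix Pool.Agent.Lib.H89N

noncomputable section

variable {R K : Type} [CommRing R] [IsDomain R] [IsDiscreteValuationRing R] [Field K] [Algebra R K] {ϖ : R} {q : ℕ} {m : ℕ}

/-- Multiplication by `ϖ ^ g` on `(K / R) ^ m` (`QuotientAddGroup.map`) is surjective (`ϖ ≠ 0` in `K`) and its kernel is the set of the classes with `od s ≤ g` (`ncard_od`). -/
theorem exists_mulpi (h : LF R K ϖ q) (m g : ℕ) : ∃ φ : QV R K m →+ QV R K m, Function.Surjective φ ∧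
    Nat.card φ.ker = q ^ (g * m) ∧ ∀ s : Fin m → K, φ (QuotientAddGroup.mk s) = QuotientAddGroup.mk (algebraMap R K ϖ ^ g • s) := by
  let f : (Fin m → K) →+ (Fin m → K) :=
    { toFun := fun s => algebraMap R K ϖ ^ g • s
      map_zero' := smul_zero _
      map_add' := fun x y => smul_add _ x y }
  have hf : (St R K (Fin m)).toAddSubgroup ≤ ((St R K (Fin m)).toAddSubgroup).comap f := by
    intro x hx i
    exact in_mul (in_pow (in_alg ϖ) g) (hx i)
  have hmk : ∀ s : Fin m → K, QuotientAddGroup.map _ _ f hf (QuotientAddGroup.mk s) =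
      QuotientAddGroup.mk (algebraMap R K ϖ ^ g • s) := fun s => rfl
  have hpi : algebraMap R K ϖ ^ g ≠ 0 := pow_ne_zero g (pi_ne h)
  refine ⟨QuotientAddGroup.map _ _ f hf, ?_, ?_, hmk⟩
  · intro y
    refine QuotientAddGroup.induction_on y fun t => ?_
    refine ⟨QuotientAddGroup.mk ((algebraMap R K ϖ ^ g)⁻¹ • t), ?_⟩
    rw [hmk, smul_smul, mul_inv_cancel₀ hpi, one_smul]
  · have hset : ((QuotientAddGroup.map _ _ f hf).ker : Set (QV R K m)) = {s : QV R K m | od ϖ s.out ≤ g} := by
      ext s
      change QuotientAddGroup.map _ _ f hf s = 0 ↔ od ϖ s.out ≤ g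
      have hs : (QuotientAddGroup.mk s.out : QV R K m) = s := QuotientAddGroup.out_eq' s
      constructor
      · intro h0
        rw [← hs, hmk, QuotientAddGroup.eq_zero_iff] at h0
        exact od_le _ _ fun i => h0 i
      · intro h0
        rw [← hs, hmk, QuotientAddGroup.eq_zero_iff]
        intro i
        obtain ⟨k, hk⟩ := Nat.exists_eq_add_of_le h0
        have h1 := od_spec h s.out i
        change In R (algebraMap R K ϖ ^ g * s.out i)
        rw [hk, add_comm, pow_add, mul_assoc]
        exact in_mul (in_pow (in_alg ϖ) k) h1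
    have h1 := (ncard_od (m := m) h g).1
    rw [← hset, ← Nat.card_coe_set_eq] at h1
    exact h1

end

end Pool.Agent.Lib.H67G
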