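import Pool.Agent.Lib.H67G.L7B
import Pool.Agent.Lib.H67G.L7C
import Pool.Agent.Lib.H67G.L7D1
import Pool.Agent.Lib.H67G.L7D2
import Pool.Agent.Lib.H67G.L7D3
import Pool.Agent.Lib.H67G.L6B

/-!
# L7E (M): the recursion
-/

namespace Pool.Agent.Lib.H67G

open Matrix Pool.Agent.Lib.H89N

noncomputable section

variable {R K : Type} [CommRing R] [IsDomain R] [IsDiscreteValuationRing R] [Field K] [Algebra R K] {ϖ : R} {q : ℕ} {m : ℕ}

theorem l7e_out_V (s : Fin m → K) : (QuotientAddGroup.mk s : QV R K m).out - s ∈ St R K (Fin m) := by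
  have h1 : (QuotientAddGroup.mk (QuotientAddGroup.mk s : QV R K m).out : QV R K m) = QuotientAddGroup.mk s :=
    Quotient.out_eq' _
  have h2 := QuotientAddGroup.eq.1 h1.symm
  rw [sub_eq_neg_add]
  exact h2

/-- The sum over the vectors. -/
def l7e_H (R K : Type) [CommRing R] [IsDomain R] [IsDiscreteValuationRing R] [Field K] [Algebra R K] (ϖ : R) (q m : ℕ) :
    PowerSeries ℂ :=
  gf (fun s : QV R K m => 2 * od ϖ s.out) (fun s => ((q : ℂ) ^ (m + 1)) ^ od ϖ s.out)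

theorem l7e_fin2 (h : LF R K ϖ q) (m : ℕ) : FinF (fun s : QV R K m => 2 * od ϖ s.out) := by
  intro k
  refine (fin_od h (m := m) (k / 2)).subset ?_
  intro s hs
  have h1 : 2 * od ϖ s.out = k := hs
  show od ϖ s.out = k / 2
  omega

theorem l7e_q (h : LF R K ϖ q) (a : ℕ) : 0 < q ^ a := by
  have := h.dv.two
  positivity

theorem l7e_vec (h : LF R K ϖ q) (m g : ℕ) (u : ℂ) :
    gf (fun s : QV R K m => 2 * od ϖ (algebraMap R K ϖ ^ g • s.out))
      (fun s => u * ((q : ℂ) ^ (m + 1)) ^ od ϖ (algebraMap R K ϖ ^ g • s.out)) =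
      PowerSeries.C (u * ((q : ℂ) ^ m) ^ g) * l7e_H R K ϖ q m ∧
    FinF (fun s : QV R K m => 2 * od ϖ (algebraMap R K ϖ ^ g • s.out)) := by
  obtain ⟨φ, hφ, hN, hmk⟩ := exists_mulpi h m g
  have key : ∀ s : QV R K m, od ϖ (algebraMap R K ϖ ^ g • s.out) = od ϖ (φ s).out := by
    intro s
    have h1 : φ s = QuotientAddGroup.mk (algebraMap R K ϖ ^ g • s.out) := by
      rw [← hmk]
      congr 1
      exact (Quotient.out_eq' s).symm
    rw [h1]
    exact (od_congr h (l7e_out_V _)).symm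
  simp only [key]
  have hd := l7e_fin2 h m
  refine ⟨?_, finF_hom φ _ hN (l7e_q h _) (fun s => 2 * od ϖ s.out) hd⟩
  have e1 : (fun s : QV R K m => u * ((q : ℂ) ^ (m + 1)) ^ od ϖ (φ s).out) =
      fun s => ((q : ℂ) ^ (m + 1)) ^ od ϖ (φ s).out * u := by
    funext s
    ring
  rw [e1, gf_smul (fun s : QV R K m => 2 * od ϖ (φ s).out) (fun s => ((q : ℂ) ^ (m + 1)) ^ od ϖ (φ s).out) u,
    gf_hom φ hφ _ hN (l7e_q h _) (fun s => 2 * od ϖ s.out) (fun s => ((q : ℂ) ^ (m + 1)) ^ od ϖ s.out) hd]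
  rw [← mul_assoc, ← map_mul]
  have e2 : u * ((q ^ (g * m) : ℕ) : ℂ) = u * ((q : ℂ) ^ m) ^ g := by
    push_cast
    rw [← pow_mul, mul_comm g m]
  rw [e2]
  rfl

theorem l7e_le {m : ℕ} (s : Fin m → K) : PPl (R := R) s ≤ St R K (Fin m) := fun _ hy => hy.1

/-- The sum over all the coordinates. -/
theorem l7e_main (h : LF R K ϖ q) (m : ℕ) (u : Q1 R K → ℂ) :
    gf (fun x : (Q1 R K × QV R K m) × QS (St R K (Fin m)) =>
        (od1 ϖ x.1.1.out + 2 * od ϖ (algebraMap R K ϖ ^ od1 ϖ x.1.1.out • x.1.2.out)) +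
        nu q (PPl (R := R) (algebraMap R K ϖ ^ od1 ϖ x.1.1.out • x.1.2.out)) x.2.out.1) (fun x => u x.1.1) =
      gf (fun z : Q1 R K => od1 ϖ z.out) (fun z => u z * ((q : ℂ) ^ m) ^ od1 ϖ z.out) *
        (FP q (St R K (Fin m)) (St R K (Fin m)) * l7e_H R K ϖ q m) := by
  have hB : FinF (fun b : Q1 R K × QV R K m =>
      od1 ϖ b.1.out + 2 * od ϖ (algebraMap R K ϖ ^ od1 ϖ b.1.out • b.2.out)) :=
    finF_prod (fun z : Q1 R K => od1 ϖ z.out)
      (fun (z : Q1 R K) (s : QV R K m) => 2 * od ϖ (algebraMap R K ϖ ^ od1 ϖ z.out • s.out))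
      (fin_od1 h) (fun z => (l7e_vec h m (od1 ϖ z.out) 1).2)
  have h1 := gf_prod (fun b : Q1 R K × QV R K m =>
      od1 ϖ b.1.out + 2 * od ϖ (algebraMap R K ϖ ^ od1 ϖ b.1.out • b.2.out))
    (fun (b : Q1 R K × QV R K m) (T : QS (St R K (Fin m))) =>
      nu q (PPl (R := R) (algebraMap R K ϖ ^ od1 ϖ b.1.out • b.2.out)) T.out.1)
    (fun b _ => u b.1)
    (fun b => u b.1 * ((q : ℂ) ^ (m + 1)) ^ od ϖ (algebraMap R K ϖ ^ od1 ϖ b.1.out • b.2.out))
    (FP q (St R K (Fin m)) (St R K (Fin m))) hB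
    (fun b => fin_nu h (la_PP h _) la_St (l7e_le _)) (by
      intro b
      have e1 := FP_eq h (la_PP h (algebraMap R K ϖ ^ od1 ϖ b.1.out • b.2.out)) (la_St (ϖ := ϖ)) (l7e_le _)
      rw [dg_PP h] at e1
      have e2 := gf_smul (fun T : QS (St R K (Fin m)) =>
        nu q (PPl (R := R) (algebraMap R K ϖ ^ od1 ϖ b.1.out • b.2.out)) T.out.1) (fun _ => 1) (u b.1)
      simp only [one_mul] at e2
      rw [e2]
      have e3 : gf (fun T : QS (St R K (Fin m)) =>
        nu q (PPl (R := R) (algebraMap R K ϖ ^ od1 ϖ b.1.out • b.2.out)) T.out.1) (fun _ => 1) =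
        FP q (St R K (Fin m)) (PPl (R := R) (algebraMap R K ϖ ^ od1 ϖ b.1.out • b.2.out)) := rfl
      rw [e3, e1, ← mul_assoc, ← map_mul, pow_mul])
  have h2 := gf_prod (fun z : Q1 R K => od1 ϖ z.out)
    (fun (z : Q1 R K) (s : QV R K m) => 2 * od ϖ (algebraMap R K ϖ ^ od1 ϖ z.out • s.out))
    (fun z s => u z * ((q : ℂ) ^ (m + 1)) ^ od ϖ (algebraMap R K ϖ ^ od1 ϖ z.out • s.out))
    (fun z => u z * ((q : ℂ) ^ m) ^ od1 ϖ z.out) (l7e_H R K ϖ q m) (fin_od1 h)
    (fun z => (l7e_vec h m (od1 ϖ z.out) 1).2) (fun z => (l7e_vec h m (od1 ϖ z.out) (u z)).1)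
  refine h1.trans ?_
  refine (congrArg (fun x => x * FP q (St R K (Fin m)) (St R K (Fin m))) h2).trans ?_
  ring

theorem l7e_e1 (T : Sy (m + 1) K) (hT : T ∈ LS (St R K (Fin (m + 1)))) : In R (T.1 0 0) := by
  have h1 := hT (Pi.single 0 1) (single_St 0) (Pi.single 0 1) (single_St 0)
  rwa [Matrix.mulVec_single_one, single_dotProduct, one_mul] at h1

/-- `G = FP(St_m, St_m) H`, `H = gf (fun s : QV R K m => 2 * od s.out) (fun s => (q ^ (m + 1)) ^ od s.out)`; `gf_od` with `c = q ^ (m + 1)` is the second equation (`c q ^ m = q ^ (2 m + 1)`).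

Reindex (`gf_bij`, `bij_mN`) the sum over `QS (St (m + 1))`: the class of `S = mN R c s T`, `c = x.1.1.out`, `s = x.1.2.out`, `T = x.2.out`, has `nu = od1 c + 2 od (ϖ ^ gam s) + nu_P(T)` (`nu_congr` for the representative `out` of the class of `S`, `nu_mN`),
`P = PPl (ϖ ^ gam s) ≤ St`, `gam = od1 c`, and the weight is `1`, or `χ₀ (S.out 0 0) = χ₀ c` (`chl_congr`).
Sum over `T` first (`gf_prod`): `FP q St P = C (q ^ ((m + 1) dg q P St)) * FP q St St` (`FP_eq`, `dg_PP`: `dg q P St = od (ϖ ^ gam s)`), `fin_nu`.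
Then the sum over `s` for fixed `c` of `Z ^ (2 od (ϖ ^ gam s)) (q ^ (m + 1)) ^ od (ϖ ^ gam s)` is `q ^ (gam m) H` (`gf_hom` with `exists_mulpi m gam`, `od_congr`).
Then the sum over `c` of `Z ^ gam q ^ (gam m)` (times `χ₀ c`) is given by `gf_od1` (`t = q ^ m`) and `gf_od1_chi`. Use `gf_prod` twice (with `(Q1 × QV) × QS` and `Q1 × QV`), `fin_od`, `fin_od1`, `finF_prod`; constants `u b`. -/
theorem rec_FB (h : LF R K ϖ q) (m : ℕ) : ∃ G : PowerSeries ℂ,
    FP q (St R K (Fin (m + 1))) (St R K (Fin (m + 1))) * om ((q : ℂ) ^ (m + 1)) 1 = om ((q : ℂ) ^ m) 1 * G ∧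
    G * om ((q : ℂ) ^ (2 * m + 1)) 2 = FP q (St R K (Fin m)) (St R K (Fin m)) * om ((q : ℂ) ^ (m + 1)) 2 ∧
    ∀ χ₀ : K → ℂ, Chl ϖ χ₀ → BP q χ₀ (St R K (Fin (m + 1))) (St R K (Fin (m + 1))) = om ((q : ℂ) ^ m) 1 * G := by
  have hdeg : ∀ x : (Q1 R K × QV R K m) × QS (St R K (Fin m)),
      nu q (St R K (Fin (m + 1))) (QuotientAddGroup.mk (mN R x.1.1.out x.1.2.out x.2.out) :
        QS (St R K (Fin (m + 1)))).out.1 =
      (od1 ϖ x.1.1.out + 2 * od ϖ (algebraMap R K ϖ ^ od1 ϖ x.1.1.out • x.1.2.out)) +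
        nu q (PPl (R := R) (algebraMap R K ϖ ^ od1 ϖ x.1.1.out • x.1.2.out)) x.2.out.1 := by
    intro x
    rw [nu_congr (out_sub (M := St R K (Fin (m + 1))) (mN R x.1.1.out x.1.2.out x.2.out)), nu_mN h]
  refine ⟨FP q (St R K (Fin m)) (St R K (Fin m)) * l7e_H R K ϖ q m, ?_, ?_, ?_⟩
  · have h1 := gf_bij _ (bij_mN (R := R) (K := K) (m := m))
      (fun S : QS (St R K (Fin (m + 1))) => nu q (St R K (Fin (m + 1))) S.out.1) (fun _ => 1)
    simp only [hdeg] at h1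
    have h2 := l7e_main h m (fun _ => 1)
    have h3 : FP q (St R K (Fin (m + 1))) (St R K (Fin (m + 1))) =
        gf (fun z : Q1 R K => od1 ϖ z.out) (fun z => ((q : ℂ) ^ m) ^ od1 ϖ z.out) *
        (FP q (St R K (Fin m)) (St R K (Fin m)) * l7e_H R K ϖ q m) := by
      simp only [one_mul] at h2
      exact h1.symm.trans h2
    rw [h3, mul_right_comm, pow_succ, gf_od1 h]
  · have h1 := gf_od h (m := m) ((q : ℂ) ^ (m + 1))
    rw [← pow_add, show m + 1 + m = 2 * m + 1 by ring] at h1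
    rw [mul_assoc]
    exact congrArg (fun x => FP q (St R K (Fin m)) (St R K (Fin m)) * x) h1
  · intro χ₀ hχ
    have h1 := gf_bij _ (bij_mN (R := R) (K := K) (m := m))
      (fun S : QS (St R K (Fin (m + 1))) => nu q (St R K (Fin (m + 1))) S.out.1) (fun S => χ₀ (S.out.1 0 0))
    simp only [hdeg] at h1
    have hw : ∀ x : (Q1 R K × QV R K m) × QS (St R K (Fin m)),
        χ₀ ((QuotientAddGroup.mk (mN R x.1.1.out x.1.2.out x.2.out) : QS (St R K (Fin (m + 1)))).out.1 0 0) =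
        χ₀ x.1.1.out := by
      intro x
      apply chl_congr hχ
      have h2 := l7e_e1 _ (out_sub (M := St R K (Fin (m + 1))) (mN R x.1.1.out x.1.2.out x.2.out))
      exact h2
    simp only [hw] at h1
    have h2 := l7e_main h m (fun z => χ₀ z.out)
    rw [gf_od1_chi h hχ] at h2
    exact h1.symm.trans h2

/-- For `n = 0` there is one class, with `nu = 0`. -/
theorem FP_zero : FP q (St R K (Fin 0)) (St R K (Fin 0)) = 1 := by
  have hsub : Subsingleton (Submodule R (Fin 0 → K)) := by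
    constructor
    intro A B
    ext x
    have hx : x = 0 := Subsingleton.elim _ _
    rw [hx]
    exact ⟨fun _ => zero_mem _, fun _ => zero_mem _⟩
  have hnu : ∀ S : Matrix (Fin 0) (Fin 0) K, nu q (St R K (Fin 0)) S = 0 := by
    intro S
    unfold nu dg ix
    rw [Subsingleton.elim (ker (St R K (Fin 0)) S) (St R K (Fin 0)), AddSubgroup.relIndex_self, Nat.log_one_right]
  have hQ : Subsingleton (QS (St R K (Fin 0))) := by
    constructor
    intro a b
    obtain ⟨a, rfl⟩ := QuotientAddGroup.mk_surjective a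
    obtain ⟨b, rfl⟩ := QuotientAddGroup.mk_surjective b
    congr 1
    apply Subtype.ext
    ext i
    exact i.elim0
  unfold FP gf
  simp only [hnu]
  ext k
  rw [PowerSeries.coeff_mk, PowerSeries.coeff_one]
  by_cases hk : k = 0
  · subst hk
    have hu : {a : QS (St R K (Fin 0)) | (0 : ℕ) = 0} = {(0 : QS (St R K (Fin 0)))} := by
      ext a
      simp [Subsingleton.elim a 0]
    rw [hu, finsum_mem_singleton]
    simp
  · have hu : {a : QS (St R K (Fin 0)) | (0 : ℕ) = k} = ∅ := by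
      ext a
      simp [Ne.symm hk]
    rw [hu, finsum_mem_empty]
    simp [hk]

end

end Pool.Agent.Lib.H67G
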