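import Pool.Agent.Lib.H67G.L1G
import Pool.Agent.Lib.H67G.L1E
import Pool.Agent.Lib.H89N.LD2

/-!
# L8A (M): sublattices which contain e_1
-/

namespace Pool.Agent.Lib.H67G

open Matrix Pool.Agent.Lib.H89N

noncomputable section

variable {R K : Type} [CommRing R] [IsDomain R] [IsDiscreteValuationRing R] [Field K] [Algebra R K] {ϖ : R} {q : ℕ}
  {n : ℕ} {P Q M N : Submodule R (Fin n → K)} {A B : Matrix (Fin n) (Fin n) K}

/-- The sublattice of `R ^ (m + 1)` given by a submodule of `R ^ m`. -/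
def l8a_Q (R K : Type) [CommRing R] [Field K] [Algebra R K] (m : ℕ) (N : Submodule R (Zr R m)) :
    Submodule R (Fin (m + 1) → K) where
  carrier := {x | ∃ w : Fin (m + 1) → R, (fun i : Fin m => w i.succ) ∈ N ∧ (fun i => algebraMap R K (w i)) = x}
  add_mem' := by
    rintro _ _ ⟨w, hw, rfl⟩ ⟨w', hw', rfl⟩
    refine ⟨w + w', add_mem hw hw', ?_⟩
    funext i
    exact map_add _ _ _
  zero_mem' := ⟨0, zero_mem _, funext fun i => map_zero _⟩
  smul_mem' := by
    rintro c _ ⟨w, hw, rfl⟩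
    refine ⟨c • w, Submodule.smul_mem _ c hw, ?_⟩
    funext i
    rw [Pi.smul_apply, Pi.smul_apply, smul_eq_mul, map_mul, Algebra.smul_def]

theorem l8a_ix (h : LF R K ϖ q) (m : ℕ) (N : Submodule R (Zr R m)) :
    ix (l8a_Q R K m N) (St R K (Fin (m + 1))) = N.toAddSubgroup.index := by
  let g : (Fin (m + 1) → R) →+ (Fin m → R) :=
    { toFun := fun w i => w i.succ
      map_zero' := rfl
      map_add' := fun _ _ => rfl }
  have hg : Function.Surjective g := fun v => ⟨Fin.cons 0 v, rfl⟩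
  unfold ix
  rw [← l1d_range, ← AddSubgroup.index_comap, ← AddSubgroup.index_comap_of_surjective N.toAddSubgroup hg]
  apply congrArg
  ext w
  rw [AddSubgroup.mem_comap, AddSubgroup.mem_comap]
  constructor
  · rintro ⟨w', hw', he⟩
    have h1 : w' = w := funext fun i => h.inj (congrFun he i)
    rw [← h1]
    exact hw'
  · intro hw
    exact ⟨w, hw, rfl⟩

theorem l8a_inj (h : LF R K ϖ q) (m : ℕ) : Function.Injective (l8a_Q R K m) := by
  have key : ∀ N N' : Submodule R (Zr R m), l8a_Q R K m N = l8a_Q R K m N' → N ≤ N' := by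
    intro N N' he v hv
    have h1 : (fun i => algebraMap R K ((Fin.cons 0 v : Fin (m + 1) → R) i)) ∈ l8a_Q R K m N := by
      refine ⟨Fin.cons 0 v, ?_, rfl⟩
      have h2 : (fun i : Fin m => (Fin.cons 0 v : Fin (m + 1) → R) i.succ) = v := funext fun i => Fin.cons_succ _ _ _
      rw [h2]
      exact hv
    rw [he] at h1
    obtain ⟨w, hw, hwe⟩ := h1
    have h2 : w = Fin.cons 0 v := funext fun i => h.inj (congrFun hwe i)
    have h3 : (fun i : Fin m => w i.succ) = v := by
      rw [h2]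
      exact funext fun i => Fin.cons_succ _ _ _
    rw [h3] at hw
    exact hw
  intro N N' he
  exact le_antisymm (key N N' he) (key N' N he.symm)

theorem l8a_St (h : LF R K ϖ q) (m k : ℕ) :
    {Q : Submodule R (Fin (m + 1) → K) | IsLa ϖ Q ∧ e1 (m + 1) K ∈ Q ∧ Q ≤ St R K (Fin (m + 1)) ∧
      dg q Q (St R K (Fin (m + 1))) = k} = l8a_Q R K m '' (Sb R q m k) := by
  ext Q
  constructor
  · rintro ⟨h1, h2, h3, h4⟩
    have hQ : l8a_Q R K m (Submodule.comap ((Algebra.linearMap R K).compLeft (Fin (m + 1)) ∘ₗ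
        (LinearMap.pi fun i => (Fin.cases 0 (fun j => LinearMap.proj j) i : (Fin m → R) →ₗ[R] R))) Q) = Q := by
      apply le_antisymm
      · rintro _ ⟨w, hw, rfl⟩
        have h5 : (fun i => algebraMap R K (w i)) = w 0 • e1 (m + 1) K +
            (fun i => algebraMap R K ((Fin.cases 0 (fun j => LinearMap.proj j) i : (Fin m → R) →ₗ[R] R)
              (fun i : Fin m => w i.succ))) := by
          funext i
          rw [Pi.add_apply, Pi.smul_apply, Algebra.smul_def]
          refine Fin.cases ?_ (fun j => ?_) i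
          · have : e1 (m + 1) K 0 = 1 := Pi.single_eq_same _ _
            rw [this]
            simp
          · have : e1 (m + 1) K j.succ = 0 := Pi.single_eq_of_ne (Fin.succ_ne_zero j) _
            rw [this]
            simp
        rw [h5]
        exact add_mem (Submodule.smul_mem _ _ h2) hw
      · intro x hx
        have h5 : ∀ i, ∃ r : R, algebraMap R K r = x i := h3 hx
        choose w hw using h5
        refine ⟨w, ?_, funext hw⟩
        change (fun i => algebraMap R K ((Fin.cases 0 (fun j => LinearMap.proj j) i : (Fin m → R) →ₗ[R] R)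
              (fun i : Fin m => w i.succ))) ∈ Q
        have h5 : (fun i => algebraMap R K ((Fin.cases 0 (fun j => LinearMap.proj j) i : (Fin m → R) →ₗ[R] R)
              (fun i : Fin m => w i.succ))) = x - w 0 • e1 (m + 1) K := by
          funext i
          rw [Pi.sub_apply, Pi.smul_apply, Algebra.smul_def, ← hw i]
          refine Fin.cases ?_ (fun j => ?_) i
          · have : e1 (m + 1) K 0 = 1 := Pi.single_eq_same _ _
            rw [this]
            simp
          · have : e1 (m + 1) K j.succ = 0 := Pi.single_eq_of_ne (Fin.succ_ne_zero j) _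
            rw [this]
            simp
        rw [h5]
        exact sub_mem hx (Submodule.smul_mem _ _ h2)
    refine ⟨_, ?_, hQ⟩
    change (Submodule.toAddSubgroup _).index = q ^ k
    rw [← l8a_ix h, hQ, ix_eq h h1 la_St, h4]
  · rintro ⟨N, hN, rfl⟩
    have hN' : N.toAddSubgroup.index = q ^ k := hN
    refine ⟨⟨k, ?_, ?_⟩, ?_, ?_, ?_⟩
    · intro x hx
      have h5 : ∀ i, ∃ r : R, algebraMap R K r = x i := hx
      choose w hw using h5
      refine ⟨ϖ ^ k • w, LD1_pow_mem h.dv hN (fun i : Fin m => w i.succ), ?_⟩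
      funext i
      rw [Pi.smul_apply, Pi.smul_apply, smul_eq_mul, map_mul, Algebra.smul_def, hw]
    · rintro _ ⟨w, hw, rfl⟩
      exact Submodule.smul_mem _ _ fun i => ⟨w i, rfl⟩
    · refine ⟨Pi.single 0 1, ?_, ?_⟩
      · have h5 : (fun i : Fin m => (Pi.single 0 1 : Fin (m + 1) → R) i.succ) = 0 := by
          funext i
          exact Pi.single_eq_of_ne (Fin.succ_ne_zero i) _
        rw [h5]
        exact zero_mem _
      · funext i
        refine Fin.cases ?_ (fun j => ?_) i
        · have h6 : e1 (m + 1) K 0 = 1 := Pi.single_eq_same _ _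
          rw [Pi.single_eq_same, map_one, h6]
        · have h6 : e1 (m + 1) K j.succ = 0 := Pi.single_eq_of_ne (Fin.succ_ne_zero j) _
          rw [Pi.single_eq_of_ne (Fin.succ_ne_zero j), map_zero, h6]
    · rintro _ ⟨w, hw, rfl⟩
      exact fun i => ⟨w i, rfl⟩
    · rw [dg, l8a_ix h, hN', Nat.log_pow h.dv.two]

/-- By `exists_basis_first` `P = ac A St`, `A e_1 = e_1`; `Q ↦ ac B Q` is a bijection onto the sublattices of `St` which contain `e_1`, and it preserves `dg` (`dg_ac`): we may take `P = St`.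
Let `n = m + 1`. A lattice `Q` with `e_1 ∈ Q ≤ St` is determined by the submodule `Q' = {y ∈ R ^ m : (0, y) ∈ Q} ⊆ R ^ m = Zr R m` (`x ∈ Q` iff `x ∈ St` and `x - x_0 e_1 ∈ Q`), every submodule `Q'` of finite index arises
(a submodule `N` of `Zr R m` of index `q ^ k` contains `ϖ ^ k Zr R m`: the quotient has length `k`; or compare `H89N.LDB`), and the index of `Q` in `St` is the index of `Q'` (`ldIx`; the map `St → R ^ m / Q'`). So the sets
`{Q | ..  dg q Q St = k}` and `Sb R q m k` are in bijection, `H89N.sb_card`. -/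
theorem ncard_sub [NeZero n] (h : LF R K ϖ q) (hP : IsLa ϖ P) (h1 : e1 n K ∈ P) (h2 : P ≤ St R K (Fin n)) (k : ℕ) :
    ({Q | IsLa ϖ Q ∧ e1 n K ∈ Q ∧ Q ≤ P ∧ dg q Q P = k}.ncard : ℂ) = latCount (n - 1) q k := by
  obtain ⟨m, rfl⟩ : ∃ m, n = m + 1 := ⟨n - 1, by have := NeZero.pos n; omega⟩
  obtain ⟨A, B, hAB, hBA, hPA, hAe⟩ := exists_basis_first h hP h1 h2
  have hBe : B *ᵥ e1 (m + 1) K = e1 (m + 1) K := by
    conv_lhs => rw [← hAe]
    rw [mulVec_mulVec, hBA, one_mulVec]
  have h3 : {Q | IsLa ϖ Q ∧ e1 (m + 1) K ∈ Q ∧ Q ≤ P ∧ dg q Q P = k} = ac A ''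
      {Q : Submodule R (Fin (m + 1) → K) | IsLa ϖ Q ∧ e1 (m + 1) K ∈ Q ∧ Q ≤ St R K (Fin (m + 1)) ∧
      dg q Q (St R K (Fin (m + 1))) = k} := by
    ext Q
    constructor
    · rintro ⟨a1, a2, a3, a4⟩
      have hQ : ac A (ac B Q) = Q := by rw [← ac_mul, hAB, ac_one]
      refine ⟨ac B Q, ⟨la_ac h hBA a1, ?_, ?_, ?_⟩, hQ⟩
      · exact mem_ac.2 ⟨_, a2, hBe⟩
      · rw [← ac_le_iff hAB, hQ, ← hPA]
        exact a3
      · rw [← dg_ac hAB, hQ, ← hPA]
        exact a4
    · rintro ⟨Q, ⟨a1, a2, a3, a4⟩, rfl⟩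
      refine ⟨la_ac h hAB a1, mem_ac.2 ⟨_, a2, hAe⟩, ?_, ?_⟩
      · rw [hPA]
        exact ac_mono a3
      · rw [hPA, dg_ac hAB]
        exact a4
  rw [h3, Set.ncard_image_of_injective _ (fun Q Q' he => ac_inj hAB he), l8a_St h,
    Set.ncard_image_of_injective _ (l8a_inj h m), sb_card h.dv]
  rfl

end

end Pool.Agent.Lib.H67G
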