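import Pool.Agent.Lib.H67G.L8A
import Pool.Agent.Lib.H67G.GF1

/-!
# L8B (M): the generating function of the sublattices which contain e_1
-/

namespace Pool.Agent.Lib.H67G

open Matrix Pool.Agent.Lib.H89N

noncomputable section

variable {R K : Type} [CommRing R] [IsDomain R] [IsDiscreteValuationRing R] [Field K] [Algebra R K] {ϖ : R} {q : ℕ}
  {n : ℕ} {P Q M N : Submodule R (Fin n → K)} {A B : Matrix (Fin n) (Fin n) K}

/-!
`latCount m q k = h_k(1, q, .., q ^ (m - 1))` (complete homogeneous symmetric polynomial). `lat_gf`: induction over `m` with the recursion of the complete homogeneous polynomials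
(`h_k(α_0, .., α_m) = ∑_{i + j = k} h_i(α_0, .., α_(m-1)) α_m ^ j`; compare the files `H89N.HS`, `H89N.LD*`, where the recursion or the generating function `∑ h_k X ^ k ∏ (1 - α_i X) = 1` is proved).
`gf_sub`: the coefficient of `Z ^ (2 k)` of the first series is `c ^ k latCount (n - 1) q k` (`ncard_sub`), the odd coefficients vanish: it is the series `∑_k latCount (n - 1) q k (c Z ^ 2) ^ k`; the substitution
`Y ↦ c Z ^ 2` in the identity `(∑_k latCount (n - 1) q k Y ^ k) ∏_{i < n - 1} (1 - q ^ i Y) = 1`. (`dil c f = mk fun k => if even then c ^ (k / 2) coeff (k / 2) f` is a ring homomorphism: `dil_mul`; or use `PowerSeries.rescale` and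
`PowerSeries.subst` / `PowerSeries.expand`; or induction over `m` directly for the dilated series.)
-/

theorem l8b_res (c t : ℂ) : PowerSeries.rescale c (om t 1) = om (t * c) 1 := by
  have h0 : ∀ (s : ℂ) (k : ℕ), PowerSeries.coeff k (om s 1) = (if k = 0 then 1 else 0) - s * (if k = 1 then 1 else 0) := by
    intro s k
    unfold om
    rw [map_sub, PowerSeries.coeff_one, PowerSeries.coeff_C_mul, PowerSeries.coeff_X_pow]
  ext k
  rw [PowerSeries.coeff_rescale, h0, h0]
  rcases k with _ | _ | k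
  · simp
  · simp
    ring
  · simp

theorem lat_gf (m q : ℕ) : PowerSeries.mk (fun k => latCount m q k) * ∏ i ∈ Finset.range m, om ((q : ℂ) ^ i) 1 = 1 := by
  induction m with
  | zero =>
    rw [Finset.range_zero, Finset.prod_empty, mul_one]
    ext k
    rw [PowerSeries.coeff_mk, latCount_zero', PowerSeries.coeff_one]
  | succ m ih =>
    have h1 : PowerSeries.mk (fun k => latCount (m + 1) q k) * om 1 1 =
        PowerSeries.rescale (q : ℂ) (PowerSeries.mk fun k => latCount m q k) := by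
      unfold om
      rw [mul_sub, mul_one, map_one, one_mul, pow_one]
      ext k
      rw [map_sub, PowerSeries.coeff_rescale, PowerSeries.coeff_mk, PowerSeries.coeff_mk]
      rcases k with _ | k
      · rw [PowerSeries.coeff_zero_mul_X, latCount_succ, Finset.sum_range_one, sub_zero]
      · rw [PowerSeries.coeff_succ_mul_X, PowerSeries.coeff_mk, latCount_succ (m := k + 1), latCount_succ (m := k),
          Finset.sum_range_succ _ (k + 1), add_sub_cancel_left]
    rw [Finset.prod_range_succ', pow_zero, mul_comm (∏ i ∈ Finset.range m, om ((q : ℂ) ^ (i + 1)) 1), ← mul_assoc, h1]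
    have h2 : ∏ i ∈ Finset.range m, om ((q : ℂ) ^ (i + 1)) 1 =
        PowerSeries.rescale (q : ℂ) (∏ i ∈ Finset.range m, om ((q : ℂ) ^ i) 1) := by
      rw [map_prod]
      refine Finset.prod_congr rfl fun i _ => ?_
      rw [l8b_res, pow_succ]
    rw [h2, ← map_mul, ih, map_one]

/-- The substitution `Y ↦ c Z ^ 2`. -/
def dil (c : ℂ) (f : PowerSeries ℂ) : PowerSeries ℂ :=
  PowerSeries.mk fun k => if Even k then c ^ (k / 2) * PowerSeries.coeff (k / 2) f else 0

theorem l8b_even (c : ℂ) (f : PowerSeries ℂ) (j : ℕ) : PowerSeries.coeff (2 * j) (dil c f) = c ^ j * PowerSeries.coeff j f := by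
  unfold dil
  rw [PowerSeries.coeff_mk, if_pos (even_two_mul j), Nat.mul_div_cancel_left j two_pos]

theorem l8b_odd (c : ℂ) (f : PowerSeries ℂ) {k : ℕ} (hk : ¬Even k) : PowerSeries.coeff k (dil c f) = 0 := by
  unfold dil
  rw [PowerSeries.coeff_mk, if_neg hk]

theorem dil_mul (c : ℂ) (f g : PowerSeries ℂ) : dil c (f * g) = dil c f * dil c g := by
  ext k
  by_cases hk : Even k
  · obtain ⟨j, rfl⟩ := hk.two_dvd
    rw [l8b_even, PowerSeries.coeff_mul, PowerSeries.coeff_mul]
    have hinj : Set.InjOn (fun x : ℕ × ℕ => (2 * x.1, 2 * x.2)) (Finset.HasAntidiagonal.antidiagonal j : Finset (ℕ × ℕ)) := by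
      rintro ⟨a, b⟩ _ ⟨a', b'⟩ _ h
      simp only [Prod.mk.injEq] at h
      rw [Prod.mk.injEq]
      omega
    refine Eq.trans ?_ (Finset.sum_subset (s₁ := (Finset.HasAntidiagonal.antidiagonal j).image
      fun x : ℕ × ℕ => (2 * x.1, 2 * x.2)) ?_ ?_)
    · rw [Finset.sum_image hinj, Finset.mul_sum]
      refine Finset.sum_congr rfl fun x hx => ?_
      rw [Finset.HasAntidiagonal.mem_antidiagonal] at hx
      show _ = PowerSeries.coeff (2 * x.1) (dil c f) * PowerSeries.coeff (2 * x.2) (dil c g)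
      rw [l8b_even, l8b_even, ← hx, pow_add]
      ring
    · intro x hx
      obtain ⟨y, hy, rfl⟩ := Finset.mem_image.1 hx
      rw [Finset.HasAntidiagonal.mem_antidiagonal] at hy ⊢
      show 2 * y.1 + 2 * y.2 = 2 * j
      omega
    · intro x hx hx'
      rw [Finset.HasAntidiagonal.mem_antidiagonal] at hx
      by_cases h1 : Even x.1
      · obtain ⟨a, ha⟩ := h1.two_dvd
        exfalso
        apply hx'
        refine Finset.mem_image.2 ⟨(a, j - a), Finset.HasAntidiagonal.mem_antidiagonal.2 (by show a + (j - a) = j; omega), ?_⟩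
        apply Prod.ext
        · exact ha.symm
        · show 2 * (j - a) = x.2
          omega
      · rw [l8b_odd c f h1, zero_mul]
  · rw [l8b_odd c _ hk, PowerSeries.coeff_mul]
    symm
    refine Finset.sum_eq_zero fun x hx => ?_
    rw [Finset.HasAntidiagonal.mem_antidiagonal] at hx
    by_cases h1 : Even x.1
    · have h2 : ¬Even x.2 := by
        intro h2
        apply hk
        rw [← hx]
        exact h1.add h2
      rw [l8b_odd c g h2, mul_zero]
    · rw [l8b_odd c f h1, zero_mul]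

theorem dil_one (c : ℂ) : dil c 1 = 1 := by
  ext k
  by_cases hk : Even k
  · obtain ⟨j, rfl⟩ := hk.two_dvd
    rw [l8b_even, PowerSeries.coeff_one, PowerSeries.coeff_one]
    rcases Nat.eq_zero_or_pos j with rfl | hj
    · simp
    · rw [if_neg (by omega), if_neg (by omega), mul_zero]
  · rw [l8b_odd c _ hk, PowerSeries.coeff_one, if_neg]
    rintro rfl
    exact hk (by decide)

theorem dil_om (c t : ℂ) : dil c (om t 1) = om (c * t) 2 := by
  have h0 : ∀ (s : ℂ) (m k : ℕ), PowerSeries.coeff k (om s m) = (if k = 0 then 1 else 0) - s * (if k = m then 1 else 0) := by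
    intro s m k
    unfold om
    rw [map_sub, PowerSeries.coeff_one, PowerSeries.coeff_C_mul, PowerSeries.coeff_X_pow]
  ext k
  rw [h0]
  by_cases hk : Even k
  · obtain ⟨j, rfl⟩ := hk.two_dvd
    rw [l8b_even, h0]
    rcases Nat.eq_zero_or_pos j with rfl | hj
    · simp
    · rw [if_neg (by omega : ¬j = 0), if_neg (by omega : ¬2 * j = 0)]
      by_cases h1 : j = 1
      · subst h1
        simp
      · rw [if_neg h1, if_neg (by omega : ¬2 * j = 2)]
        simp
  · rw [l8b_odd c _ hk, if_neg (by rintro rfl; exact hk (by decide)), if_neg (by rintro rfl; exact hk (by decide))]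
    simp

/-- The substitution as a homomorphism. -/
def l8b_H (c : ℂ) : PowerSeries ℂ →* PowerSeries ℂ where
  toFun := dil c
  map_one' := dil_one c
  map_mul' := dil_mul c

theorem l8b_fin (h : LF R K ϖ q) (hP : IsLa ϖ P) [NeZero n] :
    FinF (fun Q : {Q : Submodule R (Fin n → K) // IsLa ϖ Q ∧ e1 n K ∈ Q ∧ Q ≤ P} => 2 * dg q Q.1 P) := by
  intro k
  refine ((fin_sub h hP (k / 2)).preimage (f := fun Q : {Q : Submodule R (Fin n → K) // IsLa ϖ Q ∧ e1 n K ∈ Q ∧ Q ≤ P} => Q.1)
    Subtype.val_injective.injOn).subset ?_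
  intro Q hQ
  have hQ' : 2 * dg q Q.1 P = k := hQ
  exact ⟨Q.2.1, Q.2.2.2, (by omega : dg q Q.1 P = k / 2)⟩

theorem gf_sub [NeZero n] (h : LF R K ϖ q) (hP : IsLa ϖ P) (h1 : e1 n K ∈ P) (h2 : P ≤ St R K (Fin n)) (c : ℂ) :
    gf (fun Q : {Q : Submodule R (Fin n → K) // IsLa ϖ Q ∧ e1 n K ∈ Q ∧ Q ≤ P} => 2 * dg q Q.1 P)
      (fun Q => c ^ dg q Q.1 P) * ∏ i ∈ Finset.range (n - 1), om (c * (q : ℂ) ^ i) 2 = 1 := by
  have h3 : gf (fun Q : {Q : Submodule R (Fin n → K) // IsLa ϖ Q ∧ e1 n K ∈ Q ∧ Q ≤ P} => 2 * dg q Q.1 P)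
      (fun Q => c ^ dg q Q.1 P) = dil c (PowerSeries.mk fun k => latCount (n - 1) q k) := by
    ext k
    have h4 : PowerSeries.coeff k (gf (fun Q : {Q : Submodule R (Fin n → K) // IsLa ϖ Q ∧ e1 n K ∈ Q ∧ Q ≤ P} =>
        2 * dg q Q.1 P) (fun Q => c ^ dg q Q.1 P)) = ∑ᶠ Q ∈ {Q : {Q : Submodule R (Fin n → K) // IsLa ϖ Q ∧ e1 n K ∈ Q ∧
          Q ≤ P} | 2 * dg q Q.1 P = k}, c ^ dg q Q.1 P := PowerSeries.coeff_mk _ _
    rw [h4]
    by_cases hk : Even k
    · obtain ⟨j, rfl⟩ := hk.two_dvd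
      rw [l8b_even, PowerSeries.coeff_mk, ← ncard_sub h hP h1 h2 j]
      have hfin := l8b_fin (K := K) (n := n) h hP (2 * j)
      rw [finsum_mem_eq_finite_toFinset_sum _ hfin]
      rw [Finset.sum_congr rfl (g := fun _ => c ^ j) (fun Q hQ => by
        have h5 : 2 * dg q Q.1 P = 2 * j := hfin.mem_toFinset.1 hQ
        have h6 : dg q Q.1 P = j := by omega
        show c ^ dg q Q.1 P = c ^ j
        rw [h6])]
      rw [Finset.sum_const, nsmul_eq_mul, mul_comm, ← Set.ncard_eq_toFinset_card _ hfin]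
      congr 2
      rw [← Set.ncard_image_of_injective _ Subtype.val_injective]
      congr 1
      ext Q
      constructor
      · rintro ⟨Q', hQ', rfl⟩
        have h5 : 2 * dg q Q'.1 P = 2 * j := hQ'
        exact ⟨Q'.2.1, Q'.2.2.1, Q'.2.2.2, by omega⟩
      · rintro ⟨ha, hb, hc, hd⟩
        refine ⟨⟨Q, ha, hb, hc⟩, ?_, rfl⟩
        show 2 * dg q Q P = 2 * j
        rw [hd]
    · rw [l8b_odd c _ hk]
      have h5 : {Q : {Q : Submodule R (Fin n → K) // IsLa ϖ Q ∧ e1 n K ∈ Q ∧ Q ≤ P} | 2 * dg q Q.1 P = k} = ∅ := by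
        rw [Set.eq_empty_iff_forall_notMem]
        intro Q hQ
        have h6 : 2 * dg q Q.1 P = k := hQ
        exact hk ⟨dg q Q.1 P, by omega⟩
      rw [h5, finsum_mem_empty]
  have h6 : ∏ i ∈ Finset.range (n - 1), om (c * (q : ℂ) ^ i) 2 = dil c (∏ i ∈ Finset.range (n - 1), om ((q : ℂ) ^ i) 1) := by
    have h7 := map_prod (l8b_H c) (fun i : ℕ => om ((q : ℂ) ^ i) 1) (Finset.range (n - 1))
    refine (Finset.prod_congr rfl fun i _ => (dil_om c ((q : ℂ) ^ i)).symm).trans h7.symm
  rw [h3, h6, ← dil_mul, lat_gf, dil_one]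

theorem fin_subF [NeZero n] (h : LF R K ϖ q) (hP : IsLa ϖ P) :
    FinF (fun Q : {Q : Submodule R (Fin n → K) // IsLa ϖ Q ∧ e1 n K ∈ Q ∧ Q ≤ P} => 2 * dg q Q.1 P) := l8b_fin h hP

end

end Pool.Agent.Lib.H67G
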