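import Pool.Agent.Lib.H67G.L3C

/-!
# L9A (S/M): equivariance
-/

namespace Pool.Agent.Lib.H67G

open Matrix Pool.Agent.Lib.H89N

noncomputable section

variable {R K : Type} [CommRing R] [IsDomain R] [IsDiscreteValuationRing R] [Field K] [Algebra R K] {ϖ : R} {q : ℕ}
  {n : ℕ} {P Q M N : Submodule R (Fin n → K)} {A B : Matrix (Fin n) (Fin n) K}

/-!
`F_Lm`: `Lm M S = ac (nM S) (Lm M 0)` (`ac_nM`), `hF.nY`. `wg_of_wf`: `ac (mM A B) (Lm M 0) = Lm (ac A M) 0` (`ac_mM`), `hF.mA`; the inverse `B` of `A` exists (`det A = 1`; compare `uu_inv` in L1H: prove it here or use `Matrix.nonsing_inv`).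
`alpha`: `e_1 ∉ M`: by `exists_sep` there is `x ∈ du M` with `x ⬝ e_1 = x_0 ∉ R`; by `char_scale_sq` there is `c ∈ R` with `χ₀ (c x_0 x_0) ≠ 1`. `Y = (c x_i x_j)` is symmetric and in `LS M` (`m ⬝ Y m' = c (x ⬝ m) (x ⬝ m') ∈ R`), so
`ac (nM Y) (Lm M 0) = Lm M Y = Lm M 0` (`Lm_eq_iff`) and `F (Lm M 0) = χ₀ (c x_0 x_0) F (Lm M 0)`.
-/

theorem l9a_sd0 (h : LF R K ϖ q) (hM : IsLa ϖ M) : IsSD ϖ (Lm M (0 : Matrix (Fin n) (Fin n) K)) :=
  sd_Lm h hM (0 : Sy n K)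

theorem F_Lm [NeZero n] (h : LF R K ϖ q) {χ₀ : K → ℂ} {χ : Fin n → K → ℂ} {F : Submodule R (Fin n ⊕ Fin n → K) → ℂ}
    (hF : WF ϖ χ₀ χ F) (hM : IsLa ϖ M) (S : Sy n K) : F (Lm M S.1) = χ₀ (S.1 0 0) * F (Lm M 0) := by
  have h1 := ac_nM (M := M) S (0 : Sy n K)
  have h2 : ((0 : Sy n K).1 + S.1) = S.1 := zero_add _
  rw [h2] at h1
  rw [← h1]
  exact hF.nY S _ (l9a_sd0 h hM)

theorem l9a_inv (hA : Uu A) : ∃ B : Matrix (Fin n) (Fin n) K, A * B = 1 ∧ B * A = 1 := by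
  have h1 : A.det = 1 := by
    rw [Matrix.det_of_isUpperTriangular (M := A)]
    · refine Finset.prod_eq_one fun i _ => ?_
      rw [hA i i le_rfl, one_apply_eq]
    · intro i j hij
      have hij' : j < i := hij
      rw [hA i j hij'.le, one_apply_ne hij'.ne']
  have h2 : IsUnit A.det := by rw [h1]; exact isUnit_one
  exact ⟨A⁻¹, Matrix.mul_nonsing_inv A h2, Matrix.nonsing_inv_mul A h2⟩

theorem wg_of_wf [NeZero n] (h : LF R K ϖ q) {χ₀ : K → ℂ} {χ : Fin n → K → ℂ} {F : Submodule R (Fin n ⊕ Fin n → K) → ℂ}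
    (hF : WF ϖ χ₀ χ F) : WG ϖ χ (fun M => F (Lm M 0)) := by
  intro A M hA hM
  obtain ⟨B, hAB, hBA⟩ := l9a_inv hA
  have h1 := ac_mM (M := M) hAB (0 : Matrix (Fin n) (Fin n) K)
  rw [Matrix.mul_zero, Matrix.zero_mul] at h1
  change F (Lm (ac A M) 0) = chU χ A * F (Lm M 0)
  rw [← h1]
  exact hF.mA A B _ (l9a_sd0 h hM) hA hAB hBA

theorem alpha [NeZero n] (h : LF R K ϖ q) {χ₀ : K → ℂ} (hχ : Chl ϖ χ₀) {χ : Fin n → K → ℂ}
    {F : Submodule R (Fin n ⊕ Fin n → K) → ℂ} (hF : WF ϖ χ₀ χ F) (hM : IsLa ϖ M) (he : e1 n K ∉ M) : F (Lm M 0) = 0 := by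
  obtain ⟨x, hx, hx1⟩ := exists_sep h hM he
  have e0 : x ⬝ᵥ e1 n K = x 0 := by
    unfold e1
    rw [dotProduct_single, mul_one]
  rw [e0] at hx1
  obtain ⟨c, hc⟩ := char_scale_sq h hχ hx1
  have hY : (Matrix.of fun i j => algebraMap R K c * (x i * x j) : Matrix (Fin n) (Fin n) K) ∈ Sy n K := by
    change (Matrix.of fun i j => algebraMap R K c * (x i * x j) : Matrix (Fin n) (Fin n) K)ᵀ = _
    ext i j
    rw [transpose_apply, of_apply, of_apply, mul_comm (x j)]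
  set Y : Sy n K := ⟨_, hY⟩ with hYdef
  have hYL : Y ∈ LS M := by
    intro m hm m' hm'
    have h1 : Y.1 *ᵥ m' = (algebraMap R K c * (x ⬝ᵥ m')) • x := by
      ext i
      change ∑ j, (algebraMap R K c * (x i * x j)) * m' j = (algebraMap R K c * ∑ j, x j * m' j) * x i
      rw [Finset.mul_sum, Finset.sum_mul]
      refine Finset.sum_congr rfl fun j _ => ?_
      ring
    rw [h1, dotProduct_smul, smul_eq_mul, dotProduct_comm m x]
    exact in_mul (in_mul (in_alg c) (hx m' hm')) (hx m hm)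
  have h2 : Lm M Y.1 = Lm M (0 : Matrix (Fin n) (Fin n) K) := by
    have h3 := (Lm_eq_iff h hM hM Y (0 : Sy n K)).2 ⟨rfl, by rw [sub_zero]; exact hYL⟩
    exact h3
  have h4 := F_Lm h hF hM Y
  rw [h2] at h4
  have h5 : Y.1 0 0 = algebraMap R K c * (x 0 * x 0) := rfl
  rw [h5] at h4
  by_contra hne
  apply hc
  have h6 : (χ₀ (algebraMap R K c * (x 0 * x 0)) - 1) * F (Lm M 0) = 0 := by
    rw [sub_mul, ← h4, one_mul, sub_self]
  rcases mul_eq_zero.1 h6 with h7 | h7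
  · exact sub_eq_zero.1 h7
  · exact absurd h7 hne

end

end Pool.Agent.Lib.H67G
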