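import Pool.Agent.Lib.H67G.L9A
import Pool.Agent.Lib.H67G.L4
import Pool.Agent.Lib.H67G.L6B
import Pool.Agent.Lib.H67G.L1E

/-!
# L9B (M): the sum over the self-dual lattices
-/

namespace Pool.Agent.Lib.H67G

open Matrix Pool.Agent.Lib.H89N

noncomputable section

variable {R K : Type} [CommRing R] [IsDomain R] [IsDiscreteValuationRing R] [Field K] [Algebra R K] {ϖ : R} {q : ℕ}
  {n : ℕ} {P Q M N : Submodule R (Fin n → K)} {A B : Matrix (Fin n) (Fin n) K}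

/-- Reindex by `bij_SD` (`gf_bij`): `L = Lm M S.out`, `deg = (dg P St + dg P M) + nu q P S.out`, `P = M ⊓ St` (`dg_Lm`), weight `χ₀ (S.out 0 0) F (Lm M 0)` (`F_Lm`). `gf_sigma` with `degB` as in `AA`, `degC M S = nu q (M ⊓ St) S.out` (`fin_nu`, `fin_AA`),
`Φ = BP q χ₀ St St`, `u M = q ^ ((n + 1) dg P M) F (Lm M 0)`: the inner series is `gf (nu ..) (χ₀ (S.out 0 0) * F (Lm M 0)) = C (F (Lm M 0)) * BP q χ₀ M P` (`gf_smul`), which is `C (u M) * Φ` by `BP_eq` if `e_1 ∈ M` (then `e_1 ∈ P ≤ St`),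
and `0` on both sides if `e_1 ∉ M` (`alpha`). -/
theorem sum_SD [NeZero n] (h : LF R K ϖ q) {χ₀ : K → ℂ} (hχ : Chl ϖ χ₀) {χ : Fin n → K → ℂ}
    {F : Submodule R (Fin n ⊕ Fin n → K) → ℂ} (hF : WF ϖ χ₀ χ F) :
    gf (fun L : SDt K ϖ n => dg q L.1 (St2 R K n)) (fun L => F L.1) =
      AA ϖ q (fun M => F (Lm M 0)) * BP q χ₀ (St R K (Fin n)) (St R K (Fin n)) := by
  rw [← gf_bij _ (bij_SD h) (fun L : SDt K ϖ n => dg q L.1 (St2 R K n)) (fun L => F L.1)]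
  have l9b1 : (fun x : Σ M : LaT K ϖ n, QS M.1 => dg q (Lm x.1.1 x.2.out.1) (St2 R K n)) =
      fun x : Σ M : LaT K ϖ n, QS M.1 => (dg q (x.1.1 ⊓ St R K (Fin n)) (St R K (Fin n)) +
        dg q (x.1.1 ⊓ St R K (Fin n)) x.1.1) + nu q (x.1.1 ⊓ St R K (Fin n)) x.2.out.1 :=
    funext fun x => dg_Lm h x.1.2 x.2.out
  have l9b2 : (fun x : Σ M : LaT K ϖ n, QS M.1 => F (Lm x.1.1 x.2.out.1)) =
      fun x : Σ M : LaT K ϖ n, QS M.1 => χ₀ (x.2.out.1 0 0) * F (Lm x.1.1 0) :=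
    funext fun x => F_Lm h hF x.1.2 x.2.out
  show gf (fun x : Σ M : LaT K ϖ n, QS M.1 => dg q (Lm x.1.1 x.2.out.1) (St2 R K n))
    (fun x : Σ M : LaT K ϖ n, QS M.1 => F (Lm x.1.1 x.2.out.1)) = _
  rw [l9b1, l9b2]
  refine gf_sigma (β := LaT K ϖ n) (γ := fun M => QS M.1)
    (fun M => dg q (M.1 ⊓ St R K (Fin n)) (St R K (Fin n)) + dg q (M.1 ⊓ St R K (Fin n)) M.1)
    (fun M S => nu q (M.1 ⊓ St R K (Fin n)) S.out.1) (fun M S => χ₀ (S.out.1 0 0) * F (Lm M.1 0))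
    (fun M => (q : ℂ) ^ ((n + 1) * dg q (M.1 ⊓ St R K (Fin n)) M.1) * F (Lm M.1 0)) _ (fin_AA h n)
    (fun M => fin_nu h (la_inf M.2 la_St) M.2 inf_le_left) fun M => ?_
  rw [gf_smul]
  by_cases he : e1 n K ∈ M.1
  · have h1 : gf (fun S : QS M.1 => nu q (M.1 ⊓ St R K (Fin n)) S.out.1) (fun S => χ₀ (S.out.1 0 0)) =
        BP q χ₀ M.1 (M.1 ⊓ St R K (Fin n)) := rfl
    have hS : e1 n K ∈ St R K (Fin n) := single_St 0
    rw [h1, BP_eq h hχ (la_inf M.2 la_St) M.2 inf_le_left ⟨he, hS⟩ inf_le_right, map_mul]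
    ring
  · rw [alpha h hχ hF M.2 he, mul_zero, map_zero, zero_mul, zero_mul]

end

end Pool.Agent.Lib.H67G
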