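import Mathlib

/-!
# SC (S/M, PURE): a sum over classes which are invariant under a translation vanishes
-/

namespace Pool.Agent.Lib.H67G


noncomputable section

/-- `κ` is the class. Every class is mapped into itself by an injective map `T` with `G (T b) = z G b`, `z ≠ 1`; so `T` is a bijection of the class (finite) and the sum over the class is
`z` times itself, that is `0`. Then sum over the classes (`Finset.sum_fiberwise_of_maps_to` with `s.image κ`, or `Finset.sum_partition`). -/
theorem sum_classes {α γ : Type} (s : Finset α) (κ : α → γ) (G : α → ℂ)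
    (h : ∀ a ∈ s, ∃ (T : α → α) (z : ℂ), z ≠ 1 ∧ Function.Injective T ∧
      ∀ b ∈ s, κ b = κ a → T b ∈ s ∧ κ (T b) = κ a ∧ G (T b) = z * G b) : ∑ a ∈ s, G a = 0 := by
  classical
  rw [← Finset.sum_fiberwise_of_maps_to (s := s) (t := s.image κ) (g := κ) fun a ha => Finset.mem_image_of_mem κ ha]
  refine Finset.sum_eq_zero fun c hc => ?_
  obtain ⟨a, ha, rfl⟩ := Finset.mem_image.1 hc
  obtain ⟨T, z, hz, hT, hb⟩ := h a ha
  obtain ⟨S, hS⟩ : ∃ S, S = s.filter fun b => κ b = κ a := ⟨_, rfl⟩
  rw [← hS]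
  have hm : ∀ b ∈ S, T b ∈ S := by
    intro b hbS
    rw [hS, Finset.mem_filter] at hbS ⊢
    exact ⟨(hb b hbS.1 hbS.2).1, (hb b hbS.1 hbS.2).2.1⟩
  have himg : S.image T = S := by
    refine Finset.eq_of_subset_of_card_le ?_ ?_
    · intro x hx
      obtain ⟨b, hbS, rfl⟩ := Finset.mem_image.1 hx
      exact hm b hbS
    · rw [Finset.card_image_of_injective _ hT]
  have h1 : ∑ b ∈ S, G b = z * ∑ b ∈ S, G b := by
    conv_lhs => rw [← himg]
    rw [Finset.sum_image fun x _ y _ hxy => hT hxy, Finset.mul_sum]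
    refine Finset.sum_congr rfl fun b hbS => ?_
    rw [hS, Finset.mem_filter] at hbS
    exact (hb b hbS.1 hbS.2).2.2
  have h2 : (z - 1) * ∑ b ∈ S, G b = 0 := by
    linear_combination -h1
  rcases mul_eq_zero.1 h2 with h3 | h3
  · exact absurd (sub_eq_zero.1 h3) hz
  · exact h3

end

end Pool.Agent.Lib.H67G
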