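import Pool.Agent.Lib.H67G.L1H
import Pool.Agent.Lib.H67G.L1F
import Pool.Agent.Lib.H67G.L1E
import Pool.Agent.Lib.H67G.SC

/-!
# L9D (M/L): (b), the sum over the proper sublattices vanishes
-/

namespace Pool.Agent.Lib.H67G

open Matrix Pool.Agent.Lib.H89N

noncomputable section

variable {R K : Type} [CommRing R] [IsDomain R] [IsDiscreteValuationRing R] [Field K] [Algebra R K] {ϖ : R} {q : ℕ}
  {n : ℕ} {P Q M N : Submodule R (Fin n → K)} {A B : Matrix (Fin n) (Fin n) K}

/-- The map which replaces the coordinates `≤ r` by zero. -/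
def prr (R K : Type) [CommRing R] [Field K] [Algebra R K] (n r : ℕ) : (Fin n → K) →ₗ[R] (Fin n → K) where
  toFun x := fun i => if r < (i : ℕ) then x i else 0
  map_add' x y := by
    funext i
    by_cases h : r < (i : ℕ) <;> simp [h]
  map_smul' c x := by
    funext i
    by_cases h : r < (i : ℕ) <;> simp [h]

omit [IsDomain R] [IsDiscreteValuationRing R] in
theorem l9d_prr (r : ℕ) (x : Fin n → K) (i : Fin n) : prr R K n r x i = if r < (i : ℕ) then x i else 0 := rfl

theorem l9d_mem {P : Submodule R (Fin n → K)} {y : Fin n → K} (hy : y ∈ St R K (Fin n))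
    (h : ∀ i, y i ≠ 0 → (Pi.single i 1 : Fin n → K) ∈ P) : y ∈ P := by
  have hy' := mem_St.1 hy
  choose c hc using hy'
  have e : y = ∑ i, c i • (Pi.single i 1 : Fin n → K) := by
    funext j
    rw [Finset.sum_apply, Finset.sum_eq_single j]
    · rw [Pi.smul_apply, Pi.single_eq_same, Algebra.smul_def, mul_one, hc]
    · intro i _ hij
      rw [Pi.smul_apply, Pi.single_eq_of_ne (Ne.symm hij), smul_zero]
    · intro h
      exact absurd (Finset.mem_univ j) h
  rw [e]
  refine Submodule.sum_mem _ fun i _ => ?_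
  by_cases h0 : y i = 0
  · have h1 : c i • (Pi.single i 1 : Fin n → K) = 0 := by
      funext j
      by_cases hij : j = i
      · subst hij
        rw [Pi.smul_apply, Pi.single_eq_same, Algebra.smul_def, mul_one, hc, h0]
        rfl
      · rw [Pi.smul_apply, Pi.single_eq_of_ne hij, smul_zero]
        rfl
    rw [h1]
    exact P.zero_mem
  · exact P.smul_mem _ (h i h0)

/-- `r + 1 < n` and `e_(r+1)` is not in the image of `P`. -/
def L9D_bad (P : Submodule R (Fin n → K)) (r : ℕ) : Prop :=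
  ∃ hr : r + 1 < n, (Pi.single ⟨r + 1, hr⟩ 1 : Fin n → K) ∉ P.map (prr R K n r)

theorem l9d_exists [NeZero n] (h : LF R K ϖ q) {P : Submodule R (Fin n → K)} (hP : IsLa ϖ P)
    (he : e1 n K ∈ P) (hS : P ≤ St R K (Fin n)) (hd : dg q P (St R K (Fin n)) ≠ 0) :
    ∃ r ≤ n, L9D_bad P r := by
  by_contra hcon
  push Not at hcon
  apply hd
  rw [dg_zero_iff h hP la_St]
  have key : ∀ k : ℕ, ∀ hk : k < n, (Pi.single ⟨k, hk⟩ 1 : Fin n → K) ∈ P := by
    intro k
    induction k using Nat.strong_induction_on with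
    | _ k ih =>
      intro hk
      rcases k with _ | r
      · exact he
      · have h1 : (Pi.single ⟨r + 1, hk⟩ 1 : Fin n → K) ∈ P.map (prr R K n r) := by
          by_contra h2
          exact hcon r (by omega) ⟨hk, h2⟩
        obtain ⟨x, hx, hxe⟩ := h1
        have h2 : x - prr R K n r x ∈ P := by
          apply l9d_mem
          · rw [mem_St]
            intro i
            have h3 := mem_St.1 (hS hx) i
            rw [Pi.sub_apply, l9d_prr]
            by_cases h4 : r < (i : ℕ)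
            · rw [if_pos h4, sub_self]
              exact in_zero
            · rw [if_neg h4, sub_zero]
              exact h3
          · intro i hi
            rw [Pi.sub_apply, l9d_prr] at hi
            by_cases h4 : r < (i : ℕ)
            · rw [if_pos h4, sub_self] at hi
              exact absurd rfl hi
            · exact ih i (by omega) i.2
        have h3 := P.sub_mem hx h2
        rw [sub_sub_cancel] at h3
        rw [← hxe]
        exact h3
  intro y hy
  exact l9d_mem hy fun i _ => key i i.2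

/-- Indices from `0`. For `P` in the set `𝒫 = {P | IsLa P ∧ e_0 ∈ P ∧ P ≤ St ∧ dg P St = l}`, `l ≥ 1`, there is `r` with `r + 1 < n` and `e_(r+1) ∉ P.map (prr r)`: otherwise, by induction over `i`, all `e_i ∈ P`
(`e_0 ∈ P`; if `e_0, .., e_r ∈ P` and `x ∈ P` with `prr r x = e_(r+1)` then `x - e_(r+1)` is a combination of `e_0, .., e_r` with coefficients `x_k ∈ R`, as `P ≤ St`), so `St ≤ P` and `dg q P St = 0` (`dg_zero_iff`).
Let `r(P)` be the LARGEST such `r` and `κ(P) = (r(P), P.map (prr r(P)))`. Apply `sum_classes` (`Finset.sum` over the finite set, `fin_sub`).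

For `P ∈ 𝒫` with `r = r(P)`, `M' = P.map (prr r)`: the lattice `P'' = {x ∈ St | prr r x ∈ M'}` (it contains `P`) does not contain `e_(r+1)`; by `exists_sep` there is `y ∈ du P''` with `y_(r+1) ∉ R`; `λ = prr r y`. For every `Q ∈ 𝒫` with `Q.map (prr r) = M'`
and `x ∈ Q`: `λ ⬝ x = y ⬝ prr r x ∈ R`, because `prr r x ∈ P''` (`prr r (prr r x) = prr r x`, and `x ∈ St`). By `char_scale` multiply `λ` by an element of `R` such that `χ r (λ_(r+1)) ≠ 1`.
`X = 1 + e_r λᵗ` (row `r` is `e_r + λ`; `λ` is supported on the coordinates `> r`): `Uu X`, `chU χ X = χ r (λ_(r+1)) =: z` (the other superdiagonal entries are `0`, `chl_zero`). `T = ac X` is injective (`ac_inj`), `G (ac X Q) = z G Q` (`hG`).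
For `Q` in the class: `X x = x + (λ ⬝ x) e_r`, `λ ⬝ x ∈ R`, so `ac X Q ≤ St`; `X e_0 = e_0` (`λ_0 = 0`), so `e_0 ∈ ac X Q`; `dg q (ac X Q) St = dg q Q St` (`dg_uu_sub`); `prr r' (X x) = prr r' x` for `r' ≥ r`, so the images under
`prr r'`, `r' ≥ r`, do not change: `κ (ac X Q) = κ Q`. -/
theorem sum_b [NeZero n] (h : LF R K ϖ q) {χ : Fin n → K → ℂ} (hχ : ∀ i : Fin n, (i : ℕ) + 1 < n → Chl ϖ (χ i))
    {G : Submodule R (Fin n → K) → ℂ} (hG : WG ϖ χ G) {l : ℕ} (hl : 1 ≤ l) :
    ∑ᶠ P ∈ {P | IsLa ϖ P ∧ e1 n K ∈ P ∧ P ≤ St R K (Fin n) ∧ dg q P (St R K (Fin n)) = l}, G P = 0 := by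
  classical
  have hfin : {P : Submodule R (Fin n → K) | IsLa ϖ P ∧ e1 n K ∈ P ∧ P ≤ St R K (Fin n) ∧
      dg q P (St R K (Fin n)) = l}.Finite :=
    (fin_sub h la_St l).subset fun P hP => ⟨hP.1, hP.2.2.1, hP.2.2.2⟩
  rw [finsum_mem_eq_finite_toFinset_sum _ hfin]
  obtain ⟨rr, hrr⟩ : ∃ rr : Submodule R (Fin n → K) → ℕ, ∀ P, rr P = Nat.findGreatest (L9D_bad P) n :=
    ⟨_, fun P => rfl⟩
  have hbad : ∀ P : Submodule R (Fin n → K), IsLa ϖ P → e1 n K ∈ P → P ≤ St R K (Fin n) →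
      dg q P (St R K (Fin n)) = l → L9D_bad P (rr P) := by
    intro P h1 h2 h3 h4
    obtain ⟨r, hr, hb⟩ := l9d_exists h h1 h2 h3 (by omega)
    rw [hrr]
    exact Nat.findGreatest_spec hr hb
  refine sum_classes hfin.toFinset (fun P => (rr P, P.map (prr R K n (rr P)))) G ?_
  intro P hP
  rw [Set.Finite.mem_toFinset] at hP
  obtain ⟨hP1, hP2, hP3, hP4⟩ := hP
  obtain ⟨r, hrdef⟩ : ∃ r, r = rr P := ⟨_, rfl⟩
  have hb0 := hbad P hP1 hP2 hP3 hP4
  rw [← hrdef] at hb0
  obtain ⟨hr', hnot'⟩ := hb0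
  have hprr : ∀ x : Fin n → K, prr R K n r (prr R K n r x) = prr R K n r x := by
    intro x
    funext i
    rw [l9d_prr, l9d_prr]
    by_cases h4 : r < (i : ℕ)
    · rw [if_pos h4, if_pos h4]
    · rw [if_neg h4, if_neg h4]
  have hprS : ∀ x ∈ St R K (Fin n), prr R K n r x ∈ St R K (Fin n) := by
    intro x hx
    rw [mem_St]
    intro i
    rw [l9d_prr]
    by_cases h4 : r < (i : ℕ)
    · rw [if_pos h4]
      exact mem_St.1 hx i
    · rw [if_neg h4]
      exact in_zero
  -- the separating vector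
  obtain ⟨P'', hP''⟩ : ∃ P'' : Submodule R (Fin n → K),
      P'' = St R K (Fin n) ⊓ (P.map (prr R K n r)).comap (prr R K n r) := ⟨_, rfl⟩
  have hPP : P ≤ P'' := by
    rw [hP'']
    intro x hx
    exact ⟨hP3 hx, ⟨x, hx, rfl⟩⟩
  have hPS : P'' ≤ St R K (Fin n) := by
    rw [hP'']
    exact inf_le_left
  have hPla : IsLa ϖ P'' := la_mid hP1 la_St hPP hPS
  have hne : (Pi.single ⟨r + 1, hr'⟩ 1 : Fin n → K) ∉ P'' := by
    rw [hP'']
    rintro ⟨-, h2⟩
    rw [SetLike.mem_coe, Submodule.mem_comap] at h2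
    apply hnot'
    have h3 : prr R K n r (Pi.single ⟨r + 1, hr'⟩ 1) = (Pi.single ⟨r + 1, hr'⟩ 1 : Fin n → K) := by
      funext i
      rw [l9d_prr]
      by_cases h4 : r < (i : ℕ)
      · rw [if_pos h4]
      · rw [if_neg h4, Pi.single_eq_of_ne]
        intro h5
        rw [h5] at h4
        exact h4 (Nat.lt_succ_self r)
    rwa [h3] at h2
  obtain ⟨y, hy, hyn⟩ := exists_sep h hPla hne
  have hyn' : ¬ In R (y ⟨r + 1, hr'⟩) := by
    rwa [dotProduct_single, mul_one] at hyn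
  have hrn : r < n := by omega
  obtain ⟨c, hc⟩ := char_scale h (hχ ⟨r, hrn⟩ hr') hyn'
  obtain ⟨lam, hlam⟩ : ∃ lam : Fin n → K, ∀ i, lam i = if r < (i : ℕ) then algebraMap R K c * y i else 0 :=
    ⟨_, fun i => rfl⟩
  obtain ⟨X, hX⟩ : ∃ X : Matrix (Fin n) (Fin n) K, ∀ i j, X i j = (1 : Matrix (Fin n) (Fin n) K) i j +
      (if (i : ℕ) = r then lam j else 0) := ⟨fun i j => _, fun i j => rfl⟩
  have hXv : ∀ x : Fin n → K, X *ᵥ x = x + (lam ⬝ᵥ x) • (Pi.single ⟨r, hrn⟩ 1 : Fin n → K) := by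
    intro x
    funext i
    have e : (X *ᵥ x) i = ((1 : Matrix (Fin n) (Fin n) K) *ᵥ x) i + ∑ j, (if (i : ℕ) = r then lam j else 0) * x j := by
      rw [mulVec, dotProduct, mulVec, dotProduct, ← Finset.sum_add_distrib]
      refine Finset.sum_congr rfl fun j _ => ?_
      rw [hX, add_mul]
    rw [e, one_mulVec, Pi.add_apply, Pi.smul_apply]
    congr 1
    by_cases hi : (i : ℕ) = r
    · have hi' : i = ⟨r, hrn⟩ := Fin.ext hi
      rw [hi', Pi.single_eq_same, smul_eq_mul, mul_one]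
      simp only [if_true]
      rfl
    · have hi' : i ≠ ⟨r, hrn⟩ := fun h => hi (congrArg Fin.val h)
      rw [Pi.single_eq_of_ne hi', smul_zero]
      simp only [hi, if_false, zero_mul, Finset.sum_const_zero]
  have hXU : Uu X := by
    intro i j hij
    rw [hX]
    by_cases hi : (i : ℕ) = r
    · rw [if_pos hi, hlam, if_neg, add_zero]
      have : (j : ℕ) ≤ i := hij
      omega
    · rw [if_neg hi, add_zero]
  obtain ⟨Y, hXY, -, -⟩ := uu_inv hXU
  have hchU : chU χ X = χ ⟨r, hrn⟩ (algebraMap R K c * y ⟨r + 1, hr'⟩) := by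
    unfold chU
    rw [Finset.prod_eq_single (⟨r, hrn⟩ : Fin n)]
    · rw [dif_pos hr', hX, if_pos rfl, hlam, if_pos (Nat.lt_succ_self r), one_apply_ne, zero_add]
      intro h5
      have := congrArg Fin.val h5
      simp at this
    · intro i _ hi
      by_cases h5 : (i : ℕ) + 1 < n
      · rw [dif_pos h5, hX, if_neg (fun h6 => hi (Fin.ext h6)), add_zero, one_apply_ne, chl_zero (hχ i h5)]
        intro h6
        have := congrArg Fin.val h6
        simp at this
      · rw [dif_neg h5]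
    · intro h5
      exact absurd (Finset.mem_univ _) h5
  refine ⟨ac X, chU χ X, by rw [hchU]; exact hc, fun M N e => ac_inj hXY e, ?_⟩
  intro Q hQ hκ
  rw [Set.Finite.mem_toFinset] at hQ
  obtain ⟨hQ1, hQ2, hQ3, hQ4⟩ := hQ
  obtain ⟨hκ1, hκ2⟩ := Prod.mk.inj hκ
  rw [hκ1, ← hrdef] at hκ2
  rw [← hrdef] at hκ1
  -- integrality
  have hint : ∀ x ∈ Q, In R (lam ⬝ᵥ x) := by
    intro x hx
    have h1 : prr R K n r x ∈ P'' := by
      rw [hP'']
      refine ⟨hprS x (hQ3 hx), ?_⟩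
      rw [SetLike.mem_coe, Submodule.mem_comap, hprr, ← hκ2]
      exact ⟨x, hx, rfl⟩
    have h2 := mem_du.1 hy _ h1
    have h3 : lam ⬝ᵥ x = algebraMap R K c * (y ⬝ᵥ prr R K n r x) := by
      rw [dotProduct, dotProduct, Finset.mul_sum]
      refine Finset.sum_congr rfl fun i _ => ?_
      rw [hlam, l9d_prr]
      by_cases h4 : r < (i : ℕ)
      · rw [if_pos h4, if_pos h4]
        ring
      · rw [if_neg h4, if_neg h4]
        ring
    rw [h3]
    exact in_mul (in_alg c) h2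
  have hle : ac X Q ≤ St R K (Fin n) := by
    intro z hz
    obtain ⟨x, hx, rfl⟩ := mem_ac.1 hz
    rw [hXv]
    refine (St R K (Fin n)).add_mem (hQ3 hx) ?_
    obtain ⟨a, ha⟩ := hint x hx
    rw [← ha, algebraMap_smul]
    exact (St R K (Fin n)).smul_mem a (single_St _)
  have he1 : e1 n K ∈ ac X Q := by
    rw [mem_ac]
    refine ⟨e1 n K, hQ2, ?_⟩
    rw [hXv]
    have h5 : lam ⬝ᵥ e1 n K = 0 := by
      unfold e1
      rw [dotProduct_single, mul_one, hlam, if_neg]
      rw [Fin.val_zero]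
      exact Nat.not_lt_zero r
    rw [h5, zero_smul, add_zero]
  have hmap : ∀ r' : ℕ, r ≤ r' → (ac X Q).map (prr R K n r') = Q.map (prr R K n r') := by
    intro r' hr'
    have h6 : ∀ x : Fin n → K, prr R K n r' (X *ᵥ x) = prr R K n r' x := by
      intro x
      rw [hXv]
      funext i
      rw [l9d_prr, l9d_prr]
      by_cases h4 : r' < (i : ℕ)
      · rw [if_pos h4, if_pos h4, Pi.add_apply, Pi.smul_apply, Pi.single_eq_of_ne, smul_zero, add_zero]
        intro h7
        have h8 := congrArg Fin.val h7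
        simp only at h8
        omega
      · rw [if_neg h4, if_neg h4]
    ext z
    constructor
    · rintro ⟨w, hw, rfl⟩
      obtain ⟨x, hx, rfl⟩ := mem_ac.1 hw
      exact ⟨x, hx, (h6 x).symm⟩
    · rintro ⟨x, hx, rfl⟩
      exact ⟨X *ᵥ x, mem_ac.2 ⟨x, hx, rfl⟩, h6 x⟩
  have hbb : ∀ r' : ℕ, r ≤ r' → (L9D_bad (ac X Q) r' ↔ L9D_bad Q r') := by
    intro r' hr'
    unfold L9D_bad
    rw [hmap r' hr']
  have hrT : rr (ac X Q) = r := by
    rw [hrr, Nat.findGreatest_eq_iff]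
    have h7 := hκ1
    rw [hrr, Nat.findGreatest_eq_iff] at h7
    obtain ⟨h8, h9, h10⟩ := h7
    exact ⟨h8, fun h11 => (hbb r le_rfl).2 (h9 h11), fun m hm hmn h12 => h10 hm hmn ((hbb m hm.le).1 h12)⟩
  refine ⟨?_, ?_, hG X Q hXU hQ1⟩
  · rw [Set.Finite.mem_toFinset]
    exact ⟨la_ac h hXY hQ1, he1, hle, by rw [dg_uu_sub h hXU hQ1 la_St hQ3 hle]; exact hQ4⟩
  · rw [hrT, ← hrdef, hmap r le_rfl, hκ2]

end

end Pool.Agent.Lib.H67G
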