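import Pool.Agent.Lib.H67G.L1H
import Pool.Agent.Lib.H67G.L1E
import Pool.Agent.Lib.H67G.SC

/-!
# L9F (M/L): (c), the lattices which contain R^n
-/

namespace Pool.Agent.Lib.H67G

open Matrix Pool.Agent.Lib.H89N

noncomputable section

variable {R K : Type} [CommRing R] [IsDomain R] [IsDiscreteValuationRing R] [Field K] [Algebra R K] {ϖ : R} {q : ℕ}
  {n : ℕ} {P Q M N : Submodule R (Fin n → K)} {A B : Matrix (Fin n) (Fin n) K}

/-- The lattice `M` is bad: for some `j` with `j + 1 < n` there is `z ∈ M` with `z_i = 0` for `i > j` and `z_j ∉ R`. -/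
def Bad (M : Submodule R (Fin n → K)) : Prop :=
  ∃ j : Fin n, (j : ℕ) + 1 < n ∧ ∃ z ∈ M, (∀ i, j < i → z i = 0) ∧ ¬In R (z j)

/-- Multiplication by `1 + z e_eᵗ`. -/
theorem L9F_mulVec {z : Fin n → K} {e : Fin n} (x : Fin n → K) :
    (1 + vecMulVec z (Pi.single e 1)) *ᵥ x = x + x e • z := by
  rw [add_mulVec, one_mulVec]
  congr 1
  funext i
  rw [Pi.smul_apply, smul_eq_mul, mulVec, dotProduct]
  rw [Finset.sum_eq_single e]
  · rw [vecMulVec_apply, Pi.single_eq_same, mul_one, mul_comm]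
  · intro j _ hj
    rw [vecMulVec_apply, Pi.single_eq_of_ne hj, mul_zero, zero_mul]
  · intro he
    exact absurd (Finset.mem_univ e) he

theorem L9F_inv {z : Fin n → K} {e : Fin n} (hz : z e = 0) :
    (1 + vecMulVec z (Pi.single e 1)) * (1 + vecMulVec (-z) (Pi.single e 1)) = (1 : Matrix (Fin n) (Fin n) K) := by
  ext i j
  have h1 := congrFun (L9F_mulVec (z := z) (e := e)
    ((1 + vecMulVec (-z) (Pi.single e 1) : Matrix (Fin n) (Fin n) K).col j)) i
  have h2 : ((1 + vecMulVec z (Pi.single e 1)) * (1 + vecMulVec (-z) (Pi.single e 1)) : Matrix (Fin n) (Fin n) K) i j =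
      ((1 + vecMulVec z (Pi.single e 1)) *ᵥ
        ((1 + vecMulVec (-z) (Pi.single e 1) : Matrix (Fin n) (Fin n) K).col j)) i := rfl
  rw [h2, h1]
  simp only [Pi.add_apply, Pi.smul_apply, smul_eq_mul, Matrix.col_apply, Matrix.add_apply, vecMulVec_apply, Pi.neg_apply]
  rw [hz]
  by_cases hj : j = e
  · subst hj
    rw [Pi.single_eq_same, one_apply_eq]
    ring
  · rw [Pi.single_eq_of_ne hj, one_apply_ne (Ne.symm hj)]
    ring

/-- `M` is bad with the index `j`. -/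
def L9F_Bj (M : Submodule R (Fin n → K)) (j : ℕ) : Prop :=
  ∃ hj : j + 1 < n, ∃ z ∈ M, (∀ i : Fin n, j < (i : ℕ) → z i = 0) ∧ ¬In R (z ⟨j, by omega⟩)

theorem L9F_bad_iff : Bad M ↔ ∃ j, L9F_Bj M j := by
  constructor
  · rintro ⟨j, hj, z, hz, hz', hz''⟩
    exact ⟨j, hj, z, hz, fun i hi => hz' i hi, hz''⟩
  · rintro ⟨j, hj, z, hz, hz', hz''⟩
    exact ⟨⟨j, by omega⟩, hj, z, hz, fun i hi => hz' i hi, hz''⟩

/-- The class. -/
def L9F_kap (M : Submodule R (Fin n → K)) : ℕ × Set (Fin n → K) :=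
  (sInf {j | L9F_Bj M j}, {x | x ∈ M ∧ ∀ i : Fin n, sInf {j | L9F_Bj M j} < (i : ℕ) → x i = 0})

theorem L9F_sInf {S : Set ℕ} {j : ℕ} (h1 : j ∈ S) (h2 : ∀ i, i < j → i ∉ S) : sInf S = j := by
  refine le_antisymm (Nat.sInf_le h1) ?_
  by_contra h
  push Not at h
  exact h2 _ h (Nat.sInf_mem ⟨j, h1⟩)

/-- Let `j` be the SMALLEST index as in `Bad` and `κ(M) = (j, {x ∈ M : x_i = 0 for i > j})`. `sum_classes`: for `M` with `j` choose `z ∈ M`, `z_i = 0` for `i > j`, `z_j ∉ R`; by `char_scale` we may multiply `z` by an element of `R` such that `χ j (z_j) ≠ 1`.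
`X = 1 + z e_(j+1)ᵗ`: `X x = x + x_(j+1) z`. `Uu X` (column `j + 1` gets the entries `z_i`, `i ≤ j`), `chU χ X = χ j (z_j)` (the only superdiagonal entry which is not zero is `(j, j + 1)`; `chl_zero`). `T = ac X` (injective by `ac_inj`). For `N` in the class of `M` (so `z ∈ N`):
`V_j = {x : x_i = 0 for i > j}`; `X` is the identity on `V_j`, so `z ∈ ac X N`; `ac X N ⊇ St`: `e_i = X e_i ∈ ac X N` for `i ≠ j + 1` and `e_(j+1) = X e_(j+1) - z`; `dg q St (ac X N) = dg q St N` (`dg_uu_sup`); `ac X N ⊓ V_j = N ⊓ V_j`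
(if `y ∈ N` and `y + y_(j+1) z ∈ V_j` then `y ∈ V_j`, so `y_(j+1) = 0`), so `κ (ac X N) = κ N` (the smallest index `j` depends only on `N ⊓ V_j`, given that it is `≤ j`). -/
theorem sum_bad (h : LF R K ϖ q) {χ : Fin n → K → ℂ} (hχ : ∀ i : Fin n, (i : ℕ) + 1 < n → Chl ϖ (χ i))
    {f : Submodule R (Fin n → K) → ℂ} (hf : WG ϖ χ f) (k : ℕ) :
    ∑ᶠ M ∈ {M | (IsLa ϖ M ∧ St R K (Fin n) ≤ M ∧ dg q (St R K (Fin n)) M = k) ∧ Bad M}, f M = 0 := by
  classical
  have hfin : {M : Submodule R (Fin n → K) | (IsLa ϖ M ∧ St R K (Fin n) ≤ M ∧ dg q (St R K (Fin n)) M = k) ∧ Bad M}.Finite :=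
    (fin_sup h la_St k).subset fun M hM => hM.1
  rw [finsum_mem_eq_finite_toFinset_sum _ hfin]
  refine sum_classes _ (L9F_kap (R := R) (K := K) (n := n)) f ?_
  intro M hM
  rw [Set.Finite.mem_toFinset] at hM
  obtain ⟨⟨hM1, hM2, hM3⟩, hM4⟩ := hM
  rw [L9F_bad_iff] at hM4
  have hmem : sInf {j | L9F_Bj M j} ∈ {j | L9F_Bj M j} := Nat.sInf_mem hM4
  obtain ⟨j, hjdef⟩ : ∃ j, j = sInf {j | L9F_Bj M j} := ⟨_, rfl⟩
  rw [← hjdef] at hmem
  obtain ⟨hj, z, hz, hz', hz''⟩ := hmem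
  have hj0 : j < n := by omega
  obtain ⟨c, hc⟩ := char_scale h (hχ ⟨j, hj0⟩ hj) hz''
  obtain ⟨e, he⟩ : ∃ e : Fin n, e = ⟨j + 1, hj⟩ := ⟨_, rfl⟩
  have heval : (e : ℕ) = j + 1 := by rw [he]
  obtain ⟨y, hy⟩ : ∃ y : Fin n → K, y = c • z := ⟨_, rfl⟩
  have hyi : ∀ i : Fin n, y i = algebraMap R K c * z i := by
    intro i
    rw [hy, Pi.smul_apply, Algebra.smul_def]
  have hyz : ∀ i : Fin n, j < (i : ℕ) → y i = 0 := by
    intro i hi
    rw [hyi, hz' i hi, mul_zero]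
  have hye : y e = 0 := hyz e (by omega)
  obtain ⟨X, hX⟩ : ∃ X : Matrix (Fin n) (Fin n) K, X = 1 + vecMulVec y (Pi.single e 1) := ⟨_, rfl⟩
  obtain ⟨Y, hY⟩ : ∃ Y : Matrix (Fin n) (Fin n) K, Y = 1 + vecMulVec (-y) (Pi.single e 1) := ⟨_, rfl⟩
  have hXY : X * Y = 1 := by rw [hX, hY]; exact L9F_inv hye
  have hXm : ∀ x, X *ᵥ x = x + x e • y := by intro x; rw [hX]; exact L9F_mulVec x
  have hYm : ∀ x, Y *ᵥ x = x + x e • (-y) := by intro x; rw [hY]; exact L9F_mulVec x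
  have hXU : Uu X := by
    intro i i2 hi
    rw [hX, Matrix.add_apply, vecMulVec_apply]
    by_cases h2 : i2 = e
    · rw [hyz i (by rw [h2] at hi; have : (e : ℕ) ≤ (i : ℕ) := hi; omega), zero_mul, add_zero]
    · rw [Pi.single_eq_of_ne h2, mul_zero, add_zero]
  have hch : chU χ X = χ ⟨j, hj0⟩ (algebraMap R K c * z ⟨j, hj0⟩) := by
    rw [chU, Finset.prod_eq_single ⟨j, hj0⟩]
    · rw [dif_pos hj, hX, Matrix.add_apply, vecMulVec_apply, ← he, Pi.single_eq_same, mul_one, hyi, one_apply_ne, zero_add]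
      intro h0
      rw [he] at h0
      have := congrArg Fin.val h0
      simp at this
    · intro i _ hi
      by_cases h1 : (i : ℕ) + 1 < n
      · rw [dif_pos h1, hX, Matrix.add_apply, vecMulVec_apply, Pi.single_eq_of_ne, mul_zero, add_zero, one_apply_ne,
          chl_zero (hχ i h1)]
        · intro h0
          have := congrArg Fin.val h0
          simp at this
        · intro h0
          apply hi
          rw [he] at h0
          have := congrArg Fin.val h0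
          ext
          simp at this
          exact this
      · rw [dif_neg h1]
    · intro h0
      exact absurd (Finset.mem_univ _) h0
  refine ⟨ac X, chU χ X, by rw [hch]; exact hc, fun N N' hN => ac_inj hXY hN, ?_⟩
  intro N hN hκ
  rw [Set.Finite.mem_toFinset] at hN
  obtain ⟨⟨hN1, hN2, hN3⟩, hN4⟩ := hN
  have hjN : sInf {j | L9F_Bj N j} = j := by
    rw [hjdef]
    exact congrArg Prod.fst hκ
  have hset : {x | x ∈ N ∧ ∀ i : Fin n, j < (i : ℕ) → x i = 0} = {x | x ∈ M ∧ ∀ i : Fin n, j < (i : ℕ) → x i = 0} := by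
    have h0 := congrArg Prod.snd hκ
    simp only [L9F_kap] at h0
    rw [hjN, ← hjdef] at h0
    exact h0
  have hzN : z ∈ N := by
    have h0 : z ∈ {x | x ∈ N ∧ ∀ i : Fin n, j < (i : ℕ) → x i = 0} := by
      rw [hset]
      exact ⟨hz, hz'⟩
    exact h0.1
  have hyN : y ∈ N := by rw [hy]; exact N.smul_mem c hzN
  -- membership for vectors with `x_e = 0`
  have hmem0 : ∀ x : Fin n → K, x e = 0 → (x ∈ ac X N ↔ x ∈ N) := by
    intro x hx
    rw [mem_ac_inv hXY, hYm, hx, zero_smul, add_zero]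
  have hyX : y ∈ ac X N := (hmem0 y hye).2 hyN
  have hSt : St R K (Fin n) ≤ ac X N := by
    intro x hx
    rw [mem_ac_inv hXY, hYm]
    obtain ⟨r, hr⟩ := mem_St.1 hx e
    rw [← hr, algebraMap_smul]
    exact N.add_mem (hN2 hx) (N.smul_mem r (N.neg_mem hyN))
  have hdg : dg q (St R K (Fin n)) (ac X N) = k := by
    rw [dg_uu_sup h hXU la_St hN1 hN2 hSt, hN3]
  have hBj : L9F_Bj (ac X N) j := ⟨hj, z, (hmem0 z (hz' e (by omega))).2 hzN, hz', hz''⟩
  have hlt : ∀ i, i < j → ¬L9F_Bj (ac X N) i := by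
    rintro i hi ⟨hi1, x, hx, hx', hx''⟩
    have hxN : x ∈ N := (hmem0 x (hx' e (by omega))).1 hx
    have hi2 : L9F_Bj N i := ⟨hi1, x, hxN, hx', hx''⟩
    have := Nat.sInf_le (s := {j | L9F_Bj N j}) hi2
    omega
  have hjX : sInf {i | L9F_Bj (ac X N) i} = j := L9F_sInf hBj hlt
  refine ⟨?_, ?_, hf X N hXU hN1⟩
  · rw [Set.Finite.mem_toFinset]
    exact ⟨⟨la_ac h hXY hN1, hSt, hdg⟩, L9F_bad_iff.2 ⟨j, hBj⟩⟩
  · refine Prod.ext ?_ ?_
    · change sInf {i | L9F_Bj (ac X N) i} = sInf {j | L9F_Bj M j}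
      rw [hjX, hjdef]
    · change {x | x ∈ ac X N ∧ ∀ i : Fin n, sInf {i | L9F_Bj (ac X N) i} < (i : ℕ) → x i = 0} =
        {x | x ∈ M ∧ ∀ i : Fin n, sInf {j | L9F_Bj M j} < (i : ℕ) → x i = 0}
      rw [hjX, ← hjdef, ← hset]
      ext x
      constructor
      · rintro ⟨h1, h2⟩
        exact ⟨(hmem0 x (h2 e (by omega))).1 h1, h2⟩
      · rintro ⟨h1, h2⟩
        exact ⟨(hmem0 x (h2 e (by omega))).2 h1, h2⟩

end

end Pool.Agent.Lib.H67G
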