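import Pool.Agent.Lib.H67G.L9F

/-!
# L9G1 (M): the structure of the good lattices
-/

namespace Pool.Agent.Lib.H67G

open Matrix Pool.Agent.Lib.H89N

noncomputable section

variable {R K : Type} [CommRing R] [IsDomain R] [IsDiscreteValuationRing R] [Field K] [Algebra R K] {ϖ : R} {q : ℕ}
  {n : ℕ} {P Q M N : Submodule R (Fin n → K)} {A B : Matrix (Fin n) (Fin n) K}

theorem L9G1_diag_inv (h : LF R K ϖ q) (n k : ℕ) :
    (diagonal fun i : Fin n => if (i : ℕ) + 1 = n then ((algebraMap R K ϖ) ^ k)⁻¹ else 1) *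
      (diagonal fun i : Fin n => algebraMap R K ϖ ^ (if (i : ℕ) + 1 = n then k else 0)) = (1 : Matrix (Fin n) (Fin n) K) := by
  have h0 : algebraMap R K ϖ ≠ 0 := pi_ne h
  rw [diagonal_mul_diagonal, ← diagonal_one]
  congr 1
  funext i
  by_cases hi : (i : ℕ) + 1 = n
  · rw [if_pos hi, if_pos hi, inv_mul_cancel₀ (pow_ne_zero _ h0)]
  · rw [if_neg hi, if_neg hi, pow_zero, one_mul]

theorem L9G1_mem_Mk (h : LF R K ϖ q) {n k : ℕ} {x : Fin n → K} :
    x ∈ Mk K ϖ n k ↔ ∀ i : Fin n, In R (algebraMap R K ϖ ^ (if (i : ℕ) + 1 = n then k else 0) * x i) := by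
  rw [Mk, mem_ac_inv (L9G1_diag_inv h n k), mem_St]
  refine forall_congr' fun i => ?_
  rw [mulVec_diagonal]

theorem L9G1_la_Mk (h : LF R K ϖ q) (n k : ℕ) : IsLa ϖ (Mk (R := R) K ϖ n k) := la_ac h (L9G1_diag_inv h n k) la_St

theorem L9G1_St_Mk (h : LF R K ϖ q) (n k : ℕ) : St R K (Fin n) ≤ Mk K ϖ n k := by
  intro x hx
  rw [L9G1_mem_Mk h]
  intro i
  exact in_mul (in_pow (in_alg ϖ) _) (mem_St.1 hx i)

theorem L9G1_dg_Mk (h : LF R K ϖ q) (m k : ℕ) : dg q (St R K (Fin (m + 1))) (Mk K ϖ (m + 1) k) = k := by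
  have h1 := dg_diag h (L9G1_diag_inv h (m + 1) k) (fun i : Fin (m + 1) => if (i : ℕ) + 1 = m + 1 then k else 0)
  rw [L9G1_diag_inv h (m + 1) k, ac_one] at h1
  rw [Mk, h1, Finset.sum_eq_single (Fin.last m)]
  · rw [if_pos (by simp)]
  · intro i _ hi
    rw [if_neg]
    intro h2
    apply hi
    ext
    simp at h2
    simpa using h2
  · intro h2
    exact absurd (Finset.mem_univ _) h2

theorem uu_xt {m : ℕ} (t : Fin (m + 1) → K) (ht' : t (Fin.last m) = 0) :
    Uu (1 + vecMulVec t (Pi.single (Fin.last m) 1) : Matrix (Fin (m + 1)) (Fin (m + 1)) K) := by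
  intro i i2 hi
  rw [Matrix.add_apply, vecMulVec_apply]
  by_cases h2 : i2 = Fin.last m
  · rw [h2] at hi
    rw [Fin.last_le_iff.1 hi, ht', zero_mul, add_zero]
  · rw [Pi.single_eq_of_ne h2, mul_zero, add_zero]

theorem L9G1_mem_ac {m k : ℕ} {t : Fin (m + 1) → K} (ht' : t (Fin.last m) = 0) {x : Fin (m + 1) → K} :
    x ∈ ac (1 + vecMulVec t (Pi.single (Fin.last m) 1)) (Mk (R := R) K ϖ (m + 1) k) ↔
      x + x (Fin.last m) • (-t) ∈ Mk (R := R) K ϖ (m + 1) k := by
  rw [mem_ac_inv (L9F_inv ht'), L9F_mulVec]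

theorem L9G1_St_ac (h : LF R K ϖ q) {m : ℕ} (k : ℕ) {t : Fin (m + 1) → K} (ht : ∀ i, In R (t i)) (ht' : t (Fin.last m) = 0) :
    St R K (Fin (m + 1)) ≤ ac (1 + vecMulVec t (Pi.single (Fin.last m) 1)) (Mk (R := R) K ϖ (m + 1) k) := by
  intro x hx
  rw [L9G1_mem_ac ht']
  refine L9G1_St_Mk h _ _ ?_
  rw [mem_St]
  intro i
  exact in_add (mem_St.1 hx i) (in_mul (mem_St.1 hx _) (in_neg (ht i)))

theorem L9G1_la_ac (h : LF R K ϖ q) {m : ℕ} (k : ℕ) {t : Fin (m + 1) → K} (ht' : t (Fin.last m) = 0) :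
    IsLa ϖ (ac (1 + vecMulVec t (Pi.single (Fin.last m) 1)) (Mk (R := R) K ϖ (m + 1) k)) :=
  la_ac h (L9F_inv ht') (L9G1_la_Mk h _ _)

theorem L9G1_dg_ac (h : LF R K ϖ q) {m : ℕ} (k : ℕ) {t : Fin (m + 1) → K} (ht : ∀ i, In R (t i)) (ht' : t (Fin.last m) = 0) :
    dg q (St R K (Fin (m + 1))) (ac (1 + vecMulVec t (Pi.single (Fin.last m) 1)) (Mk (R := R) K ϖ (m + 1) k)) = k := by
  rw [dg_uu_sup h (uu_xt t ht') la_St (L9G1_la_Mk h _ _) (L9G1_St_Mk h _ _) (L9G1_St_ac h k ht ht'), L9G1_dg_Mk h]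

theorem L9G1_int {m : ℕ} {M : Submodule R (Fin (m + 1) → K)} (h1 : St R K (Fin (m + 1)) ≤ M) (h3 : ¬Bad M) :
    ∀ j : ℕ, j ≤ m → ∀ z ∈ M, (∀ i : Fin (m + 1), j ≤ (i : ℕ) → z i = 0) → ∀ i, In R (z i) := by
  intro j
  induction j with
  | zero =>
    intro _ z _ hz' i
    rw [hz' i (Nat.zero_le _)]
    exact in_zero
  | succ j ih =>
    intro hj z hz hz'
    have hj0 : j < m + 1 := by omega
    have hzj : In R (z ⟨j, hj0⟩) := by
      by_contra hc
      exact h3 ⟨⟨j, hj0⟩, by change j + 1 < m + 1; omega, z, hz, fun i hi => hz' i hi, hc⟩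
    obtain ⟨r, hr⟩ := hzj
    have hz2 : z - r • (Pi.single ⟨j, hj0⟩ 1 : Fin (m + 1) → K) ∈ M :=
      M.sub_mem hz (M.smul_mem r (h1 (single_St _)))
    have h4 := ih (by omega) _ hz2 (by
      intro i hi
      by_cases hij : i = ⟨j, hj0⟩
      · rw [hij, Pi.sub_apply, Pi.smul_apply, Pi.single_eq_same, Algebra.smul_def, mul_one, hr, sub_self]
      · rw [Pi.sub_apply, Pi.smul_apply, Pi.single_eq_of_ne hij, smul_zero, sub_zero]
        refine hz' i ?_
        have : (i : ℕ) ≠ j := fun h5 => hij (Fin.ext h5)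
        omega)
    intro i
    by_cases hij : i = ⟨j, hj0⟩
    · rw [hij]
      exact ⟨r, hr⟩
    · have h5 := h4 i
      rw [Pi.sub_apply, Pi.smul_apply, Pi.single_eq_of_ne hij, smul_zero, sub_zero] at h5
      exact h5

/-- Let `n = m + 1`, `M ≥ St` a lattice with `[M : St] = q ^ k` which is not `Bad`. Then `M ∩ {z_m = 0} = St ∩ {z_m = 0}`: by induction over `j` (`z ∈ M` with `z_i = 0` for `i > j`, `j < m`: `z_j ∈ R`, subtract `z_j e_j ∈ St ≤ M`).
The last coordinates of the elements of `M` form a fractional ideal `ϖ ^ (-a) R ⊇ R`, `[M : St] = q ^ a` (the projection to the last coordinate; the kernels agree; `H89N.index_span`), so `a = k`. Let `w ∈ M` with `w_m = ϖ ^ (-k)`. `ϖ ^ k w ∈ M` has the last coordinate `1`, so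
`ϖ ^ k w - e_m ∈ M ∩ {z_m = 0}` has coordinates in `R`. So `M = ac X_t (Mk)`, `X_t = 1 + t e_mᵗ` (`X_t x = x + x_m t`), `t = (ϖ ^ k w_i)_(i < m)`, `t_m = 0`, `t ∈ R ^ n`. -/
theorem good_eq (h : LF R K ϖ q) {m : ℕ} {M : Submodule R (Fin (m + 1) → K)} {k : ℕ} (hM : IsLa ϖ M) (h1 : St R K (Fin (m + 1)) ≤ M)
    (h2 : dg q (St R K (Fin (m + 1))) M = k) (h3 : ¬Bad M) : ∃ t : Fin (m + 1) → K, (∀ i, In R (t i)) ∧ t (Fin.last m) = 0 ∧
      M = ac (1 + vecMulVec t (Pi.single (Fin.last m) 1)) (Mk K ϖ (m + 1) k) := by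
  classical
  have h0 : algebraMap R K ϖ ≠ 0 := pi_ne h
  have hint : ∀ z ∈ M, z (Fin.last m) = 0 → ∀ i, In R (z i) := by
    intro z hz hz'
    refine L9G1_int h1 h3 m le_rfl z hz ?_
    intro i hi
    have : i = Fin.last m := by
      ext
      have := i.2
      simp
      omega
    rw [this]
    exact hz'
  -- the maximal exponent
  obtain ⟨N, _, hN⟩ := hM
  have hbd : ∀ a, (∃ w ∈ M, w (Fin.last m) = (algebraMap R K ϖ ^ a)⁻¹) → a ≤ N := by
    rintro a ⟨w, hw, hwa⟩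
    by_contra hlt
    push Not at hlt
    obtain ⟨r, hr⟩ := mem_St.1 (hN w hw) (Fin.last m)
    rw [Pi.smul_apply, Algebra.smul_def, map_pow, hwa] at hr
    have h4 : algebraMap R K (r * ϖ ^ (a - N)) = algebraMap R K 1 := by
      rw [map_mul, hr, map_pow, map_one, mul_assoc, mul_comm _ (algebraMap R K ϖ ^ (a - N)), ← mul_assoc, ← pow_add,
        show N + (a - N) = a by omega, mul_inv_cancel₀ (pow_ne_zero _ h0)]
    have h5 := h.inj h4
    have h6 : IsUnit (ϖ ^ (a - N)) := IsUnit.of_mul_eq_one r (by rw [mul_comm]; exact h5)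
    have h7 : IsUnit ϖ := (isUnit_pow_iff (by omega)).1 h6
    exact h.dv.irr.not_isUnit h7
  have hz0 : ∃ w ∈ M, w (Fin.last m) = (algebraMap R K ϖ ^ 0)⁻¹ := by
    refine ⟨Pi.single (Fin.last m) 1, h1 (single_St _), ?_⟩
    rw [Pi.single_eq_same, pow_zero, inv_one]
  obtain ⟨a, ha⟩ : ∃ a, a = Nat.findGreatest (fun a => ∃ w ∈ M, w (Fin.last m) = (algebraMap R K ϖ ^ a)⁻¹) N := ⟨_, rfl⟩
  have hPa : ∃ w ∈ M, w (Fin.last m) = (algebraMap R K ϖ ^ a)⁻¹ := by
    rw [ha]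
    exact Nat.findGreatest_spec (P := fun a => ∃ w ∈ M, w (Fin.last m) = (algebraMap R K ϖ ^ a)⁻¹) (Nat.zero_le N) hz0
  have hmax : ∀ b, (∃ w ∈ M, w (Fin.last m) = (algebraMap R K ϖ ^ b)⁻¹) → b ≤ a := by
    intro b hb
    rw [ha]
    exact Nat.le_findGreatest (hbd b hb) hb
  obtain ⟨w, hw, hwa⟩ := hPa
  have hlast : ∀ z ∈ M, In R (algebraMap R K ϖ ^ a * z (Fin.last m)) := by
    intro z hz
    by_contra hc
    obtain ⟨l, hl, u, v, huv, hu⟩ := exists_uv h hc
    have h4 := hmax (a + l) ⟨v • z, M.smul_mem v hz, by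
      have h5 : algebraMap R K u * algebraMap R K v = 1 := by rw [← map_mul, huv, map_one]
      rw [Pi.smul_apply, Algebra.smul_def]
      refine eq_inv_of_mul_eq_one_left ?_
      rw [pow_add]
      rw [← h5, ← hu]
      ring⟩
    omega
  obtain ⟨t, ht⟩ : ∃ t : Fin (m + 1) → K, t = ϖ ^ a • w - Pi.single (Fin.last m) 1 := ⟨_, rfl⟩
  have htM : t ∈ M := by
    rw [ht]
    exact M.sub_mem (M.smul_mem _ hw) (h1 (single_St _))
  have hti : ∀ i, t i = algebraMap R K ϖ ^ a * w i - (Pi.single (Fin.last m) 1 : Fin (m + 1) → K) i := by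
    intro i
    rw [ht, Pi.sub_apply, Pi.smul_apply, Algebra.smul_def, map_pow]
  have ht0 : t (Fin.last m) = 0 := by
    rw [hti, hwa, Pi.single_eq_same, mul_inv_cancel₀ (pow_ne_zero _ h0), sub_self]
  have htR : ∀ i, In R (t i) := hint t htM ht0
  have hMa : M = ac (1 + vecMulVec t (Pi.single (Fin.last m) 1)) (Mk K ϖ (m + 1) a) := by
    ext x
    rw [L9G1_mem_ac ht0, L9G1_mem_Mk h]
    have key : ∀ i : Fin (m + 1), i ≠ Fin.last m → (x + x (Fin.last m) • -t) i = x i - (algebraMap R K ϖ ^ a * x (Fin.last m)) * w i := by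
      intro i hi
      rw [Pi.add_apply, Pi.smul_apply, Pi.neg_apply, hti, Pi.single_eq_of_ne hi, smul_eq_mul]
      ring
    constructor
    · intro hx i
      by_cases hi : i = Fin.last m
      · rw [hi, if_pos (by simp), Pi.add_apply, Pi.smul_apply, Pi.neg_apply, ht0, neg_zero, smul_zero, add_zero]
        exact hlast x hx
      · rw [if_neg (by
          intro h4
          apply hi
          ext
          simp at h4
          simpa using h4), pow_zero, one_mul, key i hi]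
        obtain ⟨r, hr⟩ := hlast x hx
        have h5 : x - r • w ∈ M := M.sub_mem hx (M.smul_mem r hw)
        have h6 := hint _ h5 (by
          rw [Pi.sub_apply, Pi.smul_apply, Algebra.smul_def, hr, hwa, mul_comm (algebraMap R K ϖ ^ a), mul_assoc,
            mul_inv_cancel₀ (pow_ne_zero _ h0), mul_one, sub_self]) i
        rw [Pi.sub_apply, Pi.smul_apply, Algebra.smul_def, hr] at h6
        exact h6
    · intro hx
      have h4 := hx (Fin.last m)
      rw [if_pos (by simp), Pi.add_apply, Pi.smul_apply, Pi.neg_apply, ht0, neg_zero, smul_zero, add_zero] at h4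
      obtain ⟨r, hr⟩ := h4
      have h5 : x - r • w ∈ M := by
        refine h1 (mem_St.2 fun i => ?_)
        rw [Pi.sub_apply, Pi.smul_apply, Algebra.smul_def, hr]
        by_cases hi : i = Fin.last m
        · rw [hi, hwa, mul_comm (algebraMap R K ϖ ^ a), mul_assoc, mul_inv_cancel₀ (pow_ne_zero _ h0), mul_one, sub_self]
          exact in_zero
        · have h6 := hx i
          rw [if_neg (by
            intro h4
            apply hi
            ext
            simp at h4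
            simpa using h4), pow_zero, one_mul, key i hi] at h6
          exact h6
      have h6 := M.add_mem h5 (M.smul_mem r hw)
      rw [sub_add_cancel] at h6
      exact h6
  have hak : a = k := by
    rw [← h2, hMa, L9G1_dg_ac h a htR ht0]
  exact ⟨t, htR, ht0, by rw [← hak]; exact hMa⟩

/-- Conversely. The lattice contains `St` (`X_t` maps `St` onto itself and `St ≤ Mk`), the index: `dg_uu_sup` (`X_t` is unipotent upper triangular), and `dg q St Mk = k` (`dg_diag`). Not bad: the elements with last coordinate `0` are in `St`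
(they are `X_t x` with `x ∈ Mk`, `x_m = 0`, so `x ∈ St`); for `j + 1 < n` and `z_i = 0` for `i > j` the last coordinate of `z` is `0`. -/
theorem eq_good (h : LF R K ϖ q) {m k : ℕ} (t : Fin (m + 1) → K) (ht : ∀ i, In R (t i)) (ht' : t (Fin.last m) = 0) :
    let M : Submodule R (Fin (m + 1) → K) := ac (1 + vecMulVec t (Pi.single (Fin.last m) 1)) (Mk K ϖ (m + 1) k)
    IsLa ϖ M ∧ St R K (Fin (m + 1)) ≤ M ∧ dg q (St R K (Fin (m + 1))) M = k ∧ ¬Bad M := by
  intro M
  refine ⟨L9G1_la_ac h k ht', L9G1_St_ac h k ht ht', L9G1_dg_ac h k ht ht', ?_⟩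
  rintro ⟨j, hj, z, hz, hz', hz''⟩
  have h1 : z (Fin.last m) = 0 := hz' _ (by
    rw [Fin.lt_def]
    simp
    omega)
  have hz2 : z + z (Fin.last m) • (-t) ∈ Mk (R := R) K ϖ (m + 1) k := (L9G1_mem_ac ht').1 hz
  rw [h1, zero_smul, add_zero, L9G1_mem_Mk h] at hz2
  have h2 := hz2 j
  rw [if_neg (by omega), pow_zero, one_mul] at h2
  exact hz'' h2

end

end Pool.Agent.Lib.H67G
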