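import Pool.Agent.Lib.H67G.L9G1
import Pool.Agent.Lib.H89N.LD1

/-!
# L9G2 (M): the number of the good lattices
-/

namespace Pool.Agent.Lib.H67G

open Matrix Pool.Agent.Lib.H89N

noncomputable section

variable {R K : Type} [CommRing R] [IsDomain R] [IsDiscreteValuationRing R] [Field K] [Algebra R K] {ϖ : R} {q : ℕ}
  {n : ℕ} {P Q M N : Submodule R (Fin n → K)} {A B : Matrix (Fin n) (Fin n) K}

/-- The vector `(r, 0)`. -/
def L9G2_v (K : Type) [Field K] [Algebra R K] {m : ℕ} (r : Fin m → R) : Fin (m + 1) → K :=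
  Fin.snoc (fun i => algebraMap R K (r i)) 0

theorem L9G2_v_last {m : ℕ} (r : Fin m → R) : L9G2_v K r (Fin.last m) = 0 := by
  rw [L9G2_v, Fin.snoc_last]

theorem L9G2_v_cast {m : ℕ} (r : Fin m → R) (i : Fin m) : L9G2_v K r i.castSucc = algebraMap R K (r i) := by
  rw [L9G2_v, Fin.snoc_castSucc]

theorem L9G2_v_in {m : ℕ} (r : Fin m → R) (i : Fin (m + 1)) : In R (L9G2_v K r i) := by
  refine Fin.lastCases ?_ (fun i => ?_) i
  · rw [L9G2_v_last]
    exact in_zero
  · rw [L9G2_v_cast]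
    exact in_alg _

/-- The lattice. -/
def L9G2_T (K : Type) [Field K] [Algebra R K] (ϖ : R) (k : ℕ) {m : ℕ} (r : Fin m → R) : Submodule R (Fin (m + 1) → K) :=
  ac (1 + vecMulVec (L9G2_v K r) (Pi.single (Fin.last m) 1)) (Mk K ϖ (m + 1) k)

theorem L9G2_mem (h : LF R K ϖ q) {k m : ℕ} (r : Fin m → R) (x : Fin (m + 1) → K) :
    x ∈ L9G2_T K ϖ k r ↔ In R (algebraMap R K ϖ ^ k * x (Fin.last m)) ∧
      ∀ i : Fin m, In R (x i.castSucc - x (Fin.last m) * algebraMap R K (r i)) := by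
  rw [L9G2_T, L9G1_mem_ac (L9G2_v_last r), L9G1_mem_Mk h]
  constructor
  · intro hx
    constructor
    · have h1 := hx (Fin.last m)
      rw [if_pos (by simp), Pi.add_apply, Pi.smul_apply, Pi.neg_apply, L9G2_v_last, neg_zero, smul_zero, add_zero] at h1
      exact h1
    · intro i
      have h1 := hx i.castSucc
      rw [if_neg (by
        have := i.2
        simp
        omega), Pi.add_apply, Pi.smul_apply, Pi.neg_apply, L9G2_v_cast, pow_zero, one_mul, smul_eq_mul] at h1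
      convert h1 using 1
      ring
  · rintro ⟨h1, h2⟩ i
    refine Fin.lastCases ?_ (fun i => ?_) i
    · rw [if_pos (by simp), Pi.add_apply, Pi.smul_apply, Pi.neg_apply, L9G2_v_last, neg_zero, smul_zero, add_zero]
      exact h1
    · rw [if_neg (by
        have := i.2
        simp
        omega), Pi.add_apply, Pi.smul_apply, Pi.neg_apply, L9G2_v_cast, pow_zero, one_mul, smul_eq_mul]
      convert h2 i using 1
      ring

theorem L9G2_eq (h : LF R K ϖ q) {k m : ℕ} (r s : Fin m → R) :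
    L9G2_T K ϖ k r = L9G2_T K ϖ k s ↔ ∀ i, r i - s i ∈ Ideal.span {ϖ ^ k} := by
  have h0 : algebraMap R K ϖ ≠ 0 := pi_ne h
  constructor
  · intro he i
    -- the vector `ϖ ^ (-k) (r, 1)`
    have h1 : (fun j => (algebraMap R K ϖ ^ k)⁻¹ * (Fin.snoc (fun i => algebraMap R K (r i)) 1 : Fin (m + 1) → K) j) ∈
        L9G2_T K ϖ k r := by
      rw [L9G2_mem h]
      constructor
      · rw [Fin.snoc_last, mul_one, mul_inv_cancel₀ (pow_ne_zero _ h0)]
        exact in_one
      · intro j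
        rw [Fin.snoc_last, Fin.snoc_castSucc, mul_one, sub_self]
        exact in_zero
    rw [he, L9G2_mem h] at h1
    obtain ⟨c, hc⟩ := h1.2 i
    rw [Fin.snoc_last, Fin.snoc_castSucc, mul_one, ← mul_sub] at hc
    rw [Ideal.mem_span_singleton]
    refine ⟨c, h.inj ?_⟩
    rw [map_sub, map_mul, map_pow, hc, ← mul_assoc, mul_inv_cancel₀ (pow_ne_zero _ h0), one_mul]
  · intro he
    have key : ∀ r s : Fin m → R, (∀ i, r i - s i ∈ Ideal.span {ϖ ^ k}) → L9G2_T K ϖ k r ≤ L9G2_T K ϖ k s := by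
      intro r s he x hx
      rw [L9G2_mem h] at hx ⊢
      refine ⟨hx.1, fun i => ?_⟩
      obtain ⟨c, hc⟩ := Ideal.mem_span_singleton.1 (he i)
      have h1 : x i.castSucc - x (Fin.last m) * algebraMap R K (s i) =
          (x i.castSucc - x (Fin.last m) * algebraMap R K (r i)) +
            (algebraMap R K ϖ ^ k * x (Fin.last m)) * algebraMap R K c := by
        have h2 : algebraMap R K (r i) - algebraMap R K (s i) = algebraMap R K ϖ ^ k * algebraMap R K c := by
          rw [← map_sub, hc, map_mul, map_pow]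
        linear_combination x (Fin.last m) * h2
      rw [h1]
      exact in_add (hx.2 i) (in_mul hx.1 (in_alg c))
    refine le_antisymm (key r s he) (key s r fun i => ?_)
    rw [← neg_sub]
    exact (Ideal.span {ϖ ^ k}).neg_mem (he i)

/-- Write `n = m + 1`. By `good_eq` and `eq_good` the good lattices are the `ac X_t (Mk)`, `t ∈ R ^ n`, `t_m = 0`, and `ac X_t Mk = ac X_t' Mk` iff `t ≡ t'` modulo `ϖ ^ k R`: `X_t⁻¹ X_t' = X_(t' - t)` and `ac X_u Mk = Mk` iff `X_u (ϖ ^ (-k) e_m) = ϖ ^ (-k) (e_m + u) ∈ Mk` iff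
`ϖ ^ (-k) u_i ∈ R` for all `i < m`. So there are `(q ^ k) ^ m` good lattices (`R / ϖ ^ k` has `q ^ k` elements: `H89N.index_span`; a bijection with `Fin m → R ⧸ Ideal.span {ϖ ^ k}`). -/
theorem ncard_good (h : LF R K ϖ q) (hn : 1 ≤ n) (k : ℕ) :
    {M : Submodule R (Fin n → K) | (IsLa ϖ M ∧ St R K (Fin n) ≤ M ∧ dg q (St R K (Fin n)) M = k) ∧ ¬Bad M}.ncard = q ^ ((n - 1) * k) := by
  obtain ⟨m, rfl⟩ : ∃ m, n = m + 1 := ⟨n - 1, by omega⟩
  obtain ⟨F, hF⟩ : ∃ F : (Fin m → R ⧸ Ideal.span {ϖ ^ k}) → Submodule R (Fin (m + 1) → K),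
      F = fun c => L9G2_T K ϖ k fun i => Quotient.out (c i) := ⟨_, rfl⟩
  have hinj : Function.Injective F := by
    intro c d hcd
    rw [hF] at hcd
    funext i
    have h1 := (L9G2_eq h _ _).1 hcd i
    have h2 := (Ideal.Quotient.eq (I := Ideal.span {ϖ ^ k})).2 h1
    have e1 : ∀ a : R ⧸ Ideal.span {ϖ ^ k}, Ideal.Quotient.mk (Ideal.span {ϖ ^ k}) (Quotient.out a) = a :=
      fun a => Quotient.out_eq a
    rw [e1, e1] at h2
    exact h2
  have hrange : {M : Submodule R (Fin (m + 1) → K) | (IsLa ϖ M ∧ St R K (Fin (m + 1)) ≤ M ∧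
      dg q (St R K (Fin (m + 1))) M = k) ∧ ¬Bad M} = Set.range F := by
    ext M
    constructor
    · rintro ⟨⟨h1, h2, h3⟩, h4⟩
      obtain ⟨t, ht, ht', hM⟩ := good_eq h h1 h2 h3 h4
      choose r hr using ht
      have ht2 : t = L9G2_v K fun i : Fin m => r i.castSucc := by
        funext j
        refine Fin.lastCases ?_ (fun i => ?_) j
        · rw [ht', L9G2_v_last]
        · rw [L9G2_v_cast, hr]
      refine ⟨fun i => Ideal.Quotient.mk (Ideal.span {ϖ ^ k}) (r i.castSucc), ?_⟩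
      rw [hF, hM, ht2]
      refine (L9G2_eq h _ _).2 fun i => ?_
      rw [← Ideal.Quotient.eq]
      exact Quotient.out_eq _
    · rintro ⟨c, rfl⟩
      rw [hF]
      have h1 := eq_good (k := k) h (L9G2_v K fun i => Quotient.out (c i)) (L9G2_v_in _) (L9G2_v_last _)
      exact ⟨⟨h1.1, h1.2.1, h1.2.2.1⟩, h1.2.2.2⟩
  rw [hrange, ← Nat.card_coe_set_eq, Nat.card_range_of_injective hinj, Nat.card_fun,
    Nat.card_eq_fintype_card (α := Fin m), Fintype.card_fin]
  have h5 : Nat.card (R ⧸ Ideal.span {ϖ ^ k}) = q ^ k := index_span h.dv k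
  rw [h5, ← pow_mul, Nat.add_sub_cancel, mul_comm]

end

end Pool.Agent.Lib.H67G
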