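import Pool.Agent.Lib.H67G.R0
import Pool.Agent.Lib.H33W.W10
import Pool.Agent.Lib.H33W.W12
import Pool.Agent.Lib.H33W.T4

/-!
# NC (M): lattice points in moving balls
-/

namespace Pool.Agent.Lib.H67G

open MeasureTheory Matrix NumberField IsDedekindDomain Pool.Agent.Lib.H89N Pool.Agent.Lib.H33W
open scoped ENNReal Pointwise

noncomputable section

set_option linter.unusedSectionVars false

variable {n : ℕ} {K : Type} [Field K] [NumberField K]

/-- The lattice `𝔪 v ^ (-k)` in `K ⊗ ℝ`. -/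
def LDn (𝔪 : Ideal (𝓞 K)) (v : HeightOneSpectrum (𝓞 K)) (k : ℕ) : AddSubgroup (EE K) where
  carrier := {x | ∃ z : K, Den 𝔪 v k z ∧ x = mixedEmbedding K z}
  add_mem' := by
    rintro _ _ ⟨z, hz, rfl⟩ ⟨w, hw, rfl⟩
    exact ⟨z + w, (den_mem 𝔪 v k _).2 (Submodule.add_mem (fI 𝔪 v k : Submodule (𝓞 K) K) ((den_mem 𝔪 v k _).1 hz) ((den_mem 𝔪 v k _).1 hw)), (map_add _ _ _).symm⟩
  zero_mem' := ⟨0, (den_mem 𝔪 v k _).2 (Submodule.zero_mem (fI 𝔪 v k : Submodule (𝓞 K) K)), (map_zero _).symm⟩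
  neg_mem' := by
    rintro _ ⟨z, hz, rfl⟩
    exact ⟨-z, (den_mem 𝔪 v k _).2 (Submodule.neg_mem (fI 𝔪 v k : Submodule (𝓞 K) K) ((den_mem 𝔪 v k _).1 hz)), (map_neg _ _).symm⟩

/-- PROOF. Let `q = N v ∈ v` and `I = 𝔪 J`, `v ^ k J = (q ^ k)`: `Den 𝔪 v k z ↔ InI I (q ^ k z)`, `N(I) q ^ k = N𝔪 q ^ (k d)`. `D = q ^ (-k) D_I` with `D_I` from `H33W.exists_LD` (`I ≠ ⊥`): the volume is `q ^ (-k d) N(I) vol(FD) = q ^ (-k) N𝔪 vol(FD)` (`Measure.addHaar_smul`, `mixedEmbedding.finrank`). -/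
theorem nc_ld {𝔪 : Ideal (𝓞 K)} (h𝔪 : 𝔪 ≠ ⊥) (v : HeightOneSpectrum (𝓞 K)) (k : ℕ) :
    ∃ D, LD (LDn 𝔪 v k) D ∧ (Ideal.absNorm v.asIdeal : ℝ≥0∞) ^ k * volume D = Ideal.absNorm 𝔪 * volume (FD K) := by
  classical
  have hv0 : (v.asIdeal : FractionalIdeal (nonZeroDivisors (𝓞 K)) K) ≠ 0 := by
    rw [Ne, FractionalIdeal.coeIdeal_eq_zero]
    exact v.ne_bot
  have hm0 : (𝔪 : FractionalIdeal (nonZeroDivisors (𝓞 K)) K) ≠ 0 := by
    rw [Ne, FractionalIdeal.coeIdeal_eq_zero]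
    exact h𝔪
  have hf0 : fI 𝔪 v k ≠ 0 := mul_ne_zero hm0 (inv_ne_zero (pow_ne_zero _ hv0))
  let J : (FractionalIdeal (nonZeroDivisors (𝓞 K)) K)ˣ := Units.mk0 (fI 𝔪 v k) hf0
  have hJ : ((J : FractionalIdeal (nonZeroDivisors (𝓞 K)) K)) = fI 𝔪 v k := rfl
  let b := mixedEmbedding.fractionalIdealLatticeBasis K J
  have hmem : ∀ x : EE K, x ∈ Submodule.span ℤ (Set.range b) ↔ x ∈ LDn 𝔪 v k := by
    intro x
    rw [mixedEmbedding.mem_span_fractionalIdealLatticeBasis]
    constructor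
    · rintro ⟨z, hz, rfl⟩
      have hz' : z ∈ fI 𝔪 v k := hz
      exact ⟨z, (den_mem 𝔪 v k z).2 hz', rfl⟩
    · rintro ⟨z, hz, rfl⟩
      exact ⟨z, (den_mem 𝔪 v k z).1 hz, rfl⟩
  have hq : 0 < (Ideal.absNorm v.asIdeal : ℝ) ^ k := by
    have h1 : Ideal.absNorm v.asIdeal ≠ 0 := by
      rw [Ne, Ideal.absNorm_eq_zero_iff]
      exact v.ne_bot
    have h2 : 0 < Ideal.absNorm v.asIdeal := Nat.pos_of_ne_zero h1
    positivity
  have hvol : (Ideal.absNorm v.asIdeal : ℝ≥0∞) ^ k * volume (ZSpan.fundamentalDomain b) = Ideal.absNorm 𝔪 * volume (FD K) := by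
    have h := mixedEmbedding.volume_fundamentalDomain_fractionalIdealLatticeBasis K J
    have e : (Ideal.absNorm v.asIdeal : ℝ≥0∞) ^ k * ENNReal.ofReal ((FractionalIdeal.absNorm J.1 : ℚ) : ℝ) =
        (Ideal.absNorm 𝔪 : ENNReal) := by
      have h1 := nm_fI 𝔪 v k
      unfold H89S.nm at h1
      rw [hJ, h1, ← ENNReal.ofReal_natCast, ← ENNReal.ofReal_pow (by positivity), ← ENNReal.ofReal_mul hq.le,
        mul_div_cancel₀ _ hq.ne', ENNReal.ofReal_natCast]
    have h2 : volume (ZSpan.fundamentalDomain b) = ENNReal.ofReal ((FractionalIdeal.absNorm J.1 : ℚ) : ℝ) * volume (FD K) := h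
    rw [h2, ← mul_assoc, e]
  refine ⟨ZSpan.fundamentalDomain b, ⟨ZSpan.fundamentalDomain_measurableSet b, ZSpan.fundamentalDomain_isBounded b, ?_, ?_⟩, hvol⟩
  · intro x
    obtain ⟨v, hv, hu⟩ := ZSpan.exist_unique_vadd_mem_fundamentalDomain b x
    refine ⟨⟨v.1, (hmem _).1 v.2⟩, hv, ?_⟩
    intro z hz
    have h1 := hu ⟨z.1, (hmem _).2 z.2⟩ hz
    apply Subtype.ext
    exact congrArg (fun v : Submodule.span ℤ (Set.range b) => (v : EE K)) h1
  · exact pos_iff_ne_zero.2 (ZSpan.measure_fundamentalDomain_ne_zero _)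

/-- PROOF. The proof of `H33W.mean_count` (file W10) works for any countable lattice `Λ` with fundamental domain `D'` in place of `LI I` (with `b` replaced by `-b`). -/
theorem nc_mean {J : Ideal (𝓞 K)} {D D' : Set (EE K)} (hD : LD (LI J) D) {Λ : AddSubgroup (EE K)} [Countable Λ] (hD' : LD Λ D') {b : K} (hb : b ≠ 0)
    (hbJ : ∀ z : K, InI J z → mixedEmbedding K (z * b) ∈ Λ) (s : EE K) {B : Set (EE K)} (hB : MeasurableSet B) :
    volume D' * ∫⁻ x in D, ∑' c : Λ, B.indicator (1 : EE K → ℝ≥0∞) ((c : EE K) + s + x * mixedEmbedding K b) = volume D * volume B := by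
  have := li_countable (K := K) J
  set β : EE K := mixedEmbedding K b with hβ
  set β' : EE K := mixedEmbedding K b⁻¹ with hβ'
  have hββ : β' * β = 1 := by
    rw [hβ, hβ', ← map_mul, inv_mul_cancel₀ hb, map_one]
  set F : EE K → ENNReal := fun x => ∑' c : Λ, B.indicator (1 : EE K → ENNReal) ((c : EE K) + s + x * β) with hF
  have hFm : Measurable F := by
    refine Measurable.ennreal_tsum fun c => (w10_meas hB).comp ?_
    have : Continuous fun x : EE K => (c : EE K) + s + x * β := by fun_prop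
    exact this.measurable
  have per : ∀ z ∈ LI J, ∀ x, F (z + x) = F x := by
    rintro z ⟨z', hz', rfl⟩ x
    have hm : mixedEmbedding K (z' * b) ∈ Λ := hbJ z' hz'
    have e1 : F x = ∑' c : Λ, B.indicator (1 : EE K → ENNReal)
        (((Equiv.addRight (⟨mixedEmbedding K (z' * b), hm⟩ : Λ) c : Λ) : EE K) + s + x * β) :=
      ((Equiv.addRight (⟨mixedEmbedding K (z' * b), hm⟩ : Λ)).tsum_eq
        (fun c : Λ => B.indicator (1 : EE K → ENNReal) ((c : EE K) + s + x * β))).symm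
    rw [e1]
    refine tsum_congr fun c => ?_
    congr 1
    rw [Equiv.coe_addRight, AddSubgroup.coe_add]
    show _ = (c : EE K) + mixedEmbedding K (z' * b) + s + x * β
    rw [map_mul, ← hβ]
    ring
  have e1 : ∀ y : EE K, ∫⁻ x in D, F (x + y * β') = ∫⁻ x in D, F x := fun y => ld_shift hD hFm per _
  have e2 : volume D' * ∫⁻ x in D, F x = ∫⁻ y in D', ∫⁻ x in D, F (x + y * β') := by
    rw [lintegral_congr e1, lintegral_const, Measure.restrict_apply MeasurableSet.univ, Set.univ_inter, mul_comm]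
  have e3 : ∫⁻ y in D', ∫⁻ x in D, F (x + y * β') = ∫⁻ x in D, ∫⁻ y in D', F (x + y * β') := by
    refine lintegral_lintegral_swap ?_
    have : Continuous fun p : EE K × EE K => p.2 + p.1 * β' := by fun_prop
    exact (hFm.comp this.measurable).aemeasurable
  have e4 : ∀ x : EE K, ∫⁻ y in D', F (x + y * β') = volume B := by
    intro x
    set φ : EE K → ENNReal := fun y => B.indicator (1 : EE K → ENNReal) (y + (s + x * β)) with hφ
    have hφm : Measurable φ := by
      refine (w10_meas hB).comp ?_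
      have : Continuous fun y : EE K => y + (s + x * β) := by fun_prop
      exact this.measurable
    have k1 : ∀ y : EE K, F (x + y * β') = ∑' z : Λ, φ ((z : EE K) + y) := by
      intro y
      refine tsum_congr fun c => ?_
      simp only [hφ]
      congr 1
      rw [add_mul, mul_assoc, hββ]
      ring
    rw [lintegral_congr k1, ld_unfold hD' hφm]
    simp only [hφ]
    rw [lintegral_add_right_eq_self (μ := volume) (fun y => B.indicator (1 : EE K → ENNReal) y) (s + x * β),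
      lintegral_indicator_one hB]
  calc volume D' * ∫⁻ x in D, F x = ∫⁻ x in D, ∫⁻ y in D', F (x + y * β') := by rw [e2, e3]
    _ = ∫⁻ _ in D, volume B := lintegral_congr e4
    _ = volume D * volume B := by
      rw [lintegral_const, Measure.restrict_apply MeasurableSet.univ, Set.univ_inter, mul_comm]

end

end Pool.Agent.Lib.H67G
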