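import Pool.Agent.Lib.H67G.NC

/-!
# NK (M): the mean number of possible entries
-/

namespace Pool.Agent.Lib.H67G

open MeasureTheory Matrix NumberField IsDedekindDomain Pool.Agent.Lib.H89N Pool.Agent.Lib.H33W
open scoped ENNReal Pointwise

noncomputable section

set_option linter.unusedSectionVars false

variable {n : ℕ} {K : Type} [Field K] [NumberField K]

/-- The condition on the entry `p` of a row (other than `(inl ls)`). -/
def PS [NeZero n] (𝔪 : Ideal (𝓞 K)) (v : HeightOneSpectrum (𝓞 K)) (k : ℕ) (p : Fin n ⊕ Fin n) (y : K) : Prop :=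
  if p = Sum.inr (ls n) then InI 𝔪 (y - 1) else Den 𝔪 v k y

theorem nk_calc (N q k : ℕ) (hN : N ≠ 0) {V vD vD' vB I : ℝ≥0∞} (hV0 : V ≠ 0) (hVT : V ≠ ⊤)
    (h1 : (q : ℝ≥0∞) ^ k * vD' = N * V) (h2 : vD' * I = vD * vB) {C0 r : ℝ} (hC0 : 0 ≤ C0) (hr : 0 ≤ r)
    (h3 : vB ≤ ENNReal.ofReal (C0 * r)) :
    I ≤ ENNReal.ofReal (C0 / V.toReal * (r * (q : ℝ) ^ k / N)) * vD := by
  have hVr : 0 < V.toReal := ENNReal.toReal_pos hV0 hVT
  have hNr : (0 : ℝ) < N := by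
    have := Nat.pos_of_ne_zero hN
    exact_mod_cast this
  have e1 : (N : ℝ≥0∞) * V * ENNReal.ofReal (C0 / V.toReal * (r * (q : ℝ) ^ k / N)) =
      (q : ℝ≥0∞) ^ k * ENNReal.ofReal (C0 * r) := by
    conv_lhs => rw [← ENNReal.ofReal_toReal hVT]
    rw [← ENNReal.ofReal_natCast, ← ENNReal.ofReal_mul hNr.le, ← ENNReal.ofReal_mul (by positivity),
      ← ENNReal.ofReal_natCast, ← ENNReal.ofReal_pow (by positivity), ← ENNReal.ofReal_mul (by positivity)]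
    congr 1
    rw [ENNReal.toReal_ofReal hVr.le]
    field_simp
  have hN0 : (N : ℝ≥0∞) * V ≠ 0 := mul_ne_zero (by exact_mod_cast hN) hV0
  have hNT : (N : ℝ≥0∞) * V ≠ ⊤ := ENNReal.mul_ne_top (ENNReal.natCast_ne_top N) hVT
  have h4 : (N : ℝ≥0∞) * V * I ≤ (N : ℝ≥0∞) * V * (ENNReal.ofReal (C0 / V.toReal * (r * (q : ℝ) ^ k / N)) * vD) := by
    calc (N : ℝ≥0∞) * V * I = (q : ℝ≥0∞) ^ k * (vD' * I) := by rw [← h1, mul_assoc]
      _ = (q : ℝ≥0∞) ^ k * (vD * vB) := by rw [h2]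
      _ ≤ (q : ℝ≥0∞) ^ k * (vD * ENNReal.ofReal (C0 * r)) := by gcongr
      _ = (q : ℝ≥0∞) ^ k * ENNReal.ofReal (C0 * r) * vD := by ring
      _ = (N : ℝ≥0∞) * V * (ENNReal.ofReal (C0 / V.toReal * (r * (q : ℝ) ^ k / N)) * vD) := by
        rw [← e1, mul_assoc]
  exact (ENNReal.mul_le_mul_iff_right hN0 hNT).mp h4

theorem nk_sum {S : Set K} {Λ : AddSubgroup (EE K)} (f : K → EE K) (hf : ∀ y ∈ S, f y ∈ Λ)
    (hinj : ∀ y y', f y = f y' → y = y') (hsurj : ∀ c ∈ Λ, ∃ y ∈ S, f y = c) (g : EE K → ℝ≥0∞) :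
    ∑' y : K, S.indicator (1 : K → ℝ≥0∞) y * g (f y) = ∑' c : Λ, g (c : EE K) := by
  have h1 : ∀ y : K, S.indicator (1 : K → ℝ≥0∞) y * g (f y) = S.indicator (fun y => g (f y)) y := by
    intro y
    by_cases hy : y ∈ S
    · rw [Set.indicator_of_mem hy, Set.indicator_of_mem hy, Pi.one_apply, one_mul]
    · rw [Set.indicator_of_notMem hy, Set.indicator_of_notMem hy, zero_mul]
  rw [tsum_congr h1, ← tsum_subtype S (fun y => g (f y))]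
  let e : S → Λ := fun y => ⟨f y.1, hf y.1 y.2⟩
  have he : Function.Bijective e := by
    constructor
    · intro y y' h
      exact Subtype.ext (hinj _ _ (congrArg Subtype.val h))
    · rintro ⟨c, hc⟩
      obtain ⟨y, hy, hyc⟩ := hsurj c hc
      exact ⟨⟨y, hy⟩, Subtype.ext hyc⟩
  exact (Equiv.ofBijective e he).tsum_eq (fun c : Λ => g (c : EE K))

theorem nk_mul {𝔪 : Ideal (𝓞 K)} {v : HeightOneSpectrum (𝓞 K)} {k i : ℕ} (hki : k ≤ i) {b z : K} (hb : Den 𝔪 v (2 * k) b)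
    (hz : InI (𝔪 * v.asIdeal ^ i) z) : Den 𝔪 v k (z * b) := by
  obtain ⟨y, hy, rfl⟩ := hz
  intro x hx
  have h1 : x * y ∈ v.asIdeal ^ (2 * k) := by
    have h2 : y ∈ v.asIdeal ^ i := Ideal.mul_le_right hy
    have h3 : x * y ∈ v.asIdeal ^ k * v.asIdeal ^ i := Ideal.mul_mem_mul hx h2
    rw [← pow_add] at h3
    exact Ideal.pow_le_pow_right (by omega) h3
  obtain ⟨w, hw, e⟩ := hb _ h1
  refine ⟨w, hw, ?_⟩
  have e1 : ((x * y : 𝓞 K) : K) = (x : K) * (y : K) := rfl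
  rw [← e, e1]
  ring

theorem nk_den0 (𝔪 : Ideal (𝓞 K)) (v : HeightOneSpectrum (𝓞 K)) (k i : ℕ) (h𝔪 : 𝔪 ≠ ⊥) (hki : k ≤ i) (b : K)
    (hb : b ≠ 0) (hbd : Den 𝔪 v (2 * k) b) (s : EE K) (ρ : ℝ) (hρ : 0 ≤ ρ) (C0 : ℝ) (hC0 : 1 ≤ C0)
    (hvol : volume (Metric.closedBall (0 : EE K) ρ) ≤ ENNReal.ofReal (C0 * ρ ^ Module.finrank ℚ K)) :
    ∫⁻ x in FI (𝔪 * v.asIdeal ^ i), ∑' y : K, {y : K | Den 𝔪 v k y}.indicator (1 : K → ℝ≥0∞) y *
      (Metric.closedBall (0 : EE K) ρ).indicator (1 : EE K → ℝ≥0∞) (mixedEmbedding K y + s + x * mixedEmbedding K b) ≤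
      ENNReal.ofReal (C0 / (volume (FD K)).toReal * (ρ ^ Module.finrank ℚ K * (Ideal.absNorm v.asIdeal : ℝ) ^ k / Ideal.absNorm 𝔪)) *
        volume (FI (𝔪 * v.asIdeal ^ i)) := by
  obtain ⟨D', hD', hv'⟩ := nc_ld h𝔪 v k
  have hJ : 𝔪 * v.asIdeal ^ i ≠ ⊥ := mul_ne_zero h𝔪 (pow_ne_zero _ v.ne_bot)
  have hcount : Countable (LDn 𝔪 v k) := by
    have hK : Countable K := (Module.finBasis ℚ K).equivFun.injective.countable
    have h1 : (Set.range (mixedEmbedding K)).Countable := Set.countable_range _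
    have h2 : ((LDn 𝔪 v k : AddSubgroup (EE K)) : Set (EE K)).Countable := by
      refine h1.mono ?_
      rintro x ⟨z, -, rfl⟩
      exact ⟨z, rfl⟩
    exact h2.to_subtype
  have hm := nc_mean (fi_spec hJ) hD' hb (fun z hz => ⟨z * b, nk_mul hki hbd hz, rfl⟩) s
    (measurableSet_closedBall (x := (0 : EE K)) (ε := ρ))
  have hN : Ideal.absNorm 𝔪 ≠ 0 := by
    rw [Ne, Ideal.absNorm_eq_zero_iff]
    exact h𝔪
  refine nk_calc _ _ _ hN FD_pos.ne' FD_lt_top.ne hv' ?_ (by linarith) (by positivity) hvol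
  rw [← hm]
  congr 1
  refine lintegral_congr fun x => ?_
  have h2 := nk_sum (S := {y : K | Den 𝔪 v k y}) (Λ := LDn 𝔪 v k) (fun y => mixedEmbedding K y)
    (fun y hy => ⟨y, hy, rfl⟩) (fun y y' h => mixedEmbedding_injective K h)
    (by
      rintro c ⟨y, hy, rfl⟩
      exact ⟨y, hy, rfl⟩)
    (fun c => (Metric.closedBall (0 : EE K) ρ).indicator (1 : EE K → ℝ≥0∞) (c + s + x * mixedEmbedding K b))
  exact h2

/-- PROOF. `Den 𝔪 v k` on `K` corresponds to the lattice `LDn 𝔪 v k` (`mixedEmbedding` is injective): the sum over `y : K` with the condition is the sum over `c : LDn 𝔪 v k`. `nc_mean` with `B = closedBall 0 ρ` (and `ε = -1`: replace `b` by `-b`), `hbJ`: for `z ∈ J = 𝔪 v ^ i`, `i ≥ k`, and `Den 𝔪 v (2k) b`: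
`z b ∈ 𝔪 v ^ (k - 2k)`, so `Den 𝔪 v k (z b)`. `vol D' = N𝔪 vol(FD) / q ^ k`, `vol(closedBall 0 ρ) ≤ C₀ ρ^d` (`H33W.vol_ball`); `C = C₀ / vol(FD)`. -/
theorem nk_den (K : Type) [Field K] [NumberField K] : ∃ C : ℝ, 0 < C ∧ ∀ (𝔪 : Ideal (𝓞 K)) (v : HeightOneSpectrum (𝓞 K)) (k i : ℕ), 𝔪 ≠ ⊥ → k ≤ i → ∀ b : K, b ≠ 0 → Den 𝔪 v (2 * k) b →
    ∀ (s : EE K) (ρ : ℝ), 0 ≤ ρ → ∀ ε : EE K, (ε = 1 ∨ ε = -1) →
    ∫⁻ x in FI (𝔪 * v.asIdeal ^ i), ∑' y : K, {y : K | Den 𝔪 v k y}.indicator (1 : K → ℝ≥0∞) y *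
      (Metric.closedBall (0 : EE K) ρ).indicator (1 : EE K → ℝ≥0∞) (mixedEmbedding K y + s + ε * x * mixedEmbedding K b) ≤
      ENNReal.ofReal (C * (ρ ^ Module.finrank ℚ K * (Ideal.absNorm v.asIdeal : ℝ) ^ k / Ideal.absNorm 𝔪)) * volume (FI (𝔪 * v.asIdeal ^ i)) := by
  obtain ⟨C0, hC0, hvol⟩ := vol_ball K
  have hV : 0 < (volume (FD K)).toReal := ENNReal.toReal_pos FD_pos.ne' FD_lt_top.ne
  refine ⟨C0 / (volume (FD K)).toReal, by positivity, ?_⟩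
  intro 𝔪 v k i h𝔪 hki b hb hbd s ρ hρ ε hε
  rcases hε with rfl | rfl
  · have h1 := nk_den0 𝔪 v k i h𝔪 hki b hb hbd s ρ hρ C0 hC0 (hvol ρ hρ)
    simp only [one_mul]
    exact h1
  · have hbd' : Den 𝔪 v (2 * k) (-b) := by
      intro x hx
      obtain ⟨y, hy, e⟩ := hbd x hx
      refine ⟨-y, neg_mem hy, ?_⟩
      rw [mul_neg, e]
      push_cast
      rfl
    have h1 := nk_den0 𝔪 v k i h𝔪 hki (-b) (neg_ne_zero.mpr hb) hbd' s ρ hρ C0 hC0 (hvol ρ hρ)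
    have h2 : ∀ x : EE K, -1 * x * mixedEmbedding K b = x * mixedEmbedding K (-b) := by
      intro x
      rw [map_neg]
      ring
    simp only [h2]
    exact h1

/-- PROOF. The same with the lattice `LI 𝔪` (`H33W.exists_LD`, `nc_mean`; `z b ∈ 𝔪` for `z ∈ 𝔪 v ^ (2k)`, `Den 𝔪 v (2k) b`) after the substitution `y = 1 + c`. -/
theorem nk_one (K : Type) [Field K] [NumberField K] : ∃ C : ℝ, 0 < C ∧ ∀ (𝔪 : Ideal (𝓞 K)) (v : HeightOneSpectrum (𝓞 K)) (k : ℕ), 𝔪 ≠ ⊥ → ∀ b : K, b ≠ 0 → Den 𝔪 v (2 * k) b →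
    ∀ (s : EE K) (ρ : ℝ), 0 ≤ ρ →
    ∫⁻ x in FI (𝔪 * v.asIdeal ^ (2 * k)), ∑' y : K, {y : K | InI 𝔪 (y - 1)}.indicator (1 : K → ℝ≥0∞) y *
      (Metric.closedBall (0 : EE K) ρ).indicator (1 : EE K → ℝ≥0∞) (mixedEmbedding K y + s + x * mixedEmbedding K b) ≤
      ENNReal.ofReal (C * (ρ ^ Module.finrank ℚ K / Ideal.absNorm 𝔪)) * volume (FI (𝔪 * v.asIdeal ^ (2 * k))) := by
  obtain ⟨C0, hC0, hvol⟩ := vol_ball K
  have hV : 0 < (volume (FD K)).toReal := ENNReal.toReal_pos FD_pos.ne' FD_lt_top.ne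
  refine ⟨C0 / (volume (FD K)).toReal, by positivity, ?_⟩
  intro 𝔪 v k h𝔪 b hb hbd s ρ hρ
  obtain ⟨D', hD', hv'⟩ := exists_LD h𝔪
  have hJ : 𝔪 * v.asIdeal ^ (2 * k) ≠ ⊥ := mul_ne_zero h𝔪 (pow_ne_zero _ v.ne_bot)
  have hm := nc_mean (fi_spec hJ) hD' hb (fun z hz => by
      obtain ⟨y, hy, rfl⟩ := hz
      obtain ⟨w, hw, e⟩ := hbd y (Ideal.mul_le_right hy)
      exact ⟨_, ⟨w, hw, e⟩, rfl⟩) (1 + s)
    (measurableSet_closedBall (x := (0 : EE K)) (ε := ρ))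
  have hN : Ideal.absNorm 𝔪 ≠ 0 := by
    rw [Ne, Ideal.absNorm_eq_zero_iff]
    exact h𝔪
  have hv2 : ((Ideal.absNorm v.asIdeal : ℕ) : ℝ≥0∞) ^ 0 * volume D' = (Ideal.absNorm 𝔪 : ℕ) * volume (FD K) := by
    rw [pow_zero, one_mul, hv']
  have h3 := nk_calc (Ideal.absNorm 𝔪) (Ideal.absNorm v.asIdeal) 0 hN FD_pos.ne' FD_lt_top.ne hv2 hm (C0 := C0)
    (r := ρ ^ Module.finrank ℚ K) (by linarith) (by positivity) (hvol ρ hρ)
  rw [pow_zero, mul_one] at h3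
  refine le_trans (le_of_eq ?_) h3
  refine lintegral_congr fun x => ?_
  have h2 := nk_sum (S := {y : K | InI 𝔪 (y - 1)}) (Λ := LI 𝔪) (fun y => mixedEmbedding K (y - 1))
    (fun y hy => ⟨y - 1, hy, rfl⟩) (fun y y' h => sub_left_injective (mixedEmbedding_injective K h))
    (by
      rintro c ⟨y, hy, rfl⟩
      refine ⟨y + 1, ?_, ?_⟩
      · show InI 𝔪 (y + 1 - 1)
        rw [add_sub_cancel_right]
        exact hy
      · show mixedEmbedding K (y + 1 - 1) = _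
        rw [add_sub_cancel_right])
    (fun c => (Metric.closedBall (0 : EE K) ρ).indicator (1 : EE K → ℝ≥0∞) (c + (1 + s) + x * mixedEmbedding K b))
  rw [← h2]
  refine tsum_congr fun y => ?_
  congr 2
  rw [map_sub, map_one]
  ring

end

end Pool.Agent.Lib.H67G
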