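import Pool.Agent.Lib.H67G.NT0

/-!
# NT1 (M/L, pure measure theory): triangular counting
-/

namespace Pool.Agent.Lib.H67G

open MeasureTheory
open scoped ENNReal

noncomputable section

set_option linter.unusedSectionVars false

theorem nt1_aux {ι E Z : Type} [Fintype ι] [DecidableEq ι] [MeasurableSpace E] [Countable Z] (μ : ι → Measure E)
    [∀ i, IsFiniteMeasure (μ i)] (n : ℕ) : ∀ {P : Type} [Fintype P] [DecidableEq P] (_ : Fintype.card P = n)
    (rk : P → ℕ) (_ : Function.Injective rk) (e : P → ι) (_ : Function.Injective e)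
    (f : P → (ι → E) → (P → Z) → ℝ≥0∞) (_ : ∀ p z, Measurable fun t => f p t z)
    (_ : ∀ p t t' z z', (∀ i, (∀ q, rk q < rk p → i ≠ e q) → t i = t' i) → (∀ q, rk p ≤ rk q → z q = z' q) → f p t z = f p t' z')
    (κ : P → ℝ≥0∞) (_ : ∀ p t z, ∫⁻ x, ∑' y : Z, f p (Function.update t (e p) x) (Function.update z p y) ∂(μ (e p)) ≤ κ p * μ (e p) Set.univ),
    ∫⁻ t, ∑' z : P → Z, ∏ p, f p t z ∂(Measure.pi μ) ≤ (∏ p, κ p) * (Measure.pi μ) Set.univ := by
  induction n with
  | zero =>
    intro P _ _ hP rk hrk e he f mf hf κ hκ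
    have : IsEmpty P := Fintype.card_eq_zero_iff.1 hP
    have h1 : ∀ t : ι → E, (∑' z : P → Z, ∏ p, f p t z) = 1 := by
      intro t
      rw [tsum_eq_single (fun p => isEmptyElim p) (fun b hb => (hb (Subsingleton.elim _ _)).elim)]
      exact Finset.prod_of_isEmpty _
    simp only [h1, lintegral_const, one_mul]
    rw [Finset.prod_of_isEmpty, one_mul]
  | succ n ih =>
    intro P _ _ hP rk hrk e he f mf hf κ hκ
    have : Nonempty P := Fintype.card_pos_iff.1 (by omega)
    obtain ⟨p₀, -, hp₀⟩ := Finset.exists_min_image (Finset.univ : Finset P) rk Finset.univ_nonempty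
    have hlt : ∀ p, p ≠ p₀ → rk p₀ < rk p := fun p hp =>
      lt_of_le_of_ne (hp₀ p (Finset.mem_univ p)) fun h => hp (hrk h.symm)
    by_cases hZ : IsEmpty Z
    · have : IsEmpty (P → Z) := inferInstance
      simp
    rw [not_isEmpty_iff] at hZ
    obtain ⟨y₀⟩ := hZ
    obtain ⟨φ, hφ⟩ : ∃ φ : Z × ({p // p ≠ p₀} → Z) ≃ (P → Z), φ = (Equiv.funSplitAt p₀ Z).symm := ⟨_, rfl⟩
    have hφ1 : ∀ y z', φ (y, z') p₀ = y := by
      intro y z'
      rw [hφ]
      simp [Equiv.funSplitAt, Equiv.piSplitAt]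
    have hφ2 : ∀ y z' (p : {p // p ≠ p₀}), φ (y, z') p = z' p := by
      intro y z' p
      rw [hφ]
      simp [Equiv.funSplitAt, Equiv.piSplitAt, p.2]
    have hφ3 : ∀ y y' z', Function.update (φ (y, z')) p₀ y' = φ (y', z') := by
      intro y y' z'
      funext p
      by_cases hp : p = p₀
      · subst hp
        rw [Function.update_self, hφ1]
      · rw [Function.update_of_ne hp, hφ2 y z' ⟨p, hp⟩, hφ2 y' z' ⟨p, hp⟩]
    have hz : ∀ (p : {p // p ≠ p₀}) t y z', f p t (φ (y, z')) = f p t (φ (y₀, z')) := by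
      intro p t y z'
      refine hf p t t _ _ (fun _ _ => rfl) fun q hq => ?_
      have hqp : q ≠ p₀ := by
        rintro rfl
        exact absurd (hlt p p.2) (not_lt.2 hq)
      rw [hφ2 y z' ⟨q, hqp⟩, hφ2 y₀ z' ⟨q, hqp⟩]
    have h1 : ∀ t : ι → E, (∑' z : P → Z, ∏ p, f p t z) =
        ∑' z' : {p // p ≠ p₀} → Z, (∏ p : {p // p ≠ p₀}, f p t (φ (y₀, z'))) * ∑' y, f p₀ t (φ (y, z')) := by
      intro t
      rw [← φ.tsum_eq, ENNReal.tsum_prod', ENNReal.tsum_comm]
      refine tsum_congr fun z' => ?_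
      rw [← ENNReal.tsum_mul_left]
      refine tsum_congr fun y => ?_
      rw [Fintype.prod_eq_mul_prod_subtype_ne _ p₀, mul_comm]
      congr 1
      exact Finset.prod_congr rfl fun p _ => hz p t y z'
    have mA : ∀ z' : {p // p ≠ p₀} → Z, Measurable fun t : ι → E => ∏ p : {p // p ≠ p₀}, f p t (φ (y₀, z')) := fun z' =>
      Finset.measurable_prod _ fun p _ => mf p _
    have mB : ∀ z' : {p // p ≠ p₀} → Z, Measurable fun t : ι → E => ∑' y, f p₀ t (φ (y, z')) := fun z' =>
      Measurable.tsum fun y => mf p₀ _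
    simp only [h1]
    have mAB : ∀ z' : {p // p ≠ p₀} → Z, AEMeasurable (fun t : ι → E =>
        (∏ p : {p // p ≠ p₀}, f p t (φ (y₀, z'))) * ∑' y, f p₀ t (φ (y, z'))) (Measure.pi μ) := fun z' =>
      ((mA z').mul (mB z')).aemeasurable
    rw [lintegral_tsum mAB]
    have h2 : ∀ z' : {p // p ≠ p₀} → Z,
        ∫⁻ t, (∏ p : {p // p ≠ p₀}, f p t (φ (y₀, z'))) * ∑' y, f p₀ t (φ (y, z')) ∂(Measure.pi μ) ≤
        κ p₀ * ∫⁻ t, (∏ p : {p // p ≠ p₀}, f p t (φ (y₀, z'))) ∂(Measure.pi μ) := by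
      intro z'
      refine nt0_two μ (e p₀) (mA z') (mB z') (fun t x => ?_) fun t => ?_
      · refine Finset.prod_congr rfl fun p _ => ?_
        refine hf p _ _ _ _ (fun i hi => ?_) fun _ _ => rfl
        rw [Function.update_of_ne (hi p₀ (hlt p p.2))]
      · have h3 := hκ p₀ t (φ (y₀, z'))
        simp only [hφ3] at h3
        exact h3
    refine (ENNReal.tsum_le_tsum h2).trans ?_
    rw [ENNReal.tsum_mul_left, ← lintegral_tsum fun z' => (mA z').aemeasurable,
      Fintype.prod_eq_mul_prod_subtype_ne _ p₀, mul_assoc]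
    refine mul_le_mul_right ?_ _
    refine ih (P := {p // p ≠ p₀}) (by simp [Fintype.card_subtype_compl, hP]) (fun p => rk p)
      (fun p q h => Subtype.ext (hrk h)) (fun p => e p) (fun p q h => Subtype.ext (he h))
      (fun p t z' => f p t (φ (y₀, z'))) (fun p z' => mf p _) ?_ (fun p => κ p) ?_
    · intro p t t' z z' ht hz'
      refine hf p t t' _ _ (fun i hi => ht i fun q hq => hi q hq) fun q hq => ?_
      have hqp : q ≠ p₀ := by
        rintro rfl
        exact absurd (hlt p p.2) (not_lt.2 hq)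
      rw [hφ2 y₀ z ⟨q, hqp⟩, hφ2 y₀ z' ⟨q, hqp⟩]
      exact hz' ⟨q, hqp⟩ hq
    · intro p t z'
      have h3 := hκ p t (φ (y₀, z'))
      have h4 : ∀ y, Function.update (φ (y₀, z')) (p : P) y = φ (y₀, Function.update z' p y) := by
        intro y
        funext q
        by_cases hq : q = p₀
        · subst hq
          rw [Function.update_of_ne (Ne.symm p.2), hφ1, hφ1]
        · rw [hφ2 y₀ _ ⟨q, hq⟩]
          by_cases hqp : q = p
          · subst hqp
            simp
          · rw [Function.update_of_ne hqp, Function.update_of_ne (fun h => hqp (congrArg Subtype.val h)),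
              hφ2 y₀ z' ⟨q, hq⟩]
      simp only [h4] at h3
      exact h3

/-- PROOF. Induction on the cardinality of `P` (for all `P`, with all the data): if `P` is empty, both sides are `(Measure.pi μ) univ` (one function `z`, empty product). Otherwise let `p₀` be the element of smallest rank, `P' = {p // p ≠ p₀}`. `Equiv.funSplitAt p₀ Z : (P → Z) ≃ Z × (P' → Z)`, `ENNReal.tsum_prod`, `ENNReal.tsum_mul_left`:
`∑_z ∏_p f p t z = ∑_{z'} (∏_{p ≠ p₀} f p t z') ∑_y f p₀ t (y, z')`: for `p ≠ p₀` the factor `f p t z` does not depend on `z p₀` nor on `t (e p₀)` (`hf`: `rk p₀ < rk p`). Exchange sum and integral (`lintegral_tsum`), for every `z'` apply `nt0_two` with `i = e p₀`, `A = ∏_{p ≠ p₀} f p t z'`, `B = ∑_y f p₀ t (y, z')`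
(`hκ`), then the induction hypothesis for `P'`, with `f' p t z' = f p t (y₀, z')`, `y₀` an arbitrary element (if `Z` is empty and `P` not, the left side is `0`). -/
theorem nt_tri {P ι E Z : Type} [Fintype P] [DecidableEq P] [Fintype ι] [DecidableEq ι] [MeasurableSpace E] [Countable Z] (μ : ι → Measure E)
    [∀ i, IsFiniteMeasure (μ i)] (rk : P → ℕ) (hrk : Function.Injective rk) (e : P → ι) (he : Function.Injective e)
    (f : P → (ι → E) → (P → Z) → ℝ≥0∞) (mf : ∀ p z, Measurable fun t => f p t z)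
    (hf : ∀ p t t' z z', (∀ i, (∀ q, rk q < rk p → i ≠ e q) → t i = t' i) → (∀ q, rk p ≤ rk q → z q = z' q) → f p t z = f p t' z')
    (κ : P → ℝ≥0∞) (hκ : ∀ p t z, ∫⁻ x, ∑' y : Z, f p (Function.update t (e p) x) (Function.update z p y) ∂(μ (e p)) ≤ κ p * μ (e p) Set.univ) :
    ∫⁻ t, ∑' z : P → Z, ∏ p, f p t z ∂(Measure.pi μ) ≤ (∏ p, κ p) * (Measure.pi μ) Set.univ :=
  nt1_aux μ (Fintype.card P) rfl rk hrk e he f mf hf κ hκ

end

end Pool.Agent.Lib.H67G
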