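import Pool.Agent.Lib.H67G.R0
import Pool.Agent.Lib.H33W.W12

/-!
# R2 (S/M): norms of elements of ideals; the numbers a_i
-/

namespace Pool.Agent.Lib.H67G

open MeasureTheory Matrix NumberField IsDedekindDomain Pool.Agent.Lib.H89N Pool.Agent.Lib.H33W
open scoped ENNReal Pointwise

noncomputable section

set_option linter.unusedSectionVars false

variable {n : ℕ} {K : Type} [Field K] [NumberField K]

theorem r2_prod (z : K) : ∏ w : InfinitePlace K, w z ^ w.mult ≤ ‖mixedEmbedding K z‖ ^ Module.finrank ℚ K := by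
  rw [← InfinitePlace.sum_mult_eq (K := K), ← Finset.prod_pow_eq_pow_sum]
  exact Finset.prod_le_prod (fun w _ => pow_nonneg (apply_nonneg w z) _) fun w _ =>
    pow_le_pow_left₀ (apply_nonneg w z) (mixed_le z le_rfl w) _

/-- PROOF. `H33W.mixed_le`, `H89S.n1_nm_le` (see the proof of `H33W.lp_nz` in H33W/W12.lean: for `b ≠ 0` with `Den 𝔪 v k b` the norm of the fractional ideal `N𝔪 / q ^ k` is at most `∏ w(b) ^ mult ≤ ‖b‖ ^ d`). -/
theorem r2_den {𝔪 : Ideal (𝓞 K)} {v : HeightOneSpectrum (𝓞 K)} {k : ℕ} {z : K} (h𝔪 : 𝔪 ≠ ⊥) (hz : z ≠ 0) (h : Den 𝔪 v k z) :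
    (Ideal.absNorm 𝔪 : ℝ) ≤ ‖mixedEmbedding K z‖ ^ Module.finrank ℚ K * (Ideal.absNorm v.asIdeal : ℝ) ^ k := by
  have hI0 : fI 𝔪 v k ≠ 0 := by
    unfold fI
    refine mul_ne_zero ?_ (inv_ne_zero (pow_ne_zero _ ?_))
    · rw [Ne, FractionalIdeal.coeIdeal_eq_zero]
      exact h𝔪
    · rw [Ne, FractionalIdeal.coeIdeal_eq_zero]
      exact v.ne_bot
  have hq : (0 : ℝ) < (Ideal.absNorm v.asIdeal : ℝ) ^ k := pow_pos (nu2_pos v) k
  have h4 := H89S.n1_nm_le K hI0 ((den_mem 𝔪 v k z).1 h) hz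
  rw [nm_fI] at h4
  have h6 := h4.trans (r2_prod z)
  rwa [div_le_iff₀ hq] at h6

/-- The case `k = 0` (any prime `v`; or directly: `N(z) ∈ ℤ` is divisible by `N𝔪`). -/
theorem r2_int {𝔪 : Ideal (𝓞 K)} {z : K} (h𝔪 : 𝔪 ≠ ⊥) (hz : z ≠ 0) (h : InI 𝔪 z) : (Ideal.absNorm 𝔪 : ℝ) ≤ ‖mixedEmbedding K z‖ ^ Module.finrank ℚ K := by
  obtain ⟨y, hy, rfl⟩ := h
  have hI0 : ((𝔪 : Ideal (𝓞 K)) : H89S.FI K) ≠ 0 := by
    rw [Ne, FractionalIdeal.coeIdeal_eq_zero]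
    exact h𝔪
  have hmem : ((y : 𝓞 K) : K) ∈ ((𝔪 : Ideal (𝓞 K)) : H89S.FI K) :=
    (FractionalIdeal.mem_coeIdeal _).2 ⟨y, hy, rfl⟩
  have h4 := H89S.n1_nm_le K hI0 hmem hz
  have h5 : H89S.nm ((𝔪 : Ideal (𝓞 K)) : H89S.FI K) = (Ideal.absNorm 𝔪 : ℝ) := by
    unfold H89S.nm
    rw [FractionalIdeal.coeIdeal_absNorm]
    push_cast
    rfl
  rw [h5] at h4
  exact h4.trans (r2_prod _)

variable [NeZero n] {T : ℝ} {a : Fin n → ℝ}

theorem r2_pow (hT : 1 ≤ T) (h : TorT K T a) : ∀ m : ℕ, ∀ (i : Fin n) (hm : (i : ℕ) + m < n),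
    T ^ m * a ⟨i + m, hm⟩ ^ Module.finrank ℚ K ≤ a i ^ Module.finrank ℚ K := by
  intro m
  induction m with
  | zero =>
    intro i hm
    rw [pow_zero, one_mul]
    exact le_of_eq rfl
  | succ m ih =>
    intro i hm
    have h1 := ih i (by omega)
    have h2 := h.ratio ⟨i + m, by omega⟩ (by simp only; omega)
    have h3 : T ^ (m + 1) * a ⟨i + (m + 1), hm⟩ ^ Module.finrank ℚ K =
        T ^ m * (T * a ⟨i + (m + 1), hm⟩ ^ Module.finrank ℚ K) := by ring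
    rw [h3]
    exact (mul_le_mul_of_nonneg_left h2 (by positivity)).trans h1

theorem r2_anti (hT : 1 ≤ T) (h : TorT K T a) {i j : Fin n} (hij : i ≤ j) : a j ≤ a i := by
  have hd : Module.finrank ℚ K ≠ 0 := Module.finrank_pos.ne'
  have hij' : (i : ℕ) ≤ j := hij
  have h1 := r2_pow hT h (j - i) i (by have := j.2; omega)
  have e : (⟨i + (j - i), by have := j.2; omega⟩ : Fin n) = j := Fin.ext (by simp only; omega)
  rw [e] at h1
  have h2 : a j ^ Module.finrank ℚ K ≤ T ^ ((j : ℕ) - i) * a j ^ Module.finrank ℚ K :=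
    le_mul_of_one_le_left (pow_nonneg (h.pos j).le _) (one_le_pow₀ hT)
  exact (pow_le_pow_iff_left₀ (h.pos j).le (h.pos i).le hd).1 (h2.trans h1)

theorem r2_zero (hT : 1 ≤ T) (h : TorT K T a) : a 0 ≤ 1 := by
  have hd : 2 * Module.finrank ℚ K ≠ 0 := by
    have := Module.finrank_pos (R := ℚ) (M := K)
    omega
  have h2 : a 0 ^ (2 * Module.finrank ℚ K) ≤ 1 :=
    (le_mul_of_one_le_left (pow_nonneg (h.pos 0).le _) hT).trans h.long
  rw [← one_pow (2 * Module.finrank ℚ K)] at h2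
  exact (pow_le_pow_iff_left₀ (h.pos 0).le zero_le_one hd).1 h2

theorem r2_one (hT : 1 ≤ T) (h : TorT K T a) (i : Fin n) : a i ≤ 1 :=
  (r2_anti hT h (Fin.zero_le i)).trans (r2_zero hT h)

theorem r2_last (hT : 1 ≤ T) (h : TorT K T a) :
    T ^ (n - 1) * a (ls n) ^ Module.finrank ℚ K ≤ a 0 ^ Module.finrank ℚ K := by
  have hn : 0 < n := NeZero.pos n
  have h1 := r2_pow hT h (n - 1) (0 : Fin n) (by rw [Fin.val_zero]; omega)
  have e : (⟨((0 : Fin n) : ℕ) + (n - 1), by rw [Fin.val_zero]; omega⟩ : Fin n) = ls n :=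
    Fin.ext (by simp [ls])
  rw [e] at h1
  exact h1

/-- `(a_j a_n)^d ≤ T^(-n)`. PROOF. `a_{i+1}^d ≤ a_i^d / T`, so `a_n^d ≤ a_1^d T^(-(n-1))`, and `a_j ≤ a_1`, `a_1^(2d) ≤ 1 / T`. -/
theorem r2_jn (hT : 1 ≤ T) (h : TorT K T a) (j : Fin n) : (a j * a (ls n)) ^ Module.finrank ℚ K * T ^ n ≤ 1 := by
  have hn : 0 < n := NeZero.pos n
  have h1 := r2_last hT h
  have h2 : a j ^ Module.finrank ℚ K ≤ a 0 ^ Module.finrank ℚ K :=
    pow_le_pow_left₀ (h.pos j).le (r2_anti hT h (Fin.zero_le j)) _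
  have h3 := h.long
  have e1 : T ^ n = T ^ (n - 1) * T := by
    rw [← pow_succ]
    congr 1
    omega
  have h0 : (0 : ℝ) ≤ a 0 ^ Module.finrank ℚ K := pow_nonneg (h.pos 0).le _
  have hT0 : 0 ≤ T := by linarith
  calc (a j * a (ls n)) ^ Module.finrank ℚ K * T ^ n
      = a j ^ Module.finrank ℚ K * (T ^ (n - 1) * a (ls n) ^ Module.finrank ℚ K) * T := by
        rw [mul_pow, e1]
        ring
    _ ≤ a 0 ^ Module.finrank ℚ K * a 0 ^ Module.finrank ℚ K * T := by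
        refine mul_le_mul_of_nonneg_right ?_ hT0
        refine mul_le_mul h2 h1 ?_ h0
        exact mul_nonneg (pow_nonneg hT0 _) (pow_nonneg (h.pos _).le _)
    _ = T * a 0 ^ (2 * Module.finrank ℚ K) := by
        rw [two_mul, pow_add]
        ring
    _ ≤ 1 := h3

/-- `a_n^(2d) ≤ T^(-(2n-1))`. -/
theorem r2_nn (hT : 1 ≤ T) (h : TorT K T a) : a (ls n) ^ (2 * Module.finrank ℚ K) * T ^ (2 * n - 1) ≤ 1 := by
  have hn : 0 < n := NeZero.pos n
  have h1 := r2_last hT h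
  have h3 := h.long
  have hT0 : 0 ≤ T := by linarith
  have h0 : (0 : ℝ) ≤ T ^ (n - 1) * a (ls n) ^ Module.finrank ℚ K :=
    mul_nonneg (pow_nonneg hT0 _) (pow_nonneg (h.pos _).le _)
  have e1 : T ^ (2 * n - 1) = T ^ (n - 1) * T ^ (n - 1) * T := by
    rw [← pow_add, ← pow_succ]
    congr 1
    omega
  calc a (ls n) ^ (2 * Module.finrank ℚ K) * T ^ (2 * n - 1)
      = (T ^ (n - 1) * a (ls n) ^ Module.finrank ℚ K) * (T ^ (n - 1) * a (ls n) ^ Module.finrank ℚ K) * T := by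
        rw [e1, two_mul, pow_add]
        ring
    _ ≤ a 0 ^ Module.finrank ℚ K * a 0 ^ Module.finrank ℚ K * T := by
        refine mul_le_mul_of_nonneg_right ?_ hT0
        exact mul_le_mul h1 h1 h0 (pow_nonneg (h.pos 0).le _)
    _ = T * a 0 ^ (2 * Module.finrank ℚ K) := by
        rw [two_mul, pow_add]
        ring
    _ ≤ 1 := h3

end

end Pool.Agent.Lib.H67G
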