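import Pool.Agent.Lib.H67G.NW3
import Pool.Agent.Lib.H67G.NT1
import Pool.Agent.Lib.H67G.NK
import Pool.Agent.Lib.H67G.R2

/-!
# NF1 (M/L): the mean for given c_n
-/

namespace Pool.Agent.Lib.H67G

open MeasureTheory Matrix NumberField IsDedekindDomain Pool.Agent.Lib.H89N Pool.Agent.Lib.H33W
open scoped ENNReal Pointwise

noncomputable section

set_option linter.unusedSectionVars false

variable {n : ℕ} {K : Type} [Field K] [NumberField K]

/-- The radii. -/
def rdS (a : Fin n → ℝ) (ρ : ℝ) (p : Fin n ⊕ Fin n) : ℝ :=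
  match p with
  | Sum.inl j => ρ * a j
  | Sum.inr j => ρ / a j

/-- The factors: the mean number of possible entries at `p`. -/
def kpS [NeZero n] (K : Type) [Field K] [NumberField K] (C ρ : ℝ) (𝔪 : Ideal (𝓞 K)) (v : HeightOneSpectrum (𝓞 K)) (k : ℕ) (a : Fin n → ℝ) (p : Fin n ⊕ Fin n) : ℝ :=
  C * (rdS a ρ p ^ Module.finrank ℚ K * (if p = Sum.inr (ls n) then 1 else (Ideal.absNorm v.asIdeal : ℝ) ^ k) / Ideal.absNorm 𝔪)

/-- The restriction of the volume to the box is a product measure. PROOF. `Measure.restrict_pi_pi`. -/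
theorem nf_pi (𝔡 : TI n → Ideal (𝓞 K)) : (volume : Measure (TI n → EE K)).restrict (LB 𝔡) =
    Measure.pi fun p => (volume : Measure (EE K)).restrict (FI (𝔡 p)) := by
  have h : LB 𝔡 = Set.pi Set.univ fun p => FI (𝔡 p) := by
    ext t
    simp [LB]
  rw [h, volume_pi, Measure.restrict_pi_pi]

theorem nf1_dI_ne {𝔪 : Ideal (𝓞 K)} (h𝔪 : 𝔪 ≠ ⊥) (v : HeightOneSpectrum (𝓞 K)) (k : ℕ) (p : TI n) : dI 𝔪 v k p ≠ ⊥ := by
  have h1 : ∀ j : ℕ, 𝔪 * v.asIdeal ^ j ≠ ⊥ := fun j => mul_ne_zero h𝔪 (pow_ne_zero _ v.ne_bot)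
  rcases p with p | p
  · unfold dI
    simp only
    split_ifs
    · exact h1 _
    · exact h1 _
    · exact h𝔪
  · unfold dI cI
    simp only
    split_ifs
    · exact h1 _
    · exact h𝔪

theorem nf1_ls [NeZero n] : ((ls n : Fin n) : ℕ) + 1 = n := by
  have := NeZero.pos n
  show n - 1 + 1 = n
  omega

theorem nf1_mkR [NeZero n] (b : K) (z : PP n → K) : mkR b z (Sum.inl (ls n)) = b := by
  unfold mkR
  simp [Equiv.funSplitAt, Equiv.piSplitAt]

theorem nf1_mkR' [NeZero n] (b : K) (z : PP n → K) (p : PP n) : mkR b z p.1 = z p := by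
  unfold mkR
  simp [Equiv.funSplitAt, Equiv.piSplitAt, p.2]

theorem nf1_upd [NeZero n] (b : K) (z : PP n → K) (p : PP n) (y : K) :
    mkR b (Function.update z p y) = Function.update (mkR b z) p.1 y := by
  funext q
  by_cases hq : q = Sum.inl (ls n)
  · subst hq
    rw [Function.update_of_ne (Ne.symm p.2), nf1_mkR, nf1_mkR]
  · rw [nf1_mkR' b _ ⟨q, hq⟩]
    by_cases hqp : q = p.1
    · subst hqp
      simp
    · rw [Function.update_of_ne hqp, Function.update_of_ne (fun h => hqp (congrArg Subtype.val h)),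
        nf1_mkR' b z ⟨q, hq⟩]

theorem nf1_rw_cont (r : Fin n ⊕ Fin n → K) (M : SP n (EE K)) (p : Fin n ⊕ Fin n) :
    Continuous fun t : TI n → EE K => rwS r (uT t * M) p := by
  have h1 : Continuous fun t : TI n → EE K => (uT t * M).val :=
    v2_val.comp (uT_cont.mul continuous_const)
  have h2 : Continuous fun t : TI n → EE K => (fun p => mixedEmbedding K (r p)) ᵥ* (uT t * M).val :=
    continuous_const.matrix_vecMul h1
  exact (continuous_apply p).comp h2

/-- The exponent of `v` in the ideal of the variable of `p`. -/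
theorem nf1_dI [NeZero n] (𝔪 : Ideal (𝓞 K)) (v : HeightOneSpectrum (𝓞 K)) (k : ℕ) (p : PP n) :
    (p.1 = Sum.inr (ls n) → dI 𝔪 v k (eS p) = 𝔪 * v.asIdeal ^ (2 * k)) ∧
    (p.1 ≠ Sum.inr (ls n) → dI 𝔪 v k (eS p) = 𝔪 * v.asIdeal ^ k) := by
  have hls := nf1_ls (n := n)
  obtain ⟨p, hp⟩ := p
  rcases p with j | b
  · refine ⟨fun h => (by cases h), fun _ => ?_⟩
    show cI 𝔪 v k (ls n) = _
    unfold cI
    rw [if_pos hls]
  · constructor
    · intro h
      have hb : b = ls n := Sum.inr_injective h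
      subst hb
      show (if ((ls n : Fin n) : ℕ) + 1 = n then (if ((ls n : Fin n) : ℕ) + 1 = n then 𝔪 * v.asIdeal ^ (2 * k) else 𝔪 * v.asIdeal ^ k) else 𝔪) = _
      rw [if_pos hls, if_pos hls]
    · intro h
      have hb : b ≠ ls n := fun e => h (congrArg Sum.inr e)
      have hb' : ¬ (b : ℕ) + 1 = n := by
        intro e
        exact hb (Fin.ext (by omega))
      show (if ((ls n : Fin n) : ℕ) + 1 = n then (if (b : ℕ) + 1 = n then 𝔪 * v.asIdeal ^ (2 * k) else 𝔪 * v.asIdeal ^ k) else 𝔪) = _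
      rw [if_pos hls, if_neg hb']

theorem nf1_rd {a : Fin n → ℝ} (ha : ∀ i, 0 < a i) {ρ : ℝ} (hρ : 0 ≤ ρ) (p : Fin n ⊕ Fin n) : 0 ≤ rdS a ρ p := by
  rcases p with j | j
  · exact mul_nonneg hρ (ha j).le
  · exact div_nonneg hρ (ha j).le

/-- PROOF. `nt_tri` with `P = PP n`, `ι = TI n`, `Z = K` (countable), `μ p = volume.restrict (FI (dI 𝔪 v k p))` (`nf_pi`, finite: `fi_vol`), `rk = rkS`, `e = eS`, `f p t z = {y | PS 𝔪 v k p y}.indicator 1 (z p) * (closedBall 0 (rdS a ρ p)).indicator 1 (rwS (mkR b z) (uT t * M) p)`. Measurability: `uT_cont`. `hf`: `nw_depM`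
(`mkR b z` and `mkR b z'` agree at `inl ls` and at the `q` with `z q = z' q`). `hκ`: `nw_affM` and `nk_den` (ideal `𝔪 v ^ i` with `i = k` or `2k`: `dI`, `cI` at `eS p`), `nk_one` for `p = inr ls` (`dI (inl (ls, ls)) = 𝔪 v ^ (2k)`); `μ p univ = volume (FI ..)`; the constant is the maximum of the two. -/
theorem nf_one (n : ℕ) [NeZero n] (K : Type) [Field K] [NumberField K] : ∃ C : ℝ, 0 < C ∧ ∀ (𝔪 : Ideal (𝓞 K)) (v : HeightOneSpectrum (𝓞 K)) (k : ℕ), 𝔪 ≠ ⊥ → ∀ b : K, b ≠ 0 → Den 𝔪 v (2 * k) b →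
    ∀ M : SP n (EE K), IsUS M → ∀ a : Fin n → ℝ, (∀ i, 0 < a i) → ∀ ρ : ℝ, 0 ≤ ρ →
    ∫⁻ t in LB (dI (n := n) 𝔪 v k), ∑' z : PP n → K, ∏ p : PP n, {y : K | PS 𝔪 v k p.1 y}.indicator (1 : K → ℝ≥0∞) (z p) *
      (Metric.closedBall (0 : EE K) (rdS a ρ p.1)).indicator (1 : EE K → ℝ≥0∞) (rwS (mkR b z) (uT t * M) p.1) ≤
      (∏ p : PP n, ENNReal.ofReal (kpS K C ρ 𝔪 v k a p.1)) * volume (LB (dI (n := n) 𝔪 v k)) := by
  obtain ⟨C1, hC1, h1⟩ := nk_den K
  obtain ⟨C2, hC2, h2⟩ := nk_one K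
  refine ⟨max C1 C2, lt_max_of_lt_left hC1, fun 𝔪 v k h𝔪 b hb hbd M hM a ha ρ hρ => ?_⟩
  have hK : Countable K := (Module.finBasis ℚ K).equivFun.injective.countable
  have hfin : ∀ p : TI n, IsFiniteMeasure ((volume : Measure (EE K)).restrict (FI (dI 𝔪 v k p))) := by
    intro p
    refine ⟨?_⟩
    rw [Measure.restrict_apply_univ, fi_vol (nf1_dI_ne h𝔪 v k p)]
    exact ENNReal.mul_lt_top (ENNReal.natCast_lt_top _) FD_lt_top
  have hvol : volume (LB (dI (n := n) 𝔪 v k)) =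
      (Measure.pi fun p : TI n => (volume : Measure (EE K)).restrict (FI (dI 𝔪 v k p))) Set.univ := by
    rw [← nf_pi, Measure.restrict_apply_univ]
  rw [hvol, nf_pi]
  refine nt_tri (fun p : TI n => (volume : Measure (EE K)).restrict (FI (dI 𝔪 v k p))) (fun p : PP n => rkS p.1)
    (fun p q h => Subtype.ext (rkS_inj h)) eS eS_inj
    (fun p t z => {y : K | PS 𝔪 v k p.1 y}.indicator (1 : K → ℝ≥0∞) (z p) *
      (Metric.closedBall (0 : EE K) (rdS a ρ p.1)).indicator (1 : EE K → ℝ≥0∞) (rwS (mkR b z) (uT t * M) p.1))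
    ?_ ?_ (fun p => ENNReal.ofReal (kpS K (max C1 C2) ρ 𝔪 v k a p.1)) ?_
  · intro p z
    refine Measurable.const_mul ?_ _
    exact (measurable_one.indicator Metric.isClosed_closedBall.measurableSet).comp (nf1_rw_cont _ M p.1).measurable
  · intro p t t' z z' ht hz
    have e1 : z p = z' p := hz p le_rfl
    have e2 : rwS (mkR b z) (uT t * M) p.1 = rwS (mkR b z') (uT t' * M) p.1 := by
      refine nw_depM hM p.1 t t' _ _ (fun i hi => ht i hi) fun q hq => ?_
      by_cases hq' : q = Sum.inl (ls n)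
      · subst hq'
        rw [nf1_mkR, nf1_mkR]
      · rw [nf1_mkR' b z ⟨q, hq'⟩, nf1_mkR' b z' ⟨q, hq'⟩]
        exact hz ⟨q, hq'⟩ hq
    show {y : K | PS 𝔪 v k p.1 y}.indicator (1 : K → ℝ≥0∞) (z p) * _ = {y : K | PS 𝔪 v k p.1 y}.indicator (1 : K → ℝ≥0∞) (z' p) * _
    rw [e1, e2]
  · intro p t z
    rw [Measure.restrict_apply_univ]
    have e1 : ∀ (x : EE K) (y : K), {y : K | PS 𝔪 v k p.1 y}.indicator (1 : K → ℝ≥0∞) (Function.update z p y p) *
        (Metric.closedBall (0 : EE K) (rdS a ρ p.1)).indicator (1 : EE K → ℝ≥0∞)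
          (rwS (mkR b (Function.update z p y)) (uT (Function.update t (eS p) x) * M) p.1) =
        {y : K | PS 𝔪 v k p.1 y}.indicator (1 : K → ℝ≥0∞) y *
        (Metric.closedBall (0 : EE K) (rdS a ρ p.1)).indicator (1 : EE K → ℝ≥0∞)
          (mixedEmbedding K y + rwS (Function.update (mkR b z) p.1 0) (uT (Function.update t (eS p) 0) * M) p.1 +
            sgS p.1 * x * mixedEmbedding K b) := by
      intro x y
      rw [Function.update_self, nf1_upd, nw_affM hM, nf1_mkR]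
    simp only [e1]
    by_cases hp : p.1 = Sum.inr (ls n)
    · have e2 : (fun y : K => PS 𝔪 v k p.1 y) = fun y => InI 𝔪 (y - 1) := by
        funext y
        unfold PS
        rw [if_pos hp]
      have e3 : (sgS p.1 : EE K) = 1 := by rw [hp]; rfl
      have e4 : {y : K | PS 𝔪 v k p.1 y} = {y : K | InI 𝔪 (y - 1)} := congrArg setOf e2
      rw [(nf1_dI 𝔪 v k p).1 hp, e4]
      simp only [e3, one_mul]
      refine (h2 𝔪 v k h𝔪 b hb hbd _ _ (nf1_rd ha hρ p.1)).trans ?_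
      refine mul_le_mul_left (ENNReal.ofReal_le_ofReal ?_) _
      unfold kpS
      rw [if_pos hp, mul_one]
      exact mul_le_mul_of_nonneg_right (le_max_right _ _) (div_nonneg (pow_nonneg (nf1_rd ha hρ p.1) _) (Nat.cast_nonneg _))
    · have e2 : (fun y : K => PS 𝔪 v k p.1 y) = fun y => Den 𝔪 v k y := by
        funext y
        unfold PS
        rw [if_neg hp]
      have e4 : {y : K | PS 𝔪 v k p.1 y} = {y : K | Den 𝔪 v k y} := congrArg setOf e2
      have e3 : (sgS p.1 : EE K) = 1 ∨ (sgS p.1 : EE K) = -1 := by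
        rcases p.1 with j | j
        · exact Or.inr rfl
        · exact Or.inl rfl
      rw [(nf1_dI 𝔪 v k p).2 hp, e4]
      refine (h1 𝔪 v k k h𝔪 le_rfl b hb hbd _ _ (nf1_rd ha hρ p.1) _ e3).trans ?_
      refine mul_le_mul_left (ENNReal.ofReal_le_ofReal ?_) _
      unfold kpS
      rw [if_neg hp]
      exact mul_le_mul_of_nonneg_right (le_max_left _ _) (div_nonneg (mul_nonneg (pow_nonneg (nf1_rd ha hρ p.1) _)
        (pow_nonneg (Nat.cast_nonneg _) _)) (Nat.cast_nonneg _))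

end

end Pool.Agent.Lib.H67G
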