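import Pool.Agent.Lib.H67G.NF1

/-!
# NF2 (M/L): the count
-/

namespace Pool.Agent.Lib.H67G

open MeasureTheory Matrix NumberField IsDedekindDomain Pool.Agent.Lib.H89N Pool.Agent.Lib.H33W
open scoped ENNReal Pointwise

noncomputable section

set_option linter.unusedSectionVars false

variable {n : ℕ} {K : Type} [Field K] [NumberField K]

theorem nf2_prod [NeZero n] (f : Fin n ⊕ Fin n → ℝ) :
    (∏ p : PP n, f p.1) * f (Sum.inl (ls n)) = (∏ j, f (Sum.inl j)) * ∏ j, f (Sum.inr j) := by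
  classical
  have e : ∏ p ∈ (Finset.univ : Finset (Fin n ⊕ Fin n)).erase (Sum.inl (ls n)), f p = ∏ p : PP n, f p.1 :=
    Finset.prod_subtype (Finset.univ.erase (Sum.inl (ls n))) (by simp) f
  rw [← e, Finset.prod_erase_mul _ _ (Finset.mem_univ _), Fintype.prod_sum_type]

theorem nf2_Q [NeZero n] {a : Fin n → ℝ} (ha : ∀ i, 0 < a i) (C ρ N Q : ℝ) (d : ℕ) :
    (∏ j, C * ((ρ * a j) ^ d * Q / N)) * (∏ j : Fin n, C * ((ρ / a j) ^ d * (if j = ls n then 1 else Q) / N)) * Q =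
      (C * (ρ ^ d * Q / N)) ^ (2 * n) := by
  classical
  have e1 : ∏ j : Fin n, (if j = ls n then Q else 1) = Q := by
    rw [Finset.prod_ite_eq' Finset.univ (ls n) fun _ => Q, if_pos (Finset.mem_univ _)]
  calc (∏ j, C * ((ρ * a j) ^ d * Q / N)) * (∏ j : Fin n, C * ((ρ / a j) ^ d * (if j = ls n then 1 else Q) / N)) * Q
      = (∏ j, C * ((ρ * a j) ^ d * Q / N)) * (∏ j : Fin n, C * ((ρ / a j) ^ d * (if j = ls n then 1 else Q) / N)) *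
          ∏ j : Fin n, (if j = ls n then Q else 1) := by rw [e1]
    _ = ∏ j : Fin n, (C * (ρ ^ d * Q / N)) ^ 2 := by
        rw [← Finset.prod_mul_distrib, ← Finset.prod_mul_distrib]
        refine Finset.prod_congr rfl fun j _ => ?_
        have h1 : (ρ * a j) ^ d * (ρ / a j) ^ d = ρ ^ d * ρ ^ d := by
          rw [← mul_pow, ← mul_pow]
          congr 1
          have := (ha j).ne'
          field_simp
        by_cases hj : j = ls n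
        · rw [if_pos hj, if_pos hj]
          calc C * ((ρ * a j) ^ d * Q / N) * (C * ((ρ / a j) ^ d * 1 / N)) * Q
              = C * C * ((ρ * a j) ^ d * (ρ / a j) ^ d) * (Q / N) * (Q / N) := by ring
            _ = _ := by rw [h1]; ring
        · rw [if_neg hj, if_neg hj]
          calc C * ((ρ * a j) ^ d * Q / N) * (C * ((ρ / a j) ^ d * Q / N)) * 1
              = C * C * ((ρ * a j) ^ d * (ρ / a j) ^ d) * (Q / N) * (Q / N) := by ring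
            _ = _ := by rw [h1]; ring
    _ = (C * (ρ ^ d * Q / N)) ^ (2 * n) := by
        rw [Finset.prod_const, Finset.card_univ, Fintype.card_fin, ← pow_mul]

theorem nf2_ge {T N Q α : ℝ} {n : ℕ} (hn : 0 < n) (hT : 1 ≤ T) (hα : 0 ≤ α) (hQ : 0 ≤ Q) (h1 : α ^ 2 * T ^ (2 * n - 1) ≤ 1)
    (h2 : Q ^ 2 ≤ T ^ (2 * n + 1)) (hN : T ≤ N) : α * Q ≤ N := by
  have hT0 : 0 ≤ T := by linarith
  have e : T ^ (2 * n + 1) = T ^ (2 * n - 1) * T ^ 2 := by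
    rw [← pow_add]
    congr 1
    omega
  have h3 : (α * Q) ^ 2 ≤ N ^ 2 := by
    calc (α * Q) ^ 2 = α ^ 2 * Q ^ 2 := mul_pow _ _ _
      _ ≤ α ^ 2 * (T ^ (2 * n - 1) * T ^ 2) := by
          rw [← e]
          exact mul_le_mul_of_nonneg_left h2 (sq_nonneg _)
      _ = (α ^ 2 * T ^ (2 * n - 1)) * T ^ 2 := by ring
      _ ≤ 1 * T ^ 2 := mul_le_mul_of_nonneg_right h1 (sq_nonneg _)
      _ ≤ N ^ 2 := by
          rw [one_mul]
          exact pow_le_pow_left₀ hT0 hN 2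
  exact (pow_le_pow_iff_left₀ (mul_nonneg hα hQ) (hT0.trans hN) two_ne_zero).1 h3

theorem nf2_kp0 [NeZero n] {C ρ : ℝ} (hC : 0 ≤ C) (hρ : 0 ≤ ρ) (𝔪 : Ideal (𝓞 K)) (v : HeightOneSpectrum (𝓞 K)) (k : ℕ) {a : Fin n → ℝ}
    (ha : ∀ i, 0 < a i) (p : Fin n ⊕ Fin n) : 0 ≤ kpS K C ρ 𝔪 v k a p := by
  unfold kpS
  refine mul_nonneg hC (div_nonneg (mul_nonneg (pow_nonneg (nf1_rd ha hρ p) _) ?_) (Nat.cast_nonneg _))
  split_ifs
  · exact zero_le_one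
  · exact pow_nonneg (Nat.cast_nonneg _) _

theorem nf2_kpm [NeZero n] {C C' ρ : ℝ} (hC : C ≤ C') (hρ : 0 ≤ ρ) (𝔪 : Ideal (𝓞 K)) (v : HeightOneSpectrum (𝓞 K)) (k : ℕ) {a : Fin n → ℝ}
    (ha : ∀ i, 0 < a i) (p : Fin n ⊕ Fin n) : kpS K C ρ 𝔪 v k a p ≤ kpS K C' ρ 𝔪 v k a p := by
  unfold kpS
  refine mul_le_mul_of_nonneg_right hC (div_nonneg (mul_nonneg (pow_nonneg (nf1_rd ha hρ p) _) ?_) (Nat.cast_nonneg _))
  split_ifs
  · exact zero_le_one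
  · exact pow_nonneg (Nat.cast_nonneg _) _

/-- The product of the factors and the number of the `c_n`. PROOF. With `Q = q^k`, `N = N𝔪`, `α_j = a_j^d`: `∏_p kpS = C^(2n-1) ρ^(d(2n-1)) ∏_{j<n} α_j ∏_j α_j⁻¹ Q^(2n-2) / N^(2n-1) = C^(2n-1) ρ^(d(2n-1)) α_n⁻¹ Q^(2n-2) / N^(2n-1)`; with `ρ = C₁ a_n`: `ρ^(d(2n-1)) = C₁^.. α_n^(2n-1)`;
the product with `(C₁ a_n²)^d Q² / N` is `C' (α_n² Q² / N²)^n ≤ C' (T^(-(2n-1)) T^(2n+1) T^(-2))^n = C'` (`r2_nn`, `PrmS`). -/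
theorem nf_real [NeZero n] (C C₁ : ℝ) (hC : 0 < C) (hC₁ : 0 < C₁) : ∃ C₂ : ℝ, 0 < C₂ ∧ ∀ (T : ℝ) (𝔪 : Ideal (𝓞 K)) (v : HeightOneSpectrum (𝓞 K)) (k : ℕ) (a : Fin n → ℝ),
    PrmS 1 T 𝔪 v k a → (∏ p : PP n, kpS K C (C₁ * a (ls n)) 𝔪 v k a p.1) *
      (C * ((C₁ * a (ls n) * a (ls n)) ^ Module.finrank ℚ K * (Ideal.absNorm v.asIdeal : ℝ) ^ (2 * k) / Ideal.absNorm 𝔪)) ≤ C₂ := by
  refine ⟨(C * C₁ ^ Module.finrank ℚ K) ^ (2 * n), by positivity, ?_⟩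
  intro T 𝔪 v k a hP
  have ha : ∀ i, 0 < a i := hP.tor.pos
  have hn : 0 < n := NeZero.pos n
  have hT0 : 0 < T := lt_of_lt_of_le one_pos hP.hT
  have hTN : T ≤ (Ideal.absNorm 𝔪 : ℝ) := by
    have := hP.hM
    rwa [one_mul] at this
  have hN0 : (0 : ℝ) < Ideal.absNorm 𝔪 := lt_of_lt_of_le hT0 hTN
  obtain ⟨N, hNd⟩ : ∃ N : ℝ, N = (Ideal.absNorm 𝔪 : ℝ) := ⟨_, rfl⟩
  obtain ⟨Q, hQd⟩ : ∃ Q : ℝ, Q = (Ideal.absNorm v.asIdeal : ℝ) ^ k := ⟨_, rfl⟩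
  obtain ⟨ρ, hρd⟩ : ∃ ρ : ℝ, ρ = C₁ * a (ls n) := ⟨_, rfl⟩
  obtain ⟨d, hdd⟩ : ∃ d : ℕ, d = Module.finrank ℚ K := ⟨_, rfl⟩
  have hQ0 : 0 ≤ Q := by rw [hQd]; exact pow_nonneg (Nat.cast_nonneg _) _
  have hQ2 : (Ideal.absNorm v.asIdeal : ℝ) ^ (2 * k) = Q * Q := by rw [hQd, two_mul, pow_add]
  have hr := r2_nn hP.hT hP.tor
  have hk := hP.hk
  rw [← hNd] at hTN hN0
  have eL : ∀ j : Fin n, kpS K C ρ 𝔪 v k a (Sum.inl j) = C * ((ρ * a j) ^ d * Q / N) := by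
    intro j
    unfold kpS
    rw [if_neg (by simp), hNd, hQd, hdd]
    rfl
  have eR : ∀ j : Fin n, kpS K C ρ 𝔪 v k a (Sum.inr j) = C * ((ρ / a j) ^ d * (if j = ls n then 1 else Q) / N) := by
    intro j
    unfold kpS
    rw [hNd, hQd, hdd]
    by_cases hj : j = ls n
    · rw [if_pos hj, if_pos (by rw [hj])]
      rfl
    · rw [if_neg hj, if_neg fun h => hj (Sum.inr_injective h)]
      rfl
  rw [← hρd, ← hdd, hQ2, ← hNd]
  have e1 : (∏ p : PP n, kpS K C ρ 𝔪 v k a p.1) * (C * ((ρ * a (ls n)) ^ d * (Q * Q) / N)) =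
      ((∏ p : PP n, kpS K C ρ 𝔪 v k a p.1) * kpS K C ρ 𝔪 v k a (Sum.inl (ls n))) * Q := by
    rw [eL]
    ring
  rw [e1, nf2_prod]
  simp only [eL, eR]
  rw [nf2_Q ha C ρ N Q d]
  have hα : a (ls n) ^ d * Q ≤ N := by
    refine nf2_ge hn hP.hT (pow_nonneg (ha _).le _) hQ0 ?_ ?_ hTN
    · rw [← pow_mul, mul_comm d 2, hdd]
      exact hr
    · rw [sq, ← hQ2]
      exact hk
  refine pow_le_pow_left₀ ?_ ?_ _
  · rw [hρd]
    have := (ha (ls n)).le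
    positivity
  · have e2 : C * (ρ ^ d * Q / N) = (C * C₁ ^ d) * ((a (ls n) ^ d * Q) / N) := by
      rw [hρd, mul_pow]
      ring
    rw [e2]
    exact mul_le_of_le_one_right (by positivity) ((div_le_one hN0).2 hα)

/-- PROOF. `C'` from `nw_rad`, `ρ = C' C₁ a_n`. `nu1` at `uT t * x`: a row `r` with `RowS` and `‖rwS r (uT t x) p‖ ≤ C₁ a_n` has `‖rwS r (uT t M) p‖ ≤ rdS a ρ p` for all `p` (`nw_rad`), so with `r = mkR b z` (`Equiv.funSplitAt`, `ENNReal.tsum_prod`):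
`nu1 (uT t x) ≤ ∑_b 1[b ≠ 0, Den 𝔪 v (2k) b, ‖b‖ ≤ ρ a_n] ∑_z ∏_p 1[PS p (z p)] 1[‖rwS (mkR b z) (uT t M) p‖ ≤ rdS a ρ p]` (`nw_ls` for the entry `inl ls`). Integrate (`lintegral_tsum`), `nf_one` for every `b`, the number of the `b` is at most `C₀ (ρ a_n)^d q^(2k) / N𝔪` (`H33W.lp_nz`), and `nf_real`. -/
theorem nf_count [NeZero n] {Ω : Set (SP n (EE K))} (hΩ : IsCompact Ω) {C₁ : ℝ} (hC₁ : 0 < C₁) : ∃ C : ℝ, 0 < C ∧ ∀ (T : ℝ) (𝔪 : Ideal (𝓞 K)) (v : HeightOneSpectrum (𝓞 K)) (k : ℕ) (a : Fin n → ℝ),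
    PrmS 1 T 𝔪 v k a → ∀ x, InRangeS Ω a x →
    ∫⁻ t in LB (dI (n := n) 𝔪 v k), nu1 𝔪 v k (C₁ * a (ls n)) (uT t * x) ≤ ENNReal.ofReal C * volume (LB (dI (n := n) 𝔪 v k)) := by
  obtain ⟨Cr, hCr, hrad⟩ := nw_rad (K := K) hΩ
  obtain ⟨Co, hCo, hone⟩ := nf_one n K
  obtain ⟨Cl, hCl, hlp⟩ := lp_nz K
  have hCr0 : 0 < Cr := lt_of_lt_of_le one_pos hCr
  have hCm : 0 < max Co Cl := lt_max_of_lt_left hCo
  obtain ⟨C₂, hC₂, hreal⟩ := nf_real (n := n) (K := K) (max Co Cl) (Cr * C₁) hCm (mul_pos hCr0 hC₁)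
  refine ⟨C₂, hC₂, ?_⟩
  intro T 𝔪 v k a hP x hx
  have ha : ∀ i, 0 < a i := hP.tor.pos
  have hK : Countable K := (Module.finBasis ℚ K).equivFun.injective.countable
  obtain ⟨M, hM, hMr⟩ := hrad a ha x hx
  obtain ⟨R, hRd⟩ : ∃ R : ℝ, R = Cr * C₁ * a (ls n) := ⟨_, rfl⟩
  have hR0 : 0 < R := by rw [hRd]; exact mul_pos (mul_pos hCr0 hC₁) (ha _)
  obtain ⟨B, hBd⟩ : ∃ B : Set K, B = {b : K | b ≠ 0 ∧ Den 𝔪 v (2 * k) b ∧ ‖mixedEmbedding K b‖ ≤ R * a (ls n)} := ⟨_, rfl⟩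
  obtain ⟨G, hGd⟩ : ∃ G : K → (TI n → EE K) → ℝ≥0∞, G = fun b t => ∑' z : PP n → K, ∏ p : PP n,
      {y : K | PS 𝔪 v k p.1 y}.indicator (1 : K → ℝ≥0∞) (z p) *
      (Metric.closedBall (0 : EE K) (rdS a R p.1)).indicator (1 : EE K → ℝ≥0∞) (rwS (mkR b z) (uT t * M) p.1) := ⟨_, rfl⟩
  have mG : ∀ b, Measurable (G b) := by
    intro b
    rw [hGd]
    refine Measurable.ennreal_tsum fun z => ?_
    refine Finset.measurable_fun_prod _ fun p _ => ?_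
    refine Measurable.const_mul ?_ _
    exact (measurable_one.indicator Metric.isClosed_closedBall.measurableSet).comp (nf1_rw_cont _ M p.1).measurable
  have step1 : ∀ t : TI n → EE K, nu1 𝔪 v k (C₁ * a (ls n)) (uT t * x) ≤ ∑' b : K, B.indicator (1 : K → ℝ≥0∞) b * G b t := by
    intro t
    unfold nu1
    rw [← (Equiv.funSplitAt (Sum.inl (ls n)) K).symm.tsum_eq]
    refine (ENNReal.tsum_prod (f := fun (b : K) (z : PP n → K) =>
      {r : Fin n ⊕ Fin n → K | RowS 𝔪 v k r ∧ ∀ p, ‖rwS r (uT t * x) p‖ ≤ C₁ * a (ls n)}.indicator (1 : (Fin n ⊕ Fin n → K) → ℝ≥0∞)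
        ((Equiv.funSplitAt (Sum.inl (ls n)) K).symm (b, z)))).trans_le ?_
    refine ENNReal.tsum_le_tsum fun b => ?_
    rw [hGd]
    dsimp only
    rw [← ENNReal.tsum_mul_left]
    refine ENNReal.tsum_le_tsum fun z => ?_
    show {r : Fin n ⊕ Fin n → K | RowS 𝔪 v k r ∧ ∀ p, ‖rwS r (uT t * x) p‖ ≤ C₁ * a (ls n)}.indicator (1 : (Fin n ⊕ Fin n → K) → ℝ≥0∞)
      (mkR b z) ≤ _
    by_cases h : RowS 𝔪 v k (mkR b z) ∧ ∀ p, ‖rwS (mkR b z) (uT t * x) p‖ ≤ C₁ * a (ls n)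
    · obtain ⟨⟨⟨hb0, hbd⟩, hi, hls, hr⟩, hn⟩ := h
      obtain ⟨q1, q2⟩ := hMr t (mkR b z) (C₁ * a (ls n)) hn
      rw [nf1_mkR] at hb0 hbd
      have hR1 : Cr * (C₁ * a (ls n)) = R := by rw [hRd]; ring
      rw [hR1] at q1 q2
      have hbB : b ∈ B := by
        rw [hBd]
        refine ⟨hb0, hbd, ?_⟩
        have := q1 (ls n)
        rwa [nw_ls hM, nf1_mkR] at this
      have hprod : ∏ p : PP n, {y : K | PS 𝔪 v k p.1 y}.indicator (1 : K → ℝ≥0∞) (z p) *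
          (Metric.closedBall (0 : EE K) (rdS a R p.1)).indicator (1 : EE K → ℝ≥0∞) (rwS (mkR b z) (uT t * M) p.1) = 1 := by
        refine Finset.prod_eq_one fun p _ => ?_
        have h1 : z p ∈ {y : K | PS 𝔪 v k p.1 y} := by
          show PS 𝔪 v k p.1 (z p)
          rw [← nf1_mkR' b z p]
          obtain ⟨p, hp⟩ := p
          unfold PS
          by_cases hpl : p = Sum.inr (ls n)
          · rw [if_pos hpl]
            dsimp only
            rw [hpl]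
            exact hls
          · rw [if_neg hpl]
            rcases p with j | j
            · exact hi j fun e => hp (congrArg Sum.inl e)
            · exact hr j fun e => hpl (congrArg Sum.inr e)
        have h2 : rwS (mkR b z) (uT t * M) p.1 ∈ Metric.closedBall (0 : EE K) (rdS a R p.1) := by
          rw [mem_closedBall_zero_iff]
          obtain ⟨p, hp⟩ := p
          rcases p with j | j
          · exact q1 j
          · exact q2 j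
        rw [Set.indicator_of_mem h1, Set.indicator_of_mem h2, Pi.one_apply, Pi.one_apply, one_mul]
      rw [hprod, Set.indicator_of_mem hbB, Pi.one_apply, mul_one]
      exact Set.indicator_le_self' (fun _ _ => zero_le) _
    · rw [Set.indicator_of_notMem (show mkR b z ∉ {r : Fin n ⊕ Fin n → K | RowS 𝔪 v k r ∧ ∀ p, ‖rwS r (uT t * x) p‖ ≤ C₁ * a (ls n)} from h)]
      exact zero_le
  have step2 : ∀ b : K, B.indicator (1 : K → ℝ≥0∞) b * ∫⁻ t in LB (dI (n := n) 𝔪 v k), G b t ≤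
      B.indicator (1 : K → ℝ≥0∞) b * (ENNReal.ofReal (∏ p : PP n, kpS K (max Co Cl) R 𝔪 v k a p.1) * volume (LB (dI (n := n) 𝔪 v k))) := by
    intro b
    by_cases hb : b ∈ B
    · refine mul_le_mul_right ?_ _
      rw [hBd] at hb
      rw [hGd]
      refine (hone 𝔪 v k hP.ne b hb.1 hb.2.1 M hM a ha R hR0.le).trans ?_
      refine mul_le_mul_left ?_ _
      rw [ENNReal.ofReal_prod_of_nonneg fun p _ => nf2_kp0 hCm.le hR0.le 𝔪 v k ha p.1]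
      exact Finset.prod_le_prod' fun p _ => ENNReal.ofReal_le_ofReal (nf2_kpm (le_max_left _ _) hR0.le 𝔪 v k ha p.1)
    · rw [Set.indicator_of_notMem hb, zero_mul, zero_mul]
  have hB : ∑' b : K, B.indicator (1 : K → ℝ≥0∞) b ≤
      ENNReal.ofReal (max Co Cl * ((R * a (ls n)) ^ Module.finrank ℚ K * (Ideal.absNorm v.asIdeal : ℝ) ^ (2 * k) / Ideal.absNorm 𝔪)) := by
    have e1 : ∑' b : K, B.indicator (1 : K → ℝ≥0∞) b = (B.encard : ℝ≥0∞) := by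
      rw [← tsum_subtype B (1 : K → ℝ≥0∞)]
      exact ENNReal.tsum_set_one B
    rw [e1, hBd]
    refine (hlp v 𝔪 (2 * k) (R * a (ls n)) hP.ne (mul_pos hR0 (ha _))).trans (ENNReal.ofReal_le_ofReal ?_)
    refine mul_le_mul_of_nonneg_right (le_max_right _ _) ?_
    have := (ha (ls n)).le
    have := hR0.le
    positivity
  calc ∫⁻ t in LB (dI (n := n) 𝔪 v k), nu1 𝔪 v k (C₁ * a (ls n)) (uT t * x)
      ≤ ∫⁻ t in LB (dI (n := n) 𝔪 v k), ∑' b : K, B.indicator (1 : K → ℝ≥0∞) b * G b t := lintegral_mono step1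
    _ = ∑' b : K, ∫⁻ t in LB (dI (n := n) 𝔪 v k), B.indicator (1 : K → ℝ≥0∞) b * G b t :=
        lintegral_tsum fun b => ((mG b).const_mul _).aemeasurable
    _ = ∑' b : K, B.indicator (1 : K → ℝ≥0∞) b * ∫⁻ t in LB (dI (n := n) 𝔪 v k), G b t :=
        tsum_congr fun b => lintegral_const_mul _ (mG b)
    _ ≤ ∑' b : K, B.indicator (1 : K → ℝ≥0∞) b * (ENNReal.ofReal (∏ p : PP n, kpS K (max Co Cl) R 𝔪 v k a p.1) *
          volume (LB (dI (n := n) 𝔪 v k))) := ENNReal.tsum_le_tsum step2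
    _ = (∑' b : K, B.indicator (1 : K → ℝ≥0∞) b) * (ENNReal.ofReal (∏ p : PP n, kpS K (max Co Cl) R 𝔪 v k a p.1) *
          volume (LB (dI (n := n) 𝔪 v k))) := ENNReal.tsum_mul_right
    _ ≤ ENNReal.ofReal (max Co Cl * ((R * a (ls n)) ^ Module.finrank ℚ K * (Ideal.absNorm v.asIdeal : ℝ) ^ (2 * k) / Ideal.absNorm 𝔪)) *
          (ENNReal.ofReal (∏ p : PP n, kpS K (max Co Cl) R 𝔪 v k a p.1) * volume (LB (dI (n := n) 𝔪 v k))) :=
        mul_le_mul_left hB _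
    _ = ENNReal.ofReal ((∏ p : PP n, kpS K (max Co Cl) R 𝔪 v k a p.1) *
          (max Co Cl * ((R * a (ls n)) ^ Module.finrank ℚ K * (Ideal.absNorm v.asIdeal : ℝ) ^ (2 * k) / Ideal.absNorm 𝔪))) *
          volume (LB (dI (n := n) 𝔪 v k)) := by
        rw [ENNReal.ofReal_mul (Finset.prod_nonneg fun p _ => nf2_kp0 hCm.le hR0.le 𝔪 v k ha p.1)]
        ring
    _ ≤ ENNReal.ofReal C₂ * volume (LB (dI (n := n) 𝔪 v k)) := by
        refine mul_le_mul_left (ENNReal.ofReal_le_ofReal ?_) _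
        rw [hRd]
        exact hreal T 𝔪 v k a hP

end

end Pool.Agent.Lib.H67G
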