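import Mathlib

/-!
# NT0 (M, pure measure theory): one variable of a product
-/

namespace Pool.Agent.Lib.H67G

open MeasureTheory
open scoped ENNReal

noncomputable section

set_option linter.unusedSectionVars false


variable {ι E : Type} [Fintype ι] [DecidableEq ι] [MeasurableSpace E] (μ : ι → Measure E) [∀ i, IsFiniteMeasure (μ i)]

theorem nt0_aux (i : ι) {f : (ι → E) → ℝ≥0∞} (mf : Measurable f) (x0 : ι → E) :
    ∫⁻ t, f t ∂(Measure.pi μ) =
      (∫⋯∫⁻_(Finset.univ.erase i), (fun t => ∫⁻ x, f (Function.update t i x) ∂(μ i)) ∂μ) x0 := by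
  rw [lintegral_eq_lmarginal_univ (μ := μ) x0, ← lmarginal_insert' f mf (Finset.notMem_erase i Finset.univ),
    Finset.insert_erase (Finset.mem_univ i)]

theorem nt0_meas (i : ι) {f : (ι → E) → ℝ≥0∞} (mf : Measurable f) :
    Measurable fun t : ι → E => ∫⁻ x, f (Function.update t i x) ∂(μ i) := by
  have h1 : Measurable fun p : (ι → E) × E => f (Function.update p.1 i p.2) :=
    mf.comp measurable_update'
  exact h1.lintegral_prod_right'

/-- PROOF. `MeasureTheory.lmarginal` for the set `{i}` (`lmarginal_singleton`, `lintegral_eq_lmarginal_univ`, `lmarginal_union`), or the measure preserving equivalence `(ι → E) ≃ E × ({j // j ≠ i} → E)` (`MeasurableEquiv.piEquivPiSubtypeProd`, `measurePreserving_piEquivPiSubtypeProd`), Tonelli. -/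
theorem nt0_one (i : ι) {f : (ι → E) → ℝ≥0∞} (mf : Measurable f) :
    μ i Set.univ * ∫⁻ t, f t ∂(Measure.pi μ) = ∫⁻ t, ∫⁻ x, f (Function.update t i x) ∂(μ i) ∂(Measure.pi μ) := by
  rcases isEmpty_or_nonempty (ι → E) with hE | ⟨⟨x0⟩⟩
  · rw [lintegral_of_isEmpty, lintegral_of_isEmpty, mul_zero]
  · rw [nt0_aux μ i mf x0, nt0_aux μ i (nt0_meas μ i mf) x0]
    simp only [Function.update_idem, lintegral_const]
    unfold lmarginal
    rw [lintegral_mul_const' _ _ (measure_ne_top _ _), mul_comm]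

/-- PROOF. `nt0_one` for `A B`: `∫ (A B)(update t i x) = A(t) ∫ B(update t i x) ≤ A(t) κ μ_i(univ)`. If `μ_i(univ) = 0` then `Measure.pi μ = 0`. -/
theorem nt0_two (i : ι) {A B : (ι → E) → ℝ≥0∞} (mA : Measurable A) (mB : Measurable B) (hA : ∀ t x, A (Function.update t i x) = A t) {κ : ℝ≥0∞}
    (hB : ∀ t, ∫⁻ x, B (Function.update t i x) ∂(μ i) ≤ κ * μ i Set.univ) :
    ∫⁻ t, A t * B t ∂(Measure.pi μ) ≤ κ * ∫⁻ t, A t ∂(Measure.pi μ) := by
  rcases eq_or_ne (μ i Set.univ) 0 with h0 | h0
  · rcases isEmpty_or_nonempty (ι → E) with hE | ⟨⟨x0⟩⟩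
    · rw [lintegral_of_isEmpty]
      exact zero_le
    · have h1 : ∫⁻ t, A t * B t ∂(Measure.pi μ) = 0 := by
        refine (nt0_aux μ i (mA.mul mB) x0).trans ?_
        rw [Measure.measure_univ_eq_zero.mp h0]
        simp only [lintegral_zero_measure]
        unfold lmarginal
        rw [lintegral_zero]
      rw [h1]
      exact zero_le
  · have h1 := nt0_one μ i (mA.mul mB)
    have h2 : ∫⁻ t, ∫⁻ x, (A * B) (Function.update t i x) ∂(μ i) ∂(Measure.pi μ) ≤
        ∫⁻ t, A t * (κ * μ i Set.univ) ∂(Measure.pi μ) := by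
      refine lintegral_mono fun t => ?_
      simp only [Pi.mul_apply, hA]
      have h4 : Measurable fun x => B (Function.update t i x) := mB.comp (measurable_update t)
      rw [lintegral_const_mul _ h4]
      gcongr
      exact hB t
    rw [lintegral_mul_const _ mA, ← h1] at h2
    have h3 : μ i Set.univ * ∫⁻ t, (A * B) t ∂(Measure.pi μ) ≤
        μ i Set.univ * (κ * ∫⁻ t, A t ∂(Measure.pi μ)) := by
      refine h2.trans (le_of_eq ?_)
      ring
    exact (ENNReal.mul_le_mul_iff_right h0 (measure_ne_top _ _)).mp h3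

end

end Pool.Agent.Lib.H67G
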