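import Pool.Agent.Lib.H67G.R0

/-!
# NW0: definitions for the coordinates of the rows
-/

namespace Pool.Agent.Lib.H67G

open MeasureTheory Matrix NumberField IsDedekindDomain Pool.Agent.Lib.H89N Pool.Agent.Lib.H33W
open scoped ENNReal Pointwise

noncomputable section

set_option linter.unusedSectionVars false

variable {n : ℕ} {K : Type} [Field K] [NumberField K]

/-- The positions other than the position of `c_n`. -/
abbrev PP (n : ℕ) [NeZero n] : Type := {p : Fin n ⊕ Fin n // p ≠ Sum.inl (ls n)}

theorem lt_ls [NeZero n] {j : Fin n} (h : j ≠ ls n) : j < ls n := by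
  have h1 : (j : ℕ) ≠ n - 1 := fun e => h (Fin.ext e)
  have := j.2
  exact Fin.mk_lt_mk.2 (show (j : ℕ) < n - 1 by omega)

theorem le_ls [NeZero n] (j : Fin n) : j ≤ ls n := by
  have := j.2
  exact Fin.mk_le_mk.2 (show (j : ℕ) ≤ n - 1 by omega)

/-- The rank of a position: `inr (n-1), .., inr 0, inl 0, .., inl (n-1)`. -/
def rkS (p : Fin n ⊕ Fin n) : ℕ :=
  match p with
  | Sum.inl j => n + j
  | Sum.inr b => n - 1 - b

/-- The variable which moves the entry `p`: `Y_(b, n)` for `inr b`, `A_(j, n)` for `inl j`. -/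
def eS [NeZero n] (p : PP n) : TI n :=
  match p with
  | ⟨Sum.inl j, h⟩ => Sum.inr ⟨(j, ls n), lt_ls (j := j) fun e => h (congrArg Sum.inl e)⟩
  | ⟨Sum.inr b, _⟩ => Sum.inl ⟨(b, ls n), le_ls b⟩

/-- The sign. -/
def sgS (p : Fin n ⊕ Fin n) : EE K :=
  match p with
  | Sum.inl _ => -1
  | Sum.inr _ => 1

theorem rkS_inj : Function.Injective (rkS : Fin n ⊕ Fin n → ℕ) := by
  rintro (i | i) (j | j) h
  · have h' : n + (i : ℕ) = n + j := h
    exact congrArg _ (Fin.ext (by omega))
  · have h' : n + (i : ℕ) = n - 1 - j := h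
    have := i.2
    have := j.2
    omega
  · have h' : n - 1 - (i : ℕ) = n + j := h
    have := i.2
    have := j.2
    omega
  · have h' : n - 1 - (i : ℕ) = n - 1 - j := h
    have := i.2
    have := j.2
    exact congrArg _ (Fin.ext (by omega))

theorem eS_inj [NeZero n] : Function.Injective (eS : PP n → TI n) := by
  rintro ⟨i | i, hi⟩ ⟨j | j, hj⟩ h
  · have h1 := congrArg (fun p : UI n => p.1.1) (Sum.inr_injective h)
    exact Subtype.ext (congrArg Sum.inl h1)
  · cases h
  · cases h
  · have h1 := congrArg (fun p : SI n => p.1.1) (Sum.inl_injective h)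
    exact Subtype.ext (congrArg Sum.inr h1)

/-- The row with the entry `b` at `inl ls` and the entries `z` elsewhere. -/
def mkR [NeZero n] (b : K) (z : PP n → K) : Fin n ⊕ Fin n → K := (Equiv.funSplitAt (Sum.inl (ls n)) K).symm (b, z)

end

end Pool.Agent.Lib.H67G
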