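import Pool.Agent.Lib.H67G.NW0

/-!
# NW1 (M): the coordinates of r u, dependence
-/

namespace Pool.Agent.Lib.H67G

open MeasureTheory Matrix NumberField IsDedekindDomain Pool.Agent.Lib.H89N Pool.Agent.Lib.H33W
open scoped ENNReal Pointwise

noncomputable section

set_option linter.unusedSectionVars false

variable {n : ℕ} {K : Type} [Field K] [NumberField K]

/-!
NOTATION: `r = (c; r'')`, `t = (Y, τ)`, `A = upM τ`. `u = rwS r (uT t)`: `u (inl j) = ∑_i c_i (A⁻¹)_ji` (`uT_bl`), `u (inr b) = ∑_j u(inl j) syM(Y)_jb + ∑_j r''_j A_jb` (`nw_inl`, `nw_inr`). `A⁻¹` is unipotent upper triangular and `(A⁻¹)_ji` (`j < i`) depends only on the `τ_(a,b)` with `j ≤ a < b ≤ i`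
(`nw_ai`; induction on `i - j`: `(A⁻¹)_ji = -τ_ji - ∑_{j < m < i} τ_jm (A⁻¹)_mi`).
`nw_dep`: `inl j` (rank `n + j`): depends on the `c_i`, `i ≥ j` (rank `≥ n + j`), and the `τ_(a,b)`, `j ≤ a < b`: not the variables `eS (inl i) = (i, n)`, `i < j`, nor the `Y`. `inr b` (rank `n-1-b`): depends on all `c_i`, all `τ`, the `r''_j` with `j ≤ b`, and the `Y_jb`, `j` arbitrary: `syM(Y)_jb = Y_(min, max)`;
the variables of smaller rank are `Y_(b', n)`, `b' > b`; `(min(j,b), max(j,b)) = (b', n)` with `b' > b` is impossible.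
-/

theorem nw1_val (t : TI n → EE K) : (uT t).val = fromBlocks (((up fun p => t (Sum.inr p))⁻¹).1)ᵀ
    ((((up fun p => t (Sum.inr p))⁻¹).1)ᵀ * syM (fun p => t (Sum.inl p))) 0
    (upM fun p => t (Sum.inr p)) := by
  obtain ⟨m1, m2, m3, m4⟩ := uT_bl t
  rw [val_bl (uT t), m1, m2, m3, m4]

theorem nw_inl (t : TI n → EE K) (r : Fin n ⊕ Fin n → K) (j : Fin n) :
    rwS r (uT t) (Sum.inl j) = ∑ i, mixedEmbedding K (r (Sum.inl i)) * ((up fun p => t (Sum.inr p))⁻¹).1 j i := by
  show (∑ q, mixedEmbedding K (r q) * (uT t).val q (Sum.inl j)) = _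
  rw [Fintype.sum_sum_type, nw1_val]
  simp [Matrix.fromBlocks_apply₁₁, Matrix.fromBlocks_apply₂₁]

theorem nw_inr (t : TI n → EE K) (r : Fin n ⊕ Fin n → K) (b : Fin n) :
    rwS r (uT t) (Sum.inr b) = ∑ j, rwS r (uT t) (Sum.inl j) * syM (fun p => t (Sum.inl p)) j b +
      ∑ j, mixedEmbedding K (r (Sum.inr j)) * upM (fun p => t (Sum.inr p)) j b := by
  have h1 : rwS r (uT t) (Sum.inr b) = ∑ i, mixedEmbedding K (r (Sum.inl i)) *
      ((((up fun p => t (Sum.inr p))⁻¹).1)ᵀ * syM (fun p => t (Sum.inl p))) i b +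
      ∑ j, mixedEmbedding K (r (Sum.inr j)) * upM (fun p => t (Sum.inr p)) j b := by
    show (∑ q, mixedEmbedding K (r q) * (uT t).val q (Sum.inr b)) = _
    rw [Fintype.sum_sum_type, nw1_val]
    simp only [Matrix.fromBlocks_apply₁₂, Matrix.fromBlocks_apply₂₂]
  rw [h1]
  congr 1
  simp only [nw_inl, Matrix.mul_apply, Matrix.transpose_apply, Finset.mul_sum, Finset.sum_mul]
  rw [Finset.sum_comm]
  exact Finset.sum_congr rfl fun j _ => Finset.sum_congr rfl fun i _ => by ring

/-- The inverse of `up τ` is unipotent upper triangular. -/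
theorem nw_ai0 {R : Type} [CommRing R] (τ : UI n → R) {j i : Fin n} (h : i ≤ j) : ((up τ)⁻¹).1 j i = (1 : Matrix (Fin n) (Fin n) R) j i :=
  isUU_inv (g := up τ) (isUU_upM τ) j i h

/-- The recursion for the entries of the inverse. -/
theorem nw1_rec {R : Type} [CommRing R] (τ : UI n → R) (j i : Fin n) :
    ((up τ)⁻¹).1 j i = (1 : Matrix (Fin n) (Fin n) R) j i -
      ∑ c ∈ Finset.univ.erase j, upM τ j c * ((up τ)⁻¹).1 c i := by
  have h1 : upM τ * ((up τ)⁻¹).1 = 1 := by
    have h2 : (up τ).1 * ((up τ)⁻¹).1 = 1 := by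
      rw [← Matrix.SpecialLinearGroup.coe_mul, mul_inv_cancel]
      rfl
    exact h2
  have h3 := uu_mul_entry (N := ((up τ)⁻¹).1) (isUU_upM τ) (a := j) (l := i)
  rw [h1] at h3
  rw [h3]
  ring

theorem nw_ai {R : Type} [CommRing R] (τ τ' : UI n → R) {j i : Fin n} (h : ∀ p : UI n, j ≤ p.1.1 → p.1.2 ≤ i → τ p = τ' p) :
    ((up τ)⁻¹).1 j i = ((up τ')⁻¹).1 j i := by
  have key : ∀ k : ℕ, ∀ j i : Fin n, (i : ℕ) - j ≤ k →
      (∀ p : UI n, j ≤ p.1.1 → p.1.2 ≤ i → τ p = τ' p) →
      ((up τ)⁻¹).1 j i = ((up τ')⁻¹).1 j i := by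
    intro k
    induction k with
    | zero =>
      intro j i hk _
      have hle : i ≤ j := Fin.mk_le_mk.2 (by omega)
      rw [nw_ai0 τ hle, nw_ai0 τ' hle]
    | succ k ih =>
      intro j i hk h
      rw [nw1_rec τ, nw1_rec τ']
      congr 1
      refine Finset.sum_congr rfl fun c hc => ?_
      have hc' : c ≠ j := (Finset.mem_erase.1 hc).1
      rcases lt_or_gt_of_ne hc' with h1 | h1
      · rw [upM_gt τ h1, upM_gt τ' h1, zero_mul, zero_mul]
      · rcases lt_or_ge i c with h2 | h2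
        · rw [nw_ai0 τ h2.le, nw_ai0 τ' h2.le, Matrix.one_apply_ne h2.ne', mul_zero, mul_zero]
        · rw [upM_lt τ h1, upM_lt τ' h1, h ⟨(j, c), h1⟩ le_rfl h2, ih c i ?_ ?_]
          · have h3 : (j : ℕ) < c := h1
            omega
          · intro p hp1 hp2
            exact h p (h1.le.trans hp1) hp2
  exact key _ j i le_rfl h

theorem nw_dep [NeZero n] (p : Fin n ⊕ Fin n) (t t' : TI n → EE K) (r r' : Fin n ⊕ Fin n → K)
    (ht : ∀ i, (∀ q : PP n, rkS q.1 < rkS p → i ≠ eS q) → t i = t' i) (hr : ∀ q, rkS p ≤ rkS q → r q = r' q) :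
    rwS r (uT t) p = rwS r' (uT t') p := by
  rcases p with j | b
  · rw [nw_inl, nw_inl]
    refine Finset.sum_congr rfl fun i _ => ?_
    rcases lt_or_ge i j with h1 | h1
    · rw [nw_ai0 _ h1.le, nw_ai0 _ h1.le, Matrix.one_apply_ne h1.ne', mul_zero, mul_zero]
    · have e1 : r (Sum.inl i) = r' (Sum.inl i) := by
        refine hr _ ?_
        have h2 : (j : ℕ) ≤ i := h1
        show n + (j : ℕ) ≤ n + i
        omega
      rw [e1]
      congr 1
      refine nw_ai _ _ fun q hq1 hq2 => ?_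
      refine ht (Sum.inr q) ?_
      rintro ⟨j' | b', hq'⟩ hlt he
      · have h3 : n + (j' : ℕ) < n + j := hlt
        have h4 : q.1.1 = j' := congrArg (fun p : UI n => p.1.1) (Sum.inr_injective he)
        have h5 : (j : ℕ) ≤ q.1.1 := hq1
        rw [h4] at h5
        omega
      · cases he
  · have hnl : ∀ q' : PP n, rkS q'.1 < rkS (Sum.inr b : Fin n ⊕ Fin n) →
        ∃ b' : Fin n, b < b' ∧ eS q' = Sum.inl ⟨(b', ls n), le_ls b'⟩ := by
      rintro ⟨j' | b', hq'⟩ hlt
      · exfalso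
        have h3 : n + (j' : ℕ) < n - 1 - b := hlt
        omega
      · refine ⟨b', ?_, rfl⟩
        have h3 : n - 1 - (b' : ℕ) < n - 1 - b := hlt
        exact Fin.mk_lt_mk.2 (by omega)
    have hτ : (fun q : UI n => t (Sum.inr q)) = fun q => t' (Sum.inr q) := by
      funext q
      refine ht (Sum.inr q) fun q' hlt he => ?_
      obtain ⟨b', -, h2⟩ := hnl q' hlt
      rw [h2] at he
      cases he
    rw [nw_inr, nw_inr]
    congr 1
    · refine Finset.sum_congr rfl fun j _ => ?_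
      have e1 : rwS r (uT t) (Sum.inl j) = rwS r' (uT t') (Sum.inl j) := by
        rw [nw_inl, nw_inl, hτ]
        refine Finset.sum_congr rfl fun i _ => ?_
        rw [hr (Sum.inl i) (by
          show n - 1 - (b : ℕ) ≤ n + i
          omega)]
      rw [e1]
      congr 1
      unfold syM
      rw [Matrix.of_apply, Matrix.of_apply]
      by_cases h : j ≤ b
      · rw [dif_pos h, dif_pos h]
        refine ht _ fun q' hlt he => ?_
        obtain ⟨b', h1, h2⟩ := hnl q' hlt
        rw [h2] at he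
        have h4 : j = b' := congrArg (fun p : SI n => p.1.1) (Sum.inl_injective he)
        rw [← h4] at h1
        exact absurd h1 (not_lt.2 h)
      · rw [dif_neg h, dif_neg h]
        refine ht _ fun q' hlt he => ?_
        obtain ⟨b', h1, h2⟩ := hnl q' hlt
        rw [h2] at he
        have h4 : b = b' := congrArg (fun p : SI n => p.1.1) (Sum.inl_injective he)
        rw [← h4] at h1
        exact lt_irrefl _ h1
    · refine Finset.sum_congr rfl fun j _ => ?_
      rw [hτ]
      rcases lt_or_ge b j with h1 | h1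
      · rw [upM_gt _ h1, mul_zero, mul_zero]
      · rw [hr (Sum.inr j) (by
          have h2 : (j : ℕ) ≤ b := h1
          show n - 1 - (b : ℕ) ≤ n - 1 - j
          omega)]

end

end Pool.Agent.Lib.H67G
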