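import Pool.Agent.Lib.H67G.NW1

/-!
# NW2 (M): the coordinates of r u, the moving entry
-/

namespace Pool.Agent.Lib.H67G

open MeasureTheory Matrix NumberField IsDedekindDomain Pool.Agent.Lib.H89N Pool.Agent.Lib.H33W
open scoped ENNReal Pointwise

noncomputable section

set_option linter.unusedSectionVars false

variable {n : ℕ} {K : Type} [Field K] [NumberField K]

/-- The entry of the inverse which moves. -/
theorem nw2_inv [NeZero n] {R : Type} [CommRing R] (τ τ' : UI n → R) {j : Fin n} (hj : j < ls n) (x : R)
    (hτ : τ ⟨(j, ls n), hj⟩ = x) (hτ' : τ' ⟨(j, ls n), hj⟩ = 0)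
    (h : ∀ p : UI n, p ≠ ⟨(j, ls n), hj⟩ → τ p = τ' p) (i : Fin n) :
    ((up τ)⁻¹).1 j i = ((up τ')⁻¹).1 j i - if i = ls n then x else 0 := by
  by_cases hi : i = ls n
  · rw [if_pos hi, hi, nw1_rec τ, nw1_rec τ']
    have hm : ls n ∈ Finset.univ.erase j := Finset.mem_erase.2 ⟨hj.ne', Finset.mem_univ _⟩
    rw [← Finset.add_sum_erase _ _ hm, ← Finset.add_sum_erase _ _ hm, upM_lt τ hj, upM_lt τ' hj, hτ,
      hτ', nw_ai0 τ le_rfl, Matrix.one_apply_eq]
    have e : ∑ c ∈ (Finset.univ.erase j).erase (ls n), upM τ j c * ((up τ)⁻¹).1 c (ls n) =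
        ∑ c ∈ (Finset.univ.erase j).erase (ls n), upM τ' j c * ((up τ')⁻¹).1 c (ls n) := by
      refine Finset.sum_congr rfl fun c hc => ?_
      rw [Finset.mem_erase, Finset.mem_erase] at hc
      rcases lt_or_gt_of_ne hc.2.1 with h1 | h1
      · rw [upM_gt τ h1, upM_gt τ' h1, zero_mul, zero_mul]
      · rw [upM_lt τ h1, upM_lt τ' h1, h ⟨(j, c), h1⟩ (fun he => hc.1 (congrArg (fun p : UI n => p.1.2) he))]
        congr 1
        refine nw_ai _ _ fun q hq1 _ => h q fun he => ?_
        have h2 : q.1.1 = j := congrArg (fun p : UI n => p.1.1) he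
        rw [h2] at hq1
        exact absurd h1 (not_lt.2 hq1)
    rw [e]
    ring
  · rw [if_neg hi, sub_zero]
    refine nw_ai _ _ fun q _ hq2 => h q fun he => ?_
    have h2 : q.1.2 = ls n := congrArg (fun p : UI n => p.1.2) he
    rw [h2] at hq2
    exact hi (le_antisymm (le_ls i) hq2)

/-- PROOF. `p = inl j`, `j < n`: in `∑_i c_i (A⁻¹)_ji` the variable `x = τ_(j,n)` occurs only in `(A⁻¹)_jn = -τ_jn - ∑_{j < m < n} τ_jm (A⁻¹)_mn` (`nw_ai`: the sum does not contain `τ_jn`), and `c_j` with the coefficient `1`. `p = inr b`: `u(inl n) = c_n` times `Y_bn`; the `u(inl j)` do not depend on `Y`;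
the other `syM(Y)_jb`, `j ≠ n`, are not `Y_bn` (also for `b = n`), and `r''_b` has the coefficient `A_bb = 1`. -/
theorem nw_aff [NeZero n] (p : PP n) (t : TI n → EE K) (r : Fin n ⊕ Fin n → K) (x : EE K) (y : K) :
    rwS (Function.update r p.1 y) (uT (Function.update t (eS p) x)) p.1 =
      mixedEmbedding K y + rwS (Function.update r p.1 0) (uT (Function.update t (eS p) 0)) p.1 +
        sgS p.1 * x * mixedEmbedding K (r (Sum.inl (ls n))) := by
  obtain ⟨j | b, hp⟩ := p
  · have hj : j < ls n := lt_ls fun e => hp (congrArg Sum.inl e)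
    have he : eS (⟨Sum.inl j, hp⟩ : PP n) = Sum.inr ⟨(j, ls n), hj⟩ := rfl
    rw [he, nw_inl, nw_inl]
    have hinv : ∀ i, ((up fun q => Function.update t (Sum.inr ⟨(j, ls n), hj⟩) x (Sum.inr q))⁻¹).1 j i =
        ((up fun q => Function.update t (Sum.inr ⟨(j, ls n), hj⟩) 0 (Sum.inr q))⁻¹).1 j i -
          if i = ls n then x else 0 := by
      intro i
      refine nw2_inv _ _ hj x ?_ ?_ ?_ i
      · exact Function.update_self _ _ _
      · exact Function.update_self _ _ _
      · intro q hq
        have hq' : (Sum.inr q : TI n) ≠ Sum.inr ⟨(j, ls n), hj⟩ := fun h => hq (Sum.inr_injective h)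
        rw [Function.update_of_ne hq', Function.update_of_ne hq']
    have hterm : ∀ i, mixedEmbedding K (Function.update r (Sum.inl j) y (Sum.inl i)) *
        ((up fun q => Function.update t (Sum.inr ⟨(j, ls n), hj⟩) x (Sum.inr q))⁻¹).1 j i =
        mixedEmbedding K (Function.update r (Sum.inl j) 0 (Sum.inl i)) *
        ((up fun q => Function.update t (Sum.inr ⟨(j, ls n), hj⟩) 0 (Sum.inr q))⁻¹).1 j i +
        (if i = j then mixedEmbedding K y else 0) +
        (if i = ls n then -(x * mixedEmbedding K (r (Sum.inl (ls n)))) else 0) := by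
      intro i
      rw [hinv i]
      by_cases h1 : i = j
      · subst h1
        rw [if_pos rfl, if_neg hj.ne, Function.update_self, Function.update_self, nw_ai0 _ le_rfl,
          Matrix.one_apply_eq, if_neg hj.ne, map_zero]
        ring
      · have h1' : (Sum.inl i : Fin n ⊕ Fin n) ≠ Sum.inl j := fun h => h1 (Sum.inl_injective h)
        rw [if_neg h1, Function.update_of_ne h1', Function.update_of_ne h1']
        by_cases h2 : i = ls n
        · subst h2
          rw [if_pos rfl, if_pos rfl]
          ring
        · rw [if_neg h2, if_neg h2]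
          ring
    rw [Finset.sum_congr rfl fun i _ => hterm i, Finset.sum_add_distrib, Finset.sum_add_distrib,
      Finset.sum_ite_eq', Finset.sum_ite_eq', if_pos (Finset.mem_univ _), if_pos (Finset.mem_univ _)]
    show _ = _ + _ + (-1) * x * _
    ring
  · have he : eS (⟨Sum.inr b, hp⟩ : PP n) = Sum.inl ⟨(b, ls n), le_ls b⟩ := rfl
    rw [he, nw_inr, nw_inr]
    have hτ : ∀ z : EE K, (fun q : UI n => Function.update t (Sum.inl ⟨(b, ls n), le_ls b⟩) z (Sum.inr q)) =
        fun q => t (Sum.inr q) := fun z => by
      funext q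
      exact Function.update_of_ne (by intro h; cases h) _ _
    have hc : ∀ (z : K) (i : Fin n), Function.update r (Sum.inr b) z (Sum.inl i) = r (Sum.inl i) :=
      fun z i => Function.update_of_ne (by intro h; cases h) _ _
    have hl : ∀ (z : K) (w : EE K) (j : Fin n),
        rwS (Function.update r (Sum.inr b) z) (uT (Function.update t (Sum.inl ⟨(b, ls n), le_ls b⟩) w))
          (Sum.inl j) = ∑ i, mixedEmbedding K (r (Sum.inl i)) * ((up fun q => t (Sum.inr q))⁻¹).1 j i := by
      intro z w j
      rw [nw_inl, hτ]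
      exact Finset.sum_congr rfl fun i _ => by rw [hc]
    have hls : ∑ i, mixedEmbedding K (r (Sum.inl i)) * ((up fun q => t (Sum.inr q))⁻¹).1 (ls n) i =
        mixedEmbedding K (r (Sum.inl (ls n))) := by
      rw [Finset.sum_eq_single (ls n)]
      · rw [nw_ai0 _ le_rfl, Matrix.one_apply_eq, mul_one]
      · intro i _ hi
        rw [nw_ai0 _ (le_ls i), Matrix.one_apply_ne (Ne.symm hi), mul_zero]
      · intro h
        exact absurd (Finset.mem_univ _) h
    have hsy : ∀ j, syM (fun q => Function.update t (Sum.inl ⟨(b, ls n), le_ls b⟩) x (Sum.inl q)) j b =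
        syM (fun q => Function.update t (Sum.inl ⟨(b, ls n), le_ls b⟩) 0 (Sum.inl q)) j b +
          if j = ls n then x else 0 := by
      intro j
      unfold syM
      rw [Matrix.of_apply, Matrix.of_apply]
      by_cases h1 : j = ls n
      · rw [if_pos h1, h1]
        by_cases h2 : ls n ≤ b
        · have hb : b = ls n := le_antisymm (le_ls b) h2
          subst hb
          rw [dif_pos h2, dif_pos h2]
          dsimp only
          rw [Function.update_self, Function.update_self, zero_add]
        · rw [dif_neg h2, dif_neg h2]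
          dsimp only
          rw [Function.update_self, Function.update_self, zero_add]
      · rw [if_neg h1, add_zero]
        by_cases h2 : j ≤ b
        · rw [dif_pos h2, dif_pos h2]
          have h3 : (Sum.inl ⟨(j, b), h2⟩ : TI n) ≠ Sum.inl ⟨(b, ls n), le_ls b⟩ := by
            intro h
            have h4 : j = b := congrArg (fun q : SI n => q.1.1) (Sum.inl_injective h)
            have h5 : b = ls n := congrArg (fun q : SI n => q.1.2) (Sum.inl_injective h)
            exact h1 (h4.trans h5)
          dsimp only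
          rw [Function.update_of_ne h3, Function.update_of_ne h3]
        · rw [dif_neg h2, dif_neg h2]
          have h3 : (Sum.inl ⟨(b, j), (not_le.1 h2).le⟩ : TI n) ≠ Sum.inl ⟨(b, ls n), le_ls b⟩ := by
            intro h
            have h5 : j = ls n := congrArg (fun q : SI n => q.1.2) (Sum.inl_injective h)
            exact h1 h5
          dsimp only
          rw [Function.update_of_ne h3, Function.update_of_ne h3]
    have h1 : ∑ j, rwS (Function.update r (Sum.inr b) y)
          (uT (Function.update t (Sum.inl ⟨(b, ls n), le_ls b⟩) x)) (Sum.inl j) *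
          syM (fun q => Function.update t (Sum.inl ⟨(b, ls n), le_ls b⟩) x (Sum.inl q)) j b =
        ∑ j, rwS (Function.update r (Sum.inr b) 0)
          (uT (Function.update t (Sum.inl ⟨(b, ls n), le_ls b⟩) 0)) (Sum.inl j) *
          syM (fun q => Function.update t (Sum.inl ⟨(b, ls n), le_ls b⟩) 0 (Sum.inl q)) j b +
        mixedEmbedding K (r (Sum.inl (ls n))) * x := by
      have h2 : ∀ j, rwS (Function.update r (Sum.inr b) y)
          (uT (Function.update t (Sum.inl ⟨(b, ls n), le_ls b⟩) x)) (Sum.inl j) *
          syM (fun q => Function.update t (Sum.inl ⟨(b, ls n), le_ls b⟩) x (Sum.inl q)) j b =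
          rwS (Function.update r (Sum.inr b) 0)
          (uT (Function.update t (Sum.inl ⟨(b, ls n), le_ls b⟩) 0)) (Sum.inl j) *
          syM (fun q => Function.update t (Sum.inl ⟨(b, ls n), le_ls b⟩) 0 (Sum.inl q)) j b +
          if j = ls n then mixedEmbedding K (r (Sum.inl (ls n))) * x else 0 := by
        intro j
        rw [hl, hl, hsy j]
        by_cases h3 : j = ls n
        · rw [if_pos h3, if_pos h3, h3, hls]
          ring
        · rw [if_neg h3, if_neg h3]
          ring
      rw [Finset.sum_congr rfl fun j _ => h2 j, Finset.sum_add_distrib, Finset.sum_ite_eq',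
        if_pos (Finset.mem_univ _)]
    have h4 : ∑ j, mixedEmbedding K (Function.update r (Sum.inr b) y (Sum.inr j)) *
          upM (fun q => Function.update t (Sum.inl ⟨(b, ls n), le_ls b⟩) x (Sum.inr q)) j b =
        ∑ j, mixedEmbedding K (Function.update r (Sum.inr b) 0 (Sum.inr j)) *
          upM (fun q => Function.update t (Sum.inl ⟨(b, ls n), le_ls b⟩) 0 (Sum.inr q)) j b +
        mixedEmbedding K y := by
      have h2 : ∀ j, mixedEmbedding K (Function.update r (Sum.inr b) y (Sum.inr j)) *
          upM (fun q => Function.update t (Sum.inl ⟨(b, ls n), le_ls b⟩) x (Sum.inr q)) j b =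
          mixedEmbedding K (Function.update r (Sum.inr b) 0 (Sum.inr j)) *
          upM (fun q => Function.update t (Sum.inl ⟨(b, ls n), le_ls b⟩) 0 (Sum.inr q)) j b +
          if j = b then mixedEmbedding K y else 0 := by
        intro j
        rw [hτ, hτ]
        by_cases h3 : j = b
        · rw [if_pos h3, h3, Function.update_self, Function.update_self, upM_eq, map_zero]
          ring
        · have h3' : (Sum.inr j : Fin n ⊕ Fin n) ≠ Sum.inr b := fun h => h3 (Sum.inr_injective h)
          rw [if_neg h3, Function.update_of_ne h3', Function.update_of_ne h3', add_zero]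
      rw [Finset.sum_congr rfl fun j _ => h2 j, Finset.sum_add_distrib, Finset.sum_ite_eq',
        if_pos (Finset.mem_univ _)]
    rw [h1, h4]
    show _ = _ + _ + 1 * x * _
    ring

end

end Pool.Agent.Lib.H67G
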