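import Pool.Agent.Lib.H67G.NW2

/-!
# NW3 (M): the coordinates of r u M
-/

namespace Pool.Agent.Lib.H67G

open MeasureTheory Matrix NumberField IsDedekindDomain Pool.Agent.Lib.H89N Pool.Agent.Lib.H33W
open scoped ENNReal Pointwise

noncomputable section

set_option linter.unusedSectionVars false

variable {n : ℕ} {K : Type} [Field K] [NumberField K]

/-!
PROOFS. For `M ∈ U`: `rwS r (uT t * M) p = ∑_q rwS r (uT t) q * M_qp`, `M_pp = 1`, `M_qp = 0` unless `rkS p ≤ rkS q` (`nw_tri`: the blocks `A_M = D_M⁻ᵗ` lower, `D_M` upper unipotent triangular, `C_M = 0`). So `nw_depM` follows from `nw_dep` and `nw_affM` from `nw_aff` and `nw_dep` (the terms with `rkS p < rkS q` do not depend on `x`, `y`: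
`eS p` is one of the excluded variables for `q`). `nw_ls`: the position `inl ls` has the largest rank and `rwS r (uT t) (inl ls) = c_n` (`nw_inl`, `nw_ai0`).
-/

theorem nw3_val {M : SP n (EE K)} (hM : IsUS M) :
    (∀ i j : Fin n, i ≤ j → M.val (Sum.inl i) (Sum.inl j) = (1 : Matrix (Fin n) (Fin n) (EE K)) i j) ∧
    (∀ i j : Fin n, M.val (Sum.inr i) (Sum.inl j) = 0) ∧
    ∀ i j : Fin n, j ≤ i → M.val (Sum.inr i) (Sum.inr j) = (1 : Matrix (Fin n) (Fin n) (EE K)) i j := by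
  have h1 : IsUU (bA M)ᵀ := v1_upinv hM.2 (v1_DA hM).1
  refine ⟨fun i j hij => ?_, fun i j => ?_, fun i j hij => hM.2 i j hij⟩
  · have h2 : (bA M)ᵀ j i = (1 : Matrix (Fin n) (Fin n) (EE K)) j i := h1 j i hij
    have h3 : M.val (Sum.inl i) (Sum.inl j) = (bA M)ᵀ j i := rfl
    rw [h3, h2]
    by_cases h4 : i = j
    · rw [h4]
    · rw [Matrix.one_apply_ne h4, Matrix.one_apply_ne (Ne.symm h4)]
  · have h2 : bC M i j = 0 := by
      rw [hM.1]
      rfl
    exact h2

theorem nw_tri {M : SP n (EE K)} (hM : IsUS M) (p q : Fin n ⊕ Fin n) :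
    M.val p p = 1 ∧ (p ≠ q → rkS q ≤ rkS p → M.val q p = 0) := by
  obtain ⟨h1, h2, h3⟩ := nw3_val hM
  rcases p with j | j
  · refine ⟨by rw [h1 j j le_rfl, Matrix.one_apply_eq], ?_⟩
    rcases q with i | i
    · intro hpq hr
      have hr' : n + (i : ℕ) ≤ n + j := hr
      have hij : i ≤ j := Fin.le_def.2 (by omega)
      rw [h1 i j hij, Matrix.one_apply_ne]
      exact fun h => hpq (congrArg Sum.inl h.symm)
    · intro _ _
      exact h2 i j
  · refine ⟨by rw [h3 j j le_rfl, Matrix.one_apply_eq], ?_⟩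
    rcases q with i | i
    · intro _ hr
      have hr' : n + (i : ℕ) ≤ n - 1 - j := hr
      have := j.2
      omega
    · intro hpq hr
      have hr' : n - 1 - (i : ℕ) ≤ n - 1 - j := hr
      have := j.2
      have := i.2
      have hij : j ≤ i := Fin.le_def.2 (by omega)
      rw [h3 i j hij, Matrix.one_apply_ne]
      exact fun h => hpq (congrArg Sum.inr h.symm)

theorem nw3_mul (r : Fin n ⊕ Fin n → K) (x M : SP n (EE K)) (p : Fin n ⊕ Fin n) :
    rwS r (x * M) p = ∑ q, rwS r x q * M.val q p := by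
  unfold rwS
  rw [SP.val_mul, ← Matrix.vecMul_vecMul]
  rfl

theorem nw_depM [NeZero n] {M : SP n (EE K)} (hM : IsUS M) (p : Fin n ⊕ Fin n) (t t' : TI n → EE K) (r r' : Fin n ⊕ Fin n → K)
    (ht : ∀ i, (∀ q : PP n, rkS q.1 < rkS p → i ≠ eS q) → t i = t' i) (hr : ∀ q, rkS p ≤ rkS q → r q = r' q) :
    rwS r (uT t * M) p = rwS r' (uT t' * M) p := by
  rw [nw3_mul, nw3_mul]
  refine Finset.sum_congr rfl fun q _ => ?_
  rcases lt_or_ge (rkS q) (rkS p) with h1 | h1
  · have h2 : p ≠ q := fun h => by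
      rw [h] at h1
      exact lt_irrefl _ h1
    rw [(nw_tri hM p q).2 h2 h1.le, mul_zero, mul_zero]
  · rw [nw_dep q t t' r r' (fun i hi => ht i fun q' hq' => hi q' (lt_of_lt_of_le hq' h1))
      fun q' hq' => hr q' (le_trans h1 hq')]

theorem nw_affM [NeZero n] {M : SP n (EE K)} (hM : IsUS M) (p : PP n) (t : TI n → EE K) (r : Fin n ⊕ Fin n → K) (x : EE K) (y : K) :
    rwS (Function.update r p.1 y) (uT (Function.update t (eS p) x) * M) p.1 =
      mixedEmbedding K y + rwS (Function.update r p.1 0) (uT (Function.update t (eS p) 0) * M) p.1 +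
        sgS p.1 * x * mixedEmbedding K (r (Sum.inl (ls n))) := by
  rw [nw3_mul, nw3_mul, ← Finset.add_sum_erase _ _ (Finset.mem_univ p.1),
    ← Finset.add_sum_erase (a := p.1) _ (fun q => rwS (Function.update r p.1 0) (uT (Function.update t (eS p) 0)) q * M.val q p.1)
      (Finset.mem_univ p.1), (nw_tri hM p.1 p.1).1, nw_aff p t r x y]
  have h : ∑ q ∈ Finset.univ.erase p.1, rwS (Function.update r p.1 y) (uT (Function.update t (eS p) x)) q * M.val q p.1 =
      ∑ q ∈ Finset.univ.erase p.1, rwS (Function.update r p.1 0) (uT (Function.update t (eS p) 0)) q * M.val q p.1 := by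
    refine Finset.sum_congr rfl fun q hq => ?_
    have h0 : p.1 ≠ q := (Finset.mem_erase.1 hq).1.symm
    rcases le_or_gt (rkS q) (rkS p.1) with h1 | h1
    · rw [(nw_tri hM p.1 q).2 h0 h1, mul_zero, mul_zero]
    · congr 1
      refine nw_dep q _ _ _ _ (fun i hi => ?_) fun q' hq' => ?_
      · have h2 := hi p h1
        rw [Function.update_of_ne h2, Function.update_of_ne h2]
      · have h2 : q' ≠ p.1 := fun h => by
          rw [h] at hq'
          exact absurd h1 (not_lt.2 hq')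
        rw [Function.update_of_ne h2, Function.update_of_ne h2]
  rw [h]
  ring

theorem nw_ls [NeZero n] {M : SP n (EE K)} (hM : IsUS M) (t : TI n → EE K) (r : Fin n ⊕ Fin n → K) :
    rwS r (uT t * M) (Sum.inl (ls n)) = mixedEmbedding K (r (Sum.inl (ls n))) := by
  rw [nw3_mul, Finset.sum_eq_single (Sum.inl (ls n))]
  · rw [(nw_tri hM (Sum.inl (ls n)) (Sum.inl (ls n))).1, mul_one, nw_inl, Finset.sum_eq_single (ls n)]
    · rw [nw_ai0 _ le_rfl, Matrix.one_apply_eq, mul_one]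
    · intro i _ hi
      rw [nw_ai0 _ (le_ls i), Matrix.one_apply_ne (Ne.symm hi), mul_zero]
    · intro h
      exact absurd (Finset.mem_univ _) h
  · intro q _ hq
    have h1 : rkS q ≤ rkS (Sum.inl (ls n)) := by
      rcases q with i | i
      · have h2 : (i : ℕ) ≤ ls n := le_ls i
        show n + (i : ℕ) ≤ n + ls n
        omega
      · show n - 1 - (i : ℕ) ≤ n + ls n
        omega
    rw [(nw_tri hM _ q).2 (Ne.symm hq) h1, mul_zero]
  · intro h
    exact absurd (Finset.mem_univ _) h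

theorem nw3_bdd {Ω : Set (SP n (EE K))} (hΩ : IsCompact Ω) :
    ∃ C : ℝ, 0 ≤ C ∧ ∀ ω ∈ Ω, ∀ q p, ‖(ω⁻¹).val q p‖ ≤ C := by
  have hc : Continuous fun ω : SP n (EE K) => fun qp : (Fin n ⊕ Fin n) × (Fin n ⊕ Fin n) => (ω⁻¹).val qp.1 qp.2 :=
    continuous_pi fun qp => (v2_val.comp continuous_inv).matrix_elem qp.1 qp.2
  obtain ⟨C, hC⟩ := hΩ.exists_bound_of_continuousOn hc.continuousOn
  refine ⟨max C 0, le_max_right _ _, fun ω hω q p => ?_⟩
  exact ((norm_le_pi_norm (fun qp : (Fin n ⊕ Fin n) × (Fin n ⊕ Fin n) => (ω⁻¹).val qp.1 qp.2) (q, p)).trans (hC ω hω)).trans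
    (le_max_left _ _)

/-- PROOF. `x = uT s m(a) ω`: `rwS r (uT t * x) = rwS r (uT t * uT s) m(a) ω`; multiply by `ω⁻¹` (entries bounded by `C`, `Ω⁻¹` compact): `(rwS r (uT t * uT s))_p a_j^(∓1)` is at most `2 n C ρ`. -/
theorem nw_rad {Ω : Set (SP n (EE K))} (hΩ : IsCompact Ω) : ∃ C : ℝ, 1 ≤ C ∧ ∀ a : Fin n → ℝ, (∀ i, 0 < a i) → ∀ x, InRangeS Ω a x → ∃ M : SP n (EE K), IsUS M ∧
    ∀ (t : TI n → EE K) (r : Fin n ⊕ Fin n → K) (ρ : ℝ), (∀ p, ‖rwS r (uT t * x) p‖ ≤ ρ) →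
      (∀ j, ‖rwS r (uT t * M) (Sum.inl j)‖ ≤ C * ρ * a j) ∧ ∀ j, ‖rwS r (uT t * M) (Sum.inr j)‖ ≤ C * ρ / a j := by
  obtain ⟨C, hC0, hC⟩ := nw3_bdd hΩ
  refine ⟨1 + 2 * n * C, ?_, ?_⟩
  · have : 0 ≤ 2 * (n : ℝ) * C := by positivity
    linarith
  rintro a ha x ⟨s, ω, hω, hx⟩
  refine ⟨uT s, isUS_uT s, fun t r ρ h => ?_⟩
  have hω1 : ω.val * (ω⁻¹).val = 1 := by
    rw [← SP.val_mul, mul_inv_cancel, SP.val_one]
  have key : rwS r (uT t * uT s) ᵥ* dgS a = rwS r (uT t * x) ᵥ* (ω⁻¹).val := by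
    unfold rwS
    rw [Matrix.vecMul_vecMul, Matrix.vecMul_vecMul, SP.val_mul, SP.val_mul, hx]
    congr 1
    calc (uT t).val * (uT s).val * dgS a = (uT t).val * ((uT s).val * dgS a) * (ω.val * (ω⁻¹).val) := by
          rw [hω1, Matrix.mul_one, Matrix.mul_assoc]
      _ = _ := by simp only [Matrix.mul_assoc]
  have hb : ∀ p, 0 ≤ ρ → ‖(rwS r (uT t * x) ᵥ* (ω⁻¹).val) p‖ ≤ (1 + 2 * n * C) * ρ := by
    intro p hρ
    have h1 : ‖(rwS r (uT t * x) ᵥ* (ω⁻¹).val) p‖ ≤ ∑ _q : Fin n ⊕ Fin n, ρ * C := by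
      show ‖∑ q, rwS r (uT t * x) q * (ω⁻¹).val q p‖ ≤ _
      refine (norm_sum_le _ _).trans (Finset.sum_le_sum fun q _ => ?_)
      exact (norm_mul_le _ _).trans (mul_le_mul (h q) (hC ω hω q p) (norm_nonneg _) hρ)
    rw [Finset.sum_const, Finset.card_univ, Fintype.card_sum, Fintype.card_fin, nsmul_eq_mul] at h1
    push_cast at h1
    nlinarith
  have hinl : ∀ j, (rwS r (uT t * uT s) ᵥ* dgS a) (Sum.inl j) = (a j)⁻¹ • rwS r (uT t * uT s) (Sum.inl j) := by
    intro j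
    rw [Algebra.smul_def, mul_comm]
    show ∑ q, rwS r (uT t * uT s) q * dgS a q (Sum.inl j) = _
    rw [Finset.sum_eq_single (Sum.inl j)]
    · unfold dgS
      rw [fromBlocks_apply₁₁, Matrix.diagonal_apply_eq]
    · intro q _ hq
      unfold dgS
      rcases q with i | i
      · rw [fromBlocks_apply₁₁, Matrix.diagonal_apply_ne, mul_zero]
        exact fun h => hq (congrArg Sum.inl h)
      · rw [fromBlocks_apply₂₁, Matrix.zero_apply, mul_zero]
    · intro h
      exact absurd (Finset.mem_univ _) h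
  have hinr : ∀ j, (rwS r (uT t * uT s) ᵥ* dgS a) (Sum.inr j) = a j • rwS r (uT t * uT s) (Sum.inr j) := by
    intro j
    rw [Algebra.smul_def, mul_comm]
    show ∑ q, rwS r (uT t * uT s) q * dgS a q (Sum.inr j) = _
    rw [Finset.sum_eq_single (Sum.inr j)]
    · unfold dgS
      rw [fromBlocks_apply₂₂, Matrix.diagonal_apply_eq]
    · intro q _ hq
      unfold dgS
      rcases q with i | i
      · rw [fromBlocks_apply₁₂, Matrix.zero_apply, mul_zero]
      · rw [fromBlocks_apply₂₂, Matrix.diagonal_apply_ne, mul_zero]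
        exact fun h => hq (congrArg Sum.inr h)
    · intro h
      exact absurd (Finset.mem_univ _) h
  refine ⟨fun j => ?_, fun j => ?_⟩
  · have hρ : 0 ≤ ρ := (norm_nonneg _).trans (h (Sum.inl j))
    have h1 := hb (Sum.inl j) hρ
    rw [← key, hinl, norm_smul, norm_inv, Real.norm_eq_abs, abs_of_pos (ha j), inv_mul_le_iff₀ (ha j)] at h1
    linarith
  · have hρ : 0 ≤ ρ := (norm_nonneg _).trans (h (Sum.inr j))
    have h1 := hb (Sum.inr j) hρ
    rw [← key, hinr, norm_smul, Real.norm_eq_abs, abs_of_pos (ha j)] at h1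
    rw [le_div_iff₀ (ha j)]
    linarith

end

end Pool.Agent.Lib.H67G
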