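import Pool.Agent.Lib.H67G.S0
import Pool.Agent.Lib.H33W.T4

/-!
# Q1 (M): the volume of the box
-/

namespace Pool.Agent.Lib.H67G

open MeasureTheory Matrix NumberField IsDedekindDomain Pool.Agent.Lib.H89N Pool.Agent.Lib.H33W
open scoped ENNReal Pointwise

noncomputable section

set_option linter.unusedSectionVars false

variable {n : ℕ} {K : Type} [Field K] [NumberField K]

/-- The exponent of `v`. -/
def q1_e (n k : ℕ) : TI n → ℕ
  | Sum.inl p => if (p.1.2 : ℕ) + 1 = n then (if (p.1.1 : ℕ) + 1 = n then 2 * k else k) else 0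
  | Sum.inr p => if (p.1.2 : ℕ) + 1 = n then k else 0

theorem q1_norm {𝔪 : Ideal (𝓞 K)} (v : HeightOneSpectrum (𝓞 K)) (k : ℕ) (p : TI n) :
    (Ideal.absNorm (dI 𝔪 v k p) : ℝ≥0∞) = (Ideal.absNorm 𝔪 : ℝ≥0∞) * (Ideal.absNorm v.asIdeal : ℝ≥0∞) ^ q1_e n k p := by
  rcases p with p | p
  · unfold dI q1_e
    by_cases h1 : (p.1.2 : ℕ) + 1 = n
    · by_cases h2 : (p.1.1 : ℕ) + 1 = n
      · simp only [h1, h2, if_true, map_mul, map_pow, Nat.cast_mul, Nat.cast_pow]
      · simp only [h1, h2, if_true, if_false, map_mul, map_pow, Nat.cast_mul, Nat.cast_pow]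
    · simp only [h1, if_false, pow_zero, mul_one]
  · unfold dI q1_e cI
    by_cases h1 : (p.1.2 : ℕ) + 1 = n
    · simp only [h1, if_true, map_mul, map_pow, Nat.cast_mul, Nat.cast_pow]
    · simp only [h1, if_false, pow_zero, mul_one]

theorem q1_ne {𝔪 : Ideal (𝓞 K)} (h𝔪 : 𝔪 ≠ ⊥) (v : HeightOneSpectrum (𝓞 K)) (k : ℕ) (p : TI n) : dI 𝔪 v k p ≠ ⊥ := by
  have hv : ∀ j, 𝔪 * v.asIdeal ^ j ≠ ⊥ := fun j => mul_ne_zero h𝔪 (pow_ne_zero j v.ne_bot)
  rcases p with p | p
  · unfold dI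
    dsimp only
    split_ifs
    · exact hv _
    · exact hv _
    · exact h𝔪
  · unfold dI cI
    dsimp only
    split_ifs
    · exact hv _
    · exact h𝔪

theorem q1_ls [NeZero n] (a : Fin n) : (a : ℕ) + 1 = n ↔ a = ls n := by
  unfold ls
  rw [Fin.ext_iff]
  have := a.2
  have := NeZero.pos n
  show (a : ℕ) + 1 = n ↔ (a : ℕ) = n - 1
  omega

theorem q1_sumL [NeZero n] (k : ℕ) : ∑ p : SI n, q1_e n k (Sum.inl p) = n * k + k := by
  classical
  have e : ∑ p ∈ Finset.univ.filter (fun p : Fin n × Fin n => p.1 ≤ p.2),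
      (if (p.2 : ℕ) + 1 = n then (if (p.1 : ℕ) + 1 = n then 2 * k else k) else 0) = ∑ p : SI n, q1_e n k (Sum.inl p) :=
    Finset.sum_subtype (Finset.univ.filter fun p : Fin n × Fin n => p.1 ≤ p.2) (p := fun p : Fin n × Fin n => p.1 ≤ p.2)
      (by simp) (fun p : Fin n × Fin n => if (p.2 : ℕ) + 1 = n then (if (p.1 : ℕ) + 1 = n then 2 * k else k) else 0)
  refine e.symm.trans ?_
  rw [Finset.sum_filter, Fintype.sum_prod_type_right, Finset.sum_eq_single (ls n)]
  · have e1 : ∀ a : Fin n, (if (a, ls n).1 ≤ (a, ls n).2 then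
        (if ((a, ls n).2 : ℕ) + 1 = n then (if ((a, ls n).1 : ℕ) + 1 = n then 2 * k else k) else 0) else 0) =
        k + if a = ls n then k else 0 := by
      intro a
      have h1 : a ≤ ls n := by
        show (a : ℕ) ≤ n - 1
        have := a.2
        omega
      rw [if_pos h1, if_pos ((q1_ls _).2 rfl)]
      by_cases h : a = ls n
      · rw [if_pos ((q1_ls a).2 h), if_pos h]
        ring
      · rw [if_neg fun h' => h ((q1_ls a).1 h'), if_neg h, add_zero]
    rw [Finset.sum_congr rfl fun a _ => e1 a, Finset.sum_add_distrib]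
    simp
  · intro b _ hb
    refine Finset.sum_eq_zero fun a _ => ?_
    have : ¬ ((a, b).2 : ℕ) + 1 = n := fun h => hb ((q1_ls b).1 h)
    rw [if_neg this, ite_self]
  · intro h
    exact absurd (Finset.mem_univ _) h

theorem q1_sumR [NeZero n] (k : ℕ) : ∑ p : UI n, q1_e n k (Sum.inr p) + k = n * k := by
  classical
  have e0 : ∑ p ∈ Finset.univ.filter (fun p : Fin n × Fin n => p.1 < p.2), (if (p.2 : ℕ) + 1 = n then k else 0) =
      ∑ p : UI n, q1_e n k (Sum.inr p) :=
    Finset.sum_subtype (Finset.univ.filter fun p : Fin n × Fin n => p.1 < p.2) (p := fun p : Fin n × Fin n => p.1 < p.2)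
      (by simp) (fun p : Fin n × Fin n => if (p.2 : ℕ) + 1 = n then k else 0)
  rw [← e0, Finset.sum_filter, Fintype.sum_prod_type_right, Finset.sum_eq_single (ls n)]
  · have e2 : ∑ a : Fin n, (if a = ls n then k else 0) = k := by simp
    have e1 : ∀ a : Fin n, ((if (a, ls n).1 < (a, ls n).2 then (if ((a, ls n).2 : ℕ) + 1 = n then k else 0) else 0) +
        if a = ls n then k else 0) = k := by
      intro a
      rw [if_pos ((q1_ls (ls n)).2 rfl)]
      by_cases h : a = ls n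
      · have h1 : ¬ ((a, ls n).1 < (a, ls n).2) := by
          rw [h]
          exact lt_irrefl _
        rw [if_neg h1, if_pos h, zero_add]
      · have h1 : (a, ls n).1 < (a, ls n).2 := by
          refine lt_of_le_of_ne ?_ h
          show (a : ℕ) ≤ n - 1
          have := a.2
          omega
        rw [if_pos h1, if_neg h, add_zero]
    calc _ = ∑ a : Fin n, (if (a, ls n).1 < (a, ls n).2 then (if ((a, ls n).2 : ℕ) + 1 = n then k else 0) else 0) +
          ∑ a : Fin n, (if a = ls n then k else 0) := by rw [e2]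
      _ = n * k := by
          rw [← Finset.sum_add_distrib, Finset.sum_congr rfl fun a _ => e1 a]
          simp
  · intro b _ hb
    refine Finset.sum_eq_zero fun a _ => ?_
    have : ¬ ((a, b).2 : ℕ) + 1 = n := fun h => hb ((q1_ls b).1 h)
    rw [if_neg this, ite_self]
  · intro h
    exact absurd (Finset.mem_univ _) h

/-- PROOF. `vol_box`, `fi_vol`, the ideals `dI`: the number of the coordinates is `n^2` (`n (n+1)/2 + n (n-1)/2`), the exponents of `v`: `k` for `(j, n)`, `j < n` (twice: `inl` and `inr`), `2k` for `inl (n, n)`: total `2 n k`. Compute `∏_{p : SI n}` and `∏_{p : UI n}` separately: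
`∏_{p : UI n} (if p.1.2 = ls then Q else 1) = Q^(n-1)`, `∏_{p : SI n} (..) = Q^(n-1) Q^2`. -/
theorem q1_vol [NeZero n] {𝔪 : Ideal (𝓞 K)} (h𝔪 : 𝔪 ≠ ⊥) (v : HeightOneSpectrum (𝓞 K)) (k : ℕ) : volume (LB (dI (n := n) 𝔪 v k)) =
    (∏ _p : SI n, (Ideal.absNorm 𝔪 : ℝ≥0∞)) * (∏ _p : UI n, (Ideal.absNorm 𝔪 : ℝ≥0∞)) * (Ideal.absNorm v.asIdeal : ℝ≥0∞) ^ (2 * n * k) *
      ∏ _p : TI n, volume (FD K) := by
  have e1 : volume (LB (dI (n := n) 𝔪 v k)) = ∏ p : TI n, volume (FI (dI 𝔪 v k p)) := vol_box _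
  have e2 : ∀ p : TI n, volume (FI (dI 𝔪 v k p)) =
      (Ideal.absNorm 𝔪 : ℝ≥0∞) * (Ideal.absNorm v.asIdeal : ℝ≥0∞) ^ q1_e n k p * volume (FD K) := by
    intro p
    rw [fi_vol (q1_ne h𝔪 v k p), q1_norm]
  rw [e1, Finset.prod_congr rfl fun p _ => e2 p, Finset.prod_mul_distrib, Finset.prod_mul_distrib, Finset.prod_pow_eq_pow_sum,
    Fintype.prod_sum_type, Fintype.sum_sum_type]
  have h1 := q1_sumL (n := n) k
  have h2 := q1_sumR (n := n) k
  have h3 : ∑ p : SI n, q1_e n k (Sum.inl p) + ∑ p : UI n, q1_e n k (Sum.inr p) = 2 * n * k := by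
    rw [h1]
    calc n * k + k + ∑ p : UI n, q1_e n k (Sum.inr p) = n * k + (∑ p : UI n, q1_e n k (Sum.inr p) + k) := by ring
      _ = 2 * n * k := by rw [h2]; ring
  rw [h3]

end

end Pool.Agent.Lib.H67G
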