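import Pool.Agent.Lib.H67G.R0

/-!
# R1 (M): elements of G which map a point of S into S
-/

namespace Pool.Agent.Lib.H67G

open MeasureTheory Matrix NumberField IsDedekindDomain Pool.Agent.Lib.H89N Pool.Agent.Lib.H33W
open scoped ENNReal Pointwise

noncomputable section

set_option linter.unusedSectionVars false

variable {n : ℕ} {K : Type} [Field K] [NumberField K]

theorem r1_bdd {Q : Set (SP n (EE K))} (hQ : IsCompact Q) : ∃ B : ℝ, 1 ≤ B ∧ ∀ y ∈ Q, ∀ i l, ‖y.val i l‖ ≤ B := by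
  have h1 : ∀ p : (Fin n ⊕ Fin n) × (Fin n ⊕ Fin n), ∃ C : ℝ, ∀ y ∈ Q, ‖y.val p.1 p.2‖ ≤ C := by
    intro p
    obtain ⟨C, hC⟩ := hQ.exists_bound_of_continuousOn
      (f := fun y : SP n (EE K) => y.val p.1 p.2) (v2_val.matrix_elem p.1 p.2).continuousOn
    exact ⟨C, hC⟩
  choose C hC using h1
  refine ⟨1 + ∑ p, |C p|, ?_, ?_⟩
  · have : 0 ≤ ∑ p, |C p| := Finset.sum_nonneg fun p _ => abs_nonneg _
    linarith
  · intro y hy i l
    have h2 := hC (i, l) y hy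
    have h3 : |C (i, l)| ≤ ∑ p, |C p| :=
      Finset.single_le_sum (f := fun p => |C p|) (fun p _ => abs_nonneg _) (Finset.mem_univ (i, l))
    have h4 := le_abs_self (C (i, l))
    simp only at h2
    linarith

theorem r1_ma (a : Fin n → ℝ) (ha : ∀ i, 0 < a i) :
    bA (maS (K := K) a ha) = (diagonal fun i => algebraMap ℝ (EE K) (a i)⁻¹) ∧ bB (maS (K := K) a ha) = 0 ∧
    bC (maS (K := K) a ha) = 0 ∧ bD (maS (K := K) a ha) = (diagonal fun i => algebraMap ℝ (EE K) (a i)) := by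
  apply v1_blocks
  rfl

theorem r1_kap (a : Fin n → ℝ) (ha : ∀ i, 0 < a i) (x : SP n (EE K)) :
    (∀ i j, bC (maS a ha * x * (maS a ha)⁻¹) i j = (a i * a j) • bC x i j) ∧
    ∀ i j, bD (maS a ha * x * (maS a ha)⁻¹) i j = (a i / a j) • bD x i j := by
  obtain ⟨e1, e2, e3, e4⟩ := r1_ma (K := K) a ha
  obtain ⟨i1, i2, i3, i4⟩ := bl_inv (maS (K := K) a ha)
  rw [e4, diagonal_transpose] at i1
  rw [e2, Matrix.transpose_zero, neg_zero] at i2
  rw [e3, Matrix.transpose_zero, neg_zero] at i3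
  rw [e1, diagonal_transpose] at i4
  obtain ⟨-, -, m3, m4⟩ := bl_mul (maS a ha) x
  rw [e3, e4, Matrix.zero_mul, zero_add] at m3 m4
  obtain ⟨-, -, n3, n4⟩ := bl_mul (maS a ha * x) (maS a ha)⁻¹
  rw [m3, m4, i1, i3, Matrix.mul_zero, add_zero] at n3
  rw [m3, m4, i2, i4, Matrix.mul_zero, zero_add] at n4
  refine ⟨fun i j => ?_, fun i j => ?_⟩
  · rw [n3, Matrix.mul_diagonal, Matrix.diagonal_mul, Algebra.smul_def, map_mul]
    ring
  · rw [n4, Matrix.mul_diagonal, Matrix.diagonal_mul, Algebra.smul_def, div_eq_mul_inv, map_mul]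
    ring

/-- PROOF. `y = uT t m(a) ω`, `g y = uT t' m(a) ω'` (`inR_iff`), so `g = uT t' κ (uT t)⁻¹`, `κ = m(a) (ω' ω⁻¹) m(a)⁻¹`, `ω' ω⁻¹ ∈ Ω Ω⁻¹` compact with entries bounded by `B` (`r1_bdd`). The blocks of `κ`: `C_κ i j = a_i (ω' ω⁻¹)_C i j a_j`, `D_κ i j = a_i (ω' ω⁻¹)_D i j a_j⁻¹` (`bl_mul`). -/
theorem r1_dec {Ω : Set (SP n (EE K))} (hΩ : IsCompact Ω) : ∃ B : ℝ, 1 ≤ B ∧ ∀ a : Fin n → ℝ, (∀ i, 0 < a i) → ∀ y, InRangeS Ω a y →
    ∀ g : SP n (EE K), InRangeS Ω a (g * y) → ∃ u u' κ : SP n (EE K), IsUS u ∧ IsUS u' ∧ g = u' * κ * u ∧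
      (∀ i j, ‖bC κ i j‖ ≤ B * (a i * a j)) ∧ ∀ i j, ‖bD κ i j‖ ≤ B * (a i / a j) := by
  obtain ⟨B, hB1, hB⟩ := r1_bdd (hΩ.mul hΩ.inv)
  refine ⟨B, hB1, ?_⟩
  intro a ha y hy g hg
  obtain ⟨t, ω, hω, ht⟩ := (inR_iff ha).mp hy
  obtain ⟨t', ω', hω', ht'⟩ := (inR_iff ha).mp hg
  have hmem : ω' * ω⁻¹ ∈ Ω * Ω⁻¹ := Set.mul_mem_mul hω' (Set.inv_mem_inv.mpr hω)
  have hb := hB _ hmem
  obtain ⟨k1, k2⟩ := r1_kap a ha (ω' * ω⁻¹)
  refine ⟨(uT t)⁻¹, uT t', maS a ha * (ω' * ω⁻¹) * (maS a ha)⁻¹, isUS_inv (isUS_uT t), isUS_uT t', ?_, ?_, ?_⟩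
  · have h1 : g = g * y * y⁻¹ := by group
    rw [h1, ht', ht]
    group
  · intro i j
    rw [k1, norm_smul, Real.norm_of_nonneg (mul_pos (ha i) (ha j)).le, mul_comm]
    exact mul_le_mul_of_nonneg_right (hb (Sum.inr i) (Sum.inl j)) (mul_pos (ha i) (ha j)).le
  · intro i j
    rw [k2, norm_smul, Real.norm_of_nonneg (div_pos (ha i) (ha j)).le, mul_comm]
    exact mul_le_mul_of_nonneg_right (hb (Sum.inr i) (Sum.inr j)) (div_pos (ha i) (ha j)).le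

/-- The last row of a point of `S` is short. PROOF. `y = uT t m(a) ω`; the last row of `uT t` is the last unit vector (`uT_bl`), so the last row of `y` is `a_n` times the last row of `ω`. -/
theorem r1_last [NeZero n] {Ω : Set (SP n (EE K))} (hΩ : IsCompact Ω) : ∃ B : ℝ, 1 ≤ B ∧ ∀ a : Fin n → ℝ, (∀ i, 0 < a i) → ∀ y, InRangeS Ω a y →
    ∀ p, ‖y.val (Sum.inr (ls n)) p‖ ≤ B * a (ls n) := by
  obtain ⟨B, hB1, hB⟩ := r1_bdd hΩ
  refine ⟨B, hB1, ?_⟩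
  intro a ha y hy p
  obtain ⟨t, ω, hω, rfl⟩ := (inR_iff ha).mp hy
  obtain ⟨-, -, m3, m4⟩ := bl_mul (uT t) (maS a ha)
  obtain ⟨e1, e2, e3, e4⟩ := r1_ma (K := K) a ha
  have hu := isUS_uT (R := EE K) t
  have f3 : bC (uT t * maS a ha) = 0 := by
    rw [m3, hu.1, e3, Matrix.zero_mul, Matrix.mul_zero, add_zero]
  have f4 : bD (uT t * maS a ha) = bD (uT t) * diagonal fun i => algebraMap ℝ (EE K) (a i) := by
    rw [m4, hu.1, e4, Matrix.zero_mul, zero_add]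
  obtain ⟨-, -, n3, n4⟩ := bl_mul (uT t * maS a ha) ω
  rw [f3, f4, Matrix.zero_mul, zero_add] at n3 n4
  have hle : ∀ j : Fin n, j ≤ ls n := by
    intro j
    change (j : ℕ) ≤ n - 1
    have := j.2
    omega
  have key : ∀ M : Matrix (Fin n) (Fin n) (EE K), ∀ j, (bD (uT t) * (diagonal fun i => algebraMap ℝ (EE K) (a i)) * M) (ls n) j =
      a (ls n) • M (ls n) j := by
    intro M j
    rw [Matrix.mul_apply, Finset.sum_eq_single (ls n)]
    · rw [Matrix.mul_diagonal, hu.2 _ _ le_rfl, Matrix.one_apply_eq, one_mul, Algebra.smul_def]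
    · intro q _ hq
      rw [Matrix.mul_diagonal, hu.2 _ _ (hle q), Matrix.one_apply_ne hq.symm, zero_mul, zero_mul]
    · intro h
      exact absurd (Finset.mem_univ _) h
  rcases p with j | j
  · change ‖bC (uT t * maS a ha * ω) (ls n) j‖ ≤ _
    rw [n3, key, norm_smul, Real.norm_of_nonneg (ha _).le, mul_comm]
    exact mul_le_mul_of_nonneg_right (hB ω hω (Sum.inr (ls n)) (Sum.inl j)) (ha _).le
  · change ‖bD (uT t * maS a ha * ω) (ls n) j‖ ≤ _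
    rw [n4, key, norm_smul, Real.norm_of_nonneg (ha _).le, mul_comm]
    exact mul_le_mul_of_nonneg_right (hB ω hω (Sum.inr (ls n)) (Sum.inr j)) (ha _).le

end

end Pool.Agent.Lib.H67G
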