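import Pool.Agent.Lib.H67G.S2
import Pool.Agent.Lib.H67G.R1
import Pool.Agent.Lib.H33W.C12

/-!
# Q2 (M): the volume of the translates which meet Q
-/

namespace Pool.Agent.Lib.H67G

open MeasureTheory Matrix NumberField IsDedekindDomain Pool.Agent.Lib.H89N Pool.Agent.Lib.H33W
open scoped ENNReal Pointwise

noncomputable section

set_option linter.unusedSectionVars false

variable {n : ℕ} {K : Type} [Field K] [NumberField K]

/-- PORT of `H33W.c12_box` to the coordinates `TI n` (any finite index type). -/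
theorem q2_box : ∃ C : ℝ, 0 < C ∧ ∀ r : TI n → ℝ, (∀ p, 0 < r p) →
    volume {t : TI n → EE K | ∀ p, ‖t p‖ ≤ r p} ≤ ENNReal.ofReal (C * ∏ p, r p ^ Module.finrank ℚ K) := by
  have hc : (volume (Metric.ball (0 : EE K) 1)) ≠ ⊤ := measure_ball_lt_top.ne
  have hc0 : 0 < (volume (Metric.ball (0 : EE K) 1)).toReal :=
    ENNReal.toReal_pos (Metric.measure_ball_pos volume _ one_pos).ne' hc
  refine ⟨(volume (Metric.ball (0 : EE K) 1)).toReal ^ Fintype.card (TI n), pow_pos hc0 _, fun r hr => ?_⟩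
  have e : {t : TI n → EE K | ∀ p, ‖t p‖ ≤ r p} = {t | ∀ p, t p ∈ Metric.closedBall (0 : EE K) (r p)} := by
    ext t
    simp only [Set.mem_setOf_eq, mem_closedBall_zero_iff]
  rw [e, vol_box fun p => Metric.closedBall (0 : EE K) (r p)]
  refine le_of_eq ?_
  have e2 : ∀ p : TI n, volume (Metric.closedBall (0 : EE K) (r p)) =
      ENNReal.ofReal ((volume (Metric.ball (0 : EE K) 1)).toReal * r p ^ Module.finrank ℚ K) := by
    intro p
    rw [Measure.addHaar_closedBall _ _ (hr p).le, mixedEmbedding.finrank, mul_comm, ENNReal.ofReal_mul hc0.le,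
      ENNReal.ofReal_toReal hc]
  rw [Finset.prod_congr rfl fun p _ => e2 p, ← ENNReal.ofReal_prod_of_nonneg fun p _ => by
    have := hr p
    positivity]
  rw [Finset.prod_mul_distrib, Finset.prod_const, Finset.card_univ]

theorem q2_kap (a : Fin n → ℝ) (ha : ∀ i, 0 < a i) (x : SP n (EE K)) (i j : Fin n) :
    bB (maS a ha * x * (maS a ha)⁻¹) i j = (a i * a j)⁻¹ • bB x i j := by
  obtain ⟨e1, e2, e3, e4⟩ := r1_ma (K := K) a ha
  obtain ⟨i1, i2, i3, i4⟩ := bl_inv (maS (K := K) a ha)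
  rw [e2, Matrix.transpose_zero, neg_zero] at i2
  rw [e1, diagonal_transpose] at i4
  obtain ⟨-, m2, -, -⟩ := bl_mul (maS a ha) x
  rw [e1, e2, Matrix.zero_mul, add_zero] at m2
  obtain ⟨-, n2, -, -⟩ := bl_mul (maS a ha * x) (maS a ha)⁻¹
  rw [m2, i2, i4, Matrix.mul_zero, zero_add] at n2
  rw [n2, Matrix.mul_diagonal, Matrix.diagonal_mul, Algebra.smul_def, mul_inv, map_mul]
  ring

theorem q2_col {a : Fin n → ℝ} (ha : ∀ i, 0 < a i) {D B : Matrix (Fin n) (Fin n) (EE K)} {c : ℝ} (hc : 0 ≤ c)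
    (hD : ∀ i j, ‖D i j‖ ≤ c * (a i / a j)) (hB : ∀ i j, ‖B i j‖ ≤ c * (a i * a j)⁻¹) (i j : Fin n) :
    ‖(Dᵀ * B) i j‖ ≤ ((n + 1 : ℝ) * c ^ 2) * (a i * a j)⁻¹ := by
  have h0 : 0 ≤ c ^ 2 * (a i * a j)⁻¹ := mul_nonneg (sq_nonneg c) (inv_nonneg.2 (mul_pos (ha i) (ha j)).le)
  rw [Matrix.mul_apply]
  calc ‖∑ l, Dᵀ i l * B l j‖ ≤ ∑ l : Fin n, c ^ 2 * (a i * a j)⁻¹ := by
        refine norm_sum_le_of_le _ fun l _ => ?_
        refine (norm_mul_le _ _).trans ?_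
        refine (mul_le_mul (hD l i) (hB l j) (norm_nonneg _) (mul_nonneg hc (div_pos (ha l) (ha i)).le)).trans (le_of_eq ?_)
        have h1 := (ha l).ne'
        have h2 := (ha i).ne'
        have h3 := (ha j).ne'
        field_simp
    _ = (n : ℝ) * (c ^ 2 * (a i * a j)⁻¹) := by
        rw [Finset.sum_const, Finset.card_univ, Fintype.card_fin, nsmul_eq_mul]
    _ ≤ ((n + 1 : ℝ) * c ^ 2) * (a i * a j)⁻¹ := by
        nlinarith [h0]

/-- The radii. -/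
def q2_r (B : ℝ) (a : Fin n → ℝ) : TI n → ℝ
  | Sum.inl p => ((n + 1 : ℝ) * B ^ 2) * (a p.1.1 * a p.1.2)⁻¹
  | Sum.inr p => B * (a p.1.1 / a p.1.2)

/-- PORT of `H33W.q_two` (file C12). PROOF. Let `s₀` be in the set (otherwise the volume is `0`); for `s` in the set `uT (iT s) * z = (uT s)⁻¹ z = x ω₁`, `(uT s₀)⁻¹ z = x ω₀`, `x = uT τ m(a) ω` (`inR_iff`): `M = (uT τ)⁻¹ (uT s₀)⁻¹ uT s uT τ = m(a) κ m(a)⁻¹`, `κ = ω ω₀ ω₁⁻¹ ω⁻¹` in a compact set (entries at most `B`).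
`M ∈ U`, `M = m(a) κ m(a)⁻¹`: the entries `D_M i j = a_i κ_D i j / a_j` have norm at most `B a_i / a_j`, `B_M l j = κ_B l j / (a_l a_j)`; `cuS M (inl (i, j)) = ∑_l (D_M)_li (B_M)_lj` has norm at most `n B^2 / (a_i a_j)`. So `cuS M` is in a box of volume `≤ C ∏ (a_i a_j)^(-d) ∏ (a_i / a_j)^d` (`q2_box`).
`s ↦ cuS M = rT (uT τ) (lT ((uT τ)⁻¹ (uT s₀)⁻¹) s)` preserves the measure (`lT_mp`, `rT_mp`). -/
theorem q2_two {Ω Ω₁ : Set (SP n (EE K))} (hΩ : IsCompact Ω) (hΩ₁ : IsCompact Ω₁) : ∃ C : ℝ, 0 < C ∧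
    ∀ (a : Fin n → ℝ), (∀ i, 0 < a i) → ∀ x, InRangeS Ω a x → ∀ z : SP n (EE K),
    volume {s : TI n → EE K | uT (iT s) * z ∈ (fun y => x * y) '' Ω₁} ≤
      ENNReal.ofReal (C * (∏ p : SI n, ((a p.1.1 * a p.1.2) ^ Module.finrank ℚ K)⁻¹) * ∏ p : UI n, (a p.1.1 / a p.1.2) ^ Module.finrank ℚ K) := by
  obtain ⟨B, hB1, hB⟩ := r1_bdd (((hΩ.mul hΩ₁).mul hΩ₁.inv).mul hΩ.inv)
  obtain ⟨C, hC0, hC⟩ := q2_box (n := n) (K := K)
  have hB0 : 0 < B := lt_of_lt_of_le one_pos hB1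
  have hn0 : (0 : ℝ) < n + 1 := by positivity
  refine ⟨C * (∏ _p : SI n, ((n + 1 : ℝ) * B ^ 2) ^ Module.finrank ℚ K) * ∏ _p : UI n, B ^ Module.finrank ℚ K, by positivity, ?_⟩
  intro a ha x hx z
  rcases Set.eq_empty_or_nonempty {s : TI n → EE K | uT (iT s) * z ∈ (fun y => x * y) '' Ω₁} with he | ⟨s₀, hs₀⟩
  · rw [he, measure_empty]
    exact zero_le
  obtain ⟨τ, ω, hω, hx'⟩ := (inR_iff ha).1 hx
  obtain ⟨ω₀, hω₀, e₀⟩ := hs₀
  obtain ⟨A, hAd⟩ : ∃ A : SP n (EE K), A = (uT τ)⁻¹ * (uT s₀)⁻¹ := ⟨_, rfl⟩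
  have hA : IsUS A := by
    rw [hAd]
    exact isUS_mul (isUS_inv (isUS_uT τ)) (isUS_inv (isUS_uT s₀))
  have hT : MeasurePreserving (lT A) := lT_mp hA
  have hT' : MeasurePreserving (rT (uT τ) : (TI n → EE K) → TI n → EE K) := rT_mp (isUS_uT τ)
  have hTT : MeasurePreserving (rT (uT τ) ∘ lT A) := hT'.comp hT
  have hbx : MeasurableSet {t : TI n → EE K | ∀ p : TI n, ‖t p‖ ≤ q2_r B a p} := by
    have : IsClosed {t : TI n → EE K | ∀ p : TI n, ‖t p‖ ≤ q2_r B a p} := by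
      rw [Set.setOf_forall]
      exact isClosed_iInter fun p => isClosed_le ((continuous_apply p).norm) continuous_const
    exact this.measurableSet
  have hsub : {s : TI n → EE K | uT (iT s) * z ∈ (fun y => x * y) '' Ω₁} ⊆
      (rT (uT τ) ∘ lT A) ⁻¹' {t : TI n → EE K | ∀ p : TI n, ‖t p‖ ≤ q2_r B a p} := by
    rintro s ⟨ω₁, hω₁, e₁⟩ p
    have e₀' : x * ω₀ = (uT s₀)⁻¹ * z := by rw [← uT_iT]; exact e₀
    have e₁' : x * ω₁ = (uT s)⁻¹ * z := by rw [← uT_iT]; exact e₁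
    have hκ : ω * ω₀ * ω₁⁻¹ * ω⁻¹ ∈ Ω * Ω₁ * Ω₁⁻¹ * Ω⁻¹ :=
      Set.mul_mem_mul (Set.mul_mem_mul (Set.mul_mem_mul hω hω₀) (Set.inv_mem_inv.2 hω₁)) (Set.inv_mem_inv.2 hω)
    have hM : A * uT s * uT τ = maS a ha * (ω * ω₀ * ω₁⁻¹ * ω⁻¹) * (maS a ha)⁻¹ := by
      have e2 : uT s = z * ω₁⁻¹ * x⁻¹ := by
        have : z = uT s * (x * ω₁) := by rw [e₁', mul_inv_cancel_left]
        rw [this]
        group
      have e3 : (uT s₀)⁻¹ = x * ω₀ * z⁻¹ := by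
        rw [e₀']
        group
      rw [hAd, e2, e3, hx']
      group
    have hcu : (rT (uT τ) ∘ lT A) s = cuS (A * uT s * uT τ) := by
      show cuS (uT (lT A s) * uT τ) = _
      rw [uT_lT hA]
    have hbd := hB _ hκ
    have h1 := (r1_kap a ha (ω * ω₀ * ω₁⁻¹ * ω⁻¹)).2
    have h2 := q2_kap a ha (ω * ω₀ * ω₁⁻¹ * ω⁻¹)
    rw [← hM] at h1 h2
    have hD : ∀ i j, ‖bD (A * uT s * uT τ) i j‖ ≤ B * (a i / a j) := by
      intro i j
      rw [h1, norm_smul, Real.norm_of_nonneg (div_pos (ha i) (ha j)).le, mul_comm]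
      exact mul_le_mul_of_nonneg_right (hbd (Sum.inr i) (Sum.inr j)) (div_pos (ha i) (ha j)).le
    have hBB : ∀ i j, ‖bB (A * uT s * uT τ) i j‖ ≤ B * (a i * a j)⁻¹ := by
      intro i j
      have h3 : 0 ≤ (a i * a j)⁻¹ := inv_nonneg.2 (mul_pos (ha i) (ha j)).le
      rw [h2, norm_smul, Real.norm_of_nonneg h3, mul_comm]
      exact mul_le_mul_of_nonneg_right (hbd (Sum.inl i) (Sum.inr j)) h3
    show ‖(rT (uT τ) ∘ lT A) s p‖ ≤ q2_r B a p
    rw [hcu]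
    rcases p with p | p
    · exact q2_col ha hB0.le hD hBB p.1.1 p.1.2
    · exact hD p.1.1 p.1.2
  have hr : ∀ p : TI n, 0 < q2_r B a p := by
    rintro (p | p)
    · exact mul_pos (mul_pos hn0 (pow_pos hB0 2)) (inv_pos.2 (mul_pos (ha _) (ha _)))
    · exact mul_pos hB0 (div_pos (ha _) (ha _))
  refine (measure_mono hsub).trans ?_
  rw [hTT.measure_preimage hbx.nullMeasurableSet]
  refine (hC (q2_r B a) hr).trans ?_
  refine ENNReal.ofReal_le_ofReal (le_of_eq ?_)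
  rw [Fintype.prod_sum_type]
  have p1 : ∏ p : SI n, q2_r B a (Sum.inl p) ^ Module.finrank ℚ K =
      (∏ _p : SI n, ((n + 1 : ℝ) * B ^ 2) ^ Module.finrank ℚ K) * ∏ p : SI n, ((a p.1.1 * a p.1.2) ^ Module.finrank ℚ K)⁻¹ := by
    rw [← Finset.prod_mul_distrib]
    refine Finset.prod_congr rfl fun p _ => ?_
    show (((n + 1 : ℝ) * B ^ 2) * (a p.1.1 * a p.1.2)⁻¹) ^ Module.finrank ℚ K = _
    rw [mul_pow, inv_pow]
  have p2 : ∏ p : UI n, q2_r B a (Sum.inr p) ^ Module.finrank ℚ K =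
      (∏ _p : UI n, B ^ Module.finrank ℚ K) * ∏ p : UI n, (a p.1.1 / a p.1.2) ^ Module.finrank ℚ K := by
    rw [← Finset.prod_mul_distrib]
    exact Finset.prod_congr rfl fun p _ => mul_pow _ _ _
  rw [p1, p2]
  ring

end

end Pool.Agent.Lib.H67G
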