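import Pool.Agent.Lib.H67G.R6

/-!
# R7 (M): from the elements of Gamma to their last rows
-/

namespace Pool.Agent.Lib.H67G

open MeasureTheory Matrix NumberField IsDedekindDomain Pool.Agent.Lib.H89N Pool.Agent.Lib.H33W
open scoped ENNReal Pointwise

noncomputable section

set_option linter.unusedSectionVars false

variable {n : ℕ} {K : Type} [Field K] [NumberField K]

/-- the last row -/
def r7_row [NeZero n] (γ : SP n K) : Fin n ⊕ Fin n → K := fun p => γ.val (Sum.inr (ls n)) p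

theorem r7_ls [NeZero n] : ((ls n : Fin n) : ℕ) + 1 = n := by
  have := NeZero.pos n
  show n - 1 + 1 = n
  omega

theorem r7_ne [NeZero n] {j : Fin n} (hj : j ≠ ls n) : ¬ (j : ℕ) + 1 = n := by
  intro h
  apply hj
  apply Fin.ext
  show (j : ℕ) = n - 1
  omega

theorem r7_mono [NeZero n] {M M' T : ℝ} (hMM : M ≤ M') {𝔪 : Ideal (𝓞 K)} {v : HeightOneSpectrum (𝓞 K)} {k : ℕ} {a : Fin n → ℝ}
    (h : PrmS M' T 𝔪 v k a) : PrmS M T 𝔪 v k a := by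
  refine ⟨h.ne, h.hT, ?_, h.hk, h.tor⟩
  have hT0 : 0 ≤ T := by linarith [h.hT]
  exact (mul_le_mul_of_nonneg_right hMM hT0).trans h.hM

theorem r7_rowS [NeZero n] {𝔪 : Ideal (𝓞 K)} {v : HeightOneSpectrum (𝓞 K)} {k : ℕ} {Γ : Subgroup (SP n K)} (hG : GdS 𝔪 v k Γ)
    {γ : SP n K} (hγ : γ ∈ Γ) (h0 : bC γ (ls n) (ls n) ≠ 0) : RowS 𝔪 v k (r7_row γ) := by
  have hl := r7_ls (n := n)
  refine ⟨⟨h0, ?_⟩, fun j hj => ?_, ?_, fun j hj => ?_⟩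
  · have h := hG.entC γ hγ (ls n) (ls n)
    unfold CC at h
    rw [if_pos hl, if_pos hl] at h
    exact h
  · have h := hG.entC γ hγ (ls n) j
    unfold CC at h
    rw [if_pos hl, if_neg (r7_ne hj)] at h
    exact h
  · have h := hG.entD γ hγ (ls n) (ls n)
    unfold EC at h
    rw [if_pos hl, if_pos hl, Matrix.sub_apply, Matrix.one_apply_eq] at h
    exact h
  · have h := hG.entD γ hγ (ls n) j
    unfold EC at h
    rw [if_pos hl, if_neg (r7_ne hj), Matrix.sub_apply, Matrix.one_apply_ne (Ne.symm hj), sub_zero] at h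
    exact h

theorem r7_rw [NeZero n] (γ : SP n K) (x : SP n (EE K)) (p : Fin n ⊕ Fin n) :
    rwS (r7_row γ) x p = (embS γ * x).val (Sum.inr (ls n)) p := rfl

theorem r7_inj [NeZero n] {γ γ' : SP n K} (h : r7_row γ = r7_row γ') :
    (∀ j, bC (γ' * γ⁻¹) (ls n) j = 0) ∧ ∀ j, bD (γ' * γ⁻¹) (ls n) j = (1 : Matrix (Fin n) (Fin n) K) (ls n) j := by
  have h1 : ∀ p, (γ' * γ⁻¹).val (Sum.inr (ls n)) p = (1 : Matrix (Fin n ⊕ Fin n) (Fin n ⊕ Fin n) K) (Sum.inr (ls n)) p := by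
    intro p
    have h2 : (γ * γ⁻¹).val = 1 := by rw [mul_inv_cancel, SP.val_one]
    rw [← h2, SP.val_mul, SP.val_mul, Matrix.mul_apply, Matrix.mul_apply]
    refine Finset.sum_congr rfl fun q _ => ?_
    have h3 := congrFun h q
    unfold r7_row at h3
    rw [h3]
  refine ⟨fun j => ?_, fun j => ?_⟩
  · have h4 := h1 (Sum.inl j)
    rw [Matrix.one_apply_ne (by simp)] at h4
    exact h4
  · have h4 := h1 (Sum.inr j)
    rw [Matrix.one_apply] at h4 ⊢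
    simp only [Sum.inr.injEq] at h4
    exact h4

/-- PROOF. `M₀` the maximum of the constants of `r5_C` and `r6_U`, `B` from `r1_last`. The map `γ ↦ r_γ = γ.val (inr ls)` (last row). For `γ ∈ Γ`, `γ ∉ GJs 0 Γ`, `γ x ∈ F ∩ S`: `bC γ ≠ 0`, so `bC γ ls ls ≠ 0` (`r5_C`), `r_γ ∈ RowS` (`entC`, `entD` of `GdS`), `rwS r_γ x` is the last row of `embS γ * x`, of norm `≤ B a_n` (`r1_last`).
The map is injective on the set of these `γ`: if `r_γ = r_γ'`, put `δ = γ' γ⁻¹ ∈ Γ`; the last row of `δ` is `r_γ' γ⁻¹ = r_γ γ⁻¹ = (0, .., 0, 1)`, `δ (γ x) = γ' x`, so `IsUS δ` (`r6_U`) and `δ ∈ Γ ∩ U`, `γ x ∈ F`, `δ (γ x) ∈ F`, so `δ = 1` (`hF.fd`: uniqueness).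
So the sum over `γ` is at most the sum over the rows (`ENNReal.tsum_comp_le_tsum_of_injective` for the subtype). -/
theorem r7_nu [NeZero n] {Ω : Set (SP n (EE K))} (hΩ : IsCompact Ω) : ∃ M₀ C₁ : ℝ, 1 ≤ M₀ ∧ 0 < C₁ ∧ ∀ (T : ℝ) (𝔪 : Ideal (𝓞 K)) (v : HeightOneSpectrum (𝓞 K)) (k : ℕ)
    (a : Fin n → ℝ), PrmS M₀ T 𝔪 v k a → ∀ Γ : Subgroup (SP n K), GdS 𝔪 v k Γ → ∀ F : Set (SP n (EE K)), SF (Γ ⊓ UGS n K) F → ∀ x, InRangeS Ω a x →
      nuS Γ Ω a F x ≤ nu1 𝔪 v k (C₁ * a (ls n)) x := by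
  obtain ⟨M₁, hM₁, h5⟩ := r5_C (K := K) hΩ
  obtain ⟨M₂, hM₂, h6⟩ := r6_U (K := K) hΩ
  obtain ⟨B, hB, h1⟩ := r1_last (K := K) hΩ
  refine ⟨max M₁ M₂, B, hM₁.trans (le_max_left _ _), by linarith, ?_⟩
  intro T 𝔪 v k a hP Γ hG F hF x hx
  have hP1 := r7_mono (le_max_left M₁ M₂) hP
  have hP2 := r7_mono (le_max_right M₁ M₂) hP
  obtain ⟨A, hA⟩ : ∃ A : Set (SP n K), A = {γ | (γ ∈ Γ ∧ γ ∉ GJs 0 Γ) ∧ embS γ * x ∈ F ∧ InRangeS Ω a (embS γ * x)} := ⟨_, rfl⟩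
  obtain ⟨R, hR⟩ : ∃ R : Set (Fin n ⊕ Fin n → K), R = {r | RowS 𝔪 v k r ∧ ∀ p, ‖rwS r x p‖ ≤ B * a (ls n)} := ⟨_, rfl⟩
  have e1 : nuS Γ Ω a F x = ∑' γ : A, (1 : ℝ≥0∞) := by
    have : ∑' γ : A, (1 : ℝ≥0∞) = ∑' γ : SP n K, A.indicator (1 : SP n K → ℝ≥0∞) γ :=
      tsum_subtype A (1 : SP n K → ℝ≥0∞)
    rw [this]
    unfold nuS
    refine tsum_congr fun γ => ?_
    by_cases g1 : γ ∈ Γ ∧ γ ∉ GJs 0 Γ
    · by_cases g2 : embS γ * x ∈ F ∧ InRangeS Ω a (embS γ * x)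
      · rw [Set.indicator_of_mem (show γ ∈ (Γ : Set (SP n K)) \ (GJs 0 Γ : Set (SP n K)) from g1),
          Set.indicator_of_mem (show embS γ * x ∈ F ∩ {x | InRangeS Ω a x} from g2),
          Set.indicator_of_mem (show γ ∈ A by rw [hA]; exact ⟨g1, g2⟩)]
        simp
      · rw [Set.indicator_of_notMem (show embS γ * x ∉ F ∩ {x | InRangeS Ω a x} from g2),
          Set.indicator_of_notMem (show γ ∉ A by rw [hA]; exact fun h => g2 h.2), mul_zero]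
    · rw [Set.indicator_of_notMem (show γ ∉ (Γ : Set (SP n K)) \ (GJs 0 Γ : Set (SP n K)) from g1),
        Set.indicator_of_notMem (show γ ∉ A by rw [hA]; exact fun h => g1 h.1), zero_mul]
  have e2 : nu1 𝔪 v k (B * a (ls n)) x = ∑' r : R, (1 : ℝ≥0∞) := by
    have : ∑' r : R, (1 : ℝ≥0∞) = ∑' r : Fin n ⊕ Fin n → K, R.indicator (1 : (Fin n ⊕ Fin n → K) → ℝ≥0∞) r :=
      tsum_subtype R (1 : (Fin n ⊕ Fin n → K) → ℝ≥0∞)
    rw [this, hR]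
    rfl
  rw [e1, e2]
  have hmem : ∀ γ : A, r7_row γ.1 ∈ R := by
    rintro ⟨γ, hγ⟩
    rw [hA] at hγ
    obtain ⟨⟨g1, g2⟩, g3, g4⟩ := hγ
    rw [hR]
    have h0 : bC γ (ls n) (ls n) ≠ 0 := by
      rcases h5 T 𝔪 v k a hP1 Γ hG γ g1 x hx g4 with h | h
      · exact absurd (show γ ∈ GJs 0 Γ from ⟨g1, h, colJ_zero⟩) g2
      · exact h
    refine ⟨r7_rowS hG g1 h0, fun p => ?_⟩
    rw [r7_rw]
    exact h1 a hP.tor.pos _ g4 p
  have hinj : Function.Injective (fun γ : A => (⟨r7_row γ.1, hmem γ⟩ : R)) := by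
    rintro ⟨γ, hγ⟩ ⟨γ', hγ'⟩ h
    have hrow : r7_row γ = r7_row γ' := congrArg Subtype.val h
    obtain ⟨c1, c2⟩ := r7_inj hrow
    rw [hA] at hγ hγ'
    obtain ⟨⟨g1, g2⟩, g3, g4⟩ := hγ
    obtain ⟨⟨g1', g2'⟩, g3', g4'⟩ := hγ'
    have hδ : γ' * γ⁻¹ ∈ Γ := mul_mem g1' (inv_mem g1)
    have e3 : embS (γ' * γ⁻¹) * (embS γ * x) = embS γ' * x := by
      rw [← mul_assoc, ← map_mul, inv_mul_cancel_right]
    have hU := h6 T 𝔪 v k a hP2 Γ hG (γ' * γ⁻¹) hδ (embS γ * x) g4 (by rw [e3]; exact g4') c1 c2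
    obtain ⟨u, -, hu⟩ := hF.fd (embS γ * x)
    have k1 := hu (1 : (Γ ⊓ UGS n K : Subgroup (SP n K))) (by
      show (1 : (Γ ⊓ UGS n K : Subgroup (SP n K))) • (embS γ * x) ∈ F
      rw [one_smul]
      exact g3)
    have k2 := hu (⟨γ' * γ⁻¹, hδ, hU⟩ : (Γ ⊓ UGS n K : Subgroup (SP n K))) (by
      show embS (γ' * γ⁻¹) * (embS γ * x) ∈ F
      rw [e3]
      exact g3')
    have k3 : γ' * γ⁻¹ = 1 := congrArg Subtype.val (k2.trans k1.symm)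
    apply Subtype.ext
    show γ = γ'
    exact (mul_inv_eq_one.1 k3).symm
  exact ENNReal.tsum_comp_le_tsum_of_injective hinj fun _ => (1 : ℝ≥0∞)

end

end Pool.Agent.Lib.H67G
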