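import Pool.Agent.Lib.H67G.S5
import Pool.Agent.Lib.H67G.R7
import Pool.Agent.Lib.H67G.NF2
import Pool.Agent.Lib.H67G.Q1
import Pool.Agent.Lib.H67G.Q2

/-!
# Q3 (M/L): the large sieve
-/

namespace Pool.Agent.Lib.H67G

open MeasureTheory Matrix NumberField IsDedekindDomain Pool.Agent.Lib.H89N Pool.Agent.Lib.H33W
open scoped ENNReal Pointwise

noncomputable section

set_option linter.unusedSectionVars false

variable {n : ℕ} {K : Type} [Field K] [NumberField K]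

/-- **The large sieve inequality for `Γ`** (the statement). -/
def LSSp (n : ℕ) [NeZero n] (K : Type) [Field K] [NumberField K] : Prop :=
  ∀ (μ : Measure (SP n (EE K))) [μ.IsHaarMeasure] (Ω Ω₁ : Set (SP n (EE K))), IsCompact Ω → IsCompact Ω₁ → ∃ C M₀ : ℝ, 0 < C ∧ 1 ≤ M₀ ∧
    ∀ (T : ℝ) (𝔪 : Ideal (𝓞 K)) (v : HeightOneSpectrum (𝓞 K)) (k : ℕ) (a : Fin n → ℝ), PrmS M₀ T 𝔪 v k a →
    ∀ (θ₀ : EE K →ₗ[ℝ] ℝ) (θ : Fin n → (EE K →ₗ[ℝ] ℝ)), ChI 𝔪 θ₀ θ → θ₀ ≠ 0 → (∀ i : Fin n, (i : ℕ) + 1 < n → θ i ≠ 0) →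
    ∀ Γ : Subgroup (SP n K), GdS 𝔪 v k Γ → ∀ h : SP n (EE K) → ℂ, Continuous h → (∀ γ ∈ Γ, ∀ x, h (embS γ * x) = h x) →
    ∀ F' : Set (SP n (EE K)), SF Γ F' → ∀ x, InRangeS Ω a x →
      ∫⁻ y in (fun y => x * y) '' Ω₁, ‖MnS (dI 𝔪 v k) θ₀ θ h y‖ₑ ^ 2 ∂μ ≤
        ENNReal.ofReal (C * (∏ p : SI n, ((a p.1.1 * a p.1.2) ^ Module.finrank ℚ K * (Ideal.absNorm 𝔪 : ℝ))⁻¹) *
          (∏ p : UI n, (a p.1.1 / a p.1.2) ^ Module.finrank ℚ K / (Ideal.absNorm 𝔪 : ℝ)) / (Ideal.absNorm v.asIdeal : ℝ) ^ (2 * n * k)) *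
          ∫⁻ y in F', ‖h y‖ₑ ^ 2 ∂μ

theorem q3_mono [NeZero n] {M₀ M₁ T : ℝ} {𝔪 : Ideal (𝓞 K)} {v : HeightOneSpectrum (𝓞 K)} {k : ℕ} {a : Fin n → ℝ} (h : M₀ ≤ M₁)
    (hP : PrmS M₁ T 𝔪 v k a) : PrmS M₀ T 𝔪 v k a :=
  ⟨hP.ne, hP.hT, (mul_le_mul_of_nonneg_right h (by linarith [hP.hT])).trans hP.hM, hP.hk, hP.tor⟩

theorem q3_le (𝔪 : Ideal (𝓞 K)) (v : HeightOneSpectrum (𝓞 K)) (k : ℕ) (p : TI n) : dI 𝔪 v k p ≤ 𝔪 := by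
  rcases p with p | p
  · unfold dI
    dsimp only
    split_ifs
    · exact Ideal.mul_le_left
    · exact Ideal.mul_le_left
    · exact le_rfl
  · unfold dI cI
    dsimp only
    split_ifs
    · exact Ideal.mul_le_left
    · exact le_rfl

theorem q3_cI {𝔪 : Ideal (𝓞 K)} (h𝔪 : 𝔪 ≠ ⊥) (v : HeightOneSpectrum (𝓞 K)) (k : ℕ) (l : Fin n) : cI 𝔪 v k l ≠ ⊥ := by
  unfold cI
  split_ifs
  · exact mul_ne_zero h𝔪 (pow_ne_zero _ v.ne_bot)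
  · exact h𝔪

/-- The final computation. -/
theorem q3_real {ι κ : Type} [Fintype ι] [Fintype κ] (C₀ C₂ V N q : ℝ) (A : ι → ℝ) (B : κ → ℝ) (e : ℕ) (hV : 0 < V) (hN : 0 < N) (hq : 0 < q) :
    (C₂ * (∏ p, (A p)⁻¹) * (∏ p, B p) * (1 + C₀)) / ((∏ _p : ι, N) * (∏ _p : κ, N) * q ^ e * V) =
      (C₂ * (1 + C₀) / V) * (∏ p, (A p * N)⁻¹) * (∏ p, B p / N) / q ^ e := by
  have e1 : ∏ p, (A p * N)⁻¹ = (∏ p, (A p)⁻¹) * (∏ _p : ι, N)⁻¹ := by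
    rw [← Finset.prod_inv_distrib, ← Finset.prod_mul_distrib]
    exact Finset.prod_congr rfl fun p _ => mul_inv _ _
  have e2 : ∏ p, B p / N = (∏ p, B p) * (∏ _p : κ, N)⁻¹ := by
    rw [← Finset.prod_inv_distrib, ← Finset.prod_mul_distrib]
    exact Finset.prod_congr rfl fun p _ => div_eq_mul_inv _ _
  have h1 : 0 < ∏ _p : ι, N := Finset.prod_pos fun _ _ => hN
  have h2 : 0 < ∏ _p : κ, N := Finset.prod_pos fun _ _ => hN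
  have h3 : 0 < q ^ e := pow_pos hq e
  rw [e1, e2]
  field_simp

/-- The mean number for all the points of `S`. PROOF. `M₀` the maximum of the constant of `r7_nu` and `2^d + 1`; `uT t * x ∈ S` (`inR_uT`), `r7_nu`, `nf_count` (`PrmS M₀ → PrmS 1`, `M₀ ≥ 1`). -/
theorem q3_count [NeZero n] {Ω : Set (SP n (EE K))} (hΩ : IsCompact Ω) : ∃ M₀ C : ℝ, 1 ≤ M₀ ∧ 0 < C ∧ (2 : ℝ) ^ Module.finrank ℚ K < M₀ ∧
    ∀ (T : ℝ) (𝔪 : Ideal (𝓞 K)) (v : HeightOneSpectrum (𝓞 K)) (k : ℕ) (a : Fin n → ℝ), PrmS M₀ T 𝔪 v k a →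
    ∀ Γ : Subgroup (SP n K), GdS 𝔪 v k Γ → ∀ F : Set (SP n (EE K)), SF (Γ ⊓ UGS n K) F → ∀ x, InRangeS Ω a x →
      ∫⁻ t in LB (dI (n := n) 𝔪 v k), nuS Γ Ω a F (uT t * x) ≤ ENNReal.ofReal C * volume (LB (dI (n := n) 𝔪 v k)) := by
  obtain ⟨M₀, C₁, hM, hC₁, h7⟩ := r7_nu (K := K) hΩ
  obtain ⟨C, hC, hcount⟩ := nf_count (K := K) hΩ hC₁
  refine ⟨max M₀ (2 ^ Module.finrank ℚ K + 1), C, hM.trans (le_max_left _ _), hC,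
    lt_of_lt_of_le (by linarith) (le_max_right _ _), ?_⟩
  intro T 𝔪 v k a hP Γ hG F hF x hx
  have hP0 : PrmS M₀ T 𝔪 v k a := q3_mono (le_max_left _ _) hP
  have hP1 : PrmS 1 T 𝔪 v k a := q3_mono hM hP0
  refine le_trans (lintegral_mono fun t => ?_) (hcount T 𝔪 v k a hP1 x hx)
  exact h7 T 𝔪 v k a hP0 Γ hG F hF (uT t * x) ((inR_uT t x).2 hx)

/-- PROOF. Let `Ω' = Ω * Ω₁`, `S = U m(a) Ω'`, `M₀`, `C₀` from `q3_count` for `Ω'`, `C₂` from `q2_two`. `F_U` a fundamental domain of `Γ ⊓ UGS` (`exists_sfS`, `gdS_den`). `ls_count` (with `Ω'`, `hne` from `r6_ne`, `𝔟 = cI 𝔪 v k`, `h𝔪`: `dI ≤ 𝔪`): `∫_{F_U} |Ψ|² ≤ (1 + C₀) ∫_{F'} |h|²`.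
`Ψ = MnS` on `Q = x Ω₁ ⊆ S` (`inR_mul`); `φ = ‖Ψ‖ₑ²` is invariant under `U` (`mnS_eq`, `inR_u`, `ee_norm`), so `avu_q` (with `avgS`, `sf_LB`, `sf_sub`): `vol(LB) ∫_Q φ = ∫_{F_U} φ(z) vol{s | uT (iT s) z ∈ Q} ≤ C₂ P ∫_{F_U} φ`, `P` the product of `q2_two`. Divide by `vol(LB)` (`q1_vol`, `FD_pos`, `FD_lt_top`).
(`Q` is compact, so measurable.) -/
theorem ls_sp (n : ℕ) [NeZero n] (K : Type) [Field K] [NumberField K] : LSSp n K := by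
  intro μ _ Ω Ω₁ hΩ hΩ₁
  obtain ⟨M₀, C₀, hM1, hC0, hM2, hcnt⟩ := q3_count (K := K) (hΩ.mul hΩ₁)
  obtain ⟨C₂, hC2, hq2⟩ := q2_two hΩ hΩ₁
  have hFD0 : 0 < (∏ _p : TI n, volume (FD K)).toReal := by
    refine ENNReal.toReal_pos ?_ ?_
    · rw [Finset.prod_const]
      exact pow_ne_zero _ FD_pos.ne'
    · rw [Finset.prod_const]
      exact ENNReal.pow_ne_top FD_lt_top.ne
  have hFDt : (∏ _p : TI n, volume (FD K)) ≠ ⊤ := by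
    rw [Finset.prod_const]
    exact ENNReal.pow_ne_top FD_lt_top.ne
  refine ⟨C₂ * (1 + C₀) / (∏ _p : TI n, volume (FD K)).toReal, M₀, by positivity, hM1, ?_⟩
  intro T 𝔪 v k a hP θ₀ θ hc hθ hθ' Γ hG h hh ih F' hF' x hx
  have ha : ∀ i, 0 < a i := hP.tor.pos
  obtain ⟨hden, hden0⟩ := gdS_den hG
  have hI := hG.hasI
  have hΩ' := hΩ.mul hΩ₁
  obtain ⟨F_U, hU⟩ := exists_sfS hden0 (Γ := Γ ⊓ UGS n K) fun γ hγ => hden γ (Subgroup.mem_inf.1 hγ).1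
  have hPs := psd_top hI hc (q3_le 𝔪 v k) hden0 hden hΩ' ha hh ih
  have hls := ls_count μ hI hc (q3_le 𝔪 v k) hden0 hden hθ hθ' (r6_ne hM2 hP hG) (𝔟 := cI 𝔪 v k) (fun p => rfl) (q3_cI hP.ne v k)
    hΩ' ha hh ih hF' hU (C := ENNReal.ofReal C₀) (fun y hy => hcnt T 𝔪 v k a hP Γ hG F_U hU y hy)
  have mQ : MeasurableSet ((fun y => x * y) '' Ω₁) := (hΩ₁.image (continuous_const_mul x)).isClosed.measurableSet
  have e1 : ∫⁻ y in (fun y => x * y) '' Ω₁, ‖MnS (dI 𝔪 v k) θ₀ θ h y‖ₑ ^ 2 ∂μ =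
      ∫⁻ y in (fun y => x * y) '' Ω₁, ‖Psi (dI 𝔪 v k) θ₀ θ (Ω * Ω₁) a h y‖ₑ ^ 2 ∂μ := by
    refine setLIntegral_congr_fun mQ ?_
    rintro y ⟨w, hw, rfl⟩
    have hr : InRangeS (Ω * Ω₁) a (x * w) := inR_mul hx hw
    show ‖MnS (dI 𝔪 v k) θ₀ θ h (x * w)‖ₑ ^ 2 = ‖Psi (dI 𝔪 v k) θ₀ θ (Ω * Ω₁) a h (x * w)‖ₑ ^ 2
    unfold Psi
    rw [Set.indicator_of_mem (show x * w ∈ {x | InRangeS (Ω * Ω₁) a x} from hr)]
  rw [e1]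
  generalize hΨ : Psi (dI 𝔪 v k) θ₀ θ (Ω * Ω₁) a h = Ψ at hPs hls
  have uΨ : ∀ (t : TI n → EE K) y, ‖Ψ (uT t * y)‖ₑ = ‖Ψ y‖ₑ := by
    intro t y
    rw [hPs.eq _ (isUS_uT t), enorm_mul]
    have : ‖ee (chS θ₀ θ (cuS (uT t)))‖ₑ = 1 := by
      rw [← ofReal_norm, ee_norm, ENNReal.ofReal_one]
    rw [this, one_mul]
  have hav := avu_q (avgS μ) (sf_LB hI) (sf_sub.1 hU) (φ := fun y => ‖Ψ y‖ₑ ^ 2) (hPs.meas.enorm.pow_const 2)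
    (fun γ hγ y => by
      have hm : (γ : SP n K) ∈ Γ ⊓ UGS n K := Subgroup.mem_inf.2 ⟨hγ, γ.2⟩
      have h1 : Ψ (embS (γ : SP n K) * y) = Ψ y := psd_inv hPs hm y
      show ‖Ψ (embS (γ : SP n K) * y)‖ₑ ^ 2 = _
      rw [h1]) (fun t y => by
      show ‖Ψ (uT t * y)‖ₑ ^ 2 = _
      rw [uΨ]) mQ
  have hN0 : (0 : ℝ) < Ideal.absNorm 𝔪 := by
    have : Ideal.absNorm 𝔪 ≠ 0 := fun h => hP.ne (Ideal.absNorm_eq_zero_iff.1 h)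
    exact_mod_cast Nat.pos_of_ne_zero this
  have hq0 : (0 : ℝ) < Ideal.absNorm v.asIdeal := by
    have : Ideal.absNorm v.asIdeal ≠ 0 := fun h => v.ne_bot (Ideal.absNorm_eq_zero_iff.1 h)
    exact_mod_cast Nat.pos_of_ne_zero this
  obtain ⟨L, hLd⟩ : ∃ L : ℝ, L = (∏ _p : SI n, (Ideal.absNorm 𝔪 : ℝ)) * (∏ _p : UI n, (Ideal.absNorm 𝔪 : ℝ)) *
    (Ideal.absNorm v.asIdeal : ℝ) ^ (2 * n * k) * (∏ _p : TI n, volume (FD K)).toReal := ⟨_, rfl⟩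
  have hL0 : 0 < L := by
    rw [hLd]
    exact mul_pos (mul_pos (mul_pos (Finset.prod_pos fun _ _ => hN0) (Finset.prod_pos fun _ _ => hN0)) (pow_pos hq0 _)) hFD0
  have hLB : volume (LB (dI (n := n) 𝔪 v k)) = ENNReal.ofReal L := by
    rw [q1_vol hP.ne v k, hLd, ENNReal.ofReal_mul (by positivity), ENNReal.ofReal_toReal hFDt, ENNReal.ofReal_mul (by positivity),
      ENNReal.ofReal_mul (by positivity), ENNReal.ofReal_prod_of_nonneg (fun _ _ => hN0.le),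
      ENNReal.ofReal_prod_of_nonneg (fun _ _ => hN0.le), ENNReal.ofReal_pow hq0.le, ENNReal.ofReal_natCast, ENNReal.ofReal_natCast]
  have hbound : volume (LB (dI (n := n) 𝔪 v k)) * ∫⁻ y in (fun y => x * y) '' Ω₁, ‖Ψ y‖ₑ ^ 2 ∂μ ≤
      ENNReal.ofReal (C₂ * (∏ p : SI n, ((a p.1.1 * a p.1.2) ^ Module.finrank ℚ K)⁻¹) * ∏ p : UI n, (a p.1.1 / a p.1.2) ^ Module.finrank ℚ K) *
        ∫⁻ z in F_U, ‖Ψ z‖ₑ ^ 2 ∂μ := by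
    rw [hav, ← lintegral_const_mul _ (hPs.meas.enorm.pow_const 2)]
    refine lintegral_mono fun z => ?_
    show ‖Ψ z‖ₑ ^ 2 * volume {s : TI n → EE K | uT (iT s) * z ∈ (fun y => x * y) '' Ω₁} ≤ _
    rw [mul_comm]
    exact mul_le_mul_left (hq2 a ha x hx z) _
  have hP2 : 0 ≤ C₂ * (∏ p : SI n, ((a p.1.1 * a p.1.2) ^ Module.finrank ℚ K)⁻¹) * ∏ p : UI n, (a p.1.1 / a p.1.2) ^ Module.finrank ℚ K := by
    refine mul_nonneg (mul_nonneg hC2.le (Finset.prod_nonneg fun p _ => ?_)) (Finset.prod_nonneg fun p _ => ?_)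
    · exact inv_nonneg.2 (pow_nonneg (mul_pos (ha _) (ha _)).le _)
    · exact pow_nonneg (div_pos (ha _) (ha _)).le _
  refine s5_mul (volume (LB (dI (n := n) 𝔪 v k))) (LB_pos hI.ne) (LB_top hI.ne) (hbound.trans ?_)
  refine (mul_le_mul_right hls _).trans (le_of_eq ?_)
  have e2 : (1 : ℝ≥0∞) + ENNReal.ofReal C₀ = ENNReal.ofReal (1 + C₀) := by
    rw [ENNReal.ofReal_add zero_le_one hC0.le, ENNReal.ofReal_one]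
  rw [hLB, e2, ← mul_assoc, ← ENNReal.ofReal_mul hP2, ← mul_assoc, ← ENNReal.ofReal_mul hL0.le]
  congr 2
  rw [← q3_real C₀ C₂ (∏ _p : TI n, volume (FD K)).toReal (Ideal.absNorm 𝔪 : ℝ) (Ideal.absNorm v.asIdeal : ℝ)
    (fun p : SI n => (a p.1.1 * a p.1.2) ^ Module.finrank ℚ K) (fun p : UI n => (a p.1.1 / a p.1.2) ^ Module.finrank ℚ K) (2 * n * k)
    hFD0 hN0 hq0, ← hLd]
  rw [mul_div_cancel₀ _ hL0.ne']

end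

end Pool.Agent.Lib.H67G
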