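import Pool.Agent.Lib.H67G.S2

/-!
# R0: definitions for the rows
-/

namespace Pool.Agent.Lib.H67G

open MeasureTheory Matrix NumberField IsDedekindDomain Pool.Agent.Lib.H89N Pool.Agent.Lib.H33W
open scoped ENNReal Pointwise

noncomputable section

set_option linter.unusedSectionVars false

variable {n : ℕ} {K : Type} [Field K] [NumberField K]

/-- The possible last rows of the elements of `Γ` with `C ≠ 0`. -/
def RowS [NeZero n] (𝔪 : Ideal (𝓞 K)) (v : HeightOneSpectrum (𝓞 K)) (k : ℕ) (r : Fin n ⊕ Fin n → K) : Prop :=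
  (r (Sum.inl (ls n)) ≠ 0 ∧ Den 𝔪 v (2 * k) (r (Sum.inl (ls n)))) ∧ (∀ j, j ≠ ls n → Den 𝔪 v k (r (Sum.inl j))) ∧
    InI 𝔪 (r (Sum.inr (ls n)) - 1) ∧ ∀ j, j ≠ ls n → Den 𝔪 v k (r (Sum.inr j))

/-- The row `r x`. -/
def rwS (r : Fin n ⊕ Fin n → K) (x : SP n (EE K)) : Fin n ⊕ Fin n → EE K := (fun p => mixedEmbedding K (r p)) ᵥ* x.val

/-- The number of the rows `r ∈ RowS` with `|r x| ≤ ρ`. -/
def nu1 [NeZero n] (𝔪 : Ideal (𝓞 K)) (v : HeightOneSpectrum (𝓞 K)) (k : ℕ) (ρ : ℝ) (x : SP n (EE K)) : ℝ≥0∞ :=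
  ∑' r : Fin n ⊕ Fin n → K, {r : Fin n ⊕ Fin n → K | RowS 𝔪 v k r ∧ ∀ p, ‖rwS r x p‖ ≤ ρ}.indicator (1 : (Fin n ⊕ Fin n → K) → ℝ≥0∞) r

/-- The hypotheses on the parameters. -/
structure PrmS [NeZero n] (M₀ T : ℝ) (𝔪 : Ideal (𝓞 K)) (v : HeightOneSpectrum (𝓞 K)) (k : ℕ) (a : Fin n → ℝ) : Prop where
  ne : 𝔪 ≠ ⊥
  hT : 1 ≤ T
  hM : M₀ * T ≤ Ideal.absNorm 𝔪
  hk : (Ideal.absNorm v.asIdeal : ℝ) ^ (2 * k) ≤ T ^ (2 * n + 1)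
  tor : TorT K T a

end

end Pool.Agent.Lib.H67G
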