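import Pool.Agent.Lib.H67G.R0

/-!
# R4 (M): triangular decompositions (pure algebra)
-/

namespace Pool.Agent.Lib.H67G

open MeasureTheory Matrix NumberField IsDedekindDomain Pool.Agent.Lib.H89N Pool.Agent.Lib.H33W
open scoped ENNReal Pointwise

noncomputable section

set_option linter.unusedSectionVars false

variable {n : ℕ} {K : Type} [Field K] [NumberField K]

variable {R : Type} [CommRing R]

/-!
PROOFS. `g = u' κ u`, `C_u = C_{u'} = 0`, `D_u`, `D_{u'}` unipotent upper triangular, `A_u = D_u⁻ᵗ` unipotent lower triangular (`bl_mul`, `bl_rel`, `isUS_inv`): `C_g = D_{u'} C_κ A_u`, `C_κ = D_{u'}⁻¹ C_g A_u⁻¹`, so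
`(C_κ)_ij = ∑_{i' ≥ i, j' ≥ j} (D_{u'}⁻¹)_ii' (C_g)_i'j' (A_u⁻¹)_j'j`; all the terms vanish except the one with `(i', j') = (i, j)`, which is `(C_g)_ij`. If `C_g = 0` then `C_κ = 0` and `D_g = D_{u'} D_κ D_u`, `D_κ = D_{u'}⁻¹ D_g D_u⁻¹`,
`(D_κ)_ij = ∑_{i' ≥ i, j' ≤ j} (D_{u'}⁻¹)_ii' (D_g)_i'j' (D_u⁻¹)_j'j`.
-/

theorem r4_gen {P M Q : Matrix (Fin n) (Fin n) R} (hP : IsUU P) (hQ : IsUU Q) {i j : Fin n}
    (h : ∀ i' j' : Fin n, i ≤ i' → j ≤ j' → (i', j') ≠ (i, j) → M i' j' = 0) : (P * M * Qᵀ) i j = M i j := by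
  rw [Matrix.mul_apply, Finset.sum_eq_single j]
  · rw [Matrix.mul_apply, Finset.sum_eq_single i]
    · rw [transpose_apply, hP i i le_rfl, hQ j j le_rfl, one_apply_eq, one_apply_eq, one_mul, mul_one]
    · intro i' _ hi
      rcases lt_or_gt_of_ne hi with h1 | h1
      · rw [hP i i' h1.le, one_apply_ne h1.ne', zero_mul]
      · rw [h i' j h1.le le_rfl (fun e => hi (Prod.ext_iff.1 e).1), mul_zero]
    · intro h1
      exact absurd (Finset.mem_univ _) h1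
  · intro j' _ hj
    rw [transpose_apply]
    rcases lt_or_gt_of_ne hj with h1 | h1
    · rw [hQ j j' h1.le, one_apply_ne h1.ne', mul_zero]
    · rw [Matrix.mul_apply, Finset.sum_eq_zero, zero_mul]
      intro i' _
      rcases lt_or_ge i' i with h2 | h2
      · rw [hP i i' h2.le, one_apply_ne h2.ne', zero_mul]
      · rw [h i' j' h2 h1.le (fun e => hj (Prod.ext_iff.1 e).2), mul_zero]
  · intro h1
    exact absurd (Finset.mem_univ _) h1

theorem r4_gen2 {P M Q : Matrix (Fin n) (Fin n) R} (hP : IsUU P) (hQ : IsUU Q) {i j : Fin n}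
    (h : ∀ i' j' : Fin n, i ≤ i' → j' ≤ j → (i', j') ≠ (i, j) → M i' j' = 0) : (P * M * Q) i j = M i j := by
  rw [Matrix.mul_apply, Finset.sum_eq_single j]
  · rw [Matrix.mul_apply, Finset.sum_eq_single i]
    · rw [hP i i le_rfl, hQ j j le_rfl, one_apply_eq, one_apply_eq, one_mul, mul_one]
    · intro i' _ hi
      rcases lt_or_gt_of_ne hi with h1 | h1
      · rw [hP i i' h1.le, one_apply_ne h1.ne', zero_mul]
      · rw [h i' j h1.le le_rfl (fun e => hi (Prod.ext_iff.1 e).1), mul_zero]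
    · intro h1
      exact absurd (Finset.mem_univ _) h1
  · intro j' _ hj
    rcases lt_or_gt_of_ne hj with h1 | h1
    · rw [Matrix.mul_apply, Finset.sum_eq_zero, zero_mul]
      intro i' _
      rcases lt_or_ge i' i with h2 | h2
      · rw [hP i i' h2.le, one_apply_ne h2.ne', zero_mul]
      · rw [h i' j' h2 h1.le (fun e => hj (Prod.ext_iff.1 e).2), mul_zero]
    · rw [hQ j' j h1.le, one_apply_ne h1.ne', mul_zero]
  · intro h1
    exact absurd (Finset.mem_univ _) h1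

theorem r4_C {u u' κ g : SP n R} (hu : IsUS u) (hu' : IsUS u') (hg : g = u' * κ * u) {i j : Fin n}
    (h : ∀ i' j' : Fin n, i ≤ i' → j ≤ j' → (i', j') ≠ (i, j) → bC g i' j' = 0) : bC κ i j = bC g i j := by
  have hκ : κ = u'⁻¹ * g * u⁻¹ := by
    rw [hg, mul_assoc u' κ u, inv_mul_cancel_left, mul_inv_cancel_right]
  have e : bC κ = bD u'⁻¹ * bC g * (bD u)ᵀ := by
    rw [hκ, (bl_mul _ _).2.2.1, (isUS_inv hu).1, Matrix.mul_zero, add_zero, (bl_mul _ _).2.2.1, (isUS_inv hu').1,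
      Matrix.zero_mul, zero_add, (bl_inv u).1]
  rw [e]
  exact r4_gen (isUS_inv hu').2 hu.2 h

theorem r4_D {u u' κ g : SP n R} (hu : IsUS u) (hu' : IsUS u') (hg : g = u' * κ * u) (hC : bC g = 0) {i j : Fin n}
    (h : ∀ i' j' : Fin n, i ≤ i' → j' ≤ j → (i', j') ≠ (i, j) → bD g i' j' = 0) : bD κ i j = bD g i j := by
  have hκ : κ = u'⁻¹ * g * u⁻¹ := by
    rw [hg, mul_assoc u' κ u, inv_mul_cancel_left, mul_inv_cancel_right]
  have e : bD κ = bD u'⁻¹ * bD g * bD u⁻¹ := by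
    rw [hκ, (bl_mul _ _).2.2.2, (bl_mul _ _).2.2.1, (isUS_inv hu').1, hC, Matrix.zero_mul, Matrix.mul_zero, add_zero,
      Matrix.zero_mul, zero_add, (bl_mul _ _).2.2.2, (isUS_inv hu').1, Matrix.zero_mul, zero_add]
  rw [e]
  exact r4_gen2 (isUS_inv hu').2 (isUS_inv hu).2 h

open Classical in
/-- A maximal non-zero entry. PROOF. Take a non-zero entry with `i + j` maximal. -/
theorem r4_max {M : Matrix (Fin n) (Fin n) R} (h : M ≠ 0) :
    ∃ i j : Fin n, M i j ≠ 0 ∧ ∀ i' j' : Fin n, i ≤ i' → j ≤ j' → (i', j') ≠ (i, j) → M i' j' = 0 := by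
  have h1 : (Finset.univ.filter fun p : Fin n × Fin n => M p.1 p.2 ≠ 0).Nonempty := by
    by_contra hcon
    rw [Finset.not_nonempty_iff_eq_empty] at hcon
    refine h ?_
    ext i j
    by_contra hne
    have h2 : (i, j) ∈ (Finset.univ.filter fun p : Fin n × Fin n => M p.1 p.2 ≠ 0) :=
      Finset.mem_filter.2 ⟨Finset.mem_univ _, hne⟩
    rw [hcon] at h2
    exact absurd h2 (Finset.notMem_empty _)
  obtain ⟨⟨i, j⟩, h2, h3⟩ := Finset.exists_max_image _ (fun p : Fin n × Fin n => (p.1 : ℕ) + (p.2 : ℕ)) h1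
  refine ⟨i, j, (Finset.mem_filter.1 h2).2, fun i' j' hi hj hne => ?_⟩
  by_contra hM
  have h4 : (i' : ℕ) + (j' : ℕ) ≤ (i : ℕ) + (j : ℕ) := h3 (i', j') (Finset.mem_filter.2 ⟨Finset.mem_univ _, hM⟩)
  have h5 : (i : ℕ) ≤ i' := hi
  have h6 : (j : ℕ) ≤ j' := hj
  exact hne (Prod.ext (Fin.ext (by simp only; omega)) (Fin.ext (by simp only; omega)))

open Classical in
/-- The same for the entries below the diagonal. PROOF. Take a non-zero entry below the diagonal with `i - j` maximal; the entries `(i', j')`, `i ≤ i'`, `j' ≤ j` are below the diagonal. -/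
theorem r4_low {M : Matrix (Fin n) (Fin n) R} (h : ∃ i j : Fin n, j < i ∧ M i j ≠ 0) :
    ∃ i j : Fin n, j < i ∧ M i j ≠ 0 ∧ ∀ i' j' : Fin n, i ≤ i' → j' ≤ j → (i', j') ≠ (i, j) → M i' j' = 0 := by
  have h1 : (Finset.univ.filter fun p : Fin n × Fin n => p.2 < p.1 ∧ M p.1 p.2 ≠ 0).Nonempty := by
    obtain ⟨i, j, hij, hM⟩ := h
    exact ⟨(i, j), Finset.mem_filter.2 ⟨Finset.mem_univ _, hij, hM⟩⟩
  obtain ⟨⟨i, j⟩, h2, h3⟩ := Finset.exists_max_image _ (fun p : Fin n × Fin n => ((p.1 : ℕ) : ℤ) - ((p.2 : ℕ) : ℤ)) h1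
  obtain ⟨-, h2a, h2b⟩ := Finset.mem_filter.1 h2
  refine ⟨i, j, h2a, h2b, fun i' j' hi hj hne => ?_⟩
  by_contra hM
  have h2c : (j : ℕ) < (i : ℕ) := h2a
  have h5 : (i : ℕ) ≤ i' := hi
  have h6 : (j' : ℕ) ≤ j := hj
  have h7 : j' < i' := Fin.lt_def.2 (by omega)
  have h4 : ((i' : ℕ) : ℤ) - ((j' : ℕ) : ℤ) ≤ ((i : ℕ) : ℤ) - ((j : ℕ) : ℤ) :=
    h3 (i', j') (Finset.mem_filter.2 ⟨Finset.mem_univ _, h7, hM⟩)
  exact hne (Prod.ext (Fin.ext (by simp only; omega)) (Fin.ext (by simp only; omega)))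

end

end Pool.Agent.Lib.H67G
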