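import Pool.Agent.Lib.H67G.R1
import Pool.Agent.Lib.H67G.R2
import Pool.Agent.Lib.H67G.R4

/-!
# R5 (M): the lower left block
-/

namespace Pool.Agent.Lib.H67G

open MeasureTheory Matrix NumberField IsDedekindDomain Pool.Agent.Lib.H89N Pool.Agent.Lib.H33W
open scoped ENNReal Pointwise

noncomputable section

set_option linter.unusedSectionVars false

variable {n : ℕ} {K : Type} [Field K] [NumberField K]

theorem r5_sq {N T B Q : ℝ} {n d : ℕ} (hB : 1 ≤ B) (hd : d ≠ 0) (hT : 1 ≤ T) (hN : (B + 2) ^ d * T ≤ N) (hQ : 0 ≤ Q)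
    (hQ2 : Q ^ 2 ≤ T ^ (2 * n + 1)) (h : N * T ^ n ≤ B ^ d * Q) : False := by
  have h1 : B ^ d < (B + 2) ^ d := pow_lt_pow_left₀ (by linarith) (by linarith) hd
  have h2 : 1 ≤ B ^ d := one_le_pow₀ hB
  have h3 : 1 ≤ T ^ n := one_le_pow₀ hT
  obtain ⟨P, hP⟩ : ∃ P, P = (B + 2) ^ d := ⟨_, rfl⟩
  obtain ⟨p, hp⟩ : ∃ p, p = B ^ d := ⟨_, rfl⟩
  obtain ⟨X, hX⟩ : ∃ X, X = T ^ n := ⟨_, rfl⟩
  rw [← hP, ← hp] at h1
  rw [← hP] at hN
  rw [← hp] at h2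
  rw [← hX] at h3
  rw [← hp, ← hX] at h
  have h4 : T ^ (2 * n + 1) = X ^ 2 * T := by rw [hX, pow_succ, ← pow_mul, mul_comm n 2]
  rw [h4] at hQ2
  have hP0 : 0 < P := by linarith
  have h5 : P * T * X ≤ p * Q := le_trans (mul_le_mul_of_nonneg_right hN (by linarith)) h
  have h6 : (P * T * X) ^ 2 ≤ (p * Q) ^ 2 := pow_le_pow_left₀ (by positivity) h5 2
  have h7 : (p * Q) ^ 2 ≤ p ^ 2 * (X ^ 2 * T) := by
    rw [mul_pow]
    exact mul_le_mul_of_nonneg_left hQ2 (by positivity)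
  have h8 : X ^ 2 * T * (P ^ 2 * T) ≤ X ^ 2 * T * p ^ 2 := by
    calc X ^ 2 * T * (P ^ 2 * T) = (P * T * X) ^ 2 := by ring
      _ ≤ p ^ 2 * (X ^ 2 * T) := h6.trans h7
      _ = X ^ 2 * T * p ^ 2 := by ring
  have hXT : 0 < X ^ 2 * T := by positivity
  have h9 := le_of_mul_le_mul_left h8 hXT
  have h10 : p ^ 2 < P ^ 2 := pow_lt_pow_left₀ h1 (by linarith) two_ne_zero
  have h11 : P ^ 2 ≤ P ^ 2 * T := le_mul_of_one_le_right (by positivity) hT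
  linarith

theorem r5_ls [NeZero n] {i : Fin n} (hi : i ≠ ls n) : (i : ℕ) + 1 ≠ n := by
  intro h
  apply hi
  apply Fin.ext
  show (i : ℕ) = n - 1
  omega

/-- PROOF. `B` from `r1_dec`, `M₀ = (B + 2) ^ d`. Let `bC δ ≠ 0` and `(i, j)` a maximal non-zero entry (`r4_max`). `g = embS δ = u' κ u` (`r1_dec`), `bC κ i j = bC g i j` (`r4_C`, `bl_emb`), so `z = bC δ i j ≠ 0` has `‖z‖ ≤ B a_i a_j`. If `i = j = ls` we are done. Otherwise:
`i, j ≠ ls`: `z ∈ 𝔪` (`hG.entC`, `CC`), `N𝔪 ≤ ‖z‖^d ≤ B^d (a_i a_j)^d ≤ B^d` (`r2_int`, `r2_one`), but `N𝔪 ≥ M₀ T ≥ (B + 2)^d`: contradiction. One of `i, j` is `ls`: `Den 𝔪 v k z`, so `N𝔪 ≤ B^d (a_j a_n)^d q^k ≤ B^d T^(-n) q^k` (`r2_den`, `r2_jn`), `N𝔪² ≤ B^(2d) T^(-2n) q^(2k) ≤ B^(2d) T`,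
but `N𝔪² ≥ (B + 2)^(2d) T²`: contradiction. -/
theorem r5_C [NeZero n] {Ω : Set (SP n (EE K))} (hΩ : IsCompact Ω) : ∃ M₀ : ℝ, 1 ≤ M₀ ∧ ∀ (T : ℝ) (𝔪 : Ideal (𝓞 K)) (v : HeightOneSpectrum (𝓞 K)) (k : ℕ) (a : Fin n → ℝ),
    PrmS M₀ T 𝔪 v k a → ∀ Γ : Subgroup (SP n K), GdS 𝔪 v k Γ → ∀ δ ∈ Γ, ∀ y, InRangeS Ω a y → InRangeS Ω a (embS δ * y) →
      bC δ = 0 ∨ bC δ (ls n) (ls n) ≠ 0 := by
  obtain ⟨B, hB1, hB⟩ := r1_dec hΩ
  have hd : Module.finrank ℚ K ≠ 0 := Module.finrank_pos.ne'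
  refine ⟨(B + 2) ^ Module.finrank ℚ K, one_le_pow₀ (by linarith), fun T 𝔪 v k a hP Γ hG δ hδ y hy hgy => ?_⟩
  have ha := hP.tor.pos
  obtain ⟨u, u', κ, hu, hu', hg, hC, -⟩ := hB a ha y hy (embS δ) hgy
  by_cases h0 : bC δ = 0
  · exact Or.inl h0
  right
  obtain ⟨i, j, hij, hmax⟩ := r4_max h0
  have h1 : bC κ i j = mixedEmbedding K (bC δ i j) := r4_C hu hu' hg (i := i) (j := j) fun i' j' hi hj hne => by
    show mixedEmbedding K (bC δ i' j') = 0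
    rw [hmax i' j' hi hj hne, map_zero]
  have h2 := hC i j
  rw [h1] at h2
  have hai := r2_one hP.hT hP.tor i
  have haj := r2_one hP.hT hP.tor j
  have hn0 : 0 ≤ ‖mixedEmbedding K (bC δ i j)‖ := norm_nonneg _
  have hc := hG.entC δ hδ i j
  have hq0 : (0 : ℝ) ≤ (Ideal.absNorm v.asIdeal : ℝ) ^ k := by positivity
  have hq2 : ((Ideal.absNorm v.asIdeal : ℝ) ^ k) ^ 2 ≤ T ^ (2 * n + 1) := by
    rw [← pow_mul, mul_comm k 2]
    exact hP.hk
  have hkey : ∀ j' : Fin n, a i * a j = a j' * a (ls n) → Den 𝔪 v k (bC δ i j) → False := by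
    intro j' hj' hden
    have h3 := r2_den hP.ne hij hden
    have h4 := r2_jn hP.hT hP.tor j'
    rw [← hj'] at h4
    refine r5_sq (N := (Ideal.absNorm 𝔪 : ℝ)) (n := n) hB1 hd hP.hT hP.hM hq0 hq2 ?_
    have h5 : ‖mixedEmbedding K (bC δ i j)‖ ^ Module.finrank ℚ K ≤ B ^ Module.finrank ℚ K * (a i * a j) ^ Module.finrank ℚ K := by
      rw [← mul_pow]
      exact pow_le_pow_left₀ hn0 h2 _
    have hT0 : (0 : ℝ) ≤ T ^ n := by
      have := hP.hT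
      positivity
    have hB0 : (0 : ℝ) ≤ B ^ Module.finrank ℚ K := by positivity
    calc (Ideal.absNorm 𝔪 : ℝ) * T ^ n ≤ (‖mixedEmbedding K (bC δ i j)‖ ^ Module.finrank ℚ K * (Ideal.absNorm v.asIdeal : ℝ) ^ k) * T ^ n :=
          mul_le_mul_of_nonneg_right h3 hT0
      _ ≤ ((B ^ Module.finrank ℚ K * (a i * a j) ^ Module.finrank ℚ K) * (Ideal.absNorm v.asIdeal : ℝ) ^ k) * T ^ n :=
          mul_le_mul_of_nonneg_right (mul_le_mul_of_nonneg_right h5 hq0) hT0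
      _ = (B ^ Module.finrank ℚ K * (Ideal.absNorm v.asIdeal : ℝ) ^ k) * ((a i * a j) ^ Module.finrank ℚ K * T ^ n) := by ring
      _ ≤ (B ^ Module.finrank ℚ K * (Ideal.absNorm v.asIdeal : ℝ) ^ k) * 1 := mul_le_mul_of_nonneg_left h4 (by positivity)
      _ = B ^ Module.finrank ℚ K * (Ideal.absNorm v.asIdeal : ℝ) ^ k := mul_one _
  unfold CC at hc
  by_cases hi : i = ls n
  · by_cases hj : j = ls n
    · rw [hi, hj] at hij
      exact hij
    · exfalso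
      have hi' : (i : ℕ) + 1 = n := by
        rw [hi]
        show n - 1 + 1 = n
        have := NeZero.pos n
        omega
      rw [if_pos hi', if_neg (r5_ls hj)] at hc
      refine hkey j ?_ hc
      rw [hi]
      ring
  · exfalso
    rw [if_neg (r5_ls hi)] at hc
    by_cases hj : j = ls n
    · have hj' : (j : ℕ) + 1 = n := by
        rw [hj]
        show n - 1 + 1 = n
        have := NeZero.pos n
        omega
      rw [if_pos hj'] at hc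
      refine hkey i ?_ hc
      rw [hj]
    · rw [if_neg (r5_ls hj)] at hc
      have h3 := r2_int hP.ne hij hc
      have h6 : a i * a j ≤ 1 := mul_le_one₀ hai (ha j).le haj
      have h4 : ‖mixedEmbedding K (bC δ i j)‖ ≤ B := h2.trans (by nlinarith)
      have h5 : ‖mixedEmbedding K (bC δ i j)‖ ^ Module.finrank ℚ K ≤ B ^ Module.finrank ℚ K := pow_le_pow_left₀ hn0 h4 _
      have h7 : B ^ Module.finrank ℚ K < (B + 2) ^ Module.finrank ℚ K := pow_lt_pow_left₀ (by linarith) (by linarith) hd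
      have h8 : (B + 2) ^ Module.finrank ℚ K ≤ (B + 2) ^ Module.finrank ℚ K * T :=
        le_mul_of_one_le_right (by positivity) hP.hT
      have h9 := hP.hM
      linarith

end

end Pool.Agent.Lib.H67G
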