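import Pool.Agent.Lib.H67G.R5

/-!
# R6 (M): elements with the last row (0, .., 0, 1)
-/

namespace Pool.Agent.Lib.H67G

open MeasureTheory Matrix NumberField IsDedekindDomain Pool.Agent.Lib.H89N Pool.Agent.Lib.H33W
open scoped ENNReal Pointwise

noncomputable section

set_option linter.unusedSectionVars false

variable {n : ℕ} {K : Type} [Field K] [NumberField K]

theorem r6_cI [NeZero n] {𝔪 : Ideal (𝓞 K)} {v : HeightOneSpectrum (𝓞 K)} {k : ℕ} {j : Fin n} (hj : j ≠ ls n) :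
    cI 𝔪 v k j = 𝔪 := by
  unfold cI
  rw [if_neg (r5_ls hj)]

theorem r6_EC [NeZero n] {𝔪 : Ideal (𝓞 K)} {v : HeightOneSpectrum (𝓞 K)} {k : ℕ} {i j : Fin n} {z : K} (hi : i ≠ ls n)
    (hj : j ≠ ls n) (h : EC 𝔪 v k i j z) : InI 𝔪 z := by
  unfold EC at h
  rw [if_neg (r5_ls hi), r6_cI hj] at h
  exact h

/-- PROOF. `M₀` the maximum of the constant of `r5_C` and `(B + 2) ^ d`, `B` from `r1_dec`. By `r5_C`: `bC δ = 0`. `g = embS δ = u' κ u`, `‖D_κ i j‖ ≤ B a_i / a_j`. Suppose that `D_δ` has a non-zero entry below the diagonal, `(i, j)` from `r4_low`; `i ≠ ls` (`hD`), so `z = D_δ i j ∈ 𝔪` (`hG.entD`, `EC`, `cI`: `j < i`, `j ≠ ls`), `z = (D_κ) i j`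
(`r4_D`), `‖z‖ ≤ B a_i / a_j ≤ B` (`r2_anti`), `N𝔪 ≤ B^d` (`r2_int`): contradiction. So `D_δ` is upper triangular, and for the diagonal entries (`r4_D` again) `D_δ i i = D_κ i i` has norm at most `B`, `z = D_δ i i - 1 ∈ 𝔪`, `‖z‖ ≤ B + 1`, so `z = 0`. -/
theorem r6_U [NeZero n] {Ω : Set (SP n (EE K))} (hΩ : IsCompact Ω) : ∃ M₀ : ℝ, 1 ≤ M₀ ∧ ∀ (T : ℝ) (𝔪 : Ideal (𝓞 K)) (v : HeightOneSpectrum (𝓞 K)) (k : ℕ) (a : Fin n → ℝ),
    PrmS M₀ T 𝔪 v k a → ∀ Γ : Subgroup (SP n K), GdS 𝔪 v k Γ → ∀ δ ∈ Γ, ∀ y, InRangeS Ω a y → InRangeS Ω a (embS δ * y) →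
      (∀ j, bC δ (ls n) j = 0) → (∀ j, bD δ (ls n) j = (1 : Matrix (Fin n) (Fin n) K) (ls n) j) → IsUS δ := by
  obtain ⟨M₁, hM₁, h5⟩ := r5_C (K := K) hΩ
  obtain ⟨B, hB1, hB⟩ := r1_dec hΩ
  have hd : Module.finrank ℚ K ≠ 0 := Module.finrank_pos.ne'
  refine ⟨max M₁ ((B + 2) ^ Module.finrank ℚ K), le_max_of_le_left hM₁, fun T 𝔪 v k a hP Γ hG δ hδ y hy hgy hC0 hD0 => ?_⟩
  have ha := hP.tor.pos
  have hT0 : (0 : ℝ) ≤ T := by
    have := hP.hT
    linarith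
  have hP1 : PrmS M₁ T 𝔪 v k a := ⟨hP.ne, hP.hT, (mul_le_mul_of_nonneg_right (le_max_left _ _) hT0).trans hP.hM, hP.hk, hP.tor⟩
  have hN : (B + 2) ^ Module.finrank ℚ K ≤ (Ideal.absNorm 𝔪 : ℝ) := by
    have h1 : (B + 2) ^ Module.finrank ℚ K * T ≤ (Ideal.absNorm 𝔪 : ℝ) :=
      (mul_le_mul_of_nonneg_right (le_max_right _ _) hT0).trans hP.hM
    exact (le_mul_of_one_le_right (by positivity) hP.hT).trans h1
  have hC : bC δ = 0 := by
    rcases h5 T 𝔪 v k a hP1 Γ hG δ hδ y hy hgy with h | h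
    · exact h
    · exact absurd (hC0 _) h
  obtain ⟨u, u', κ, hu, hu', hg, -, hD⟩ := hB a ha y hy (embS δ) hgy
  have hCg : bC (embS δ) = 0 := by
    rw [(bl_emb δ).2.2.1, hC]
    exact Matrix.map_zero _ (map_zero _)
  -- the entries of the ideal are 0
  have hsmall : ∀ z : K, InI 𝔪 z → ‖mixedEmbedding K z‖ ≤ B + 1 → z = 0 := by
    intro z hz hn
    by_contra h0
    have h1 := r2_int hP.ne h0 hz
    have h2 : ‖mixedEmbedding K z‖ ^ Module.finrank ℚ K ≤ (B + 1) ^ Module.finrank ℚ K := pow_le_pow_left₀ (norm_nonneg _) hn _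
    have h3 : (B + 1) ^ Module.finrank ℚ K < (B + 2) ^ Module.finrank ℚ K := pow_lt_pow_left₀ (by linarith) (by linarith) hd
    linarith
  have hlow : ¬ ∃ i j : Fin n, j < i ∧ bD δ i j ≠ 0 := by
    intro hcon
    obtain ⟨i, j, hji, hij, hmax⟩ := r4_low hcon
    have hi : i ≠ ls n := by
      rintro rfl
      apply hij
      rw [hD0, Matrix.one_apply_ne hji.ne']
    have hj : j ≠ ls n := by
      rintro rfl
      have h1 : (ls n : ℕ) < i := hji
      have h2 : (ls n : ℕ) = n - 1 := rfl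
      have := i.2
      omega
    have h1 : bD κ i j = mixedEmbedding K (bD δ i j) := r4_D hu hu' hg hCg (i := i) (j := j) fun i' j' hi' hj' hne => by
      show mixedEmbedding K (bD δ i' j') = 0
      rw [hmax i' j' hi' hj' hne, map_zero]
    have h2 := hD i j
    rw [h1] at h2
    have h3 : a i / a j ≤ 1 := (div_le_one (ha j)).2 (r2_anti hP.hT hP.tor hji.le)
    have h4 := r6_EC hi hj (hG.entD δ hδ i j)
    rw [Matrix.sub_apply, Matrix.one_apply_ne hji.ne', sub_zero] at h4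
    exact hij (hsmall _ h4 (by nlinarith [div_nonneg (ha i).le (ha j).le]))
  push Not at hlow
  refine ⟨hC, fun i j hji => ?_⟩
  rcases eq_or_lt_of_le hji with h | h
  · subst h
    rw [Matrix.one_apply_eq]
    by_cases hi : j = ls n
    · rw [hi, hD0, Matrix.one_apply_eq]
    · have h1 : bD κ j j = mixedEmbedding K (bD δ j j) := r4_D hu hu' hg hCg (i := j) (j := j) fun i' j' hi' hj' hne => by
        show mixedEmbedding K (bD δ i' j') = 0
        rw [hlow i' j' (lt_of_le_of_ne (hj'.trans hi') fun h2 => hne ?_), map_zero]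
        subst h2
        rw [le_antisymm hj' hi']
      have h2 := hD j j
      rw [h1, div_self (ha j).ne', mul_one] at h2
      have h4 := r6_EC hi hi (hG.entD δ hδ j j)
      rw [Matrix.sub_apply, Matrix.one_apply_eq] at h4
      refine sub_eq_zero.1 (hsmall _ h4 ?_)
      rw [map_sub, map_one]
      refine (norm_sub_le _ _).trans ?_
      rw [norm_one]
      linarith
  · rw [hlow i j h, Matrix.one_apply_ne h.ne']

/-- PROOF. `bD γ 0 0 - 1 ∈ 𝔪` (`EC` for `a = l = 0`, also if `n = 1`). If `bD γ 0 0 = -1` then `-2 ∈ 𝔪`, `N𝔪 ≤ ‖2‖^d ≤ 2^d` (`r2_int`); `M₀ = 2^d + 1`. -/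
theorem r6_ne [NeZero n] {M₀ : ℝ} (hM₀ : 2 ^ Module.finrank ℚ K < M₀) {T : ℝ} {𝔪 : Ideal (𝓞 K)} {v : HeightOneSpectrum (𝓞 K)} {k : ℕ} {a : Fin n → ℝ}
    (h : PrmS M₀ T 𝔪 v k a) {Γ : Subgroup (SP n K)} (hG : GdS 𝔪 v k Γ) : ∀ γ ∈ Γ, bD γ 0 0 ≠ -1 := by
  intro γ hγ hcon
  have h1 := hG.entD γ hγ 0 0
  rw [Matrix.sub_apply, Matrix.one_apply_eq, hcon] at h1
  have h2 : InI 𝔪 (-1 - 1 : K) := by
    unfold EC at h1
    by_cases hn : ((0 : Fin n) : ℕ) + 1 = n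
    · rw [if_pos hn, if_pos hn] at h1
      exact h1
    · unfold cI at h1
      rw [if_neg hn, if_neg hn] at h1
      exact h1
  have h3 : (-1 - 1 : K) ≠ 0 := by
    have : (-1 - 1 : K) = -2 := by norm_num
    rw [this]
    exact neg_ne_zero.2 two_ne_zero
  have h4 := r2_int h.ne h3 h2
  have h5 : ‖mixedEmbedding K (-1 - 1 : K)‖ ≤ 2 := by
    rw [map_sub, map_neg, map_one]
    refine (norm_sub_le _ _).trans ?_
    rw [norm_neg, norm_one]
    norm_num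
  have h6 : ‖mixedEmbedding K (-1 - 1 : K)‖ ^ Module.finrank ℚ K ≤ 2 ^ Module.finrank ℚ K := pow_le_pow_left₀ (norm_nonneg _) h5 _
  have h7 : M₀ ≤ M₀ * T := le_mul_of_one_le_right (le_trans (by positivity) hM₀.le) h.hT
  have h8 := h.hM
  linarith

end

end Pool.Agent.Lib.H67G
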