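import Pool.Agent.Lib.H67G.V3
import Pool.Agent.Lib.H67G.E0

/-!
# S0: definitions for the large sieve
-/

namespace Pool.Agent.Lib.H67G

open MeasureTheory Matrix NumberField IsDedekindDomain Pool.Agent.Lib.H89N Pool.Agent.Lib.H33W
open scoped ENNReal Pointwise

noncomputable section

set_option linter.unusedSectionVars false

variable {n : ℕ} {K : Type} [Field K] [NumberField K]

/-- The entries of the lower left block `C` of `γ ∈ Γ`: `(n, n)` in `𝔪 v ^ (-2k)`, last row and last column in `𝔪 v ^ (-k)`, all others in `𝔪`. -/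
def CC (𝔪 : Ideal (𝓞 K)) (v : HeightOneSpectrum (𝓞 K)) (k : ℕ) (a l : Fin n) (z : K) : Prop :=
  if (a : ℕ) + 1 = n then (if (l : ℕ) + 1 = n then Den 𝔪 v (2 * k) z else Den 𝔪 v k z)
  else (if (l : ℕ) + 1 = n then Den 𝔪 v k z else InI 𝔪 z)

/-- The ideals of the coordinates of `Γ ∩ U`. -/
def dI (𝔪 : Ideal (𝓞 K)) (v : HeightOneSpectrum (𝓞 K)) (k : ℕ) : TI n → Ideal (𝓞 K)
  | Sum.inl p => if (p.1.2 : ℕ) + 1 = n then (if (p.1.1 : ℕ) + 1 = n then 𝔪 * v.asIdeal ^ (2 * k) else 𝔪 * v.asIdeal ^ k) else 𝔪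
  | Sum.inr p => cI 𝔪 v k p.1.2

/-- The properties of `Γ` (the stabiliser of `L_k`) which are used. -/
structure GdS (𝔪 : Ideal (𝓞 K)) (v : HeightOneSpectrum (𝓞 K)) (k : ℕ) (Γ : Subgroup (SP n K)) : Prop where
  entD : ∀ γ ∈ Γ, ∀ a l, EC 𝔪 v k a l ((bD γ - 1) a l)
  entC : ∀ γ ∈ Γ, ∀ a l, CC 𝔪 v k a l (bC γ a l)
  hasI : HasI Γ (dI 𝔪 v k)
  den : ∀ γ ∈ Γ, ∀ i l, ∃ y : 𝓞 K, ((Ideal.absNorm v.asIdeal ^ (2 * k) : ℕ) : K) * γ.val i l = ((y : 𝓞 K) : K)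

/-- `a_i > 0`, `T a_1 ^ (2d) ≤ 1`, `T a_{i+1} ^ d ≤ a_i ^ d`. -/
structure TorT (K : Type) [Field K] [NumberField K] [NeZero n] (T : ℝ) (a : Fin n → ℝ) : Prop where
  pos : ∀ i, 0 < a i
  long : T * a 0 ^ (2 * Module.finrank ℚ K) ≤ 1
  ratio : ∀ (i : Fin n) (h : (i : ℕ) + 1 < n), T * a ⟨i + 1, h⟩ ^ Module.finrank ℚ K ≤ a i ^ Module.finrank ℚ K

/-- `m(a)` as an element of the symplectic group. -/
def maS (a : Fin n → ℝ) (ha : ∀ i, 0 < a i) : SP n (EE K) :=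
  ⟨dgS a, by
    have e : (dgS a : Matrix (Fin n ⊕ Fin n) (Fin n ⊕ Fin n) (EE K)) =
        fromBlocks ((diagonal fun i => algebraMap ℝ (EE K) (a i)⁻¹)ᵀ) 0 0 (diagonal fun i => algebraMap ℝ (EE K) (a i)) := by
      rw [diagonal_transpose]
      rfl
    rw [e]
    refine mS_aux _ _ ?_
    rw [diagonal_mul_diagonal, ← diagonal_one]
    congr 1
    funext i
    rw [← map_mul, mul_inv_cancel₀ (ha i).ne', map_one]⟩

/-- The last index. -/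
def ls (n : ℕ) [NeZero n] : Fin n := ⟨n - 1, by have := NeZero.pos n; omega⟩

/-- The function `Ψ = 1_S W_h`. -/
def Psi [NeZero n] (𝔡 : TI n → Ideal (𝓞 K)) (θ₀ : EE K →ₗ[ℝ] ℝ) (θ : Fin n → (EE K →ₗ[ℝ] ℝ)) (Ω : Set (SP n (EE K))) (a : Fin n → ℝ)
    (h : SP n (EE K) → ℂ) : SP n (EE K) → ℂ :=
  {x | InRangeS Ω a x}.indicator (MnS 𝔡 θ₀ θ h)

/-- The number of the `γ ∈ Γ` with `C ≠ 0` and `γ x ∈ F ∩ S`. -/
def nuS (Γ : Subgroup (SP n K)) (Ω : Set (SP n (EE K))) (a : Fin n → ℝ) (F : Set (SP n (EE K))) (x : SP n (EE K)) : ℝ≥0∞ :=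
  ∑' γ : SP n K, ((Γ : Set (SP n K)) \ (GJs 0 Γ : Set (SP n K))).indicator (1 : SP n K → ℝ≥0∞) γ *
    (F ∩ {x | InRangeS Ω a x}).indicator (1 : SP n (EE K) → ℝ≥0∞) (embS γ * x)

end

end Pool.Agent.Lib.H67G
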