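import Pool.Agent.Lib.H67G.S0

/-!
# S1 (S/M): the sets U m(a) Omega
-/

namespace Pool.Agent.Lib.H67G

open MeasureTheory Matrix NumberField IsDedekindDomain Pool.Agent.Lib.H89N Pool.Agent.Lib.H33W
open scoped ENNReal Pointwise

noncomputable section

set_option linter.unusedSectionVars false

variable {n : ℕ} {K : Type} [Field K] [NumberField K]

/-!
PROOFS. `inR_iff`: the matrix identity is an identity in `SP` (`SP.ext`). `inR_u`: `u uT t = uT (lT u t)` (`uT_lT`), and the same for `u⁻¹`. `inR_mul`: clear. `inR_meas`: the set is the union over `N` of the images of the compact sets `{t | ‖t‖ ≤ N} × Ω` under the continuous map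
`(t, ω) ↦ uT t * maS a ha * ω` (closed, so measurable).
-/

theorem inR_iff {Ω : Set (SP n (EE K))} {a : Fin n → ℝ} (ha : ∀ i, 0 < a i) {x : SP n (EE K)} :
    InRangeS Ω a x ↔ ∃ t : TI n → EE K, ∃ ω ∈ Ω, x = uT t * maS a ha * ω := by
  constructor
  · rintro ⟨t, ω, hω, h⟩
    exact ⟨t, ω, hω, SP.ext h⟩
  · rintro ⟨t, ω, hω, h⟩
    exact ⟨t, ω, hω, congrArg SP.val h⟩

theorem s1_u {Ω : Set (SP n (EE K))} {a : Fin n → ℝ} {u : SP n (EE K)} (hu : IsUS u) {x : SP n (EE K)}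
    (h : InRangeS Ω a x) : InRangeS Ω a (u * x) := by
  obtain ⟨t, ω, hω, h⟩ := h
  refine ⟨lT u t, ω, hω, ?_⟩
  simp only [SP.val_mul, h, uT_lT hu, Matrix.mul_assoc]

theorem inR_u {Ω : Set (SP n (EE K))} {a : Fin n → ℝ} {u : SP n (EE K)} (hu : IsUS u) (x : SP n (EE K)) :
    InRangeS Ω a (u * x) ↔ InRangeS Ω a x := by
  constructor
  · intro h
    have h1 := s1_u (isUS_inv hu) h
    rwa [inv_mul_cancel_left] at h1
  · exact s1_u hu

theorem inR_mul {Ω Ω₁ : Set (SP n (EE K))} {a : Fin n → ℝ} {x y : SP n (EE K)} (hx : InRangeS Ω a x) (hy : y ∈ Ω₁) :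
    InRangeS (Ω * Ω₁) a (x * y) := by
  obtain ⟨t, ω, hω, h⟩ := hx
  refine ⟨t, ω * y, Set.mul_mem_mul hω hy, ?_⟩
  rw [SP.val_mul, h, SP.val_mul, Matrix.mul_assoc]

theorem inR_meas {Ω : Set (SP n (EE K))} (hΩ : IsCompact Ω) {a : Fin n → ℝ} (ha : ∀ i, 0 < a i) :
    MeasurableSet {x : SP n (EE K) | InRangeS Ω a x} := by
  have : T2Space (SP n (EE K)) :=
    T2Space.of_injective_continuous (fun a b h => SP.ext h) v2_val
  have hp : ProperSpace (TI n → EE K) := FiniteDimensional.proper_real _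
  have hc : Continuous fun p : (TI n → EE K) × SP n (EE K) => uT p.1 * maS a ha * p.2 :=
    ((uT_cont.comp continuous_fst).mul continuous_const).mul continuous_snd
  have e : {x : SP n (EE K) | InRangeS Ω a x} = ⋃ N : ℕ,
      (fun p : (TI n → EE K) × SP n (EE K) => uT p.1 * maS a ha * p.2) ''
        (Metric.closedBall 0 (N : ℝ) ×ˢ Ω) := by
    ext x
    simp only [Set.mem_ofPred_eq, Set.mem_iUnion, Set.mem_image, Prod.exists]
    rw [inR_iff ha]
    constructor
    · rintro ⟨t, ω, hω, h⟩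
      obtain ⟨N, hN⟩ := exists_nat_ge ‖t‖
      exact ⟨N, t, ω, ⟨mem_closedBall_zero_iff.2 hN, hω⟩, h.symm⟩
    · rintro ⟨N, t, ω, ⟨_, hω⟩, h⟩
      exact ⟨t, ω, hω, h.symm⟩
  rw [e]
  exact MeasurableSet.iUnion fun N =>
    (((isCompact_closedBall (0 : TI n → EE K) (N : ℝ)).prod hΩ).image hc).measurableSet

/-- `t ↦ uT t * x` stays in the set. -/
theorem inR_uT {Ω : Set (SP n (EE K))} {a : Fin n → ℝ} (t : TI n → EE K) (x : SP n (EE K)) :
    InRangeS Ω a (uT t * x) ↔ InRangeS Ω a x := inR_u (isUS_uT t) x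

end

end Pool.Agent.Lib.H67G
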