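import Pool.Agent.Lib.H67G.S2

/-!
# S3 (M): compactness modulo the unipotent group
-/

namespace Pool.Agent.Lib.H67G

open MeasureTheory Matrix NumberField IsDedekindDomain Pool.Agent.Lib.H89N Pool.Agent.Lib.H33W
open scoped ENNReal Pointwise

noncomputable section

set_option linter.unusedSectionVars false

variable {n : ℕ} {K : Type} [Field K] [NumberField K]

variable {𝔡 : TI n → Ideal (𝓞 K)} {Γ : Subgroup (SP n K)}

/-!
PROOFS. `exists_KS`: `KS` = the image of `closure (LB 𝔡) × Ω` under `(t, ω) ↦ uT t * maS a ha * ω` (compact: `LB_bdd`, finite dimension). For `x = uT t * maS a ha * ω` there is `u ∈ Γ ∩ U` with `u • t ∈ LB 𝔡` (`sf_LB`), `uT (u • t) = embS u * uT t`.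
`fs_S`: the set `{γ ∈ Γ | γ KS ∩ KS ≠ ∅}` is finite (`hasDS_finite` for the compact set `KS * KS⁻¹`), with `N` elements. Let `x` be given; if the set of cosets is not empty, let `γ₀ ∈ Γ` with `γ₀ x ∈ KS` (multiply a representative by an element of `Γ ∩ U`). Every coset `c` of the set contains an element `γ ∈ Γ` with
`γ x ∈ KS`, so `(γ γ₀⁻¹) (γ₀ x) ∈ KS`: `γ γ₀⁻¹` is in the finite set: at most `N` cosets.
`fin_S`: `∫_F 1_S ≤ ∫_F ∑_{u ∈ Γ ∩ U} 1_KS(u x) = μ(KS)` (`H33W.sf_unfold`; `1_S(x) ≤ ∑_u 1_KS(u x)`).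
`bdd_S`: `h` is bounded on `KS`.
-/

theorem exists_KS (hI : HasI Γ 𝔡) {Ω : Set (SP n (EE K))} (hΩ : IsCompact Ω) {a : Fin n → ℝ} (ha : ∀ i, 0 < a i) :
    ∃ KS : Set (SP n (EE K)), IsCompact KS ∧ (∀ x ∈ KS, InRangeS Ω a x) ∧
      ∀ x, InRangeS Ω a x → ∃ u ∈ Γ, IsUS u ∧ embS u * x ∈ KS := by
  refine ⟨(fun p : (TI n → EE K) × SP n (EE K) => uT p.1 * maS a ha * p.2) '' (closure (LB 𝔡) ×ˢ Ω), ?_, ?_, ?_⟩
  · refine ((LB_bdd hI.ne).isCompact_closure.prod hΩ).image ?_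
    exact ((uT_cont.comp continuous_fst).mul continuous_const).mul continuous_snd
  · rintro x ⟨⟨t, ω⟩, ⟨_, hω⟩, rfl⟩
    exact (inR_iff ha).2 ⟨t, ω, hω, rfl⟩
  · intro x hx
    obtain ⟨t, ω, hω, rfl⟩ := (inR_iff ha).1 hx
    obtain ⟨γ, hγ, _⟩ := (sf_LB hI).fd t
    refine ⟨((γ : UGS n K) : SP n K), γ.2, (γ : UGS n K).2, ⟨((γ : UGS n K) • t, ω), ⟨subset_closure hγ, hω⟩, ?_⟩⟩
    show uT ((γ : UGS n K) • t) * maS a ha * ω = _
    rw [uT_smul, mul_assoc, mul_assoc, mul_assoc]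

theorem fs_S (hI : HasI Γ 𝔡) {c₀ : ℕ} (hc : c₀ ≠ 0) (hΓ : HasDS c₀ Γ) {Ω : Set (SP n (EE K))} (hΩ : IsCompact Ω) {a : Fin n → ℝ} (ha : ∀ i, 0 < a i) :
    ∃ N : ℕ, ∀ x, {c : SP n K ⧸ (Γ ⊓ UGS n K) | (Quotient.out c)⁻¹ ∈ Γ ∧ InRangeS Ω a (embS (Quotient.out c)⁻¹ * x)}.encard ≤ N := by
  classical
  obtain ⟨KS, hK, _, hKx⟩ := exists_KS hI hΩ ha
  have hA : {γ : SP n K | γ ∈ Γ ∧ embS γ ∈ KS * KS⁻¹}.Finite := hasDS_finite hc hΓ (hK.mul hK.inv)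
  refine ⟨{γ : SP n K | γ ∈ Γ ∧ embS γ ∈ KS * KS⁻¹}.ncard, fun x => ?_⟩
  rw [hA.cast_ncard_eq]
  rcases Set.eq_empty_or_nonempty {c : SP n K ⧸ (Γ ⊓ UGS n K) | (Quotient.out c)⁻¹ ∈ Γ ∧
      InRangeS Ω a (embS (Quotient.out c)⁻¹ * x)} with hT | ⟨c₁, hc₁⟩
  · rw [hT, Set.encard_empty]
    exact zero_le
  · have key : ∀ c : SP n K ⧸ (Γ ⊓ UGS n K), (Quotient.out c)⁻¹ ∈ Γ ∧ InRangeS Ω a (embS (Quotient.out c)⁻¹ * x) →
        ∃ γ ∈ Γ, (QuotientGroup.mk γ⁻¹ : SP n K ⧸ (Γ ⊓ UGS n K)) = c ∧ embS γ * x ∈ KS := by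
      rintro c ⟨h1, h2⟩
      obtain ⟨u, hu, hu', hux⟩ := hKx _ h2
      refine ⟨u * (Quotient.out c)⁻¹, mul_mem hu h1, ?_, ?_⟩
      · rw [_root_.mul_inv_rev, inv_inv, QuotientGroup.mk_mul_of_mem _ (inv_mem (Subgroup.mem_inf.2 ⟨hu, hu'⟩)),
          QuotientGroup.out_eq']
      · rw [map_mul, mul_assoc]
        exact hux
    obtain ⟨γ₀, hγ₀, _, hx₀⟩ := key c₁ hc₁
    choose! G hG1 hG2 hG3 using key
    refine Set.encard_le_encard_of_injOn (f := fun c => G c * γ₀⁻¹) ?_ ?_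
    · intro c hc'
      refine ⟨mul_mem (hG1 c hc') (inv_mem hγ₀), ?_⟩
      have e : embS (G c * γ₀⁻¹) = (embS (G c) * x) * (embS γ₀ * x)⁻¹ := by
        rw [map_mul, map_inv, _root_.mul_inv_rev, mul_assoc, mul_inv_cancel_left]
      show embS (G c * γ₀⁻¹) ∈ KS * KS⁻¹
      rw [e]
      exact Set.mul_mem_mul (hG3 c hc') (Set.inv_mem_inv.2 hx₀)
    · intro c hc' c' hc'' e
      have e1 : G c = G c' := mul_right_cancel e
      rw [← hG2 c hc', ← hG2 c' hc'', e1]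

theorem fin_S (μ : Measure (SP n (EE K))) [μ.IsHaarMeasure] (hI : HasI Γ 𝔡) {Ω : Set (SP n (EE K))} (hΩ : IsCompact Ω) {a : Fin n → ℝ}
    (ha : ∀ i, 0 < a i) {F : Set (SP n (EE K))} (hF : SF (Γ ⊓ UGS n K) F) : μ (F ∩ {x | InRangeS Ω a x}) ≠ ⊤ := by
  classical
  obtain ⟨KS, hK, _, hKx⟩ := exists_KS hI hΩ ha
  have mK : MeasurableSet KS := hK.isClosed.measurableSet
  have mS := inR_meas hΩ ha
  have mI : Measurable (KS.indicator (1 : SP n (EE K) → ℝ≥0∞)) := measurable_one.indicator mK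
  have h0 := sf_unfold (μ := μ) hF mI
  rw [lintegral_indicator_one mK] at h0
  have h1 : μ (F ∩ {x | InRangeS Ω a x}) ≤ μ KS := by
    rw [h0, Set.inter_comm, ← Measure.restrict_apply mS, ← lintegral_indicator_one mS]
    refine lintegral_mono fun x => ?_
    by_cases hx : InRangeS Ω a x
    · rw [Set.indicator_of_mem (show x ∈ {x | InRangeS Ω a x} from hx)]
      obtain ⟨u, hu, hu', hux⟩ := hKx x hx
      refine le_trans ?_ (ENNReal.le_tsum (⟨u, Subgroup.mem_inf.2 ⟨hu, hu'⟩⟩ : ↥(Γ ⊓ UGS n K)))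
      show (1 : SP n (EE K) → ℝ≥0∞) x ≤ KS.indicator 1 (embS u * x)
      rw [Set.indicator_of_mem hux]
      exact le_rfl
    · rw [Set.indicator_of_notMem (show x ∉ {x | InRangeS Ω a x} from hx)]
      exact zero_le
  exact ne_top_of_le_ne_top hK.measure_lt_top.ne h1

theorem bdd_S (hI : HasI Γ 𝔡) {Ω : Set (SP n (EE K))} (hΩ : IsCompact Ω) {a : Fin n → ℝ} (ha : ∀ i, 0 < a i) {h : SP n (EE K) → ℂ}
    (hh : Continuous h) (ih : ∀ γ ∈ Γ, ∀ x, h (embS γ * x) = h x) : ∃ B : ℝ, ∀ x, InRangeS Ω a x → ‖h x‖ ≤ B := by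
  obtain ⟨KS, hK, _, hKx⟩ := exists_KS hI hΩ ha
  obtain ⟨B, hB⟩ := hK.exists_bound_of_continuousOn hh.continuousOn
  refine ⟨B, fun x hx => ?_⟩
  obtain ⟨u, hu, _, hux⟩ := hKx x hx
  rw [← ih u hu]
  exact hB _ hux

end

end Pool.Agent.Lib.H67G
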