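import Pool.Agent.Lib.H67G.S3
import Pool.Agent.Lib.H67G.E1

/-!
# S4 (M): the function Psi
-/

namespace Pool.Agent.Lib.H67G

open MeasureTheory Matrix NumberField IsDedekindDomain Pool.Agent.Lib.H89N Pool.Agent.Lib.H33W
open scoped ENNReal Pointwise

noncomputable section

set_option linter.unusedSectionVars false

variable {n : ℕ} {K : Type} [Field K] [NumberField K]

variable [NeZero n] {𝔪 : Ideal (𝓞 K)} {𝔡 : TI n → Ideal (𝓞 K)} {Γ : Subgroup (SP n K)} {θ₀ : EE K →ₗ[ℝ] ℝ} {θ : Fin n → (EE K →ₗ[ℝ] ℝ)}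

theorem s4_avg {α : Type} [MeasurableSpace α] {μ : Measure α} {D : Set α} (h0 : μ D ≠ 0) (h1 : μ D ≠ ⊤) {f : α → ℂ} {B : ℝ}
    (hB : ∀ t, ‖f t‖ ≤ B) : ‖⨍ t in D, f t ∂μ‖ ≤ B := by
  have hr : 0 < μ.real D := ENNReal.toReal_pos h0 h1
  have h2 : ‖∫ t in D, f t ∂μ‖ ≤ B * μ.real D :=
    norm_setIntegral_le_of_norm_le_const (lt_top_iff_ne_top.2 h1) fun t _ => hB t
  rw [setAverage_eq, norm_smul, norm_inv, Real.norm_of_nonneg hr.le]
  calc (μ.real D)⁻¹ * ‖∫ t in D, f t ∂μ‖ ≤ (μ.real D)⁻¹ * (B * μ.real D) :=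
        mul_le_mul_of_nonneg_left h2 (inv_nonneg.2 hr.le)
    _ = B := by field_simp

/-- PROOF. `meas`: `mnS_cont`, `inR_meas`. `bdd`: on the range `|W(x)| ≤ sup |h|` over the range (`bdd_S`, `inR_uT`: the mean of values of `h` on the range). `eq`: `mnS_eq`, `inR_u`. `fs`: `fs_S`. `int`: `chS_int` with `h𝔡`, `hI.iff`. -/
theorem psd_top (hI : HasI Γ 𝔡) (hc : ChI 𝔪 θ₀ θ) (h𝔡 : ∀ p, 𝔡 p ≤ 𝔪) {c₀ : ℕ} (hc₀ : c₀ ≠ 0) (hΓ : HasDS c₀ Γ) {Ω : Set (SP n (EE K))}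
    (hΩ : IsCompact Ω) {a : Fin n → ℝ} (ha : ∀ i, 0 < a i) {h : SP n (EE K) → ℂ} (hh : Continuous h) (ih : ∀ γ ∈ Γ, ∀ x, h (embS γ * x) = h x) :
    PsD Γ 𝔡 θ₀ θ (Psi 𝔡 θ₀ θ Ω a h) := by
  have mS := inR_meas hΩ ha
  refine ⟨hI, ?_, ?_, ?_, ?_, ?_⟩
  · intro g hg hus
    refine chS_int θ₀ θ hc fun p => ?_
    obtain ⟨y, hy, e⟩ := (hI.iff g hus).1 hg p
    exact ⟨y, h𝔡 p hy, e⟩
  · exact (mnS_cont θ₀ θ hI.ne hh).measurable.indicator mS
  · obtain ⟨B, hB⟩ := bdd_S hI hΩ ha hh ih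
    refine ⟨max B 0, fun x => ?_⟩
    by_cases hx : InRangeS Ω a x
    · unfold Psi
      rw [Set.indicator_of_mem (show x ∈ {x | InRangeS Ω a x} from hx)]
      refine le_trans ?_ (le_max_left _ _)
      refine s4_avg (LB_pos hI.ne) (LB_top hI.ne) fun t => ?_
      rw [norm_mul, ee_norm, mul_one]
      exact hB _ ((inR_uT t x).2 hx)
    · unfold Psi
      rw [Set.indicator_of_notMem (show x ∉ {x | InRangeS Ω a x} from hx), norm_zero]
      exact le_max_right _ _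
  · intro u hu x
    unfold Psi
    by_cases hx : InRangeS Ω a x
    · rw [Set.indicator_of_mem (show x ∈ {x | InRangeS Ω a x} from hx),
        Set.indicator_of_mem (show u * x ∈ {x | InRangeS Ω a x} from (inR_u hu x).2 hx)]
      exact mnS_eq θ₀ θ hI hc h𝔡 hh ih hu x
    · rw [Set.indicator_of_notMem (show x ∉ {x | InRangeS Ω a x} from hx),
        Set.indicator_of_notMem (show u * x ∉ {x | InRangeS Ω a x} from fun h' => hx ((inR_u hu x).1 h')), mul_zero]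
  · obtain ⟨N, hN⟩ := fs_S hI hc₀ hΓ hΩ ha
    refine ⟨N, fun x => le_trans (Set.encard_le_encard ?_) (hN x)⟩
    rintro c ⟨h1, h2⟩
    refine ⟨h1, ?_⟩
    by_contra h3
    exact h2 (Set.indicator_of_notMem (show _ ∉ {x | InRangeS Ω a x} from h3) _)

end

end Pool.Agent.Lib.H67G
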