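import Pool.Agent.Lib.H67G.S4
import Pool.Agent.Lib.H67G.E7
import Pool.Agent.Lib.H67G.B2
import Pool.Agent.Lib.H67G.B5
import Pool.Agent.Lib.H67G.B6

/-!
# S5 (M/L): the large sieve inequality from the count
-/

namespace Pool.Agent.Lib.H67G

open MeasureTheory Matrix NumberField IsDedekindDomain Pool.Agent.Lib.H89N Pool.Agent.Lib.H33W
open scoped ENNReal Pointwise

noncomputable section

set_option linter.unusedSectionVars false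

variable {n : ℕ} {K : Type} [Field K] [NumberField K]

variable [NeZero n] {𝔪 : Ideal (𝓞 K)} {𝔡 : TI n → Ideal (𝓞 K)} {Γ : Subgroup (SP n K)} {θ₀ : EE K →ₗ[ℝ] ℝ} {θ : Fin n → (EE K →ₗ[ℝ] ℝ)}

theorem s5_S {S : Set (SP n (EE K))} (hS : ∀ t x, uT t * x ∈ S ↔ x ∈ S) {u : SP n K} (hu : u ∈ UGS n K) (x : SP n (EE K)) :
    embS u * x ∈ S ↔ x ∈ S := by
  have e : uT (cuS (embS u)) = embS u := uT_cuS (isUS_emb.2 hu)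
  rw [← e]
  exact hS _ _

theorem s5_gen (μ : Measure (SP n (EE K))) [μ.IsHaarMeasure] {Ψ : SP n (EE K) → ℂ} (hP : PsD Γ 𝔡 θ₀ θ Ψ)
    {S F_U : Set (SP n (EE K))} (hU : SF (Γ ⊓ UGS n K) F_U)
    (mS : MeasurableSet S) (hS : ∀ t x, uT t * x ∈ S ↔ x ∈ S) (hS' : ∀ x, x ∉ S → Ψ x = 0) (hF : μ (F_U ∩ S) ≠ ⊤)
    {E : SP n (EE K) → ℂ} (mE : Measurable E) (iE : ∀ u ∈ Γ ⊓ UGS n K, ∀ x, E (embS u * x) = E x) {BE : ℝ} (bE : ∀ x ∈ S, ‖E x‖ ≤ BE)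
    (hE : ∀ x ∈ S, ⨍ t in LB 𝔡, ee (-chS θ₀ θ t) * E (uT t * x) = Ψ x) :
    ∫ x in F_U, star (Ψ x) * E x ∂μ = ∫ x in F_U, ((‖Ψ x‖ ^ 2 : ℝ) : ℂ) ∂μ := by
  have e1 : ∫ x in F_U, star (Ψ x) * E x ∂μ = ∫ x in F_U ∩ S, star (Ψ x) * E x ∂μ :=
    setIntegral_eq_of_subset_of_forall_diff_eq_zero hU.meas Set.inter_subset_left fun x hx => by
      have h : x ∉ S := fun h => hx.2 ⟨hx.1, h⟩
      rw [hS' x h, star_zero, zero_mul]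
  have e2 : ∫ x in F_U, ((‖Ψ x‖ ^ 2 : ℝ) : ℂ) ∂μ = ∫ x in F_U ∩ S, ((‖Ψ x‖ ^ 2 : ℝ) : ℂ) ∂μ :=
    setIntegral_eq_of_subset_of_forall_diff_eq_zero hU.meas Set.inter_subset_left fun x hx => by
      have h : x ∉ S := fun h => hx.2 ⟨hx.1, h⟩
      rw [hS' x h]
      simp
  obtain ⟨BΨ, hBΨ⟩ := hP.bdd
  have mφ : Measurable fun x => star (Ψ x) * E x := (continuous_star.measurable.comp hP.meas).mul mE
  have hav := avu_cx (avgS μ) (sf_LB hP.hasI) (sf_sub.1 hU) (LB_pos hP.hasI.ne) (LB_top hP.hasI.ne) mS hS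
    (fun γ _ x => s5_S hS γ.2 x) hF mφ (fun γ hγ x => by
      have hm : (γ : SP n K) ∈ Γ ⊓ UGS n K := Subgroup.mem_inf.2 ⟨hγ, γ.2⟩
      have h1 : Ψ (embS (γ : SP n K) * x) = Ψ x := psd_inv hP hm x
      have h2 : E (embS (γ : SP n K) * x) = E x := iE _ hm x
      show star (Ψ (embS (γ : SP n K) * x)) * E (embS (γ : SP n K) * x) = _
      rw [h1, h2]) (B := BΨ * BE) (fun x hx => by
      rw [norm_mul, norm_star]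
      exact mul_le_mul (hBΨ x) (bE x hx) (norm_nonneg _) ((norm_nonneg _).trans (hBΨ x)))
  rw [e1, e2, ← hav]
  refine setIntegral_congr_fun (hU.meas.inter mS) fun x hx => ?_
  show ⨍ t in LB 𝔡, star (Ψ (uT t * x)) * E (uT t * x) = ((‖Ψ x‖ ^ 2 : ℝ) : ℂ)
  have e3 : ∀ t : TI n → EE K, star (Ψ (uT t * x)) * E (uT t * x) = star (Ψ x) * (ee (-chS θ₀ θ t) * E (uT t * x)) := by
    intro t
    rw [hP.eq _ (isUS_uT t), cuS_uT, star_mul', ee_conj]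
    ring
  simp_rw [e3]
  rw [setAverage_eq, integral_const_mul, ← mul_smul_comm, ← setAverage_eq, hE x hx.2]
  have h := Complex.conj_mul' (Ψ x)
  rw [← Complex.star_def] at h
  rw [h]
  push_cast
  rfl

theorem s5_mul (c : ℝ≥0∞) (hc0 : c ≠ 0) (hc1 : c ≠ ⊤) {x y : ℝ≥0∞} (h : c * x ≤ c * y) : x ≤ y :=
  (ENNReal.mul_le_mul_iff_right hc0 hc1).1 h

theorem s5_nu_meas (Ω : Set (SP n (EE K))) (hΩ : IsCompact Ω) {a : Fin n → ℝ} (ha : ∀ i, 0 < a i) {F : Set (SP n (EE K))}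
    (mF : MeasurableSet F) : Measurable (nuS Γ Ω a F) := by
  unfold nuS
  refine Measurable.ennreal_tsum fun γ => ?_
  refine measurable_const.mul ?_
  exact (measurable_one.indicator (mF.inter (inR_meas hΩ ha))).comp (continuous_const_mul (embS γ)).measurable

theorem s5_nu_inv (Ω : Set (SP n (EE K))) (a : Fin n → ℝ) (F : Set (SP n (EE K))) {u : SP n K} (hu : u ∈ Γ ⊓ UGS n K) (x : SP n (EE K)) :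
    nuS Γ Ω a F (embS u * x) = nuS Γ Ω a F x := by
  unfold nuS
  rw [← (Equiv.mulRight u⁻¹).tsum_eq]
  refine tsum_congr fun γ => ?_
  have h1 : u⁻¹ ∈ Γ := inv_mem (Subgroup.mem_inf.1 hu).1
  have h2 : u⁻¹ ∈ GJs 0 Γ := inv_mem (gjs_u Γ hu)
  have e1 : (Equiv.mulRight u⁻¹) γ = γ * u⁻¹ := rfl
  have e2 : γ * u⁻¹ ∈ ((Γ : Set (SP n K)) \ (GJs 0 Γ : Set (SP n K))) ↔ γ ∈ ((Γ : Set (SP n K)) \ (GJs 0 Γ : Set (SP n K))) := by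
    rw [Set.mem_sdiff, Set.mem_sdiff, SetLike.mem_coe, SetLike.mem_coe, SetLike.mem_coe, SetLike.mem_coe,
      Subgroup.mul_mem_cancel_right _ h1, Subgroup.mul_mem_cancel_right _ h2]
  have e3 : embS (γ * u⁻¹) * (embS u * x) = embS γ * x := by
    rw [map_mul, map_inv, mul_assoc, inv_mul_cancel_left]
  rw [e1, e3]
  by_cases h : γ ∈ ((Γ : Set (SP n K)) \ (GJs 0 Γ : Set (SP n K)))
  · rw [Set.indicator_of_mem h, Set.indicator_of_mem (e2.2 h)]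
    rfl
  · rw [Set.indicator_of_notMem h, Set.indicator_of_notMem fun h' => h (e2.1 h')]

/-- PROOF. (i) `∫_{F_U} conj(Ψ) h = ∫_{F_U ∩ S} conj(Ψ) h = ∫_{F_U ∩ S} ⨍_{t ∈ LB} conj(Ψ(uT t x)) h(uT t x)` (`avu_cx` with `avgS`, `sf_sub`, `sf_LB`, `fin_S`, `bdd_S`) and `⨍_t conj(ee(chS t) Ψ(x)) h(uT t x) = conj(Ψ(x)) MnS h (x) = |Ψ(x)|²` on `S`. -/
theorem s5_one (μ : Measure (SP n (EE K))) [μ.IsHaarMeasure] (hI : HasI Γ 𝔡) (hc : ChI 𝔪 θ₀ θ) (h𝔡 : ∀ p, 𝔡 p ≤ 𝔪) {c₀ : ℕ} (hc₀ : c₀ ≠ 0)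
    (hΓ : HasDS c₀ Γ) {Ω : Set (SP n (EE K))} (hΩ : IsCompact Ω) {a : Fin n → ℝ} (ha : ∀ i, 0 < a i) {h : SP n (EE K) → ℂ} (hh : Continuous h)
    (ih : ∀ γ ∈ Γ, ∀ x, h (embS γ * x) = h x) {F_U : Set (SP n (EE K))} (hU : SF (Γ ⊓ UGS n K) F_U) :
    ∫ x in F_U, star (Psi 𝔡 θ₀ θ Ω a h x) * h x ∂μ = ∫ x in F_U, ((‖Psi 𝔡 θ₀ θ Ω a h x‖ ^ 2 : ℝ) : ℂ) ∂μ := by
  obtain ⟨B, hB⟩ := bdd_S hI hΩ ha hh ih
  refine s5_gen μ (psd_top hI hc h𝔡 hc₀ hΓ hΩ ha hh ih) hU (inR_meas hΩ ha) inR_uT (fun x hx => Set.indicator_of_notMem hx _)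
    (fin_S μ hI hΩ ha hU) hh.measurable (fun u hu x => ih u (Subgroup.mem_inf.1 hu).1 x) hB fun x hx => ?_
  unfold Psi
  rw [Set.indicator_of_mem hx]
  unfold MnS
  congr 1
  funext t
  rw [mul_comm]

/-- PROOF. (ii) The same with `EJ Γ (GJs 0 Γ) Ψ` in place of `h` (measurable, bounded: `ej_meas`, `ej_bdd`; invariant under `Γ ∩ U`: `ej_inv`): `⨍_t conj(Ψ(uT t x)) E(uT t x) = conj(Ψ(x)) ⨍_t ee(-chS t) E(uT t x) = conj(Ψ(x)) Ψ(x)` (`e_fin`). -/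
theorem s5_two (μ : Measure (SP n (EE K))) [μ.IsHaarMeasure] {Ψ : SP n (EE K) → ℂ} (hP : PsD Γ 𝔡 θ₀ θ Ψ) (hθ : θ₀ ≠ 0)
    (hθ' : ∀ i : Fin n, (i : ℕ) + 1 < n → θ i ≠ 0) (hne : ∀ γ ∈ Γ, bD γ 0 0 ≠ -1)
    {𝔟 : Fin n → Ideal (𝓞 K)} (h𝔡 : ∀ p : UI n, 𝔡 (Sum.inr p) = 𝔟 p.1.2) (h𝔟 : ∀ l, 𝔟 l ≠ ⊥) {S F_U : Set (SP n (EE K))} (hU : SF (Γ ⊓ UGS n K) F_U)
    (mS : MeasurableSet S) (hS : ∀ t x, uT t * x ∈ S ↔ x ∈ S) (hS' : ∀ x, x ∉ S → Ψ x = 0) (hF : μ (F_U ∩ S) ≠ ⊤) :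
    ∫ x in F_U, star (Ψ x) * EJ Γ (GJs 0 Γ) Ψ x ∂μ = ∫ x in F_U, ((‖Ψ x‖ ^ 2 : ℝ) : ℂ) ∂μ := by
  have hle : GJs 0 Γ ≤ Γ := fun γ hγ => hγ.1
  obtain ⟨B, hB⟩ := ej_bdd hP
  exact s5_gen μ hP hU mS hS hS' hF (ej_meas hP hle) (fun u hu x => ej_inv hP (gjs_u Γ) hle (gjs_u Γ hu) x)
    (fun x _ => hB _ hle x) fun x _ => e_fin hP hθ hθ' hne h𝔡 h𝔟 x

/-- PROOF. (iii) `sym_sum` with `𝒩 = Γ \ GJs 0 Γ`, `p = ‖Ψ‖ₑ`: `∫ |Ψ(x)| ∑_γ 1_F(γ x) |Ψ(γ x)| ≤ ∫_{F_U} |Ψ|² nuS` (`p(γ x) ≠ 0` implies `γ x ∈ S`), `|Ψ|² nuS` is invariant under `Γ ∩ U` (`nuS (u x) = nuS x`: replace `γ` by `γ u⁻¹`), so by `avu_lint`: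
`vol(LB) ∫_{F_U} |Ψ|² nuS = ∫_{F_U} |Ψ(x)|² ∫_{t ∈ LB} nuS(uT t x) ≤ C vol(LB) ∫_{F_U} |Ψ|²` (`|Ψ(uT t x)| = |Ψ(x)|`; `hcount` where `Ψ(x) ≠ 0`). Then `ls_abs` with (i), (ii), (iii); the data `LSD`: `fin_S`, `psd_top`, `bdd_S`; `Pp = GJs 0 Γ`. -/
theorem ls_count (μ : Measure (SP n (EE K))) [μ.IsHaarMeasure] (hI : HasI Γ 𝔡) (hc : ChI 𝔪 θ₀ θ) (h𝔪 : ∀ p, 𝔡 p ≤ 𝔪) {c₀ : ℕ} (hc₀ : c₀ ≠ 0)
    (hΓ : HasDS c₀ Γ) (hθ : θ₀ ≠ 0) (hθ' : ∀ i : Fin n, (i : ℕ) + 1 < n → θ i ≠ 0) (hne : ∀ γ ∈ Γ, bD γ 0 0 ≠ -1)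
    {𝔟 : Fin n → Ideal (𝓞 K)} (h𝔡 : ∀ p : UI n, 𝔡 (Sum.inr p) = 𝔟 p.1.2) (h𝔟 : ∀ l, 𝔟 l ≠ ⊥) {Ω : Set (SP n (EE K))} (hΩ : IsCompact Ω)
    {a : Fin n → ℝ} (ha : ∀ i, 0 < a i) {h : SP n (EE K) → ℂ} (hh : Continuous h) (ih : ∀ γ ∈ Γ, ∀ x, h (embS γ * x) = h x)
    {F' F_U : Set (SP n (EE K))} (hF' : SF Γ F') (hU : SF (Γ ⊓ UGS n K) F_U) {C : ℝ≥0∞}
    (hcount : ∀ x, InRangeS Ω a x → ∫⁻ t in LB 𝔡, nuS Γ Ω a F_U (uT t * x) ≤ C * volume (LB 𝔡)) :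
    ∫⁻ x in F_U, ‖Psi 𝔡 θ₀ θ Ω a h x‖ₑ ^ 2 ∂μ ≤ (1 + C) * ∫⁻ x in F', ‖h x‖ₑ ^ 2 ∂μ := by
  have hP := psd_top hI hc h𝔪 hc₀ hΓ hΩ ha hh ih
  have mS := inR_meas hΩ ha
  have hle : GJs 0 Γ ≤ Γ := fun γ hγ => hγ.1
  have sΨ : ∀ x, x ∉ {x | InRangeS Ω a x} → Psi 𝔡 θ₀ θ Ω a h x = 0 := fun x hx => Set.indicator_of_notMem hx _
  have hfin := fin_S μ hI hΩ ha hU
  have D : LSD μ (Γ ⊓ UGS n K) Γ F' F_U {x | InRangeS Ω a x} (Psi 𝔡 θ₀ θ Ω a h) h :=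
    { le := inf_le_left
      sf' := hF'
      sfU := hU
      mS := mS
      fin := hfin
      mΨ := hP.meas
      iΨ := fun u hu x => psd_inv hP hu x
      sΨ := sΨ
      bΨ := hP.bdd
      mh := hh.measurable
      ih := ih
      bh := bdd_S hI hΩ ha hh ih
      fs := hP.fs }
  refine ls_abs D (Pp := (GJs 0 Γ : Set (SP n K))) (fun γ hγ => hle hγ)
    (fun u hu g => Subgroup.mul_mem_cancel_left _ (gjs_u Γ hu))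
    (s5_one μ hI hc h𝔪 hc₀ hΓ hΩ ha hh ih hU)
    (s5_two μ hP hθ hθ' hne h𝔡 h𝔟 hU mS inR_uT sΨ hfin) ?_
  generalize hΨ : Psi 𝔡 θ₀ θ Ω a h = Ψ at hP sΨ
  have mp : Measurable fun x => ‖Ψ x‖ₑ := hP.meas.enorm
  have hsym := sym_sum (μ := μ) hU.meas (𝒩 := (Γ : Set (SP n K)) \ (GJs 0 Γ : Set (SP n K))) (fun γ => by
    rw [Set.mem_sdiff, Set.mem_sdiff, SetLike.mem_coe, SetLike.mem_coe, SetLike.mem_coe, SetLike.mem_coe, inv_mem_iff, inv_mem_iff])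
    mp (fun x => enorm_ne_top)
  refine hsym.trans ?_
  have mnu : Measurable (nuS Γ Ω a F_U) := s5_nu_meas Ω hΩ ha hU.meas
  have mφ : Measurable fun x => ‖Ψ x‖ₑ ^ 2 * nuS Γ Ω a F_U x := (mp.pow_const 2).mul mnu
  have step1 : ∫⁻ x in F_U, ‖Ψ x‖ₑ ^ 2 * ∑' γ : SP n K, ((Γ : Set (SP n K)) \ (GJs 0 Γ : Set (SP n K))).indicator (1 : SP n K → ℝ≥0∞) γ *
      (F_U ∩ {x | ‖Ψ x‖ₑ ≠ 0}).indicator (1 : SP n (EE K) → ℝ≥0∞) (γ • x) ∂μ ≤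
      ∫⁻ x in F_U, ‖Ψ x‖ₑ ^ 2 * nuS Γ Ω a F_U x ∂μ := by
    refine lintegral_mono fun x => ?_
    refine mul_le_mul_right ?_ _
    unfold nuS
    refine ENNReal.tsum_le_tsum fun γ => ?_
    refine mul_le_mul_right ?_ _
    show (F_U ∩ {x | ‖Ψ x‖ₑ ≠ 0}).indicator (1 : SP n (EE K) → ℝ≥0∞) (embS γ * x) ≤ _
    refine Set.indicator_le_indicator_of_subset ?_ (fun _ => zero_le) _
    rintro y ⟨hy1, hy2⟩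
    refine ⟨hy1, ?_⟩
    by_contra hy3
    exact hy2 (by rw [sΨ y hy3, enorm_zero])
  refine step1.trans ?_
  refine s5_mul (volume (LB 𝔡)) (LB_pos hI.ne) (LB_top hI.ne) ?_
  rw [← avu_lint (avgS μ) (sf_LB hI) (sf_sub.1 hU) mφ (fun γ hγ x => by
    have hm : (γ : SP n K) ∈ Γ ⊓ UGS n K := Subgroup.mem_inf.2 ⟨hγ, γ.2⟩
    have h1 : Ψ (embS (γ : SP n K) * x) = Ψ x := psd_inv hP hm x
    have h2 : nuS Γ Ω a F_U (embS (γ : SP n K) * x) = nuS Γ Ω a F_U x := s5_nu_inv Ω a F_U hm x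
    show ‖Ψ (embS (γ : SP n K) * x)‖ₑ ^ 2 * nuS Γ Ω a F_U (embS (γ : SP n K) * x) = _
    rw [h1, h2])]
  have e4 : volume (LB 𝔡) * (C * ∫⁻ x in F_U, ‖Ψ x‖ₑ ^ 2 ∂μ) = ∫⁻ x in F_U, ‖Ψ x‖ₑ ^ 2 * (C * volume (LB 𝔡)) ∂μ := by
    rw [lintegral_mul_const _ (mp.pow_const 2)]
    ring
  rw [e4]
  refine lintegral_mono fun x => ?_
  show ∫⁻ t in LB 𝔡, ‖Ψ (uT t * x)‖ₑ ^ 2 * nuS Γ Ω a F_U (uT t * x) ≤ _
  have e5 : ∀ t : TI n → EE K, ‖Ψ (uT t * x)‖ₑ = ‖Ψ x‖ₑ := by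
    intro t
    rw [hP.eq _ (isUS_uT t), enorm_mul]
    have : ‖ee (chS θ₀ θ (cuS (uT t)))‖ₑ = 1 := by
      rw [← ofReal_norm_eq_enorm, ee_norm, ENNReal.ofReal_one]
    rw [this, one_mul]
  simp_rw [e5]
  have mt : Measurable fun t : TI n → EE K => nuS Γ Ω a F_U (uT t * x) :=
    mnu.comp (uT_cont.mul continuous_const).measurable
  rw [lintegral_const_mul _ mt]
  by_cases hx : InRangeS Ω a x
  · exact mul_le_mul_right (hcount x hx) _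
  · rw [sΨ x hx]
    simp

end

end Pool.Agent.Lib.H67G
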