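import Pool.Agent.Lib.H33W.Stm
import Pool.Agent.Lib.H67G.Pw

/-!
# Statement: the density hypothesis for the globally generic spectrum of `Sp_{2n}` over a number field

`EE K = K ⊗ ℝ`, `FD K` (a fundamental domain of `𝓞`), `Den`, `UI`, `upM`, `up`, `sd`, `ee`, `Chr` are the definitions of `Pool.Agent.Lib.H89N.Stm` and `Pool.Agent.Lib.H33W.Stm`.
-/

namespace Pool.Agent.Lib.H67G

open MeasureTheory Matrix NumberField IsDedekindDomain Pool.Agent.Lib.H89N Pool.Agent.Lib.H33W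

noncomputable section

/-! ## The symplectic group -/

/-- The symplectic group `Sp_{2n}(R)`: the matrices `g` with `g J gᵗ = J`, `J = [[0, -1], [1, 0]]`. -/
@[ext] structure SP (n : ℕ) (R : Type) [CommRing R] where
  /-- The matrix. -/
  val : Matrix (Fin n ⊕ Fin n) (Fin n ⊕ Fin n) R
  prop : val * Matrix.J (Fin n) R * valᵀ = Matrix.J (Fin n) R

namespace SP

variable {n : ℕ} {R : Type} [CommRing R]

theorem mul_inv_aux (a : SP n R) : a.val * (-(Matrix.J (Fin n) R * a.valᵀ * Matrix.J (Fin n) R)) = 1 := by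
  have h := a.prop
  calc a.val * (-(Matrix.J (Fin n) R * a.valᵀ * Matrix.J (Fin n) R))
      = -(a.val * Matrix.J (Fin n) R * a.valᵀ * Matrix.J (Fin n) R) := by
        simp only [mul_neg, Matrix.mul_assoc]
    _ = 1 := by rw [h, Matrix.J_squared, neg_neg]

theorem inv_mul_aux (a : SP n R) : (-(Matrix.J (Fin n) R * a.valᵀ * Matrix.J (Fin n) R)) * a.val = 1 :=
  mul_eq_one_comm.1 a.mul_inv_aux

theorem prop' (a : SP n R) : a.valᵀ * Matrix.J (Fin n) R * a.val = Matrix.J (Fin n) R := by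
  have h := a.inv_mul_aux
  have h1 : Matrix.J (Fin n) R * ((-(Matrix.J (Fin n) R * a.valᵀ * Matrix.J (Fin n) R)) * a.val) =
      Matrix.J (Fin n) R := by rw [h, Matrix.mul_one]
  have h2 : Matrix.J (Fin n) R * ((-(Matrix.J (Fin n) R * a.valᵀ * Matrix.J (Fin n) R)) * a.val) =
      -((Matrix.J (Fin n) R * Matrix.J (Fin n) R) * (a.valᵀ * Matrix.J (Fin n) R * a.val)) := by
    simp only [neg_mul, mul_neg, Matrix.mul_assoc]
  rw [h2, Matrix.J_squared] at h1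
  simpa using h1

instance : Mul (SP n R) := ⟨fun a b => ⟨a.val * b.val, by
  have h : a.val * b.val * Matrix.J (Fin n) R * (a.val * b.val)ᵀ =
      a.val * (b.val * Matrix.J (Fin n) R * b.valᵀ) * a.valᵀ := by
    rw [Matrix.transpose_mul]
    simp only [Matrix.mul_assoc]
  rw [h, b.prop, a.prop]⟩⟩

instance : One (SP n R) := ⟨⟨1, by simp⟩⟩

instance : Inv (SP n R) := ⟨fun a => ⟨-(Matrix.J (Fin n) R * a.valᵀ * Matrix.J (Fin n) R), by
  have h : -(Matrix.J (Fin n) R * a.valᵀ * Matrix.J (Fin n) R) * Matrix.J (Fin n) R *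
      (-(Matrix.J (Fin n) R * a.valᵀ * Matrix.J (Fin n) R))ᵀ =
      -((Matrix.J (Fin n) R * (a.valᵀ * Matrix.J (Fin n) R * a.val)) * Matrix.J (Fin n) R) := by
    rw [Matrix.transpose_neg, Matrix.transpose_mul, Matrix.transpose_mul, Matrix.J_transpose,
      Matrix.transpose_transpose]
    have e : Matrix.J (Fin n) R * a.valᵀ * Matrix.J (Fin n) R * Matrix.J (Fin n) R =
        -(Matrix.J (Fin n) R * a.valᵀ) := by
      rw [Matrix.mul_assoc (Matrix.J (Fin n) R * a.valᵀ), Matrix.J_squared, mul_neg, Matrix.mul_one]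
    calc -(Matrix.J (Fin n) R * a.valᵀ * Matrix.J (Fin n) R) * Matrix.J (Fin n) R *
          (-(-Matrix.J (Fin n) R * (a.val * -Matrix.J (Fin n) R)))
        = -((Matrix.J (Fin n) R * a.valᵀ * Matrix.J (Fin n) R * Matrix.J (Fin n) R) *
            (-(-Matrix.J (Fin n) R * (a.val * -Matrix.J (Fin n) R)))) := by
          simp only [neg_mul]
      _ = -((Matrix.J (Fin n) R * (a.valᵀ * Matrix.J (Fin n) R * a.val)) * Matrix.J (Fin n) R) := by
          rw [e]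
          simp only [neg_mul, mul_neg, neg_neg, Matrix.mul_assoc]
  rw [h, a.prop', Matrix.J_squared, neg_mul, Matrix.one_mul, neg_neg]⟩⟩

@[simp] theorem val_mul (a b : SP n R) : (a * b).val = a.val * b.val := rfl

@[simp] theorem val_one : (1 : SP n R).val = 1 := rfl

theorem val_inv (a : SP n R) : (a⁻¹).val = -(Matrix.J (Fin n) R * a.valᵀ * Matrix.J (Fin n) R) := rfl

instance : Group (SP n R) where
  mul_assoc a b c := SP.ext (Matrix.mul_assoc _ _ _)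
  one_mul a := SP.ext (Matrix.one_mul _)
  mul_one a := SP.ext (Matrix.mul_one _)
  inv_mul_cancel a := SP.ext a.inv_mul_aux

instance [TopologicalSpace R] : TopologicalSpace (SP n R) := TopologicalSpace.induced SP.val inferInstance

instance (K : Type) [Field K] : MeasurableSpace (SP n (EE K)) := borel _

instance (K : Type) [Field K] : BorelSpace (SP n (EE K)) := ⟨rfl⟩

/-- Base change. -/
def map {S : Type} [CommRing S] (f : R →+* S) : SP n R →* SP n S where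
  toFun a := ⟨a.val.map f, by
    have h := congrArg (fun A : Matrix (Fin n ⊕ Fin n) (Fin n ⊕ Fin n) R => A.map f) a.prop
    have hJ : (Matrix.J (Fin n) R).map f = Matrix.J (Fin n) S := by
      ext i j
      rcases i with i | i <;> rcases j with j | j <;>
        simp [Matrix.J, Matrix.one_apply, apply_ite f]
    simpa only [Matrix.map_mul, hJ, ← Matrix.transpose_map] using h⟩
  map_one' := by
    apply SP.ext
    simp
  map_mul' a b := by
    apply SP.ext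
    simp [Matrix.map_mul]

end SP

/-! ## The unipotent group -/

/-- The positions on and above the diagonal. -/
abbrev SI (n : ℕ) : Type := {p : Fin n × Fin n // p.1 ≤ p.2}

/-- The symmetric matrix with the entries `Y` on and above the diagonal. -/
def syM {n : ℕ} {R : Type} (Y : SI n → R) : Matrix (Fin n) (Fin n) R :=
  Matrix.of fun a b => if h : a ≤ b then Y ⟨(a, b), h⟩ else Y ⟨(b, a), (not_le.1 h).le⟩

theorem syM_tr {n : ℕ} {R : Type} (Y : SI n → R) : (syM Y)ᵀ = syM Y := by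
  ext a b
  rw [Matrix.transpose_apply]
  unfold syM
  rw [Matrix.of_apply, Matrix.of_apply]
  by_cases h1 : a ≤ b
  · by_cases h2 : b ≤ a
    · have e : a = b := le_antisymm h1 h2
      subst e
      rfl
    · rw [dif_pos h1, dif_neg h2]
  · have h2 : b ≤ a := (not_le.1 h1).le
    rw [dif_pos h2, dif_neg h1]

/-- The element `n(Y) = [[1, Y], [0, 1]]` of `Sp_{2n}(R)`, `Y` symmetric. -/
def nS {n : ℕ} {R : Type} [CommRing R] (Y : SI n → R) : SP n R :=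
  ⟨Matrix.fromBlocks 1 (syM Y) 0 1, by
    rw [Matrix.J, Matrix.fromBlocks_transpose, Matrix.fromBlocks_multiply, Matrix.fromBlocks_multiply]
    simp [syM_tr]⟩

theorem mS_aux {n : ℕ} {R : Type} [CommRing R] (A B : Matrix (Fin n) (Fin n) R) (h : A * B = 1) :
    Matrix.fromBlocks Bᵀ 0 0 A * Matrix.J (Fin n) R * (Matrix.fromBlocks Bᵀ 0 0 A)ᵀ = Matrix.J (Fin n) R := by
  rw [Matrix.J, Matrix.fromBlocks_transpose, Matrix.fromBlocks_multiply, Matrix.fromBlocks_multiply]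
  have e1 : Bᵀ * Aᵀ = 1 := by rw [← Matrix.transpose_mul, h, Matrix.transpose_one]
  simp [e1, h]

/-- The element `m(A) = [[(A⁻¹)ᵗ, 0], [0, A]]` of `Sp_{2n}(R)`, `A ∈ SL_n(R)`. -/
def mS {n : ℕ} {R : Type} [CommRing R] (A : SpecialLinearGroup (Fin n) R) : SP n R :=
  ⟨Matrix.fromBlocks ((A⁻¹).1)ᵀ 0 0 A.1, mS_aux A.1 (A⁻¹).1 (by
    have h := congrArg Subtype.val (mul_inv_cancel A)
    exact h)⟩

variable {n : ℕ} {K : Type} [Field K] [NumberField K]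

/-- The diagonal embedding `Sp_{2n}(K) → Sp_{2n}(K ⊗ ℝ)`. -/
def embS : SP n K →* SP n (EE K) := SP.map (mixedEmbedding K)

/-- `Sp_{2n}(K)` acts on `Sp_{2n}(K ⊗ ℝ)` by left translations. -/
instance actS : MulAction (SP n K) (SP n (EE K)) where
  smul g x := embS g * x
  one_smul x := by
    change embS (1 : SP n K) * x = x
    rw [map_one, one_mul]
  mul_smul g h x := by
    change embS (g * h) * x = embS g * (embS h * x)
    rw [map_mul, mul_assoc]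

/-- The principal congruence subgroup `Γ(𝔫)`: the kernel of `Sp_{2n}(𝓞) → Sp_{2n}(𝓞/𝔫)`, as a subgroup of `Sp_{2n}(K)`. -/
def GammaS (n : ℕ) (𝔫 : Ideal (𝓞 K)) : Subgroup (SP n K) :=
  (SP.map (n := n) (Ideal.Quotient.mk 𝔫)).ker.map (SP.map (algebraMap (𝓞 K) K))

/-- The matrix `m(a) = diag(a_1⁻¹, .., a_n⁻¹, a_1, .., a_n)`. -/
def dgS (a : Fin n → ℝ) : Matrix (Fin n ⊕ Fin n) (Fin n ⊕ Fin n) (EE K) :=
  Matrix.fromBlocks (Matrix.diagonal fun i => algebraMap ℝ (EE K) (a i)⁻¹) 0 0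
    (Matrix.diagonal fun i => algebraMap ℝ (EE K) (a i))

/-! ## Hecke operators -/

/-- The elements `g` of `Sp_{2n}(𝓞[1/v])` with `g ≡ 1` modulo `𝔫` (`𝔫` prime to `v`): `g - 1` has entries in `𝔫 v ^ (-j)` for some `j`. -/
def HGS (n : ℕ) (𝔫 : Ideal (𝓞 K)) (v : HeightOneSpectrum (𝓞 K)) : Set (SP n K) :=
  {g | ∃ j, ∀ i l, Den 𝔫 v j ((g.val - 1) i l)}

variable (n K) in
/-- The lattice `𝓞 ^ (2n)` in `K ^ (2n)`. -/
def OnS : AddSubgroup (Fin n ⊕ Fin n → K) := AddSubgroup.pi Set.univ fun _ => (algebraMap (𝓞 K) K).toAddMonoidHom.range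

/-- The index of `{x ∈ 𝓞 ^ (2n) : g x ∈ 𝓞 ^ (2n)}` in `𝓞 ^ (2n)`. -/
def heightS (g : SP n K) : ℕ := ((OnS n K).comap g.val.mulVecLin.toAddMonoidHom).relIndex (OnS n K)

/-- The elements of height `q ^ k` (`q` the norm of `v`). -/
def DeltaS (n : ℕ) (𝔫 : Ideal (𝓞 K)) (v : HeightOneSpectrum (𝓞 K)) (k : ℕ) : Set (SP n K) :=
  {g | g ∈ HGS n 𝔫 v ∧ heightS g = Ideal.absNorm v.asIdeal ^ k}

/-- `f` is an eigenfunction of the Hecke operator `S_k : f ↦ ∑ f (s x)`, `s ∈ Γ(𝔫) \ Delta k` (the sum over the self-dual lattices `L` with `[L₀ : L ∩ L₀] = q ^ k`). -/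
def IsHeckeS (𝔫 : Ideal (𝓞 K)) (v : HeightOneSpectrum (𝓞 K)) (k : ℕ) (f : SP n (EE K) → ℂ) (θ : ℂ) : Prop :=
  ∃ S : Finset (SP n K), (∀ s ∈ S, s ∈ DeltaS n 𝔫 v k) ∧
    (∀ g ∈ DeltaS n 𝔫 v k, ∃! s, s ∈ S ∧ ∃ γ ∈ GammaS n 𝔫, g = γ * s) ∧
    ∀ x, ∑ s ∈ S, f (embS s * x) = θ * f x

/-- `x_1, .., x_n` are the standard Satake parameters of `f` at `v` (of norm `q`; the parameters of the standard representation of the dual group `SO_{2n+1}` are `x_i, x_i⁻¹, 1`): the eigenvalue of `S_k` is `q ^ (n k)` times the coefficient of `X ^ k` in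
`(1 - q ^ (-n) X) (1 + X) ∏_{i < n} (1 - q ^ (-2 i) X ^ 2) / ∏_i (1 - x_i X) (1 - x_i⁻¹ X)`. -/
structure SatakeS (𝔫 : Ideal (𝓞 K)) (v : HeightOneSpectrum (𝓞 K)) (f : SP n (EE K) → ℂ) (x : Fin n → ℂ) : Prop where
  ne : ∀ i, x i ≠ 0
  ev : ∀ k, IsHeckeS 𝔫 v k f ((Ideal.absNorm v.asIdeal : ℂ) ^ (n * k) *
    PowerSeries.coeff k (stdP (Ideal.absNorm v.asIdeal) x))

/-- `f` has Satake parameters at `v` with some `max (|x_i|, |x_i⁻¹|) ≥ q ^ ν`. -/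
def FarS (𝔫 : Ideal (𝓞 K)) (v : HeightOneSpectrum (𝓞 K)) (ν : ℝ) (f : SP n (EE K) → ℂ) : Prop :=
  ∃ x : Fin n → ℂ, SatakeS 𝔫 v f x ∧ ∃ i, (Ideal.absNorm v.asIdeal : ℝ) ^ ν ≤ max ‖x i‖ ‖(x i)⁻¹‖

/-! ## Whittaker coefficients -/

/-- The coordinates of the unipotent group: the positions on and above the diagonal of `Y` and the positions above the diagonal of `A`. -/
abbrev TI (n : ℕ) : Type := SI n ⊕ UI n

/-- The element `u = m(A) n(Y)` of the unipotent group `U`, `A` unipotent upper triangular, with the coordinates `t` (`Y = t ∘ inl`, `A = up (t ∘ inr)`). -/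
def uT {R : Type} [CommRing R] (t : TI n → R) : SP n R :=
  mS (up fun p => t (Sum.inr p)) * nS fun p => t (Sum.inl p)

/-- The exponent of the character `ψ(u) = e(θ₀(Y_11) + ∑_i θ_i(A_{i,i+1}))` of `U`. -/
def chS [NeZero n] (θ₀ : EE K →ₗ[ℝ] ℝ) (θ : Fin n → (EE K →ₗ[ℝ] ℝ)) (t : TI n → EE K) : ℝ :=
  θ₀ (t (Sum.inl ⟨(0, 0), le_refl _⟩)) + sd θ (upM fun p => t (Sum.inr p))

variable (n K) in
/-- The product of the fundamental domains of `𝓞` in `K ⊗ ℝ`. -/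
def BoxS : Set (TI n → EE K) := {t | ∀ p, t p ∈ FD K}

/-- **The Whittaker coefficient** of `f` at `x`: the mean value over `U(N 𝓞) \ U(K ⊗ ℝ)` (`f` invariant under `U(N 𝓞)`) of `f (u x)` times the complex conjugate of `ψ(u)`. -/
def WhS [NeZero n] (N : ℕ) (θ₀ : EE K →ₗ[ℝ] ℝ) (θ : Fin n → (EE K →ₗ[ℝ] ℝ)) (f : SP n (EE K) → ℂ) (x : SP n (EE K)) : ℂ :=
  ⨍ t in BoxS n K, f (uT (fun p => (N : EE K) * t p) * x) * ee (-chS θ₀ θ fun p => (N : EE K) * t p)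

/-- `ψ` is trivial on `U(𝔫)` and unramified at `v`: `θ_i(𝔫) ⊆ ℤ`, `θ_i(𝔫 v⁻¹) ⊄ ℤ` for `θ₀` and all the `θ_i`, `i < n`. -/
structure ChrS (𝔫 : Ideal (𝓞 K)) (v : HeightOneSpectrum (𝓞 K)) (θ₀ : EE K →ₗ[ℝ] ℝ) (θ : Fin n → (EE K →ₗ[ℝ] ℝ)) :
    Prop where
  int0 : ∀ z ∈ 𝔫, ∃ m : ℤ, θ₀ (mixedEmbedding K (z : K)) = m
  prim0 : ∃ z : K, Den 𝔫 v 1 z ∧ ∀ m : ℤ, θ₀ (mixedEmbedding K z) ≠ m
  chr : Chr 𝔫 v θ

/-- `a_i > 0`, `N a_1 ^ (2d) ≤ 1`, `N a_{i+1} ^ d ≤ a_i ^ d` (`d` the degree of `K`, `N` the norm of `𝔫`): all simple roots are `≥ N ^ (1/d)` on `m(a)`. -/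
structure TorS [NeZero n] (𝔫 : Ideal (𝓞 K)) (a : Fin n → ℝ) : Prop where
  pos : ∀ i, 0 < a i
  long : (Ideal.absNorm 𝔫 : ℝ) * a 0 ^ (2 * Module.finrank ℚ K) ≤ 1
  ratio : ∀ (i : Fin n) (h : (i : ℕ) + 1 < n), (Ideal.absNorm 𝔫 : ℝ) * a ⟨i + 1, h⟩ ^ Module.finrank ℚ K ≤
    a i ^ Module.finrank ℚ K

/-- `x ∈ U m(a) Ω`. -/
def InRangeS (Ω : Set (SP n (EE K))) (a : Fin n → ℝ) (x : SP n (EE K)) : Prop :=
  ∃ t : TI n → EE K, ∃ ω ∈ Ω, x.val = (uT t).val * dgS a * ω.val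

/-- Continuous functions in `L²(Γ(𝔫) \ Sp_{2n}(K ⊗ ℝ))` (`F` a fundamental domain) which are eigenfunctions of the convolution operator of `φ` with eigenvalue at least one in absolute value: `∫ f (x y) φ (y) dy = lam f (x)`, `|lam| ≥ 1`. -/
structure AutS (𝔫 : Ideal (𝓞 K)) (μ : Measure (SP n (EE K))) (F : Set (SP n (EE K))) (φ f : SP n (EE K) → ℂ) : Prop where
  cont : Continuous f
  inv : ∀ γ ∈ GammaS n 𝔫, ∀ x, f (embS γ * x) = f x
  l2 : MemLp f 2 (μ.restrict F)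
  eig : ∃ lam : ℂ, 1 ≤ ‖lam‖ ∧ ∀ x, ∫ y, f (x * y) * φ y ∂μ = lam * f x

/-- **The density theorem for `Sp_{2n}`** (the statement). -/
def SDensity (n : ℕ) [NeZero n] (K : Type) [Field K] [NumberField K] : Prop :=
  ∀ (μ : Measure (SP n (EE K))) [μ.IsHaarMeasure] (φ : SP n (EE K) → ℂ), Continuous φ → HasCompactSupport φ →
    ∀ Ω : Set (SP n (EE K)), IsCompact Ω → ∃ C : ℝ, ∀ (v : HeightOneSpectrum (𝓞 K)) (𝔫 : Ideal (𝓞 K)), 𝔫 ≠ ⊥ →
    ¬𝔫 ≤ v.asIdeal → ∀ ν : ℝ, 0 ≤ ν →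
    ∀ (θ₀ : EE K →ₗ[ℝ] ℝ) (θ : Fin n → (EE K →ₗ[ℝ] ℝ)), ChrS 𝔫 v θ₀ θ → ∀ a : Fin n → ℝ, TorS 𝔫 a → ∀ x, InRangeS Ω a x →
    ∀ F : Set (SP n (EE K)), IsFundamentalDomain (GammaS n 𝔫) F μ →
    ∀ (m : ℕ) (f : Fin m → SP n (EE K) → ℂ), (∀ i, AutS 𝔫 μ F φ (f i)) →
    (∀ i k, ∫ x in F, star (f i x) * f k x ∂μ = if i = k then 1 else 0) →
    (∀ i, FarS 𝔫 v ν (f i)) →
    ∑ i, ‖WhS (Ideal.absNorm 𝔫) θ₀ θ (f i) x‖ ^ 2 ≤
      C * ((Ideal.absNorm v.asIdeal : ℝ) ^ (4 * n - 2) / (Ideal.absNorm 𝔫 : ℝ) ^ (2 * n + 1)) ^ ν *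
        (∏ p : SI n, ((a p.1.1 * a p.1.2) ^ Module.finrank ℚ K * (Ideal.absNorm 𝔫 : ℝ))⁻¹) *
        ∏ p : UI n, (a p.1.1 / a p.1.2) ^ Module.finrank ℚ K / (Ideal.absNorm 𝔫 : ℝ)

end

end Pool.Agent.Lib.H67G
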