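import Pool.Agent.Lib.H67G.Stm
import Pool.Agent.Lib.H33W.U3

/-!
# V1 (M): the unipotent group, algebra
-/

namespace Pool.Agent.Lib.H67G

open MeasureTheory Matrix NumberField IsDedekindDomain Pool.Agent.Lib.H89N Pool.Agent.Lib.H33W

noncomputable section

variable {n : ℕ} {R : Type} [CommRing R]

/-- The blocks of `g = [[A, B], [C, D]]`. -/
def bA (g : SP n R) : Matrix (Fin n) (Fin n) R := g.val.toBlocks₁₁

/-- The upper right block. -/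
def bB (g : SP n R) : Matrix (Fin n) (Fin n) R := g.val.toBlocks₁₂

/-- The lower left block. -/
def bC (g : SP n R) : Matrix (Fin n) (Fin n) R := g.val.toBlocks₂₁

/-- The lower right block. -/
def bD (g : SP n R) : Matrix (Fin n) (Fin n) R := g.val.toBlocks₂₂

/-- `g` is in the unipotent group `U`. -/
def IsUS (g : SP n R) : Prop := bC g = 0 ∧ IsUU (bD g)

/-- The coordinates of an element `m(A) n(Y) = [[A⁻ᵗ, A⁻ᵗ Y], [0, A]]` of `U`. -/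
def cuS (g : SP n R) : TI n → R
  | Sum.inl p => ((bD g)ᵀ * bB g) p.1.1 p.1.2
  | Sum.inr p => bD g p.1.1 p.1.2

/-!
PROOFS. Let `g = [[A, B], [C, D]]`; the symplectic relations `g J gᵗ = J` and `gᵗ J g = J` (`SP.prop`, `SP.prop'`) say in blocks (`fromBlocks_toBlocks`, `fromBlocks_multiply`, `fromBlocks_inj`):
`A Bᵗ` symmetric, `C Dᵗ` symmetric, `A Dᵗ - B Cᵗ = 1` and `Aᵗ C`, `Bᵗ D` symmetric, `Aᵗ D - Cᵗ B = 1` (`bl_rel`). The inverse is `[[Dᵗ, -Bᵗ], [-Cᵗ, Aᵗ]]` (`bl_inv`; `SP.val_inv`).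
If `C = 0` then `A Dᵗ = 1`, so `A = D⁻ᵗ`, and `Y = Dᵗ B` is symmetric, `B = D⁻ᵗ Y`. `uT t = [[A⁻ᵗ, A⁻ᵗ Y], [0, A]]` with `A = upM (t ∘ inr)`, `Y = syM (t ∘ inl)`.
Products: `D_(gh) = C_g B_h + D_g D_h`, so `D_(gh) = D_g D_h` if `C_g = 0`; `(m(A) n(Y)) (m(A') n(Y')) = m(A A') n(A'ᵗ Y A' + Y')`. Inverse: `(m(A) n(Y))⁻¹ = n(-Y) m(A⁻¹) = m(A⁻¹) n(-A⁻ᵗ Y A⁻¹)`.
-/

theorem val_bl (g : SP n R) : g.val = fromBlocks (bA g) (bB g) (bC g) (bD g) :=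
  (fromBlocks_toBlocks g.val).symm

theorem v1_blocks {g : SP n R} {A B C D : Matrix (Fin n) (Fin n) R} (h : g.val = fromBlocks A B C D) :
    bA g = A ∧ bB g = B ∧ bC g = C ∧ bD g = D := by
  refine ⟨?_, ?_, ?_, ?_⟩
  · unfold bA
    rw [h, toBlocks_fromBlocks₁₁]
  · unfold bB
    rw [h, toBlocks_fromBlocks₁₂]
  · unfold bC
    rw [h, toBlocks_fromBlocks₂₁]
  · unfold bD
    rw [h, toBlocks_fromBlocks₂₂]

theorem bl_mul (g h : SP n R) : bA (g * h) = bA g * bA h + bB g * bC h ∧ bB (g * h) = bA g * bB h + bB g * bD h ∧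
    bC (g * h) = bC g * bA h + bD g * bC h ∧ bD (g * h) = bC g * bB h + bD g * bD h := by
  apply v1_blocks
  rw [SP.val_mul, val_bl g, val_bl h, fromBlocks_multiply]

theorem bl_one : bA (1 : SP n R) = 1 ∧ bB (1 : SP n R) = 0 ∧ bC (1 : SP n R) = 0 ∧ bD (1 : SP n R) = 1 := by
  apply v1_blocks
  rw [SP.val_one, fromBlocks_one]

theorem bl_inv (g : SP n R) : bA g⁻¹ = (bD g)ᵀ ∧ bB g⁻¹ = -(bB g)ᵀ ∧ bC g⁻¹ = -(bC g)ᵀ ∧ bD g⁻¹ = (bA g)ᵀ := by
  apply v1_blocks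
  have e := val_bl g
  rw [SP.val_inv, e, Matrix.J, fromBlocks_transpose, fromBlocks_multiply, fromBlocks_multiply,
    fromBlocks_neg]
  simp only [Matrix.mul_zero, Matrix.zero_mul, Matrix.neg_mul, Matrix.one_mul, Matrix.mul_neg,
    Matrix.mul_one, zero_add, add_zero, neg_neg]

theorem bl_ext {g h : SP n R} (hA : bA g = bA h) (hB : bB g = bB h) (hC : bC g = bC h) (hD : bD g = bD h) : g = h := by
  apply SP.ext
  rw [val_bl g, val_bl h, hA, hB, hC, hD]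

/-- The symplectic relations. -/
theorem bl_rel (g : SP n R) : bA g * (bD g)ᵀ - bB g * (bC g)ᵀ = 1 ∧ (bA g)ᵀ * bD g - (bC g)ᵀ * bB g = 1 ∧
    bD g * (bA g)ᵀ - bC g * (bB g)ᵀ = 1 ∧
    (bC g * (bD g)ᵀ)ᵀ = bC g * (bD g)ᵀ ∧ ((bD g)ᵀ * bB g)ᵀ = (bD g)ᵀ * bB g ∧ ((bA g)ᵀ * bC g)ᵀ = (bA g)ᵀ * bC g ∧
    (bA g * (bB g)ᵀ)ᵀ = bA g * (bB g)ᵀ := by
  obtain ⟨i1, i2, i3, i4⟩ := bl_inv g
  obtain ⟨o1, o2, o3, o4⟩ := bl_one (n := n) (R := R)
  obtain ⟨m1, m2, m3, m4⟩ := bl_mul g g⁻¹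
  obtain ⟨k1, k2, k3, k4⟩ := bl_mul g⁻¹ g
  rw [mul_inv_cancel, i1, i3, o1] at m1
  rw [mul_inv_cancel, i2, i4, o2] at m2
  rw [mul_inv_cancel, i1, i3, o3] at m3
  rw [mul_inv_cancel, i2, i4, o4] at m4
  rw [inv_mul_cancel, i1, i2, o1] at k1
  rw [inv_mul_cancel, i1, i2, o2] at k2
  rw [inv_mul_cancel, i3, i4, o3] at k3
  rw [inv_mul_cancel, i3, i4, o4] at k4
  refine ⟨?_, ?_, ?_, ?_, ?_, ?_, ?_⟩
  · rw [m1, Matrix.mul_neg, sub_eq_add_neg]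
  · rw [k4, Matrix.neg_mul, sub_eq_add_neg, add_comm]
  · rw [m4, Matrix.mul_neg, sub_eq_add_neg, add_comm]
  · rw [Matrix.transpose_mul, Matrix.transpose_transpose]
    rw [Matrix.mul_neg] at m3
    exact (sub_eq_zero.1 (by rw [sub_eq_add_neg]; exact m3.symm)).symm
  · rw [Matrix.transpose_mul, Matrix.transpose_transpose]
    rw [Matrix.neg_mul] at k2
    exact (sub_eq_zero.1 (by rw [sub_eq_add_neg]; exact k2.symm)).symm
  · rw [Matrix.transpose_mul, Matrix.transpose_transpose]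
    rw [Matrix.neg_mul] at k3
    exact (sub_eq_zero.1 (by rw [sub_eq_add_neg, add_comm]; exact k3.symm)).symm
  · rw [Matrix.transpose_mul, Matrix.transpose_transpose]
    rw [Matrix.mul_neg] at m2
    exact (sub_eq_zero.1 (by rw [sub_eq_add_neg, add_comm]; exact m2.symm))

theorem uT_bl (t : TI n → R) : bA (uT t) = ((up fun p => t (Sum.inr p))⁻¹.1)ᵀ ∧
    bB (uT t) = ((up fun p => t (Sum.inr p))⁻¹.1)ᵀ * syM (fun p => t (Sum.inl p)) ∧ bC (uT t) = 0 ∧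
    bD (uT t) = upM fun p => t (Sum.inr p) := by
  apply v1_blocks
  show fromBlocks (((up fun p => t (Sum.inr p))⁻¹).1)ᵀ 0 0 (upM fun p => t (Sum.inr p)) *
    fromBlocks 1 (syM fun p => t (Sum.inl p)) 0 1 = _
  rw [fromBlocks_multiply]
  simp only [Matrix.mul_zero, Matrix.zero_mul, Matrix.mul_one, zero_add, add_zero]

theorem v1_up {D A : Matrix (Fin n) (Fin n) R} (hD : IsUU D) (h : D * A = 1) :
    A = ((up (cu D))⁻¹).1 := by
  have h1 : (up (cu D)).1 = D := upM_cu hD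
  have h2 : ((up (cu D))⁻¹).1 * (up (cu D)).1 = 1 := by
    rw [← Matrix.SpecialLinearGroup.coe_mul, inv_mul_cancel]
    rfl
  rw [h1] at h2
  calc A = ((up (cu D))⁻¹).1 * D * A := by rw [h2, Matrix.one_mul]
    _ = ((up (cu D))⁻¹).1 := by rw [Matrix.mul_assoc, h, Matrix.mul_one]

theorem v1_upinv {D A : Matrix (Fin n) (Fin n) R} (hD : IsUU D) (h : D * A = 1) : IsUU A := by
  rw [v1_up hD h]
  refine isUU_inv ?_
  have h1 : (up (cu D)).1 = D := upM_cu hD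
  rw [h1]
  exact hD

theorem isUS_one : IsUS (1 : SP n R) := by
  obtain ⟨o1, o2, o3, o4⟩ := bl_one (n := n) (R := R)
  refine ⟨o3, ?_⟩
  rw [o4]
  exact isUU_one

theorem isUS_mul {g h : SP n R} (hg : IsUS g) (hh : IsUS h) : IsUS (g * h) := by
  obtain ⟨m1, m2, m3, m4⟩ := bl_mul g h
  refine ⟨?_, ?_⟩
  · rw [m3, hg.1, hh.1, Matrix.zero_mul, Matrix.mul_zero, add_zero]
  · rw [m4, hg.1, Matrix.zero_mul, zero_add]
    exact isUU_mul hg.2 hh.2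

theorem v1_DA {g : SP n R} (hg : IsUS g) : bD g * (bA g)ᵀ = 1 ∧ (bA g)ᵀ * bD g = 1 ∧
    bA g * (bD g)ᵀ = 1 ∧ (bD g)ᵀ * bA g = 1 := by
  obtain ⟨r1, r2, r3, -, -, -, -⟩ := bl_rel g
  rw [hg.1] at r1 r2 r3
  rw [Matrix.transpose_zero, Matrix.mul_zero, sub_zero] at r1
  rw [Matrix.transpose_zero, Matrix.zero_mul, sub_zero] at r2
  rw [Matrix.zero_mul, sub_zero] at r3
  exact ⟨r3, r2, r1, mul_eq_one_comm.1 r1⟩

theorem isUS_inv {g : SP n R} (hg : IsUS g) : IsUS g⁻¹ := by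
  obtain ⟨i1, i2, i3, i4⟩ := bl_inv g
  refine ⟨?_, ?_⟩
  · rw [i3, hg.1, Matrix.transpose_zero, neg_zero]
  · rw [i4]
    exact v1_upinv hg.2 (v1_DA hg).1

theorem isUS_uT (t : TI n → R) : IsUS (uT t) := by
  obtain ⟨m1, m2, m3, m4⟩ := uT_bl t
  refine ⟨m3, ?_⟩
  rw [m4]
  exact isUU_upM _

theorem v1_sy (Y : SI n → R) (p : SI n) : syM Y p.1.1 p.1.2 = Y p := by
  unfold syM
  rw [Matrix.of_apply, dif_pos p.2]

theorem v1_sy' {S : Matrix (Fin n) (Fin n) R} (hS : Sᵀ = S) : syM (fun p : SI n => S p.1.1 p.1.2) = S := by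
  ext a b
  unfold syM
  rw [Matrix.of_apply]
  by_cases h : a ≤ b
  · rw [dif_pos h]
  · rw [dif_neg h]
    exact congrFun (congrFun hS a) b

theorem cuS_uT (t : TI n → R) : cuS (uT t) = t := by
  obtain ⟨m1, m2, m3, m4⟩ := uT_bl t
  have h2 : (upM fun p => t (Sum.inr p))ᵀ * ((up fun p => t (Sum.inr p))⁻¹.1)ᵀ = 1 := by
    rw [← Matrix.transpose_mul]
    have : ((up fun p => t (Sum.inr p))⁻¹).1 * (upM fun p => t (Sum.inr p)) = 1 := by
      have h3 : ((up fun p => t (Sum.inr p))⁻¹).1 * (up fun p => t (Sum.inr p)).1 = 1 := by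
        rw [← Matrix.SpecialLinearGroup.coe_mul, inv_mul_cancel]
        rfl
      exact h3
    rw [this, Matrix.transpose_one]
  funext p
  rcases p with p | p
  · show ((bD (uT t))ᵀ * bB (uT t)) p.1.1 p.1.2 = _
    rw [m2, m4, ← Matrix.mul_assoc, h2, Matrix.one_mul, v1_sy]
  · show bD (uT t) p.1.1 p.1.2 = _
    rw [m4, upM_lt _ p.2]

theorem uT_cuS {g : SP n R} (hg : IsUS g) : uT (cuS g) = g := by
  obtain ⟨m1, m2, m3, m4⟩ := uT_bl (cuS g)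
  obtain ⟨e1, e2, e3, e4⟩ := v1_DA hg
  have hu : (fun p : UI n => cuS g (Sum.inr p)) = cu (bD g) := rfl
  have hA : ((up fun p => cuS g (Sum.inr p))⁻¹.1)ᵀ = bA g := by
    rw [hu, ← v1_up hg.2 e1, Matrix.transpose_transpose]
  refine bl_ext ?_ ?_ ?_ ?_
  · rw [m1, hA]
  · rw [m2, hA]
    have hs : syM (fun p : SI n => cuS g (Sum.inl p)) = (bD g)ᵀ * bB g :=
      v1_sy' (bl_rel g).2.2.2.2.1
    rw [hs, ← Matrix.mul_assoc, e3, Matrix.one_mul]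
  · rw [m3, hg.1]
  · rw [m4, hu, upM_cu hg.2]

theorem uT_zero : uT (0 : TI n → R) = 1 := by
  obtain ⟨o1, o2, o3, o4⟩ := bl_one (n := n) (R := R)
  have h : cuS (1 : SP n R) = 0 := by
    funext p
    rcases p with p | p
    · show ((bD (1 : SP n R))ᵀ * bB (1 : SP n R)) p.1.1 p.1.2 = 0
      rw [o2, Matrix.mul_zero]
      rfl
    · show bD (1 : SP n R) p.1.1 p.1.2 = 0
      rw [o4, Matrix.one_apply_ne (ne_of_lt p.2)]
  rw [← h, uT_cuS isUS_one]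

/-- The coordinates of a product. -/
theorem cuS_mul {g h : SP n R} (hg : IsUS g) (hh : IsUS h) :
    (∀ p : UI n, cuS (g * h) (Sum.inr p) = (bD g * bD h) p.1.1 p.1.2) ∧
    ∀ p : SI n, cuS (g * h) (Sum.inl p) = ((bD h)ᵀ * syM (fun p => cuS g (Sum.inl p)) * bD h) p.1.1 p.1.2 + cuS h (Sum.inl p) := by
  obtain ⟨m1, m2, m3, m4⟩ := bl_mul g h
  rw [hg.1, Matrix.zero_mul, zero_add] at m4
  refine ⟨fun p => ?_, fun p => ?_⟩
  · show bD (g * h) p.1.1 p.1.2 = _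
    rw [m4]
  · show ((bD (g * h))ᵀ * bB (g * h)) p.1.1 p.1.2 = _
    have hs : syM (fun p : SI n => cuS g (Sum.inl p)) = (bD g)ᵀ * bB g :=
      v1_sy' (bl_rel g).2.2.2.2.1
    have e : (bD (g * h))ᵀ * bB (g * h) = (bD h)ᵀ * ((bD g)ᵀ * bB g) * bD h + (bD h)ᵀ * bB h := by
      rw [m4, m2, Matrix.transpose_mul, Matrix.mul_add]
      have e4 := (v1_DA hg).2.2.2
      have f1 : (bD h)ᵀ * (bD g)ᵀ * (bA g * bB h) = (bD h)ᵀ * bB h := by
        calc (bD h)ᵀ * (bD g)ᵀ * (bA g * bB h) = (bD h)ᵀ * (((bD g)ᵀ * bA g) * bB h) := by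
              simp only [Matrix.mul_assoc]
          _ = (bD h)ᵀ * bB h := by rw [e4, Matrix.one_mul]
      rw [f1, add_comm]
      congr 1
      simp only [Matrix.mul_assoc]
    rw [e, hs]
    rfl

/-- The coordinates of the inverse. -/
theorem cuS_inv {g : SP n R} (hg : IsUS g) :
    (∀ p : UI n, cuS g⁻¹ (Sum.inr p) = (bA g) p.1.2 p.1.1) ∧
    ∀ p : SI n, cuS g⁻¹ (Sum.inl p) = -(bA g * syM (fun p => cuS g (Sum.inl p)) * (bA g)ᵀ) p.1.1 p.1.2 := by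
  obtain ⟨i1, i2, i3, i4⟩ := bl_inv g
  refine ⟨fun p => ?_, fun p => ?_⟩
  · show bD g⁻¹ p.1.1 p.1.2 = _
    rw [i4]
    rfl
  · show ((bD g⁻¹)ᵀ * bB g⁻¹) p.1.1 p.1.2 = _
    have hs : syM (fun p : SI n => cuS g (Sum.inl p)) = (bD g)ᵀ * bB g :=
      v1_sy' (bl_rel g).2.2.2.2.1
    have e3 := (v1_DA hg).2.2.1
    have r7 := (bl_rel g).2.2.2.2.2.2
    have e : (bD g⁻¹)ᵀ * bB g⁻¹ = -(bA g * ((bD g)ᵀ * bB g) * (bA g)ᵀ) := by
      rw [i4, i2, Matrix.transpose_transpose, Matrix.mul_neg, ← Matrix.mul_assoc (bA g) (bD g)ᵀ, e3,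
        Matrix.one_mul, ← r7, Matrix.transpose_mul, Matrix.transpose_transpose]
    rw [e, hs]
    rfl

variable {K : Type} [Field K] [NumberField K]

theorem bl_emb (g : SP n K) : bA (embS g) = (bA g).map (mixedEmbedding K) ∧ bB (embS g) = (bB g).map (mixedEmbedding K) ∧
    bC (embS g) = (bC g).map (mixedEmbedding K) ∧ bD (embS g) = (bD g).map (mixedEmbedding K) :=
  ⟨rfl, rfl, rfl, rfl⟩

theorem v1_map_inj {A B : Matrix (Fin n) (Fin n) K}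
    (h : A.map (mixedEmbedding K) = B.map (mixedEmbedding K)) : A = B := by
  ext a b
  exact mixedEmbedding_injective K (congrFun (congrFun h a) b)

theorem embS_inj {g h : SP n K} (e : embS g = embS h) : g = h := by
  obtain ⟨a1, a2, a3, a4⟩ := bl_emb g
  obtain ⟨b1, b2, b3, b4⟩ := bl_emb h
  rw [e] at a1 a2 a3 a4
  exact bl_ext (v1_map_inj (a1.symm.trans b1)) (v1_map_inj (a2.symm.trans b2))
    (v1_map_inj (a3.symm.trans b3)) (v1_map_inj (a4.symm.trans b4))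

theorem isUS_emb {g : SP n K} : IsUS (embS g) ↔ IsUS g := by
  obtain ⟨a1, a2, a3, a4⟩ := bl_emb g
  have h1 : (1 : Matrix (Fin n) (Fin n) K).map (mixedEmbedding K) = 1 :=
    Matrix.map_one _ (map_zero _) (map_one _)
  have h0 : (0 : Matrix (Fin n) (Fin n) K).map (mixedEmbedding K) = 0 :=
    Matrix.map_zero _ (map_zero _)
  unfold IsUS
  rw [a3, a4]
  refine and_congr ⟨fun h => v1_map_inj (h.trans h0.symm), fun h => by rw [h, h0]⟩ ?_
  refine ⟨fun h a l hl => ?_, fun h a l hl => ?_⟩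
  · have h2 := h a l hl
    rw [← h1] at h2
    exact mixedEmbedding_injective K h2
  · show mixedEmbedding K (bD g a l) = _
    rw [h a l hl, ← h1]
    rfl

theorem cuS_emb (g : SP n K) (p : TI n) : cuS (embS g) p = mixedEmbedding K (cuS g p) := by
  obtain ⟨a1, a2, a3, a4⟩ := bl_emb g
  rcases p with p | p
  · show ((bD (embS g))ᵀ * bB (embS g)) p.1.1 p.1.2 = mixedEmbedding K (((bD g)ᵀ * bB g) p.1.1 p.1.2)
    rw [a2, a4, ← Matrix.transpose_map, ← Matrix.map_mul]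
    rfl
  · rfl

end

end Pool.Agent.Lib.H67G
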