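import Pool.Agent.Lib.H67G.V1
import Pool.Agent.Lib.H33W.U4

/-!
# V2 (M): the action of the unipotent group on its coordinates; continuity
-/

namespace Pool.Agent.Lib.H67G

open MeasureTheory Matrix NumberField IsDedekindDomain Pool.Agent.Lib.H89N Pool.Agent.Lib.H33W
open scoped ENNReal

noncomputable section

set_option linter.unusedSectionVars false

variable {n : ℕ} {K : Type} [Field K] [NumberField K]

variable (n K) in
/-- The unipotent group `U(K)`. -/
def UGS : Subgroup (SP n K) where
  carrier := {g | IsUS g}
  mul_mem' := fun h h' => isUS_mul h h'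
  one_mem' := isUS_one
  inv_mem' := fun h => isUS_inv h

/-- Left multiplication in the coordinates. -/
def lT (M : SP n (EE K)) (t : TI n → EE K) : TI n → EE K := cuS (M * uT t)

/-- Right multiplication in the coordinates. -/
def rT (M : SP n (EE K)) (t : TI n → EE K) : TI n → EE K := cuS (uT t * M)

/-- The inverse in the coordinates. -/
def iT (t : TI n → EE K) : TI n → EE K := cuS (uT t)⁻¹

theorem uT_lT {M : SP n (EE K)} (hM : IsUS M) (t : TI n → EE K) : uT (lT M t) = M * uT t :=
  uT_cuS (isUS_mul hM (isUS_uT t))

theorem uT_rT {M : SP n (EE K)} (hM : IsUS M) (t : TI n → EE K) : uT (rT M t) = uT t * M :=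
  uT_cuS (isUS_mul (isUS_uT t) hM)

theorem uT_iT (t : TI n → EE K) : uT (iT t) = (uT t)⁻¹ := uT_cuS (isUS_inv (isUS_uT t))

/-- `U(K)` acts on the coordinates. -/
instance utAct : MulAction (UGS n K) (TI n → EE K) where
  smul g t := lT (embS (g : SP n K)) t
  one_smul t := by
    change cuS (embS ((1 : UGS n K) : SP n K) * uT t) = t
    rw [Subgroup.coe_one, map_one, one_mul, cuS_uT]
  mul_smul g h t := by
    change cuS (embS ((g * h : UGS n K) : SP n K) * uT t) = cuS (embS (g : SP n K) * uT (cuS (embS (h : SP n K) * uT t)))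
    rw [uT_cuS (isUS_mul (isUS_emb.2 h.2) (isUS_uT t)), Subgroup.coe_mul, map_mul, mul_assoc]

theorem ut_smul (g : UGS n K) (t : TI n → EE K) : g • t = lT (embS (g : SP n K)) t := rfl

theorem uT_smul (g : UGS n K) (t : TI n → EE K) : uT (g • t) = embS (g : SP n K) * uT t :=
  uT_lT (isUS_emb.2 g.2) t

/-!
PROOFS. Continuity: all the entries are polynomials in the coordinates (`upM`, `syM`, the inverse of `up` is the adjugate; the topology of `SP` is induced by `val`); the inverse is `-(J gᵗ J)` (`SP.val_inv`); `EE K` is a topological ring.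
-/


theorem v2_val : Continuous (SP.val : SP n (EE K) → Matrix (Fin n ⊕ Fin n) (Fin n ⊕ Fin n) (EE K)) :=
  continuous_induced_dom

theorem v2_up : Continuous fun t : TI n → EE K => upM fun p => t (Sum.inr p) :=
  Continuous.comp (g := fun s : UI n → EE K => upM s) (f := fun (t : TI n → EE K) p => t (Sum.inr p))
    u4_cont_upM' (continuous_pi fun p => continuous_apply (Sum.inr p))

theorem v2_sy : Continuous fun t : TI n → EE K => syM fun p => t (Sum.inl p) := by
  refine continuous_matrix fun a b => ?_
  unfold syM
  by_cases h : a ≤ b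
  · simp only [Matrix.of_apply, dif_pos h]
    exact continuous_apply _
  · simp only [Matrix.of_apply, dif_neg h]
    exact continuous_apply _

theorem v2_upinv : Continuous fun t : TI n → EE K => ((up fun p => t (Sum.inr p))⁻¹).1 := by
  have e : (fun t : TI n → EE K => ((up fun p => t (Sum.inr p))⁻¹).1) =
      fun t => (upM fun p => t (Sum.inr p)).adjugate := by
    funext t
    exact Matrix.SpecialLinearGroup.coe_inv _
  rw [e]
  exact v2_up.matrix_adjugate

theorem uT_cont : Continuous (uT : (TI n → EE K) → SP n (EE K)) := by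
  refine continuous_induced_rng.2 ?_
  have e : (SP.val ∘ (uT : (TI n → EE K) → SP n (EE K))) = fun t : TI n → EE K =>
      fromBlocks (((up fun p => t (Sum.inr p))⁻¹).1)ᵀ
        ((((up fun p => t (Sum.inr p))⁻¹).1)ᵀ * syM (fun p => t (Sum.inl p))) 0
        (upM fun p => t (Sum.inr p)) := by
    funext t
    obtain ⟨m1, m2, m3, m4⟩ := uT_bl t
    show (uT t).val = _
    rw [val_bl (uT t), m1, m2, m3, m4]
  rw [e]
  exact v2_upinv.matrix_transpose.matrix_fromBlocks
    (v2_upinv.matrix_transpose.matrix_mul v2_sy) continuous_const v2_up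

instance sp_top : IsTopologicalGroup (SP n (EE K)) where
  continuous_mul := by
    refine continuous_induced_rng.2 ?_
    show Continuous fun p : SP n (EE K) × SP n (EE K) => p.1.val * p.2.val
    exact (v2_val.comp continuous_fst).matrix_mul (v2_val.comp continuous_snd)
  continuous_inv := by
    refine continuous_induced_rng.2 ?_
    show Continuous fun p : SP n (EE K) =>
      -(Matrix.J (Fin n) (EE K) * p.valᵀ * Matrix.J (Fin n) (EE K))
    exact ((continuous_const.matrix_mul v2_val.matrix_transpose).matrix_mul continuous_const).neg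

theorem v2_bB : Continuous (bB : SP n (EE K) → Matrix (Fin n) (Fin n) (EE K)) :=
  continuous_matrix fun i j => v2_val.matrix_elem (Sum.inl i) (Sum.inr j)

theorem v2_bD : Continuous (bD : SP n (EE K) → Matrix (Fin n) (Fin n) (EE K)) :=
  continuous_matrix fun i j => v2_val.matrix_elem (Sum.inr i) (Sum.inr j)

theorem cuS_cont : Continuous (cuS : SP n (EE K) → TI n → EE K) := by
  refine continuous_pi fun p => ?_
  rcases p with p | p
  · show Continuous fun g : SP n (EE K) => ((bD g)ᵀ * bB g) p.1.1 p.1.2
    exact (v2_bD.matrix_transpose.matrix_mul v2_bB).matrix_elem _ _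
  · show Continuous fun g : SP n (EE K) => bD g p.1.1 p.1.2
    exact v2_bD.matrix_elem _ _

theorem lT_cont (M : SP n (EE K)) : Continuous (lT M) := cuS_cont.comp (continuous_const.mul uT_cont)

theorem rT_cont (M : SP n (EE K)) : Continuous (rT M) := cuS_cont.comp (uT_cont.mul continuous_const)

theorem iT_cont : Continuous (iT : (TI n → EE K) → TI n → EE K) := cuS_cont.comp uT_cont.inv

end

end Pool.Agent.Lib.H67G
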