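import Pool.Agent.Lib.H67G.V2

/-!
# V2B (M): invariance of the measure under left and right multiplication and the inverse
-/

namespace Pool.Agent.Lib.H67G

open MeasureTheory Matrix NumberField IsDedekindDomain Pool.Agent.Lib.H89N Pool.Agent.Lib.H33W
open scoped ENNReal

noncomputable section

set_option linter.unusedSectionVars false

variable {n : ℕ} {K : Type} [Field K] [NumberField K]

/-!
PROOFS. Measure preserving: `H33W.u1_tri` (a triangular map `s ↦ s + f(s)` in the coordinates preserves the product measure), with `cuS_mul`: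
* `lT M`: with `D' = bD M` and `Y' = syM (cuS M ∘ inl)`: `(lT M t) (inr (a, l)) = (D' * upM τ) a l = τ_(a,l) + ∑_{a < c} D'_(a,c) (upM τ)_(c,l)` (terms with smaller `l - c`) and `(lT M t) (inl p) = t (inl p) + ((upM τ)ᵀ Y' (upM τ))_p`: a function of `τ`. Rank function
  for `u1_tri`: `r (inl p) = 0`, `r (inr (a, l)) = 1 + (n - (l - a))`-like (a coordinate may depend on the coordinates of bigger rank only).
* `rT M`: `(rT M t) (inr p) = (upM τ * D')_p`, `(rT M t) (inl p) = (D'ᵀ (syM Y) D')_p + Y'_p = Y_p + (a combination of the Y_(a,b) with a ≤ p.1, b ≤ p.2, (a,b) ≠ p) + ..`; rank: `r (inl (a, b)) = 2 n - a - b`.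
* `iT`: by `cuS_inv`: `(upM τ)⁻¹_(a,l) = -τ_(a,l) + (function of the entries with smaller l - a)`, and `-(A⁻ᵗ Y A⁻¹)_p`, `A = upM τ`. Compose `t ↦ -t` (`MeasurePreserving` of the negation, Haar measure) with triangular maps. If convenient compose several maps: first change `inl` by a `τ`-dependent triangular linear map.
-/

/-- triangular maps preserve the measure -/
theorem v2b_tri (r : TI n → ℕ) (Φ : (TI n → EE K) → TI n → EE K) (hc : Continuous Φ)
    (hd : ∀ i s s', (∀ j, r i < r j → s j = s' j) → Φ s i - s i = Φ s' i - s' i) :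
    MeasurePreserving Φ := by
  have e : Φ = fun (s : TI n → EE K) i => s i + (Φ s i - s i) := by
    funext s i
    rw [add_sub_cancel]
  rw [e]
  refine u1_tri r (fun i s => Φ s i - s i) (fun i => ?_) hd
  exact (((continuous_apply i).comp hc).sub (continuous_apply i)).measurable

theorem v2b_sy {R : Type} [CommRing R] {Y Y' : SI n → R} {m : ℕ}
    (h : ∀ j : SI n, (j.1.1 : ℕ) + j.1.2 < m → Y j = Y' j) {c d : Fin n} (hcd : (c : ℕ) + d < m) :
    (syM Y - syM Y') c d = 0 := by
  rw [Matrix.sub_apply, sub_eq_zero]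
  unfold syM
  rw [Matrix.of_apply, Matrix.of_apply]
  by_cases h1 : c ≤ d
  · rw [dif_pos h1, dif_pos h1]
    exact h _ hcd
  · rw [dif_neg h1, dif_neg h1]
    refine h _ ?_
    show (d : ℕ) + c < m
    omega

theorem v2b_syp {R : Type} [CommRing R] (Y : SI n → R) (p : SI n) : syM Y p.1.1 p.1.2 = Y p := by
  unfold syM
  rw [Matrix.of_apply, dif_pos p.2]

theorem v2b_conj {R : Type} [CommRing R] {D : Matrix (Fin n) (Fin n) R} (hD : IsUU D)
    {Y Y' : SI n → R} (p : SI n)
    (h : ∀ j : SI n, (j.1.1 : ℕ) + j.1.2 < (p.1.1 : ℕ) + p.1.2 → Y j = Y' j) :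
    (Dᵀ * syM Y * D) p.1.1 p.1.2 - Y p = (Dᵀ * syM Y' * D) p.1.1 p.1.2 - Y' p := by
  have key : (Dᵀ * (syM Y - syM Y') * D) p.1.1 p.1.2 = Y p - Y' p := by
    rw [Matrix.mul_apply, Finset.sum_eq_single p.1.2]
    · rw [hD.diag, mul_one, Matrix.mul_apply, Finset.sum_eq_single p.1.1]
      · rw [Matrix.transpose_apply, hD.diag, one_mul, Matrix.sub_apply, v2b_syp, v2b_syp]
      · intro c _ hc
        rw [Matrix.transpose_apply]
        rcases lt_or_gt_of_ne hc with h1 | h1
        · rw [v2b_sy h (by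
            have h2 : (c : ℕ) < p.1.1 := h1
            omega), mul_zero]
        · rw [hD.gt h1, zero_mul]
      · intro h1
        exact absurd (Finset.mem_univ _) h1
    · intro d _ hd
      rcases lt_or_gt_of_ne hd with h1 | h1
      · have h2 : (d : ℕ) < p.1.2 := h1
        rw [Matrix.mul_apply, Finset.sum_eq_zero, zero_mul]
        intro c _
        rw [Matrix.transpose_apply]
        rcases le_or_gt c p.1.1 with h3 | h3
        · have h4 : (c : ℕ) ≤ p.1.1 := h3
          rw [v2b_sy h (by omega), mul_zero]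
        · rw [hD.gt h3, zero_mul]
      · rw [hD.gt h1, mul_zero]
    · intro h1
      exact absurd (Finset.mem_univ _) h1
  rw [Matrix.mul_sub, Matrix.sub_mul, Matrix.sub_apply] at key
  linear_combination key

theorem v2b_D (t : TI n → EE K) : bD (uT t) = upM fun p => t (Sum.inr p) := (uT_bl t).2.2.2

theorem lT_mp {M : SP n (EE K)} (hM : IsUS M) : MeasurePreserving (lT M) := by
  refine v2b_tri (Sum.elim (fun _ => 0) fun p => 1 + (p.1.1 : ℕ)) _ (lT_cont M) ?_
  rintro (p | p) s s' h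
  · have hs : (fun p => s (Sum.inr p)) = fun p => s' (Sum.inr p) := by
      funext j
      exact h (Sum.inr j) (by show 0 < 1 + (j.1.1 : ℕ); omega)
    have e : ∀ t : TI n → EE K, lT M t (Sum.inl p) - t (Sum.inl p) =
        ((upM fun p => t (Sum.inr p))ᵀ * syM (fun p => cuS M (Sum.inl p)) *
          (upM fun p => t (Sum.inr p))) p.1.1 p.1.2 := by
      intro t
      unfold lT
      rw [(cuS_mul hM (isUS_uT t)).2 p, v2b_D, cuS_uT, add_sub_cancel_right]
    rw [e, e, hs]
  · have e : ∀ t : TI n → EE K, lT M t (Sum.inr p) - t (Sum.inr p) =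
        ∑ c ∈ Finset.univ.erase p.1.1, bD M p.1.1 c * upM (fun p => t (Sum.inr p)) c p.1.2 := by
      intro t
      unfold lT
      rw [(cuS_mul hM (isUS_uT t)).1 p, v2b_D, uu_mul_entry hM.2, upM_lt _ p.2]
      exact add_sub_cancel_left _ _
    rw [e, e]
    refine Finset.sum_congr rfl fun c hc => ?_
    have hc' : c ≠ p.1.1 := (Finset.mem_erase.1 hc).1
    rcases lt_or_gt_of_ne hc' with h1 | h1
    · rw [hM.2.gt h1, zero_mul, zero_mul]
    · congr 1
      rcases lt_trichotomy c p.1.2 with h2 | h2 | h2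
      · rw [upM_lt _ h2, upM_lt _ h2]
        refine h (Sum.inr ⟨(c, p.1.2), h2⟩) ?_
        have h3 : (p.1.1 : ℕ) < c := h1
        show 1 + (p.1.1 : ℕ) < 1 + (c : ℕ)
        omega
      · rw [h2, upM_eq, upM_eq]
      · rw [upM_gt _ h2, upM_gt _ h2]

theorem rT_mp {M : SP n (EE K)} (hM : IsUS M) : MeasurePreserving (rT M) := by
  refine v2b_tri (Sum.elim (fun p => 2 * n - ((p.1.1 : ℕ) + p.1.2)) fun p => n - (p.1.2 : ℕ)) _
    (rT_cont M) ?_
  rintro (p | p) s s' h
  · have e : ∀ t : TI n → EE K, rT M t (Sum.inl p) - t (Sum.inl p) =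
        ((bD M)ᵀ * syM (fun p => t (Sum.inl p)) * bD M) p.1.1 p.1.2 - t (Sum.inl p) +
          cuS M (Sum.inl p) := by
      intro t
      unfold rT
      rw [(cuS_mul (isUS_uT t) hM).2 p, cuS_uT]
      ring
    rw [e, e]
    congr 1
    refine v2b_conj (Y := fun p => s (Sum.inl p)) (Y' := fun p => s' (Sum.inl p)) hM.2 p
      fun j hj => h (Sum.inl j) ?_
    have h1 := p.1.1.2
    have h2 := p.1.2.2
    show 2 * n - ((p.1.1 : ℕ) + p.1.2) < 2 * n - ((j.1.1 : ℕ) + j.1.2)
    omega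
  · have e : ∀ t : TI n → EE K, rT M t (Sum.inr p) - t (Sum.inr p) =
        ∑ c ∈ Finset.univ.erase p.1.2, upM (fun p => t (Sum.inr p)) p.1.1 c * bD M c p.1.2 := by
      intro t
      unfold rT
      rw [(cuS_mul (isUS_uT t) hM).1 p, v2b_D, uu_mul_entry' hM.2, upM_lt _ p.2]
      exact add_sub_cancel_left _ _
    rw [e, e]
    refine Finset.sum_congr rfl fun c hc => ?_
    have hc' : c ≠ p.1.2 := (Finset.mem_erase.1 hc).1
    rcases lt_or_gt_of_ne hc' with h1 | h1
    · congr 1
      rcases lt_trichotomy p.1.1 c with h2 | h2 | h2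
      · rw [upM_lt _ h2, upM_lt _ h2]
        refine h (Sum.inr ⟨(p.1.1, c), h2⟩) ?_
        have h3 : (c : ℕ) < p.1.2 := h1
        have h4 := p.1.2.2
        show n - (p.1.2 : ℕ) < n - (c : ℕ)
        omega
      · rw [← h2, upM_eq, upM_eq]
      · rw [upM_gt _ h2, upM_gt _ h2]
    · rw [hM.2.gt h1, mul_zero, mul_zero]

/-- the recursion for the inverse of a unipotent matrix -/
theorem v2b_inv (τ : UI n → EE K) {a l : Fin n} (h : a < l) :
    (up τ)⁻¹.1 a l + upM τ a l =
      -∑ c ∈ (Finset.univ.erase a).erase l, upM τ a c * (up τ)⁻¹.1 c l := by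
  have h1 : upM τ * (up τ)⁻¹.1 = 1 := by
    have h2 := congrArg Subtype.val (mul_inv_cancel (up τ))
    exact h2
  have h3 := congrFun (congrFun h1 a) l
  rw [uu_mul_entry2 (isUU_upM τ) (isUU_inv (g := up τ) (isUU_upM τ)) h.ne,
    Matrix.one_apply_ne h.ne] at h3
  linear_combination h3

theorem v2b_inv_uu (τ : UI n → EE K) : IsUU ((up τ)⁻¹.1) := isUU_inv (g := up τ) (isUU_upM τ)

/-- the entries of the inverse with small distance to the diagonal -/
theorem v2b_dep {τ τ' : UI n → EE K} {m : ℕ}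
    (h : ∀ j : UI n, (j.1.2 : ℕ) - j.1.1 < m → τ j = τ' j) :
    ∀ d, d < m → ∀ a l : Fin n, (l : ℕ) - a = d → (up τ)⁻¹.1 a l = (up τ')⁻¹.1 a l := by
  intro d
  induction d using Nat.strong_induction_on with
  | _ d ih =>
    intro hd a l hal
    rcases lt_or_ge a l with h1 | h1
    · have h2 := v2b_inv τ h1
      have h3 := v2b_inv τ' h1
      rw [upM_lt _ h1] at h2 h3
      have h4 : τ ⟨(a, l), h1⟩ = τ' ⟨(a, l), h1⟩ := h _ (by
        show (l : ℕ) - a < m
        omega)
      have h5 : ∑ c ∈ (Finset.univ.erase a).erase l, upM τ a c * (up τ)⁻¹.1 c l =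
          ∑ c ∈ (Finset.univ.erase a).erase l, upM τ' a c * (up τ')⁻¹.1 c l := by
        refine Finset.sum_congr rfl fun c hc => ?_
        rw [Finset.mem_erase, Finset.mem_erase] at hc
        have hal' : (a : ℕ) < l := h1
        rcases lt_or_gt_of_ne hc.2.1 with h6 | h6
        · rw [upM_gt _ h6, upM_gt _ h6, zero_mul, zero_mul]
        · have h6' : (a : ℕ) < c := h6
          rcases lt_or_gt_of_ne hc.1 with h7 | h7
          · have h7' : (c : ℕ) < l := h7
            rw [upM_lt _ h6, upM_lt _ h6, h ⟨(a, c), h6⟩ (by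
              show (c : ℕ) - a < m
              omega), ih ((l : ℕ) - c) (by omega) (by omega) c l rfl]
          · rw [(v2b_inv_uu τ).gt h7, (v2b_inv_uu τ').gt h7, mul_zero, mul_zero]
      rw [h5] at h2
      linear_combination h2 - h3 - h4
    · rw [v2b_inv_uu τ a l h1, v2b_inv_uu τ' a l h1]

theorem v2b_last {τ τ' : UI n → EE K} {a l : Fin n} (hal : a < l)
    (h : ∀ j : UI n, (j.1.2 : ℕ) - j.1.1 < (l : ℕ) - a → τ j = τ' j) :
    (up τ)⁻¹.1 a l + upM τ a l = (up τ')⁻¹.1 a l + upM τ' a l := by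
  rw [v2b_inv τ hal, v2b_inv τ' hal]
  congr 1
  refine Finset.sum_congr rfl fun c hc => ?_
  rw [Finset.mem_erase, Finset.mem_erase] at hc
  have hal' : (a : ℕ) < l := hal
  rcases lt_or_gt_of_ne hc.2.1 with h6 | h6
  · rw [upM_gt _ h6, upM_gt _ h6, zero_mul, zero_mul]
  · have h6' : (a : ℕ) < c := h6
    rcases lt_or_gt_of_ne hc.1 with h7 | h7
    · have h7' : (c : ℕ) < l := h7
      rw [upM_lt _ h6, upM_lt _ h6, h ⟨(a, c), h6⟩ (by
        show (c : ℕ) - a < (l : ℕ) - a
        omega), v2b_dep h ((l : ℕ) - c) (by omega) c l rfl]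
    · rw [(v2b_inv_uu τ).gt h7, (v2b_inv_uu τ').gt h7, mul_zero, mul_zero]

theorem v2b_ng : MeasurePreserving (fun t : TI n → EE K => -iT t) := by
  refine v2b_tri (Sum.elim (fun p => 2 * n - ((p.1.1 : ℕ) + p.1.2))
    fun p => 3 * n + 1 - ((p.1.2 : ℕ) - p.1.1)) _ iT_cont.neg ?_
  have hA : ∀ t : TI n → EE K, bA (uT t) = ((up fun p => t (Sum.inr p))⁻¹.1)ᵀ := fun t =>
    (uT_bl t).1
  rintro (p | p) s s' h
  · have hs : (fun p => s (Sum.inr p)) = fun p => s' (Sum.inr p) := by
      funext j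
      refine h (Sum.inr j) ?_
      have h1 := j.1.1.2
      have h2 := j.1.2.2
      show 2 * n - ((p.1.1 : ℕ) + p.1.2) < 3 * n + 1 - ((j.1.2 : ℕ) - j.1.1)
      omega
    have e : ∀ t : TI n → EE K, (-iT t) (Sum.inl p) - t (Sum.inl p) =
        (((up fun p => t (Sum.inr p))⁻¹.1)ᵀ * syM (fun p => t (Sum.inl p)) *
          ((up fun p => t (Sum.inr p))⁻¹.1)) p.1.1 p.1.2 - t (Sum.inl p) := by
      intro t
      unfold iT
      rw [Pi.neg_apply, (cuS_inv (isUS_uT t)).2 p, hA, cuS_uT, neg_neg, Matrix.transpose_transpose]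
    rw [e, e, hs]
    refine v2b_conj (Y := fun p => s (Sum.inl p)) (Y' := fun p => s' (Sum.inl p)) (v2b_inv_uu _) p
      fun j hj => h (Sum.inl j) ?_
    have h1 := p.1.1.2
    have h2 := p.1.2.2
    show 2 * n - ((p.1.1 : ℕ) + p.1.2) < 2 * n - ((j.1.1 : ℕ) + j.1.2)
    omega
  · have e : ∀ t : TI n → EE K, (-iT t) (Sum.inr p) - t (Sum.inr p) =
        -((up fun p => t (Sum.inr p))⁻¹.1 p.1.1 p.1.2 +
          upM (fun p => t (Sum.inr p)) p.1.1 p.1.2) := by
      intro t
      unfold iT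
      rw [Pi.neg_apply, (cuS_inv (isUS_uT t)).1 p, hA, Matrix.transpose_apply, upM_lt _ p.2]
      ring
    rw [e, e]
    congr 1
    refine v2b_last p.2 fun j hj => h (Sum.inr j) ?_
    have h1 := p.1.1.2
    have h2 := p.1.2.2
    show 3 * n + 1 - ((p.1.2 : ℕ) - p.1.1) < 3 * n + 1 - ((j.1.2 : ℕ) - j.1.1)
    omega

theorem iT_mp : MeasurePreserving (iT : (TI n → EE K) → TI n → EE K) := by
  have h1 : MeasurePreserving (Neg.neg : (TI n → EE K) → TI n → EE K) :=
    Measure.measurePreserving_neg volume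
  have h2 := h1.comp (v2b_ng (n := n) (K := K))
  have e : (Neg.neg : (TI n → EE K) → TI n → EE K) ∘ (fun t : TI n → EE K => -iT t) = iT := by
    funext t
    exact neg_neg _
  rwa [e] at h2

theorem ut_mp (g : UGS n K) : MeasurePreserving (fun t : TI n → EE K => g • t) := lT_mp (isUS_emb.2 g.2)

end

end Pool.Agent.Lib.H67G
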