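import Pool.Agent.Lib.H67G.V3
import Pool.Agent.Lib.H33W.T3
import Pool.Agent.Lib.H33W.U6

/-!
# V4 (S/M): the character of the unipotent group
-/

namespace Pool.Agent.Lib.H67G

open MeasureTheory Matrix NumberField IsDedekindDomain Pool.Agent.Lib.H89N Pool.Agent.Lib.H33W
open scoped ENNReal

noncomputable section

set_option linter.unusedSectionVars false

variable {n : ℕ} {K : Type} [Field K] [NumberField K]

variable [NeZero n] (θ₀ : EE K →ₗ[ℝ] ℝ) (θ : Fin n → (EE K →ₗ[ℝ] ℝ))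

/-!
PROOFS. `chS_mul`: by `cuS_mul`: `sd θ (D D') = sd θ D + sd θ D'` (`H33W.u6_sd_mul`, file U6, or directly: `(D D')_(i,i+1) = D_(i,i+1) + D'_(i,i+1)`) and `(D'ᵗ Y D')_11 = Y_11` because the first column of `D'` is `e_1`.
`chS_int`: the coordinates of `g` are in the ideals `𝔡 p`, and `θ₀`, `θ_i` are integral there.
-/

theorem v4_eq {g : SP n (EE K)} (hg : IsUS g) :
    chS θ₀ θ (cuS g) = θ₀ (cuS g (Sum.inl ⟨(0, 0), le_refl _⟩)) + sd θ (bD g) := by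
  unfold chS
  have h : (upM fun p => cuS g (Sum.inr p)) = bD g := upM_cu hg.2
  rw [h]

theorem v4_col {M : Matrix (Fin n) (Fin n) (EE K)} (hM : IsUU M) (Y : Matrix (Fin n) (Fin n) (EE K)) :
    (Mᵀ * Y * M) 0 0 = Y 0 0 := by
  have h0 : ∀ c : Fin n, c ≠ 0 → M c 0 = 0 := fun c hc => by
    rw [hM c 0 (Fin.zero_le c), Matrix.one_apply_ne hc]
  rw [Matrix.mul_apply, Finset.sum_eq_single 0]
  · rw [hM.diag, mul_one, Matrix.mul_apply, Finset.sum_eq_single 0]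
    · rw [Matrix.transpose_apply, hM.diag, one_mul]
    · intro c _ hc
      rw [Matrix.transpose_apply, h0 c hc, zero_mul]
    · intro h
      exact absurd (Finset.mem_univ _) h
  · intro c _ hc
    rw [h0 c hc, mul_zero]
  · intro h
    exact absurd (Finset.mem_univ _) h

theorem chS_mul {g h : SP n (EE K)} (hg : IsUS g) (hh : IsUS h) :
    chS θ₀ θ (cuS (g * h)) = chS θ₀ θ (cuS g) + chS θ₀ θ (cuS h) := by
  rw [v4_eq θ₀ θ hg, v4_eq θ₀ θ hh, v4_eq θ₀ θ (isUS_mul hg hh)]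
  have h1 : bD (g * h) = bD g * bD h := by
    rw [(bl_mul g h).2.2.2, hg.1, Matrix.zero_mul, zero_add]
  have h2 : cuS (g * h) (Sum.inl ⟨(0, 0), le_refl _⟩) = cuS g (Sum.inl ⟨(0, 0), le_refl _⟩) +
      cuS h (Sum.inl ⟨(0, 0), le_refl _⟩) := by
    rw [(cuS_mul hg hh).2 ⟨(0, 0), le_refl _⟩]
    congr 1
    show ((bD h)ᵀ * syM (fun p => cuS g (Sum.inl p)) * bD h) 0 0 = _
    rw [v4_col hh.2]
    unfold syM
    rw [Matrix.of_apply, dif_pos (le_refl (0 : Fin n))]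
  rw [h1, h2, u6_sd_mul θ hg.2 hh.2, map_add]
  ring

theorem chS_one : chS θ₀ θ (cuS (1 : SP n (EE K))) = 0 := by
  have h := chS_mul θ₀ θ (isUS_one (n := n) (R := EE K)) isUS_one
  rw [mul_one] at h
  linarith

theorem chS_inv {g : SP n (EE K)} (hg : IsUS g) : chS θ₀ θ (cuS g⁻¹) = -chS θ₀ θ (cuS g) := by
  have h := chS_mul θ₀ θ hg (isUS_inv hg)
  rw [mul_inv_cancel, chS_one] at h
  linarith

theorem chS_lT {M : SP n (EE K)} (hM : IsUS M) (t : TI n → EE K) : chS θ₀ θ (lT M t) = chS θ₀ θ (cuS M) + chS θ₀ θ t := by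
  unfold lT
  rw [chS_mul θ₀ θ hM (isUS_uT t), cuS_uT]

theorem chS_cont : Continuous (chS θ₀ θ : (TI n → EE K) → ℝ) := by
  unfold chS
  refine Continuous.add ?_ ?_
  · exact θ₀.continuous_of_finiteDimensional.comp (continuous_apply _)
  · exact (u6_cont_sd θ).comp (continuous_pi fun p => continuous_apply (Sum.inr p))

/-- The characters `θ₀`, `θ_i` are integral on the ideal `𝔪`. -/
structure ChI (𝔪 : Ideal (𝓞 K)) (θ₀ : EE K →ₗ[ℝ] ℝ) (θ : Fin n → (EE K →ₗ[ℝ] ℝ)) : Prop where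
  i0 : ∀ z ∈ 𝔪, ∃ m : ℤ, θ₀ (mixedEmbedding K (z : K)) = m
  i : ∀ j : Fin n, (j : ℕ) + 1 < n → ∀ z ∈ 𝔪, ∃ m : ℤ, θ j (mixedEmbedding K (z : K)) = m

theorem chS_int {𝔪 : Ideal (𝓞 K)} (hc : ChI 𝔪 θ₀ θ) {g : SP n K} (hg : ∀ p, InI 𝔪 (cuS g p)) :
    ∃ m : ℤ, chS θ₀ θ (cuS (embS g)) = m := by
  have h0 : ∃ m : ℤ, θ₀ (cuS (embS g) (Sum.inl ⟨(0, 0), le_refl _⟩)) = m := by
    rw [cuS_emb]
    obtain ⟨y, hy, e⟩ := hg (Sum.inl ⟨(0, 0), le_refl _⟩)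
    rw [e]
    exact hc.i0 y hy
  have h : ∀ i : Fin n, ∃ m : ℤ, (if h : (i : ℕ) + 1 < n then
      θ i ((upM fun p => cuS (embS g) (Sum.inr p)) i ⟨i + 1, h⟩) else 0) = m := by
    intro i
    by_cases h : (i : ℕ) + 1 < n
    · have hlt : i < (⟨i + 1, h⟩ : Fin n) := by
        show (i : ℕ) < i + 1
        omega
      rw [dif_pos h, upM_lt _ hlt, cuS_emb]
      obtain ⟨y, hy, e⟩ := hg (Sum.inr ⟨(i, ⟨i + 1, h⟩), hlt⟩)
      rw [e]
      exact hc.i i h y hy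
    · rw [dif_neg h]
      exact ⟨0, by simp⟩
  choose m hm using h
  obtain ⟨m0, hm0⟩ := h0
  refine ⟨m0 + ∑ i, m i, ?_⟩
  unfold chS sd
  push_cast
  rw [hm0]
  congr 1
  exact Finset.sum_congr rfl fun i _ => hm i

end

end Pool.Agent.Lib.H67G
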