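import Pool.Agent.Lib.H67G.V4

/-!
# V4B (M): the Whittaker mean
-/

namespace Pool.Agent.Lib.H67G

open MeasureTheory Matrix NumberField IsDedekindDomain Pool.Agent.Lib.H89N Pool.Agent.Lib.H33W
open scoped ENNReal

noncomputable section

set_option linter.unusedSectionVars false

variable {n : ℕ} {K : Type} [Field K] [NumberField K]

variable [NeZero n] (θ₀ : EE K →ₗ[ℝ] ℝ) (θ : Fin n → (EE K →ₗ[ℝ] ℝ))

/-- The Whittaker mean for the ideals `𝔡`. -/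
def MnS (𝔡 : TI n → Ideal (𝓞 K)) (θ₀ : EE K →ₗ[ℝ] ℝ) (θ : Fin n → (EE K →ₗ[ℝ] ℝ)) (h : SP n (EE K) → ℂ) (x : SP n (EE K)) : ℂ :=
  ⨍ t in LB 𝔡, h (uT t * x) * ee (-chS θ₀ θ t)

theorem wh_int {Γ : Subgroup (SP n K)} {𝔡 : TI n → Ideal (𝓞 K)} (hI : HasI Γ 𝔡) {𝔪 : Ideal (𝓞 K)} (hc : ChI 𝔪 θ₀ θ) (h𝔡 : ∀ p, 𝔡 p ≤ 𝔪)
    {h : SP n (EE K) → ℂ} (ih : ∀ γ ∈ Γ, ∀ x, h (embS γ * x) = h x) (x : SP n (EE K)) (g : UGS n K)
    (hg : (g : SP n K) ∈ Γ) (t : TI n → EE K) :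
    h (uT (g • t) * x) * ee (-chS θ₀ θ (g • t)) = h (uT t * x) * ee (-chS θ₀ θ t) := by
  have hm : ∀ p, InI 𝔪 (cuS (g : SP n K) p) := by
    intro p
    obtain ⟨y, hy, e⟩ := (hI.iff _ g.2).1 hg p
    exact ⟨y, h𝔡 p hy, e⟩
  obtain ⟨m, hm⟩ := chS_int θ₀ θ hc hm
  have h1 : chS θ₀ θ (g • t) = (m : ℝ) + chS θ₀ θ t := by
    rw [ut_smul, chS_lT θ₀ θ (isUS_emb.2 g.2), hm]
  rw [uT_smul, mul_assoc, ih _ hg, h1, neg_add, ee_add]
  have e : ee (-(m : ℝ)) = 1 := by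
    have := ee_int (-m)
    push_cast at this
    exact this
  rw [e, one_mul]

theorem v4b_rT_smul (M : SP n (EE K)) (hM : IsUS M) (g : UGS n K) (t : TI n → EE K) : rT M (g • t) = g • rT M t := by
  rw [ut_smul g (rT M t)]
  unfold lT
  rw [uT_rT hM]
  unfold rT
  rw [uT_smul, mul_assoc]

theorem v4b_inv {M : SP n (EE K)} (hM : IsUS M) (t : TI n → EE K) : rT M⁻¹ (rT M t) = t := by
  show cuS (uT (rT M t) * M⁻¹) = t
  rw [uT_rT hM, mul_assoc, mul_inv_cancel, mul_one, cuS_uT]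

/-- Right multiplication as a homeomorphism. -/
def v4b_homeo {M : SP n (EE K)} (hM : IsUS M) : (TI n → EE K) ≃ₜ (TI n → EE K) where
  toFun := rT M
  invFun := rT M⁻¹
  left_inv := v4b_inv hM
  right_inv := by
    intro t
    have h := v4b_inv (isUS_inv hM) t
    rwa [inv_inv] at h
  continuous_toFun := rT_cont M
  continuous_invFun := rT_cont M⁻¹

theorem v4b_H {h : SP n (EE K) → ℂ} (hh : Continuous h) (x : SP n (EE K)) :
    Continuous fun t : TI n → EE K => h (uT t * x) * ee (-chS θ₀ θ t) :=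
  (hh.comp (uT_cont.mul continuous_const)).mul (ee_continuous.comp (chS_cont θ₀ θ).neg)

/-- `MnS` is equivariant: `W(u x) = ψ(u) W(x)`. PROOF. `W(u x) = mean of h(uT t u x) ψ(t)⁻¹`; with `s = rT u t`: `uT s = uT t u`, `chS s = chS t + chS u`: `= ψ(u) mean over t of H(rT u t)`, `H(s) = h(uT s x) ψ(s)⁻¹`; `rT u` preserves the measure and commutes with the left action of `Γ ∩ U`,
so `rT u '' LB` is again a fundamental domain (`mean_box`). Division by the volume of `LB`. -/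
theorem mnS_eq {Γ : Subgroup (SP n K)} {𝔡 : TI n → Ideal (𝓞 K)} (hI : HasI Γ 𝔡) {𝔪 : Ideal (𝓞 K)} (hc : ChI 𝔪 θ₀ θ) (h𝔡 : ∀ p, 𝔡 p ≤ 𝔪)
    {h : SP n (EE K) → ℂ} (hh : Continuous h) (ih : ∀ γ ∈ Γ, ∀ x, h (embS γ * x) = h x) {u : SP n (EE K)} (hu : IsUS u) (x : SP n (EE K)) :
    MnS 𝔡 θ₀ θ h (u * x) = ee (chS θ₀ θ (cuS u)) * MnS 𝔡 θ₀ θ h x := by
  have hpt : ∀ t : TI n → EE K, h (uT t * (u * x)) * ee (-chS θ₀ θ t) =
      ee (chS θ₀ θ (cuS u)) * (h (uT (rT u t) * x) * ee (-chS θ₀ θ (rT u t))) := by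
    intro t
    have h1 : chS θ₀ θ (rT u t) = chS θ₀ θ t + chS θ₀ θ (cuS u) := by
      unfold rT
      rw [chS_mul θ₀ θ (isUS_uT t) hu, cuS_uT]
    have h2 : ee (chS θ₀ θ (cuS u)) * ee (-(chS θ₀ θ t + chS θ₀ θ (cuS u))) = ee (-chS θ₀ θ t) := by
      rw [← ee_add]
      congr 1
      ring
    rw [uT_rT hu, h1, ← mul_assoc, mul_comm (ee (chS θ₀ θ (cuS u))), mul_comm (ee _) _, mul_assoc (uT t) u x] at *
    rw [← h2]
    ring
  have hD : SF (Γ.subgroupOf (UGS n K)) ((rT u⁻¹) ⁻¹' LB 𝔡) := by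
    refine ⟨(rT_cont u⁻¹).measurable (sf_LB hI).meas, ?_⟩
    intro s
    obtain ⟨γ, hγ, hu'⟩ := (sf_LB hI).fd (rT u⁻¹ s)
    refine ⟨γ, ?_, ?_⟩
    · show rT u⁻¹ ((γ : UGS n K) • s) ∈ LB 𝔡
      rw [v4b_rT_smul _ (isUS_inv hu)]
      exact hγ
    · intro γ' hγ'
      apply hu'
      have h3 : rT u⁻¹ ((γ' : UGS n K) • s) ∈ LB 𝔡 := hγ'
      rw [v4b_rT_smul _ (isUS_inv hu)] at h3
      exact h3
  have hpre : LB 𝔡 = (rT u) ⁻¹' ((rT u⁻¹) ⁻¹' LB 𝔡) := by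
    ext t
    show t ∈ LB 𝔡 ↔ rT u⁻¹ (rT u t) ∈ LB 𝔡
    rw [v4b_inv hu]
  have hint : ∫ t in LB 𝔡, (h (uT (rT u t) * x) * ee (-chS θ₀ θ (rT u t))) =
      ∫ t in LB 𝔡, h (uT t * x) * ee (-chS θ₀ θ t) := by
    have h4 := (rT_mp hu).setIntegral_preimage_emb (v4b_homeo hu).measurableEmbedding
      (fun t => h (uT t * x) * ee (-chS θ₀ θ t)) ((rT u⁻¹) ⁻¹' LB 𝔡)
    rw [← hpre] at h4
    rw [h4]
    refine mean_box hI hD (v4b_H θ₀ θ hh x).measurable ?_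
    intro g hg t
    exact wh_int θ₀ θ hI hc h𝔡 ih x g hg t
  unfold MnS
  simp_rw [hpt]
  rw [setAverage_eq, setAverage_eq, integral_const_mul, hint, mul_smul_comm]

theorem mnS_cont {𝔡 : TI n → Ideal (𝓞 K)} (h𝔡 : ∀ p, 𝔡 p ≠ ⊥) {h : SP n (EE K) → ℂ} (hh : Continuous h) : Continuous (MnS 𝔡 θ₀ θ h) := by
  have hfc : FirstCountableTopology (SP n (EE K)) := by
    have : FirstCountableTopology (Matrix (Fin n ⊕ Fin n) (Fin n ⊕ Fin n) (EE K)) :=
      inferInstanceAs (FirstCountableTopology ((Fin n ⊕ Fin n) → (Fin n ⊕ Fin n) → EE K))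
    exact TopologicalSpace.firstCountableTopology_induced _ _ SP.val
  have hc : Continuous fun q : SP n (EE K) × (TI n → EE K) => h (uT q.2 * q.1) * ee (-chS θ₀ θ q.2) :=
    (hh.comp ((uT_cont.comp continuous_snd).mul continuous_fst)).mul
      (ee_continuous.comp ((chS_cont θ₀ θ).comp continuous_snd).neg)
  have hK : IsCompact (closure (LB 𝔡)) := (LB_bdd h𝔡).isCompact_closure
  have hfin : IsFiniteMeasure (volume.restrict (LB 𝔡)) := by
    refine ⟨?_⟩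
    rw [Measure.restrict_apply_univ]
    exact lt_top_iff_ne_top.2 (LB_top h𝔡)
  unfold MnS
  simp only [setAverage_eq]
  refine Continuous.const_smul ?_ _
  rw [continuous_iff_continuousAt]
  intro x₀
  obtain ⟨C, hC⟩ := hK.exists_bound_of_continuousOn (f := fun t => h (uT t * x₀) * ee (-chS θ₀ θ t))
    (v4b_H θ₀ θ hh x₀).continuousOn
  have hev : ∀ᶠ x in nhds x₀, ∀ t ∈ closure (LB 𝔡), ‖h (uT t * x) * ee (-chS θ₀ θ t)‖ < C + 1 := by
    refine hK.eventually_forall_of_forall_eventually ?_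
    intro t ht
    have h1 : ContinuousAt (fun q : SP n (EE K) × (TI n → EE K) => ‖h (uT q.2 * q.1) * ee (-chS θ₀ θ q.2)‖) (x₀, t) :=
      hc.norm.continuousAt
    have h2 : ‖h (uT t * x₀) * ee (-chS θ₀ θ t)‖ < C + 1 := lt_of_le_of_lt (hC t ht) (lt_add_one C)
    exact h1.eventually (gt_mem_nhds h2)
  refine continuousAt_of_dominated (bound := fun _ => C + 1) ?_ ?_ (integrable_const _) ?_
  · exact Filter.Eventually.of_forall fun x => (v4b_H θ₀ θ hh x).aestronglyMeasurable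
  · filter_upwards [hev] with x hx
    refine ae_restrict_of_forall_mem ?_ fun t ht => (hx t (subset_closure ht)).le
    have e : LB 𝔡 = ⋂ p, {t : TI n → EE K | t p ∈ FI (𝔡 p)} := by
      ext t
      simp [LB]
    rw [e]
    exact MeasurableSet.iInter fun p => measurable_pi_apply p (fi_spec (h𝔡 p)).meas
  · refine Filter.Eventually.of_forall fun t => ?_
    exact (hc.comp (continuous_id.prodMk continuous_const)).continuousAt

end

end Pool.Agent.Lib.H67G
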